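import Mathlib

/-!
# First slopes of modular forms: the definitions used in the statement of the result

* `cnt P x` : number of primes `p ≤ x` with `P p`;
* `PosLower P` : the primes with `P` have positive lower density;
* `UpperOne P` : the primes with `P` have upper density one;
* `Dich S O` : many primes with `S` in a window force many primes with `O`;
* `Sl2R f p` : `p^(v_p(n)+1) ∣ a_n` for all `n ≥ 1` divisible by `p` (`f = ∑ a_n q^n`);
* `Ord0R f p` : `p^(v_p(n)) ∣ a_n` fails for some `n ≥ 1`.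
-/

open PowerSeries

namespace Pool.Agent.H85.OT

open Classical in
/-- number of primes `p ≤ x` with `P p` -/
noncomputable def cnt (P : ℕ → Prop) (x : ℕ) : ℕ :=
  ((Finset.range (x + 1)).filter (fun p => p.Prime ∧ P p)).card

/-- positive lower density among the primes -/
def PosLower (P : ℕ → Prop) : Prop :=
  ∃ c : ℝ, 0 < c ∧ ∃ x0 : ℕ, ∀ x ≥ x0, c * (Nat.primeCounting x : ℝ) ≤ cnt P x

/-- many primes with `S` in a window force many primes with `O` -/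
def Dich (S O : ℕ → Prop) : Prop :=
  ∀ ε : ℝ, 0 < ε → ∃ K : ℕ, 1 ≤ K ∧ ∃ δ : ℝ, 0 < δ ∧ ∃ X0 : ℕ, ∀ X ≥ X0,
    (∀ x : ℕ, X ≤ x → x ≤ K * X → ε * (Nat.primeCounting x : ℝ) ≤ cnt S x) →
      δ * (Nat.primeCounting (K * X) : ℝ) ≤ cnt O (K * X)

/-- `p^(v_p(n)+1) ∣ a_n` for all `n ≥ 1` divisible by `p` -/
def Sl2R {R : Type*} [CommRing R] (f : R⟦X⟧) (p : ℕ) : Prop :=
  ∀ n : ℕ, 1 ≤ n → p ∣ n → ((p : R) ^ (padicValNat p n + 1) ∣ PowerSeries.coeff n f)

/-- `p^(v_p(n)) ∣ a_n` fails for some `n ≥ 1` -/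
def Ord0R {R : Type*} [CommRing R] (f : R⟦X⟧) (p : ℕ) : Prop :=
  ∃ n : ℕ, 1 ≤ n ∧ ¬ ((p : R) ^ (padicValNat p n) ∣ PowerSeries.coeff n f)

end Pool.Agent.H85.OT

namespace Pool.Agent.H85.OU

open Pool.Agent.H85.OT

/-- upper density one among the primes -/
def UpperOne (P : ℕ → Prop) : Prop :=
  ∀ ε : ℝ, 0 < ε → ∀ X1 : ℕ, ∃ x ≥ X1, (1 - ε) * (Nat.primeCounting x : ℝ) ≤ cnt P x

end Pool.Agent.H85.OU
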