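import Mathlib
import Pool.Agent.H85.OM.M00

/-! First slopes of modular forms, part M01: this file joins several modules to save build time. -/

section S_OT_Defs

/-!
# Definitions for the project OT (first Newton slope of modular forms on `Γ₀(4)`)

`th3 = θ₃(q) = 1 + 2 ∑ q^(n²)`, `th4 = θ₄(q) = θ₃(-q)` as formal power series over `ℤ`.
`U R`, `V R` are the images of `θ₃²`, `θ₄²` in `R⟦X⟧`.  `Dq = q d/dq`.
For a field `K` of characteristic `≠ 2`:
`xx K = V/U`, `ee K = Dq U / U`, `zz K = ee / U²`.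
-/

open PowerSeries

namespace Pool.Agent.H85.OT

/-- `q d/dq`. -/
noncomputable def Dq (R : Type*) [CommRing R] : Derivation R R⟦X⟧ R⟦X⟧ :=
  (PowerSeries.X : R⟦X⟧) • PowerSeries.derivative (R := R)

theorem coeff_Dq {R : Type*} [CommRing R] (f : R⟦X⟧) (n : ℕ) :
    PowerSeries.coeff n (Dq R f) = (n : R) * PowerSeries.coeff n f := by
  rcases n with _ | n
  · simp [Dq]
  · simp [Dq, PowerSeries.coeff_succ_X_mul, PowerSeries.coeff_derivative, mul_comm]

/-- `θ₃(q) = 1 + 2 ∑_{n ≥ 1} q^(n²)` -/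
noncomputable def th3 : ℤ⟦X⟧ :=
  PowerSeries.mk fun n => if n = 0 then 1 else if IsSquare n then 2 else 0

/-- `θ₄(q) = θ₃(-q)` -/
noncomputable def th4 : ℤ⟦X⟧ :=
  PowerSeries.mk fun n => (-1) ^ n * PowerSeries.coeff n th3

/-- image of `θ₃²` -/
noncomputable def U (R : Type*) [CommRing R] : R⟦X⟧ :=
  PowerSeries.map (Int.castRingHom R) (th3 ^ 2)

/-- image of `θ₄²` -/
noncomputable def V (R : Type*) [CommRing R] : R⟦X⟧ :=
  PowerSeries.map (Int.castRingHom R) (th4 ^ 2)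

/-- `q ↦ q²` -/
noncomputable def dbl (R : Type*) [CommRing R] : R⟦X⟧ →ₐ[R] R⟦X⟧ :=
  PowerSeries.expand 2 two_ne_zero

section field
variable (K : Type*) [Field K]

/-- `x = θ₄²/θ₃²` -/
noncomputable def xx : K⟦X⟧ := V K * (U K)⁻¹

/-- `ε = D(θ₃²)/θ₃²` -/
noncomputable def ee : K⟦X⟧ := Dq K (U K) * (U K)⁻¹

/-- `z = ε/θ₃⁴` -/
noncomputable def zz : K⟦X⟧ := ee K * (U K)⁻¹ ^ 2

end field

/-- `f` is (up to a nonzero integer factor) a homogeneous polynomial of degree `w` in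
`θ₃⁴, θ₄⁴` with integer coefficients: a modular form of weight `2 w` on `Γ₀(4)`. -/
def IsForm (w : ℕ) (f : ℤ⟦X⟧) : Prop :=
  ∃ (M : ℤ) (c : ℕ → ℤ), M ≠ 0 ∧
    PowerSeries.C M * f =
      ∑ j ∈ Finset.range (w + 1), PowerSeries.C (c j) * (th3 ^ 4) ^ (w - j) * (th4 ^ 4) ^ j

/-- `a_n ≡ 0 mod p^(v_p(n))` fails for some `n ≥ 1` (for a newform: `p` is ordinary). -/
def Ord0 (f : ℤ⟦X⟧) (p : ℕ) : Prop :=
  ∃ n : ℕ, 1 ≤ n ∧ ¬ ((p : ℤ) ^ (padicValNat p n) ∣ PowerSeries.coeff n f)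

/-- `a_n ≡ 0 mod p^(v_p(n)+1)` for all `n` divisible by `p` (for a newform of weight `≥ 4`:
`p² ∣ a_p`). -/
def Sl2 (f : ℤ⟦X⟧) (p : ℕ) : Prop :=
  ∀ n : ℕ, 1 ≤ n → p ∣ n → ((p : ℤ) ^ (padicValNat p n + 1) ∣ PowerSeries.coeff n f)

end Pool.Agent.H85.OT

end S_OT_Defs

section S_OT_Dup

/-!
# Row DUP (project OT): the two duplication formulas for theta series

Notation: `r1 N = coeff N th3` = number of integers `n` with `n² = N`, and
`r2 N = coeff N (th3^2)` = number of pairs `(m, n)` of integers with `m² + n² = N`.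
Since `(-1)^N = (-1)^(m+n)` when `N = m² + n²`, `coeff N (th4^2) = (-1)^N * r2 N`
(also directly: `th4` is `th3` with `X` replaced by `-X`, a ring map; `PowerSeries.rescale (-1)`).

KEY: `r2 (2 N) = r2 N`, by the bijection `(m, n) ↦ (m + n, m - n)` from pairs with
`m² + n² = N` to pairs with sum of squares `2 N` (inverse: both entries have the same parity).

`two_dbl_U`: coefficient `N` of `th3^2 + th4^2` is `(1 + (-1)^N) r2 N`, so `0` for `N` odd and
`2 r2 (2M) = 2 r2 M` for `N = 2M`; this is coefficient `N` of `2 * dbl (th3^2)`.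

`dbl_th4_sq`: coefficient `N` of `th3 * th4` is the sum over pairs with `m² + n² = N` of
`(-1)^n`.  For `N` odd `m, n` have different parity, and swapping `m, n` shows the sum is `0`.
For `N = 2M`, `m = a + b`, `n = a - b` with `a² + b² = M`, and `(-1)^n = (-1)^(a+b) = (-1)^M`, so the
sum is `(-1)^M r2 M = coeff M (th4^2)`, which is coefficient `N` of `dbl (th4^2) = (dbl th4)^2`.

Suggested set-up: write `coeff N (th3 * th3)` (`PowerSeries.coeff_mul`) as a sum over the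
antidiagonal, and `coeff n th3 = ((Finset.Icc (-(n:ℤ)) n).filter (fun m => m^2 = n)).card`.
Alternative to pair counting: work with the square root function, `PowerSeries` of a
finite sum, or with `∑ m ∈ Icc (-N) N, X^(natAbs m ^ 2)` modulo `X^(N+1)`: two power series are
equal iff for all `N` their truncations agree; for finite sums over `Icc (-N) N ×ˢ Icc (-N) N`
use `Finset.sum_bij`.
-/

open PowerSeries

namespace Pool.Agent.H85.OT

/-- integers with square `n` -/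
noncomputable def Dup_S (n : ℕ) : Finset ℤ :=
  (Finset.Icc (-(n : ℤ)) n).filter fun m => m ^ 2 = (n : ℤ)

/-- pairs of integers with sum of squares `N` -/
noncomputable def Dup_P (N : ℕ) : Finset (ℤ × ℤ) :=
  (Finset.Icc (-(N : ℤ)) N ×ˢ Finset.Icc (-(N : ℤ)) N).filter fun p => p.1 ^ 2 + p.2 ^ 2 = (N : ℤ)

theorem Dup_le (m : ℤ) {N : ℤ} (h : m ^ 2 ≤ N) : m ∈ Finset.Icc (-N) N := by
  rw [Finset.mem_Icc]
  have h1 := Int.le_self_sq m
  have h2 := Int.le_self_sq (-m)
  rw [neg_sq] at h2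
  constructor <;> linarith

theorem Dup_mem_S {n : ℕ} {m : ℤ} : m ∈ Dup_S n ↔ m ^ 2 = (n : ℤ) := by
  unfold Dup_S
  rw [Finset.mem_filter]
  exact ⟨fun h => h.2, fun h => ⟨Dup_le m h.le, h⟩⟩

theorem Dup_mem_P {N : ℕ} {p : ℤ × ℤ} : p ∈ Dup_P N ↔ p.1 ^ 2 + p.2 ^ 2 = (N : ℤ) := by
  unfold Dup_P
  rw [Finset.mem_filter, Finset.mem_product]
  refine ⟨fun h => h.2, fun h => ⟨⟨Dup_le _ ?_, Dup_le _ ?_⟩, h⟩⟩
  · nlinarith [sq_nonneg p.2]
  · nlinarith [sq_nonneg p.1]

theorem Dup_coeff_mul {f g : ℤ⟦X⟧} {χ ψ : ℤ → ℤ}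
    (hf : ∀ n : ℕ, coeff n f = ∑ m ∈ Dup_S n, χ m)
    (hg : ∀ n : ℕ, coeff n g = ∑ m ∈ Dup_S n, ψ m) (N : ℕ) :
    coeff N (f * g) = ∑ p ∈ Dup_P N, χ p.1 * ψ p.2 := by
  rw [PowerSeries.coeff_mul, ← Finset.sum_fiberwise_of_maps_to (t := Finset.HasAntidiagonal.antidiagonal N)
    (g := fun p : ℤ × ℤ => (p.1.natAbs ^ 2, p.2.natAbs ^ 2))]
  · apply Finset.sum_congr rfl
    intro q hq
    rw [Finset.HasAntidiagonal.mem_antidiagonal] at hq
    rw [hf, hg, Finset.sum_mul_sum, ← Finset.sum_product']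
    apply Finset.sum_congr
    · ext p
      rw [Finset.mem_product, Finset.mem_filter, Dup_mem_S, Dup_mem_S, Dup_mem_P, Prod.ext_iff]
      constructor
      · rintro ⟨h1, h2⟩
        refine ⟨?_, ?_, ?_⟩
        · rw [h1, h2, ← hq]
          push_cast
          rfl
        · have h3 : ((p.1.natAbs ^ 2 : ℕ) : ℤ) = (q.1 : ℤ) := by
            push_cast
            rw [sq_abs, h1]
          exact_mod_cast h3
        · have h3 : ((p.2.natAbs ^ 2 : ℕ) : ℤ) = (q.2 : ℤ) := by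
            push_cast
            rw [sq_abs, h2]
          exact_mod_cast h3
      · rintro ⟨-, h1, h2⟩
        simp only at h1 h2
        rw [← h1, ← h2]
        push_cast
        rw [sq_abs, sq_abs]
        exact ⟨rfl, rfl⟩
    · intro p _
      rfl
  · intro p hp
    rw [Dup_mem_P] at hp
    rw [Finset.HasAntidiagonal.mem_antidiagonal]
    have h3 : ((p.1.natAbs ^ 2 + p.2.natAbs ^ 2 : ℕ) : ℤ) = (N : ℤ) := by
      push_cast
      rw [sq_abs, sq_abs, hp]
    exact_mod_cast h3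

/-- the sign `(-1)^m` -/
noncomputable def Dup_c (m : ℤ) : ℤ := ((m.negOnePow : ℤˣ) : ℤ)

theorem Dup_c_sub (a b : ℤ) : Dup_c (a - b) = Dup_c a * Dup_c b := by
  unfold Dup_c
  rw [Int.negOnePow_sub]
  push_cast
  rfl

theorem Dup_c_nat {N : ℕ} {a b : ℤ} (h : a ^ 2 + b ^ 2 = (N : ℤ)) :
    Dup_c a * Dup_c b = (-1) ^ N := by
  have h1 : a.negOnePow * b.negOnePow = (N : ℤ).negOnePow := by
    rw [← h, Int.negOnePow_add, pow_two, pow_two, Int.negOnePow_mul_self, Int.negOnePow_mul_self]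
  unfold Dup_c
  rw [← Units.val_mul, h1]
  simp [Int.negOnePow]

theorem Dup_th3 (n : ℕ) : coeff n th3 = ∑ _m ∈ Dup_S n, (1 : ℤ) := by
  unfold th3
  rw [PowerSeries.coeff_mk]
  split_ifs with h1 h2
  · subst h1
    have : Dup_S 0 = {0} := by
      ext m
      rw [Dup_mem_S]
      simp
    rw [this]
    simp
  · obtain ⟨k, rfl⟩ := h2
    have hk : (k : ℤ) ≠ 0 := by
      intro h
      apply h1
      have : k = 0 := by exact_mod_cast h
      rw [this]
    have : Dup_S (k * k) = {(k : ℤ), -(k : ℤ)} := by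
      ext m
      rw [Dup_mem_S]
      push_cast
      rw [← pow_two, sq_eq_sq_iff_eq_or_eq_neg]
      simp
    rw [this, Finset.sum_pair]
    · norm_num
    · intro h
      apply hk
      linarith
  · have : Dup_S n = ∅ := by
      rw [Finset.eq_empty_iff_forall_notMem]
      intro m hm
      rw [Dup_mem_S] at hm
      apply h2
      refine ⟨m.natAbs, ?_⟩
      have h3 : (n : ℤ) = ((m.natAbs * m.natAbs : ℕ) : ℤ) := by
        push_cast
        rw [abs_mul_abs_self, ← hm, pow_two]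
      exact_mod_cast h3
    rw [this]
    simp

theorem Dup_th4 (n : ℕ) : coeff n th4 = ∑ m ∈ Dup_S n, Dup_c m := by
  unfold th4
  rw [PowerSeries.coeff_mk, Dup_th3, Finset.mul_sum]
  apply Finset.sum_congr rfl
  intro m hm
  rw [Dup_mem_S] at hm
  have h := Dup_c_nat (N := n) (a := m) (b := 0) (by rw [hm]; simp)
  rw [← h]
  simp [Dup_c]

theorem Dup_sum (M : ℕ) (F : ℤ × ℤ → ℤ) :
    ∑ p ∈ Dup_P (2 * M), F p = ∑ p ∈ Dup_P M, F (p.1 + p.2, p.1 - p.2) := by
  symm
  refine Finset.sum_bij' (fun p _ => (p.1 + p.2, p.1 - p.2))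
    (fun p _ => ((p.1 + p.2) / 2, (p.1 - p.2) / 2)) ?_ ?_ ?_ ?_ ?_
  · intro p hp
    rw [Dup_mem_P] at hp ⊢
    push_cast
    rw [← hp]
    ring
  · intro p hp
    rw [Dup_mem_P] at hp ⊢
    push_cast at hp
    obtain ⟨x, y⟩ := p
    simp only at hp ⊢
    have hpar : (x + y) % 2 = 0 := by
      have h1 : (x ^ 2 + y ^ 2) % 2 = 0 := by rw [hp]; simp
      rcases Int.emod_two_eq_zero_or_one x with hx | hx <;>
        rcases Int.emod_two_eq_zero_or_one y with hy | hy <;>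
        simp [pow_two, Int.add_emod, Int.mul_emod, hx, hy] at h1 ⊢
    obtain ⟨a, ha⟩ : ∃ a, x + y = 2 * a := ⟨(x + y) / 2, by omega⟩
    have hb : x - y = 2 * (a - y) := by linarith
    rw [ha, hb, Int.mul_ediv_cancel_left _ two_ne_zero, Int.mul_ediv_cancel_left _ two_ne_zero]
    have hx : x = 2 * a - y := by linarith
    rw [hx] at hp
    nlinarith [hp]
  · intro p _
    obtain ⟨x, y⟩ := p
    simp only [Prod.mk.injEq]
    constructor
    · have : x + y + (x - y) = 2 * x := by ring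
      rw [this, Int.mul_ediv_cancel_left _ two_ne_zero]
    · have : x + y - (x - y) = 2 * y := by ring
      rw [this, Int.mul_ediv_cancel_left _ two_ne_zero]
  · intro p hp
    rw [Dup_mem_P] at hp
    push_cast at hp
    obtain ⟨x, y⟩ := p
    simp only at hp ⊢
    have hpar : (x + y) % 2 = 0 := by
      have h1 : (x ^ 2 + y ^ 2) % 2 = 0 := by rw [hp]; simp
      rcases Int.emod_two_eq_zero_or_one x with hx | hx <;>
        rcases Int.emod_two_eq_zero_or_one y with hy | hy <;>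
        simp [pow_two, Int.add_emod, Int.mul_emod, hx, hy] at h1 ⊢
    rw [Prod.mk.injEq]
    constructor <;> omega
  · intro p _
    rfl

theorem Dup_odd {N : ℕ} (hN : ¬ 2 ∣ N) : ((-1 : ℤ)) ^ N = -1 := by
  apply Odd.neg_one_pow
  rw [Nat.odd_iff]
  omega

theorem two_dbl_U : 2 * dbl ℤ (th3 ^ 2) = th3 ^ 2 + th4 ^ 2 := by
  ext N
  rw [two_mul, map_add, map_add, pow_two, pow_two,
    Dup_coeff_mul Dup_th3 Dup_th3, Dup_coeff_mul Dup_th4 Dup_th4, ← Finset.sum_add_distrib]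
  unfold dbl
  by_cases h : 2 ∣ N
  · obtain ⟨M, rfl⟩ := h
    rw [PowerSeries.coeff_expand_mul, Dup_coeff_mul Dup_th3 Dup_th3, Dup_sum,
      ← Finset.sum_add_distrib]
    apply Finset.sum_congr rfl
    intro p hp
    rw [Dup_mem_P] at hp
    have h1 : (p.1 + p.2) ^ 2 + (p.1 - p.2) ^ 2 = ((2 * M : ℕ) : ℤ) := by
      push_cast
      rw [← hp]
      ring
    simp only
    rw [Dup_c_nat h1, pow_mul]
    norm_num
  · rw [PowerSeries.coeff_expand_of_not_dvd _ _ _ h, add_zero]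
    symm
    apply Finset.sum_eq_zero
    intro p hp
    rw [Dup_mem_P] at hp
    rw [Dup_c_nat hp, Dup_odd h]
    norm_num

theorem dbl_th4_sq : (dbl ℤ th4) ^ 2 = th3 * th4 := by
  ext N
  rw [← map_pow, pow_two, Dup_coeff_mul Dup_th3 Dup_th4]
  unfold dbl
  by_cases h : 2 ∣ N
  · obtain ⟨M, rfl⟩ := h
    rw [PowerSeries.coeff_expand_mul, Dup_coeff_mul Dup_th4 Dup_th4, Dup_sum]
    apply Finset.sum_congr rfl
    intro p _
    rw [one_mul, Dup_c_sub]
  · rw [PowerSeries.coeff_expand_of_not_dvd _ _ _ h]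
    have h1 : ∑ p ∈ Dup_P N, 1 * Dup_c p.2 = ∑ p ∈ Dup_P N, 1 * Dup_c p.1 := by
      refine Finset.sum_bij' (fun p _ => (p.2, p.1)) (fun p _ => (p.2, p.1)) ?_ ?_ ?_ ?_ ?_
      · intro p hp
        rw [Dup_mem_P] at hp ⊢
        rw [← hp]
        ring
      · intro p hp
        rw [Dup_mem_P] at hp ⊢
        rw [← hp]
        ring
      · intro p _
        rfl
      · intro p _
        rfl
      · intro p _
        rfl
    have h2 : ∑ p ∈ Dup_P N, 1 * Dup_c p.2 + ∑ p ∈ Dup_P N, 1 * Dup_c p.1 = 0 := by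
      rw [← Finset.sum_add_distrib]
      apply Finset.sum_eq_zero
      intro p hp
      rw [Dup_mem_P] at hp
      have h3 := Dup_c_nat hp
      rw [Dup_odd h] at h3
      have h4 : Dup_c p.1 = 1 ∨ Dup_c p.1 = -1 := by
        unfold Dup_c
        rcases Int.units_eq_one_or p.1.negOnePow with h | h <;> simp [h]
      rcases h4 with h4 | h4
      · rw [h4] at h3 ⊢
        linarith
      · rw [h4] at h3 ⊢
        linarith
    linarith

end Pool.Agent.H85.OT

end S_OT_Dup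

section S_OT_Wron

/-!
# Row WRON (project OT): the Wronskian of `θ₃²`, `θ₄²`

Notation `u = th3^2`, `v = th4^2`, `D = Dq ℤ` and `F~ = dbl ℤ F` (so `F~(q) = F(q²)`).
Rules: `D (F~) = 2 (D F)~`; `2 u~ = u + v` (`two_dbl_U`); `v~² = u v` (square of `dbl_th4_sq`:
`v~ = (dbl th4)^2 = th3 * th4`, so `v~² = u v`).
First coefficients: `u = 1 + 4 q + ..`, `v = 1 - 4 q + ..`.

Put `W = 2 (u Dv - v Du) + u v (u² - v²)`.  Then
`2 v~ (D v~) = D(uv) = u Dv + v Du`, and `2 (Dv)~ = D(v~)`, so (all over `ℤ`, after clearing `2`)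
`W~ = u~ D(v~) - v~ D(u~) + u~ v~ (u~² - v~²)` and
`8 v~ W~ = 2 (u+v)(u Dv + v Du) - 4 u v (Du + Dv) + (u+v) u v (u-v)²`
        `= 2 (u-v)(u Dv - v Du) + (u-v) u v (u² - v²) = (u - v) W`.
(`8 u~ v~² (u~² - v~²) = 4 (u+v) u v ((u+v)²/4 - u v) = (u+v) u v (u-v)²`.)
The coefficients `0, 1` of `W` vanish (`2(-4-4) + 16 = 0`), and `u - v = 8 q + ..` has order
exactly `1`.  If `W ≠ 0` had order `N ≥ 2`, the left side has order `2 N` (`v~` has constant
term `1`), the right side `N + 1 < 2 N`; contradiction.  So `W = 0`.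
(Or: by strong induction all coefficients of `W` vanish: if the coefficients `< N` of `W` vanish
and `N ≥ 2`, look at coefficient `N + 1 < 2 N` of both sides.)
-/

open PowerSeries

namespace Pool.Agent.H85.OT

lemma Wron_c0 (f g : ℤ⟦X⟧) : coeff 0 (f * g) = coeff 0 f * coeff 0 g := by
  rw [PowerSeries.coeff_mul]
  simp

lemma Wron_c1 (f g : ℤ⟦X⟧) : coeff 1 (f * g) = coeff 0 f * coeff 1 g + coeff 1 f * coeff 0 g := by
  rw [PowerSeries.coeff_mul, Finset.Nat.antidiagonal_succ]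
  simp

lemma Wron_dbl (F : ℤ⟦X⟧) : Dq ℤ (dbl ℤ F) = 2 * dbl ℤ (Dq ℤ F) := by
  ext n
  have h2 : (2 : ℤ⟦X⟧) * dbl ℤ (Dq ℤ F) = dbl ℤ (Dq ℤ F) + dbl ℤ (Dq ℤ F) := by ring
  rw [coeff_Dq, h2, map_add]
  unfold dbl
  rw [PowerSeries.coeff_expand, PowerSeries.coeff_expand]
  split_ifs with h
  · obtain ⟨m, rfl⟩ := h
    rw [Nat.mul_div_cancel_left _ two_pos, coeff_Dq]
    push_cast
    ring
  · ring

lemma Wron_t30 : coeff 0 th3 = 1 := by
  simp [th3]

lemma Wron_t31 : coeff 1 th3 = 2 := by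
  simp [th3]

lemma Wron_t40 : coeff 0 th4 = 1 := by
  unfold th4
  rw [PowerSeries.coeff_mk, Wron_t30]
  norm_num

lemma Wron_t41 : coeff 1 th4 = -2 := by
  unfold th4
  rw [PowerSeries.coeff_mk, Wron_t31]
  norm_num

theorem wron :
    2 * (th3 ^ 2 * Dq ℤ (th4 ^ 2) - th4 ^ 2 * Dq ℤ (th3 ^ 2)) =
      -(th3 ^ 2 * th4 ^ 2 * (th3 ^ 4 - th4 ^ 4)) := by
  set u : ℤ⟦X⟧ := th3 ^ 2 with hu
  set v : ℤ⟦X⟧ := th4 ^ 2 with hv
  have hu4 : th3 ^ 4 = u ^ 2 := by rw [hu]; ring
  have hv4 : th4 ^ 4 = v ^ 2 := by rw [hv]; ring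
  rw [hu4, hv4]
  have u0 : coeff 0 u = 1 := by rw [hu, sq, Wron_c0, Wron_t30]; norm_num
  have v0 : coeff 0 v = 1 := by rw [hv, sq, Wron_c0, Wron_t40]; norm_num
  have u1 : coeff 1 u = 4 := by rw [hu, sq, Wron_c1, Wron_t30, Wron_t31]; norm_num
  have v1 : coeff 1 v = -4 := by rw [hv, sq, Wron_c1, Wron_t40, Wron_t41]; norm_num
  set a : ℤ⟦X⟧ := dbl ℤ u with ha
  set b : ℤ⟦X⟧ := dbl ℤ v with hb
  have h1 : 2 * a = u + v := two_dbl_U
  have h2 : b ^ 2 = u * v := by
    rw [hb, hv, map_pow, dbl_th4_sq, hu]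
    ring
  set W : ℤ⟦X⟧ := 2 * (u * Dq ℤ v - v * Dq ℤ u) + u * v * (u ^ 2 - v ^ 2) with hW
  have hD2 : ∀ f g : ℤ⟦X⟧, Dq ℤ (f * g) = f * Dq ℤ g + g * Dq ℤ f := by
    intro f g
    rw [Derivation.leibniz, smul_eq_mul, smul_eq_mul]
  have h3 : dbl ℤ W = a * Dq ℤ b - b * Dq ℤ a + a * b * (a ^ 2 - b ^ 2) := by
    rw [ha, hb, Wron_dbl, Wron_dbl, hW]
    simp only [map_add, map_sub, map_mul, map_pow]
    rw [show dbl ℤ (2 : ℤ⟦X⟧) = 2 from map_ofNat _ 2]
    ring
  have h4 : 2 * (b * Dq ℤ b) = u * Dq ℤ v + v * Dq ℤ u := by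
    rw [← hD2, ← h2, sq, hD2]
    ring
  have h5 : 2 * Dq ℤ a = Dq ℤ u + Dq ℤ v := by
    have := congrArg (Dq ℤ) h1
    rw [map_add, two_mul, map_add] at this
    rw [two_mul]
    exact this
  have key : 8 * b * dbl ℤ W = (u - v) * W := by
    have e1 : 8 * b * dbl ℤ W = 2 * (2 * a) * (2 * (b * Dq ℤ b)) - 4 * b ^ 2 * (2 * Dq ℤ a) +
        (2 * a) * b ^ 2 * ((2 * a) ^ 2 - 4 * b ^ 2) := by
      rw [h3]; ring
    rw [e1, h1, h2, h4, h5, hW]
    ring
  have hW0 : W = 0 := by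
    by_contra hne
    have ho := congrArg PowerSeries.order key
    rw [PowerSeries.order_mul (8 * b), PowerSeries.order_mul (u - v)] at ho
    have o1 : (8 * b).order = 0 := by
      have : coeff 0 (8 * b) ≠ 0 := by
        have h8 : coeff 0 b = 1 := by
          rw [hb]
          unfold dbl
          rw [PowerSeries.coeff_expand]
          simpa using v0
        rw [Wron_c0, h8, mul_one, PowerSeries.coeff_zero_eq_constantCoeff_apply, map_ofNat]
        norm_num
      exact le_antisymm (by exact_mod_cast PowerSeries.order_le 0 this) bot_le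
    have o2 : (u - v).order = 1 := by
      have : (u - v).order = ((1 : ℕ) : ℕ∞) := by
        rw [PowerSeries.order_eq_nat]
        constructor
        · rw [map_sub, u1, v1]; norm_num
        · intro i hi
          have : i = 0 := by omega
          subst this
          rw [map_sub, u0, v0]; norm_num
      exact_mod_cast this
    have o3 : (dbl ℤ W).order = 2 • W.order := PowerSeries.order_expand 2 two_ne_zero W
    rw [o1, o2, o3, zero_add] at ho
    obtain ⟨N, hN⟩ := ENat.ne_top_iff_exists.1 (PowerSeries.order_eq_top.not.2 hne)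
    rw [← hN] at ho
    have ho' : 2 * N = 1 + N := by
      rw [nsmul_eq_mul] at ho
      exact_mod_cast ho
    have hN1 : N = 1 := by omega
    subst hN1
    have hc := (PowerSeries.order_eq_nat.1 hN.symm).1
    apply hc
    rw [hW]
    have t2 : (2 : ℤ⟦X⟧) * (u * Dq ℤ v - v * Dq ℤ u) = (u * Dq ℤ v - v * Dq ℤ u) +
      (u * Dq ℤ v - v * Dq ℤ u) := by ring
    rw [t2]
    simp only [map_add, map_sub, sq, Wron_c1, Wron_c0, coeff_Dq, u0, u1, v0, v1]
    norm_num
  have h6 : 2 * (u * Dq ℤ v - v * Dq ℤ u) + u * v * (u ^ 2 - v ^ 2) = 0 := hW0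
  linear_combination h6

end Pool.Agent.H85.OT

end S_OT_Wron

section S_OT_Ode

/-!
# Row ODE (project OT): the differential equation of `θ₃²`

Notation `u = th3^2`, `v = th4^2`, `D = Dq ℤ` and `F~ = dbl ℤ F` (so `F~(q) = F(q²)`).
Rules: `D (F~) = 2 (D F)~`; `2 u~ = u + v` (`two_dbl_U`); `v~² = u v` (square of `dbl_th4_sq`:
`v~ = (dbl th4)^2 = th3 * th4`, so `v~² = u v`).
`wron : 2 (u Dv - v Du) = - u v (u² - v²)`.

Put `E = 4 u D²u - 8 (Du)² - u² v² (u² - v²)`; work over `ℚ` (map `ℤ → ℚ` is injective on power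
series), where `u` is invertible: `ε = Du/u`, `e = E/u² = 4 Dε - 4 ε² - v²(u² - v²)`
(`Dε = D²u/u - (Du)²/u²`).  From `wron`: `Dv = v ε - (1/2) v (u² - v²)`.
`ε~ = D(u~)/(2 u~) = (Du + Dv)/(2(u+v)) = ε/2 - (1/4) v (u-v)`.
`(Dε)~ = (1/2) D(ε~) = (1/4) Dε - (1/8) D(v(u-v))`, and
`D(v(u-v)) = u Dv + v Du - 2 v Dv = 2 v (u-v) ε + (1/2) v (u²-v²)(2v - u)`.
`e~ = 4 (Dε)~ - 4 ε~² - v~²(u~² - v~²)`
   `= Dε - (1/2) D(v(u-v)) - (ε - (1/2) v(u-v))² - (1/4) u v (u-v)²`
   `= Dε - ε² - (1/4) v (u-v) [ (u+v)(2v-u) + v(u-v) + u(u-v) ]`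
   `= Dε - ε² - (1/4) v² (u² - v²) = e/4`.
So `4 e~ = e`; comparing coefficients, `e_0 = 4 e_0`, `e_N = 0` for `N` odd, `e_(2M) = 4 e_M`, hence
`e = 0` by strong induction.
(If preferred: multiply everything out and use `linear_combination` over `ℤ` or `ℚ`.)
-/

open PowerSeries

namespace Pool.Agent.H85.OT

theorem Ode_D_dbl (F : ℤ⟦X⟧) : Dq ℤ (dbl ℤ F) = 2 * dbl ℤ (Dq ℤ F) := by
  ext n
  rw [coeff_Dq, two_mul, map_add]
  by_cases h : 2 ∣ n
  · obtain ⟨m, rfl⟩ := h
    rw [dbl, coeff_expand_mul, coeff_expand_mul, coeff_Dq]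
    push_cast
    ring
  · rw [dbl, coeff_expand_of_not_dvd _ _ _ h, coeff_expand_of_not_dvd _ _ _ h]
    simp

/-- a power series with this functional equation vanishes -/
theorem Ode_zero (E A B : ℤ⟦X⟧) (hA : constantCoeff A = 1) (hB : constantCoeff B = 4)
    (h : 16 * (dbl ℤ E * A) = E * B) : E = 0 := by
  have key : ∀ n, (X : ℤ⟦X⟧) ^ n ∣ E := by
    intro n
    induction n with
    | zero => rw [pow_zero]; exact one_dvd E
    | succ n ih =>
      obtain ⟨G, hG⟩ := ih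
      have h1 : dbl ℤ E = X ^ n * (X ^ n * dbl ℤ G) := by
        rw [hG, map_mul, map_pow, dbl, expand_X, ← pow_mul, two_mul, pow_add, mul_assoc]
      have h2 : X ^ n * (16 * (X ^ n * dbl ℤ G * A)) = X ^ n * (G * B) := by
        rw [h1] at h
        conv_rhs at h => rw [hG]
        linear_combination h
      have h3 := mul_left_cancel₀ (pow_ne_zero n (X_ne_zero (R := ℤ))) h2
      have h4 := congrArg (constantCoeff (R := ℤ)) h3
      rw [map_mul, map_mul, map_mul, map_mul, hA, hB, map_pow, constantCoeff_X, dbl,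
        constantCoeff_expand] at h4
      have h16 : constantCoeff (R := ℤ) 16 = 16 := map_ofNat _ 16
      rw [h16] at h4
      have h5 : constantCoeff G = 0 := by
        rcases Nat.eq_zero_or_pos n with h0 | h0
        · rw [h0, pow_zero] at h4
          linarith
        · rw [zero_pow h0.ne'] at h4
          linarith
      obtain ⟨H, hH⟩ := X_dvd_iff.mpr h5
      exact ⟨H, by rw [hG, hH, pow_succ, mul_assoc]⟩
  ext n
  rw [map_zero]
  exact X_pow_dvd_iff.mp (key (n + 1)) n (Nat.lt_succ_self n)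

theorem Ode_poly (u v p P r R u' p' r' v' : ℤ⟦X⟧)
    (W0 : 2 * (u * P - v * p) = -(u * v * (u ^ 2 - v ^ 2)))
    (W1 : 2 * (u * R - v * r) = -((p * v + u * P) * (u ^ 2 - v ^ 2) + u * v * (2 * (u * p) - 2 * (v * P))))
    (h1 : 2 * u' = u + v) (h2 : v' ^ 2 = u * v) (h3 : 4 * p' = p + P) (h4 : 8 * r' = r + R) :
    16 * ((4 * (u' * r') - 8 * p' ^ 2 - u' ^ 2 * v' ^ 2 * (u' ^ 2 - v' ^ 2)) * u ^ 2) =
      (4 * (u * r) - 8 * p ^ 2 - u ^ 2 * v ^ 2 * (u ^ 2 - v ^ 2)) * (u + v) ^ 2 := by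
  have e1 : 16 * (4 * (u' * r') - 8 * p' ^ 2 - u' ^ 2 * v' ^ 2 * (u' ^ 2 - v' ^ 2)) =
      4 * ((2 * u') * (8 * r')) - 8 * (4 * p') ^ 2 -
        (2 * u') ^ 2 * v' ^ 2 * ((2 * u') ^ 2 - 4 * v' ^ 2) := by ring
  rw [← mul_assoc, e1, h1, h2, h3, h4]
  linear_combination (2 * u * (u + v)) * W1 + (-4 * (2 * u * p + u * P + v * p) +
    2 * u * v * (u ^ 2 - v ^ 2) - u * (u + v) * (u ^ 2 - v ^ 2) + 2 * u * v ^ 2 * (u + v)) * W0

theorem ode :
    4 * (th3 ^ 2 * Dq ℤ (Dq ℤ (th3 ^ 2))) - 8 * (Dq ℤ (th3 ^ 2)) ^ 2 =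
      th3 ^ 4 * th4 ^ 4 * (th3 ^ 4 - th4 ^ 4) := by
  have W0 := wron
  have h1 := two_dbl_U
  have h2 : (dbl ℤ (th4 ^ 2)) ^ 2 = th3 ^ 2 * th4 ^ 2 := by
    rw [map_pow, dbl_th4_sq]
    ring
  have c3 : constantCoeff th3 = 1 := by
    rw [← coeff_zero_eq_constantCoeff_apply, th3, coeff_mk]
    simp
  have c4 : constantCoeff th4 = 1 := by
    rw [← coeff_zero_eq_constantCoeff_apply, th4, coeff_mk, pow_zero, one_mul,
      coeff_zero_eq_constantCoeff_apply, c3]
  have cu : constantCoeff (th3 ^ 2) = 1 := by rw [map_pow, c3, one_pow]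
  have cv : constantCoeff (th4 ^ 2) = 1 := by rw [map_pow, c4, one_pow]
  have e3 : th3 ^ 4 = (th3 ^ 2) ^ 2 := by ring
  have e4 : th4 ^ 4 = (th4 ^ 2) ^ 2 := by ring
  rw [e3, e4] at W0
  rw [e3, e4]
  generalize th3 ^ 2 = u at *
  generalize th4 ^ 2 = v at *
  have h3 : 4 * dbl ℤ (Dq ℤ u) = Dq ℤ u + Dq ℤ v := by
    have h := congrArg (Dq ℤ) h1
    rw [two_mul, map_add, map_add, Ode_D_dbl] at h
    linear_combination h
  have h4 : 8 * dbl ℤ (Dq ℤ (Dq ℤ u)) = Dq ℤ (Dq ℤ u) + Dq ℤ (Dq ℤ v) := by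
    have h5 : dbl ℤ (Dq ℤ u) + dbl ℤ (Dq ℤ u) + (dbl ℤ (Dq ℤ u) + dbl ℤ (Dq ℤ u)) =
        Dq ℤ u + Dq ℤ v := by linear_combination h3
    have h := congrArg (Dq ℤ) h5
    rw [map_add, map_add, map_add, Ode_D_dbl] at h
    linear_combination h
  have W1 : 2 * (u * Dq ℤ (Dq ℤ v) - v * Dq ℤ (Dq ℤ u)) =
      -((Dq ℤ u * v + u * Dq ℤ v) * (u ^ 2 - v ^ 2) +
        u * v * (2 * (u * Dq ℤ u) - 2 * (v * Dq ℤ v))) := by
    rw [two_mul, pow_two, pow_two] at W0
    have h := congrArg (Dq ℤ) W0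
    simp only [map_add, map_sub, map_neg, Derivation.leibniz, smul_eq_mul] at h
    linear_combination h
  have key := Ode_poly u v (Dq ℤ u) (Dq ℤ v) (Dq ℤ (Dq ℤ u)) (Dq ℤ (Dq ℤ v)) (dbl ℤ u)
    (dbl ℤ (Dq ℤ u)) (dbl ℤ (Dq ℤ (Dq ℤ u))) (dbl ℤ v) W0 W1 h1 h2 h3 h4
  have hE := Ode_zero (4 * (u * Dq ℤ (Dq ℤ u)) - 8 * Dq ℤ u ^ 2 - u ^ 2 * v ^ 2 * (u ^ 2 - v ^ 2))
    (u ^ 2) ((u + v) ^ 2) (by rw [map_pow, cu, one_pow])
    (by rw [map_pow, map_add, cu, cv]; norm_num) (by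
      rw [← key]
      congr 2
      simp only [map_sub, map_mul, map_pow, map_ofNat])
  linear_combination hE

end Pool.Agent.H85.OT

end S_OT_Ode

section S_OT_Fld

/-!
# Row FLD (project OT): the field version of the theta identities

`K` is a field in which `2 ≠ 0`.  `U K, V K` are the images of `th3^2, th4^2` (constant term `1`, so
invertible), `xx = V/U`, `ee = D U / U`, `zz = ee / U²`.  Everything follows from the images under
`PowerSeries.map (Int.castRingHom K)` of `two_dbl_U`, `dbl_th4_sq`, `wron`, `ode` (`map` commutes with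
`Dq` and `dbl`: compare coefficients, `coeff_Dq`, `PowerSeries.coeff_expand..`) by field algebra
(`PowerSeries.mul_inv_cancel` with nonzero constant coefficient):
* `D x = D V / U - V D U / U² = (U DV - V DU)/U² = -(1/2) U V (U² - V²)/U² = -(1/2) x (1 - x²) U²`;
* `4 D ε = 4 D²U/U - 4 (DU)²/U²`, and `4 U D²U = 8 (DU)² + U² V² (U² - V²)`, so
  `4 D ε = 4 ε² + V² (U² - V²) = 4 ε² + x² (1 - x²) U⁴`;
* `D z = D ε / U² - 2 ε² / U²`, so `4 D z = U² (x²(1-x²) - 4 z²)`;
* `2 U~ = U + V = U (1 + x)`; `x~ = V~/U~`, `V~² = U V`, so `(1+x)² x~² = 4 x`.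
-/

open PowerSeries

namespace Pool.Agent.H85.OT

variable (K : Type*) [Field K]

theorem fld_c3 : PowerSeries.constantCoeff th3 = 1 := by
  rw [← PowerSeries.coeff_zero_eq_constantCoeff_apply, th3, PowerSeries.coeff_mk, if_pos rfl]

theorem fld_c4 : PowerSeries.constantCoeff th4 = 1 := by
  rw [← PowerSeries.coeff_zero_eq_constantCoeff_apply, th4, PowerSeries.coeff_mk,
    PowerSeries.coeff_zero_eq_constantCoeff_apply, fld_c3, pow_zero, one_mul]

theorem fld_d3 : PowerSeries.coeff 1 th3 = 2 := by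
  rw [th3, PowerSeries.coeff_mk, if_neg one_ne_zero, if_pos ⟨1, rfl⟩]

theorem fld_d4 : PowerSeries.coeff 1 th4 = -2 := by
  rw [th4, PowerSeries.coeff_mk, fld_d3, pow_one, neg_one_mul]

theorem fld_map_Dq (R : Type*) [CommRing R] (f : ℤ⟦X⟧) : PowerSeries.map (Int.castRingHom R) (Dq ℤ f) =
    Dq R (PowerSeries.map (Int.castRingHom R) f) := by
  ext n
  rw [PowerSeries.coeff_map, coeff_Dq, coeff_Dq, PowerSeries.coeff_map, map_mul, map_natCast]

theorem fld_map_dbl (R : Type*) [CommRing R] (f : ℤ⟦X⟧) : PowerSeries.map (Int.castRingHom R) (dbl ℤ f) =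
    dbl R (PowerSeries.map (Int.castRingHom R) f) := by
  unfold dbl
  exact (PowerSeries.map_expand 2 two_ne_zero (Int.castRingHom R) f)

theorem constCoeff_U : PowerSeries.constantCoeff (U K) = 1 := by
  rw [U, ← PowerSeries.coeff_zero_eq_constantCoeff_apply, PowerSeries.coeff_map,
    PowerSeries.coeff_zero_eq_constantCoeff_apply, map_pow, fld_c3, one_pow, map_one]

theorem constCoeff_V : PowerSeries.constantCoeff (V K) = 1 := by
  rw [V, ← PowerSeries.coeff_zero_eq_constantCoeff_apply, PowerSeries.coeff_map,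
    PowerSeries.coeff_zero_eq_constantCoeff_apply, map_pow, fld_c4, one_pow, map_one]

theorem fld_dU : PowerSeries.coeff 1 (U K) = 4 := by
  rw [U, PowerSeries.coeff_map, pow_two, PowerSeries.coeff_one_mul, fld_c3, fld_d3]
  norm_num

theorem fld_dV : PowerSeries.coeff 1 (V K) = -4 := by
  rw [V, PowerSeries.coeff_map, pow_two, PowerSeries.coeff_one_mul, fld_c4, fld_d4]
  norm_num

theorem U_ne_zero : U K ≠ 0 := by
  intro h
  have h1 := constCoeff_U K
  rw [h, map_zero] at h1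
  exact zero_ne_one h1

theorem U_mul_inv : U K * (U K)⁻¹ = 1 := by
  apply PowerSeries.mul_inv_cancel
  rw [constCoeff_U]
  exact one_ne_zero

theorem xx_mul_U : xx K * U K = V K := by
  rw [xx, mul_assoc, mul_comm (U K)⁻¹, U_mul_inv, mul_one]

theorem constCoeff_xx : PowerSeries.constantCoeff (xx K) = 1 := by
  have h := congrArg PowerSeries.constantCoeff (xx_mul_U K)
  rwa [map_mul, constCoeff_U, constCoeff_V, mul_one] at h

theorem coeff_one_xx : PowerSeries.coeff 1 (xx K) = -8 := by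
  have h := congrArg (PowerSeries.coeff 1) (xx_mul_U K)
  rw [PowerSeries.coeff_one_mul, constCoeff_U, constCoeff_xx, fld_dU, fld_dV] at h
  linear_combination h

theorem Dq_U : Dq K (U K) = ee K * U K := by
  rw [ee, mul_assoc, mul_comm (U K)⁻¹, U_mul_inv, mul_one]

theorem constCoeff_zz : PowerSeries.constantCoeff (zz K) = 0 := by
  have h : PowerSeries.constantCoeff (Dq K (U K)) = 0 := by
    rw [← PowerSeries.coeff_zero_eq_constantCoeff_apply, coeff_Dq, Nat.cast_zero, zero_mul]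
  rw [zz, ee, map_mul, map_mul, h, zero_mul, zero_mul]

theorem fld_zz : zz K * U K ^ 2 = ee K := by
  rw [zz]
  linear_combination (ee K * U K * (U K)⁻¹ + ee K) * U_mul_inv K

theorem fld_wron : 2 * (U K * Dq K (V K) - V K * Dq K (U K)) = -(U K * V K * (U K ^ 2 - V K ^ 2)) := by
  have h := congrArg (PowerSeries.map (Int.castRingHom K)) wron
  simp only [map_mul, map_sub, map_neg, map_ofNat, fld_map_Dq] at h
  have e3 : (PowerSeries.map (Int.castRingHom K)) (th3 ^ 4) = U K ^ 2 := by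
    rw [U, ← map_pow]
    congr 1
    ring
  have e4 : (PowerSeries.map (Int.castRingHom K)) (th4 ^ 4) = V K ^ 2 := by
    rw [V, ← map_pow]
    congr 1
    ring
  rw [e3, e4] at h
  exact h

theorem fld_ode : 4 * (U K * Dq K (Dq K (U K))) - 8 * (Dq K (U K)) ^ 2 =
    U K ^ 2 * V K ^ 2 * (U K ^ 2 - V K ^ 2) := by
  have h := congrArg (PowerSeries.map (Int.castRingHom K)) ode
  simp only [map_mul, map_sub, map_ofNat, fld_map_Dq] at h
  have e3 : (PowerSeries.map (Int.castRingHom K)) (th3 ^ 4) = U K ^ 2 := by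
    rw [U, ← map_pow]
    congr 1
    ring
  have e4 : (PowerSeries.map (Int.castRingHom K)) (th4 ^ 4) = V K ^ 2 := by
    rw [V, ← map_pow]
    congr 1
    ring
  have e5 : (PowerSeries.map (Int.castRingHom K)) (Dq ℤ (th3 ^ 2) ^ 2) = (Dq K (U K)) ^ 2 := by
    rw [map_pow, fld_map_Dq]
    rfl
  rw [e3, e4, e5] at h
  exact h

theorem fld_dblU : 2 * dbl K (U K) = U K + V K := by
  have h := congrArg (PowerSeries.map (Int.castRingHom K)) two_dbl_U
  simp only [map_mul, map_add, map_ofNat, fld_map_dbl] at h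
  exact h

theorem fld_dblV : dbl K (V K) ^ 2 = U K * V K := by
  have h := congrArg (PowerSeries.map (Int.castRingHom K)) dbl_th4_sq
  rw [map_pow, map_mul, fld_map_dbl] at h
  have h1 : dbl K (V K) = (dbl K ((PowerSeries.map (Int.castRingHom K)) th4)) ^ 2 := by
    rw [V, map_pow, map_pow]
  rw [h1, h, U, V, map_pow, map_pow]
  ring

variable (h2 : (2 : K) ≠ 0)
include h2

theorem Dq_xx : 2 * Dq K (xx K) = -(xx K * (1 - xx K ^ 2) * U K ^ 2) := by
  have h := fld_wron K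
  rw [← xx_mul_U, Derivation.leibniz, smul_eq_mul, smul_eq_mul] at h
  apply mul_left_cancel₀ (pow_ne_zero 2 (U_ne_zero K))
  linear_combination h

theorem Dq_ee : 4 * Dq K (ee K) = 4 * ee K ^ 2 + xx K ^ 2 * (1 - xx K ^ 2) * U K ^ 4 := by
  have h := fld_ode K
  rw [← xx_mul_U, Dq_U, Derivation.leibniz, smul_eq_mul, smul_eq_mul, Dq_U] at h
  apply mul_left_cancel₀ (pow_ne_zero 2 (U_ne_zero K))
  linear_combination h

theorem Dq_zz : 4 * Dq K (zz K) = U K ^ 2 * (xx K ^ 2 * (1 - xx K ^ 2) - 4 * zz K ^ 2) := by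
  have h := Dq_ee K h2
  have h1 := fld_zz K
  have h3 : Dq K (U K ^ 2) = 2 * U K * (ee K * U K) := by
    rw [pow_two, Derivation.leibniz, smul_eq_mul, Dq_U]
    ring
  rw [← h1, Derivation.leibniz, smul_eq_mul, smul_eq_mul, h3, ← h1] at h
  apply mul_left_cancel₀ (pow_ne_zero 2 (U_ne_zero K))
  linear_combination h

theorem dbl_U : 2 * dbl K (U K) = U K * (1 + xx K) := by
  linear_combination fld_dblU K - xx_mul_U K

theorem dbl_xx : (1 + xx K) ^ 2 * dbl K (xx K) ^ 2 = 4 * xx K := by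
  have h1 := dbl_U K h2
  have h3 := fld_dblV K
  rw [← xx_mul_U, map_mul] at h3
  apply mul_left_cancel₀ (pow_ne_zero 2 (U_ne_zero K))
  linear_combination 4 * h3 - (dbl K (xx K)) ^ 2 * (2 * dbl K (U K) + U K * (1 + xx K)) * h1

/-- `a(q²) = ((1+x)/2)² U²`, in the form used for `θ₃⁴`, `θ₄⁴` -/
theorem dbl_U_sq : 4 * dbl K (U K ^ 2) = U K ^ 2 * (1 + xx K) ^ 2 := by
  rw [map_pow]
  linear_combination (2 * dbl K (U K) + U K * (1 + xx K)) * dbl_U K h2

/-- `b(q²) = x U²` -/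
theorem dbl_V_sq : dbl K (V K ^ 2) = U K ^ 2 * xx K := by
  rw [map_pow, fld_dblV, ← xx_mul_U]
  ring

end Pool.Agent.H85.OT

end S_OT_Fld

section S_OT_OrdL

/-!
# Row ORD (project OT): polynomials in a power series of order one

Let `t : K⟦X⟧` have constant term `c` and nonzero coefficient of `q`.  If `P : K[X]` is nonzero with
`natDegree P ≤ N` then some coefficient `l ≤ N` of `P(t)` is nonzero.
Proof: write `P(t) = Q(t - c)` with `Q = taylor c P ≠ 0`, `natDegree Q ≤ N`.  Let `l` be the smallest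
index with `Q_l ≠ 0` (`l ≤ N`); as `t - c = q s` with `s(0) ≠ 0`, `Q(t-c) = q^l (Q_l s^l + q ..)` and
coefficient `l` is `Q_l s(0)^l ≠ 0`.
Applications: `xx` (`c = 1`, coefficient `-8`), `1 - xx²` (`c = 0`, coefficient `16`).
`ord_xx'` : the same after multiplication by the unit `U^k`
(if coefficients `≤ N` of `U^k P(x)` vanish, so do those of `P(x)`).
-/

open PowerSeries

namespace Pool.Agent.H85.OT

theorem ord_gen {K : Type*} [Field K] (t : K⟦X⟧) (ht : PowerSeries.coeff 1 t ≠ 0)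
    (P : Polynomial K) (hP : P ≠ 0) (N : ℕ) (hN : P.natDegree ≤ N) :
    ∃ l ≤ N, PowerSeries.coeff l (Polynomial.aeval t P) ≠ 0 := by
  set c := PowerSeries.constantCoeff t with hc
  set s : K⟦X⟧ := PowerSeries.mk fun n => PowerSeries.coeff (n + 1) t with hs
  have hts : t = PowerSeries.X * s + algebraMap K K⟦X⟧ c := by
    have := PowerSeries.eq_X_mul_shift_add_const t
    exact this
  set Q := Polynomial.taylor c P with hQ
  have hQ0 : Q ≠ 0 := by
    intro h
    exact hP ((Polynomial.taylor_eq_zero c P).1 h)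
  have hPQ : Polynomial.aeval t P = Polynomial.aeval (PowerSeries.X * s) Q := by
    rw [hQ, Polynomial.taylor_apply, Polynomial.aeval_comp, map_add, Polynomial.aeval_X,
      Polynomial.aeval_C, ← hts]
  have hs0 : PowerSeries.constantCoeff s ≠ 0 := by
    rw [hs, ← PowerSeries.coeff_zero_eq_constantCoeff_apply, PowerSeries.coeff_mk]
    exact ht
  refine ⟨Q.natTrailingDegree, ?_, ?_⟩
  · have h1 : Q.natTrailingDegree ≤ Q.natDegree := Polynomial.natTrailingDegree_le_natDegree Q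
    rw [hQ, Polynomial.natDegree_taylor] at h1
    exact h1.trans hN
  · rw [hPQ, Polynomial.aeval_eq_sum_range, map_sum, Finset.sum_eq_single Q.natTrailingDegree]
    · rw [PowerSeries.coeff_smul, mul_pow, PowerSeries.coeff_X_pow_mul', if_pos le_rfl,
        Nat.sub_self, PowerSeries.coeff_zero_eq_constantCoeff_apply, map_pow, smul_eq_mul]
      exact mul_ne_zero (Polynomial.trailingCoeff_nonzero_iff_nonzero.2 hQ0) (pow_ne_zero _ hs0)
    · intro i _ hi
      rw [PowerSeries.coeff_smul, smul_eq_mul]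
      rcases lt_or_gt_of_ne hi with h1 | h1
      · rw [Polynomial.coeff_eq_zero_of_lt_natTrailingDegree h1, zero_mul]
      · rw [mul_pow, PowerSeries.coeff_X_pow_mul', if_neg (not_le.2 h1), mul_zero]
    · intro h1
      exfalso
      apply h1
      rw [Finset.mem_range]
      exact Nat.lt_succ_of_le (Polynomial.natTrailingDegree_le_natDegree Q)

theorem ord_xx {K : Type*} [Field K] (h2 : (2 : K) ≠ 0)
    (P : Polynomial K) (hP : P ≠ 0) (N : ℕ) (hN : P.natDegree ≤ N) :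
    ∃ l ≤ N, PowerSeries.coeff l (Polynomial.aeval (xx K) P) ≠ 0 := by
  refine ord_gen (xx K) ?_ P hP N hN
  rw [coeff_one_xx]
  have h8 : (-8 : K) = -(2 ^ 3) := by norm_num
  rw [h8]
  exact neg_ne_zero.2 (pow_ne_zero 3 h2)

theorem ord_xx' {K : Type*} [Field K] (h2 : (2 : K) ≠ 0) (k : ℕ)
    (P : Polynomial K) (N : ℕ) (hN : P.natDegree ≤ N)
    (h : ∀ l ≤ N, PowerSeries.coeff l (U K ^ k * Polynomial.aeval (xx K) P) = 0) : P = 0 := by
  by_contra hP
  obtain ⟨l, hl, h1⟩ := ord_xx h2 P hP N hN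
  apply h1
  have h3 : (PowerSeries.X : K⟦X⟧) ^ (N + 1) ∣ U K ^ k * Polynomial.aeval (xx K) P := by
    rw [PowerSeries.X_pow_dvd_iff]
    intro m hm
    exact h m (Nat.lt_succ_iff.1 hm)
  have h4 : Polynomial.aeval (xx K) P = (U K)⁻¹ ^ k * (U K ^ k * Polynomial.aeval (xx K) P) := by
    rw [← mul_assoc, ← mul_pow, mul_comm ((U K)⁻¹), U_mul_inv, one_pow, one_mul]
  have h5 : (PowerSeries.X : K⟦X⟧) ^ (N + 1) ∣ Polynomial.aeval (xx K) P := by
    rw [h4]
    exact Dvd.dvd.mul_left h3 _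
  rw [PowerSeries.X_pow_dvd_iff] at h5
  exact h5 l (Nat.lt_succ_of_le hl)

theorem ord_lam {K : Type*} [Field K] (h2 : (2 : K) ≠ 0)
    (P : Polynomial K) (hP : P ≠ 0) (N : ℕ) (hN : P.natDegree ≤ N) :
    ∃ l ≤ N, PowerSeries.coeff l (Polynomial.aeval (1 - xx K ^ 2) P) ≠ 0 := by
  refine ord_gen (1 - xx K ^ 2) ?_ P hP N hN
  have h1 : PowerSeries.coeff 1 (1 - xx K ^ 2) = (2 : K) ^ 4 := by
    rw [map_sub, sq, PowerSeries.coeff_one_mul, coeff_one_xx, constCoeff_xx,
      PowerSeries.coeff_one, if_neg one_ne_zero]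
    norm_num
  rw [h1]
  exact pow_ne_zero 4 h2

end Pool.Agent.H85.OT

end S_OT_OrdL

section S_OT_ZDef

/-!
# Definitions for part III of the project OT (zero estimate)

* `Dv R`: derivations of a commutative ring (a light-weight version, only over `ℤ`).
* `del K = U^(-2) q d/dq`, a derivation of `K⟦X⟧`.
* `dext d g`: the extension of a derivation `d` of `R` to `R[X]` with `X ↦ g`.
* `ZD K R`: a ring with derivation, evaluation in `K⟦X⟧` commuting with the derivations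
  (`del K` on the right), and a size filtration `B n e`.
* `ZD.Zest`: the zero estimate.
* `NS d α β`: the equation `q dp - p dq = α q² + β p q` has no solution with `q ≠ 0`.
* `dX0, dX1`: the derivations of `K[x]` and `K[x][z]`.
-/

open PowerSeries

namespace Pool.Agent.H85.OT

/-- derivations of a commutative ring -/
structure Dv (R : Type*) [CommRing R] where
  toFun : R → R
  add' : ∀ a b, toFun (a + b) = toFun a + toFun b
  mul' : ∀ a b, toFun (a * b) = toFun a * b + a * toFun b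

namespace Dv
variable {R : Type*} [CommRing R]

instance : CoeFun (Dv R) (fun _ => R → R) := ⟨Dv.toFun⟩

variable (d : Dv R)

theorem map_add (a b : R) : d (a + b) = d a + d b := d.add' a b
theorem map_mul (a b : R) : d (a * b) = d a * b + a * d b := d.mul' a b

theorem map_zero : d 0 = 0 := by
  have := d.map_add 0 0
  rw [add_zero] at this
  have h : d 0 + 0 = d 0 + d 0 := by rw [add_zero]; exact this
  exact (add_left_cancel h).symm

theorem map_neg (a : R) : d (-a) = -d a := by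
  have := d.map_add a (-a)
  rw [add_neg_cancel, d.map_zero] at this
  exact (neg_eq_of_add_eq_zero_right this.symm).symm

theorem map_sub (a b : R) : d (a - b) = d a - d b := by
  rw [sub_eq_add_neg, d.map_add, d.map_neg, sub_eq_add_neg]

theorem map_one : d 1 = 0 := by
  have := d.map_mul 1 1
  rw [mul_one, mul_one, one_mul] at this
  have h : d 1 + 0 = d 1 + d 1 := by rw [add_zero]; exact this
  exact (add_left_cancel h).symm

theorem map_natCast (n : ℕ) : d (n : R) = 0 := by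
  induction n with
  | zero => simpa using d.map_zero
  | succ n ih => rw [Nat.cast_succ, d.map_add, ih, d.map_one, add_zero]

theorem map_sum {ι : Type*} (s : Finset ι) (g : ι → R) : d (∑ i ∈ s, g i) = ∑ i ∈ s, d (g i) := by
  classical
  induction s using Finset.induction_on with
  | empty => simpa using d.map_zero
  | insert a s ha ih => rw [Finset.sum_insert ha, Finset.sum_insert ha, d.map_add, ih]

theorem map_pow (a : R) (n : ℕ) : d (a ^ (n + 1)) = ((n : R) + 1) * a ^ n * d a := by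
  induction n with
  | zero => simp
  | succ n ih =>
    rw [pow_succ, d.map_mul, ih]
    push_cast
    ring

end Dv

/-- `δ = U^(-2) q d/dq` -/
noncomputable def del (K : Type*) [Field K] : Dv K⟦X⟧ where
  toFun f := (U K)⁻¹ ^ 2 * Dq K f
  add' a b := by rw [_root_.map_add, mul_add]
  mul' a b := by
    rw [Derivation.leibniz, smul_eq_mul, smul_eq_mul]
    ring

theorem del_apply {K : Type*} [Field K] (f : K⟦X⟧) : del K f = (U K)⁻¹ ^ 2 * Dq K f := rfl

section dext
variable {R : Type*} [CommRing R]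

/-- coefficientwise application of `d` -/
noncomputable def mapc (d : Dv R) (P : Polynomial R) : Polynomial R :=
  P.sum fun i a => Polynomial.monomial i (d a)

theorem coeff_mapc (d : Dv R) (P : Polynomial R) (i : ℕ) :
    (mapc d P).coeff i = d (P.coeff i) := by
  unfold mapc
  rw [Polynomial.sum_def, Polynomial.finset_sum_coeff]
  simp only [Polynomial.coeff_monomial]
  rw [Finset.sum_ite_eq' P.support i (fun j => d (P.coeff j))]
  split_ifs with h
  · rfl
  · rw [Polynomial.notMem_support_iff.1 h, d.map_zero]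

theorem mapc_add (d : Dv R) (P Q : Polynomial R) : mapc d (P + Q) = mapc d P + mapc d Q := by
  ext i
  simp only [coeff_mapc, Polynomial.coeff_add, d.map_add]

theorem mapc_mul (d : Dv R) (P Q : Polynomial R) :
    mapc d (P * Q) = mapc d P * Q + P * mapc d Q := by
  ext i
  simp only [coeff_mapc, Polynomial.coeff_add, Polynomial.coeff_mul, d.map_sum, d.map_mul,
    Finset.sum_add_distrib]

/-- extension of the derivation `d` of `R` to `R[X]` with `X ↦ g` -/
noncomputable def dext (d : Dv R) (g : Polynomial R) : Dv (Polynomial R) where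
  toFun P := mapc d P + g * Polynomial.derivative P
  add' P Q := by rw [mapc_add, Polynomial.derivative_add]; ring
  mul' P Q := by rw [mapc_mul, Polynomial.derivative_mul]; ring

theorem dext_apply (d : Dv R) (g P : Polynomial R) :
    dext d g P = mapc d P + g * Polynomial.derivative P := rfl

theorem coeff_dext (d : Dv R) (g P : Polynomial R) (i : ℕ) :
    (dext d g P).coeff i = d (P.coeff i) + (g * Polynomial.derivative P).coeff i := by
  rw [dext_apply, Polynomial.coeff_add, coeff_mapc]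

theorem mapc_C (d : Dv R) (a : R) : mapc d (Polynomial.C a) = Polynomial.C (d a) := by
  ext i
  rw [coeff_mapc, Polynomial.coeff_C, Polynomial.coeff_C]
  split_ifs
  · rfl
  · exact d.map_zero

theorem dext_C (d : Dv R) (g : Polynomial R) (a : R) :
    dext d g (Polynomial.C a) = Polynomial.C (d a) := by
  rw [dext_apply, mapc_C]; simp

theorem mapc_X (d : Dv R) : mapc d (Polynomial.X : Polynomial R) = 0 := by
  ext i
  rw [coeff_mapc, Polynomial.coeff_X]
  split_ifs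
  · simpa using d.map_one
  · simpa using d.map_zero

theorem dext_X (d : Dv R) (g : Polynomial R) :
    dext d g (Polynomial.X : Polynomial R) = g := by
  rw [dext_apply, mapc_X]; simp

/-- coefficients for a linear equation `dX = α + β X` -/
theorem coeff_dext_lin (d : Dv R) (α β : R) (P : Polynomial R) (i : ℕ) :
    (dext d (Polynomial.C α + Polynomial.C β * Polynomial.X) P).coeff i =
      d (P.coeff i) + ((i : R) + 1) * α * P.coeff (i + 1) + (i : R) * β * P.coeff i := by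
  rw [coeff_dext]
  have : (Polynomial.C α + Polynomial.C β * Polynomial.X) * Polynomial.derivative P =
    Polynomial.C α * Polynomial.derivative P +
      Polynomial.C β * (Polynomial.X * Polynomial.derivative P) := by ring
  rw [this, Polynomial.coeff_add, Polynomial.coeff_C_mul, Polynomial.coeff_C_mul]
  rcases i with _ | i
  · simp [Polynomial.coeff_derivative, mul_comm]
  · rw [Polynomial.coeff_X_mul, Polynomial.coeff_derivative, Polynomial.coeff_derivative]
    push_cast; ring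

end dext

/-- differential ring with evaluation in `K⟦X⟧` and a size filtration -/
structure ZD (K : Type*) [Field K] (R : Type*) [CommRing R] where
  ev : R →+* K⟦X⟧
  d : Dv R
  ev_d : ∀ r, ev (d r) = del K (ev r)
  B : ℕ → ℕ → R → Prop
  c : ℕ
  B_mono : ∀ {n n' e e' : ℕ} {r : R}, n ≤ n' → e ≤ e' → B n e r → B n' e' r
  B_zero : B 0 0 0
  B_one : B 0 0 1
  B_add : ∀ {n e : ℕ} {r s : R}, B n e r → B n e s → B n e (r + s)
  B_neg : ∀ {n e : ℕ} {r : R}, B n e r → B n e (-r)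
  B_mul : ∀ {n e n' e' : ℕ} {r s : R}, B n e r → B n' e' s → B (n + n') (e + e') (r * s)
  B_d : ∀ {n e : ℕ} {r : R}, B n e r → B (n + c) (e + c) (d r)

/-- the coefficients of index at most `N` vanish -/
def Van {K : Type*} [Field K] (N : ℕ) (f : K⟦X⟧) : Prop := ∀ l ≤ N, PowerSeries.coeff l f = 0

theorem Van.add {K : Type*} [Field K] {N : ℕ} {f g : K⟦X⟧} (hf : Van N f) (hg : Van N g) :
    Van N (f + g) := fun l hl => by rw [_root_.map_add, hf l hl, hg l hl, add_zero]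

theorem Van.sub {K : Type*} [Field K] {N : ℕ} {f g : K⟦X⟧} (hf : Van N f) (hg : Van N g) :
    Van N (f - g) := fun l hl => by rw [_root_.map_sub, hf l hl, hg l hl, sub_zero]

theorem Van.mul {K : Type*} [Field K] {N : ℕ} {f : K⟦X⟧} (g : K⟦X⟧) (hf : Van N f) :
    Van N (g * f) := fun l hl => by
  rw [PowerSeries.coeff_mul]
  refine Finset.sum_eq_zero fun x hx => ?_
  have h1 : x.1 + x.2 = l := Finset.HasAntidiagonal.mem_antidiagonal.1 hx
  rw [hf x.2 (by omega), mul_zero]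

theorem Van.del {K : Type*} [Field K] {N : ℕ} {f : K⟦X⟧} (hf : Van N f) :
    Van N (del K f) := by
  rw [del_apply]
  refine Van.mul _ fun l hl => ?_
  rw [coeff_Dq, hf l hl, mul_zero]

/-- the zero estimate: an element of size `(n, e)` has a nonzero coefficient of index at most
`C(e) (n+1)` -/
def ZD.Zest {K : Type*} [Field K] {R : Type*} [CommRing R] (Z : ZD K R) : Prop :=
  ∀ e : ℕ, ∃ C : ℕ, ∀ (n : ℕ) (r : R), Z.B n e r → r ≠ 0 →
    ∃ l ≤ C * (n + 1), PowerSeries.coeff l (Z.ev r) ≠ 0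

/-- `q dp - p dq = α q² + β p q` has no solution with `q ≠ 0` -/
def NS {R : Type*} [CommRing R] (d : Dv R) (α β : R) : Prop :=
  ∀ p q : R, q ≠ 0 → q * d p - p * d q ≠ α * q ^ 2 + β * (p * q)

section tower
variable (K : Type*) [Field K]

/-- derivation of `K[x]`: `x ↦ -(1/2) x (1 - x²)` -/
noncomputable def dX0 : Dv (Polynomial K) where
  toFun P := Polynomial.C (-1/2 : K) * Polynomial.X * (1 - Polynomial.X ^ 2) *
    Polynomial.derivative P
  add' P Q := by rw [Polynomial.derivative_add]; ring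
  mul' P Q := by rw [Polynomial.derivative_mul]; ring

theorem dX0_apply (P : Polynomial K) :
    dX0 K P = Polynomial.C (-1/2 : K) * Polynomial.X * (1 - Polynomial.X ^ 2) *
      Polynomial.derivative P := rfl

/-- `x²(1-x²)/4` -/
noncomputable def g0 : Polynomial K :=
  Polynomial.C (1/4 : K) * Polynomial.X ^ 2 * (1 - Polynomial.X ^ 2)

/-- derivation of `K[x][z]`: `z ↦ -z² + x²(1-x²)/4` -/
noncomputable def dX1 : Dv (Polynomial (Polynomial K)) :=
  dext (dX0 K) (Polynomial.C (g0 K) - Polynomial.X ^ 2)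

/-- coefficient formula in `z` -/
theorem coeff_dX1 (P : Polynomial (Polynomial K)) (j : ℕ) :
    (dX1 K P).coeff (j + 1) = dX0 K (P.coeff (j + 1)) + ((j : Polynomial K) + 2) * g0 K *
      P.coeff (j + 2) - (j : Polynomial K) * P.coeff j := by
  unfold dX1
  rw [coeff_dext]
  have : (Polynomial.C (g0 K) - Polynomial.X ^ 2) * Polynomial.derivative P =
    Polynomial.C (g0 K) * Polynomial.derivative P -
      Polynomial.X * (Polynomial.X * Polynomial.derivative P) := by ring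
  rw [this, Polynomial.coeff_sub, Polynomial.coeff_C_mul, Polynomial.coeff_X_mul]
  rcases j with _ | j
  · simp [Polynomial.coeff_derivative]; ring
  · rw [Polynomial.coeff_X_mul, Polynomial.coeff_derivative, Polynomial.coeff_derivative]
    push_cast; ring

theorem coeff_dX1_zero (P : Polynomial (Polynomial K)) :
    (dX1 K P).coeff 0 = dX0 K (P.coeff 0) + g0 K * P.coeff 1 := by
  unfold dX1
  rw [coeff_dext]
  have : (Polynomial.C (g0 K) - Polynomial.X ^ 2) * Polynomial.derivative P =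
    Polynomial.C (g0 K) * Polynomial.derivative P -
      Polynomial.X * (Polynomial.X * Polynomial.derivative P) := by ring
  rw [this, Polynomial.coeff_sub, Polynomial.coeff_C_mul, Polynomial.coeff_X_mul_zero]
  simp [Polynomial.coeff_derivative]

/-- `-κ z` as an element of `K[x][z]` -/
noncomputable def bz (κ : ℕ) : Polynomial (Polynomial K) :=
  -((κ : Polynomial (Polynomial K)) * Polynomial.X)

end tower

end Pool.Agent.H85.OT

end S_OT_ZDef

section S_OT_DefP

/-!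
# Definitions for part II of the project OT (reduction mod `p`)

`mm p = (p-1)/2`; `hh p = ∑_{i ≤ m} C(m,i)² X^i` over `F_p` (Hasse polynomial);
`Bh p = X (1 - X) hh'`; `lam K = 1 - x²`;
`Mf p N F` : `F = U^(2N) P(lam)` with `natDegree P ≤ N`.
-/

open PowerSeries

namespace Pool.Agent.H85.OT

/-- `m = (p-1)/2` -/
def mm (p : ℕ) : ℕ := (p - 1) / 2

/-- `h = ∑_{i ≤ m} C(m,i)² X^i` over `F_p` -/
noncomputable def hh (p : ℕ) : Polynomial (ZMod p) :=
  ∑ i ∈ Finset.range (mm p + 1),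
    Polynomial.C ((((mm p).choose i : ℕ) : ZMod p) ^ 2) * Polynomial.X ^ i

/-- `X (1 - X) h'` -/
noncomputable def Bh (p : ℕ) : Polynomial (ZMod p) :=
  Polynomial.X * (1 - Polynomial.X) * Polynomial.derivative (hh p)

/-- `λ = 1 - x²` -/
noncomputable def lam (K : Type*) [Field K] : K⟦X⟧ := 1 - xx K ^ 2

/-- modular forms mod `p` of weight `2 N` on `Γ₀(4)` -/
def Mf (p : ℕ) [Fact p.Prime] (N : ℕ) (F : (ZMod p)⟦X⟧) : Prop :=
  ∃ P : Polynomial (ZMod p), P.natDegree ≤ N ∧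
    F = U (ZMod p) ^ (2 * N) * Polynomial.aeval (lam (ZMod p)) P

theorem two_mm {p : ℕ} (hp : p.Prime) (h2 : p ≠ 2) : 2 * mm p + 1 = p := by
  have := hp.eq_one_or_self_of_dvd 2
  have h3 : p % 2 = 1 := by
    rcases Nat.mod_two_eq_zero_or_one p with h | h
    · have := this (Nat.dvd_of_mod_eq_zero h)
      omega
    · exact h
  have := hp.two_le
  unfold mm
  omega

theorem two_ne {p : ℕ} [hp : Fact p.Prime] (h2 : p ≠ 2) : (2 : ZMod p) ≠ 0 := by
  have h := (ZMod.natCast_eq_zero_iff 2 p)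
  intro h0
  have h1 : ((2 : ℕ) : ZMod p) = 0 := by exact_mod_cast h0
  have h3 := h.1 h1
  have := Nat.le_of_dvd (by norm_num) h3
  have := hp.out.two_le
  omega

end Pool.Agent.H85.OT

end S_OT_DefP

section S_OT_CDef

/-!
# Definitions for part IV of the project OT (the auxiliary function)

* `F1 f = ∑ (a_n/n) q^n`, `F2 f = F1(q²)`, power series over `ℚ`;
* `GG f κ E n (i,j,e) = U^(n + κ(2E-i-j) - e) V^e F1^i F2^j` (`i, j < E`, `e ≤ n`);
* `Phi f κ E n t = ∑ t_s GG_s`;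
* `Z0 f Y = ∏_{p ≤ Y, Ord0 f p} p^⌊log_p Y⌋`;
* `Bd ρ B g`: all partial sums of `∑ |g_n| ρ^n` are `≤ B`;
* `MR ρ = 4/(1-ρ)²`.
-/

open PowerSeries

namespace Pool.Agent.H85.OT

/-- `∑ (a_n/n) q^n` (coefficient `0` is `0`) -/
noncomputable def F1 (f : ℤ⟦X⟧) : ℚ⟦X⟧ :=
  PowerSeries.mk fun n => ((PowerSeries.coeff n f : ℤ) : ℚ) / n

/-- `F1(q²)` -/
noncomputable def F2 (f : ℤ⟦X⟧) : ℚ⟦X⟧ := dbl ℚ (F1 f)

/-- the functions `U^(n + κ(2E-i-j) - e) V^e F1^i F2^j` -/
noncomputable def GG (f : ℤ⟦X⟧) (κ E n : ℕ) (s : Fin E × Fin E × Fin (n + 1)) : ℚ⟦X⟧ :=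
  U ℚ ^ (n + κ * (2 * E - s.1 - s.2.1) - s.2.2) * V ℚ ^ (s.2.2 : ℕ) *
    F1 f ^ (s.1 : ℕ) * F2 f ^ (s.2.1 : ℕ)

/-- integer combinations of the `GG` -/
noncomputable def Phi (f : ℤ⟦X⟧) (κ E n : ℕ) (t : Fin E × Fin E × Fin (n + 1) → ℤ) : ℚ⟦X⟧ :=
  ∑ s, PowerSeries.C (t s : ℚ) * GG f κ E n s

open Classical in
/-- `∏_{p ≤ Y, Ord0 f p} p^⌊log_p Y⌋` -/
noncomputable def Z0 (f : ℤ⟦X⟧) (Y : ℕ) : ℕ :=
  ∏ p ∈ (Finset.range (Y + 1)).filter (fun p => p.Prime ∧ Ord0 f p), p ^ Nat.log p Y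

/-- all partial sums of `∑ |g_n| ρ^n` are `≤ B` -/
def Bd (ρ B : ℝ) (g : ℚ⟦X⟧) : Prop :=
  ∀ N : ℕ, ∑ n ∈ Finset.range N, |((PowerSeries.coeff n g : ℚ) : ℝ)| * ρ ^ n ≤ B

/-- `4/(1-ρ)²` -/
noncomputable def MR (ρ : ℝ) : ℝ := 4 / (1 - ρ) ^ 2

open Classical in
/-- the primes `p` with `p0 < p`, `Sl2 f p` and `n + 2 κ p E < T` -/
noncomputable def SS (f : ℤ⟦X⟧) (κ E n p0 T : ℕ) : Finset ℕ :=
  (Finset.range T).filter (fun p => p.Prime ∧ p0 < p ∧ Sl2 f p ∧ n + 2 * κ * p * E < T)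

end Pool.Agent.H85.OT

end S_OT_CDef

section S_OU_UDef

/-!
# Definitions for the project OU (all levels)

* `evl K P = P(λ)`, `λ = lam K = 1 - x²`;
* `IsDeg K n y` : `y` satisfies a monic equation `y^r + ∑_{m=1}^r a_m(λ) y^(r-m) = 0` with `deg a_m ≤ n m`
  (`y` is integral over `K[λ]` with poles of order `≤ n` at infinity);
* `SP K e` : the `K[λ]`-span of the family `e`;
* `LD K r e` (level datum): the `K[λ]`-span of `e` is a subring of `K⟦X⟧` stable under `δ = del K`;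
* `LForm K k f` : `f U^(-k)`, `f(q²) U^(-k)` lie in a common level datum and are holomorphic at all cusps
  (`IsDeg K k` of their squares).
-/

open PowerSeries
open Pool.Agent.H85.OT

namespace Pool.Agent.H85.OU

/-- `P ↦ P(λ)` -/
noncomputable abbrev evl (K : Type*) [Field K] : Polynomial K →ₐ[K] K⟦X⟧ :=
  Polynomial.aeval (lam K)

/-- integral over `K[λ]` with poles of order `≤ n` at infinity -/
def IsDeg (K : Type*) [Field K] (n : ℕ) (y : K⟦X⟧) : Prop :=
  ∃ (r : ℕ) (a : ℕ → Polynomial K), 1 ≤ r ∧ (∀ m, (a m).natDegree ≤ n * m) ∧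
    y ^ r + ∑ m ∈ Finset.Icc 1 r, evl K (a m) * y ^ (r - m) = 0

/-- the `K[λ]`-span of a finite family -/
def SP (K : Type*) [Field K] {r : ℕ} (e : Fin r → K⟦X⟧) : Set K⟦X⟧ :=
  {y | ∃ p : Fin r → Polynomial K, y = ∑ l, evl K (p l) * e l}

/-- elements of the span with coefficients of degree `≤ n` -/
def SPn (K : Type*) [Field K] {r : ℕ} (e : Fin r → K⟦X⟧) (n : ℕ) : Set K⟦X⟧ :=
  {y | ∃ p : Fin r → Polynomial K, (∀ l, (p l).natDegree ≤ n) ∧ y = ∑ l, evl K (p l) * e l}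

/-- level datum: the span of `e` is a `K[λ]`-algebra stable under `δ` -/
structure LD (K : Type*) [Field K] (r : ℕ) (e : Fin r → K⟦X⟧) : Prop where
  one : (1 : K⟦X⟧) ∈ SP K e
  mul : ∀ l l', e l * e l' ∈ SP K e
  del : ∀ l, del K (e l) ∈ SP K e

/-- `f` is a modular form of weight `k` (of some level), in algebraic terms -/
def LForm (K : Type*) [Field K] (k : ℕ) (f : K⟦X⟧) : Prop :=
  ∃ (r : ℕ) (e : Fin r → K⟦X⟧), LD K r e ∧ f * (U K)⁻¹ ^ k ∈ SP K e ∧
    dbl K f * (U K)⁻¹ ^ k ∈ SP K e ∧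
    IsDeg K k ((f * (U K)⁻¹ ^ k) ^ 2) ∧ IsDeg K k ((dbl K f * (U K)⁻¹ ^ k) ^ 2)

/-- reduction datum mod `p`: a family over a field whose span is an algebra stable under `δ`, with degree
bound `c` -/
structure RD (k : Type*) [Field k] (r c : ℕ) (e : Fin r → k⟦X⟧) : Prop where
  one : (1 : k⟦X⟧) ∈ SP k e
  mul : ∀ l l', e l * e l' ∈ SP k e
  del : ∀ l, del k (e l) ∈ SPn k e c
  deg : ∀ l, IsDeg k c (e l)

end Pool.Agent.H85.OU

end S_OU_UDef

section S_OU_UC

/-!
# Definitions for the auxiliary function, all levels (project OU)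

* `GGl f κ L n (i,j,e) = U^(2n - 2e + κ(2L-i-j)) (U² - V²)^e F1^i F2^j` (`i, j < L`, `e ≤ n`);
* `PhiL f κ L n t = ∑ t_s GGl_s`;
* `SSl S r c3 L n p0 T`: primes `p < T`, `p > p0`, `S p`, `r (n + 2 L c3 p) < T`.
-/

open PowerSeries
open Pool.Agent.H85.OT

namespace Pool.Agent.H85.OU

/-- the functions `U^(2n - 2e + κ(2L-i-j)) (U² - V²)^e F1^i F2^j` -/
noncomputable def GGl (f : ℤ⟦X⟧) (κ L n : ℕ) (s : Fin L × Fin L × Fin (n + 1)) : ℚ⟦X⟧ :=
  U ℚ ^ (2 * n - 2 * (s.2.2 : ℕ) + κ * (2 * L - s.1 - s.2.1)) *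
    (U ℚ ^ 2 - V ℚ ^ 2) ^ (s.2.2 : ℕ) * F1 f ^ (s.1 : ℕ) * F2 f ^ (s.2.1 : ℕ)

/-- integer combinations of the `GGl` -/
noncomputable def PhiL (f : ℤ⟦X⟧) (κ L n : ℕ) (t : Fin L × Fin L × Fin (n + 1) → ℤ) : ℚ⟦X⟧ :=
  ∑ s, PowerSeries.C (t s : ℚ) * GGl f κ L n s

open Classical in
/-- primes `p < T` with `p0 < p`, `S p`, `r (n + 2 L c3 p) < T` -/
noncomputable def SSl (S : ℕ → Prop) (r c3 L n p0 T : ℕ) : Finset ℕ :=
  (Finset.range T).filter
    (fun p => p.Prime ∧ p0 < p ∧ S p ∧ r * (n + 2 * L * c3 * p) < T)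

end Pool.Agent.H85.OU

end S_OU_UC

section S_OT_VDef

/-!
# Definitions for part V of the project OT (link with modular forms)

* `psi = ∑_{n ∈ ℤ} X^(n²+n) = 2 ∑_{n ≥ 0} X^(n(n+1))`;
* `TA τ = θ(τ)^4`, `TB τ = θ(τ+1)^4` with Mathlib's `jacobiTheta`;
* `Cv F q s`: the series `∑ F_n q^n` converges absolutely to `s`;
* `e4, e6`: the q-expansions of `E₄, E₆` in terms of theta series;
* `tau n`: coefficient of `q^n` in `q ∏_{i=1}^n (1 - q^i)^24`.
-/

open PowerSeries

namespace Pool.Agent.H85.OT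

/-- `∑_{n ∈ ℤ} X^(n²+n)` (`N = n² + n` iff `4 N + 1 = (2n+1)²`) -/
noncomputable def psi : ℤ⟦X⟧ :=
  PowerSeries.mk fun n => if IsSquare (4 * n + 1) then 2 else 0

/-- `θ₃(τ)^4`, nome `exp(π i τ)` -/
noncomputable def TA (τ : ℂ) : ℂ := jacobiTheta τ ^ 4

/-- `θ₄(τ)^4` -/
noncomputable def TB (τ : ℂ) : ℂ := jacobiTheta (τ + 1) ^ 4

/-- `∑ F_n q^n` converges absolutely with sum `s` -/
def Cv (F : ℂ⟦X⟧) (q s : ℂ) : Prop :=
  Summable (fun n => ‖PowerSeries.coeff n F * q ^ n‖) ∧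
    HasSum (fun n => PowerSeries.coeff n F * q ^ n) s

/-- q-expansion of `E₄` : `16 a² - 16 a b + b²`, `a = θ₃⁴`, `b = θ₄⁴` -/
noncomputable def e4 : ℤ⟦X⟧ := 16 * (th3 ^ 4) ^ 2 - 16 * th3 ^ 4 * th4 ^ 4 + (th4 ^ 4) ^ 2

/-- q-expansion of `E₆` : `(2a - b)(-32 a² + 32 a b + b²)` -/
noncomputable def e6 : ℤ⟦X⟧ :=
  (2 * th3 ^ 4 - th4 ^ 4) * (-32 * (th3 ^ 4) ^ 2 + 32 * th3 ^ 4 * th4 ^ 4 + (th4 ^ 4) ^ 2)

/-- Ramanujan's tau function: coefficient of `X^n` in `X ∏_{i=1}^{n} (1 - X^i)^24` -/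
noncomputable def tau (n : ℕ) : ℤ :=
  PowerSeries.coeff n
    ((PowerSeries.X : ℤ⟦X⟧) * ∏ i ∈ Finset.range n, (1 - PowerSeries.X ^ (i + 1)) ^ 24)

end Pool.Agent.H85.OT

end S_OT_VDef

section S_OT_WDef

/-!
# Definitions for part W of the project OT (forms with coefficients in a ring `R`, `Γ₀(4)`)

* `tR R F`: image of an integral power series in `R⟦X⟧`;
* `IsFormR R w f`: `M f = ∑ c_j (θ₃⁴)^(w-j) (θ₄⁴)^j`, `M ≠ 0` an integer, `c_j ∈ R`;
* `Sl2R`, `Ord0R`: the analogues of `Sl2`, `Ord0` for coefficients in `R`;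
* `G04 = Γ₀(4)` as a subgroup of `GL₂(ℝ)`.
-/

open PowerSeries UpperHalfPlane MatrixGroups CongruenceSubgroup

namespace Pool.Agent.H85.OT

/-- image of an integral power series -/
noncomputable def tR (R : Type*) [CommRing R] : ℤ⟦X⟧ →+* R⟦X⟧ :=
  PowerSeries.map (Int.castRingHom R)

/-- up to a nonzero integer factor, a homogeneous polynomial of degree `w` in `θ₃⁴, θ₄⁴` with
coefficients in `R` -/
def IsFormR (R : Type*) [CommRing R] (w : ℕ) (f : R⟦X⟧) : Prop :=
  ∃ (M : ℤ) (c : ℕ → R), M ≠ 0 ∧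
    PowerSeries.C (M : R) * f =
      ∑ j ∈ Finset.range (w + 1),
        PowerSeries.C (c j) * (tR R (th3 ^ 4)) ^ (w - j) * (tR R (th4 ^ 4)) ^ j

/-- `Γ₀(4)` in `GL₂(ℝ)` -/
abbrev G04 : Subgroup (GL (Fin 2) ℝ) := (Gamma0 4 : Subgroup (GL (Fin 2) ℝ))

end Pool.Agent.H85.OT

end S_OT_WDef
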