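import Mathlib
import Pool.Agent.H85.OM.M01

/-! First slopes of modular forms, part M02: this file joins several modules to save build time. -/

section S_OU_ID1

/-!
# Row ID1 (project OU): calculus of `IsDeg`

`S` = the subring of `K⟦X⟧[T]` of the polynomials whose coefficient of `T^k` is `a(λ)` with `deg a ≤ k`;
`IsDeg K n y ↔ IsIntegral S (C y * T^n)`.
-/

open PowerSeries
open Pool.Agent.H85.OT

namespace Pool.Agent.H85.OU

variable {K : Type*} [Field K]

/-- auxiliary graded ring -/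
noncomputable def ID1_S (K : Type*) [Field K] : Subring (Polynomial K⟦X⟧) where
  carrier := {f | ∀ k, ∃ a : Polynomial K, a.natDegree ≤ k ∧ f.coeff k = evl K a}
  mul_mem' := by
    intro f g hf hg k
    choose a ha ha' using hf
    choose b hb hb' using hg
    refine ⟨∑ x ∈ Finset.HasAntidiagonal.antidiagonal k, a x.1 * b x.2, ?_, ?_⟩
    · refine Polynomial.natDegree_sum_le_of_forall_le _ _ ?_
      intro x hx
      have h1 := Finset.HasAntidiagonal.mem_antidiagonal.1 hx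
      refine Polynomial.natDegree_mul_le.trans ?_
      have := ha x.1
      have := hb x.2
      omega
    · rw [Polynomial.coeff_mul, map_sum]
      refine Finset.sum_congr rfl ?_
      intro x _
      rw [map_mul, ha', hb']
  one_mem' := by
    intro k
    rcases Nat.eq_zero_or_pos k with rfl | hk
    · exact ⟨1, by simp, by simp⟩
    · exact ⟨0, by simp, by rw [Polynomial.coeff_one, if_neg hk.ne', map_zero]⟩
  add_mem' := by
    intro f g hf hg k
    obtain ⟨a, ha, ha'⟩ := hf k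
    obtain ⟨b, hb, hb'⟩ := hg k
    exact ⟨a + b, Polynomial.natDegree_add_le_of_degree_le ha hb, by
      rw [Polynomial.coeff_add, ha', hb', map_add]⟩
  zero_mem' := fun k => ⟨0, by simp, by simp⟩
  neg_mem' := by
    intro f hf k
    obtain ⟨a, ha, ha'⟩ := hf k
    exact ⟨-a, by rwa [Polynomial.natDegree_neg], by rw [Polynomial.coeff_neg, ha', map_neg]⟩

lemma ID1_mem (P : Polynomial K) {k : ℕ} (hP : P.natDegree ≤ k) :
    Polynomial.C (evl K P) * Polynomial.X ^ k ∈ ID1_S K := by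
  intro j
  rw [Polynomial.coeff_C_mul_X_pow]
  by_cases h : j = k
  · rw [if_pos h]
    exact ⟨P, h ▸ hP, rfl⟩
  · rw [if_neg h]
    exact ⟨0, by simp, by simp⟩

lemma ID1_iff (n : ℕ) (y : K⟦X⟧) :
    IsDeg K n y ↔ IsIntegral (ID1_S K) (Polynomial.C y * Polynomial.X ^ n) := by
  constructor
  · rintro ⟨r, a, hr, ha, h⟩
    let b : ℕ → ID1_S K := fun m => ⟨_, ID1_mem (a m) (ha m)⟩
    refine ⟨Polynomial.X ^ r + ∑ m ∈ Finset.Icc 1 r, Polynomial.C (b m) * Polynomial.X ^ (r - m),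
      ?_, ?_⟩
    · refine Polynomial.monic_X_pow_add ?_
      refine (Polynomial.degree_sum_le _ _).trans_lt ?_
      refine (Finset.sup_lt_iff (WithBot.bot_lt_coe r)).2 ?_
      intro m hm
      have h1 := Finset.mem_Icc.1 hm
      refine (Polynomial.degree_C_mul_X_pow_le _ _).trans_lt ?_
      exact WithBot.coe_lt_coe.2 (by omega : r - m < r)
    · rw [Polynomial.eval₂_add, Polynomial.eval₂_X_pow, Polynomial.eval₂_finsetSum]
      have h2 : ∀ m ∈ Finset.Icc 1 r, Polynomial.eval₂ (algebraMap (ID1_S K) (Polynomial K⟦X⟧))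
          (Polynomial.C y * Polynomial.X ^ n) (Polynomial.C (b m) * Polynomial.X ^ (r - m)) =
          Polynomial.C (evl K (a m) * y ^ (r - m)) * Polynomial.X ^ (n * r) := by
        intro m hm
        have h1 := Finset.mem_Icc.1 hm
        rw [Polynomial.eval₂_mul, Polynomial.eval₂_C, Polynomial.eval₂_X_pow]
        change (Polynomial.C (evl K (a m)) * Polynomial.X ^ (n * m)) *
          (Polynomial.C y * Polynomial.X ^ n) ^ (r - m) = _
        rw [mul_pow, ← pow_mul, Polynomial.C_mul, Polynomial.C_pow]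
        have h3 : n * r = n * m + n * (r - m) := by
          rw [← mul_add]; congr 1; omega
        rw [h3, pow_add]
        ring
      rw [Finset.sum_congr rfl h2, ← Finset.sum_mul, mul_pow, ← pow_mul, ← map_sum,
        ← Polynomial.C_pow, ← add_mul, ← map_add, h, map_zero, zero_mul]
  · rintro ⟨p, hp, h⟩
    -- make the degree positive
    obtain ⟨q, hq, hq1, h⟩ : ∃ q : Polynomial (ID1_S K), q.Monic ∧ 1 ≤ q.natDegree ∧
        Polynomial.eval₂ (algebraMap (ID1_S K) (Polynomial K⟦X⟧))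
          (Polynomial.C y * Polynomial.X ^ n) q = 0 := by
      refine ⟨p * Polynomial.X, hp.mul Polynomial.monic_X, ?_, ?_⟩
      · rw [Polynomial.Monic.natDegree_mul hp Polynomial.monic_X, Polynomial.natDegree_X]
        omega
      · rw [Polynomial.eval₂_mul, h, zero_mul]
    set r := q.natDegree with hr
    have hco : ∀ m, ∃ a : Polynomial K, a.natDegree ≤ n * m ∧
        ((q.coeff (r - m) : Polynomial K⟦X⟧)).coeff (n * m) = evl K a := by
      intro m
      exact (q.coeff (r - m)).2 (n * m)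
    choose a ha ha' using hco
    refine ⟨r, a, hq1, ha, ?_⟩
    rw [Polynomial.eval₂_eq_sum_range, ← hr] at h
    have h1 := congrArg (fun f => Polynomial.coeff f (n * r)) h
    simp only [Polynomial.finsetSum_coeff, Polynomial.coeff_zero] at h1
    have h2 : ∀ j ∈ Finset.range (r + 1),
        (algebraMap (ID1_S K) (Polynomial K⟦X⟧) (q.coeff j) *
          (Polynomial.C y * Polynomial.X ^ n) ^ j).coeff (n * r) =
        ((q.coeff j : Polynomial K⟦X⟧)).coeff (n * (r - j)) * y ^ j := by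
      intro j hj
      have h3 : j ≤ r := by
        have := Finset.mem_range.1 hj
        omega
      have h4 : n * r = n * (r - j) + n * j := by
        rw [← mul_add]; congr 1; omega
      rw [mul_pow, ← pow_mul, ← mul_assoc, h4, Polynomial.coeff_mul_X_pow, ← Polynomial.C_pow,
        Polynomial.coeff_mul_C]
      rfl
    rw [Finset.sum_congr rfl h2, Finset.sum_range_succ, Nat.sub_self, mul_zero] at h1
    have h5 : ((q.coeff r : Polynomial K⟦X⟧)).coeff 0 = 1 := by
      have : q.coeff r = 1 := hq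
      rw [this]
      simp
    rw [h5, one_mul, add_comm] at h1
    rw [← h1]
    congr 1
    refine Finset.sum_nbij' (fun m => r - m) (fun j => r - j) ?_ ?_ ?_ ?_ ?_
    · intro m hm
      have h1 := Finset.mem_Icc.1 hm
      exact Finset.mem_range.2 (by omega)
    · intro j hj
      have h1 := Finset.mem_range.1 hj
      exact Finset.mem_Icc.2 (by omega)
    · intro m hm
      have h1 := Finset.mem_Icc.1 hm
      show r - (r - m) = m
      omega
    · intro j hj
      have h1 := Finset.mem_range.1 hj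
      show r - (r - j) = j
      omega
    · intro m hm
      have h1 := Finset.mem_Icc.1 hm
      have h6 : r - (r - m) = m := by omega
      rw [h6, ha']

theorem IsDeg.add {n : ℕ} {y z : K⟦X⟧} (hy : IsDeg K n y) (hz : IsDeg K n z) :
    IsDeg K n (y + z) := by
  rw [ID1_iff] at *
  rw [map_add, add_mul]
  exact hy.add hz

theorem IsDeg.mul {n m : ℕ} {y z : K⟦X⟧} (hy : IsDeg K n y) (hz : IsDeg K m z) :
    IsDeg K (n + m) (y * z) := by
  rw [ID1_iff] at *
  have : Polynomial.C (y * z) * Polynomial.X ^ (n + m) =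
      (Polynomial.C y * Polynomial.X ^ n) * (Polynomial.C z * Polynomial.X ^ m) := by
    rw [map_mul, pow_add]
    ring
  rw [this]
  exact hy.mul hz

theorem IsDeg.of_evl {n : ℕ} (P : Polynomial K) (hP : P.natDegree ≤ n) : IsDeg K n (evl K P) := by
  rw [ID1_iff]
  exact isIntegral_algebraMap (R := ID1_S K) (x := ⟨_, ID1_mem P hP⟩)

theorem IsDeg.zero (n : ℕ) : IsDeg K n 0 := by
  have := IsDeg.of_evl (K := K) (n := n) 0 (by simp)
  rwa [map_zero] at this

theorem IsDeg.one (n : ℕ) : IsDeg K n 1 := by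
  have := IsDeg.of_evl (K := K) (n := n) 1 (by simp)
  rwa [map_one] at this

theorem IsDeg.mono {n m : ℕ} (h : n ≤ m) {y : K⟦X⟧} (hy : IsDeg K n y) : IsDeg K m y := by
  have := hy.mul (IsDeg.one (K := K) (m - n))
  rwa [mul_one, Nat.add_sub_cancel' h] at this

theorem IsDeg.neg {n : ℕ} {y : K⟦X⟧} (hy : IsDeg K n y) : IsDeg K n (-y) := by
  rw [ID1_iff] at *
  have : Polynomial.C (-y) * Polynomial.X ^ n = -(Polynomial.C y * Polynomial.X ^ n) := by
    refine eq_neg_of_add_eq_zero_left ?_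
    rw [← add_mul, ← Polynomial.C_add, neg_add_cancel, Polynomial.C_0, zero_mul]
  rw [this]
  exact hy.neg

theorem IsDeg.pow {n : ℕ} {y : K⟦X⟧} (hy : IsDeg K n y) (j : ℕ) : IsDeg K (n * j) (y ^ j) := by
  rw [ID1_iff] at *
  rw [map_pow, pow_mul, ← mul_pow]
  exact hy.pow j

theorem IsDeg.sqrt {n : ℕ} {y : K⟦X⟧} (hy : IsDeg K (2 * n) (y ^ 2)) : IsDeg K n y := by
  rw [ID1_iff] at *
  rw [map_pow, mul_comm 2 n, pow_mul, ← mul_pow] at hy
  exact IsIntegral.of_pow two_pos hy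

theorem IsDeg.sum {ι : Type*} (s : Finset ι) {n : ℕ} (y : ι → K⟦X⟧)
    (hy : ∀ i ∈ s, IsDeg K n (y i)) : IsDeg K n (∑ i ∈ s, y i) := by
  rw [ID1_iff, map_sum, Finset.sum_mul]
  exact IsIntegral.sum _ fun i hi => (ID1_iff n (y i)).1 (hy i hi)

/-- elements of `SPn` with generators of bounded degree -/
theorem IsDeg.of_SPn {r c n : ℕ} {e : Fin r → K⟦X⟧} (he : ∀ l, IsDeg K c (e l)) {y : K⟦X⟧}
    (hy : y ∈ SPn K e n) : IsDeg K (n + c) y := by
  obtain ⟨p, hp, rfl⟩ := hy
  exact IsDeg.sum _ _ fun l _ => (IsDeg.of_evl (p l) (hp l)).mul (he l)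

end Pool.Agent.H85.OU

end S_OU_ID1

section S_OU_ID2

/-!
# Row ID2 (project OU): minimal polynomials, strictness, order bound

`A = Polynomial K` acts on `B = K⟦X⟧` through `P ↦ P(λ)` (`(evl K).toRingHom.toAlgebra`), injective by `ord_lam` (`2 ≠ 0` in `K`); `A` is
integrally closed, `B` a domain.
* `exists_min`: `μ = minpoly A y` for that algebra structure (`y` is integral by `IsDeg`);
  `minpoly.isIntegrallyClosed_dvd` gives `μ ∣ P` for every annihilating `P`.  The bound: let `IsDeg K n y` with monic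
  `P = Y^r + ∑ a_m Y^(r-m)`, `deg a_m ≤ n m`, `P = μ Q`.  For a nonzero `S ∈ A[Y]` put `w(S) = max_j (deg S_j + n j)`.  `w` is additive on
  products (`A` is a domain: the leading forms for the weights `X ↦ 1, Y ↦ n` multiply; e.g. consider the degree in `T` of
  `S(X ↦ X T, Y ↦ Y T^n) ∈ A[Y][T]`).  `w(P) = n r`, `w(μ) ≥ n s`, `w(Q) ≥ n (r - s)` (`μ, Q` monic, `s = natDegree μ`), so `w(μ) = n s`.
* `strict`: `H ≠ 0` of degree `d`.  With `μ` as above for `y`, `s = natDegree μ`, the polynomial `μ' = ∑_j H^(s-j) μ_j Y^j` is monic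
  and kills `H(λ) y`; it is the minimal polynomial of `H(λ) y`: an annihilating polynomial `P` of degree `< s` of `H(λ) y` gives
  the annihilating polynomial `P(H Y)` of `y` of degree `< s` (nonzero), contradiction; so the `μ` of `exists_min` for `H(λ) y` has
  degree `s` and divides `μ'`, both monic, hence equals `μ'`.  By the bound for `H(λ) y`: `deg (H^(s-j) μ_j) ≤ (n+d)(s-j)`, so
  `deg μ_j ≤ n (s-j)` and `IsDeg K n y`.
* `order_le`: `y ≠ 0`, `y ∈ SP e`, `SP e` closed under products and containing `1`: the `r+1` elements `1, y, .., y^r` lie in a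
  module generated by `r` elements over the domain `A`, so they satisfy a nontrivial relation (`r+1` vectors of `A^r` are linearly
  dependent), so `μ` has degree `s ≤ r`.  `μ_0 ≠ 0` (otherwise `μ = Y μ'`, `μ'(y) = 0` as `y ≠ 0`, contradicting minimality).
  `μ_0(λ) = - y (..)`.  By `ord_lam` some coefficient `l ≤ natDegree μ_0 ≤ N s ≤ N r` of `μ_0(λ)` is nonzero, so some coefficient `≤ l` of
  `y` is nonzero.
-/

open PowerSeries
open Pool.Agent.H85.OT

namespace Pool.Agent.H85.OU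

variable {K : Type*} [Field K]

theorem ID2_inj (h2 : (2 : K) ≠ 0) : Function.Injective (evl K).toRingHom := by
  rw [injective_iff_map_eq_zero]
  intro P hP
  by_contra hP0
  obtain ⟨l, -, hl⟩ := ord_lam h2 P hP0 P.natDegree le_rfl
  apply hl
  have h3 : Polynomial.aeval (1 - xx K ^ 2) P = 0 := hP
  rw [h3, map_zero]

/-- the coefficientwise degree bound of weight `n` -/
def ID2_Bd (n : ℕ) (P : Polynomial (Polynomial K)) : Prop :=
  ∀ j ≤ P.natDegree, (P.coeff j).natDegree ≤ n * (P.natDegree - j)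

theorem ID2_poly {n : ℕ} {y : K⟦X⟧} (hy : IsDeg K n y) :
    ∃ P : Polynomial (Polynomial K), P.Monic ∧ 1 ≤ P.natDegree ∧
      P.eval₂ (evl K).toRingHom y = 0 ∧ ID2_Bd n P := by
  obtain ⟨r, a, hr, ha, he⟩ := hy
  obtain ⟨Q, hQ⟩ : ∃ Q : Polynomial (Polynomial K),
      Q = ∑ m ∈ Finset.Icc 1 r, Polynomial.C (a m) * Polynomial.X ^ (r - m) := ⟨_, rfl⟩
  have hQc : ∀ j, Q.coeff j = if j < r then a (r - j) else 0 := by
    intro j
    rw [hQ, Polynomial.finsetSum_coeff]
    simp only [Polynomial.coeff_C_mul, Polynomial.coeff_X_pow, mul_ite, mul_one, mul_zero]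
    split_ifs with hj
    · rw [Finset.sum_eq_single (r - j)]
      · rw [if_pos (by omega)]
      · intro m hm hmj
        rw [Finset.mem_Icc] at hm
        rw [if_neg (by omega)]
      · intro hm
        exact absurd (Finset.mem_Icc.2 ⟨by omega, by omega⟩) hm
    · apply Finset.sum_eq_zero
      intro m hm
      rw [Finset.mem_Icc] at hm
      rw [if_neg (by omega)]
  have hQd : Q.degree < (r : WithBot ℕ) := by
    rw [Polynomial.degree_lt_iff_coeff_zero]
    intro j hj
    rw [hQc, if_neg (by omega)]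
  have hdeg : (Polynomial.X ^ r + Q).natDegree = r := by
    have h1 : (Polynomial.X ^ r + Q).degree = (Polynomial.X ^ r : Polynomial (Polynomial K)).degree :=
      Polynomial.degree_add_eq_left_of_degree_lt (by rw [Polynomial.degree_X_pow]; exact hQd)
    rw [Polynomial.degree_X_pow] at h1
    exact Polynomial.natDegree_eq_of_degree_eq_some h1
  refine ⟨Polynomial.X ^ r + Q, Polynomial.monic_X_pow_add hQd, by rw [hdeg]; exact hr, ?_, ?_⟩
  · rw [Polynomial.eval₂_add, Polynomial.eval₂_X_pow, hQ, Polynomial.eval₂_finsetSum]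
    rw [← he]
    congr 1
    refine Finset.sum_congr rfl fun m _ => ?_
    rw [Polynomial.eval₂_mul, Polynomial.eval₂_C, Polynomial.eval₂_X_pow]
    rfl
  · intro j hj
    rw [hdeg] at hj ⊢
    rw [Polynomial.coeff_add, Polynomial.coeff_X_pow, hQc]
    rcases Nat.lt_or_ge j r with h | h
    · rw [if_neg (by omega), if_pos h, zero_add]
      exact ha (r - j)
    · have : j = r := by omega
      rw [if_pos this, if_neg (by omega), add_zero, Polynomial.natDegree_one]
      exact Nat.zero_le _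

theorem ID2_of_poly {n : ℕ} {y : K⟦X⟧} {P : Polynomial (Polynomial K)} (hP : P.Monic)
    (h1 : 1 ≤ P.natDegree) (h0 : P.eval₂ (evl K).toRingHom y = 0) (hb : ID2_Bd n P) :
    IsDeg K n y := by
  refine ⟨P.natDegree, fun m => if m ≤ P.natDegree then P.coeff (P.natDegree - m) else 0, h1, ?_, ?_⟩
  · intro m
    dsimp only
    split_ifs with hm
    · have := hb (P.natDegree - m) (Nat.sub_le _ _)
      rwa [Nat.sub_sub_self hm] at this
    · rw [Polynomial.natDegree_zero]
      exact Nat.zero_le _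
  · rw [Polynomial.eval₂_eq_sum_range, ← Finset.sum_range_reflect] at h0
    rw [Finset.sum_range_succ'] at h0
    rw [← h0, add_comm]
    congr 1
    · rw [Finset.sum_bij (fun (m : ℕ) (_ : m ∈ Finset.Icc 1 P.natDegree) => m - 1)]
      · intro m hm
        rw [Finset.mem_Icc] at hm
        rw [Finset.mem_range]
        omega
      · intro m hm m' hm' he
        rw [Finset.mem_Icc] at hm hm'
        omega
      · intro j hj
        rw [Finset.mem_range] at hj
        exact ⟨j + 1, Finset.mem_Icc.2 ⟨by omega, by omega⟩, by omega⟩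
      · intro m hm
        rw [Finset.mem_Icc] at hm
        have e1 : P.natDegree + 1 - 1 - (m - 1 + 1) = P.natDegree - m := by omega
        rw [e1]
        dsimp only
        rw [if_pos hm.2]
        rfl
    · have e2 : P.natDegree + 1 - 1 - 0 = P.natDegree := by omega
      rw [e2, hP.coeff_natDegree, map_one, one_mul]

/-- the substitution `X ↦ X`, `Y ↦ Z X^n` -/
noncomputable def ID2_psi (K : Type*) [Field K] (n : ℕ) :
    Polynomial (Polynomial K) →+* Polynomial (Polynomial K) :=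
  Polynomial.eval₂RingHom (Polynomial.mapRingHom Polynomial.C)
    (Polynomial.C Polynomial.X * Polynomial.X ^ n)

theorem ID2_psi_coeff (n : ℕ) (S : Polynomial (Polynomial K)) (w j : ℕ) :
    ((ID2_psi K n S).coeff w).coeff j = if n * j ≤ w then (S.coeff j).coeff (w - n * j) else 0 := by
  induction S using Polynomial.induction_on' with
  | add p q hp hq =>
    rw [map_add, Polynomial.coeff_add, Polynomial.coeff_add, hp, hq]
    split_ifs
    · rw [Polynomial.coeff_add, Polynomial.coeff_add]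
    · rw [add_zero]
  | monomial m a =>
    have e1 : ID2_psi K n (Polynomial.monomial m a) =
        Polynomial.map Polynomial.C a * Polynomial.C (Polynomial.X ^ m) * Polynomial.X ^ (n * m) := by
      unfold ID2_psi
      rw [Polynomial.coe_eval₂RingHom, Polynomial.eval₂_monomial, mul_pow, ← Polynomial.C_pow,
        ← pow_mul, ← mul_assoc]
      rfl
    rw [e1, Polynomial.coeff_mul_X_pow', Polynomial.coeff_monomial]
    by_cases hm : n * m ≤ w
    · rw [if_pos hm, Polynomial.coeff_mul_C, Polynomial.coeff_map, Polynomial.coeff_C_mul,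
        Polynomial.coeff_X_pow]
      by_cases hj : j = m
      · rw [if_pos hj, hj, if_pos hm, if_pos rfl, mul_one]
      · rw [if_neg hj, if_neg (Ne.symm hj), mul_zero, Polynomial.coeff_zero]
        split_ifs <;> rfl
    · rw [if_neg hm, Polynomial.coeff_zero]
      by_cases hj : m = j
      · rw [if_pos hj, ← hj, if_neg hm]
      · rw [if_neg hj, Polynomial.coeff_zero]
        split_ifs <;> rfl

theorem ID2_psi_le (n : ℕ) (S : Polynomial (Polynomial K)) (W : ℕ) :
    (ID2_psi K n S).natDegree ≤ W ↔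
      ∀ j, S.coeff j ≠ 0 → (S.coeff j).natDegree + n * j ≤ W := by
  constructor
  · intro h j hj
    by_contra hcon
    rw [not_le] at hcon
    have h1 : (ID2_psi K n S).coeff ((S.coeff j).natDegree + n * j) = 0 :=
      Polynomial.coeff_eq_zero_of_natDegree_lt (by omega)
    have h2 := ID2_psi_coeff n S ((S.coeff j).natDegree + n * j) j
    rw [h1, Polynomial.coeff_zero, if_pos (by omega), Nat.add_sub_cancel] at h2
    exact hj (Polynomial.leadingCoeff_eq_zero.1 h2.symm)
  · intro h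
    rw [Polynomial.natDegree_le_iff_coeff_eq_zero]
    intro w hw
    ext j
    rw [ID2_psi_coeff, Polynomial.coeff_zero]
    split_ifs with hj
    · by_cases h0 : S.coeff j = 0
      · rw [h0, Polynomial.coeff_zero]
      · have := h j h0
        exact Polynomial.coeff_eq_zero_of_natDegree_lt (by omega)
    · rfl

theorem ID2_psi_monic (n : ℕ) {S : Polynomial (Polynomial K)} (hS : S.Monic) :
    ID2_psi K n S ≠ 0 ∧ n * S.natDegree ≤ (ID2_psi K n S).natDegree := by
  have h1 : S.coeff S.natDegree ≠ 0 := by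
    rw [hS.coeff_natDegree]
    exact one_ne_zero
  have h2 := (ID2_psi_le n S _).1 le_rfl _ h1
  refine ⟨?_, by omega⟩
  intro h0
  have h3 := ID2_psi_coeff n S (n * S.natDegree) S.natDegree
  rw [h0, Polynomial.coeff_zero, Polynomial.coeff_zero, if_pos le_rfl, Nat.sub_self,
    hS.coeff_natDegree, Polynomial.coeff_one_zero] at h3
  exact zero_ne_one h3

theorem ID2_bd {n : ℕ} {P μ : Polynomial (Polynomial K)} (hP : P.Monic) (hμ : μ.Monic) (hd : μ ∣ P)
    (hb : ID2_Bd n P) : ID2_Bd n μ := by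
  obtain ⟨Q, rfl⟩ := hd
  have hQ : Q.Monic := hμ.of_mul_monic_left hP
  have h1 : (ID2_psi K n (μ * Q)).natDegree ≤ n * (μ * Q).natDegree := by
    rw [ID2_psi_le]
    intro j hj
    have hj' : j ≤ (μ * Q).natDegree := Polynomial.le_natDegree_of_ne_zero hj
    have h2 := hb j hj'
    have h3 : n * ((μ * Q).natDegree - j) + n * j = n * (μ * Q).natDegree := by
      rw [← Nat.mul_add, Nat.sub_add_cancel hj']
    omega
  obtain ⟨hμ0, hμ1⟩ := ID2_psi_monic n hμ
  obtain ⟨hQ0, hQ1⟩ := ID2_psi_monic n hQ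
  rw [map_mul, Polynomial.natDegree_mul hμ0 hQ0, hμ.natDegree_mul hQ, Nat.mul_add] at h1
  have h4 : (ID2_psi K n μ).natDegree ≤ n * μ.natDegree := by omega
  rw [ID2_psi_le] at h4
  intro j hj
  by_cases h0 : μ.coeff j = 0
  · rw [h0, Polynomial.natDegree_zero]
    exact Nat.zero_le _
  · have h5 := h4 j h0
    have h6 : n * (μ.natDegree - j) + n * j = n * μ.natDegree := by
      rw [← Nat.mul_add, Nat.sub_add_cancel hj]
    omega

theorem ID2_minpoly {A B : Type*} [CommRing A] [IsDomain A] [IsIntegrallyClosed A] [CommRing B]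
    [IsDomain B] (φ : A →+* B) (hφ : Function.Injective φ) (y : B)
    (hy : ∃ P : Polynomial A, P.Monic ∧ P.eval₂ φ y = 0) :
    ∃ μ : Polynomial A, μ.Monic ∧ μ.eval₂ φ y = 0 ∧ ∀ P : Polynomial A, P.eval₂ φ y = 0 → μ ∣ P := by
  letI : Algebra A B := φ.toAlgebra
  haveI : FaithfulSMul A B := (faithfulSMul_iff_algebraMap_injective A B).2 hφ
  have hint : IsIntegral A y := hy
  refine ⟨minpoly A y, minpoly.monic hint, minpoly.aeval A y, fun P hP => ?_⟩
  exact minpoly.isIntegrallyClosed_dvd hint hP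

/-- `SP e` is closed under sums, products and multiplication by `P(λ)` -/
theorem SP_add {r : ℕ} {e : Fin r → K⟦X⟧} {y z : K⟦X⟧} (hy : y ∈ SP K e) (hz : z ∈ SP K e) :
    y + z ∈ SP K e := by
  obtain ⟨p, rfl⟩ := hy
  obtain ⟨q, rfl⟩ := hz
  refine ⟨fun l => p l + q l, ?_⟩
  rw [← Finset.sum_add_distrib]
  refine Finset.sum_congr rfl fun l _ => ?_
  rw [map_add, add_mul]

theorem SP_neg {r : ℕ} {e : Fin r → K⟦X⟧} {y : K⟦X⟧} (hy : y ∈ SP K e) : -y ∈ SP K e := by
  obtain ⟨p, rfl⟩ := hy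
  refine ⟨fun l => - p l, ?_⟩
  rw [← Finset.sum_neg_distrib]
  refine Finset.sum_congr rfl fun l _ => ?_
  rw [map_neg, neg_mul]

theorem SP_gen {r : ℕ} {e : Fin r → K⟦X⟧} (l : Fin r) : e l ∈ SP K e := by
  classical
  refine ⟨fun l' => if l' = l then 1 else 0, ?_⟩
  rw [Finset.sum_eq_single l]
  · dsimp only
    rw [if_pos rfl, map_one, one_mul]
  · intro l' _ hl
    dsimp only
    rw [if_neg hl, map_zero, zero_mul]
  · intro h
    exact absurd (Finset.mem_univ l) h

theorem SP_evl_mul {r : ℕ} {e : Fin r → K⟦X⟧} {y : K⟦X⟧} (P : Polynomial K) (hy : y ∈ SP K e) :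
    evl K P * y ∈ SP K e := by
  obtain ⟨p, rfl⟩ := hy
  refine ⟨fun l => P * p l, ?_⟩
  rw [Finset.mul_sum]
  refine Finset.sum_congr rfl fun l _ => ?_
  rw [map_mul, mul_assoc]

theorem ID2_SP_sum {r : ℕ} {e : Fin r → K⟦X⟧} {ι : Type} (s : Finset ι) (f : ι → K⟦X⟧)
    (hf : ∀ i ∈ s, f i ∈ SP K e) : ∑ i ∈ s, f i ∈ SP K e := by
  classical
  induction s using Finset.induction_on with
  | empty =>
    rw [Finset.sum_empty]
    refine ⟨fun _ => 0, ?_⟩
    rw [Finset.sum_eq_zero]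
    intro l _
    rw [map_zero, zero_mul]
  | insert a s ha ih =>
    rw [Finset.sum_insert ha]
    exact SP_add (hf a (Finset.mem_insert_self _ _))
      (ih fun i hi => hf i (Finset.mem_insert_of_mem hi))

theorem SP_mul {r : ℕ} {e : Fin r → K⟦X⟧} (hm : ∀ l l', e l * e l' ∈ SP K e) {y z : K⟦X⟧}
    (hy : y ∈ SP K e) (hz : z ∈ SP K e) : y * z ∈ SP K e := by
  obtain ⟨p, rfl⟩ := hy
  obtain ⟨q, rfl⟩ := hz
  rw [Finset.sum_mul_sum]
  refine ID2_SP_sum _ _ fun l _ => ID2_SP_sum _ _ fun l' _ => ?_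
  have e1 : evl K (p l) * e l * (evl K (q l') * e l') =
      evl K (p l) * (evl K (q l') * (e l * e l')) := by ring
  rw [e1]
  exact SP_evl_mul _ (SP_evl_mul _ (hm l l'))

theorem exists_min (h2 : (2 : K) ≠ 0) {n0 : ℕ} {y : K⟦X⟧} (hy : IsDeg K n0 y) :
    ∃ μ : Polynomial (Polynomial K), μ.Monic ∧ 1 ≤ μ.natDegree ∧
      μ.eval₂ (evl K).toRingHom y = 0 ∧
      (∀ P : Polynomial (Polynomial K), P.eval₂ (evl K).toRingHom y = 0 → μ ∣ P) ∧
      ∀ n, IsDeg K n y → ∀ j ≤ μ.natDegree, (μ.coeff j).natDegree ≤ n * (μ.natDegree - j) := by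
  obtain ⟨P, hPm, hP1, hP0, _⟩ := ID2_poly hy
  obtain ⟨μ, hμm, hμ0, hμd⟩ := ID2_minpoly (evl K).toRingHom (ID2_inj h2) y ⟨P, hPm, hP0⟩
  refine ⟨μ, hμm, ?_, hμ0, hμd, ?_⟩
  · by_contra hcon
    have h0 : μ.natDegree = 0 := by omega
    have h1 : μ = 1 := hμm.natDegree_eq_zero.1 h0
    rw [h1, Polynomial.eval₂_one] at hμ0
    exact one_ne_zero hμ0
  · intro n hn
    obtain ⟨P', hPm', _, hP0', hPb'⟩ := ID2_poly hn
    exact ID2_bd hPm' hμm (hμd P' hP0') hPb'

theorem IsDeg.strict (h2 : (2 : K) ≠ 0) {n d n0 : ℕ} {y : K⟦X⟧} (H : Polynomial K) (hH : H ≠ 0)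
    (hd : H.natDegree = d) (hy0 : IsDeg K n0 y) (hy : IsDeg K (n + d) (evl K H * y)) :
    IsDeg K n y := by
  obtain ⟨μ, hμm, hμ1, hμ0, hμd, hμb⟩ := exists_min h2 hy0
  obtain ⟨ν, hνm, hν1, hν0, hνd, hνb⟩ := exists_min h2 hy
  have hs0 : (μ.scaleRoots H).eval₂ (evl K).toRingHom (evl K H * y) = 0 :=
    Polynomial.scaleRoots_eval₂_eq_zero (evl K).toRingHom hμ0
  have hsm : (μ.scaleRoots H).Monic := (Polynomial.monic_scaleRoots_iff H).2 hμm
  have hle : μ.natDegree ≤ ν.natDegree := by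
    have h1 : (ν.comp (Polynomial.C H * Polynomial.X)).eval₂ (evl K).toRingHom y = 0 := by
      rw [Polynomial.eval₂_comp, Polynomial.eval₂_mul, Polynomial.eval₂_C, Polynomial.eval₂_X]
      exact hν0
    have h3 := hμd _ h1
    have h4 : (ν.comp (Polynomial.C H * Polynomial.X)).natDegree = ν.natDegree := by
      rw [Polynomial.natDegree_comp, Polynomial.natDegree_C_mul_X _ hH, mul_one]
    have h5 : ν.comp (Polynomial.C H * Polynomial.X) ≠ 0 := by
      intro h0
      rw [h0, Polynomial.natDegree_zero] at h4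
      omega
    rw [← h4]
    exact Polynomial.natDegree_le_of_dvd h3 h5
  have heq : μ.scaleRoots H = ν := by
    refine Polynomial.eq_of_monic_of_dvd_of_natDegree_le hνm hsm (hνd _ hs0) ?_
    rw [Polynomial.natDegree_scaleRoots]
    exact hle
  have hdeg : ν.natDegree = μ.natDegree := by rw [← heq, Polynomial.natDegree_scaleRoots]
  refine ID2_of_poly hμm hμ1 hμ0 ?_
  intro j hj
  by_cases h0 : μ.coeff j = 0
  · rw [h0, Polynomial.natDegree_zero]
    exact Nat.zero_le _
  · have h6 := hνb (n + d) hy j (by rw [hdeg]; exact hj)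
    rw [hdeg, ← heq, Polynomial.coeff_scaleRoots, Polynomial.natDegree_mul h0 (pow_ne_zero _ hH),
      Polynomial.natDegree_pow, hd, Nat.add_mul, Nat.mul_comm d] at h6
    omega

theorem order_le (h2 : (2 : K) ≠ 0) {r N : ℕ} {e : Fin r → K⟦X⟧} (h1 : (1 : K⟦X⟧) ∈ SP K e)
    (hm : ∀ l l', e l * e l' ∈ SP K e) {y : K⟦X⟧} (hy : y ≠ 0) (hys : y ∈ SP K e)
    (hN : IsDeg K N y) : ∃ l ≤ N * r, PowerSeries.coeff l y ≠ 0 := by
  classical
  have hA : Function.Injective (evl K).toRingHom := ID2_inj h2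
  obtain ⟨μ, hμm, hμ1, hμ0, hμd, hμb⟩ := exists_min h2 hN
  -- powers of y
  have hpow : ∀ i : ℕ, y ^ i ∈ SP K e := by
    intro i
    induction i with
    | zero =>
      rw [pow_zero]
      exact h1
    | succ i ih =>
      rw [pow_succ]
      exact SP_mul hm ih hys
  choose p hp using hpow
  have hnl : ¬ LinearIndependent (Polynomial K) (fun i : Fin (r + 1) => p (i : ℕ)) := by
    intro hli
    have h3 := hli.fintype_card_le_finrank
    rw [Fintype.card_fin, Module.finrank_fin_fun] at h3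
    omega
  obtain ⟨g, hg0, i0, hi0⟩ := Fintype.not_linearIndependent_iff.1 hnl
  obtain ⟨Q, hQ⟩ : ∃ Q : Polynomial (Polynomial K),
      Q = ∑ i : Fin (r + 1), Polynomial.C (g i) * Polynomial.X ^ (i : ℕ) := ⟨_, rfl⟩
  have hQi : Q.coeff (i0 : ℕ) = g i0 := by
    rw [hQ, Polynomial.finsetSum_coeff, Finset.sum_eq_single i0]
    · rw [Polynomial.coeff_C_mul, Polynomial.coeff_X_pow, if_pos rfl, mul_one]
    · intro i _ hi
      rw [Polynomial.coeff_C_mul, Polynomial.coeff_X_pow,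
        if_neg (fun h => hi (Fin.ext h.symm)), mul_zero]
    · intro h
      exact absurd (Finset.mem_univ i0) h
  have hQ0 : Q ≠ 0 := by
    intro h0
    rw [h0, Polynomial.coeff_zero] at hQi
    exact hi0 hQi.symm
  have hQd : Q.natDegree ≤ r := by
    rw [hQ]
    refine Polynomial.natDegree_sum_le_of_forall_le _ _ fun i _ => ?_
    refine (Polynomial.natDegree_C_mul_X_pow_le _ _).trans ?_
    have := i.2
    omega
  have hQe : Q.eval₂ (evl K).toRingHom y = 0 := by
    rw [hQ, Polynomial.eval₂_finsetSum]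
    have e1 : ∀ i : Fin (r + 1), (Polynomial.C (g i) * Polynomial.X ^ (i : ℕ)).eval₂
        (evl K).toRingHom y = ∑ l, evl K (g i * p i l) * e l := by
      intro i
      rw [Polynomial.eval₂_mul, Polynomial.eval₂_C, Polynomial.eval₂_X_pow]
      have e2 : (evl K).toRingHom (g i) * y ^ (i : ℕ) =
          evl K (g i) * ∑ l, evl K (p i l) * e l := by rw [← hp i]; rfl
      rw [e2, Finset.mul_sum]
      refine Finset.sum_congr rfl fun l _ => ?_
      rw [map_mul, mul_assoc]
    rw [Finset.sum_congr rfl fun i _ => e1 i, Finset.sum_comm]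
    apply Finset.sum_eq_zero
    intro l _
    rw [← Finset.sum_mul, ← map_sum]
    have e3 : ∑ i, g i * p i l = 0 := by
      have := congrFun hg0 l
      rw [Finset.sum_apply] at this
      simpa using this
    rw [e3, map_zero, zero_mul]
  have hsr : μ.natDegree ≤ r := (Polynomial.natDegree_le_of_dvd (hμd Q hQe) hQ0).trans hQd
  have hdecomp := Polynomial.divX_mul_X_add μ
  have hev : (evl K).toRingHom (μ.coeff 0) = - (μ.divX.eval₂ (evl K).toRingHom y * y) := by
    rw [← hdecomp, Polynomial.eval₂_add, Polynomial.eval₂_mul, Polynomial.eval₂_X,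
      Polynomial.eval₂_C] at hμ0
    exact eq_neg_of_add_eq_zero_right hμ0
  have hc0 : μ.coeff 0 ≠ 0 := by
    intro h0
    rw [h0, map_zero] at hev
    have h3 : μ.divX.eval₂ (evl K).toRingHom y = 0 := by
      rcases mul_eq_zero.1 (neg_eq_zero.1 hev.symm) with h | h
      · exact h
      · exact absurd h hy
    have h4 := hμd _ h3
    have h5 : μ.divX ≠ 0 := by
      intro h6
      rw [h6, h0, zero_mul, zero_add, Polynomial.C_0] at hdecomp
      exact hμm.ne_zero hdecomp.symm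
    have h6 := Polynomial.natDegree_le_of_dvd h4 h5
    rw [Polynomial.natDegree_divX_eq_natDegree_tsub_one] at h6
    omega
  have hbd0 : (μ.coeff 0).natDegree ≤ N * r := by
    have h3 := hμb N hN 0 (Nat.zero_le _)
    rw [Nat.sub_zero] at h3
    exact h3.trans (Nat.mul_le_mul_left _ hsr)
  obtain ⟨l, hl, hl0⟩ := ord_lam h2 (μ.coeff 0) hc0 (N * r) hbd0
  by_contra hcon
  push Not at hcon
  apply hl0
  have h3 : Polynomial.aeval (1 - xx K ^ 2) (μ.coeff 0) =
      - (μ.divX.eval₂ (evl K).toRingHom y * y) := hev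
  rw [h3, map_neg, neg_eq_zero]
  have h4 : Van l y := fun l' hl' => hcon l' (hl'.trans hl)
  exact h4.mul _ l le_rfl

end Pool.Agent.H85.OU

end S_OU_ID2

section S_OT_Ha

/-!
# Row HA (project OT): the Hasse polynomial `h` and its differential equation

`p` odd prime, `m = (p-1)/2`, `c_i = C(m,i)²` in `F_p`, `h = ∑_{i ≤ m} c_i X^i`.
* `4 (X(1-X)h')' = h` : coefficient `i` of `X(1-X)h'` is `i c_i - (i-1) c_(i-1)`, so coefficient `i` of
  its derivative is `(i+1) ((i+1) c_(i+1) - i c_i)`.  Since `(i+1) C(m,i+1) = (m-i) C(m,i)`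
  (`Nat.choose_succ_right_eq`), `(i+1)² c_(i+1) = (m-i)² c_i`, and `2 m = -1` in `F_p`, so
  `4 (m-i)² = (2m - 2i)² = (2i+1)²`; thus `4 ×` the coefficient is
  `((2i+1)² - 4 i (i+1)) c_i = c_i`.  (For `i > m` both sides are `0`; for `i = m` it works too as
  `C(m,m+1) = 0 = m - m`.)
* `natDegree h = m`, leading coefficient `C(m,m)² = 1`; `h(0) = 1`;
* `h(1) = ∑ C(m,i)² = C(2m, m)` (`Nat.sum_range_choose_sq` or
  `Nat.add_choose_eq` / `Int.sum_range_choose...`, Vandermonde) and `C(2m,m)` divides `(2m)!` with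
  `2 m = p - 1 < p`, so it is nonzero mod `p`.
* `natDegree (Bh p) ≤ m + 1`.
-/

namespace Pool.Agent.H85.OT

variable {p : ℕ} [hp : Fact p.Prime] (h2 : p ≠ 2)

private theorem Ha_coeff (p : ℕ) (i : ℕ) :
    (hh p).coeff i = (((mm p).choose i : ℕ) : ZMod p) ^ 2 := by
  unfold hh
  rw [Polynomial.finsetSum_coeff]
  simp only [Polynomial.coeff_C_mul, Polynomial.coeff_X_pow, mul_ite, mul_one, mul_zero]
  rw [Finset.sum_ite_eq (Finset.range (mm p + 1)) i
    (fun j => (((mm p).choose j : ℕ) : ZMod p) ^ 2)]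
  split_ifs with h
  · rfl
  · rw [Finset.mem_range, not_lt] at h
    rw [Nat.choose_eq_zero_of_lt (by omega), Nat.cast_zero, zero_pow two_ne_zero]

private theorem Ha_step (p : ℕ) [Fact p.Prime] (i : ℕ) :
    (((mm p).choose (i + 1) : ℕ) : ZMod p) * ((i : ZMod p) + 1) =
      (((mm p).choose i : ℕ) : ZMod p) * (((mm p : ℕ) : ZMod p) - (i : ZMod p)) := by
  rcases le_or_gt i (mm p) with h | h
  · have h1 := Nat.choose_succ_right_eq (mm p) i
    have h3 := congrArg (fun n : ℕ => (n : ZMod p)) h1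
    simp only [Nat.cast_mul, Nat.cast_add, Nat.cast_one, Nat.cast_sub h] at h3
    exact h3
  · rw [Nat.choose_eq_zero_of_lt (by omega : mm p < i + 1), Nat.choose_eq_zero_of_lt h,
      Nat.cast_zero, zero_mul, zero_mul]

private theorem Ha_Xder (p : ℕ) (i : ℕ) :
    (Polynomial.X * Polynomial.derivative (hh p)).coeff i =
      (i : ZMod p) * (((mm p).choose i : ℕ) : ZMod p) ^ 2 := by
  rcases i with _ | i
  · rw [Polynomial.coeff_X_mul_zero, Nat.cast_zero, zero_mul]
  · rw [Polynomial.coeff_X_mul, Polynomial.coeff_derivative, Ha_coeff, Nat.cast_succ]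
    ring

include h2

theorem hh_ode : 4 * Polynomial.derivative (Bh p) = hh p := by
  have hm : 2 * ((mm p : ℕ) : ZMod p) + 1 = 0 := by
    have h1 := congrArg (fun n : ℕ => (n : ZMod p)) (two_mm hp.out h2)
    simp only [Nat.cast_add, Nat.cast_mul, Nat.cast_one, Nat.cast_ofNat, CharP.cast_eq_zero] at h1
    exact h1
  ext i
  have e4 : (4 : Polynomial (ZMod p)) = Polynomial.C 4 := by
    rw [map_ofNat]
  rw [e4, Polynomial.coeff_C_mul, Polynomial.coeff_derivative, Ha_coeff]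
  have e1 : Bh p = Polynomial.X * (Polynomial.derivative (hh p) -
      Polynomial.X * Polynomial.derivative (hh p)) := by
    unfold Bh
    ring
  rw [e1, Polynomial.coeff_X_mul, Polynomial.coeff_sub, Ha_Xder, Polynomial.coeff_derivative,
    Ha_coeff]
  have hC := Ha_step p i
  linear_combination 4 * ((((mm p).choose (i + 1) : ℕ) : ZMod p) * ((i : ZMod p) + 1) +
    (((mm p).choose i : ℕ) : ZMod p) * (((mm p : ℕ) : ZMod p) - (i : ZMod p))) * hC +
    (((mm p).choose i : ℕ) : ZMod p) ^ 2 * (2 * ((mm p : ℕ) : ZMod p) - 4 * i - 1) * hm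

theorem hh_natDegree : (hh p).natDegree = mm p := by
  have := h2
  apply Polynomial.natDegree_eq_of_le_of_coeff_ne_zero
  · rw [Polynomial.natDegree_le_iff_coeff_eq_zero]
    intro i hi
    rw [Ha_coeff, Nat.choose_eq_zero_of_lt hi, Nat.cast_zero, zero_pow two_ne_zero]
  · rw [Ha_coeff, Nat.choose_self, Nat.cast_one, one_pow]
    exact one_ne_zero

theorem hh_monic : (hh p).Monic := by
  rw [Polynomial.Monic, Polynomial.leadingCoeff, hh_natDegree h2, Ha_coeff, Nat.choose_self,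
    Nat.cast_one, one_pow]

theorem hh_coeff_zero : (hh p).coeff 0 = 1 := by
  have := h2
  rw [Ha_coeff, Nat.choose_zero_right, Nat.cast_one, one_pow]

theorem hh_eval_one : (hh p).eval 1 ≠ 0 := by
  have e1 : (hh p).eval 1 = (((2 * mm p).choose (mm p) : ℕ) : ZMod p) := by
    rw [← Nat.sum_range_choose_sq]
    unfold hh
    rw [Polynomial.eval_finsetSum, Nat.cast_sum]
    refine Finset.sum_congr rfl fun i _ => ?_
    simp
  rw [e1]
  intro h0
  rw [ZMod.natCast_eq_zero_iff] at h0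
  have h1 : (2 * mm p).choose (mm p) ∣ (2 * mm p).factorial := by
    rw [← Nat.choose_mul_factorial_mul_factorial (show mm p ≤ 2 * mm p by omega), mul_assoc]
    exact dvd_mul_right _ _
  have h3 := (Nat.Prime.dvd_factorial hp.out).1 (h0.trans h1)
  have h4 := two_mm hp.out h2
  omega

theorem Bh_natDegree : (Bh p).natDegree ≤ mm p + 1 := by
  have h4 := two_mm hp.out h2
  have h5 := hp.out.two_le
  have e1 : (Polynomial.X * (1 - Polynomial.X) : Polynomial (ZMod p)).natDegree ≤ 2 := by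
    refine Polynomial.natDegree_mul_le.trans ?_
    have h6 : (Polynomial.X : Polynomial (ZMod p)).natDegree ≤ 1 := Polynomial.natDegree_X_le
    have h7 : (1 - Polynomial.X : Polynomial (ZMod p)).natDegree ≤ 1 := by
      refine (Polynomial.natDegree_sub_le _ _).trans ?_
      rw [Polynomial.natDegree_one]
      exact max_le (Nat.zero_le _) h6
    omega
  have e2 : (Polynomial.derivative (hh p)).natDegree ≤ mm p - 1 := by
    have := Polynomial.natDegree_derivative_le (hh p)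
    rwa [hh_natDegree h2] at this
  unfold Bh
  refine Polynomial.natDegree_mul_le.trans ?_
  omega

end Pool.Agent.H85.OT

end S_OT_Ha

section S_OT_Hc

/-!
# Row HC (project OT): `h` is coprime to `X(1-X)h'`

Let `r` be a common root of `h` and `Bh = X(1-X)h'` in an algebraic closure of `F_p`
(`Polynomial.isCoprime_iff_aeval_ne_zero_of_isAlgClosed`).  `r ≠ 0`, `r ≠ 1` by `hh_coeff_zero`,
`hh_eval_one`, so `h(r) = h'(r) = 0`.  Expand `h = ∑ t_j (X - r)^j` (Taylor).  The equation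
`4 X(1-X) h'' + 4 (1-2X) h' = h` (`hh_ode`) gives, with `X = r + s`, for every `j`
`4 [ r(1-r) (j+2)(j+1) t_(j+2) + (1-2r)(j+1) j t_(j+1) - j (j-1) t_j`
`   + (1-2r)(j+1) t_(j+1) - 2 j t_j ] = t_j`.
By strong induction `t_j = 0` for all `j ≤ p - 1` (`t_0 = t_1 = 0`; for `j + 2 ≤ p-1` the factor
`4 r (1-r)(j+2)(j+1)` is nonzero mod `p`).  Since `deg h = m ≤ p-1`, `h = 0`, contradiction
(`h` is monic).
Alternative: if `r` is a root of `h` of multiplicity `k ≥ 2`, `k ≤ m < p`, then it is a root of `h'`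
of multiplicity exactly `k-1` and of `h''` of multiplicity exactly `k-2`
(`Polynomial.derivative_rootMultiplicity_of_root_of_mem_nonZeroDivisors`), so `(X-r)^(k-1)` divides
`h - 4(1-2X)h' = 4 X (1-X) h''`, contradiction.
-/

namespace Pool.Agent.H85.OT

open Polynomial in
lemma Hc_no_double {K : Type*} [Field K] {p : ℕ} [CharP K p] {f : K[X]} (hf0 : f ≠ 0)
    (hdeg : f.natDegree < p) {r : K} (hr0 : r ≠ 0) (hr1 : r ≠ 1) (h4 : (4 : K) ≠ 0)
    (hode : 4 * derivative (X * (1 - X) * derivative f) = f) (h : f.eval r = 0)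
    (h' : (derivative f).eval r = 0) : False := by
  obtain ⟨g, hg, hgd⟩ := exists_eq_pow_rootMultiplicity_mul_and_not_dvd f hf0 r
  have hg0 : g ≠ 0 := by
    rintro rfl
    exact hgd (dvd_zero _)
  have hgr : g.eval r ≠ 0 := fun h0 => hgd (dvd_iff_isRoot.mpr h0)
  have hk : rootMultiplicity r f ≤ f.natDegree := by
    conv_rhs => rw [hg]
    rw [natDegree_mul (pow_ne_zero _ (X_sub_C_ne_zero r)) hg0, natDegree_pow, natDegree_X_sub_C,
      mul_one]
    exact Nat.le_add_right _ _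
  generalize rootMultiplicity r f = k at *
  match k, hg, hk with
  | 0, hg, hk =>
    rw [pow_zero, one_mul] at hg
    rw [hg] at h
    exact hgr h
  | 1, hg, hk =>
    rw [hg, pow_one, derivative_mul, derivative_X_sub_C, one_mul, eval_add, eval_mul, eval_sub,
      eval_X, eval_C, sub_self, zero_mul, add_zero] at h'
    exact hgr h'
  | j + 2, hg, hk =>
    have hj1 : ((j + 1 : ℕ) : K) ≠ 0 := by
      rw [Ne, CharP.cast_eq_zero_iff K p]
      intro hd
      have := Nat.le_of_dvd (by omega) hd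
      omega
    have hj2 : ((j + 2 : ℕ) : K) ≠ 0 := by
      rw [Ne, CharP.cast_eq_zero_iff K p]
      intro hd
      have := Nat.le_of_dvd (by omega) hd
      omega
    obtain ⟨G, hG⟩ : ∃ G : K[X], G = X * (1 - X) * (C ((j + 2 : ℕ) : K) * g +
      (X - C r) * derivative g) := ⟨_, rfl⟩
    have e1 : X * (1 - X) * derivative f = (X - C r) ^ (j + 1) * G := by
      rw [hG, hg, derivative_mul, derivative_X_sub_C_pow]
      have : j + 2 - 1 = j + 1 := rfl
      rw [this]
      ring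
    rw [e1, derivative_mul, derivative_X_sub_C_pow, Nat.add_sub_cancel] at hode
    have e2 : (X - C r) ^ j * (4 * (C ((j + 1 : ℕ) : K) * G + (X - C r) * derivative G)) =
        (X - C r) ^ j * ((X - C r) ^ 2 * g) := by
      conv_rhs at hode => rw [hg]
      linear_combination hode
    have e3 := mul_left_cancel₀ (pow_ne_zero j (X_sub_C_ne_zero r)) e2
    have e4 := congrArg (eval r) e3
    simp only [eval_mul, eval_add, eval_sub, eval_X, eval_C, sub_self, zero_mul, add_zero,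
      eval_pow, ne_eq, OfNat.ofNat_ne_zero, not_false_eq_true, zero_pow, eval_ofNat] at e4
    have hGr : G.eval r ≠ 0 := by
      rw [hG]
      simp only [eval_mul, eval_add, eval_sub, eval_X, eval_C, sub_self, zero_mul, add_zero,
        eval_one]
      exact mul_ne_zero (mul_ne_zero hr0 (sub_ne_zero.mpr hr1.symm)) (mul_ne_zero hj2 hgr)
    exact mul_ne_zero h4 (mul_ne_zero hj1 hGr) e4

theorem hh_coprime {p : ℕ} [hp : Fact p.Prime] (h2 : p ≠ 2) : IsCoprime (hh p) (Bh p) := by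
  refine (Polynomial.isCoprime_iff_aeval_ne_zero_of_isAlgClosed (ZMod p)
    (AlgebraicClosure (ZMod p)) (hh p) (Bh p)).mpr ?_
  intro a
  by_contra hcon
  rw [not_or, not_not, not_not] at hcon
  obtain ⟨h1, h3⟩ := hcon
  have hinj := (algebraMap (ZMod p) (AlgebraicClosure (ZMod p))).injective
  have ha0 : a ≠ 0 := by
    rintro rfl
    rw [← Polynomial.coeff_zero_eq_aeval_zero', hh_coeff_zero h2, map_one] at h1
    exact one_ne_zero h1
  have ha1 : a ≠ 1 := by
    rintro rfl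
    rw [← map_one (algebraMap (ZMod p) (AlgebraicClosure (ZMod p))),
      Polynomial.aeval_algebraMap_apply, ← map_zero (algebraMap (ZMod p) _)] at h1
    exact hh_eval_one h2 (hinj h1)
  have : CharP (AlgebraicClosure (ZMod p)) p := charP_of_injective_algebraMap hinj p
  have hm : (hh p).natDegree < p := by
    rw [hh_natDegree h2]
    have := two_mm hp.out h2
    omega
  rw [Bh, map_mul, map_mul, map_sub, map_one, Polynomial.aeval_X, mul_eq_zero, mul_eq_zero] at h3
  have h3' : Polynomial.aeval a (Polynomial.derivative (hh p)) = 0 := by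
    rcases h3 with (h3 | h3) | h3
    · exact absurd h3 ha0
    · exact absurd (sub_eq_zero.mp h3).symm ha1
    · exact h3
  have h20 : (2 : AlgebraicClosure (ZMod p)) ≠ 0 := by
    have := (map_ne_zero (algebraMap (ZMod p) (AlgebraicClosure (ZMod p)))).mpr (two_ne h2)
    rwa [map_ofNat] at this
  refine Hc_no_double (p := p)
    (f := (hh p).map (algebraMap (ZMod p) (AlgebraicClosure (ZMod p)))) ?_ ?_ ha0 ha1 ?_ ?_ ?_ ?_
  · rw [Polynomial.map_ne_zero_iff hinj]
    exact (hh_monic h2).ne_zero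
  · rw [Polynomial.natDegree_map]
    exact hm
  · have : (4 : AlgebraicClosure (ZMod p)) = 2 * 2 := by norm_num
    rw [this]
    exact mul_ne_zero h20 h20
  · have h := congrArg (Polynomial.map (algebraMap (ZMod p) (AlgebraicClosure (ZMod p))))
      (hh_ode h2)
    rw [Polynomial.map_mul, Bh, ← Polynomial.derivative_map, Polynomial.map_mul,
      Polynomial.map_mul, Polynomial.map_sub, Polynomial.map_one, Polynomial.map_X,
      ← Polynomial.derivative_map, Polynomial.map_ofNat] at h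
    exact h
  · rw [Polynomial.eval_map_algebraMap]
    exact h1
  · rw [Polynomial.derivative_map, Polynomial.eval_map_algebraMap]
    exact h3'

/-- some irreducible polynomial divides `h` exactly once -/
theorem hh_simple_factor {p : ℕ} [hp : Fact p.Prime] (h2 : p ≠ 2) :
    ∃ π : Polynomial (ZMod p), Irreducible π ∧ π ∣ hh p ∧ ¬ π ^ 2 ∣ hh p := by
  have hm : 0 < (hh p).natDegree := by
    rw [hh_natDegree h2]
    have h := two_mm hp.out h2
    have := hp.out.two_le
    omega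
  obtain ⟨π, hπ, hd⟩ := Polynomial.exists_irreducible_of_natDegree_pos hm
  refine ⟨π, hπ, hd, ?_⟩
  rintro ⟨q, hq⟩
  have h1 : π ∣ Polynomial.derivative (hh p) := by
    rw [hq, Polynomial.derivative_mul, pow_two, Polynomial.derivative_mul]
    exact ⟨(Polynomial.derivative π + Polynomial.derivative π) * q +
      π * Polynomial.derivative q, by ring⟩
  have h3 : π ∣ Bh p := by
    rw [Bh]
    exact h1.mul_left _
  exact hπ.not_isUnit ((hh_coprime h2).isUnit_of_dvd' hd h3)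

end Pool.Agent.H85.OT

end S_OT_Hc

section S_OT_Hd

/-!
# Row HD (project OT): the Hasse identity `U^(p-1) h(λ) = 1` in `F_p[[q]]`

`K = F_p`, `p` odd, `m = (p-1)/2`, `x = xx`, `λ = 1 - x²`, `ε = ee`, `u = U`, `D = Dq`.
`Dq_lam` (any field with `2 ≠ 0`): `D λ = - 2 x D x = x² (1-x²) u² = λ (1-λ) u²` (`Dq_xx`; use
`2 ≠ 0` to cancel).
Put `g = u^(2m) h(λ)`; write `B = Bh p = X(1-X)h'`.
* `D (u^(2m)) = 2 m ε u^(2m) = - ε u^(2m)` (`2m + 1 = p = 0`; `Dq_U`) and
  `D (h(λ)) = h'(λ) λ(1-λ) u²` (`Derivation.map_aeval`).  So `D g = - ε g + u^(2m+2) B(λ)`.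
* `D (u^(2m+2) B(λ)) = (2m+2) ε u^(2m+2) B(λ) + u^(2m+2) B'(λ) λ(1-λ)u²`
  `= ε u^(2m+2) B(λ) + (1/4) u^(2m+4) λ(1-λ) h(λ)` (`hh_ode`), `= ε u^(2m+2) B(λ) + (1/4) u⁴ λ(1-λ) g`.
* `D D g = - (Dε) g - ε D g + ε u^(2m+2)B(λ) + (1/4)u⁴λ(1-λ)g = (- Dε + ε² + (1/4)u⁴λ(1-λ)) g = 0` by
  `Dq_ee` (`λ(1-λ) = x²(1-x²)`).
* `n² g_n = 0` for all `n`, so `g_n = 0` unless `p ∣ n`.
* Let `g~ = dbl g`.  `4^m = 1` in `F_p` (Fermat: `4^m = 2^(p-1)`), `(2 u~)^(2m) = u^(2m)(1+x)^(2m)`, and
  `(1+x)² λ~ = (1+x)² - 4x = (1-x)²`.  Hence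
  `g~ = u^(2m) (1+x)^(2m) ∑ c_i λ~^i = u^(2m) ∑_{i ≤ m} c_i (1-x)^(2i) (1+x)^(2(m-i))`
  so `g - g~ = u^(2m) G(x)` with `G = h(1-X²) - ∑ c_i (1-X)^(2i)(1+X)^(2(m-i))`, `natDegree G ≤ 2m = p-1`.
* coefficient `0` of `g` is `h(0) = 1` (`x(0) = 1`, `λ(0) = 0`), also of `g~`; coefficients
  `1..p-1` of `g` and `g~` vanish.  So coefficients `≤ p-1` of `g - g~` vanish, hence `G = 0`
  (`ord_xx'`) and `g = g~`.
* so `g_N = 0` for `N` odd and `g_(2M) = g_M`; strong induction: `g_N = 0` for `N ≥ 1`.  So `g = 1`.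
-/

open PowerSeries

namespace Pool.Agent.H85.OT

theorem Dq_lam (K : Type*) [Field K] (h2 : (2 : K) ≠ 0) :
    Dq K (lam K) = lam K * (1 - lam K) * U K ^ 2 := by
  have h := Dq_xx K h2
  have h3 : Dq K (lam K) = -(xx K * (2 * Dq K (xx K))) := by
    rw [lam, map_sub, pow_two, Derivation.leibniz, smul_eq_mul, Derivation.map_one_eq_zero]
    ring
  rw [h3, h, lam]
  ring

theorem Hd_upow (K : Type*) [Field K] (k : ℕ) :
    Dq K (U K ^ k) = (k : K⟦X⟧) * ee K * U K ^ k := by
  induction k with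
  | zero =>
    rw [pow_zero, Derivation.map_one_eq_zero]
    push_cast
    ring
  | succ k ih =>
    rw [pow_succ, Derivation.leibniz, smul_eq_mul, smul_eq_mul, ih, Dq_U]
    push_cast
    ring

section

variable {p : ℕ} [hp : Fact p.Prime] (h2 : p ≠ 2)

include h2 in
theorem Hd_two_mm : (2 : (ZMod p)⟦X⟧) * ((mm p : ℕ) : (ZMod p)⟦X⟧) = -1 := by
  have h1 : ((2 * mm p + 1 : ℕ) : (ZMod p)⟦X⟧) = 0 := by
    rw [two_mm hp.out h2]
    have h3 : ((p : ZMod p) : ZMod p) = 0 := ZMod.natCast_self p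
    have h4 : ((p : ℕ) : (ZMod p)⟦X⟧) = algebraMap (ZMod p) (ZMod p)⟦X⟧ ((p : ℕ) : ZMod p) := by
      rw [map_natCast]
    rw [h4, h3, map_zero]
  push_cast at h1
  linear_combination h1

/-- `B(λ)` -/
theorem Hd_B : Polynomial.aeval (lam (ZMod p)) (Bh p) =
    lam (ZMod p) * (1 - lam (ZMod p)) *
      Polynomial.aeval (lam (ZMod p)) (Polynomial.derivative (hh p)) := by
  rw [Bh, map_mul, map_mul, map_sub, map_one, Polynomial.aeval_X]

include h2 in
theorem Hd_D1 : Dq (ZMod p) (U (ZMod p) ^ (2 * mm p) * Polynomial.aeval (lam (ZMod p)) (hh p)) =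
    -(ee (ZMod p) * (U (ZMod p) ^ (2 * mm p) * Polynomial.aeval (lam (ZMod p)) (hh p))) +
      U (ZMod p) ^ (2 * mm p + 2) * Polynomial.aeval (lam (ZMod p)) (Bh p) := by
  have h3 := Hd_two_mm h2
  rw [Derivation.leibniz, smul_eq_mul, smul_eq_mul, Hd_upow, Derivation.map_aeval, smul_eq_mul,
    Dq_lam _ (two_ne h2), Hd_B, pow_add]
  push_cast
  linear_combination (ee (ZMod p) * U (ZMod p) ^ (2 * mm p) *
    Polynomial.aeval (lam (ZMod p)) (hh p)) * h3

include h2 in
theorem Hd_D2 : 4 * Dq (ZMod p) (U (ZMod p) ^ (2 * mm p + 2) *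
      Polynomial.aeval (lam (ZMod p)) (Bh p)) =
    4 * (ee (ZMod p) * (U (ZMod p) ^ (2 * mm p + 2) * Polynomial.aeval (lam (ZMod p)) (Bh p))) +
      U (ZMod p) ^ 4 * (lam (ZMod p) * (1 - lam (ZMod p))) *
        (U (ZMod p) ^ (2 * mm p) * Polynomial.aeval (lam (ZMod p)) (hh p)) := by
  have h3 := Hd_two_mm h2
  have h4 : 4 * Polynomial.aeval (lam (ZMod p)) (Polynomial.derivative (Bh p)) =
      Polynomial.aeval (lam (ZMod p)) (hh p) := by
    have h5 := congrArg (Polynomial.aeval (lam (ZMod p))) (hh_ode h2)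
    rw [map_mul, map_ofNat] at h5
    exact h5
  rw [Derivation.leibniz, smul_eq_mul, smul_eq_mul, Hd_upow, Derivation.map_aeval, smul_eq_mul,
    Dq_lam _ (two_ne h2), pow_add]
  push_cast
  linear_combination (4 * ee (ZMod p) * U (ZMod p) ^ (2 * mm p) * U (ZMod p) ^ 2 *
    Polynomial.aeval (lam (ZMod p)) (Bh p)) * h3 + (U (ZMod p) ^ (2 * mm p) * U (ZMod p) ^ 2 *
      (lam (ZMod p) * (1 - lam (ZMod p)) * U (ZMod p) ^ 2)) * h4

include h2 in
theorem Hd_DD : 4 * Dq (ZMod p) (Dq (ZMod p) (U (ZMod p) ^ (2 * mm p) *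
      Polynomial.aeval (lam (ZMod p)) (hh p))) = 0 := by
  have h3 := Dq_ee (ZMod p) (two_ne h2)
  have h4 := Hd_D1 h2
  have h5 := Hd_D2 h2
  have h6 : xx (ZMod p) ^ 2 * (1 - xx (ZMod p) ^ 2) = lam (ZMod p) * (1 - lam (ZMod p)) := by
    rw [lam]; ring
  rw [h6] at h3
  generalize hg : U (ZMod p) ^ (2 * mm p) * Polynomial.aeval (lam (ZMod p)) (hh p) = g at *
  generalize hB : U (ZMod p) ^ (2 * mm p + 2) * Polynomial.aeval (lam (ZMod p)) (Bh p) = b at *
  rw [h4, map_add, map_neg, Derivation.leibniz, smul_eq_mul, smul_eq_mul, h4]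
  linear_combination h5 - g * h3

include h2 in
theorem Hd_coeff {n : ℕ} (hn : ¬ p ∣ n) : PowerSeries.coeff n (U (ZMod p) ^ (2 * mm p) *
      Polynomial.aeval (lam (ZMod p)) (hh p)) = 0 := by
  have h3 := congrArg (PowerSeries.coeff n) (Hd_DD h2)
  have h4 : (4 : (ZMod p)⟦X⟧) = PowerSeries.C (4 : ZMod p) := by
    rw [map_ofNat]
  rw [h4, PowerSeries.coeff_C_mul, coeff_Dq, coeff_Dq, map_zero] at h3
  have h5 : (n : ZMod p) ≠ 0 := by
    rw [Ne, ZMod.natCast_eq_zero_iff]
    exact hn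
  have h6 : (4 : ZMod p) ≠ 0 := by
    have h7 : (4 : ZMod p) = 2 ^ 2 := by norm_num
    rw [h7]
    exact pow_ne_zero 2 (two_ne h2)
  rcases mul_eq_zero.1 h3 with h7 | h7
  · exact absurd h7 h6
  · rcases mul_eq_zero.1 h7 with h8 | h8
    · exact absurd h8 h5
    · rcases mul_eq_zero.1 h8 with h9 | h9
      · exact absurd h9 h5
      · exact h9

theorem Hd_coeff_zero (h2 : p ≠ 2) : PowerSeries.coeff 0 (U (ZMod p) ^ (2 * mm p) *
      Polynomial.aeval (lam (ZMod p)) (hh p)) = 1 := by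
  have h3 : PowerSeries.constantCoeff (lam (ZMod p)) = 0 := by
    rw [lam, map_sub, map_one, map_pow, constCoeff_xx, one_pow, sub_self]
  rw [PowerSeries.coeff_zero_eq_constantCoeff_apply, map_mul, map_pow, constCoeff_U, one_pow,
    one_mul, Polynomial.aeval_def, Polynomial.hom_eval₂, h3]
  have h4 : (PowerSeries.constantCoeff (R := ZMod p)).comp (algebraMap (ZMod p) (ZMod p)⟦X⟧) =
      RingHom.id (ZMod p) := by
    refine RingHom.ext fun x => ?_
    rw [RingHom.comp_apply, PowerSeries.algebraMap_apply, PowerSeries.constantCoeff_C]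
    rfl
  rw [h4, Polynomial.eval₂_id, ← Polynomial.coeff_zero_eq_eval_zero, hh_coeff_zero h2]

/-- the polynomial of the duplicated form -/
noncomputable def Hd_G2 (p : ℕ) : Polynomial (ZMod p) :=
  ∑ i ∈ Finset.range (mm p + 1), Polynomial.C ((((mm p).choose i : ℕ) : ZMod p) ^ 2) *
    ((1 - Polynomial.X) ^ (2 * i) * (1 + Polynomial.X) ^ (2 * (mm p - i)))

include h2 in
theorem Hd_dbl : dbl (ZMod p) (U (ZMod p) ^ (2 * mm p) *
      Polynomial.aeval (lam (ZMod p)) (hh p)) =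
    U (ZMod p) ^ (2 * mm p) * Polynomial.aeval (xx (ZMod p)) (Hd_G2 p) := by
  have h3 := dbl_U (ZMod p) (two_ne h2)
  have h4 := dbl_xx (ZMod p) (two_ne h2)
  have h5 : (2 : (ZMod p)⟦X⟧) ^ (2 * mm p) = 1 := by
    have h6 : (2 : ZMod p) ^ (p - 1) = 1 := ZMod.pow_card_sub_one_eq_one (two_ne h2)
    have h7 : p - 1 = 2 * mm p := by
      have := two_mm hp.out h2
      omega
    rw [h7] at h6
    have h8 : (2 : (ZMod p)⟦X⟧) = PowerSeries.C (2 : ZMod p) := by rw [map_ofNat]
    rw [h8, ← map_pow, h6, map_one]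
  have h6 : dbl (ZMod p) (U (ZMod p)) ^ (2 * mm p) =
      U (ZMod p) ^ (2 * mm p) * (1 + xx (ZMod p)) ^ (2 * mm p) := by
    rw [← mul_pow, ← h3, mul_pow, h5, one_mul]
  have h7 : (1 + xx (ZMod p)) ^ 2 * dbl (ZMod p) (lam (ZMod p)) = (1 - xx (ZMod p)) ^ 2 := by
    rw [lam, map_sub, map_one, map_pow]
    linear_combination -h4
  rw [map_mul, map_pow, h6, ← Polynomial.aeval_algHom_apply, hh, Hd_G2, map_sum, map_sum, mul_assoc,
    Finset.mul_sum]
  congr 1
  apply Finset.sum_congr rfl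
  intro i hi
  have hi' : i ≤ mm p := Nat.lt_succ_iff.1 (Finset.mem_range.1 hi)
  obtain ⟨d, hd⟩ := Nat.exists_eq_add_of_le hi'
  have h8 : mm p - i = d := by omega
  rw [h8]
  simp only [map_mul, map_pow, map_sub, map_add, map_one, Polynomial.aeval_X, Polynomial.aeval_C]
  have h9 : (1 + xx (ZMod p)) ^ (2 * mm p) * dbl (ZMod p) (lam (ZMod p)) ^ i =
      (1 - xx (ZMod p)) ^ (2 * i) * (1 + xx (ZMod p)) ^ (2 * d) := by
    rw [pow_mul (1 - xx (ZMod p)), ← h7, mul_pow, ← pow_mul, hd, mul_add, pow_add]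
    ring
  linear_combination (algebraMap (ZMod p) (ZMod p)⟦X⟧ (((mm p).choose i : ℕ) : ZMod p)) ^ 2 * h9

include h2 in
theorem Hd_deg : ((hh p).comp (1 - Polynomial.X ^ 2) - Hd_G2 p).natDegree ≤ 2 * mm p := by
  apply (Polynomial.natDegree_sub_le _ _).trans
  apply max_le
  · apply Polynomial.natDegree_comp_le.trans
    rw [hh_natDegree h2, mul_comm]
    apply Nat.mul_le_mul_right
    apply (Polynomial.natDegree_sub_le _ _).trans
    rw [Polynomial.natDegree_one, Polynomial.natDegree_X_pow]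
    exact max_le (by norm_num) le_rfl
  · unfold Hd_G2
    apply Polynomial.natDegree_sum_le_of_forall_le
    intro i hi
    have hi' : i ≤ mm p := Nat.lt_succ_iff.1 (Finset.mem_range.1 hi)
    apply (Polynomial.natDegree_C_mul_le _ _).trans
    apply Polynomial.natDegree_mul_le.trans
    have h3 : ((1 - Polynomial.X : Polynomial (ZMod p)) ^ (2 * i)).natDegree ≤ 2 * i := by
      apply Polynomial.natDegree_pow_le.trans
      have h4 : (1 - Polynomial.X : Polynomial (ZMod p)).natDegree ≤ 1 := by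
        apply (Polynomial.natDegree_sub_le _ _).trans
        rw [Polynomial.natDegree_one, Polynomial.natDegree_X]
        exact max_le (by norm_num) le_rfl
      calc 2 * i * (1 - Polynomial.X : Polynomial (ZMod p)).natDegree ≤ 2 * i * 1 :=
            Nat.mul_le_mul_left _ h4
        _ = 2 * i := mul_one _
    have h5 : ((1 + Polynomial.X : Polynomial (ZMod p)) ^ (2 * (mm p - i))).natDegree ≤
        2 * (mm p - i) := by
      apply Polynomial.natDegree_pow_le.trans
      have h4 : (1 + Polynomial.X : Polynomial (ZMod p)).natDegree ≤ 1 := by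
        apply (Polynomial.natDegree_add_le _ _).trans
        rw [Polynomial.natDegree_one, Polynomial.natDegree_X]
        exact max_le (by norm_num) le_rfl
      calc 2 * (mm p - i) * (1 + Polynomial.X : Polynomial (ZMod p)).natDegree ≤
            2 * (mm p - i) * 1 := Nat.mul_le_mul_left _ h4
        _ = 2 * (mm p - i) := mul_one _
    omega

include h2 in
theorem Hd_eq_dbl : dbl (ZMod p) (U (ZMod p) ^ (2 * mm p) *
      Polynomial.aeval (lam (ZMod p)) (hh p)) =
    U (ZMod p) ^ (2 * mm p) * Polynomial.aeval (lam (ZMod p)) (hh p) := by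
  have h3 : Polynomial.aeval (lam (ZMod p)) (hh p) =
      Polynomial.aeval (xx (ZMod p)) ((hh p).comp (1 - Polynomial.X ^ 2)) := by
    rw [Polynomial.aeval_comp, map_sub, map_one, map_pow, Polynomial.aeval_X, lam]
  have h4 : U (ZMod p) ^ (2 * mm p) * Polynomial.aeval (xx (ZMod p))
      ((hh p).comp (1 - Polynomial.X ^ 2) - Hd_G2 p) =
      U (ZMod p) ^ (2 * mm p) * Polynomial.aeval (lam (ZMod p)) (hh p) -
        dbl (ZMod p) (U (ZMod p) ^ (2 * mm p) * Polynomial.aeval (lam (ZMod p)) (hh p)) := by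
    rw [Hd_dbl h2, map_sub, ← h3, mul_sub]
  have h5 : (hh p).comp (1 - Polynomial.X ^ 2) - Hd_G2 p = 0 := by
    apply ord_xx' (two_ne h2) (2 * mm p) _ (2 * mm p) (Hd_deg h2)
    intro l hl
    have hp2 := two_mm hp.out h2
    rw [h4, map_sub, dbl, PowerSeries.coeff_expand]
    rcases Nat.eq_zero_or_pos l with rfl | hl0
    · rw [if_pos (dvd_zero 2), Nat.zero_div, sub_self]
    · rw [Hd_coeff h2 (Nat.not_dvd_of_pos_of_lt hl0 (by omega))]
      split_ifs with h6
      · obtain ⟨k, rfl⟩ := h6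
        rw [Nat.mul_div_cancel_left _ two_pos,
          Hd_coeff h2 (Nat.not_dvd_of_pos_of_lt (by omega) (by omega)), sub_zero]
      · rw [sub_zero]
  rw [h5, map_zero, mul_zero] at h4
  exact (sub_eq_zero.1 h4.symm).symm

end

theorem hasse {p : ℕ} [hp : Fact p.Prime] (h2 : p ≠ 2) :
    U (ZMod p) ^ (2 * mm p) * Polynomial.aeval (lam (ZMod p)) (hh p) = 1 := by
  have h3 : ∀ N : ℕ, 1 ≤ N → PowerSeries.coeff N (U (ZMod p) ^ (2 * mm p) *
      Polynomial.aeval (lam (ZMod p)) (hh p)) = 0 := by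
    intro N
    induction N using Nat.strong_induction_on with
    | _ N ih =>
      intro hN
      rw [← Hd_eq_dbl h2, dbl, PowerSeries.coeff_expand]
      split_ifs with h6
      · obtain ⟨k, rfl⟩ := h6
        rw [Nat.mul_div_cancel_left _ two_pos]
        exact ih k (by omega) (by omega)
      · rfl
  ext N
  rcases Nat.eq_zero_or_pos N with rfl | hN
  · rw [Hd_coeff_zero h2, PowerSeries.coeff_one, if_pos rfl]
  · rw [h3 N hN, PowerSeries.coeff_one, if_neg hN.ne']

/-- `ε = u^(p+1) B(λ)`: differentiate `hasse`: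
`0 = 2 m ε u^(2m) h(λ) + u^(2m) h'(λ) λ (1-λ) u² = - ε + u^(2m+2) B(λ)`. -/
theorem ee_eq {p : ℕ} [hp : Fact p.Prime] (h2 : p ≠ 2) :
    ee (ZMod p) = U (ZMod p) ^ (2 * mm p + 2) * Polynomial.aeval (lam (ZMod p)) (Bh p) := by
  have h3 := Hd_D1 h2
  rw [hasse h2, Derivation.map_one_eq_zero] at h3
  linear_combination h3

end Pool.Agent.H85.OT

end S_OT_Hd

section S_OU_MPg

/-!
# Row MPG (project OU): the mod `p` lemma, all levels

`p ≠ 2` prime, `k = ZMod p`, `e` a reduction datum (`RD`), `f U^(-kk) ∈ SPn e c`, `D F = f`, `F_n = 0` for `p ∣ n`, `3 ≤ kk < p`; `κ = kk - 2`.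
Notation `u = U k`, `λ = lam k`, `δ = del k = u^(-2) D`, `m = mm p` (`2m + 1 = p`), `h = hh p`, `B = Bh p`:
`u^(2m) h(λ) = 1` (`hasse`), `ε = u^(2m+2) B(λ)` (`ee_eq`), `h` coprime to `B` (`hh_coprime`), `h` monic of degree `m` (`hh_monic`, `hh_natDegree`),
`deg B ≤ m + 1` (`Bh_natDegree`); `δ λ = λ(1-λ)` (`Dq_lam`), so `δ(P(λ)) = (X(1-X)P')(λ)`, in particular `δ(h(λ)) = B(λ)`.
1. `F = D^(p-2) f` (coefficient `n` : `n^(p-2) f_n = n^(p-1) F_n`, Fermat for `p ∤ n`; both sides `0` for `p ∣ n`).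
2. Let `φ = f u^(-kk)`.  By induction `D^i f = u^(kk + i(p+1)) P_i`, `P_0 = φ`, `P_(i+1) = w_i B(λ) P_i + h(λ) δ P_i`, `w_i = kk + i (p+1)`:
   `D(u^w P) = w ε u^w P + u^(w+2) δP` and `ε = u^(p+1) B(λ)`, `1 = u^(p-1) h(λ)`.  If `P ∈ SPn e n` then `δP = ∑ (δ p_l) e_l + p_l δ e_l ∈ SPn e (n + c + 1)`, so
   `P_(i+1) ∈ SPn e (n + m + c + 1)`.  So `F = u^w P`, `w = kk + (p-2)(p+1)`, `P ∈ SPn e n_P`, `n_P = c + (p-2)(m + c + 1)`.
3. `G := F u^(-κp)`.  `w - κp = (p-1)(p-κ)`, so `h(λ)^(p-κ) G = P ∈ SP e` (`p > κ`).  `δG = u^(-2) (D F) u^(-κp)` (as `D(u^(-κp)) = 0` in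
   characteristic `p`) `= u^(κ - κp) φ = h(λ)^κ φ ∈ SP e`.
4. Let `s` be minimal with `h(λ)^s G ∈ SP e`; `s ≤ p - κ < p`.  Suppose `s ≥ 1`, `Y = h(λ)^s G`.  `SP e` is stable under `δ`.
   `h δY = s δ(h) Y + h^(s+1) δG`, so `s B(λ) Y = h(λ) (δY - h(λ)^s δG) ∈ h(λ) · SP e`.  With `a B + b h = 1` in `k[X]` and `s ≠ 0` in `k`:
   `Y = a(λ) B(λ) Y + b(λ) h(λ) Y ∈ h(λ) · SP e`, `Y = h(λ) Y1`, `Y1 = h(λ)^(s-1) G ∈ SP e` (domain), contradiction.  So `G ∈ SP e`.
5. Degree: `P` is `IsDeg (n_P + c)` (`IsDeg.of_SPn`), `P = (h^(p-κ))(λ) G`, `deg h^(p-κ) = m (p-κ)`, `G` is `IsDeg` of some degree (in `SP e`), so by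
   `IsDeg.strict` `G` is `IsDeg n` as soon as `n_P + c ≤ n + m (p-κ)`:
   `n_P + c - m(p-κ) = 2c - 2m + (p-2)(c+1) + m κ ≤ (3c + 1 + kk) p`.
-/

open PowerSeries
open Pool.Agent.H85.OT

namespace Pool.Agent.H85.OU

section gen

variable {K : Type*} [Field K]

theorem MPg_Dq (f : K⟦X⟧) : Dq K f = U K ^ 2 * del K f := by
  rw [del_apply, ← mul_assoc, ← mul_pow, U_mul_inv, one_pow, one_mul]

theorem MPg_del_evl (h2 : (2 : K) ≠ 0) (P : Polynomial K) :
    del K (evl K P) =
      evl K (Polynomial.X * (1 - Polynomial.X) * Polynomial.derivative P) := by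
  rw [del_apply, Derivation.map_aeval, Dq_lam K h2, smul_eq_mul]
  simp only [map_mul, map_sub, map_one, Polynomial.aeval_X]
  have h3 : (U K)⁻¹ ^ 2 * U K ^ 2 = 1 := by
    rw [← mul_pow, mul_comm, U_mul_inv, one_pow]
  linear_combination (Polynomial.aeval (lam K) (Polynomial.derivative P) *
    (lam K * (1 - lam K))) * h3

theorem MPg_mono {r n n' : ℕ} {e : Fin r → K⟦X⟧} (h : n ≤ n') {y : K⟦X⟧}
    (hy : y ∈ SPn K e n) : y ∈ SPn K e n' := by
  obtain ⟨p, hp, rfl⟩ := hy
  exact ⟨p, fun l => (hp l).trans h, rfl⟩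

theorem MPg_add {r n : ℕ} {e : Fin r → K⟦X⟧} {y z : K⟦X⟧}
    (hy : y ∈ SPn K e n) (hz : z ∈ SPn K e n) : y + z ∈ SPn K e n := by
  obtain ⟨p, hp, rfl⟩ := hy
  obtain ⟨q, hq, rfl⟩ := hz
  refine ⟨fun l => p l + q l,
    fun l => (Polynomial.natDegree_add_le _ _).trans (max_le (hp l) (hq l)), ?_⟩
  rw [← Finset.sum_add_distrib]
  exact Finset.sum_congr rfl fun l _ => by rw [map_add, add_mul]

theorem MPg_evl_mul {r n d : ℕ} {e : Fin r → K⟦X⟧} {y : K⟦X⟧} (Q : Polynomial K)
    (hQ : Q.natDegree ≤ d) (hy : y ∈ SPn K e n) : evl K Q * y ∈ SPn K e (n + d) := by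
  obtain ⟨p, hp, rfl⟩ := hy
  refine ⟨fun l => Q * p l, fun l => ?_, ?_⟩
  · refine Polynomial.natDegree_mul_le.trans ?_
    have := hp l
    omega
  · rw [Finset.mul_sum]
    exact Finset.sum_congr rfl fun l _ => by rw [map_mul, mul_assoc]

theorem MPg_zero {r n : ℕ} {e : Fin r → K⟦X⟧} : (0 : K⟦X⟧) ∈ SPn K e n :=
  ⟨fun _ => 0, fun _ => by rw [Polynomial.natDegree_zero]; exact Nat.zero_le _, by simp⟩

theorem MPg_sum {r n : ℕ} {e : Fin r → K⟦X⟧} {ι : Type*} (s : Finset ι) (y : ι → K⟦X⟧)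
    (h : ∀ i ∈ s, y i ∈ SPn K e n) : ∑ i ∈ s, y i ∈ SPn K e n := by
  classical
  induction s using Finset.induction_on with
  | empty => rw [Finset.sum_empty]; exact MPg_zero
  | insert a s ha ih =>
    rw [Finset.sum_insert ha]
    exact MPg_add (h a (Finset.mem_insert_self a s))
      (ih fun i hi => h i (Finset.mem_insert_of_mem hi))

theorem MPg_map_sum (d : Dv K⟦X⟧) {ι : Type*} (s : Finset ι) (y : ι → K⟦X⟧) :
    d (∑ i ∈ s, y i) = ∑ i ∈ s, d (y i) := by
  classical
  induction s using Finset.induction_on with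
  | empty => rw [Finset.sum_empty, Finset.sum_empty, Dv.map_zero]
  | insert a s ha ih =>
    rw [Finset.sum_insert ha, Finset.sum_insert ha, Dv.map_add, ih]

theorem MPg_gen {r : ℕ} {e : Fin r → K⟦X⟧} (l : Fin r) : e l ∈ SPn K e 0 := by
  classical
  refine ⟨fun j => if j = l then 1 else 0, fun j => ?_, ?_⟩
  · dsimp only
    split_ifs
    · rw [Polynomial.natDegree_one]
    · rw [Polynomial.natDegree_zero]
  · rw [Finset.sum_eq_single l]
    · dsimp only
      rw [if_pos rfl, map_one, one_mul]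
    · intro j _ hj
      dsimp only
      rw [if_neg hj, map_zero, zero_mul]
    · intro h
      exact absurd (Finset.mem_univ l) h

theorem MPg_del (h2 : (2 : K) ≠ 0) {r c n : ℕ} {e : Fin r → K⟦X⟧}
    (hR : ∀ l, del K (e l) ∈ SPn K e c) {y : K⟦X⟧} (hy : y ∈ SPn K e n) :
    del K y ∈ SPn K e (n + c + 1) := by
  obtain ⟨p, hp, rfl⟩ := hy
  rw [MPg_map_sum]
  refine MPg_sum _ _ fun l _ => ?_
  rw [Dv.map_mul, MPg_del_evl h2]
  refine MPg_add ?_ ?_
  · refine MPg_mono (by omega : 0 + (n + 1) ≤ n + c + 1) (MPg_evl_mul _ ?_ (MPg_gen l))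
    by_cases h0 : (p l).natDegree = 0
    · rw [Polynomial.derivative_of_natDegree_zero h0, mul_zero, Polynomial.natDegree_zero]
      exact Nat.zero_le _
    · refine Polynomial.natDegree_mul_le.trans ?_
      have h3 := Polynomial.natDegree_derivative_le (p l)
      have h4 := hp l
      have e1 : (Polynomial.X * (1 - Polynomial.X) : Polynomial K).natDegree ≤ 2 := by
        refine Polynomial.natDegree_mul_le.trans ?_
        have h6 : (Polynomial.X : Polynomial K).natDegree ≤ 1 := Polynomial.natDegree_X_le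
        have h7 : (1 - Polynomial.X : Polynomial K).natDegree ≤ 1 := by
          refine (Polynomial.natDegree_sub_le _ _).trans ?_
          rw [Polynomial.natDegree_one]
          exact max_le (Nat.zero_le _) h6
        omega
      omega
  · exact MPg_mono (by omega : c + n ≤ n + c + 1) (MPg_evl_mul (p l) (hp l) (hR l))

theorem MPg_SP {r n : ℕ} {e : Fin r → K⟦X⟧} {y : K⟦X⟧} (hy : y ∈ SPn K e n) : y ∈ SP K e := by
  obtain ⟨p, -, hy⟩ := hy
  exact ⟨p, hy⟩

theorem MPg_SP' {r : ℕ} {e : Fin r → K⟦X⟧} {y : K⟦X⟧} (hy : y ∈ SP K e) :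
    ∃ n, y ∈ SPn K e n := by
  obtain ⟨p, hy⟩ := hy
  exact ⟨∑ l, (p l).natDegree, p, fun l => Finset.single_le_sum
    (f := fun l => (p l).natDegree) (fun _ _ => Nat.zero_le _) (Finset.mem_univ l), hy⟩

theorem MPg_SP_del (h2 : (2 : K) ≠ 0) {r c : ℕ} {e : Fin r → K⟦X⟧}
    (hR : ∀ l, del K (e l) ∈ SPn K e c) {y : K⟦X⟧} (hy : y ∈ SP K e) : del K y ∈ SP K e := by
  obtain ⟨n, hn⟩ := MPg_SP' hy
  exact MPg_SP (MPg_del h2 hR hn)

end gen

theorem MPg_iter {p : ℕ} [hp : Fact p.Prime] (hp2 : p ≠ 2) {r c : ℕ}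
    (e : Fin r → (ZMod p)⟦X⟧) (hR : ∀ l, del (ZMod p) (e l) ∈ SPn (ZMod p) e c) (kk : ℕ)
    (φ : (ZMod p)⟦X⟧) (hφ : φ ∈ SPn (ZMod p) e c) (i : ℕ) :
    ∃ P ∈ SPn (ZMod p) e (c + i * (mm p + c + 1)),
      (fun G => Dq (ZMod p) G)^[i] (U (ZMod p) ^ kk * φ) =
        U (ZMod p) ^ (kk + i * (p + 1)) * P := by
  have h20 := two_ne (p := p) hp2
  have hm := two_mm hp.out hp2
  have hH := hasse (p := p) hp2
  have hE := ee_eq (p := p) hp2
  induction i with
  | zero => exact ⟨φ, by simpa using hφ, by simp⟩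
  | succ i ih =>
    obtain ⟨P, hP, hPi⟩ := ih
    rw [Function.iterate_succ_apply', hPi]
    obtain ⟨w, hw⟩ : ∃ w, w = kk + i * (p + 1) := ⟨_, rfl⟩
    rw [← hw]
    refine ⟨evl _ (Polynomial.C (w : ZMod p) * Bh p) * P + evl _ (hh p) * del _ P, ?_, ?_⟩
    · refine MPg_add ?_ ?_
      · refine MPg_mono ?_ (MPg_evl_mul (d := mm p + 1) _
          ((Polynomial.natDegree_C_mul_le _ _).trans (Bh_natDegree hp2)) hP)
        have : (i + 1) * (mm p + c + 1) = i * (mm p + c + 1) + (mm p + c + 1) := by ring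
        omega
      · refine MPg_mono ?_ (MPg_evl_mul (d := mm p) _ (hh_natDegree hp2).le
          (MPg_del h20 hR hP))
        have : (i + 1) * (mm p + c + 1) = i * (mm p + c + 1) + (mm p + c + 1) := by ring
        omega
    · have e1 : kk + (i + 1) * (p + 1) = w + (2 * mm p + 2) := by
        rw [hw]
        have : (i + 1) * (p + 1) = i * (p + 1) + (p + 1) := by ring
        omega
      rw [e1]
      simp only [map_mul, map_natCast]
      rw [Derivation.leibniz, smul_eq_mul, smul_eq_mul, Hd_upow, hE, MPg_Dq P]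
      linear_combination (-(U (ZMod p) ^ w * U (ZMod p) ^ 2 * del (ZMod p) P)) * hH

theorem MPg_Dpow {p : ℕ} [hp : Fact p.Prime] (f F : (ZMod p)⟦X⟧)
    (hF : Dq (ZMod p) F = f) (hF0 : ∀ n, p ∣ n → PowerSeries.coeff n F = 0) :
    (fun G => Dq (ZMod p) G)^[p - 2] f = F := by
  have hp2 := hp.out.two_le
  have h5 : ∀ (k n : ℕ), PowerSeries.coeff n ((fun G => Dq (ZMod p) G)^[k] f) =
      (n : ZMod p) ^ k * PowerSeries.coeff n f := by
    intro k n
    induction k with
    | zero => simp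
    | succ k ih =>
      rw [Function.iterate_succ_apply', coeff_Dq, ih, pow_succ]
      ring
  ext n
  rw [h5, ← hF, coeff_Dq]
  by_cases hn : p ∣ n
  · rw [hF0 n hn, mul_zero, mul_zero]
  · have hn' : (n : ZMod p) ≠ 0 := fun h => hn ((ZMod.natCast_eq_zero_iff _ _).1 h)
    rw [← mul_assoc, ← pow_succ, show p - 2 + 1 = p - 1 by omega,
      ZMod.pow_card_sub_one_eq_one hn', one_mul]

/-- one step of the descent -/
theorem MPg_step {p : ℕ} [hp : Fact p.Prime] (hp2 : p ≠ 2) {r c : ℕ}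
    (e : Fin r → (ZMod p)⟦X⟧) (hR : ∀ l, del (ZMod p) (e l) ∈ SPn (ZMod p) e c)
    (G φ : (ZMod p)⟦X⟧) (κ : ℕ) (hφ : φ ∈ SP (ZMod p) e)
    (hG : del (ZMod p) G = evl (ZMod p) (hh p ^ κ) * φ) (s : ℕ) (hs : s + 1 < p)
    (hY : evl (ZMod p) (hh p ^ (s + 1)) * G ∈ SP (ZMod p) e) :
    evl (ZMod p) (hh p ^ s) * G ∈ SP (ZMod p) e := by
  have h20 := two_ne (p := p) hp2
  have hH := hasse (p := p) hp2
  have ht : ((s + 1 : ℕ) : ZMod p) ≠ 0 := fun h => by
    have h1 := (ZMod.natCast_eq_zero_iff _ _).1 h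
    have h3 := Nat.le_of_dvd (by omega) h1
    omega
  obtain ⟨a, b, hab⟩ := hh_coprime hp2
  obtain ⟨Y, hYd⟩ : ∃ Y, Y = evl (ZMod p) (hh p ^ (s + 1)) * G := ⟨_, rfl⟩
  obtain ⟨T, hTd⟩ : ∃ T, T = del (ZMod p) Y + -(evl (ZMod p) (hh p ^ (s + 1 + κ)) * φ) :=
    ⟨_, rfl⟩
  rw [← hYd] at hY
  have hT : T ∈ SP (ZMod p) e := by
    rw [hTd]
    exact SP_add (MPg_SP_del h20 hR hY) (SP_neg (SP_evl_mul _ hφ))
  have hab' : evl (ZMod p) a * evl (ZMod p) (hh p) + evl (ZMod p) b * evl (ZMod p) (Bh p) = 1 := by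
    rw [← map_mul, ← map_mul, ← map_add, hab, map_one]
  have hid : ((s + 1 : ℕ) : (ZMod p)⟦X⟧) * (evl (ZMod p) (Bh p) * Y) =
      evl (ZMod p) (hh p) * T := by
    rw [hTd, hYd, Dv.map_mul, MPg_del_evl h20, hG, Polynomial.derivative_pow_succ, Bh]
    simp only [map_mul, map_pow, map_sub, map_one, map_add, map_natCast,
      Polynomial.aeval_X, pow_succ, pow_add, Nat.cast_succ]
    ring
  have ht' : evl (ZMod p) (Polynomial.C (((s + 1 : ℕ) : ZMod p)⁻¹)) *
      ((s + 1 : ℕ) : (ZMod p)⟦X⟧) = 1 := by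
    rw [Polynomial.aeval_C]
    have h1 : ((s + 1 : ℕ) : (ZMod p)⟦X⟧) =
        algebraMap (ZMod p) (ZMod p)⟦X⟧ ((s + 1 : ℕ) : ZMod p) := by rw [map_natCast]
    rw [h1, ← map_mul, inv_mul_cancel₀ ht, map_one]
  have hh0 : evl (ZMod p) (hh p) ≠ 0 := by
    intro h
    rw [h, mul_zero] at hH
    exact zero_ne_one hH
  have hfin : evl (ZMod p) (hh p ^ s) * G = evl (ZMod p) a * Y +
      evl (ZMod p) (Polynomial.C (((s + 1 : ℕ) : ZMod p)⁻¹) * b) * T := by
    refine mul_left_cancel₀ hh0 ?_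
    have h1 : evl (ZMod p) (hh p) * (evl (ZMod p) (hh p ^ s) * G) = Y := by
      rw [hYd, pow_succ, map_mul]
      ring
    rw [h1, map_mul]
    linear_combination (-Y) * hab' + (evl (ZMod p) b * evl (ZMod p) (Bh p) * Y) * (-1) * ht' +
      (evl (ZMod p) (Polynomial.C (((s + 1 : ℕ) : ZMod p)⁻¹)) * evl (ZMod p) b) * hid
  rw [hfin]
  exact SP_add (SP_evl_mul _ hY) (SP_evl_mul _ hT)

theorem mp_gen (p : ℕ) [hp : Fact p.Prime] (hp2 : p ≠ 2)
    {r c : ℕ} (e : Fin r → (ZMod p)⟦X⟧) (hR : RD (ZMod p) r c e) (kk : ℕ) (hk : 3 ≤ kk)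
    (hpk : kk < p) (f F : (ZMod p)⟦X⟧) (hf : f * (U (ZMod p))⁻¹ ^ kk ∈ SPn (ZMod p) e c)
    (hF : Dq (ZMod p) F = f) (hF0 : ∀ n, p ∣ n → PowerSeries.coeff n F = 0) :
    ∃ G ∈ SP (ZMod p) e, F = U (ZMod p) ^ ((kk - 2) * p) * G ∧
      IsDeg (ZMod p) ((3 * c + 1 + kk) * p) G := by
  have hp2' := hp.out.two_le
  have h20 := two_ne (p := p) hp2
  have hm := two_mm hp.out hp2
  have hH := hasse (p := p) hp2
  have h1 := MPg_Dpow f F hF hF0
  obtain ⟨φ, hφd⟩ : ∃ φ, φ = f * (U (ZMod p))⁻¹ ^ kk := ⟨_, rfl⟩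
  rw [← hφd] at hf
  have hfφ : f = U (ZMod p) ^ kk * φ := by
    have h3 : U (ZMod p) ^ kk * (U (ZMod p))⁻¹ ^ kk = 1 := by
      rw [← mul_pow, U_mul_inv, one_pow]
    rw [hφd]
    linear_combination (-f) * h3
  obtain ⟨P, hP, hPF⟩ := MPg_iter hp2 e hR.del kk φ hf (p - 2)
  rw [← hfφ, h1] at hPF
  obtain ⟨κ, hκ⟩ : ∃ κ, kk = κ + 2 := ⟨kk - 2, by omega⟩
  have hκ1 : 1 ≤ κ := by omega
  obtain ⟨d, hd⟩ : ∃ d, p = κ + d := ⟨p - κ, by omega⟩
  have hκ' : kk - 2 = κ := by omega
  rw [hκ']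
  have hw : kk + (p - 2) * (p + 1) = κ * p + 2 * mm p * d := by
    have hz1 : (p : ℤ) = κ + d := by exact_mod_cast hd
    have hz2 : 2 * (mm p : ℤ) + 1 = p := by exact_mod_cast hm
    apply Nat.cast_injective (R := ℤ)
    push_cast [Nat.cast_sub hp2', hκ]
    linear_combination ((p : ℤ) - 1) * hz1 - (d : ℤ) * hz2
  obtain ⟨G, hG⟩ : ∃ G, G = U (ZMod p) ^ (2 * mm p * d) * P := ⟨_, rfl⟩
  have hFG : F = U (ZMod p) ^ (κ * p) * G := by rw [hPF, hw, hG, pow_add, mul_assoc]
  have hHG : evl (ZMod p) (hh p ^ d) * G = P := by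
    rw [hG, map_pow, pow_mul (U (ZMod p)) (2 * mm p) d, ← mul_assoc, ← mul_pow,
      mul_comm (evl (ZMod p) (hh p)), hH, one_pow, one_mul]
  have hcast : ((κ * p : ℕ) : (ZMod p)⟦X⟧) = 0 := by
    have h3 : ((p : ℕ) : (ZMod p)⟦X⟧) = 0 := by
      rw [← map_natCast (PowerSeries.C (R := ZMod p)) p, ZMod.natCast_self, map_zero]
    rw [Nat.cast_mul, h3, mul_zero]
  have hDG : f = U (ZMod p) ^ (κ * p) * (U (ZMod p) ^ 2 * del (ZMod p) G) := by
    rw [← hF, hFG, Derivation.leibniz, smul_eq_mul, smul_eq_mul, Hd_upow, hcast, MPg_Dq G]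
    ring
  have e5 : κ * p = κ + 2 * mm p * κ := by
    calc κ * p = κ * (2 * mm p + 1) := by rw [hm]
      _ = _ := by ring
  have hdelG : del (ZMod p) G = evl (ZMod p) (hh p ^ κ) * φ := by
    have h5 : U (ZMod p) ^ (κ + 2) * φ =
        U (ZMod p) ^ (κ + 2) * ((U (ZMod p) ^ (2 * mm p)) ^ κ * del (ZMod p) G) := by
      rw [← hκ, ← hfφ, hDG, e5, pow_add, pow_mul (U (ZMod p)) (2 * mm p) κ, hκ, pow_add]
      ring
    have h6 := mul_left_cancel₀ (pow_ne_zero _ (U_ne_zero (ZMod p))) h5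
    rw [h6, map_pow, ← mul_assoc, ← mul_pow, mul_comm (evl (ZMod p) (hh p)), hH, one_pow,
      one_mul]
  have hφS := MPg_SP hf
  have hdesc : ∀ s, s < p → evl (ZMod p) (hh p ^ s) * G ∈ SP (ZMod p) e →
      G ∈ SP (ZMod p) e := by
    intro s
    induction s with
    | zero =>
      intro _ h
      rwa [pow_zero, map_one, one_mul] at h
    | succ s ih =>
      intro hs h
      exact ih (by omega) (MPg_step hp2 e hR.del G φ κ hφS hdelG s hs h)
  have hGS : G ∈ SP (ZMod p) e := hdesc d (by omega) (by rw [hHG]; exact MPg_SP hP)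
  refine ⟨G, hGS, hFG, ?_⟩
  obtain ⟨n0, hn0⟩ := MPg_SP' hGS
  refine IsDeg.strict h20 (d := d * mm p) (hh p ^ d) (pow_ne_zero _ (hh_monic hp2).ne_zero)
    ?_ (IsDeg.of_SPn hR.deg hn0) ?_
  · rw [(hh_monic hp2).natDegree_pow, hh_natDegree hp2]
  · rw [hHG]
    refine IsDeg.mono ?_ (IsDeg.of_SPn hR.deg hP)
    obtain ⟨q, hq⟩ : ∃ q, p = q + 2 := ⟨p - 2, by omega⟩
    have hq' : p - 2 = q := by omega
    rw [hq', hκ]
    have i1 : q * (mm p + c + 1) = q * mm p + q * (c + 1) := by ring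
    have i2 : q * mm p ≤ (κ + d) * mm p := Nat.mul_le_mul_right _ (by omega)
    have i3 : (κ + d) * mm p = κ * mm p + d * mm p := by ring
    have i4 : κ * mm p ≤ κ * p := Nat.mul_le_mul_left _ (by omega)
    have i5 : q * (c + 1) ≤ p * (c + 1) := Nat.mul_le_mul_right _ (by omega)
    have i6 : c * 1 ≤ c * p := Nat.mul_le_mul_left _ (by omega)
    have i7 : (3 * c + 1 + (κ + 2)) * p = 2 * (c * p) + p * (c + 1) + κ * p + 2 * p := by ring
    rw [i7, i1]
    omega

end Pool.Agent.H85.OU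

end S_OU_MPg
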