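import Mathlib
import Pool.Agent.H85.OM.M01
import Pool.Agent.H85.OM.M02

/-! First slopes of modular forms, part M03: this file joins several modules to save build time. -/

section S_OU_Bol

/-!
# Row BOL (project OU): the algebraic Bol identity

`R` a commutative ring with derivation `d`, `g ∈ R`; `∂ = dext d (C g - X²)` on `R[X]` (`X` plays the role of `z`), and for an integer `w`
`nab w P = ∂P + w X P`.  `nabs κ n a = nab (-κ + 2(n-1)) .. nab (-κ + 2) (nab (-κ) (C a))` (`n` factors).
* Commutation: `(nab w P)' = nab (w-2) (P') + w P` (`'` = derivative in `X`): `(∂P)' = ∂(P') - 2 X P'`, `(w X P)' = w P + w X P'`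
  (`(∂P)' = (mapc d P)' + ((C g - X²) P')' = mapc d P' + (C g - X²) P'' - 2 X P'`).
* Hence by induction `(nabs κ n a)' = n (n - 1 - κ) nabs' ..`: precisely let `Q_n = nabs κ n a` and `Q_n^-` the same with all weights lowered:
  it is easiest to prove: `(nabs κ n a)' = n(n-1-κ) * nabs κ (n-1) a` for `n ≥ 1`:
  `(Q_(n+1))' = nab (w-2) (Q_n') + w Q_n`, `w = -κ + 2n`, `Q_n' = n(n-1-κ) Q_(n-1)` and `nab (w-2) Q_(n-1) = Q_n` (`w - 2 = -κ + 2(n-1)`), so
  `(Q_(n+1))' = (n(n-1-κ) - κ + 2n) Q_n = (n+1)(n-κ) Q_n`.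
* `bol_alg`: `n = κ + 1`: derivative `0`; in characteristic zero (no `ℕ`-torsion) `Q_(κ+1)` is a constant `C b`.
* leading coefficients: coefficient of `X^(j+1)` in `nab w P` with `natDegree P ≤ j` is `(w - j) P_j`; so coefficient `κ` of
  `nabs κ κ a` is `∏_(i<κ) (-κ + 2i - i) a = (-1)^κ κ! a`, and `natDegree ≤ κ`.
* `bol_unique` (`R = L` a field of characteristic `0`, `κ ≥ 1`): if `P ≠ 0` and `nab κ P = C s` then `natDegree P = κ` (coefficient of `X^(d+1)`,
  `d = natDegree P`: `(κ - d) P_d = 0`).  Let `a = P_κ` (nonzero if `P ≠ 0`).  `Y = (-1)^κ κ! P - nabs κ κ a` has `natDegree ≤ κ`, coefficient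
  `κ` zero and `nab κ Y = C (..)` by `bol_alg`; so `Y = 0`, and applying `nab κ`: `nabs κ (κ+1) a = C ((-1)^κ κ! s)`.
-/

open PowerSeries
open Pool.Agent.H85.OT

namespace Pool.Agent.H85.OU

/-- `∂P + w X P` -/
noncomputable def nab {R : Type*} [CommRing R] (d : Dv R) (g : R) (w : ℤ) (P : Polynomial R) :
    Polynomial R :=
  dext d (Polynomial.C g - Polynomial.X ^ 2) P + (w : Polynomial R) * Polynomial.X * P

/-- `n`-fold derivative of a form of weight `-κ` -/
noncomputable def nabs {R : Type*} [CommRing R] (d : Dv R) (g : R) (κ : ℕ) : ℕ → R → Polynomial R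
  | 0, a => Polynomial.C a
  | n + 1, a => nab d g (-(κ : ℤ) + 2 * n) (nabs d g κ n a)

private lemma Bol_intCast {R : Type*} [CommRing R] (d : Dv R) (n : ℤ) : d (n : R) = 0 := by
  rcases Int.eq_nat_or_neg n with ⟨m, rfl | rfl⟩
  · simpa using d.map_natCast m
  · rw [Int.cast_neg, d.map_neg, Int.cast_natCast, d.map_natCast, neg_zero]

private lemma Bol_nab_int {R : Type*} [CommRing R] (d : Dv R) (g : R) (w c : ℤ)
    (P : Polynomial R) :
    nab d g w ((c : Polynomial R) * P) = (c : Polynomial R) * nab d g w P := by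
  unfold nab
  rw [Dv.map_mul]
  have h : dext d (Polynomial.C g - Polynomial.X ^ 2) ((c : ℤ) : Polynomial R) = 0 :=
    Bol_intCast _ c
  rw [h]
  ring

private lemma Bol_nab_zero {R : Type*} [CommRing R] (d : Dv R) (g : R) (w : ℤ) :
    nab d g w (0 : Polynomial R) = 0 := by
  unfold nab
  rw [Dv.map_zero]
  simp

private lemma Bol_nab_sub {R : Type*} [CommRing R] (d : Dv R) (g : R) (w : ℤ)
    (P Q : Polynomial R) : nab d g w (P - Q) = nab d g w P - nab d g w Q := by
  unfold nab
  rw [Dv.map_sub]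
  ring

private lemma Bol_deriv_mapc {R : Type*} [CommRing R] (d : Dv R) (P : Polynomial R) :
    Polynomial.derivative (mapc d P) = mapc d (Polynomial.derivative P) := by
  ext i
  rw [Polynomial.coeff_derivative, coeff_mapc, coeff_mapc, Polynomial.coeff_derivative,
    d.map_mul]
  have h : d ((i : R) + 1) = 0 := by
    have := d.map_natCast (i + 1)
    push_cast at this
    exact this
  rw [h]
  ring

private lemma Bol_nab_deriv {R : Type*} [CommRing R] (d : Dv R) (g : R) (w : ℤ)
    (P : Polynomial R) :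
    Polynomial.derivative (nab d g w P) =
      nab d g (w - 2) (Polynomial.derivative P) + (w : Polynomial R) * P := by
  unfold nab
  rw [dext_apply, dext_apply, Polynomial.derivative_add, Polynomial.derivative_add,
    Bol_deriv_mapc, Polynomial.derivative_mul, Polynomial.derivative_mul,
    Polynomial.derivative_mul]
  simp only [Polynomial.derivative_sub, Polynomial.derivative_C, Polynomial.derivative_X_pow,
    Polynomial.derivative_X, Polynomial.derivative_intCast]
  have h2 : (Polynomial.C (((2 : ℕ) : R)) : Polynomial R) = 2 := by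
    rw [Polynomial.C_eq_natCast]; rfl
  rw [h2]
  push_cast
  ring

private lemma Bol_nabs_deriv {R : Type*} [CommRing R] (d : Dv R) (g : R) (κ : ℕ) (a : R)
    (n : ℕ) : Polynomial.derivative (nabs d g κ (n + 1) a) =
      ((((n : ℤ) + 1) * ((n : ℤ) - κ) : ℤ) : Polynomial R) * nabs d g κ n a := by
  induction n with
  | zero =>
    show Polynomial.derivative (nab d g (-(κ : ℤ) + 2 * (0 : ℕ)) (Polynomial.C a)) = _
    rw [Bol_nab_deriv, Polynomial.derivative_C, Bol_nab_zero]
    simp [nabs]
  | succ n ih =>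
    show Polynomial.derivative (nab d g (-(κ : ℤ) + 2 * ((n + 1 : ℕ) : ℤ))
      (nabs d g κ (n + 1) a)) = _
    rw [Bol_nab_deriv, ih, Bol_nab_int]
    have h1 : (-(κ : ℤ) + 2 * ((n + 1 : ℕ) : ℤ) - 2) = -(κ : ℤ) + 2 * n := by push_cast; ring
    have h2 : nab d g (-(κ : ℤ) + 2 * n) (nabs d g κ n a) = nabs d g κ (n + 1) a := rfl
    rw [h1, h2]
    push_cast
    ring

private lemma Bol_coeff {R : Type*} [CommRing R] (d : Dv R) (g : R) (w : ℤ)
    (P : Polynomial R) (j : ℕ) (hP : P.natDegree ≤ j) :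
    (nab d g w P).coeff (j + 1) = ((w : R) - j) * P.coeff j ∧
      (nab d g w P).natDegree ≤ j + 1 := by
  have hz : ∀ m, j < m → P.coeff m = 0 := fun m hm =>
    Polynomial.coeff_eq_zero_of_natDegree_lt (lt_of_le_of_lt hP hm)
  have hgen : ∀ m : ℕ, (nab d g w P).coeff (m + 1) = d (P.coeff (m + 1)) +
      (g * (P.coeff (m + 2) * ((m : R) + 2)) - (m : R) * P.coeff m) + (w : R) * P.coeff m := by
    intro m
    unfold nab
    rw [Polynomial.coeff_add, coeff_dext, sub_mul, Polynomial.coeff_sub, Polynomial.coeff_C_mul,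
      Polynomial.coeff_derivative]
    have h1 : (Polynomial.X ^ 2 * Polynomial.derivative P).coeff (m + 1) = (m : R) * P.coeff m := by
      rw [pow_two, mul_assoc, Polynomial.coeff_X_mul]
      rcases m with _ | m
      · simp
      · rw [Polynomial.coeff_X_mul, Polynomial.coeff_derivative]
        push_cast; ring
    have h2 : ((w : Polynomial R) * Polynomial.X * P).coeff (m + 1) = (w : R) * P.coeff m := by
      have : ((w : ℤ) : Polynomial R) = Polynomial.C (w : R) := by simp
      rw [this, mul_assoc, Polynomial.coeff_C_mul, Polynomial.coeff_X_mul]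
    rw [h1, h2]
    push_cast
    ring_nf
  constructor
  · rw [hgen, hz (j + 1) (by omega), hz (j + 2) (by omega), d.map_zero]
    ring
  · rw [Polynomial.natDegree_le_iff_coeff_eq_zero]
    intro m hm
    obtain ⟨m', rfl⟩ : ∃ m', m = m' + 1 := ⟨m - 1, by omega⟩
    rw [hgen, hz (m' + 1) (by omega), hz (m' + 2) (by omega), hz m' (by omega), d.map_zero]
    ring

private lemma Bol_lead {R : Type*} [CommRing R] (d : Dv R) (g : R) (κ : ℕ) (a : R) (n : ℕ) :
    (nabs d g κ n a).natDegree ≤ n ∧
      (nabs d g κ n a).coeff n = (∏ i ∈ Finset.range n, ((i : R) - κ)) * a := by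
  induction n with
  | zero => simp [nabs]
  | succ n ih =>
    obtain ⟨h1, h2⟩ := ih
    have h3 := Bol_coeff d g (-(κ : ℤ) + 2 * n) (nabs d g κ n a) n h1
    refine ⟨h3.2, ?_⟩
    show (nab d g (-(κ : ℤ) + 2 * n) (nabs d g κ n a)).coeff (n + 1) = _
    rw [h3.1, h2, Finset.prod_range_succ]
    push_cast
    ring

private lemma Bol_prod (R : Type*) [CommRing R] (κ : ℕ) :
    ∏ i ∈ Finset.range κ, ((i : R) - κ) = (-1) ^ κ * (κ.factorial : R) := by
  have h1 : ∀ i ∈ Finset.range κ, ((i : R) - κ) = (-1) * (((κ - i : ℕ) : ℕ) : R) := by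
    intro i hi
    have : i ≤ κ := (Finset.mem_range.mp hi).le
    rw [Nat.cast_sub this]
    ring
  rw [Finset.prod_congr rfl h1, Finset.prod_mul_distrib, Finset.prod_const, Finset.card_range]
  congr 1
  rw [← Nat.cast_prod, ← Nat.descFactorial_eq_prod_range, Nat.descFactorial_self]

theorem bol_alg {R : Type*} [CommRing R] [IsDomain R] [CharZero R] (d : Dv R) (g : R) (κ : ℕ)
    (a : R) : ∃ b : R, nabs d g κ (κ + 1) a = Polynomial.C b := by
  have h := Bol_nabs_deriv d g κ a κ
  rw [sub_self, mul_zero, Int.cast_zero, zero_mul] at h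
  have h1 := Polynomial.natDegree_eq_zero_of_derivative_eq_zero h
  exact ⟨_, Polynomial.eq_C_of_natDegree_eq_zero h1⟩

theorem bol_unique {L : Type*} [Field L] [CharZero L] (d : Dv L) (g : L) (κ : ℕ) (hκ : 0 < κ)
    (P : Polynomial L) (s : L) (h : nab d g κ P = Polynomial.C s) :
    ∃ a : L, (P ≠ 0 → a ≠ 0) ∧
      nabs d g κ (κ + 1) a = Polynomial.C ((-1) ^ κ * (κ.factorial : L) * s) := by
  have hdeg : ∀ (Q : Polynomial L) (r : L), nab d g κ Q = Polynomial.C r → Q ≠ 0 →
      Q.natDegree = κ := by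
    intro Q r hQ hQ0
    have h1 := (Bol_coeff d g κ Q Q.natDegree le_rfl).1
    rw [hQ, Polynomial.coeff_C_succ] at h1
    rcases mul_eq_zero.mp h1.symm with h2 | h2
    · have h3 : (κ : L) = Q.natDegree := by
        have := sub_eq_zero.mp h2
        simpa using this
      exact (Nat.cast_injective h3).symm
    · exact absurd (Polynomial.leadingCoeff_eq_zero.mp h2) hQ0
  refine ⟨P.coeff κ, ?_, ?_⟩
  · intro hP hcon
    have h1 := hdeg P s h hP
    rw [← h1] at hcon
    exact hP (Polynomial.leadingCoeff_eq_zero.mp hcon)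
  · set a := P.coeff κ with ha
    obtain ⟨b, hb⟩ := bol_alg d g κ a
    set c : ℤ := (-1) ^ κ * (κ.factorial : ℤ) with hc
    have hcL : ((c : ℤ) : L) = (-1) ^ κ * (κ.factorial : L) := by
      rw [hc]; push_cast; ring
    have hcP : ((c : ℤ) : Polynomial L) = Polynomial.C ((-1) ^ κ * (κ.factorial : L)) := by
      rw [← hcL]; simp
    have hnn : nab d g κ (nabs d g κ κ a) = nabs d g κ (κ + 1) a := by
      show nab d g κ (nabs d g κ κ a) = nab d g (-(κ : ℤ) + 2 * κ) (nabs d g κ κ a)
      have : (-(κ : ℤ) + 2 * κ) = κ := by ring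
      rw [this]
    have hPle : P.natDegree ≤ κ := by
      by_cases hP : P = 0
      · rw [hP]; simp
      · exact (hdeg P s h hP).le
    have hlead := Bol_lead d g κ a κ
    have hY : (c : Polynomial L) * P - nabs d g κ κ a = 0 := by
      by_contra hY0
      have h1 : nab d g κ ((c : Polynomial L) * P - nabs d g κ κ a)
          = Polynomial.C ((-1) ^ κ * (κ.factorial : L) * s - b) := by
        rw [Bol_nab_sub, Bol_nab_int, h, hnn, hb, hcP, ← Polynomial.C_mul, ← Polynomial.C_sub]
      have h2 := hdeg _ _ h1 hY0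
      have h3 : ((c : Polynomial L) * P - nabs d g κ κ a).coeff κ = 0 := by
        rw [Polynomial.coeff_sub, hcP, Polynomial.coeff_C_mul, hlead.2, Bol_prod]
        ring
      refine hY0 (Polynomial.leadingCoeff_eq_zero.mp ?_)
      rw [Polynomial.leadingCoeff, h2]
      exact h3
    rw [← hnn, ← sub_eq_zero.mp hY, Bol_nab_int, h, hcP, ← Polynomial.C_mul]

end Pool.Agent.H85.OU

end S_OU_Bol

section S_OU_UV

/-!
# Definitions for the valuation theoretic part of the project OU

* `DVal K L`: a discrete valuation of the field `L`, trivial on the subfield `K`, with residue field `K`; integer valued with a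
  junk value at `0`.  `V.ge j x` means `v(x) ≥ j` (true for `x = 0`).
* `IntOver K s x`: `x` is integral over `K[s]`.
* `IsDegA K s n y`: `y` is integral over `K[s]` with poles of order `≤ n` at infinity.
* `NAset K L d ℓ R`: `L` is a finite extension of `K(ℓ)` with derivation `d`, `dℓ = ℓ(1-ℓ)`, `R` a `d`-stable subalgebra, integral over
  `K[ℓ]`, with fraction field `L`.
-/

open Pool.Agent.H85.OT

namespace Pool.Agent.H85.OU

/-- discrete valuation with residue field `K` (junk value at `0`) -/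
structure DVal (K L : Type*) [Field K] [Field L] [Algebra K L] where
  v : L → ℤ
  mul : ∀ x y, x ≠ 0 → y ≠ 0 → v (x * y) = v x + v y
  add : ∀ x y, x ≠ 0 → y ≠ 0 → x + y ≠ 0 → min (v x) (v y) ≤ v (x + y)
  const : ∀ c : K, c ≠ 0 → v (algebraMap K L c) = 0
  res : ∀ x, x ≠ 0 → v x = 0 → ∃ c : K, x = algebraMap K L c ∨ 0 < v (x - algebraMap K L c)
  unif : ∃ t, t ≠ 0 ∧ v t = 1

/-- `v(x) ≥ j` (true for `x = 0`) -/
def DVal.ge {K L : Type*} [Field K] [Field L] [Algebra K L] (V : DVal K L) (j : ℤ) (x : L) : Prop :=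
  x = 0 ∨ j ≤ V.v x

/-- `x` is integral over `K[s]` -/
def IntOver (K : Type*) {S : Type*} [Field K] [CommRing S] [Algebra K S] (s x : S) : Prop :=
  ((Polynomial.aeval s : Polynomial K →ₐ[K] S) : Polynomial K →+* S).IsIntegralElem x

/-- `y` is integral over `K[s]` with poles of order `≤ n` at infinity -/
def IsDegA (K : Type*) {S : Type*} [Field K] [CommRing S] [Algebra K S] (s : S) (n : ℕ) (y : S) :
    Prop :=
  ∃ (r : ℕ) (a : ℕ → Polynomial K), 1 ≤ r ∧ (∀ m, (a m).natDegree ≤ n * m) ∧
    y ^ r + ∑ m ∈ Finset.Icc 1 r, Polynomial.aeval s (a m) * y ^ (r - m) = 0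

/-- differential function field with an integral differential subring -/
structure NAset (K L : Type) [Field K] [Field L] [Algebra K L] (d : Dv L) (ℓ : L)
    (R : Subalgebra K L) : Prop where
  dK : ∀ c : K, d (algebraMap K L c) = 0
  dl : d ℓ = ℓ * (1 - ℓ)
  tr : ∀ P : Polynomial K, P ≠ 0 → Polynomial.aeval ℓ P ≠ 0
  fin : FiniteDimensional (IntermediateField.adjoin K {ℓ}) L
  mem : ℓ ∈ R
  stab : ∀ b ∈ R, d b ∈ R
  int : ∀ b ∈ R, IntOver K ℓ b
  frac : ∀ x : L, ∃ b ∈ R, ∃ c ∈ R, c ≠ 0 ∧ x = b / c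

end Pool.Agent.H85.OU

end S_OU_UV

section S_OU_UA

/-!
# The algebra of a level datum, with its derivation (project OU)
-/

open PowerSeries
open Pool.Agent.H85.OT

namespace Pool.Agent.H85.OU

variable {K : Type*} [Field K] {r : ℕ} {e : Fin r → K⟦X⟧}

theorem LD.bound1 (h : LD K r e) : ∃ c, (1 : K⟦X⟧) ∈ SPn K e c ∧
    (∀ l l', e l * e l' ∈ SPn K e c) ∧ (∀ l, OT.del K (e l) ∈ SPn K e c) := by
  obtain ⟨c0, hc0⟩ := MPg_SP' h.one
  choose c1 hc1 using fun l l' => MPg_SP' (h.mul l l')
  choose c2 hc2 using fun l => MPg_SP' (h.del l)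
  refine ⟨c0 + ∑ l, ∑ l', c1 l l' + ∑ l, c2 l, MPg_mono (by omega) hc0, fun l l' => ?_, fun l => ?_⟩
  · refine MPg_mono ?_ (hc1 l l')
    have a1 : c1 l l' ≤ ∑ l', c1 l l' :=
      Finset.single_le_sum (f := fun l' => c1 l l') (fun _ _ => Nat.zero_le _) (Finset.mem_univ l')
    have a2 : ∑ l', c1 l l' ≤ ∑ l, ∑ l', c1 l l' :=
      Finset.single_le_sum (f := fun l => ∑ l', c1 l l') (fun _ _ => Nat.zero_le _)
        (Finset.mem_univ l)
    omega
  · refine MPg_mono ?_ (hc2 l)
    have a1 : c2 l ≤ ∑ l, c2 l :=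
      Finset.single_le_sum (f := fun l => c2 l) (fun _ _ => Nat.zero_le _) (Finset.mem_univ l)
    omega

theorem LD.del_mem (h : LD K r e) (h2 : (2 : K) ≠ 0) {y : K⟦X⟧} (hy : y ∈ SP K e) :
    OT.del K y ∈ SP K e := by
  obtain ⟨c, -, -, hc⟩ := h.bound1
  exact MPg_SP_del h2 hc hy

/-- the subalgebra `SP K e` -/
def LD.alg (h : LD K r e) : Subalgebra K K⟦X⟧ where
  carrier := SP K e
  mul_mem' := fun ha hb => SP_mul h.mul ha hb
  add_mem' := fun ha hb => SP_add ha hb
  algebraMap_mem' := fun c => by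
    have h1 := SP_evl_mul (Polynomial.C c) h.one
    rw [mul_one, evl, Polynomial.aeval_C] at h1
    exact h1

theorem LD.mem_alg (h : LD K r e) {y : K⟦X⟧} : y ∈ h.alg ↔ y ∈ SP K e := Iff.rfl

theorem LD.evl_mem (h : LD K r e) (P : Polynomial K) : evl K P ∈ h.alg := by
  have h1 := SP_evl_mul P h.one
  rwa [mul_one] at h1

theorem LD.lam_mem (h : LD K r e) : lam K ∈ h.alg := by
  have h1 := h.evl_mem Polynomial.X
  rwa [evl, Polynomial.aeval_X] at h1

/-- the derivation `δ` of the algebra -/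
noncomputable def LD.dA [CharZero K] (h : LD K r e) : Dv h.alg where
  toFun x := ⟨OT.del K (x : K⟦X⟧), h.del_mem two_ne_zero x.2⟩
  add' a b := by
    apply Subtype.ext
    exact (OT.del K).map_add _ _
  mul' a b := by
    apply Subtype.ext
    exact (OT.del K).map_mul _ _

theorem LD.coe_dA [CharZero K] (h : LD K r e) (x : h.alg) :
    ((h.dA x : h.alg) : K⟦X⟧) = OT.del K (x : K⟦X⟧) := rfl

end Pool.Agent.H85.OU

end S_OU_UA

section S_OU_LDb

/-!
# Row LDB (project OU): integrality of the elements of a level datum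

`LD K r e`.  For `y ∈ SP K e`: the `K[λ]`-module `M = SP K e ⊆ K⟦X⟧` (module structure through `evl K`) is generated by `e_1..e_r`, `y M ⊆ M` and
`1 ∈ M`; so by Cayley-Hamilton (`LinearMap.exists_monic_and_aeval_eq_zero`, `Module.Finite` version, or the determinant trick with the matrix `B`,
`y e_l = ∑ B_(l l')(λ) e_l'`, `P = charpoly B`, `P(y) e_l = 0` for all `l`, hence `P(y) M = 0`, `P(y) = 0`) `y` is a root of a monic polynomial of degree `r`
with coefficients in `K[λ]`.  (`r ≥ 1` since `1 ∈ M`, `1 ≠ 0`.)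
* `int_deg`: this is stated with the degree `r`: `y^r + ∑_{m=1}^r P_m(λ) y^(r-m) = 0`.
* `isDeg`: take `n = max natDegree P_m` (for `m ≥ 1`, `n ≤ n m`; redefine `P_m = 0` outside `1..r`).
* `bounds`: `bound1` and `isDeg` for the `e_l`, maximum of the constants (`IsDeg.mono`, `MPg_mono`).
-/

open PowerSeries
open Pool.Agent.H85.OT

namespace Pool.Agent.H85.OU

variable {K : Type*} [Field K] {r : ℕ} {e : Fin r → K⟦X⟧}

theorem LD.int_deg (h : LD K r e) {y : K⟦X⟧} (hy : y ∈ SP K e) :
    ∃ a : ℕ → Polynomial K, y ^ r + ∑ m ∈ Finset.Icc 1 r, evl K (a m) * y ^ (r - m) = 0 := by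
  have h1 : ∀ l, ∃ p : Fin r → Polynomial K, y * e l = ∑ l', evl K (p l') * e l' :=
    fun l => SP_mul h.mul hy (SP_gen l)
  choose B hB using h1
  let M : Matrix (Fin r) (Fin r) (Polynomial K) := Matrix.of B
  have he : e ≠ 0 := by
    intro he
    obtain ⟨p, hp⟩ := h.one
    rw [he] at hp
    simp at hp
  have hdet : (Matrix.scalar (Fin r) y - M.map (evl K).toRingHom).det = 0 := by
    rw [← Matrix.exists_mulVec_eq_zero_iff]
    refine ⟨e, he, ?_⟩
    funext l
    rw [Matrix.sub_mulVec, Pi.sub_apply, Pi.zero_apply, sub_eq_zero, Matrix.scalar_apply,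
      Matrix.mulVec_diagonal, hB]
    rfl
  have hev : (M.charpoly.map (evl K).toRingHom).eval y = 0 := by
    rw [← Matrix.charpoly_map, Matrix.eval_charpoly]
    exact hdet
  have hmon : M.charpoly.Monic := Matrix.charpoly_monic M
  have hdeg : M.charpoly.natDegree = r := by
    rw [Matrix.charpoly_natDegree_eq_dim, Fintype.card_fin]
  refine ⟨fun m => M.charpoly.coeff (r - m), ?_⟩
  rw [Polynomial.eval_map, Polynomial.eval₂_eq_sum_range, hdeg, Finset.sum_range_succ, add_comm]
    at hev
  rw [← hev]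
  congr 1
  · have h2 : M.charpoly.coeff r = 1 := by
      have h3 := hmon.coeff_natDegree
      rwa [hdeg] at h3
    rw [h2, map_one, one_mul]
  · refine Finset.sum_bij' (fun m _ => r - m) (fun i _ => r - i) ?_ ?_ ?_ ?_ ?_
    · intro m hm
      rw [Finset.mem_Icc] at hm
      rw [Finset.mem_range]
      omega
    · intro i hi
      rw [Finset.mem_range] at hi
      rw [Finset.mem_Icc]
      omega
    · intro m hm
      rw [Finset.mem_Icc] at hm
      omega
    · intro i hi
      rw [Finset.mem_range] at hi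
      omega
    · intro m hm
      rfl

theorem LD.isDeg (h : LD K r e) {y : K⟦X⟧} (hy : y ∈ SP K e) : ∃ n, IsDeg K n y := by
  obtain ⟨a, ha⟩ := h.int_deg hy
  have hr : 1 ≤ r := by
    by_contra hr
    have hr0 : r = 0 := by omega
    subst hr0
    obtain ⟨p, hp⟩ := h.one
    simp at hp
  refine ⟨∑ m ∈ Finset.Icc 1 r, (a m).natDegree, r, fun m => if m ∈ Finset.Icc 1 r then a m else 0,
    hr, fun m => ?_, ?_⟩
  · by_cases hm : m ∈ Finset.Icc 1 r
    · have h1 : (a m).natDegree ≤ ∑ m ∈ Finset.Icc 1 r, (a m).natDegree :=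
        Finset.single_le_sum (f := fun m => (a m).natDegree) (fun _ _ => Nat.zero_le _) hm
      beta_reduce
      rw [if_pos hm]
      rw [Finset.mem_Icc] at hm
      exact h1.trans (Nat.le_mul_of_pos_right _ hm.1)
    · beta_reduce
      rw [if_neg hm]
      simp
  · rw [← ha]
    congr 1
    exact Finset.sum_congr rfl fun m hm => by
      beta_reduce
      rw [if_pos hm]

theorem LD.bounds (h : LD K r e) : ∃ c, (1 : K⟦X⟧) ∈ SPn K e c ∧
    (∀ l l', e l * e l' ∈ SPn K e c) ∧ (∀ l, OT.del K (e l) ∈ SPn K e c) ∧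
    ∀ l, IsDeg K c (e l) := by
  obtain ⟨c, h1, h2, h3⟩ := h.bound1
  choose n hn using fun l => h.isDeg (SP_gen (K := K) (e := e) l)
  refine ⟨c + ∑ l, n l, MPg_mono (by omega) h1, fun l l' => MPg_mono (by omega) (h2 l l'),
    fun l => MPg_mono (by omega) (h3 l), fun l => IsDeg.mono ?_ (hn l)⟩
  have h4 : n l ≤ ∑ l, n l :=
    Finset.single_le_sum (f := fun l => n l) (fun _ _ => Nat.zero_le _) (Finset.mem_univ l)
  omega

end Pool.Agent.H85.OU

end S_OU_LDb

section S_OU_LFc

/-!
# Row LFC (project OU): closure properties of `LForm`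

* `isDeg_sq_add`: `(y + z)² = y² + 2yz + z²`; `(yz)² = y² z²` is `IsDeg (2k)` (`IsDeg.mul`), so `yz` is `IsDeg k` (`IsDeg.sqrt`).  Constants are `IsDeg 0`.
* `LForm.smul`: the same `e`; `dbl (C c * f) = C c * dbl f`; `C c = evl (C c)`.
* `LForm.add`: data `e` (`r`), `e'` (`r'`); take `e'' = (e_l e'_l')`, indexed by `Fin (r * r')` (`finProdFinEquiv`).  `SP e'' ⊇ {y y' : y ∈ SP e, y' ∈ SP e'}` (expand the product), and
  it is closed under sums; so `1 = 1·1 ∈ SP e''`, `e_l e'_l' e_m e'_m' = (e_l e_m)(e'_l' e'_m') ∈ SP e''`, `δ(e_l e'_l') = (δe_l) e'_l' + e_l δe'_l' ∈ SP e''`, `SP e, SP e' ⊆ SP e''`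
  (multiply by `1`).  `isDeg_sq_add` for the two degree conditions.
* `LForm.map`: `φ : K → K'` a ring homomorphism of fields; `PowerSeries.map φ` maps `U K, V K, lam K` to `U K', V K', lam K'` (`U` is the image of an integral series; inverses:
  `U K * (U K)⁻¹ = 1` maps to `U K' * map φ (U K)⁻¹ = 1`), commutes with `dbl`, `Dq`, `del`; `map φ (evl K P) = evl K' (P.map φ)`, so maps `SP K e` into `SP K' (map φ ∘ e)`, and
  `IsDeg K n y` to `IsDeg K' n (map φ y)` (`natDegree` does not increase).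
-/

/-!
Row LFC: closure properties of `LForm`, base change.
-/

open PowerSeries
open Pool.Agent.H85.OT

namespace Pool.Agent.H85.OU

theorem isDeg_sq_add {K : Type*} [Field K] {k : ℕ} {y z : K⟦X⟧} (hy : IsDeg K k (y ^ 2))
    (hz : IsDeg K k (z ^ 2)) : IsDeg K k ((y + z) ^ 2) := by
  have h1 : IsDeg K k (y * z) := by
    apply IsDeg.sqrt
    rw [mul_pow, two_mul]
    exact hy.mul hz
  have h2 : (y + z) ^ 2 = y ^ 2 + z ^ 2 + (y * z + y * z) := by ring
  rw [h2]
  exact (hy.add hz).add (h1.add h1)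

theorem LFc_evl_C {K : Type*} [Field K] (c : K) :
    evl K (Polynomial.C c) = PowerSeries.C c := Polynomial.aeval_C _ _

theorem LFc_dbl_C {K : Type*} [Field K] (c : K) :
    dbl K (PowerSeries.C c) = PowerSeries.C c := (dbl K).commutes c

theorem LForm.smul {K : Type*} [Field K] {k : ℕ} {f : K⟦X⟧} (hf : LForm K k f) (c : K) :
    LForm K k (PowerSeries.C c * f) := by
  obtain ⟨r, e, hLD, h1, h2, h3, h4⟩ := hf
  have hdeg : ∀ y : K⟦X⟧, IsDeg K k (y ^ 2) → IsDeg K k ((PowerSeries.C c * y) ^ 2) := by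
    intro y hy
    have h5 : (PowerSeries.C c * y) ^ 2 = evl K (Polynomial.C (c ^ 2)) * y ^ 2 := by
      rw [LFc_evl_C, mul_pow, map_pow]
    have h6 := (IsDeg.of_evl (K := K) (n := 0) (Polynomial.C (c ^ 2))
      (Polynomial.natDegree_C _).le).mul hy
    rw [zero_add] at h6
    rw [h5]
    exact h6
  have e1 : PowerSeries.C c * f * (U K)⁻¹ ^ k = PowerSeries.C c * (f * (U K)⁻¹ ^ k) :=
    mul_assoc _ _ _
  have e2 : dbl K (PowerSeries.C c * f) * (U K)⁻¹ ^ k =
      PowerSeries.C c * (dbl K f * (U K)⁻¹ ^ k) := by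
    rw [map_mul, LFc_dbl_C, mul_assoc]
  refine ⟨r, e, hLD, ?_, ?_, ?_, ?_⟩
  · rw [e1, ← LFc_evl_C]
    exact SP_evl_mul _ h1
  · rw [e2, ← LFc_evl_C]
    exact SP_evl_mul _ h2
  · rw [e1]
    exact hdeg _ h3
  · rw [e2]
    exact hdeg _ h4

/-- the products of two families. -/
noncomputable def LFc_e {K : Type*} [Field K] {r r' : ℕ} (e : Fin r → K⟦X⟧)
    (e' : Fin r' → K⟦X⟧) (i : Fin (r * r')) : K⟦X⟧ :=
  e (finProdFinEquiv.symm i).1 * e' (finProdFinEquiv.symm i).2

theorem LFc_mul {K : Type*} [Field K] {r r' : ℕ} {e : Fin r → K⟦X⟧}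
    {e' : Fin r' → K⟦X⟧} {y y' : K⟦X⟧} (hy : y ∈ SP K e) (hy' : y' ∈ SP K e') :
    y * y' ∈ SP K (LFc_e e e') := by
  obtain ⟨p, rfl⟩ := hy
  obtain ⟨p', rfl⟩ := hy'
  refine ⟨fun i => p (finProdFinEquiv.symm i).1 * p' (finProdFinEquiv.symm i).2, ?_⟩
  have h1 : ∑ l : Fin (r * r'), evl K (p (finProdFinEquiv.symm l).1 *
      p' (finProdFinEquiv.symm l).2) * LFc_e e e' l =
      ∑ x : Fin r × Fin r', evl K (p x.1 * p' x.2) * (e x.1 * e' x.2) :=
    Equiv.sum_comp finProdFinEquiv.symm
      (fun x : Fin r × Fin r' => evl K (p x.1 * p' x.2) * (e x.1 * e' x.2))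
  rw [h1, Fintype.sum_prod_type, Finset.sum_mul_sum]
  refine Finset.sum_congr rfl fun i _ => Finset.sum_congr rfl fun j _ => ?_
  rw [map_mul]
  ring

theorem LFc_LD {K : Type*} [Field K] {r r' : ℕ} {e : Fin r → K⟦X⟧}
    {e' : Fin r' → K⟦X⟧} (h : LD K r e) (h' : LD K r' e') : LD K (r * r') (LFc_e e e') := by
  refine ⟨?_, ?_, ?_⟩
  · have := LFc_mul h.one h'.one
    rwa [one_mul] at this
  · intro l m
    have h1 : LFc_e e e' l * LFc_e e e' m =
        (e (finProdFinEquiv.symm l).1 * e (finProdFinEquiv.symm m).1) *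
        (e' (finProdFinEquiv.symm l).2 * e' (finProdFinEquiv.symm m).2) := by
      unfold LFc_e
      ring
    rw [h1]
    exact LFc_mul (h.mul _ _) (h'.mul _ _)
  · intro l
    have h1 : OT.del K (LFc_e e e' l) = OT.del K (e (finProdFinEquiv.symm l).1) *
        e' (finProdFinEquiv.symm l).2 + e (finProdFinEquiv.symm l).1 *
        OT.del K (e' (finProdFinEquiv.symm l).2) := (OT.del K).mul' _ _
    rw [h1]
    exact SP_add (LFc_mul (h.del _) (SP_gen _)) (LFc_mul (SP_gen _) (h'.del _))

theorem LForm.add {K : Type*} [Field K] {k : ℕ} {f g : K⟦X⟧} (hf : LForm K k f)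
    (hg : LForm K k g) : LForm K k (f + g) := by
  obtain ⟨r, e, hLD, h1, h2, h3, h4⟩ := hf
  obtain ⟨r', e', hLD', h1', h2', h3', h4'⟩ := hg
  refine ⟨r * r', LFc_e e e', LFc_LD hLD hLD', ?_, ?_, ?_, ?_⟩
  · rw [add_mul]
    have a1 := LFc_mul h1 hLD'.one
    have a2 := LFc_mul hLD.one h1'
    rw [mul_one] at a1
    rw [one_mul] at a2
    exact SP_add a1 a2
  · rw [map_add, add_mul]
    have a1 := LFc_mul h2 hLD'.one
    have a2 := LFc_mul hLD.one h2'
    rw [mul_one] at a1
    rw [one_mul] at a2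
    exact SP_add a1 a2
  · rw [add_mul]
    exact isDeg_sq_add h3 h3'
  · rw [map_add, add_mul]
    exact isDeg_sq_add h4 h4'

theorem LForm.sum {K : Type*} [Field K] {k : ℕ} {ι : Type*} (s : Finset ι) (hs : s.Nonempty)
    (f : ι → K⟦X⟧) (hf : ∀ i ∈ s, LForm K k (f i)) : LForm K k (∑ i ∈ s, f i) :=
  Finset.sum_induction_nonempty f (LForm K k) (fun _ _ ha hb => LForm.add ha hb) hs hf

section map
variable {K K' : Type*} [Field K] [Field K'] (φ : K →+* K')

theorem LFc_map_int (f : ℤ⟦X⟧) :
    PowerSeries.map φ (PowerSeries.map (Int.castRingHom K) f) =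
      PowerSeries.map (Int.castRingHom K') f := by
  ext n
  simp only [PowerSeries.coeff_map, eq_intCast, map_intCast]

theorem map_U : PowerSeries.map φ (U K) = U K' := LFc_map_int φ _

theorem LFc_map_V : PowerSeries.map φ (V K) = V K' := LFc_map_int φ _

theorem map_Uinv : PowerSeries.map φ (U K)⁻¹ = (U K')⁻¹ := by
  apply mul_left_cancel₀ (U_ne_zero K')
  rw [U_mul_inv, ← map_U φ, ← map_mul, U_mul_inv, map_one]

theorem map_lam : PowerSeries.map φ (lam K) = lam K' := by
  unfold lam xx
  rw [map_sub, map_one, map_pow, map_mul, LFc_map_V, map_Uinv]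

theorem map_dbl (f : K⟦X⟧) : PowerSeries.map φ (dbl K f) = dbl K' (PowerSeries.map φ f) := by
  unfold dbl
  exact PowerSeries.map_expand 2 two_ne_zero φ f

theorem LFc_map_Dq (f : K⟦X⟧) :
    PowerSeries.map φ (Dq K f) = Dq K' (PowerSeries.map φ f) := by
  ext n
  rw [PowerSeries.coeff_map, coeff_Dq, coeff_Dq, PowerSeries.coeff_map, map_mul, map_natCast]

theorem map_del (f : K⟦X⟧) :
    PowerSeries.map φ (OT.del K f) = OT.del K' (PowerSeries.map φ f) := by
  rw [del_apply, del_apply, map_mul, map_pow, map_Uinv, LFc_map_Dq]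

theorem map_evl (P : Polynomial K) : PowerSeries.map φ (evl K P) = evl K' (P.map φ) := by
  rw [Polynomial.aeval_def, Polynomial.aeval_def, Polynomial.hom_eval₂, Polynomial.eval₂_map,
    map_lam]
  congr 1
  refine RingHom.ext fun c => ?_
  show PowerSeries.map φ (PowerSeries.C c) = PowerSeries.C (φ c)
  exact PowerSeries.map_C φ c

theorem map_SP {r : ℕ} {e : Fin r → K⟦X⟧} {y : K⟦X⟧} (hy : y ∈ SP K e) :
    PowerSeries.map φ y ∈ SP K' (fun l => PowerSeries.map φ (e l)) := by
  obtain ⟨p, rfl⟩ := hy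
  refine ⟨fun l => (p l).map φ, ?_⟩
  rw [map_sum]
  refine Finset.sum_congr rfl fun l _ => ?_
  rw [map_mul, map_evl]

theorem IsDeg.map {n : ℕ} {y : K⟦X⟧} (hy : IsDeg K n y) :
    IsDeg K' n (PowerSeries.map φ y) := by
  obtain ⟨r, a, hr, ha, h0⟩ := hy
  refine ⟨r, fun m => (a m).map φ, hr, fun m => ?_, ?_⟩
  · exact (Polynomial.natDegree_map_le).trans (ha m)
  · have h1 := congrArg (PowerSeries.map φ) h0
    rw [map_add, map_pow, map_sum, map_zero] at h1
    rw [← h1]
    congr 1
    refine Finset.sum_congr rfl fun m _ => ?_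
    rw [map_mul, map_pow, map_evl]

theorem LForm.map {k : ℕ} {f : K⟦X⟧} (hf : LForm K k f) :
    LForm K' k (PowerSeries.map φ f) := by
  obtain ⟨r, e, hLD, h1, h2, h3, h4⟩ := hf
  have e1 : PowerSeries.map φ (f * (U K)⁻¹ ^ k) = PowerSeries.map φ f * (U K')⁻¹ ^ k := by
    rw [map_mul, map_pow, map_Uinv]
  have e2 : PowerSeries.map φ (dbl K f * (U K)⁻¹ ^ k) =
      dbl K' (PowerSeries.map φ f) * (U K')⁻¹ ^ k := by
    rw [map_mul, map_pow, map_Uinv, map_dbl]
  refine ⟨r, fun l => PowerSeries.map φ (e l), ⟨?_, ?_, ?_⟩, ?_, ?_, ?_, ?_⟩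
  · have := map_SP φ hLD.one
    rwa [map_one] at this
  · intro l l'
    have := map_SP φ (hLD.mul l l')
    rwa [map_mul] at this
  · intro l
    have := map_SP φ (hLD.del l)
    rwa [map_del] at this
  · rw [← e1]
    exact map_SP φ h1
  · rw [← e2]
    exact map_SP φ h2
  · rw [← e1, ← map_pow]
    exact h3.map φ
  · rw [← e2, ← map_pow]
    exact h4.map φ

end map

end Pool.Agent.H85.OU

end S_OU_LFc

section S_OU_FG

/-!
# Row FG (project OU): algebras of functions of bounded degree are finitely generated modules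

`K` of characteristic zero, `A ⊆ K⟦X⟧` a `K`-subalgebra containing `λ`, stable under `δ`, every element of which satisfies a monic equation of degree `≤ R` over `K[λ]`.
Claim: `A = SP K e` for some finite family `e`; then `LD K r e` is clear (`1`, `e_l e_l'`, `δ e_l` are in `A`).
Make `A` an algebra over `K[X]` via `X ↦ λ` (injective, `ord_lam`).  `L = FractionRing A`, `K0` = fraction field of `K[X]` inside `L` (or `FractionRing (Polynomial K)` with the induced
algebra structure on `L`).
1. Every `x ∈ L` has degree `≤ R` over `K0`: `x = a/b`; `b ≠ 0` satisfies a monic equation over `K[λ]`; take one of minimal degree, its constant term `c(λ)` is nonzero (`A` is a domain), so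
   `c(λ) = b b'` with `b' ∈ K[λ][b] ⊆ A`.  `x = (a b')/c(λ)` and `a b' ∈ A` has degree `≤ R` over `K0`, `c(λ) ∈ K0`.
2. `L/K0` is algebraic and separable (characteristic zero).  Choose `x ∈ L` with `[K0(x) : K0]` maximal.  For `y ∈ L`, `K0(x, y) = K0(z)` (primitive element theorem) has degree `≤ [K0(x):K0]`, so
   `K0(x,y) = K0(x)`.  So `L = K0(x)` is finite over `K0`.
3. The integral closure `B` of `K[X]` in `L` is a finite `K[X]`-module (`IsIntegralClosure.isNoetherian` / `.finite`, `K[X]` integrally closed and noetherian, `L/K0` finite separable), `A ⊆ B`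
   is a submodule of a noetherian module, so finitely generated: generators `e_1, .., e_r ∈ A`.
-/

open PowerSeries
open Pool.Agent.H85.OT

namespace Pool.Agent.H85.OU

theorem FG_key {P A F L : Type*} [CommRing P] [IsDomain P] [CommRing A] [IsDomain A]
    [Algebra P A] [Field F] [Algebra P F] [IsFractionRing P F] [Field L] [Algebra A L]
    [IsFractionRing A L] [Algebra P L] [IsScalarTower P A L] [Algebra F L] [IsScalarTower P F L]
    (R : ℕ)
    (h : ∀ a : A, ∃ p : Polynomial P, p.Monic ∧ p.natDegree ≤ R ∧ Polynomial.aeval a p = 0)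
    (x : L) : ∃ p : Polynomial F, p.Monic ∧ p.natDegree ≤ R ∧ Polynomial.aeval x p = 0 := by
  obtain ⟨a, b, hb, rfl⟩ := IsFractionRing.div_surjective (A := A) x
  have hb0 : b ≠ 0 := nonZeroDivisors.ne_zero hb
  obtain ⟨q, hq, -, hq0⟩ := h b
  have halgb : IsAlgebraic P b := ⟨q, hq.ne_zero, hq0⟩
  obtain ⟨c, hc0, b', hb'⟩ := halgb.exists_nonzero_dvd hb
  obtain ⟨p, hp, hpd, hp0⟩ := h (a * b')
  have hcF : algebraMap P F c ≠ 0 := by
    rw [Ne, FaithfulSMul.algebraMap_eq_zero_iff P F]
    exact hc0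
  have hy : Polynomial.aeval (algebraMap A L (a * b')) (p.map (algebraMap P F)) = 0 := by
    rw [Polynomial.aeval_map_algebraMap, Polynomial.aeval_algebraMap_apply, hp0, map_zero]
  have hx : algebraMap A L a / algebraMap A L b =
      algebraMap F L (algebraMap P F c)⁻¹ * algebraMap A L (a * b') := by
    have h1 : algebraMap F L (algebraMap P F c) = algebraMap A L b * algebraMap A L b' := by
      rw [← IsScalarTower.algebraMap_apply P F L, IsScalarTower.algebraMap_apply P A L, hb',
        map_mul]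
    have h2 : algebraMap A L b ≠ 0 := by
      rw [Ne, FaithfulSMul.algebraMap_eq_zero_iff A L]
      exact hb0
    have h3 : algebraMap A L b' ≠ 0 := by
      intro h3
      rw [h3, mul_zero] at h1
      exact hcF ((_root_.map_eq_zero _).1 h1)
    rw [map_inv₀, h1, map_mul]
    field_simp
  refine ⟨(p.map (algebraMap P F)).scaleRoots (algebraMap P F c)⁻¹, ?_, ?_, ?_⟩
  · rw [Polynomial.monic_scaleRoots_iff]
    exact hp.map _
  · rw [Polynomial.natDegree_scaleRoots]
    exact Polynomial.natDegree_map_le.trans hpd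
  · rw [hx]
    exact Polynomial.scaleRoots_aeval_eq_zero hy

theorem FG_fin {F L : Type*} [Field F] [CharZero F] [Field L] [Algebra F L] (R : ℕ)
    (h : ∀ x : L, ∃ p : Polynomial F, p.Monic ∧ p.natDegree ≤ R ∧ Polynomial.aeval x p = 0) :
    FiniteDimensional F L := by
  have hint : ∀ x : L, IsIntegral F x := fun x => by
    obtain ⟨p, hp, -, hp0⟩ := h x
    exact ⟨p, hp, hp0⟩
  have hdeg : ∀ x : L, (minpoly F x).natDegree ≤ R := fun x => by
    obtain ⟨p, hp, hpd, hp0⟩ := h x
    exact (Polynomial.natDegree_le_natDegree (minpoly.min F x hp hp0)).trans hpd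
  have hrank : Module.rank F L ≤ (R : Cardinal) := by
    apply rank_le
    intro s hs
    let E := IntermediateField.adjoin F (s : Set L)
    have hEfin : FiniteDimensional F E :=
      IntermediateField.finiteDimensional_adjoin (fun x _ => hint x)
    obtain ⟨z, hz⟩ := Field.exists_primitive_element F E
    have h1 : (minpoly F z).natDegree = Module.finrank F E :=
      (Field.primitive_element_iff_minpoly_natDegree_eq F z).1 hz
    rw [IntermediateField.minpoly_eq] at h1
    let v : s → E := fun i => ⟨i, IntermediateField.subset_adjoin F _ i.2⟩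
    have hv : LinearIndependent F v := by
      have h2 : LinearIndependent F (E.val.toLinearMap ∘ v) := hs
      exact h2.of_comp _
    have h3 := hv.fintype_card_le_finrank
    rw [Fintype.card_coe] at h3
    have h4 := hdeg (z : L)
    omega
  rw [FiniteDimensional, ← Module.rank_lt_aleph0_iff]
  exact hrank.trans_lt (Cardinal.natCast_lt_aleph0)

theorem FG_abs {P A : Type*} [CommRing P] [IsDomain P] [IsIntegrallyClosed P]
    [IsNoetherianRing P] [CharZero P] [CommRing A] [IsDomain A] [Algebra P A]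
    (hinj : Function.Injective (algebraMap P A)) (R : ℕ)
    (h : ∀ a : A, ∃ p : Polynomial P, p.Monic ∧ p.natDegree ≤ R ∧ Polynomial.aeval a p = 0) :
    Module.Finite P A := by
  have hfs : FaithfulSMul P A := (faithfulSMul_iff_algebraMap_injective P A).2 hinj
  have hinjL : Function.Injective (algebraMap P (FractionRing A)) := by
    rw [IsScalarTower.algebraMap_eq P A (FractionRing A)]
    exact (IsFractionRing.injective A (FractionRing A)).comp hinj
  have hfL : FaithfulSMul P (FractionRing A) :=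
    (faithfulSMul_iff_algebraMap_injective P (FractionRing A)).2 hinjL
  let _ : Algebra (FractionRing P) (FractionRing A) := FractionRing.liftAlgebra P (FractionRing A)
  have tow : IsScalarTower P (FractionRing P) (FractionRing A) :=
    FractionRing.isScalarTower_liftAlgebra P (FractionRing A)
  have hchar : CharZero (FractionRing P) :=
    charZero_of_injective_algebraMap (IsFractionRing.injective P (FractionRing P))
  have key := FG_key (F := FractionRing P) (L := FractionRing A) R h
  have hfin : FiniteDimensional (FractionRing P) (FractionRing A) := FG_fin R key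
  have hN : IsNoetherian P (integralClosure P (FractionRing A)) :=
    IsIntegralClosure.isNoetherian P (FractionRing P) (FractionRing A)
      (integralClosure P (FractionRing A))
  have hai : ∀ a : A, IsIntegral P (algebraMap A (FractionRing A) a) := fun a => by
    obtain ⟨p, hp, -, hp0⟩ := h a
    have h1 : IsIntegral P a := ⟨p, hp, hp0⟩
    exact h1.algebraMap
  let f : A →ₗ[P] integralClosure P (FractionRing A) :=
    { toFun := fun a => ⟨algebraMap A (FractionRing A) a, hai a⟩
      map_add' := fun a b => by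
        apply Subtype.ext
        exact map_add _ _ _
      map_smul' := fun c a => by
        apply Subtype.ext
        change algebraMap A (FractionRing A) (c • a) = c • algebraMap A (FractionRing A) a
        rw [Algebra.smul_def, Algebra.smul_def, map_mul, ← IsScalarTower.algebraMap_apply] }
  have hf : Function.Injective f := fun a b hab => by
    apply IsFractionRing.injective A (FractionRing A)
    exact congrArg Subtype.val hab
  have hNA : IsNoetherian P A := isNoetherian_of_injective f hf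
  infer_instance

theorem fg {K : Type*} [Field K] [CharZero K] (A : Subalgebra K K⟦X⟧) (hlam : lam K ∈ A)
    (hdel : ∀ a ∈ A, OT.del K a ∈ A) (R : ℕ)
    (hint : ∀ a ∈ A, ∃ (r : ℕ) (c : ℕ → Polynomial K), 1 ≤ r ∧ r ≤ R ∧
      a ^ r + ∑ m ∈ Finset.Icc 1 r, evl K (c m) * a ^ (r - m) = 0) :
    ∃ (r : ℕ) (e : Fin r → K⟦X⟧), LD K r e ∧ ∀ a ∈ A, a ∈ SP K e := by
  let φ : Polynomial K →ₐ[K] A := Polynomial.aeval (⟨lam K, hlam⟩ : A)
  have hφ : ∀ P, ((φ P : A) : K⟦X⟧) = evl K P := fun P => by
    change A.val (Polynomial.aeval _ P) = _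
    rw [← Polynomial.aeval_algHom_apply]
    rfl
  let _ : Algebra (Polynomial K) A := φ.toRingHom.toAlgebra
  have hmap : ∀ P : Polynomial K, algebraMap (Polynomial K) A P = φ P := fun _ => rfl
  have hinj : Function.Injective (algebraMap (Polynomial K) A) := by
    intro p q hpq
    apply ID2_inj (K := K) two_ne_zero
    change evl K p = evl K q
    rw [← hφ, ← hφ]
    exact congrArg _ hpq
  have hfin : Module.Finite (Polynomial K) A := by
    apply FG_abs hinj R
    intro a
    obtain ⟨r, c, hr1, hrR, hc⟩ := hint a a.2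
    have hdeg : (∑ m ∈ Finset.Icc 1 r, Polynomial.C (c m) * Polynomial.X ^ (r - m) :
        Polynomial (Polynomial K)).degree < (r : ℕ) := by
      rw [← Polynomial.mem_degreeLT]
      refine Submodule.sum_mem _ fun m hm => ?_
      rw [Polynomial.mem_degreeLT]
      rw [Finset.mem_Icc] at hm
      refine (Polynomial.degree_C_mul_X_pow_le _ _).trans_lt ?_
      rw [Nat.cast_lt]
      omega
    refine ⟨Polynomial.X ^ r + ∑ m ∈ Finset.Icc 1 r, Polynomial.C (c m) *
      Polynomial.X ^ (r - m), Polynomial.monic_X_pow_add hdeg, ?_, ?_⟩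
    · refine (Polynomial.natDegree_add_le _ _).trans (max_le ?_ ?_)
      · rw [Polynomial.natDegree_X_pow]
        exact hrR
      · exact Polynomial.natDegree_le_of_degree_le (hdeg.le.trans (by exact_mod_cast hrR))
    · apply Subtype.ext
      change ((Polynomial.aeval a _ : A) : K⟦X⟧) = 0
      rw [← hc]
      simp only [map_add, map_sum, map_mul, map_pow, Polynomial.aeval_X, Polynomial.aeval_C, hmap]
      push_cast
      simp only [hφ]
  obtain ⟨n, s, hs⟩ := Module.Finite.exists_fin (R := Polynomial K) (M := A)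
  have hSP : ∀ a ∈ A, a ∈ SP K (fun l => (s l : K⟦X⟧)) := by
    intro a ha
    have h1 : (⟨a, ha⟩ : A) ∈ Submodule.span (Polynomial K) (Set.range s) := by
      rw [hs]
      exact Submodule.mem_top
    rw [Submodule.mem_span_range_iff_exists_fun] at h1
    obtain ⟨c, hc⟩ := h1
    refine ⟨c, ?_⟩
    have h2 := congrArg Subtype.val hc
    simp only [Algebra.smul_def, hmap] at h2
    push_cast at h2
    simp only [hφ] at h2
    exact h2.symm
  exact ⟨n, fun l => (s l : K⟦X⟧), ⟨hSP 1 A.one_mem, fun l l' => hSP _ (A.mul_mem (s l).2 (s l').2),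
    fun l => hSP _ (hdel _ (s l).2)⟩, hSP⟩

end Pool.Agent.H85.OU

end S_OU_FG

section S_OU_Dsc

/-!
# Row DSC (project OU): descent of `LForm` to a subfield

`φ : K → Ω` a homomorphism of fields of characteristic zero, `g ∈ K⟦X⟧`, `LForm Ω k (map φ g)` with data `r, e`.
1. Retraction: `Ω` is a `K`-vector space through `φ`; there is a `K`-linear `π : Ω → K` with `π 1 = 1`, so `π (φ c · x) = c π x` (`LinearMap.exists_leftInverse_of_injective` for `K → Ω`).  Let `π_*`
   act on coefficients of power series: additive, `π_*(map φ y · z) = y · π_* z`, `π_*(map φ y) = y`, and for `a ∈ Ω[X]`, `π_*(evl Ω a) = evl K (π a)` with `π a` the polynomial with coefficients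
   `π a_i` (`evl Ω a = ∑ C a_i (map φ λ)^i`, `map_lam`); its degree is `≤ deg a`.
2. `IsDeg Ω n (map φ y)` implies `IsDeg K n y`: apply `π_*` to the equation `Y^r + ∑ a_m(λ) Y^(r-m) = 0`, `Y = map φ y`.
3. `A = {y ∈ K⟦X⟧ : map φ y ∈ SP Ω e}` is a `K`-subalgebra containing `λ`, stable under `δ` (`LD.del_mem`, `map_del`, `SP_mul`, ..).  Every `y ∈ A` satisfies a monic equation of degree `r`:
   `LD.int_deg` for `map φ y` and `π_*`.  (`r ≥ 1` since `1 ∈ SP Ω e`, `1 ≠ 0`.)  `fg` gives `e'` with `LD K r' e'` and `A ⊆ SP K e'`.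
4. `g U^(-k), dbl g U^(-k) ∈ A` (`map_dbl`, `map_Uinv`), and the degree conditions by 2.
-/

open PowerSeries
open Pool.Agent.H85.OT

namespace Pool.Agent.H85.OU

/-- a `K`-linear retraction of a homomorphism of fields -/
theorem Dsc_ret {K Ω : Type*} [Field K] [Field Ω] (φ : K →+* Ω) :
    ∃ π : Ω →+ K, (∀ c, π (φ c) = c) ∧ ∀ c x, π (φ c * x) = c * π x := by
  letI : Algebra K Ω := φ.toAlgebra
  have hinj : LinearMap.ker (Algebra.linearMap K Ω) = ⊥ := by
    rw [LinearMap.ker_eq_bot]
    exact φ.injective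
  obtain ⟨g, hg⟩ := LinearMap.exists_leftInverse_of_injective (Algebra.linearMap K Ω) hinj
  refine ⟨g.toAddMonoidHom, fun c => ?_, fun c x => ?_⟩
  · exact LinearMap.congr_fun hg c
  · show g (φ c * x) = c * g x
    have h1 : φ c * x = c • x := (Algebra.smul_def c x).symm
    rw [h1, map_smul, smul_eq_mul]

/-- coefficientwise application of an additive map -/
noncomputable def DscP {K Ω : Type*} [Field K] [Field Ω] (π : Ω →+ K) : Ω⟦X⟧ →+ K⟦X⟧ where
  toFun y := PowerSeries.mk fun n => π (PowerSeries.coeff n y)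
  map_zero' := by
    ext n
    rw [PowerSeries.coeff_mk, _root_.map_zero, _root_.map_zero, _root_.map_zero]
  map_add' a b := by
    ext n
    rw [PowerSeries.coeff_mk, _root_.map_add, _root_.map_add, _root_.map_add,
      PowerSeries.coeff_mk, PowerSeries.coeff_mk]

theorem Dsc_coeff {K Ω : Type*} [Field K] [Field Ω] (π : Ω →+ K) (y : Ω⟦X⟧) (n : ℕ) :
    PowerSeries.coeff n (DscP π y) = π (PowerSeries.coeff n y) := by
  show PowerSeries.coeff n (PowerSeries.mk fun n => π (PowerSeries.coeff n y)) = _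
  rw [PowerSeries.coeff_mk]

section ret
variable {K Ω : Type*} [Field K] [Field Ω] (φ : K →+* Ω) (π : Ω →+ K)
  (h1 : ∀ c, π (φ c) = c) (h2 : ∀ c x, π (φ c * x) = c * π x)
include h1

theorem Dsc_P_map (y : K⟦X⟧) : DscP π (PowerSeries.map φ y) = y := by
  ext n
  rw [Dsc_coeff, PowerSeries.coeff_map, h1]

omit h1
include h2

theorem Dsc_P_C (c : Ω) (w : K⟦X⟧) :
    DscP π (PowerSeries.C c * PowerSeries.map φ w) = PowerSeries.C (π c) * w := by
  ext n
  rw [Dsc_coeff, PowerSeries.coeff_C_mul, PowerSeries.coeff_map, PowerSeries.coeff_C_mul,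
    mul_comm c, h2, mul_comm]

theorem Dsc_evl (a : Polynomial Ω) : ∃ b : Polynomial K, b.natDegree ≤ a.natDegree ∧
    ∀ z : K⟦X⟧, DscP π (evl Ω a * PowerSeries.map φ z) = evl K b * z := by
  refine ⟨∑ i ∈ Finset.range (a.natDegree + 1), Polynomial.C (π (a.coeff i)) * Polynomial.X ^ i,
    ?_, fun z => ?_⟩
  · refine Polynomial.natDegree_sum_le_of_forall_le _ _ fun i hi => ?_
    rw [Finset.mem_range] at hi
    exact (Polynomial.natDegree_C_mul_X_pow_le _ _).trans (by omega)
  · have e1 : evl Ω a * PowerSeries.map φ z = ∑ i ∈ Finset.range (a.natDegree + 1),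
        PowerSeries.C (a.coeff i) * PowerSeries.map φ (lam K ^ i * z) := by
      rw [evl, Polynomial.aeval_eq_sum_range, Finset.sum_mul]
      refine Finset.sum_congr rfl fun i _ => ?_
      rw [_root_.map_mul, _root_.map_pow, map_lam, ← mul_assoc, PowerSeries.smul_eq_C_mul]
    rw [e1, _root_.map_sum, _root_.map_sum, Finset.sum_mul]
    refine Finset.sum_congr rfl fun i _ => ?_
    rw [Dsc_P_C φ π h2, _root_.map_mul, _root_.map_pow, evl, Polynomial.aeval_C,
      Polynomial.aeval_X, mul_assoc]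
    rfl

include h1

theorem Dsc_eqn {y : K⟦X⟧} {r : ℕ} {a : ℕ → Polynomial Ω}
    (h : PowerSeries.map φ y ^ r +
      ∑ m ∈ Finset.Icc 1 r, evl Ω (a m) * PowerSeries.map φ y ^ (r - m) = 0) :
    ∃ b : ℕ → Polynomial K, (∀ m, (b m).natDegree ≤ (a m).natDegree) ∧
      y ^ r + ∑ m ∈ Finset.Icc 1 r, evl K (b m) * y ^ (r - m) = 0 := by
  choose b hb1 hb2 using fun m => Dsc_evl φ π h2 (a m)
  refine ⟨b, hb1, ?_⟩
  have h3 := congrArg (DscP π) h
  rw [_root_.map_zero, _root_.map_add, _root_.map_sum, ← _root_.map_pow, Dsc_P_map φ π h1] at h3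
  rw [← h3]
  congr 1
  refine Finset.sum_congr rfl fun m _ => ?_
  rw [← _root_.map_pow, hb2]

theorem Dsc_isDeg {n : ℕ} {y : K⟦X⟧} (hy : IsDeg Ω n (PowerSeries.map φ y)) : IsDeg K n y := by
  obtain ⟨r, a, hr, ha, h⟩ := hy
  obtain ⟨b, hb, h3⟩ := Dsc_eqn φ π h1 h2 h
  exact ⟨r, b, hr, fun m => (hb m).trans (ha m), h3⟩

end ret

theorem LForm.descend {K Ω : Type*} [Field K] [CharZero K] [Field Ω] (φ : K →+* Ω) {k : ℕ}
    {g : K⟦X⟧} (hg : LForm Ω k (PowerSeries.map φ g)) : LForm K k g := by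
  obtain ⟨π, h1, h2⟩ := Dsc_ret φ
  obtain ⟨r, e, hLD, hm1, hm2, hd1, hd2⟩ := hg
  have htwo : (2 : Ω) ≠ 0 := by
    intro h
    have h3 : φ 2 = 0 := by rw [map_ofNat]; exact h
    have h4 : (2 : K) = 0 := φ.injective (by rw [h3, _root_.map_zero])
    exact two_ne_zero h4
  have hr : 1 ≤ r := by
    by_contra hr
    have hr0 : r = 0 := by omega
    subst hr0
    obtain ⟨p, hp⟩ := hLD.one
    simp at hp
  let A : Subalgebra K K⟦X⟧ :=
    { carrier := {y | PowerSeries.map φ y ∈ SP Ω e}
      mul_mem' := fun {a b} ha hb => by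
        show PowerSeries.map φ (a * b) ∈ SP Ω e
        rw [_root_.map_mul]
        exact SP_mul hLD.mul ha hb
      add_mem' := fun {a b} ha hb => by
        show PowerSeries.map φ (a + b) ∈ SP Ω e
        rw [_root_.map_add]
        exact SP_add ha hb
      algebraMap_mem' := fun c => by
        show PowerSeries.map φ (algebraMap K K⟦X⟧ c) ∈ SP Ω e
        have h3 : PowerSeries.map φ (algebraMap K K⟦X⟧ c) = algebraMap Ω Ω⟦X⟧ (φ c) := by
          show PowerSeries.map φ (PowerSeries.C c) = PowerSeries.C (φ c)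
          rw [PowerSeries.map_C]
        rw [h3]
        exact hLD.alg.algebraMap_mem (φ c) }
  have hA : ∀ y, y ∈ A ↔ PowerSeries.map φ y ∈ SP Ω e := fun _ => Iff.rfl
  have hU : ∀ y : K⟦X⟧, PowerSeries.map φ (y * (U K)⁻¹ ^ k) =
      PowerSeries.map φ y * (U Ω)⁻¹ ^ k := fun y => by
    rw [_root_.map_mul, _root_.map_pow, map_Uinv]
  obtain ⟨r', e', hLD', hsub⟩ := fg A
    ((hA _).2 (by rw [map_lam]; exact hLD.lam_mem))
    (fun a ha => (hA _).2 (by rw [map_del]; exact hLD.del_mem htwo ((hA a).1 ha))) r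
    (fun a ha => by
      obtain ⟨c, hc⟩ := hLD.int_deg ((hA a).1 ha)
      obtain ⟨b, _, hb⟩ := Dsc_eqn φ π h1 h2 hc
      exact ⟨r, b, hr, le_rfl, hb⟩)
  refine ⟨r', e', hLD', hsub _ ((hA _).2 (by rw [hU]; exact hm1)),
    hsub _ ((hA _).2 (by rw [hU, map_dbl]; exact hm2)), ?_, ?_⟩
  · apply Dsc_isDeg φ π h1 h2
    rw [_root_.map_pow, hU]
    exact hd1
  · apply Dsc_isDeg φ π h1 h2
    rw [_root_.map_pow, hU, map_dbl]
    exact hd2

end Pool.Agent.H85.OU

end S_OU_Dsc

section S_OU_Dfr

/-!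
# Row DFR (project OU): the differential field of a level datum

* `exists_dfr`: a derivation `d` of a domain `R` extends to its fraction field: `D(a/b) = (da b - a db)/b²`.  Well defined: if `a/b = a'/b'`, i.e. `a b' = a' b`, then
  `da b' + a db' = da' b + a' db`; multiply out.  Define `D x` by choosing a representation (`IsLocalization.sec` / `IsFractionRing.div_surjective`); the formula then holds for
  every representation; additivity and Leibniz follow by computing with representations.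
* `const_of_del`: `K` of characteristic zero, `α, β ∈ K⟦X⟧`, `β ≠ 0`, `β δα = α δβ`.  Then `α = c β` with `c ∈ K`.  `δ = U^(-2) D`, so `β Dα = α Dβ`.  Let `n` be the order of `β`,
  `β_n ≠ 0`.  First: if `α ≠ 0` satisfies the equation and has order `m`, coefficient `m + n` of the equation is `m α_m β_n = n α_m β_n`, so `m = n`.  Take `c = α_n/β_n` and
  `α' = α - cβ`: it satisfies the same equation and its coefficient `n` vanishes; its order is not `n`, so `α' = 0`.
* `naset_of_LD`: `A = h.alg`, `L = FractionRing A`, `ℓ` = image of `λ`, `R` = image of `A` in `L`.  `D` from `exists_dfr`.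
  `dK`: `δ` kills constants.  `dl`: `Dq_lam`.  `tr`: `P(λ) ≠ 0` in `K⟦X⟧` by `ord_lam` (so in `A`, so in `L`).  `stab`, `mem`, `frac`: clear.  `int`: `LD.int_deg` (an equation in `K⟦X⟧` between
  elements of `A` holds in `A`, then in `L`).
  `fin`: `K0 = IntermediateField.adjoin K {ℓ}`; `L` is generated over `K0` by the images of `e_1, .., e_r`, which are algebraic (integral) over `K0`, so
  `K0(e_1, .., e_r) = L` is finite over `K0` (`IntermediateField.finiteDimensional_adjoin` or `essFiniteType`): every element of `A` is `∑ p_l(λ) e_l`, every element of `L` a quotient of such.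
  (Each `e_l ∈ SP K e` by `SP_gen`.)
  constants: `D c = 0`, `c = α/β`: `βδα = αδβ` in `A ⊆ K⟦X⟧`, `const_of_del`.
-/

open PowerSeries
open Pool.Agent.H85.OT

namespace Pool.Agent.H85.OU

/-- the quotient rule is independent of the representation -/
private theorem dfr_aux {R : Type*} [CommRing R] [IsDomain R] (d : Dv R) (L : Type*) [Field L]
    [Algebra R L] [IsFractionRing R L] {a b a' b' : R} (hb : algebraMap R L b ≠ 0)
    (hb' : algebraMap R L b' ≠ 0)
    (h : algebraMap R L a / algebraMap R L b = algebraMap R L a' / algebraMap R L b') :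
    (algebraMap R L (d a) * algebraMap R L b - algebraMap R L a * algebraMap R L (d b)) /
      algebraMap R L b ^ 2 =
    (algebraMap R L (d a') * algebraMap R L b' - algebraMap R L a' * algebraMap R L (d b')) /
      algebraMap R L b' ^ 2 := by
  rw [div_eq_div_iff hb hb'] at h
  have h0 : a * b' = a' * b := by
    apply IsFractionRing.injective R L
    rw [_root_.map_mul, _root_.map_mul]
    exact h
  have h1 : d a * b' + a * d b' = d a' * b + a' * d b := by
    rw [← d.map_mul, ← d.map_mul, h0]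
  have h2 : algebraMap R L (d a) * algebraMap R L b' + algebraMap R L a * algebraMap R L (d b') =
      algebraMap R L (d a') * algebraMap R L b + algebraMap R L a' * algebraMap R L (d b) := by
    rw [← _root_.map_mul, ← _root_.map_mul, ← _root_.map_add, h1, _root_.map_add, _root_.map_mul,
      _root_.map_mul]
  rw [div_eq_div_iff (pow_ne_zero 2 hb) (pow_ne_zero 2 hb')]
  linear_combination (algebraMap R L b * algebraMap R L b') * h2 +
    (-(algebraMap R L (d b) * algebraMap R L b') - algebraMap R L b * algebraMap R L (d b')) * h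

theorem exists_dfr {R : Type*} [CommRing R] [IsDomain R] (d : Dv R) (L : Type*) [Field L]
    [Algebra R L] [IsFractionRing R L] :
    ∃ D : Dv L, ∀ a : R, D (algebraMap R L a) = algebraMap R L (d a) := by
  classical
  have hrep : ∀ x : L, ∃ a b : R, algebraMap R L b ≠ 0 ∧
      algebraMap R L a / algebraMap R L b = x := by
    intro x
    obtain ⟨a, b, hb, hx⟩ := IsFractionRing.div_surjective (A := R) x
    refine ⟨a, b, ?_, hx⟩
    intro h0
    exact nonZeroDivisors.ne_zero hb ((injective_iff_map_eq_zero _).1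
      (IsFractionRing.injective R L) b h0)
  choose nu de hde hx using hrep
  let D : L → L := fun x =>
    (algebraMap R L (d (nu x)) * algebraMap R L (de x) -
      algebraMap R L (nu x) * algebraMap R L (d (de x))) / algebraMap R L (de x) ^ 2
  have hD : ∀ a b : R, algebraMap R L b ≠ 0 → D (algebraMap R L a / algebraMap R L b) =
      (algebraMap R L (d a) * algebraMap R L b - algebraMap R L a * algebraMap R L (d b)) /
        algebraMap R L b ^ 2 := by
    intro a b hb
    exact dfr_aux d L (hde _) hb (hx _)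
  have hsum : ∀ x y, D (x + y) = D x + D y := by
    intro x y
    obtain ⟨a, b, hb, rfl⟩ : ∃ a b : R, algebraMap R L b ≠ 0 ∧
        algebraMap R L a / algebraMap R L b = x := ⟨_, _, hde x, hx x⟩
    obtain ⟨a', b', hb', rfl⟩ : ∃ a b : R, algebraMap R L b ≠ 0 ∧
        algebraMap R L a / algebraMap R L b = y := ⟨_, _, hde y, hx y⟩
    have hs : algebraMap R L a / algebraMap R L b + algebraMap R L a' / algebraMap R L b' =
        algebraMap R L (a * b' + a' * b) / algebraMap R L (b * b') := by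
      rw [_root_.map_add, _root_.map_mul, _root_.map_mul, _root_.map_mul]
      field_simp
    have hbb : algebraMap R L (b * b') ≠ 0 := by
      rw [_root_.map_mul]; exact mul_ne_zero hb hb'
    rw [hs, hD _ _ hbb, hD _ _ hb, hD _ _ hb', d.map_add, d.map_mul, d.map_mul, d.map_mul]
    simp only [_root_.map_add, _root_.map_mul]
    field_simp
    ring
  have hmul : ∀ x y, D (x * y) = D x * y + x * D y := by
    intro x y
    obtain ⟨a, b, hb, rfl⟩ : ∃ a b : R, algebraMap R L b ≠ 0 ∧
        algebraMap R L a / algebraMap R L b = x := ⟨_, _, hde x, hx x⟩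
    obtain ⟨a', b', hb', rfl⟩ : ∃ a b : R, algebraMap R L b ≠ 0 ∧
        algebraMap R L a / algebraMap R L b = y := ⟨_, _, hde y, hx y⟩
    have hs : algebraMap R L a / algebraMap R L b * (algebraMap R L a' / algebraMap R L b') =
        algebraMap R L (a * a') / algebraMap R L (b * b') := by
      rw [_root_.map_mul, _root_.map_mul]
      field_simp
    have hbb : algebraMap R L (b * b') ≠ 0 := by
      rw [_root_.map_mul]; exact mul_ne_zero hb hb'
    rw [hs, hD _ _ hbb, hD _ _ hb, hD _ _ hb', d.map_mul, d.map_mul]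
    simp only [_root_.map_add, _root_.map_mul]
    field_simp
    ring
  refine ⟨⟨D, hsum, hmul⟩, fun a => ?_⟩
  have h1 : algebraMap R L (1 : R) ≠ 0 := by rw [_root_.map_one]; exact one_ne_zero
  have h2 := hD a 1 h1
  rw [d.map_one, _root_.map_one, _root_.map_zero] at h2
  have h3 : D (algebraMap R L a) = algebraMap R L (d a) := by
    simpa using h2
  exact h3

/-- an element of `K⟦X⟧` has a first nonzero coefficient -/
private theorem dfr_first {K : Type*} [Field K] (α : K⟦X⟧) (h : α ≠ 0) :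
    ∃ m : ℕ, coeff m α ≠ 0 ∧ ∀ i < m, coeff i α = 0 := by
  classical
  have h1 : ∃ m : ℕ, coeff m α ≠ 0 := by
    by_contra hc
    push Not at hc
    exact h (PowerSeries.ext fun n => by rw [hc n, _root_.map_zero])
  refine ⟨Nat.find h1, Nat.find_spec h1, fun i hi => ?_⟩
  by_contra hne
  exact Nat.find_min h1 hi hne

/-- lowest coefficient of a product -/
private theorem dfr_low {K : Type*} [Field K] {a b : K⟦X⟧} {m n : ℕ}
    (ha : ∀ i < n, coeff i a = 0) (hb : ∀ i < m, coeff i b = 0) :
    coeff (n + m) (a * b) = coeff n a * coeff m b := by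
  classical
  rw [PowerSeries.coeff_mul]
  refine Finset.sum_eq_single (n, m) (fun x hx hne => ?_) (fun h => ?_)
  · have h1 : x.1 + x.2 = n + m := Finset.HasAntidiagonal.mem_antidiagonal.1 hx
    rcases lt_or_ge x.1 n with h2 | h2
    · rw [ha _ h2, zero_mul]
    · have h3 : x.2 < m := by
        rcases Nat.lt_or_ge x.2 m with h4 | h4
        · exact h4
        · exfalso
          apply hne
          have h5 : x.1 = n := by omega
          have h6 : x.2 = m := by omega
          exact Prod.ext h5 h6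
      rw [hb _ h3, mul_zero]
  · exact absurd (Finset.HasAntidiagonal.mem_antidiagonal.2 (by rfl : (n, m).1 + (n, m).2 = n + m)) h

theorem const_of_del {K : Type*} [Field K] [CharZero K] (α β : K⟦X⟧) (hβ : β ≠ 0)
    (h : β * OT.del K α = α * OT.del K β) : ∃ c : K, α = PowerSeries.C c * β := by
  obtain ⟨n, hn, hn0⟩ := dfr_first β hβ
  have hU : (U K)⁻¹ ^ 2 ≠ 0 := by
    refine pow_ne_zero 2 fun h0 => ?_
    have h1 := PowerSeries.mul_inv_cancel (U K) (by
      rw [constCoeff_U]; exact one_ne_zero)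
    rw [h0, mul_zero] at h1
    exact zero_ne_one h1
  have key : ∀ γ : K⟦X⟧, β * Dq K γ = γ * Dq K β → coeff n γ = 0 → γ = 0 := by
    intro γ hγ hc
    by_contra hne
    obtain ⟨m, hm, hm0⟩ := dfr_first γ hne
    have e1 : coeff (n + m) (β * Dq K γ) = coeff n β * ((m : K) * coeff m γ) := by
      rw [dfr_low hn0 (m := m) (fun i hi => by rw [coeff_Dq, hm0 i hi, mul_zero]), coeff_Dq]
    have e2 : coeff (n + m) (γ * Dq K β) = coeff m γ * ((n : K) * coeff n β) := by
      rw [add_comm n m, dfr_low hm0 (m := n) (fun i hi => by rw [coeff_Dq, hn0 i hi, mul_zero]),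
        coeff_Dq]
    rw [hγ, e2] at e1
    have e3 : ((n : K) - m) * (coeff m γ * coeff n β) = 0 := by linear_combination e1
    rcases mul_eq_zero.1 e3 with h4 | h4
    · have h5 : (n : K) = m := sub_eq_zero.1 h4
      have h6 : n = m := Nat.cast_injective h5
      rw [h6] at hc
      exact hm hc
    · rcases mul_eq_zero.1 h4 with h5 | h5
      · exact hm h5
      · exact hn h5
  have h' : β * Dq K α = α * Dq K β := by
    rw [del_apply, del_apply] at h
    have h7 : (U K)⁻¹ ^ 2 * (β * Dq K α) = (U K)⁻¹ ^ 2 * (α * Dq K β) := by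
      linear_combination h
    exact mul_left_cancel₀ hU h7
  refine ⟨coeff n α / coeff n β, ?_⟩
  have h8 := key (α - PowerSeries.C (coeff n α / coeff n β) * β) (by
    have h9 : Dq K (PowerSeries.C (coeff n α / coeff n β) * β) =
        PowerSeries.C (coeff n α / coeff n β) * Dq K β := by
      ext i
      rw [coeff_Dq, PowerSeries.coeff_C_mul, PowerSeries.coeff_C_mul, coeff_Dq]
      ring
    rw [_root_.map_sub, h9]
    linear_combination h') (by
    rw [_root_.map_sub, PowerSeries.coeff_C_mul, div_mul_cancel₀ _ hn, sub_self])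
  exact sub_eq_zero.1 h8

end Pool.Agent.H85.OU

end S_OU_Dfr

section S_OU_NAs

/-!
# Row NAS (project OU): the differential field of a level datum

`A = h.alg`, `L = FractionRing A`, `ℓ` = image of `λ`, `R` = image of `A` in `L`.  `D` from `exists_dfr` (`Dfr.lean`).
* `dK`: `δ` kills constants.  `dl`: `Dq_lam` (`OT/Hd.lean`) and `U² U^(-2) = 1`.  `tr`: `P(λ) ≠ 0` in `K⟦X⟧` by `ord_lam` (so in `A`, so in `L`).  `stab`, `mem`, `frac`: clear.
* `int`: `LD.int_deg` (an equation in `K⟦X⟧` between elements of `A` holds in `A`, then in `L`); `r ≥ 1` because `1 ∈ SP K e`.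
* `fin`: `K0 = IntermediateField.adjoin K {ℓ}`; `L` is generated over `K0` by the images of `e_1, .., e_r`, which are algebraic (integral) over `K0`, so
  `K0(e_1, .., e_r) = L` is finite over `K0` (`IntermediateField.finiteDimensional_adjoin`): every element of `A` is `∑ p_l(λ) e_l`, every element of `L` a quotient of such.
  (Each `e_l ∈ SP K e` by `SP_gen`.)
* constants: `D c = 0`, `c = α/β`: `β δα = α δβ` in `A ⊆ K⟦X⟧`, `const_of_del` (`α = c0 β` in `K⟦X⟧`, hence in `A`, `c = c0`).
-/

open PowerSeries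
open Pool.Agent.H85.OT

namespace Pool.Agent.H85.OU

private lemma NAs_del_lam (K : Type*) [Field K] (h2 : (2 : K) ≠ 0) :
    OT.del K (lam K) = lam K * (1 - lam K) := by
  rw [OT.del_apply, Dq_lam K h2]
  have h := U_mul_inv K
  have h1 : (U K)⁻¹ ^ 2 * U K ^ 2 = 1 := by
    rw [← mul_pow, mul_comm, h, one_pow]
  linear_combination (lam K * (1 - lam K)) * h1

private lemma NAs_del_C (K : Type*) [Field K] (c : K) :
    OT.del K (algebraMap K K⟦X⟧ c) = 0 := by
  rw [OT.del_apply, Derivation.map_algebraMap, mul_zero]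

private lemma NAs_tr {K : Type*} [Field K] [CharZero K] (P : Polynomial K) (hP : P ≠ 0) :
    Polynomial.aeval (lam K) P ≠ 0 := by
  intro h
  obtain ⟨l, -, hl⟩ := ord_lam (K := K) two_ne_zero P hP P.natDegree le_rfl
  apply hl
  unfold lam at h
  rw [h, map_zero]

private lemma NAs_intElem {K : Type*} [Field K] {L : Type*} [Field L] [Algebra K L] (s x : L)
    (r : ℕ) (a : ℕ → Polynomial K)
    (h : x ^ r + ∑ m ∈ Finset.Icc 1 r, Polynomial.aeval s (a m) * x ^ (r - m) = 0) :
    IntOver K s x := by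
  refine ⟨Polynomial.X ^ r + ∑ m ∈ Finset.Icc 1 r, Polynomial.C (a m) * Polynomial.X ^ (r - m),
    ?_, ?_⟩
  · rcases Nat.eq_zero_or_pos r with hr | hr
    · subst hr
      simp
    · refine Polynomial.monic_X_pow_add ?_
      refine lt_of_le_of_lt (Polynomial.degree_sum_le _ _) ?_
      rw [Finset.sup_lt_iff (WithBot.bot_lt_coe _)]
      intro m hm
      rw [Finset.mem_Icc] at hm
      refine lt_of_le_of_lt (Polynomial.degree_C_mul_X_pow_le _ _) ?_
      exact_mod_cast (by omega : r - m < r)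
  · rw [Polynomial.eval₂_add, Polynomial.eval₂_pow, Polynomial.eval₂_X,
      Polynomial.eval₂_finsetSum]
    simp only [Polynomial.eval₂_mul, Polynomial.eval₂_pow, Polynomial.eval₂_X,
      Polynomial.eval₂_C]
    exact h

private lemma NAs_int {K : Type*} [Field K] {L : Type*} [Field L] [Algebra K L] (s x : L)
    (h : IntOver K s x) : IsIntegral (IntermediateField.adjoin K {s}) x := by
  obtain ⟨p, hp, hx⟩ := h
  obtain ⟨s0, hs0⟩ : ∃ s0 : IntermediateField.adjoin K {s},
      s0 = ⟨s, IntermediateField.mem_adjoin_simple_self K s⟩ := ⟨_, rfl⟩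
  refine ⟨p.map ((Polynomial.aeval s0 : Polynomial K →ₐ[K] _) : Polynomial K →+* _),
    hp.map _, ?_⟩
  rw [Polynomial.eval₂_map]
  have hc : (algebraMap (IntermediateField.adjoin K {s}) L).comp
      ((Polynomial.aeval s0 : Polynomial K →ₐ[K] _) : Polynomial K →+* _) =
      ((Polynomial.aeval s : Polynomial K →ₐ[K] L) : Polynomial K →+* L) := by
    apply RingHom.ext
    intro q
    show (algebraMap (IntermediateField.adjoin K {s}) L) (Polynomial.aeval s0 q) =
      Polynomial.aeval s q
    rw [← Polynomial.aeval_algebraMap_apply]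
    congr 1
    rw [hs0]
    rfl
  rw [hc]
  exact hx

theorem naset_of_LD {K : Type} [Field K] [CharZero K] {r : ℕ} {e : Fin r → K⟦X⟧}
    (h : LD K r e) :
    ∃ D : Dv (FractionRing h.alg),
      (∀ a : h.alg, D (algebraMap h.alg (FractionRing h.alg) a) =
        algebraMap h.alg (FractionRing h.alg) (h.dA a)) ∧
      NAset K (FractionRing h.alg) D
        (algebraMap h.alg (FractionRing h.alg) ⟨lam K, h.lam_mem⟩)
        (IsScalarTower.toAlgHom K h.alg (FractionRing h.alg)).range ∧
      ∀ c, D c = 0 → ∃ c0 : K, c = algebraMap K (FractionRing h.alg) c0 := by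
  obtain ⟨D, hD⟩ := exists_dfr h.dA (FractionRing h.alg)
  have hinj : Function.Injective (algebraMap h.alg (FractionRing h.alg)) :=
    IsFractionRing.injective _ _
  obtain ⟨ℓA, hℓA⟩ : ∃ ℓA : h.alg, ℓA = ⟨lam K, h.lam_mem⟩ := ⟨_, rfl⟩
  have hval : ((ℓA : h.alg) : K⟦X⟧) = lam K := by rw [hℓA]
  have haev : ∀ P : Polynomial K, ((Polynomial.aeval ℓA P : h.alg) : K⟦X⟧) =
      Polynomial.aeval (lam K) P := by
    intro P
    rw [← hval]
    exact (Polynomial.aeval_algHom_apply h.alg.val ℓA P).symm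
  have haevL : ∀ P : Polynomial K, Polynomial.aeval (algebraMap h.alg (FractionRing h.alg) ℓA) P =
      algebraMap h.alg (FractionRing h.alg) (Polynomial.aeval ℓA P) := by
    intro P
    rw [Polynomial.aeval_algebraMap_apply]
  have hint : ∀ a : h.alg, IntOver K (algebraMap h.alg (FractionRing h.alg) ℓA)
      (algebraMap h.alg (FractionRing h.alg) a) := by
    intro a
    obtain ⟨p, hp⟩ := h.int_deg a.2
    refine NAs_intElem _ _ r p ?_
    have h1 : a ^ r + ∑ m ∈ Finset.Icc 1 r, Polynomial.aeval ℓA (p m) * a ^ (r - m) = 0 := by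
      apply Subtype.ext
      rw [Subalgebra.coe_add, Subalgebra.coe_pow, Subalgebra.coe_zero]
      rw [← Subalgebra.val_apply, ← Subalgebra.val_apply, map_sum]
      simp only [map_mul, map_pow, Subalgebra.val_apply, haev]
      exact hp
    have h2 := congrArg (algebraMap h.alg (FractionRing h.alg)) h1
    rw [map_add, map_pow, map_sum, map_zero] at h2
    rw [← h2]
    congr 1
    refine Finset.sum_congr rfl fun m _ => ?_
    rw [map_mul, map_pow, haevL]
  refine ⟨D, hD, ?_, ?_⟩
  · rw [← hℓA]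
    refine ⟨?_, ?_, ?_, ?_, ?_, ?_, ?_, ?_⟩
    · intro c
      rw [IsScalarTower.algebraMap_apply K h.alg (FractionRing h.alg), hD]
      have : h.dA (algebraMap K h.alg c) = 0 := by
        apply Subtype.ext
        rw [h.coe_dA]
        exact NAs_del_C K c
      rw [this, map_zero]
    · rw [hD]
      have : h.dA ℓA = ℓA * (1 - ℓA) := by
        apply Subtype.ext
        rw [h.coe_dA, hval, NAs_del_lam K two_ne_zero, Subalgebra.coe_mul, Subalgebra.coe_sub,
          Subalgebra.coe_one, hval]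
      rw [this, map_mul, map_sub, map_one]
    · intro P hP hcon
      rw [haevL] at hcon
      have h1 := hinj (hcon.trans (map_zero _).symm)
      have h2 := haev P
      rw [h1] at h2
      exact NAs_tr P hP h2.symm
    · obtain ⟨eL, heL⟩ : ∃ eL : Fin r → FractionRing h.alg,
          eL = fun l => algebraMap h.alg (FractionRing h.alg) ⟨e l, SP_gen l⟩ := ⟨_, rfl⟩
      obtain ⟨F, hF⟩ : ∃ F : IntermediateField
          (IntermediateField.adjoin K {algebraMap h.alg (FractionRing h.alg) ℓA})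
          (FractionRing h.alg), F = IntermediateField.adjoin
          (IntermediateField.adjoin K {algebraMap h.alg (FractionRing h.alg) ℓA})
          (Set.range eL) := ⟨_, rfl⟩
      have hfinF : FiniteDimensional
          (IntermediateField.adjoin K {algebraMap h.alg (FractionRing h.alg) ℓA}) F := by
        rw [hF]
        haveI : Finite (Set.range eL) := Set.finite_range eL
        refine IntermediateField.finiteDimensional_adjoin ?_
        rintro x ⟨l, rfl⟩
        rw [heL]
        exact NAs_int _ _ (hint _)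
      have hA : ∀ a : h.alg, algebraMap h.alg (FractionRing h.alg) a ∈ F := by
        intro a
        obtain ⟨p, hp⟩ := a.2
        have h1 : a = ∑ l, Polynomial.aeval ℓA (p l) * (⟨e l, SP_gen l⟩ : h.alg) := by
          apply Subtype.ext
          rw [hp, ← Subalgebra.val_apply, map_sum]
          refine Finset.sum_congr rfl fun l _ => ?_
          rw [map_mul, Subalgebra.val_apply, Subalgebra.val_apply, haev]
        rw [h1, map_sum]
        refine sum_mem fun l _ => ?_
        rw [map_mul]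
        refine mul_mem ?_ ?_
        · rw [← haevL]
          have h2 : Polynomial.aeval (algebraMap h.alg (FractionRing h.alg) ℓA) (p l) ∈
              IntermediateField.adjoin K {algebraMap h.alg (FractionRing h.alg) ℓA} := by
            refine IntermediateField.algebra_adjoin_le_adjoin K _ ?_
            rw [Algebra.adjoin_singleton_eq_range_aeval]
            exact ⟨_, rfl⟩
          exact F.algebraMap_mem ⟨_, h2⟩
        · rw [hF]
          refine IntermediateField.subset_adjoin _ _ ⟨l, ?_⟩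
          rw [heL]
      have htop : F = ⊤ := by
        rw [eq_top_iff]
        intro x _
        obtain ⟨a, b, -, rfl⟩ := IsFractionRing.div_surjective (A := h.alg) x
        exact div_mem (hA a) (hA b)
      rw [htop] at hfinF
      exact Module.Finite.equiv (IntermediateField.topEquiv
        (F := IntermediateField.adjoin K {algebraMap h.alg (FractionRing h.alg) ℓA})
        (E := FractionRing h.alg)).toLinearEquiv
    · exact ⟨ℓA, rfl⟩
    · rintro b ⟨a, rfl⟩
      refine ⟨h.dA a, ?_⟩
      exact (hD a).symm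
    · rintro b ⟨a, rfl⟩
      exact hint a
    · intro x
      obtain ⟨a, b, hb, rfl⟩ := IsFractionRing.div_surjective (A := h.alg) x
      refine ⟨algebraMap h.alg (FractionRing h.alg) a, ⟨a, rfl⟩,
        algebraMap h.alg (FractionRing h.alg) b, ⟨b, rfl⟩, ?_, rfl⟩
      intro hcon
      have := hinj (hcon.trans (map_zero _).symm)
      exact nonZeroDivisors.ne_zero hb this
  · intro c hc
    obtain ⟨a, b, hb, rfl⟩ := IsFractionRing.div_surjective (A := h.alg) c
    have hb0 : b ≠ 0 := nonZeroDivisors.ne_zero hb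
    have hbL : algebraMap h.alg (FractionRing h.alg) b ≠ 0 := fun hcon =>
      hb0 (hinj (hcon.trans (map_zero _).symm))
    have h1 : D (algebraMap h.alg (FractionRing h.alg) a) =
        (algebraMap h.alg (FractionRing h.alg) a / algebraMap h.alg (FractionRing h.alg) b) *
          D (algebraMap h.alg (FractionRing h.alg) b) := by
      have h2 : algebraMap h.alg (FractionRing h.alg) a =
          (algebraMap h.alg (FractionRing h.alg) a / algebraMap h.alg (FractionRing h.alg) b) *
            algebraMap h.alg (FractionRing h.alg) b := by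
        rw [div_mul_cancel₀ _ hbL]
      conv_lhs => rw [h2]
      rw [D.map_mul, hc, zero_mul, zero_add]
    have h3 : algebraMap h.alg (FractionRing h.alg) (b * h.dA a) =
        algebraMap h.alg (FractionRing h.alg) (a * h.dA b) := by
      rw [map_mul, map_mul, ← hD, ← hD, h1]
      field_simp
    have h4 := congrArg (Subtype.val) (hinj h3)
    rw [Subalgebra.coe_mul, Subalgebra.coe_mul, h.coe_dA, h.coe_dA] at h4
    obtain ⟨c0, hc0⟩ := const_of_del (a : K⟦X⟧) (b : K⟦X⟧)
      (fun hcon => hb0 (Subtype.ext hcon)) h4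
    refine ⟨c0, ?_⟩
    have h5 : a = algebraMap K h.alg c0 * b := by
      apply Subtype.ext
      rw [hc0]
      rfl
    rw [div_eq_iff hbL]
    conv_lhs => rw [h5]
    rw [map_mul, ← IsScalarTower.algebraMap_apply]

end Pool.Agent.H85.OU

end S_OU_NAs

section S_OU_ZB

/-!
# Row ZB (project OU): the base of the tower

`LD K r e`, `A = h.alg`, `c0` the constant of `LD.bounds`.  Define `Z : ZD K A`: `ev` = inclusion, `d = h.dA`, and
`B n 0 y` := `y` is (the image of) an integer; `B n (e+1) y` := `y ∈ SPn K e (n + c0 (2 e + 1))` (so for `e' ≥ 1`: bound `n + c0 (2 e' - 1)`).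
* `B_mono`: from `0` to `e' ≥ 1`: an integer `m = m · 1 ∈ SPn c0` (`bounds`), `c0 ≤ n + c0 (2e' - 1)`.
* `B_add`, `B_neg`: clear.
* `B_mul`: `e = e' = 0` clear; integer times element: clear (`MPg_evl_mul` with a constant polynomial); `e, e' ≥ 1`: `SPn a · SPn b ⊆ SPn (a + b + c0)` and
  `(n + c0(2e-1)) + (n' + c0(2e'-1)) + c0 = (n + n') + c0 (2(e+e') - 1)`.
* `B_d` with `c = c0 + 1`: integers have derivative `0`; `MPg_del`: `SPn a → SPn (a + c0 + 1)`, `n + c0(2e-1) + c0 + 1 ≤ (n + c0 + 1) + c0 (2(e + c0 + 1) - 1)`.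
* `Zest` at `e`: an element `0 ≠ y` with `B n e y` lies in `SPn (N)`, `N = n + c0(2e+1)` (also for `e = 0`), so `IsDeg (N + c0) y` (`IsDeg.of_SPn`), and by `order_le`
  some coefficient `l ≤ (N + c0) r ≤ C (n+1)` is nonzero, `C = (1 + c0 (2e+2)) r`.
* every `y ∈ A` lies in some `SPn n`: `B c1 c1` with `c1 = max n 1`.
* `y = P(λ) = P(λ) · 1 ∈ SPn (n + c0)`, which is `B n 1`.
-/

open PowerSeries
open Pool.Agent.H85.OT

namespace Pool.Agent.H85.OU

section aux

variable {K : Type*} [Field K] {r : ℕ} {e : Fin r → K⟦X⟧}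

theorem ZB_int {n : ℕ} {y : K⟦X⟧} (hy : y ∈ SPn K e n) (m : ℤ) : (m : K⟦X⟧) * y ∈ SPn K e n := by
  have h1 := MPg_evl_mul (d := 0) (m : Polynomial K) (Polynomial.natDegree_intCast m).le hy
  rwa [map_intCast, add_zero] at h1

theorem ZB_neg {n : ℕ} {y : K⟦X⟧} (hy : y ∈ SPn K e n) : -y ∈ SPn K e n := by
  have h1 := ZB_int hy (-1)
  have h2 : ((-1 : ℤ) : K⟦X⟧) * y = -y := by
    push_cast
    ring
  rwa [h2] at h1

theorem ZB_mul {a b c : ℕ} (hm : ∀ l l', e l * e l' ∈ SPn K e c) {y z : K⟦X⟧}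
    (hy : y ∈ SPn K e a) (hz : z ∈ SPn K e b) : y * z ∈ SPn K e (a + b + c) := by
  obtain ⟨p, hp, rfl⟩ := hy
  obtain ⟨q, hq, rfl⟩ := hz
  rw [Finset.sum_mul_sum]
  refine MPg_sum _ _ fun l _ => MPg_sum _ _ fun l' _ => ?_
  have e1 : evl K (p l) * e l * (evl K (q l') * e l') =
      evl K (p l * q l') * (e l * e l') := by
    rw [map_mul]
    ring
  rw [e1]
  have h1 : (p l * q l').natDegree ≤ a + b :=
    Polynomial.natDegree_mul_le.trans (Nat.add_le_add (hp l) (hq l'))
  exact MPg_mono (by omega) (MPg_evl_mul (p l * q l') h1 (hm l l'))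

/-- the filtration -/
def ZB_B (h : LD K r e) (c0 n : ℕ) : ℕ → h.alg → Prop
  | 0, y => ∃ m : ℤ, y = (m : h.alg)
  | E + 1, y => (y : K⟦X⟧) ∈ SPn K e (n + c0 * (2 * E + 1))

theorem ZB_B_zero (h : LD K r e) (c0 n : ℕ) (y : h.alg) :
    ZB_B h c0 n 0 y ↔ ∃ m : ℤ, y = (m : h.alg) := Iff.rfl

theorem ZB_B_succ (h : LD K r e) (c0 n E : ℕ) (y : h.alg) :
    ZB_B h c0 n (E + 1) y ↔ (y : K⟦X⟧) ∈ SPn K e (n + c0 * (2 * E + 1)) := Iff.rfl

theorem ZB_coe (h : LD K r e) (m : ℤ) : (((m : h.alg) : h.alg) : K⟦X⟧) = (m : K⟦X⟧) := by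
  push_cast
  rfl

theorem ZB_mono (h : LD K r e) {c0 : ℕ} (h1 : (1 : K⟦X⟧) ∈ SPn K e c0) {n n' E E' : ℕ} {y : h.alg}
    (hn : n ≤ n') (hE : E ≤ E') (hy : ZB_B h c0 n E y) : ZB_B h c0 n' E' y := by
  rcases E with _ | E
  · rcases E' with _ | E'
    · exact hy
    · obtain ⟨m, rfl⟩ := hy
      rw [ZB_B_succ, ZB_coe]
      have h2 := ZB_int h1 m
      rw [mul_one] at h2
      refine MPg_mono ?_ h2
      have : c0 * (2 * E' + 1) = c0 * (2 * E') + c0 := by ring
      omega
  · rcases E' with _ | E'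
    · omega
    · rw [ZB_B_succ] at hy ⊢
      refine MPg_mono ?_ hy
      exact Nat.add_le_add hn (Nat.mul_le_mul_left _ (by omega))

theorem ZB_add (h : LD K r e) {c0 n E : ℕ} {y z : h.alg}
    (hy : ZB_B h c0 n E y) (hz : ZB_B h c0 n E z) : ZB_B h c0 n E (y + z) := by
  rcases E with _ | E
  · obtain ⟨m, rfl⟩ := hy
    obtain ⟨m', rfl⟩ := hz
    exact ⟨m + m', by push_cast; rfl⟩
  · exact MPg_add hy hz

theorem ZB_negB (h : LD K r e) {c0 n E : ℕ} {y : h.alg}
    (hy : ZB_B h c0 n E y) : ZB_B h c0 n E (-y) := by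
  rcases E with _ | E
  · obtain ⟨m, rfl⟩ := hy
    exact ⟨-m, by push_cast; rfl⟩
  · exact ZB_neg hy

theorem ZB_mulB (h : LD K r e) {c0 : ℕ} (hm : ∀ l l', e l * e l' ∈ SPn K e c0) {n n' E E' : ℕ}
    {y z : h.alg} (hy : ZB_B h c0 n E y) (hz : ZB_B h c0 n' E' z) :
    ZB_B h c0 (n + n') (E + E') (y * z) := by
  rcases E with _ | E
  · obtain ⟨m, rfl⟩ := hy
    rcases E' with _ | E'
    · obtain ⟨m', rfl⟩ := hz
      exact ⟨m * m', by push_cast; rfl⟩
    · rw [Nat.zero_add, ZB_B_succ]
      rw [ZB_B_succ] at hz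
      have h2 := ZB_int hz m
      have h3 : ((((m : h.alg) * z : h.alg)) : K⟦X⟧) = (m : K⟦X⟧) * (z : K⟦X⟧) := by
        rw [← ZB_coe h m]
        rfl
      rw [h3]
      exact MPg_mono (by omega) h2
  · rcases E' with _ | E'
    · obtain ⟨m, rfl⟩ := hz
      rw [Nat.add_zero, ZB_B_succ]
      rw [ZB_B_succ] at hy
      have h2 := ZB_int hy m
      have h3 : (((y * (m : h.alg) : h.alg)) : K⟦X⟧) = (m : K⟦X⟧) * (y : K⟦X⟧) := by
        rw [← ZB_coe h m, mul_comm]
        rfl
      rw [h3]
      exact MPg_mono (by omega) h2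
    · rw [ZB_B_succ] at hy hz
      have e1 : E + 1 + (E' + 1) = (E + E' + 1) + 1 := by omega
      rw [e1, ZB_B_succ]
      have h2 := ZB_mul hm hy hz
      refine MPg_mono ?_ h2
      have e2 : c0 * (2 * (E + E' + 1) + 1) = c0 * (2 * E + 1) + c0 * (2 * E' + 1) + c0 := by ring
      omega

theorem ZB_dB [CharZero K] (h : LD K r e) {c0 : ℕ} (h1 : (1 : K⟦X⟧) ∈ SPn K e c0)
    (hd : ∀ l, OT.del K (e l) ∈ SPn K e c0) {n E : ℕ}
    {y : h.alg} (hy : ZB_B h c0 n E y) : ZB_B h c0 (n + (c0 + 1)) (E + (c0 + 1)) (h.dA y) := by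
  rcases E with _ | E
  · obtain ⟨m, rfl⟩ := hy
    have h2 : h.dA (m : h.alg) = 0 := by
      apply Subtype.ext
      rw [LD.coe_dA, ZB_coe, ← map_intCast (evl K) m, MPg_del_evl two_ne_zero,
        Polynomial.derivative_intCast, mul_zero, map_zero]
      rfl
    rw [h2]
    refine ZB_mono h h1 (Nat.zero_le _) (Nat.zero_le _) (?_ : ZB_B h c0 0 0 0)
    exact ⟨0, by push_cast; rfl⟩
  · rw [ZB_B_succ] at hy
    have e1 : E + 1 + (c0 + 1) = (E + c0 + 1) + 1 := by omega
    rw [e1, ZB_B_succ, LD.coe_dA]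
    refine MPg_mono ?_ (MPg_del two_ne_zero hd hy)
    have e2 : c0 * (2 * (E + c0 + 1) + 1) = c0 * (2 * E + 1) + c0 * (2 * (c0 + 1)) := by ring
    omega

end aux

theorem exists_ZB {K : Type*} [Field K] [CharZero K] {r : ℕ} {e : Fin r → K⟦X⟧}
    (h : LD K r e) :
    ∃ Z : ZD K h.alg, Z.Zest ∧ Z.d = h.dA ∧ (∀ y : h.alg, Z.ev y = (y : K⟦X⟧)) ∧
      (∀ y : h.alg, ∃ c1 : ℕ, Z.B c1 c1 y) ∧
      ∀ (n : ℕ) (P : Polynomial K) (y : h.alg), P.natDegree ≤ n → (y : K⟦X⟧) = evl K P →
        Z.B n 1 y := by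
  obtain ⟨c0, h1, hm, hd, hdeg⟩ := h.bounds
  refine ⟨{
    ev := h.alg.val.toRingHom
    d := h.dA
    ev_d := fun _ => rfl
    B := ZB_B h c0
    c := c0 + 1
    B_mono := fun hn hE hy => ZB_mono h h1 hn hE hy
    B_zero := ⟨0, by push_cast; rfl⟩
    B_one := ⟨1, by push_cast; rfl⟩
    B_add := fun hy hz => ZB_add h hy hz
    B_neg := fun hy => ZB_negB h hy
    B_mul := fun hy hz => ZB_mulB h hm hy hz
    B_d := fun hy => ZB_dB h h1 hd hy }, ?_, rfl, fun _ => rfl, ?_, ?_⟩
  · intro E
    refine ⟨(1 + c0 * (2 * E + 2)) * r, fun n y hy hy0 => ?_⟩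
    have h2 : ZB_B h c0 n (E + 1) y := ZB_mono h h1 le_rfl (Nat.le_succ E) hy
    rw [ZB_B_succ] at h2
    have h3 : (y : K⟦X⟧) ≠ 0 := fun h0 => hy0 (Subtype.ext h0)
    obtain ⟨l, hl, hc⟩ := order_le two_ne_zero h.one h.mul h3 (MPg_SP h2) (IsDeg.of_SPn hdeg h2)
    refine ⟨l, hl.trans ?_, hc⟩
    have e1 : (1 + c0 * (2 * E + 2)) * r * (n + 1) = (1 + c0 * (2 * E + 2)) * (n + 1) * r := by ring
    rw [e1]
    refine Nat.mul_le_mul_right _ ?_
    have e2 : (1 + c0 * (2 * E + 2)) * (n + 1) =
        n + c0 * (2 * E + 1) + c0 + 1 + n * (c0 * (2 * E + 2)) := by ring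
    omega
  · intro y
    obtain ⟨n, hn⟩ := MPg_SP' (h.mem_alg.1 y.2)
    refine ⟨n + 1, ?_⟩
    show ZB_B h c0 (n + 1) (n + 1) y
    rw [ZB_B_succ]
    exact MPg_mono (by omega) hn
  · intro n P y hP hy
    show ZB_B h c0 n (0 + 1) y
    rw [ZB_B_succ, hy]
    have h2 := MPg_evl_mul P hP h1
    rw [mul_one] at h2
    exact MPg_mono (by omega) h2

end Pool.Agent.H85.OU

end S_OU_ZB
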