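import Mathlib
import Pool.Agent.H85.OM.M03

/-! First slopes of modular forms, part M04: this file joins several modules to save build time. -/

section S_OU_DVb

/-!
# Row DVB (project OU): calculus of `DVal`

`V.ge j x` : `x = 0 ∨ j ≤ v x`.  Elementary.
* `v(-x) = v(x)`: `-1 = algebraMap (-1)`.
* `add_eq`: if `x ≠ 0` and `v(y) > v(x)` (or `y = 0`) then `x + y ≠ 0` and `v(x+y) = v(x)`: `x + y = 0` gives `y = -x`, `v y = v x`; `≥` by `add`;
  `x = (x+y) + (-y)` gives `v x ≥ min (v (x+y)) (v y)`, so `v x ≥ v (x+y)`.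
* `of_intOver`: `s` with `v(s) ≥ 0` and `x` integral over `K[s]`: `x^r + ∑ P_m(s) x^(r-m) = 0`, `v(P_m(s)) ≥ 0`; if `v(x) < 0` then `v(x^r) = r v(x)` is smaller
  than the valuations of all other terms, contradiction with the sum being `0`.
-/

open Pool.Agent.H85.OT

namespace Pool.Agent.H85.OU

variable {K L : Type*} [Field K] [Field L] [Algebra K L] (V : DVal K L)

namespace DVal

theorem v_one : V.v 1 = 0 := by
  have h := V.const 1 one_ne_zero
  rwa [map_one] at h

theorem v_neg (x : L) : V.v (-x) = V.v x ∨ x = 0 := by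
  by_cases hx : x = 0
  · exact Or.inr hx
  · left
    have h1 : (-x) = algebraMap K L (-1) * x := by
      rw [map_neg, map_one]
      ring
    have h2 : algebraMap K L (-1) ≠ 0 := by
      rw [map_neg, map_one]
      simp
    rw [h1, V.mul _ _ h2 hx, V.const (-1) (by simp), zero_add]

theorem v_inv (x : L) (hx : x ≠ 0) : V.v x⁻¹ = -V.v x := by
  have h1 := V.mul x x⁻¹ hx (inv_ne_zero hx)
  rw [mul_inv_cancel₀ hx, v_one] at h1
  linarith

theorem v_div (x y : L) (hx : x ≠ 0) (hy : y ≠ 0) : V.v (x / y) = V.v x - V.v y := by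
  rw [div_eq_mul_inv, V.mul _ _ hx (inv_ne_zero hy), v_inv V y hy]
  ring

theorem v_pow (x : L) (hx : x ≠ 0) (n : ℕ) : V.v (x ^ n) = n * V.v x := by
  induction n with
  | zero => simp [v_one]
  | succ n ih =>
    rw [pow_succ, V.mul _ _ (pow_ne_zero _ hx) hx, ih]
    push_cast
    ring

theorem v_zpow (x : L) (hx : x ≠ 0) (n : ℤ) : V.v (x ^ n) = n * V.v x := by
  rcases n with n | n
  · rw [Int.ofNat_eq_natCast, zpow_natCast, v_pow V x hx]
  · rw [zpow_negSucc, v_inv V _ (pow_ne_zero _ hx), v_pow V x hx, Int.negSucc_eq]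
    push_cast
    ring

theorem ge_zero (j : ℤ) : V.ge j 0 := Or.inl rfl

theorem ge_self (x : L) : V.ge (V.v x) x := Or.inr le_rfl

theorem ge_mono {i j : ℤ} (h : i ≤ j) {x : L} (hx : V.ge j x) : V.ge i x := by
  rcases hx with hx | hx
  · exact Or.inl hx
  · exact Or.inr (h.trans hx)

theorem ge_neg {j : ℤ} {x : L} (hx : V.ge j x) : V.ge j (-x) := by
  rcases hx with hx | hx
  · left
    rw [hx, neg_zero]
  · rcases v_neg V x with h | h
    · right
      rw [h]
      exact hx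
    · left
      rw [h, neg_zero]

theorem ge_add {j : ℤ} {x y : L} (hx : V.ge j x) (hy : V.ge j y) : V.ge j (x + y) := by
  by_cases hx0 : x = 0
  · rw [hx0, zero_add]
    exact hy
  by_cases hy0 : y = 0
  · rw [hy0, add_zero]
    exact hx
  by_cases hxy : x + y = 0
  · exact Or.inl hxy
  · right
    have h1 := hx.resolve_left hx0
    have h2 := hy.resolve_left hy0
    exact (le_min h1 h2).trans (V.add x y hx0 hy0 hxy)

theorem ge_sub {j : ℤ} {x y : L} (hx : V.ge j x) (hy : V.ge j y) : V.ge j (x - y) := by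
  rw [sub_eq_add_neg]
  exact ge_add V hx (ge_neg V hy)

theorem ge_mul {i j : ℤ} {x y : L} (hx : V.ge i x) (hy : V.ge j y) : V.ge (i + j) (x * y) := by
  by_cases hx0 : x = 0
  · left
    rw [hx0, zero_mul]
  by_cases hy0 : y = 0
  · left
    rw [hy0, mul_zero]
  · right
    rw [V.mul x y hx0 hy0]
    exact add_le_add (hx.resolve_left hx0) (hy.resolve_left hy0)

theorem ge_const (c : K) : V.ge 0 (algebraMap K L c) := by
  by_cases hc : c = 0
  · left
    rw [hc, map_zero]
  · right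
    rw [V.const c hc]

theorem ge_natCast (n : ℕ) : V.ge 0 (n : L) := by
  have h := ge_const V (n : K)
  rwa [map_natCast] at h

theorem ge_intCast (n : ℤ) : V.ge 0 (n : L) := by
  have h := ge_const V (n : K)
  rwa [map_intCast] at h

theorem ge_sum {ι : Type*} (s : Finset ι) (f : ι → L) {j : ℤ} (h : ∀ i ∈ s, V.ge j (f i)) :
    V.ge j (∑ i ∈ s, f i) := by
  classical
  induction s using Finset.induction_on with
  | empty =>
    rw [Finset.sum_empty]
    exact ge_zero V j
  | insert a s ha ih =>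
    rw [Finset.sum_insert ha]
    exact ge_add V (h a (Finset.mem_insert_self a s)) (ih fun i hi => h i (Finset.mem_insert_of_mem hi))

theorem v_natCast [CharZero K] (n : ℕ) (hn : n ≠ 0) : V.v (n : L) = 0 := by
  have h := V.const (n : K) (by exact_mod_cast hn)
  rwa [map_natCast] at h

theorem v_intCast [CharZero K] (n : ℤ) (hn : n ≠ 0) : V.v (n : L) = 0 := by
  have h := V.const (n : K) (by exact_mod_cast hn)
  rwa [map_intCast] at h

/-- a constant in the maximal ideal is zero -/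
theorem const_eq_zero {c : K} (h : V.ge 1 (algebraMap K L c)) : c = 0 := by
  by_contra hc
  rcases h with h | h
  · exact hc ((map_eq_zero _).mp h)
  · rw [V.const c hc] at h
    omega

/-- strict triangle inequality -/
theorem add_eq {x y : L} (hx : x ≠ 0) (hy : V.ge (V.v x + 1) y) :
    x + y ≠ 0 ∧ V.v (x + y) = V.v x := by
  by_cases hy0 : y = 0
  · rw [hy0, add_zero]
    exact ⟨hx, rfl⟩
  have h1 := hy.resolve_left hy0
  have h2 : V.v (-y) = V.v y := (v_neg V y).resolve_right hy0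
  have h3 : x + y ≠ 0 := by
    intro h
    have h4 : x = -y := eq_neg_of_add_eq_zero_left h
    rw [h4, h2] at h1
    omega
  refine ⟨h3, le_antisymm ?_ ?_⟩
  · have h4 : (x + y) + (-y) = x := by ring
    have h5 := V.add (x + y) (-y) h3 (neg_ne_zero.mpr hy0) (by rw [h4]; exact hx)
    rw [h4, h2] at h5
    rcases min_le_iff.mp h5 with h6 | h6
    · exact h6
    · omega
  · have h5 := V.add x y hx hy0 h3
    rw [min_eq_left (by omega)] at h5
    exact h5

/-- decomposition: `v x ≥ 0` implies `x = c + y` with `c ∈ K`, `v y ≥ 1` -/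
theorem exists_const {x : L} (hx : V.ge 0 x) : ∃ c : K, V.ge 1 (x - algebraMap K L c) := by
  by_cases hx0 : x = 0
  · refine ⟨0, ?_⟩
    rw [hx0, map_zero, sub_zero]
    exact ge_zero V 1
  have h1 := hx.resolve_left hx0
  by_cases h2 : V.v x = 0
  · obtain ⟨c, hc⟩ := V.res x hx0 h2
    refine ⟨c, ?_⟩
    rcases hc with hc | hc
    · left
      rw [← hc, sub_self]
    · right
      omega
  · refine ⟨0, Or.inr ?_⟩
    rw [map_zero, sub_zero]
    omega

theorem ge_pow {s : L} (hs : V.ge 0 s) (n : ℕ) : V.ge 0 (s ^ n) := by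
  induction n with
  | zero =>
    rw [pow_zero]
    have h := ge_natCast V 1
    rwa [Nat.cast_one] at h
  | succ n ih =>
    rw [pow_succ]
    have h := ge_mul V ih hs
    rwa [add_zero] at h

theorem ge_aeval {s : L} (hs : V.ge 0 s) (P : Polynomial K) : V.ge 0 (Polynomial.aeval s P) := by
  rw [Polynomial.aeval_eq_sum_range]
  refine ge_sum V _ _ fun i _ => ?_
  rw [Algebra.smul_def]
  have h := ge_mul V (ge_const V (P.coeff i)) (ge_pow V hs i)
  rwa [add_zero] at h

theorem of_intOver {s : L} (hs : V.ge 0 s) {x : L} (hx : IntOver K s x) : V.ge 0 x := by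
  by_contra hcon
  have hx0 : x ≠ 0 := fun h => hcon (Or.inl h)
  have hv : V.v x < 0 := by
    by_contra h
    exact hcon (Or.inr (not_lt.mp h))
  obtain ⟨p, hp, he⟩ := hx
  rw [Polynomial.eval₂_eq_sum_range, Finset.sum_range_succ, hp.coeff_natDegree, map_one, one_mul, add_comm] at he
  have hxr : x ^ p.natDegree ≠ 0 := pow_ne_zero _ hx0
  refine (add_eq V hxr ?_).1 he
  refine ge_sum V _ _ fun i hi => ?_
  rw [Finset.mem_range] at hi
  have h1 : V.ge 0 (((Polynomial.aeval s : Polynomial K →ₐ[K] L) : Polynomial K →+* L) (p.coeff i)) :=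
    ge_aeval V hs (p.coeff i)
  have h2 := ge_mul V h1 (ge_self V (x ^ i))
  refine ge_mono V ?_ h2
  rw [v_pow V x hx0, v_pow V x hx0, zero_add]
  have h3 : (i : ℤ) + 1 ≤ (p.natDegree : ℤ) := by exact_mod_cast hi
  nlinarith

end DVal

end Pool.Agent.H85.OU

end S_OU_DVb

section S_OU_DVp

/-!
# Row DVP (project OU): places of a function field

`K` algebraically closed of characteristic `0`, `s ∈ L` transcendental over `K`, `L` finite over `K(s)`.  Let `L` be a `K[X]`-algebra through `X ↦ s`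
(`(Polynomial.aeval s).toRingHom.toAlgebra`, injective by `htr`), `B = integralClosure (Polynomial K) L`.  `K(s) = IntermediateField.adjoin K {s}` is a fraction field of
`K[X]` (or use `FractionRing (Polynomial K)` / `RatFunc K` mapping onto it); `L` is finite and separable over it, so `B` is a Dedekind domain
(`integralClosure.isDedekindDomain`), finitely generated as a `K[X]`-module (`IsIntegralClosure.finite` / `IsIntegralClosure.isNoetherian`), `Frac B = L`
(`integralClosure.isFractionRing_of_finite_extension`).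
`I = IsDedekindDomain.HeightOneSpectrum B`, `v_P x = ` additive version of `P.valuation L x` (for `x ≠ 0`: `- (WithZero.unzero ..).toAdd`, or
`-(WithZero.log (P.valuation L x))`).
* `mul`, `add`: properties of the valuation; `unif`: `valuation_exists_uniformizer`; `const`: a nonzero constant is a unit of `B`.
* residue field `K`: `B/P` is a field, integral over `K[X]/(P ∩ K[X])`; `P ∩ K[X]` is a maximal ideal of `K[X]` (nonzero because `B` is integral over `K[X]`), generated by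
  `X - λ0` as `K` is algebraically closed.  So `B/P` is algebraic over `K` and `K → B/P` is surjective.  `x ∈ L` with `v(x) = 0`: `x = b/c` with `b, c ∈ B`, `c ∉ P`
  (see below), `b ≡ β`, `c ≡ γ ≠ 0 mod P`, so `x - β/γ = (γ b - β c)/(γ c)` has `v > 0` or is `0`.
* localization: `v(x) ≥ 0` implies `x = b/c` with `b, c ∈ B`, `c ∉ P`.  (`x = b'/c'`; choose `c'' ∈ B` with `v_P(c'') = -...`: e.g. the ideal quotient
  `{c ∈ B : c x ∈ B}` is not contained in `P`: otherwise localize at `P`: `B_P` is a discrete valuation ring with fraction field `L` and valuation ring `{v ≥ 0}`; or by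
  the Chinese remainder theorem choose `c ∉ P` divisible enough by the other primes dividing `c'` and with `c x` integral, using
  `HeightOneSpectrum.mem_integers_of_valuation_le_one`.  Maybe there is a Mathlib lemma on `IsLocalization.AtPrime` and `valuation` / `valuationSubring`.)
* first claim: elements integral over `K[s]` lie in `B`, so `v ≥ 0` (`valuation_le_one`).  Second claim: `mem_integers_of_valuation_le_one`.
* continuity: `D` a derivation of `L` with `D(K) = 0`; `b_1, .., b_n` generators of `B` over `K[X]`.  Choose `0 ≠ h ∈ B` with `h Ds ∈ B`, `h Db_i ∈ B` (`Frac B = L`).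
  Then `h D(B) ⊆ B` (`D(∑ p_i(s) b_i) = ∑ p_i'(s) Ds b_i + p_i(s) Db_i`).  For `x = b/c`, `c ∉ P`: `Dx = Db/c - b Dc/c²`, so `v(Dx) ≥ -v(h)`; `N = v(h)`.
(The three claims may be proved in separate lemmas.)
-/

open Pool.Agent.H85.OT

namespace Pool.Agent.H85.OU

section gen

open IsDedekindDomain

variable {K L B : Type} [Field K] [Field L] [Algebra K L] [CommRing B] [IsDedekindDomain B]
  [Algebra K B] [Algebra B L] [IsScalarTower K B L] [IsFractionRing B L]

/-- the valuation of a prime of a Dedekind domain with residue field `K` -/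
noncomputable def DVp_V (P : HeightOneSpectrum B)
    (hres : ∀ b : B, ∃ c : K, b - algebraMap K B c ∈ P.asIdeal) : DVal K L where
  v x := - WithZero.log (P.valuation L x)
  mul x y hx hy := by
    rw [map_mul, WithZero.log_mul ((Valuation.ne_zero_iff _).2 hx)
      ((Valuation.ne_zero_iff _).2 hy)]
    ring
  add x y hx hy hxy := by
    have h := (P.valuation L).map_add x y
    have hx' := (Valuation.ne_zero_iff (P.valuation L)).2 hx
    have hy' := (Valuation.ne_zero_iff (P.valuation L)).2 hy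
    have hxy' := (Valuation.ne_zero_iff (P.valuation L)).2 hxy
    rcases le_max_iff.1 h with h1 | h1
    · have h2 := (WithZero.log_le_log hxy' hx').2 h1
      exact (min_le_left _ _).trans (by linarith)
    · have h2 := (WithZero.log_le_log hxy' hy').2 h1
      exact (min_le_right _ _).trans (by linarith)
  const c hc := by
    have h1 : algebraMap K L c = algebraMap B L (algebraMap K B c) :=
      IsScalarTower.algebraMap_apply K B L c
    have h2 : algebraMap K B c ∉ P.asIdeal := by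
      intro h3
      have h4 : (1 : B) ∈ P.asIdeal := by
        have h5 : algebraMap K B c⁻¹ * algebraMap K B c = 1 := by
          rw [← map_mul, inv_mul_cancel₀ hc, map_one]
        rw [← h5]
        exact Ideal.mul_mem_left _ _ h3
      exact P.isPrime.ne_top ((Ideal.eq_top_iff_one _).2 h4)
    rw [h1, (P.valuation_eq_one_iff_notMem).2 h2, WithZero.log_one, neg_zero]
  res x hx hv := by
    have hx' := (Valuation.ne_zero_iff (P.valuation L)).2 hx
    have h1 : P.valuation L x ≤ 1 := by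
      rw [← WithZero.log_le_log hx' one_ne_zero, WithZero.log_one]
      linarith
    obtain ⟨a, ha⟩ := P.exists_valuation_sub_lt_of_integer h1 1
    rw [Units.val_one] at ha
    obtain ⟨c, hc⟩ := hres a
    refine ⟨c, ?_⟩
    by_cases hxc : x = algebraMap K L c
    · exact Or.inl hxc
    right
    have h2 : P.valuation L (algebraMap B L (a - algebraMap K B c)) < 1 :=
      (HeightOneSpectrum.valuation_lt_one_iff_mem P _).2 hc
    have h3 : x - algebraMap K L c = algebraMap B L (a - algebraMap K B c) - (algebraMap B L a - x) := by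
      rw [map_sub, ← IsScalarTower.algebraMap_apply K B L c]
      ring
    have h4 : P.valuation L (x - algebraMap K L c) < 1 := by
      rw [h3]
      exact lt_of_le_of_lt (Valuation.map_sub _ _ _) (max_lt h2 ha)
    have h5 := (Valuation.ne_zero_iff (P.valuation L)).2 (sub_ne_zero.2 hxc)
    rw [← WithZero.log_lt_log h5 one_ne_zero, WithZero.log_one] at h4
    linarith
  unif := by
    obtain ⟨π, hπ⟩ := P.valuation_exists_uniformizer L
    refine ⟨π, ?_, ?_⟩
    · rintro rfl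
      rw [map_zero] at hπ
      exact WithZero.exp_ne_zero hπ.symm
    · rw [hπ, WithZero.log_exp]
      ring

theorem DVp_ge (P : HeightOneSpectrum B)
    (hres : ∀ b : B, ∃ c : K, b - algebraMap K B c ∈ P.asIdeal) (x : L) :
    (DVp_V (L := L) P hres).ge 0 x ↔ P.valuation L x ≤ 1 := by
  by_cases hx : x = 0
  · subst hx
    rw [map_zero]
    exact ⟨fun _ => zero_le_one, fun _ => Or.inl rfl⟩
  · have hx' := (Valuation.ne_zero_iff (P.valuation L)).2 hx
    rw [← WithZero.log_le_log hx' one_ne_zero, WithZero.log_one]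
    constructor
    · rintro (h | h)
      · exact absurd h hx
      · have h' : (0 : ℤ) ≤ - WithZero.log (P.valuation L x) := h
        linarith
    · intro h
      right
      show (0 : ℤ) ≤ - WithZero.log (P.valuation L x)
      linarith

theorem DVp_cont (P : HeightOneSpectrum B)
    (hres : ∀ b : B, ∃ c : K, b - algebraMap K B c ∈ P.asIdeal) (D : Dv L) (h : B) (h0 : h ≠ 0)
    (hD : ∀ b : B, ∃ b' : B, algebraMap B L h * D (algebraMap B L b) = algebraMap B L b') :
    ∃ N : ℕ, ∀ x, (DVp_V (L := L) P hres).ge 0 x → (DVp_V (L := L) P hres).ge (-(N : ℤ)) (D x) := by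
  have hL : algebraMap B L h ≠ 0 := by
    intro h1
    exact h0 ((FaithfulSMul.algebraMap_injective B L) (h1.trans (map_zero _).symm))
  have hv := (Valuation.ne_zero_iff (P.valuation L)).2 hL
  have hv1 : WithZero.log (P.valuation L (algebraMap B L h)) ≤ 0 := by
    rw [← WithZero.log_one, WithZero.log_le_log hv one_ne_zero]
    exact P.valuation_le_one h
  refine ⟨(- WithZero.log (P.valuation L (algebraMap B L h))).toNat, ?_⟩
  intro x hx
  rw [Int.toNat_of_nonneg (by linarith)]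
  rw [DVp_ge] at hx
  obtain ⟨n, d, hnd⟩ := P.exists_primeCompl_mul_eq_of_integer x hx
  have hd : P.valuation L (algebraMap B L (d : B)) = 1 :=
    (P.valuation_eq_one_iff_notMem).2 d.2
  have hd0 : algebraMap B L (d : B) ≠ 0 := by
    rw [← Valuation.ne_zero_iff (P.valuation L), hd]
    exact one_ne_zero
  obtain ⟨n', hn'⟩ := hD n
  obtain ⟨d', hd'⟩ := hD d
  have h1 : D (algebraMap B L n) = D x * algebraMap B L (d : B) + x * D (algebraMap B L (d : B)) := by
    rw [← hnd, D.map_mul]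
  have h2 : algebraMap B L h * D x * algebraMap B L (d : B) =
      algebraMap B L n' - x * algebraMap B L d' := by
    rw [← hn', ← hd', h1]
    ring
  have h3 : P.valuation L (algebraMap B L h * D x) ≤ 1 := by
    have h4 : P.valuation L (algebraMap B L h * D x * algebraMap B L (d : B)) =
        P.valuation L (algebraMap B L h * D x) := by
      rw [map_mul, hd, mul_one]
    rw [← h4, h2]
    refine (Valuation.map_sub _ _ _).trans (max_le (P.valuation_le_one n') ?_)
    rw [map_mul]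
    exact mul_le_one' hx (P.valuation_le_one d')
  by_cases hDx : D x = 0
  · exact Or.inl hDx
  right
  show - - WithZero.log (P.valuation L (algebraMap B L h)) ≤ - WithZero.log (P.valuation L (D x))
  have hDx' := (Valuation.ne_zero_iff (P.valuation L)).2 hDx
  rw [map_mul, ← WithZero.log_le_log (mul_ne_zero hv hDx') one_ne_zero, WithZero.log_one,
    WithZero.log_mul hv hDx'] at h3
  linarith

end gen

theorem DVp_der {K L : Type} [Field K] [Field L] [Algebra K L] (D : Dv L)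
    (hD : ∀ c : K, D (algebraMap K L c) = 0) (s : L) (p : Polynomial K) :
    D (Polynomial.aeval s p) = Polynomial.aeval s (Polynomial.derivative p) * D s := by
  have hpow : ∀ n : ℕ, D (s ^ n) = (n : L) * s ^ (n - 1) * D s := by
    intro n
    induction n with
    | zero => rw [pow_zero, D.map_one, Nat.cast_zero, zero_mul, zero_mul]
    | succ n ih =>
      rw [pow_succ, D.map_mul, ih]
      rcases Nat.eq_zero_or_pos n with h | h
      · subst h
        simp
      · obtain ⟨m, rfl⟩ : ∃ m, n = m + 1 := ⟨n - 1, by omega⟩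
        have h1 : m + 1 - 1 = m := by omega
        have h2 : m + 1 + 1 - 1 = m + 1 := by omega
        rw [h1, h2]
        push_cast
        ring
  induction p using Polynomial.induction_on' with
  | add p q hp hq => rw [map_add, D.map_add, hp, hq, map_add, map_add, add_mul]
  | monomial n c =>
    rw [Polynomial.aeval_monomial, D.map_mul, hD, zero_mul, zero_add, hpow,
      Polynomial.derivative_monomial, Polynomial.aeval_monomial, map_mul, map_natCast]
    ring

theorem DVp_res {K B : Type} [Field K] [IsAlgClosed K] [CommRing B] [Algebra K B]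
    [Algebra (Polynomial K) B] [IsScalarTower K (Polynomial K) B] [Module.Finite (Polynomial K) B]
    (P : Ideal B) [P.IsMaximal] (b : B) : ∃ c : K, b - algebraMap K B c ∈ P := by
  have : Algebra.FiniteType K B :=
    Algebra.FiniteType.trans (S := Polynomial K) inferInstance inferInstance
  let _ : Field (B ⧸ P) := Ideal.Quotient.field P
  have : Algebra.FiniteType K (B ⧸ P) := inferInstance
  have : Module.Finite K (B ⧸ P) := finite_of_finite_type_of_isJacobsonRing K (B ⧸ P)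
  have : Algebra.IsIntegral K (B ⧸ P) := inferInstance
  obtain ⟨c, hc⟩ := (IsAlgClosed.algebraMap_bijective_of_isIntegral (k := K) (K := B ⧸ P)).2
    (Ideal.Quotient.mk P b)
  refine ⟨c, ?_⟩
  rw [← Ideal.Quotient.eq, ← hc]
  rfl

theorem DVp_h {K L B : Type} [Field K] [Field L] [Algebra K L] [CommRing B] [IsDomain B]
    [Algebra (Polynomial K) L] [Algebra (Polynomial K) B] [Algebra B L]
    [IsScalarTower (Polynomial K) B L] [IsFractionRing B L] [Module.Finite (Polynomial K) B]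
    (s : L) (hs : ∀ p : Polynomial K, algebraMap (Polynomial K) L p = Polynomial.aeval s p)
    (D : Dv L) (hD : ∀ c : K, D (algebraMap K L c) = 0) :
    ∃ h : B, h ≠ 0 ∧ ∀ b : B, ∃ b' : B,
      algebraMap B L h * D (algebraMap B L b) = algebraMap B L b' := by
  classical
  obtain ⟨S, hS⟩ := (Module.Finite.fg_top : (⊤ : Submodule (Polynomial K) B).FG)
  obtain ⟨h, hh⟩ := IsLocalization.exist_integer_multiples_of_finset (nonZeroDivisors B)
    (insert (D s) (S.image fun b => D (algebraMap B L b)))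
  have hint : ∀ a ∈ insert (D s) (S.image fun b => D (algebraMap B L b)), ∃ b' : B,
      algebraMap B L (h : B) * a = algebraMap B L b' := by
    intro a ha
    obtain ⟨b', hb'⟩ := hh a ha
    refine ⟨b', ?_⟩
    rw [hb', Algebra.smul_def]
  refine ⟨h, nonZeroDivisors.ne_zero h.2, ?_⟩
  intro b
  have hb : b ∈ Submodule.span (Polynomial K) (S : Set B) := by
    rw [hS]
    exact Submodule.mem_top
  induction hb using Submodule.span_induction with
  | mem x hx =>
    exact hint _ (Finset.mem_insert_of_mem (Finset.mem_image_of_mem _ hx))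
  | zero => exact ⟨0, by rw [map_zero, D.map_zero, mul_zero]⟩
  | add x y _ _ hx hy =>
    obtain ⟨x', hx'⟩ := hx
    obtain ⟨y', hy'⟩ := hy
    exact ⟨x' + y', by rw [map_add, D.map_add, mul_add, hx', hy', map_add]⟩
  | smul p x _ hx =>
    obtain ⟨x', hx'⟩ := hx
    obtain ⟨t, ht⟩ := hint (D s) (Finset.mem_insert_self _ _)
    refine ⟨algebraMap (Polynomial K) B (Polynomial.derivative p) * t * x +
      algebraMap (Polynomial K) B p * x', ?_⟩
    have h1 : ∀ q : Polynomial K, algebraMap B L (algebraMap (Polynomial K) B q) =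
        Polynomial.aeval s q := fun q => by
      rw [← IsScalarTower.algebraMap_apply, hs]
    rw [Algebra.smul_def, map_mul, D.map_mul, h1, DVp_der D hD, map_add, map_mul, map_mul, map_mul,
      h1, h1, ← ht, ← hx']
    ring

theorem places {K L : Type} [Field K] [CharZero K] [IsAlgClosed K] [Field L] [Algebra K L]
    (s : L) (htr : ∀ P : Polynomial K, P ≠ 0 → Polynomial.aeval s P ≠ 0)
    (hfin : FiniteDimensional (IntermediateField.adjoin K {s}) L) :
    ∃ (I : Type) (V : I → DVal K L),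
      (∀ i x, IntOver K s x → (V i).ge 0 x) ∧
      (∀ x, (∀ i, (V i).ge 0 x) → IntOver K s x) ∧
      (∀ i (D : Dv L), (∀ c : K, D (algebraMap K L c) = 0) →
        ∃ N : ℕ, ∀ x, (V i).ge 0 x → (V i).ge (-(N : ℤ)) (D x)) := by
  obtain ⟨F, hF⟩ : ∃ F : IntermediateField K L, F = IntermediateField.adjoin K {s} := ⟨_, rfl⟩
  rw [← hF] at hfin
  have hsF : s ∈ F := by
    rw [hF]
    exact IntermediateField.mem_adjoin_simple_self K s
  let iAL : Algebra (Polynomial K) L := (Polynomial.aeval s).toRingHom.toAlgebra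
  let iAF : Algebra (Polynomial K) F := (Polynomial.aeval (⟨s, hsF⟩ : F)).toRingHom.toAlgebra
  have hs : ∀ p : Polynomial K, algebraMap (Polynomial K) L p = Polynomial.aeval s p :=
    fun _ => rfl
  have hsF' : ∀ p : Polynomial K,
      ((algebraMap (Polynomial K) F p : F) : L) = Polynomial.aeval s p := by
    intro p
    show ((Polynomial.aeval (⟨s, hsF⟩ : F) p : F) : L) = Polynomial.aeval s p
    have h := Polynomial.aeval_algebraMap_apply L (⟨s, hsF⟩ : F) p
    exact h.symm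
  have : IsScalarTower (Polynomial K) F L := IsScalarTower.of_algebraMap_eq fun p => by
    rw [hs, ← hsF']
    rfl
  have : IsScalarTower K (Polynomial K) L := IsScalarTower.of_algebraMap_eq fun c => by
    rw [hs, Polynomial.algebraMap_eq, Polynomial.aeval_C]
  have : FaithfulSMul (Polynomial K) F := by
    rw [faithfulSMul_iff_algebraMap_injective, injective_iff_map_eq_zero]
    intro p hp
    by_contra hp0
    apply htr p hp0
    rw [← hsF' p, hp]
    rfl
  have : IsFractionRing (Polynomial K) F := by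
    refine IsFractionRing.of_field (Polynomial K) F fun z => ?_
    have hz : (z : L) ∈ IntermediateField.adjoin K {s} := by
      rw [← hF]
      exact z.2
    obtain ⟨r, t, hrt⟩ := (IntermediateField.mem_adjoin_simple_iff K _).1 hz
    refine ⟨r, t, Subtype.ext ?_⟩
    rw [hrt, ← hsF', ← hsF']
    rfl
  have : CharZero F := charZero_of_injective_algebraMap (algebraMap K F).injective
  have : FiniteDimensional F L := hfin
  have : IsDedekindDomain (integralClosure (Polynomial K) L) :=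
    integralClosure.isDedekindDomain (Polynomial K) F L
  have : IsFractionRing (integralClosure (Polynomial K) L) L :=
    integralClosure.isFractionRing_of_finite_extension F L
  have : Module.Finite (Polynomial K) (integralClosure (Polynomial K) L) :=
    IsIntegralClosure.finite (Polynomial K) F L (integralClosure (Polynomial K) L)
  have hres : ∀ (P : IsDedekindDomain.HeightOneSpectrum (integralClosure (Polynomial K) L))
      (b : integralClosure (Polynomial K) L), ∃ c : K,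
      b - algebraMap K (integralClosure (Polynomial K) L) c ∈ P.asIdeal := fun P b => by
    have := P.isMaximal
    exact DVp_res P.asIdeal b
  refine ⟨IsDedekindDomain.HeightOneSpectrum (integralClosure (Polynomial K) L),
    fun P => DVp_V (L := L) P (hres P), ?_, ?_, ?_⟩
  · intro P x hx
    rw [DVp_ge]
    have h1 : IsIntegral (Polynomial K) x := hx
    exact P.valuation_le_one (⟨x, h1⟩ : integralClosure (Polynomial K) L)
  · intro x hx
    obtain ⟨b, hb⟩ := IsDedekindDomain.HeightOneSpectrum.mem_integers_of_valuation_le_one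
      (R := integralClosure (Polynomial K) L) L x (fun P => (DVp_ge P (hres P) x).1 (hx P))
    have h1 : IsIntegral (Polynomial K) (b : L) := b.2
    rw [← hb]
    exact h1
  · intro P D hD
    obtain ⟨h, h0, hh⟩ := DVp_h (B := integralClosure (Polynomial K) L) s hs D hD
    exact DVp_cont P (hres P) D h h0 hh

end Pool.Agent.H85.OU

end S_OU_DVp

section S_OU_NB1

/-!
# Row NB1 (project OU): poles at ordinary points and at the cusps `0, 1`

`nabs d g κ n a` is defined in `Bol.lean` (recursion `nab d g (-κ + 2n)`), coefficients (by `coeff_dext`):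
`(nab d g w P)_0 = d P_0 + g P_1`, `(nab d g w P)_(j+1) = d P_(j+1) + (j+2) g P_(j+2) - j P_j + w P_j`.
(`dext d (C g - X²) P` has coefficient `j+1` equal to `d P_(j+1) + (j+2) g P_(j+2) - j P_j`.)
`Q_n = nabs d g κ n a`.
* `pole1` (ordinary point: `d` lowers `v(x) ≠ 0` by one, `v(g) ≥ 0`): suppose `v(a) = -m < 0`.  By induction: `(Q_n)_0 ≠ 0`, `v((Q_n)_0) = -m - n` and
  `v((Q_n)_j) ≥ -m - n + j` for all `j ≥ 1` (or zero).  Step: `v(d (Q_n)_0) = -m-n-1`, `v(g (Q_n)_1) ≥ -m-n+1`, so coefficient `0` is fine by `add_eq`; coefficient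
  `j+1`: `v(d (Q_n)_(j+1)) ≥ -m-n+j+1-1` (`h1` if `v ≠ 0`, `h2` if `v = 0`: then `≥ 0 ≥ v - 1`), `v(g (Q_n)_(j+2)) ≥ -m-n+j+2`, `v((Q_n)_j) ≥ -m-n+j`: all
  `≥ -m-(n+1)+(j+1)`.  Hence `v(ψ) = -m-κ-1 < 0`, contradiction.
* `pole2` (`d` preserves `v(x) ≠ 0`, `v(g) ≥ 1`): `v(a) = -m < 0`; by induction `(Q_n)_0 ≠ 0`, `v((Q_n)_0) = -m`, `v((Q_n)_j) ≥ -m` for all `j`; so `v(ψ) = -m < 0`.
-/

open Pool.Agent.H85.OT

namespace Pool.Agent.H85.OU

variable {K L : Type*} [Field K] [CharZero K] [Field L] [Algebra K L] (V : DVal K L)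

private lemma NB1_coeff (d : Dv L) (g : L) (w : ℤ) (P : Polynomial L) (m : ℕ) :
    (nab d g w P).coeff (m + 1) = d (P.coeff (m + 1)) +
      (g * (P.coeff (m + 2) * ((m + 2 : ℕ) : L)) - (m : L) * P.coeff m) + (w : L) * P.coeff m := by
  unfold nab
  rw [Polynomial.coeff_add, coeff_dext, sub_mul, Polynomial.coeff_sub, Polynomial.coeff_C_mul,
    Polynomial.coeff_derivative]
  have h1 : (Polynomial.X ^ 2 * Polynomial.derivative P).coeff (m + 1) = (m : L) * P.coeff m := by
    rw [pow_two, mul_assoc, Polynomial.coeff_X_mul]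
    rcases m with _ | m
    · simp
    · rw [Polynomial.coeff_X_mul, Polynomial.coeff_derivative]
      push_cast; ring
  have h2 : ((w : Polynomial L) * Polynomial.X * P).coeff (m + 1) = (w : L) * P.coeff m := by
    have : ((w : ℤ) : Polynomial L) = Polynomial.C (w : L) := by simp
    rw [this, mul_assoc, Polynomial.coeff_C_mul, Polynomial.coeff_X_mul]
  rw [h1, h2]
  push_cast
  ring_nf

private lemma NB1_coeff0 (d : Dv L) (g : L) (w : ℤ) (P : Polynomial L) :
    (nab d g w P).coeff 0 = d (P.coeff 0) + g * P.coeff 1 := by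
  unfold nab
  rw [Polynomial.coeff_add, coeff_dext, sub_mul, Polynomial.coeff_sub, Polynomial.coeff_C_mul,
    Polynomial.coeff_derivative]
  have h1 : (Polynomial.X ^ 2 * Polynomial.derivative P).coeff 0 = 0 := by
    rw [pow_two, mul_assoc, Polynomial.coeff_X_mul_zero]
  have h2 : ((w : Polynomial L) * Polynomial.X * P).coeff 0 = 0 := by
    rw [mul_comm (w : Polynomial L), mul_assoc, Polynomial.coeff_X_mul_zero]
  rw [h1, h2]
  simp

private lemma NB1_natmul (V : DVal K L) (n : ℕ) {j : ℤ} {x : L} (h : V.ge j x) :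
    V.ge j ((n : L) * x) := by
  have := V.ge_mul (V.ge_natCast n) h
  rwa [zero_add] at this

private lemma NB1_intmul (V : DVal K L) (n : ℤ) {j : ℤ} {x : L} (h : V.ge j x) :
    V.ge j ((n : L) * x) := by
  have := V.ge_mul (V.ge_intCast n) h
  rwa [zero_add] at this

/-- the general step -/
private lemma NB1_step (V : DVal K L) (d : Dv L) (g : L) (w : ℤ) (P : Polynomial L) (e c A : ℤ)
    (hg : V.ge e g)
    (h1 : ∀ x, x ≠ 0 → V.v x ≠ 0 → d x ≠ 0 ∧ V.v (d x) = V.v x - c)
    (h2 : ∀ x, V.ge 0 x → V.ge 0 (d x)) (hc : 0 ≤ c) (he : 1 ≤ e + 2 * c)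
    (hA : A < 0) (h0 : P.coeff 0 ≠ 0) (hv0 : V.v (P.coeff 0) = A)
    (hj : ∀ j : ℕ, V.ge (A + c * j) (P.coeff j)) :
    (nab d g w P).coeff 0 ≠ 0 ∧ V.v ((nab d g w P).coeff 0) = A - c ∧
      ∀ j : ℕ, V.ge (A - c + c * j) ((nab d g w P).coeff j) := by
  have hz : (nab d g w P).coeff 0 ≠ 0 ∧ V.v ((nab d g w P).coeff 0) = A - c := by
    rw [NB1_coeff0]
    obtain ⟨hd0, hdv⟩ := h1 _ h0 (by rw [hv0]; omega)
    have h3 : V.ge (V.v (d (P.coeff 0)) + 1) (g * P.coeff 1) := by
      refine V.ge_mono ?_ (V.ge_mul hg (hj 1))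
      rw [hdv, hv0]
      push_cast
      linarith
    have h4 := V.add_eq hd0 h3
    exact ⟨h4.1, by rw [h4.2, hdv, hv0]⟩
  refine ⟨hz.1, hz.2, ?_⟩
  intro j
  rcases j with _ | j
  · have := V.ge_self ((nab d g w P).coeff 0)
    rw [hz.2] at this
    simpa using this
  · rw [NB1_coeff]
    have hPj := hj j
    have hPj1 := hj (j + 1)
    have hPj2 := hj (j + 2)
    have ea : V.ge (A - c + c * ((j + 1 : ℕ) : ℤ)) (d (P.coeff (j + 1))) := by
      by_cases hx : P.coeff (j + 1) = 0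
      · rw [hx, d.map_zero]
        exact V.ge_zero _
      · have hb : A + c * ((j + 1 : ℕ) : ℤ) ≤ V.v (P.coeff (j + 1)) := by
          rcases hPj1 with h | h
          · exact absurd h hx
          · exact h
        by_cases hv : V.v (P.coeff (j + 1)) = 0
        · have h5 : V.ge 0 (P.coeff (j + 1)) := Or.inr hv.ge
          refine V.ge_mono ?_ (h2 _ h5)
          rw [hv] at hb
          linarith
        · obtain ⟨h6, h7⟩ := h1 _ hx hv
          right
          rw [h7]
          linarith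
    have eb : V.ge (A - c + c * ((j + 1 : ℕ) : ℤ)) (g * (P.coeff (j + 2) * ((j + 2 : ℕ) : L))) := by
      rw [mul_comm (P.coeff (j + 2))]
      refine V.ge_mono ?_ (V.ge_mul hg (NB1_natmul V (j + 2) hPj2))
      push_cast
      nlinarith
    have ec : V.ge (A - c + c * ((j + 1 : ℕ) : ℤ)) ((j : L) * P.coeff j) := by
      refine V.ge_mono ?_ (NB1_natmul V j hPj)
      push_cast
      linarith
    have ed : V.ge (A - c + c * ((j + 1 : ℕ) : ℤ)) ((w : L) * P.coeff j) := by
      refine V.ge_mono ?_ (NB1_intmul V w hPj)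
      push_cast
      linarith
    exact V.ge_add (V.ge_add ea (V.ge_sub eb ec)) ed

private lemma NB1_main (V : DVal K L) (d : Dv L) (g : L) (e c : ℤ) (hg : V.ge e g)
    (h1 : ∀ x, x ≠ 0 → V.v x ≠ 0 → d x ≠ 0 ∧ V.v (d x) = V.v x - c)
    (h2 : ∀ x, V.ge 0 x → V.ge 0 (d x)) (hc : 0 ≤ c) (he : 1 ≤ e + 2 * c)
    (κ : ℕ) (a ψ : L) (hψ : V.ge 0 ψ)
    (hb : nabs d g κ (κ + 1) a = Polynomial.C ψ) : V.ge 0 a := by
  by_contra hcon
  have ha : a ≠ 0 := fun h => hcon (Or.inl h)
  have hv : V.v a < 0 := by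
    by_contra h
    exact hcon (Or.inr (not_lt.mp h))
  have key : ∀ n : ℕ, (nabs d g κ n a).coeff 0 ≠ 0 ∧
      V.v ((nabs d g κ n a).coeff 0) = V.v a - c * n ∧
      ∀ j : ℕ, V.ge (V.v a - c * n + c * j) ((nabs d g κ n a).coeff j) := by
    intro n
    induction n with
    | zero =>
      show (Polynomial.C a).coeff 0 ≠ 0 ∧ V.v ((Polynomial.C a).coeff 0) = V.v a - c * (0 : ℕ) ∧
        ∀ j : ℕ, V.ge (V.v a - c * (0 : ℕ) + c * j) ((Polynomial.C a).coeff j)
      rw [Polynomial.coeff_C_zero]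
      refine ⟨ha, by simp, ?_⟩
      intro j
      rcases j with _ | j
      · rw [Polynomial.coeff_C_zero]
        have := V.ge_self a
        simpa using this
      · rw [Polynomial.coeff_C_succ]
        exact V.ge_zero _
    | succ n ih =>
      obtain ⟨i1, i2, i3⟩ := ih
      have hneg : V.v a - c * n < 0 := by
        have : 0 ≤ c * (n : ℤ) := mul_nonneg hc (Int.natCast_nonneg n)
        linarith
      obtain ⟨s1, s2, s3⟩ := NB1_step V d g (-(κ : ℤ) + 2 * n) (nabs d g κ n a) e c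
        (V.v a - c * n) hg h1 h2 hc he hneg i1 i2 i3
      have hcast : V.v a - c * ((n + 1 : ℕ) : ℤ) = V.v a - c * n - c := by
        push_cast
        ring
      rw [hcast]
      exact ⟨s1, s2, s3⟩
  obtain ⟨k1, k2, -⟩ := key (κ + 1)
  rw [hb, Polynomial.coeff_C_zero] at k1 k2
  rcases hψ with h | h
  · exact k1 h
  · have : 0 ≤ c * ((κ + 1 : ℕ) : ℤ) := mul_nonneg hc (Int.natCast_nonneg _)
    rw [k2] at h
    linarith

theorem pole1 (d : Dv L) (g : L) (hg : V.ge 0 g)
    (h1 : ∀ x, x ≠ 0 → V.v x ≠ 0 → d x ≠ 0 ∧ V.v (d x) = V.v x - 1)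
    (h2 : ∀ x, V.ge 0 x → V.ge 0 (d x)) (κ : ℕ) (a ψ : L) (hψ : V.ge 0 ψ)
    (hb : nabs d g κ (κ + 1) a = Polynomial.C ψ) : V.ge 0 a := by
  refine NB1_main V d g 0 1 hg h1 h2 (by norm_num) (by norm_num) κ a ψ hψ hb

theorem pole2 (d : Dv L) (g : L) (hg : V.ge 1 g)
    (h1 : ∀ x, x ≠ 0 → V.v x ≠ 0 → d x ≠ 0 ∧ V.v (d x) = V.v x)
    (h2 : ∀ x, V.ge 0 x → V.ge 0 (d x)) (κ : ℕ) (a ψ : L) (hψ : V.ge 0 ψ)
    (hb : nabs d g κ (κ + 1) a = Polynomial.C ψ) : V.ge 0 a := by
  refine NB1_main V d g 1 0 hg (fun x hx hv => ?_) h2 (le_refl _) (by norm_num) κ a ψ hψ hb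
  have := h1 x hx hv
  exact ⟨this.1, by rw [this.2, sub_zero]⟩

end Pool.Agent.H85.OU

end S_OU_NB1

section S_OU_NB3

/-!
# Row NB3 (project OU): order at the cusp `ℓ = ∞`

`V` with `v(ℓ) = -e`, `e > 0`, and `dx/(ℓ x) = v(x)/e + m` (`m = {v ≥ 1}`) for all `x ≠ 0`; `g = ℓ(1-ℓ)/4`.  In particular `v(dx) ≥ v(x) - e` (or `dx = 0`).
Let `b = (1-ℓ)/2`, `Q_n = nabs d g κ n a`, and `P_n = Q_n(ζ - b)` (`Polynomial.comp (X - C b)` or `Polynomial.taylor (-b)`), a polynomial in `ζ`.
* Recursion: with `w = -κ + 2n`, `P_(n+1) = mapc d P_n + (-ζ² + (1-ℓ)ζ - (1-ℓ)/4) P_n' + w (ζ - b) P_n`.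
  Proof: `∂ = dext d (C g - X²)`; for any polynomial `Q` and `Q~ = Q(ζ - b)`: `(∂Q)(ζ-b) = mapc d Q~ + (g - (ζ-b)² + db) Q~'` (both sides are derivations in `Q` over the
  ring map `comp (X - C b)`; check on constants and on `X`: `X~ = ζ - b`, `mapc d (ζ - b) = -db`), and `db = -ℓ(1-ℓ)/2`,
  `g - (ζ-b)² - ℓ(1-ℓ)/2 = -ζ² + (1-ℓ)ζ - (1-ℓ)²/4 - ℓ(1-ℓ)/4 = -ζ² + (1-ℓ)ζ - (1-ℓ)/4`.
  (`dℓ = ℓ(1-ℓ)` is assumed.)
* Let `a ≠ 0`, `ν = v(a)`, `p_(n,j)` the coefficient of `ζ^j` in `P_n`.  Coefficients of the recursion: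
  `p_(n+1,0) = d p_(n,0) - ((1-ℓ)/4) p_(n,1) - w b p_(n,0)`,
  `p_(n+1,j+1) = d p_(n,j+1) - j p_(n,j) + (j+1)(1-ℓ) p_(n,j+1) - ((1-ℓ)/4)(j+2) p_(n,j+2) + w p_(n,j) - w b p_(n,j+1)`.
  By induction `v(p_(n,j)) ≥ ν - e(n-j)` (or zero) for all `j`.
* If `2ν ≠ eκ` then by induction `p_(n,0) ≠ 0`, `v(p_(n,0)) = ν - e n`: `d p_(n,0) = ℓ p_(n,0) ((ν - en)/e + m)`, `-w b p_(n,0) = ℓ p_(n,0) (w/2 + m)` (`b = -ℓ/2 + 1/2`, `1/ℓ ∈ m`),
  `((1-ℓ)/4) p_(n,1)` has `v ≥ -e + ν - e(n-1) = ν - en > ν - e(n+1)`; so `p_(n+1,0) = ℓ p_(n,0) ((ν-en)/e + (-κ+2n)/2 + m) = ℓ p_(n,0) ((2ν - eκ)/(2e) + m)`, and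
  `(2ν - eκ)/(2e) ≠ 0` in `K`.
* `P_(κ+1) = C ψ`, so `v(ψ) = ν - e(κ+1)`, and `v(ψ²) ≥ -e(κ+2)` gives `2ν ≥ 2e(κ+1) - e(κ+2) = eκ`.
-/

open Pool.Agent.H85.OT

namespace Pool.Agent.H85.OU

variable {K L : Type*} [Field K] [CharZero K] [Field L] [Algebra K L] (V : DVal K L)

/-- `mapc d` and the substitution `X ↦ X - b` -/
private lemma NB3_mapc {R : Type*} [CommRing R] (d : Dv R) (b : R) (Q : Polynomial R) :
    (mapc d Q).comp (Polynomial.X - Polynomial.C b) =
      mapc d (Q.comp (Polynomial.X - Polynomial.C b)) +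
        Polynomial.C (d b) * Polynomial.derivative (Q.comp (Polynomial.X - Polynomial.C b)) := by
  induction Q using Polynomial.induction_on with
  | C a => simp [mapc_C]
  | add p q hp hq =>
    rw [mapc_add, Polynomial.add_comp, hp, hq, Polynomial.add_comp, mapc_add,
      Polynomial.derivative_add]
    ring
  | monomial n a h =>
    have h1 : mapc d (Polynomial.X - Polynomial.C b) = -Polynomial.C (d b) := by
      rw [sub_eq_add_neg, mapc_add, mapc_X, zero_add]
      ext i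
      rw [coeff_mapc, Polynomial.coeff_neg, d.map_neg, Polynomial.coeff_neg, ← coeff_mapc, mapc_C]
    have h2 : Polynomial.C a * Polynomial.X ^ (n + 1) =
        (Polynomial.C a * Polynomial.X ^ n) * Polynomial.X := by ring
    rw [h2, mapc_mul, mapc_X, mul_zero, add_zero, Polynomial.mul_comp, Polynomial.mul_comp, h,
      Polynomial.X_comp, mapc_mul, h1, Polynomial.derivative_mul]
    simp only [Polynomial.derivative_sub, Polynomial.derivative_X, Polynomial.derivative_C, sub_zero,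
      mul_one]
    ring

/-- the recursion in the variable `ζ` -/
private lemma NB3_rec {L : Type*} [Field L] [CharZero L] (d : Dv L) (ℓ : L) (hℓ : d ℓ = ℓ * (1 - ℓ))
    (w : ℤ) (Q : Polynomial L) :
    (nab d (ℓ * (1 - ℓ) / 4) w Q).comp (Polynomial.X - Polynomial.C ((1 - ℓ) / 2)) =
      mapc d (Q.comp (Polynomial.X - Polynomial.C ((1 - ℓ) / 2))) +
        (Polynomial.C (1 - ℓ) * Polynomial.X - Polynomial.X ^ 2 - Polynomial.C ((1 - ℓ) / 4)) *
          Polynomial.derivative (Q.comp (Polynomial.X - Polynomial.C ((1 - ℓ) / 2))) +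
        Polynomial.C (w : L) * (Polynomial.X - Polynomial.C ((1 - ℓ) / 2)) *
          Q.comp (Polynomial.X - Polynomial.C ((1 - ℓ) / 2)) := by
  have hd2 : d (1 / 2 : L) = 0 := by
    have h1 : d (2 : L) = 0 := by exact_mod_cast d.map_natCast 2
    have h2 : d ((2 : L) * (1 / 2)) = 0 := by
      rw [mul_one_div_cancel (two_ne_zero), d.map_one]
    rw [d.map_mul, h1, zero_mul, zero_add] at h2
    exact (mul_eq_zero.1 h2).resolve_left two_ne_zero
  have hdb : d ((1 - ℓ) / 2) = -(ℓ * (1 - ℓ)) / 2 := by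
    have h1 : (1 - ℓ) / 2 = (1 - ℓ) * (1 / 2) := by ring
    rw [h1, d.map_mul, hd2, mul_zero, add_zero, d.map_sub, d.map_one, hℓ]
    ring
  have hder : Polynomial.derivative (Q.comp (Polynomial.X - Polynomial.C ((1 - ℓ) / 2))) =
      (Polynomial.derivative Q).comp (Polynomial.X - Polynomial.C ((1 - ℓ) / 2)) := by
    rw [Polynomial.derivative_comp]
    simp
  have hw : ((w : ℤ) : Polynomial L) = Polynomial.C (w : L) := (map_intCast (Polynomial.C : L →+* Polynomial L) w).symm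
  unfold nab
  rw [dext_apply, Polynomial.add_comp, Polynomial.add_comp, NB3_mapc, hdb, Polynomial.mul_comp,
    Polynomial.mul_comp, Polynomial.mul_comp, hw, Polynomial.C_comp, Polynomial.X_comp,
    Polynomial.sub_comp, Polynomial.C_comp, Polynomial.pow_comp, Polynomial.X_comp, ← hder]
  have hC : Polynomial.C (-(ℓ * (1 - ℓ)) / 2) + (Polynomial.C (ℓ * (1 - ℓ) / 4) -
      (Polynomial.X - Polynomial.C ((1 - ℓ) / 2)) ^ 2) =
      Polynomial.C (1 - ℓ) * Polynomial.X - Polynomial.X ^ 2 - Polynomial.C ((1 - ℓ) / 4) := by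
    have h1 : (Polynomial.X - Polynomial.C ((1 - ℓ) / 2)) ^ 2 = Polynomial.X ^ 2 -
        Polynomial.C (1 - ℓ) * Polynomial.X + Polynomial.C ((1 - ℓ) ^ 2 / 4) := by
      have h2 : Polynomial.C (1 - ℓ) = Polynomial.C (2 : L) * Polynomial.C ((1 - ℓ) / 2) := by
        rw [← Polynomial.C_mul]; congr 1; field_simp
      have h3 : Polynomial.C ((1 - ℓ) ^ 2 / 4) = Polynomial.C ((1 - ℓ) / 2) ^ 2 := by
        rw [← Polynomial.C_pow]; congr 1; ring
      have h4 : Polynomial.C (2 : L) = 2 := map_ofNat (Polynomial.C : L →+* Polynomial L) 2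
      rw [h2, h3, h4]
      ring
    rw [h1]
    have h5 : Polynomial.C ((1 - ℓ) / 4) = Polynomial.C ((1 - ℓ) ^ 2 / 4) -
        (Polynomial.C (-(ℓ * (1 - ℓ)) / 2) + Polynomial.C (ℓ * (1 - ℓ) / 4)) := by
      rw [← Polynomial.C_add, ← Polynomial.C_sub]; congr 1; ring
    rw [h5]
    ring
  rw [← hC]
  ring

/-- the coefficients of the recursion -/
private lemma NB3_coeff {L : Type*} [Field L] [CharZero L] (d : Dv L) (ℓ : L)
    (w : ℤ) (P : Polynomial L) :
    (mapc d P + (Polynomial.C (1 - ℓ) * Polynomial.X - Polynomial.X ^ 2 - Polynomial.C ((1 - ℓ) / 4)) *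
          Polynomial.derivative P +
        Polynomial.C (w : L) * (Polynomial.X - Polynomial.C ((1 - ℓ) / 2)) * P).coeff 0 =
      d (P.coeff 0) - (1 - ℓ) / 4 * P.coeff 1 - (w : L) * ((1 - ℓ) / 2) * P.coeff 0 ∧
    ∀ j : ℕ, (mapc d P + (Polynomial.C (1 - ℓ) * Polynomial.X - Polynomial.X ^ 2 - Polynomial.C ((1 - ℓ) / 4)) *
          Polynomial.derivative P +
        Polynomial.C (w : L) * (Polynomial.X - Polynomial.C ((1 - ℓ) / 2)) * P).coeff (j + 1) =
      d (P.coeff (j + 1)) - (j : L) * P.coeff j + (1 - ℓ) * (((j + 1 : ℕ) : L) * P.coeff (j + 1)) -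
        (1 - ℓ) / 4 * (((j + 2 : ℕ) : L) * P.coeff (j + 2)) + (w : L) * P.coeff j -
        (w : L) * ((1 - ℓ) / 2) * P.coeff (j + 1) := by
  have e1 : (Polynomial.C (1 - ℓ) * Polynomial.X - Polynomial.X ^ 2 - Polynomial.C ((1 - ℓ) / 4)) *
      Polynomial.derivative P = Polynomial.C (1 - ℓ) * (Polynomial.X * Polynomial.derivative P) -
        Polynomial.X * (Polynomial.X * Polynomial.derivative P) -
        Polynomial.C ((1 - ℓ) / 4) * Polynomial.derivative P := by ring
  have e2 : Polynomial.C (w : L) * (Polynomial.X - Polynomial.C ((1 - ℓ) / 2)) * P =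
      Polynomial.C (w : L) * (Polynomial.X * P) -
        Polynomial.C ((w : L) * ((1 - ℓ) / 2)) * P := by
    rw [Polynomial.C_mul]; ring
  rw [e1, e2]
  constructor
  · rw [Polynomial.coeff_add, Polynomial.coeff_add, Polynomial.coeff_sub, Polynomial.coeff_sub,
      Polynomial.coeff_sub, coeff_mapc, Polynomial.coeff_C_mul, Polynomial.coeff_X_mul_zero,
      Polynomial.coeff_X_mul_zero, Polynomial.coeff_C_mul, Polynomial.coeff_C_mul,
      Polynomial.coeff_X_mul_zero, Polynomial.coeff_C_mul, Polynomial.coeff_derivative]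
    push_cast
    ring
  · intro j
    rw [Polynomial.coeff_add, Polynomial.coeff_add, Polynomial.coeff_sub, Polynomial.coeff_sub,
      Polynomial.coeff_sub, coeff_mapc, Polynomial.coeff_C_mul, Polynomial.coeff_X_mul,
      Polynomial.coeff_X_mul, Polynomial.coeff_C_mul, Polynomial.coeff_C_mul,
      Polynomial.coeff_X_mul, Polynomial.coeff_C_mul, Polynomial.coeff_derivative,
      Polynomial.coeff_derivative]
    have h1 : (Polynomial.X * Polynomial.derivative P).coeff j = (j : L) * P.coeff j := by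
      rcases j with _ | j
      · simp
      · rw [Polynomial.coeff_X_mul, Polynomial.coeff_derivative]
        push_cast; ring
    rw [h1]
    push_cast
    ring

/-- the lower bounds for the coefficients -/
private lemma NB3_low (d : Dv L) (ℓ : L) (e : ℕ) (hone : V.ge (-(e : ℤ)) (1 - ℓ))
    (hdl : ∀ (j : ℤ) (x : L), V.ge j x → V.ge (j - e) (d x))
    (p q : ℕ → L) (ν : ℤ) (n : ℕ) (w : ℤ)
    (h0 : q 0 = d (p 0) - (1 - ℓ) / 4 * p 1 - (w : L) * ((1 - ℓ) / 2) * p 0)
    (h1 : ∀ j : ℕ, q (j + 1) = d (p (j + 1)) - (j : L) * p j + (1 - ℓ) * (((j + 1 : ℕ) : L) * p (j + 1)) -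
        (1 - ℓ) / 4 * (((j + 2 : ℕ) : L) * p (j + 2)) + (w : L) * p j -
        (w : L) * ((1 - ℓ) / 2) * p (j + 1))
    (hp : ∀ j : ℕ, V.ge (ν - e * ((n : ℤ) - j)) (p j)) (j : ℕ) :
    V.ge (ν - e * (((n + 1 : ℕ) : ℤ) - j)) (q j) := by
  have hL : CharZero L := charZero_of_injective_algebraMap (FaithfulSMul.algebraMap_injective K L)
  have h4 : V.ge (-(e : ℤ)) ((1 - ℓ) / 4) := by
    have h := V.ge_mul hone (V.ge_const ((1 : K) / 4))
    have h2 : (1 - ℓ) * algebraMap K L (1 / 4) = (1 - ℓ) / 4 := by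
      rw [map_div₀, map_one, map_ofNat]; ring
    rw [h2, add_zero] at h
    exact h
  have h2 : V.ge (-(e : ℤ)) ((w : L) * ((1 - ℓ) / 2)) := by
    have h := V.ge_mul (V.ge_mul (V.ge_intCast w) hone) (V.ge_const ((1 : K) / 2))
    have h2 : (w : L) * (1 - ℓ) * algebraMap K L (1 / 2) = (w : L) * ((1 - ℓ) / 2) := by
      rw [map_div₀, map_one, map_ofNat]; ring
    rw [h2, add_zero, zero_add] at h
    exact h
  have he : (0 : ℤ) ≤ e := Int.natCast_nonneg e
  rcases j with _ | j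
  · rw [h0]
    have a1 := hdl _ _ (hp 0)
    have a2 := V.ge_mul h4 (hp 1)
    have a3 := V.ge_mul h2 (hp 0)
    refine V.ge_sub (V.ge_sub (V.ge_mono ?_ a1) (V.ge_mono ?_ a2)) (V.ge_mono ?_ a3)
    · push_cast; nlinarith
    · push_cast; nlinarith
    · push_cast; nlinarith
  · rw [h1 j]
    have a1 := hdl _ _ (hp (j + 1))
    have a2 := V.ge_mul (V.ge_natCast j) (hp j)
    have a3 := V.ge_mul hone (V.ge_mul (V.ge_natCast (j + 1)) (hp (j + 1)))
    have a4 := V.ge_mul h4 (V.ge_mul (V.ge_natCast (j + 2)) (hp (j + 2)))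
    have a5 := V.ge_mul (V.ge_intCast w) (hp j)
    have a6 := V.ge_mul h2 (hp (j + 1))
    refine V.ge_sub (V.ge_add (V.ge_sub (V.ge_add (V.ge_sub (V.ge_mono ?_ a1) (V.ge_mono ?_ a2))
      (V.ge_mono ?_ a3)) (V.ge_mono ?_ a4)) (V.ge_mono ?_ a5)) (V.ge_mono ?_ a6)
    · push_cast; nlinarith
    · push_cast; nlinarith
    · push_cast; nlinarith
    · push_cast; nlinarith
    · push_cast; nlinarith
    · push_cast; nlinarith

/-- the exact order of the constant coefficient -/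
private lemma NB3_zero (d : Dv L) (ℓ : L) (hℓ0 : ℓ ≠ 0) (e : ℕ) (he : 0 < e) (hve : V.v ℓ = -(e : ℤ))
    (h : ∀ x, x ≠ 0 → V.ge 1 (d x / (ℓ * x) - algebraMap K L ((V.v x : K) / e)))
    (hone : V.ge (-(e : ℤ)) (1 - ℓ)) (ν : ℤ) (κ n : ℕ) (x y z : L) (hx : x ≠ 0)
    (hvx : V.v x = ν - e * n) (hy : V.ge (ν - e * ((n : ℤ) - 1)) y)
    (hne : 2 * ν ≠ e * κ)
    (hz : z = d x - (1 - ℓ) / 4 * y - ((-(κ : ℤ) + 2 * n : ℤ) : L) * ((1 - ℓ) / 2) * x) :
    z ≠ 0 ∧ V.v z = ν - e * ((n + 1 : ℕ) : ℤ) := by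
  have hL : CharZero L := charZero_of_injective_algebraMap (FaithfulSMul.algebraMap_injective K L)
  have heK : (e : K) ≠ 0 := by exact_mod_cast he.ne'
  have hlx : ℓ * x ≠ 0 := mul_ne_zero hℓ0 hx
  have hvlx : V.v (ℓ * x) = ν - e * n - e := by
    rw [V.mul _ _ hℓ0 hx, hve, hvx]; ring
  obtain ⟨c, hc⟩ : ∃ c : K, c = (V.v x : K) / e + ((-(κ : ℤ) + 2 * n : ℤ) : K) / 2 := ⟨_, rfl⟩
  have hc0 : c ≠ 0 := by
    rw [hc, hvx]
    push_cast
    intro h0
    apply hne
    have h1 : (2 : K) * ν = e * κ := by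
      field_simp at h0
      linear_combination h0
    exact_mod_cast h1
  have hinv : V.ge 1 ℓ⁻¹ := by
    right
    rw [V.v_inv ℓ hℓ0, hve]
    omega
  have h4 : V.ge (-(e : ℤ)) ((1 - ℓ) / 4) := by
    have h := V.ge_mul hone (V.ge_const ((1 : K) / 4))
    have h2 : (1 - ℓ) * algebraMap K L (1 / 4) = (1 - ℓ) / 4 := by
      rw [map_div₀, map_one, map_ofNat]; ring
    rw [h2, add_zero] at h
    exact h
  -- the three error terms
  have r1 := h x hx
  have r2 : V.ge 1 ((1 - ℓ) / 4 * y / (ℓ * x)) := by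
    have h5 := V.ge_mul (V.ge_mul h4 hy) (V.ge_self (ℓ * x)⁻¹)
    rw [V.v_inv _ hlx, hvlx] at h5
    rw [div_eq_mul_inv ((1 - ℓ) / 4 * y)]
    refine V.ge_mono ?_ h5
    have : (1 : ℤ) ≤ e := by exact_mod_cast he
    nlinarith
  have r3 : V.ge 1 (((-(κ : ℤ) + 2 * n : ℤ) : L) * algebraMap K L (1 / 2) * ℓ⁻¹) := by
    have h5 := V.ge_mul (V.ge_mul (V.ge_intCast (-(κ : ℤ) + 2 * n)) (V.ge_const ((1 : K) / 2))) hinv
    rw [zero_add, zero_add] at h5
    exact h5
  have hzz : z = ℓ * x * (algebraMap K L c + ((d x / (ℓ * x) - algebraMap K L ((V.v x : K) / e)) -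
      (1 - ℓ) / 4 * y / (ℓ * x) -
      ((-(κ : ℤ) + 2 * n : ℤ) : L) * algebraMap K L (1 / 2) * ℓ⁻¹)) := by
    have h6 : algebraMap K L c = algebraMap K L ((V.v x : K) / e) +
        ((-(κ : ℤ) + 2 * n : ℤ) : L) / 2 := by
      rw [hc, map_add, map_div₀ (algebraMap K L) ((-(κ : ℤ) + 2 * n : ℤ) : K), map_intCast, map_ofNat]
    have h7 : algebraMap K L (1 / 2) = 1 / 2 := by rw [map_div₀, map_one, map_ofNat]
    rw [hz, h6, h7]
    field_simp
    ring
  have hm := V.ge_sub (V.ge_sub r1 r2) r3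
  have hcv : V.v (algebraMap K L c) = 0 := V.const c hc0
  have hcL : algebraMap K L c ≠ 0 := by
    rw [Ne, map_eq_zero]; exact hc0
  have h8 := V.add_eq hcL (y := (d x / (ℓ * x) - algebraMap K L ((V.v x : K) / e)) -
      (1 - ℓ) / 4 * y / (ℓ * x) -
      ((-(κ : ℤ) + 2 * n : ℤ) : L) * algebraMap K L (1 / 2) * ℓ⁻¹) (by
    rw [hcv, zero_add]; exact hm)
  rw [hzz]
  refine ⟨mul_ne_zero hlx h8.1, ?_⟩
  rw [V.mul _ _ hlx h8.1, h8.2, hcv, hvlx]
  push_cast
  ring

theorem order_inf (d : Dv L) (ℓ : L) (hℓ0 : ℓ ≠ 0) (hℓ : d ℓ = ℓ * (1 - ℓ)) (e : ℕ) (he : 0 < e)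
    (hve : V.v ℓ = -(e : ℤ))
    (h : ∀ x, x ≠ 0 → V.ge 1 (d x / (ℓ * x) - algebraMap K L ((V.v x : K) / e)))
    (κ : ℕ) (a ψ : L) (ha : a ≠ 0) (hψ : V.ge (-((e : ℤ) * (κ + 2))) (ψ ^ 2))
    (hb : nabs d (ℓ * (1 - ℓ) / 4) κ (κ + 1) a = Polynomial.C ψ) :
    (e : ℤ) * κ ≤ 2 * V.v a := by
  have hL : CharZero L := charZero_of_injective_algebraMap (FaithfulSMul.algebraMap_injective K L)
  by_cases hne : 2 * V.v a = e * κ
  · exact hne.ge
  have heZ : (0 : ℤ) < e := by exact_mod_cast he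
  have hone : V.ge (-(e : ℤ)) (1 - ℓ) := by
    refine V.ge_sub ?_ (Or.inr hve.ge)
    refine V.ge_mono (by omega : -(e : ℤ) ≤ 0) ?_
    have := V.ge_natCast 1
    rwa [Nat.cast_one] at this
  have hdl : ∀ (j : ℤ) (x : L), V.ge j x → V.ge (j - e) (d x) := by
    intro j x hj
    by_cases hx : x = 0
    · rw [hx, d.map_zero]; exact V.ge_zero _
    · have hvj : j ≤ V.v x := hj.resolve_left hx
      have h1 := V.ge_add (V.ge_mono (by norm_num : (0 : ℤ) ≤ 1) (h x hx))
        (V.ge_const ((V.v x : K) / e))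
      rw [sub_add_cancel] at h1
      have hlx : ℓ * x ≠ 0 := mul_ne_zero hℓ0 hx
      have h2 := V.ge_mul h1 (V.ge_self (ℓ * x))
      rw [div_mul_cancel₀ _ hlx, V.mul _ _ hℓ0 hx, hve] at h2
      exact V.ge_mono (by omega) h2
  obtain ⟨P, hP⟩ : ∃ P : ℕ → Polynomial L, ∀ n, P n = (nabs d (ℓ * (1 - ℓ) / 4) κ n a).comp
      (Polynomial.X - Polynomial.C ((1 - ℓ) / 2)) := ⟨_, fun _ => rfl⟩
  have hrec : ∀ n, P (n + 1) = mapc d (P n) +
        (Polynomial.C (1 - ℓ) * Polynomial.X - Polynomial.X ^ 2 - Polynomial.C ((1 - ℓ) / 4)) *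
          Polynomial.derivative (P n) +
        Polynomial.C (((-(κ : ℤ) + 2 * n : ℤ)) : L) * (Polynomial.X - Polynomial.C ((1 - ℓ) / 2)) * P n := by
    intro n
    rw [hP (n + 1), hP n]
    exact NB3_rec d ℓ hℓ (-(κ : ℤ) + 2 * n) (nabs d (ℓ * (1 - ℓ) / 4) κ n a)
  have hP0 : P 0 = Polynomial.C a := by
    rw [hP 0]
    show (Polynomial.C a).comp _ = _
    rw [Polynomial.C_comp]
  have hlow : ∀ n j : ℕ, V.ge (V.v a - e * ((n : ℤ) - j)) ((P n).coeff j) := by
    intro n
    induction n with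
    | zero =>
      intro j
      rw [hP0]
      rcases j with _ | j
      · rw [Polynomial.coeff_C_zero]
        right
        simp
      · rw [Polynomial.coeff_C_succ]; exact V.ge_zero _
    | succ n ih =>
      intro j
      have hc := NB3_coeff d ℓ (-(κ : ℤ) + 2 * n) (P n)
      rw [← hrec n] at hc
      exact NB3_low V d ℓ e hone hdl (fun j => (P n).coeff j) (fun j => (P (n + 1)).coeff j) (V.v a) n
        (-(κ : ℤ) + 2 * n) hc.1 hc.2 ih j
  have hzero : ∀ n : ℕ, (P n).coeff 0 ≠ 0 ∧ V.v ((P n).coeff 0) = V.v a - e * (n : ℤ) := by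
    intro n
    induction n with
    | zero =>
      rw [hP0, Polynomial.coeff_C_zero]
      exact ⟨ha, by simp⟩
    | succ n ih =>
      have hc := NB3_coeff d ℓ (-(κ : ℤ) + 2 * n) (P n)
      rw [← hrec n] at hc
      have h1 := hlow n 1
      rw [Nat.cast_one] at h1
      exact NB3_zero V d ℓ hℓ0 e he hve h hone (V.v a) κ n _ ((P n).coeff 1) _ ih.1 ih.2 h1 hne hc.1
  have h1 := hzero (κ + 1)
  have h2 : P (κ + 1) = Polynomial.C ψ := by
    rw [hP, hb, Polynomial.C_comp]
  rw [h2, Polynomial.coeff_C_zero] at h1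
  have h3 := hψ.resolve_left (pow_ne_zero 2 h1.1)
  rw [pow_two, V.mul _ _ h1.1 h1.1, h1.2] at h3
  push_cast at h3
  nlinarith

end Pool.Agent.H85.OU

end S_OU_NB3

section S_OU_DVl

/-!
# Row DVL (project OU): logarithmic derivatives at a place

`V` a discrete valuation with residue field `K` of characteristic `0`, `D` a derivation with `D(K) = 0`, continuous (`v(x) ≥ 0 ⇒ v(Dx) ≥ -N` for some `N`),
`s` with `e = v(s) > 0`, `D s = s u`, `v(u) ≥ 0`.  Write `O = {v ≥ 0}`, `m = {v ≥ 1}` (with `0`).  Fix `t` with `v(t) = 1`.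
1. Let `N ≥ 0` be minimal with `v(Dx) ≥ -N` for all `x ∈ O` (`Nat.find`).  Suppose `N ≥ 1`; then there is `x ∈ O` with `Dx ≠ 0`, `v(Dx) = -N` exactly
   (otherwise `N - 1` works).  `x = c + t y`, `c ∈ K`, `y ∈ O` (`exists_const`; divide by `t`).  `Dx = y Dt + t Dy`, `v(t Dy) ≥ 1 - N`, so `y Dt ≠ 0` and
   `v(y Dt) = -N`; as `v(Dt) ≥ -N` and `v(y) ≥ 0`, `v(Dt) = -N`.  Write `s = t^e w`, `v(w) = 0` (`e` as a natural number).
   `s u = Ds = e t^(e-1) w Dt + t^e Dw`; the first term has valuation `e - 1 - N` (`v_natCast`), the second `≥ e - N`, so `v(s u) = e - 1 - N < e`,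
   contradiction with `v(s u) ≥ e` (in particular `s u ≠ 0`).  So `D O ⊆ O`.
2. If `Dt ≠ 0` and `v(Dt) = 0`, the same computation with `N = 0` gives `v(s u) = e - 1 < e`, contradiction.  So `Dt = t r0`, `r0 = Dt/t ∈ O`.  Choose `ρ ∈ K` with
   `r0 - ρ ∈ m` (`exists_const`).
3. `x ∈ m`: `x = t y`, `Dx = y t r0 + t Dy ∈ m`.  `v(x) = 0`: `x = c + y`, `y ∈ m`, `Dx = Dy ∈ m`, so `Dx/x ∈ m`.  General `x ≠ 0`, `n = v(x)`: `x = t^n y` (`zpow`),
   `v(y) = 0`; `Dx/x = n r0 + Dy/y` (logarithmic derivative of a product; `D(t^n)/t^n = n Dt/t`), so `Dx/x - n ρ ∈ m`.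
4. `u = Ds/s`, so `u - e ρ ∈ m`.
-/

open Pool.Agent.H85.OT

namespace Pool.Agent.H85.OU

private theorem DVl_ge_div {K L : Type*} [Field K] [Field L] [Algebra K L] (V : DVal K L)
    {j : ℤ} {x y : L} (hx : V.ge j x) (hy : y ≠ 0) : V.ge (j - V.v y) (x / y) := by
  by_cases h0 : x = 0
  · rw [h0, zero_div]
    exact V.ge_zero _
  · refine Or.inr ?_
    rw [V.v_div x y h0 hy]
    have h1 : j ≤ V.v x := Or.resolve_left hx h0
    omega

private theorem DVl_step {K L : Type*} [Field K] [CharZero K] [Field L] [Algebra K L]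
    (V : DVal K L) (D : Dv L) (N : ℕ) (hN : ∀ x, V.ge 0 x → V.ge (-(N : ℤ)) (D x)) {t s u : L}
    (ht : t ≠ 0) (ht1 : V.v t = 1) (hs : s ≠ 0) (hs1 : 0 < V.v s) (hu : V.ge 0 u)
    (hDs : D s = s * u) : V.ge (1 - (N : ℤ)) (D t) := by
  haveI : CharZero L := charZero_of_injective_algebraMap (algebraMap K L).injective
  have h1 : V.ge (-(N : ℤ)) (D t) := hN t (Or.inr (by rw [ht1]; norm_num))
  by_contra hcon
  have hDt : D t ≠ 0 := fun h => hcon (Or.inl h)
  have hv : V.v (D t) = -(N : ℤ) := by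
    have h2 : -(N : ℤ) ≤ V.v (D t) := Or.resolve_left h1 hDt
    have h3 : ¬ (1 - (N : ℤ) ≤ V.v (D t)) := fun h => hcon (Or.inr h)
    omega
  obtain ⟨e, he⟩ : ∃ e : ℕ, V.v s = (e : ℤ) + 1 := ⟨(V.v s - 1).toNat, by omega⟩
  obtain ⟨w, hw⟩ : ∃ w, w = s / t ^ (e + 1) := ⟨_, rfl⟩
  have htp : t ^ (e + 1) ≠ 0 := pow_ne_zero _ ht
  have hw0 : w ≠ 0 := by
    rw [hw]
    exact div_ne_zero hs htp
  have hsw : s = t ^ (e + 1) * w := by
    rw [hw]
    field_simp
  have hvw : V.v w = 0 := by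
    rw [hw, V.v_div _ _ hs htp, V.v_pow t ht, ht1, he]
    push_cast
    ring
  have hDs2 : s * u = ((e + 1 : ℕ) : L) * t ^ e * D t * w + t ^ (e + 1) * D w := by
    rw [← hDs, hsw, D.map_mul, D.map_pow]
    push_cast
    ring
  have hn0 : ((e + 1 : ℕ) : L) ≠ 0 := Nat.cast_ne_zero.2 (Nat.succ_ne_zero e)
  have htn0 : t ^ e ≠ 0 := pow_ne_zero _ ht
  have hfirst0 : ((e + 1 : ℕ) : L) * t ^ e * D t * w ≠ 0 :=
    mul_ne_zero (mul_ne_zero (mul_ne_zero hn0 htn0) hDt) hw0
  have hfirst : V.v (((e + 1 : ℕ) : L) * t ^ e * D t * w) = (e : ℤ) - N := by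
    rw [V.mul _ _ (mul_ne_zero (mul_ne_zero hn0 htn0) hDt) hw0,
      V.mul _ _ (mul_ne_zero hn0 htn0) hDt, V.mul _ _ hn0 htn0,
      V.v_natCast _ (Nat.succ_ne_zero e), V.v_pow t ht, ht1, hv, hvw]
    ring
  have hsecond : V.ge ((e : ℤ) - N + 1) (t ^ (e + 1) * D w) := by
    have h2 : V.ge (((e + 1 : ℕ) : ℤ) * 1) (t ^ (e + 1)) :=
      Or.inr (by rw [V.v_pow t ht, ht1])
    have h3 := V.ge_mul h2 (hN w (Or.inr hvw.ge))
    have e1 : ((e + 1 : ℕ) : ℤ) * 1 + -(N : ℤ) = (e : ℤ) - N + 1 := by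
      push_cast
      ring
    rwa [e1] at h3
  obtain ⟨h4, h5⟩ := V.add_eq hfirst0 (by rw [hfirst]; exact hsecond)
  have h6 : V.ge (V.v s + 0) (s * u) := V.ge_mul (V.ge_self s) hu
  rw [hDs2] at h6
  have h7 : V.v s + 0 ≤ _ := Or.resolve_left h6 h4
  rw [h5, hfirst, he] at h7
  omega

private theorem DVl_split {K L : Type*} [Field K] [Field L] [Algebra K L]
    (V : DVal K L) (D : Dv L) (hK : ∀ c : K, D (algebraMap K L c) = 0) {t : L}
    (ht : t ≠ 0) (ht1 : V.v t = 1) {x : L} (hx : V.ge 0 x) :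
    ∃ y, V.ge 0 y ∧ D x = D t * y + t * D y := by
  obtain ⟨c, hc⟩ := V.exists_const hx
  obtain ⟨y, hy⟩ : ∃ y, y = (x - algebraMap K L c) / t := ⟨_, rfl⟩
  have hxy : x - algebraMap K L c = t * y := by
    rw [hy]
    field_simp
  refine ⟨y, ?_, ?_⟩
  · have h1 := DVl_ge_div V hc ht
    rw [ht1, ← hy, sub_self] at h1
    exact h1
  · have h2 : D x = D (x - algebraMap K L c) := by rw [D.map_sub, hK, sub_zero]
    rw [h2, hxy, D.map_mul]

private theorem DVl_int {K L : Type*} [Field K] [CharZero K] [Field L] [Algebra K L]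
    (V : DVal K L) (D : Dv L) (hK : ∀ c : K, D (algebraMap K L c) = 0) {t s u : L}
    (ht : t ≠ 0) (ht1 : V.v t = 1) (hs : s ≠ 0) (hs1 : 0 < V.v s) (hu : V.ge 0 u)
    (hDs : D s = s * u) (N : ℕ) :
    (∀ x, V.ge 0 x → V.ge (-(N : ℤ)) (D x)) → ∀ x, V.ge 0 x → V.ge 0 (D x) := by
  induction N with
  | zero =>
    intro h x hx
    have h1 := h x hx
    rw [Nat.cast_zero, neg_zero] at h1
    exact h1
  | succ N ih =>
    intro h
    apply ih
    have hDt := DVl_step V D (N + 1) h ht ht1 hs hs1 hu hDs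
    intro x hx
    obtain ⟨y, hy0, hxy⟩ := DVl_split V D hK ht ht1 hx
    rw [hxy]
    have h3 : V.ge (-(N : ℤ)) (D t * y) := by
      have h5 := V.ge_mul hDt hy0
      have e1 : 1 - ((N + 1 : ℕ) : ℤ) + 0 = -(N : ℤ) := by
        push_cast
        ring
      rwa [e1] at h5
    have h4 : V.ge (-(N : ℤ)) (t * D y) := by
      have h5 := V.ge_mul (V.ge_self t) (h y hy0)
      rw [ht1] at h5
      have e1 : 1 + -((N + 1 : ℕ) : ℤ) = -(N : ℤ) := by
        push_cast
        ring
      rwa [e1] at h5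
    exact V.ge_add h3 h4

private theorem DVl_ld_mul {L : Type*} [Field L] (D : Dv L) {x y : L} (hx : x ≠ 0) (hy : y ≠ 0) :
    D (x * y) / (x * y) = D x / x + D y / y := by
  rw [D.map_mul]
  field_simp

private theorem DVl_ld_pow {L : Type*} [Field L] (D : Dv L) {x : L} (hx : x ≠ 0) (n : ℕ) :
    D (x ^ n) / x ^ n = n * (D x / x) := by
  induction n with
  | zero => rw [pow_zero, D.map_one, Nat.cast_zero, zero_mul, zero_div]
  | succ n ih =>
    rw [pow_succ, DVl_ld_mul D (pow_ne_zero n hx) hx, ih]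
    push_cast
    ring

private theorem DVl_ld_inv {L : Type*} [Field L] (D : Dv L) {x : L} (hx : x ≠ 0) :
    D x⁻¹ / x⁻¹ = -(D x / x) := by
  have h1 := DVl_ld_mul D hx (inv_ne_zero hx)
  rw [mul_inv_cancel₀ hx, D.map_one, zero_div] at h1
  linear_combination -h1

private theorem DVl_ld_zpow {L : Type*} [Field L] (D : Dv L) {x : L} (hx : x ≠ 0) (n : ℤ) :
    D (x ^ n) / x ^ n = n * (D x / x) := by
  obtain ⟨m, rfl | rfl⟩ := Int.eq_nat_or_neg n
  · rw [zpow_natCast, DVl_ld_pow D hx, Int.cast_natCast]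
  · rw [zpow_neg, zpow_natCast, DVl_ld_inv D (pow_ne_zero m hx), DVl_ld_pow D hx]
    push_cast
    ring

theorem dlog {K L : Type*} [Field K] [CharZero K] [Field L] [Algebra K L] (V : DVal K L)
    (D : Dv L) (hK : ∀ c : K, D (algebraMap K L c) = 0)
    (hcont : ∃ N : ℕ, ∀ x, V.ge 0 x → V.ge (-(N : ℤ)) (D x)) (s u : L) (hs : s ≠ 0)
    (hs1 : 0 < V.v s) (hu : V.ge 0 u) (hDs : D s = s * u) :
    ∃ ρ : K, V.ge 1 (u - algebraMap K L ((V.v s : K) * ρ)) ∧
      ∀ x, x ≠ 0 → V.ge 1 (D x / x - algebraMap K L ((V.v x : K) * ρ)) := by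
  obtain ⟨N, hN⟩ := hcont
  obtain ⟨t, ht, ht1⟩ := V.unif
  have hO := DVl_int V D hK ht ht1 hs hs1 hu hDs N hN
  have hDt : V.ge 1 (D t) := by
    have h1 := DVl_step V D 0 (fun x hx => by
      rw [Nat.cast_zero, neg_zero]
      exact hO x hx) ht ht1 hs hs1 hu hDs
    rw [Nat.cast_zero, sub_zero] at h1
    exact h1
  have hr0 : V.ge 0 (D t / t) := by
    have h1 := DVl_ge_div V hDt ht
    rw [ht1, sub_self] at h1
    exact h1
  obtain ⟨ρ, hρ⟩ := V.exists_const hr0
  have key : ∀ x, x ≠ 0 → V.ge 1 (D x / x - algebraMap K L ((V.v x : K) * ρ)) := by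
    intro x hx
    have htn : t ^ (V.v x) ≠ 0 := zpow_ne_zero _ ht
    obtain ⟨y, hy⟩ : ∃ y, y = x / t ^ (V.v x) := ⟨_, rfl⟩
    have hy0 : y ≠ 0 := by
      rw [hy]
      exact div_ne_zero hx htn
    have hvy : V.v y = 0 := by
      rw [hy, V.v_div _ _ hx htn, V.v_zpow t ht, ht1]
      ring
    have hxy : x = t ^ (V.v x) * y := by
      rw [hy]
      field_simp
    have hDy : V.ge 1 (D y) := by
      obtain ⟨z, hz0, hyz⟩ := DVl_split V D hK ht ht1 (x := y) (Or.inr hvy.ge)
      rw [hyz]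
      have h1 : V.ge 1 (D t * z) := by
        have h2 := V.ge_mul hDt hz0
        rwa [add_zero] at h2
      have h3 : V.ge 1 (t * D z) := by
        have h2 := V.ge_mul (V.ge_self t) (hO z hz0)
        rwa [ht1, add_zero] at h2
      exact V.ge_add h1 h3
    have hly : V.ge 1 (D y / y) := by
      have h1 := DVl_ge_div V hDy hy0
      rwa [hvy, sub_zero] at h1
    have hlx : D x / x = (V.v x : L) * (D t / t) + D y / y := by
      have h1 := DVl_ld_mul D htn hy0
      rw [← hxy, DVl_ld_zpow D ht] at h1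
      exact h1
    have e1 : D x / x - algebraMap K L ((V.v x : K) * ρ) =
        (V.v x : L) * (D t / t - algebraMap K L ρ) + D y / y := by
      rw [hlx, _root_.map_mul, map_intCast]
      ring
    rw [e1]
    refine V.ge_add ?_ hly
    have h2 := V.ge_mul (V.ge_intCast (V.v x)) hρ
    rwa [zero_add] at h2
  refine ⟨ρ, ?_, key⟩
  have h1 := key s hs
  have h2 : D s / s = u := by
    rw [hDs]
    field_simp
  rw [h2] at h1
  exact h1

end Pool.Agent.H85.OU

end S_OU_DVl

section S_OU_NB4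

/-!
# Row NB4 (project OU): the local behaviour of the derivation

`NAset K L d ℓ R` (file `UV.lean`), `V` a place (`DVal`) with `D ↦` continuity (`hcont`).
* `local_fin`: `V.ge 0` on elements integral over `K[ℓ]`.  `ℓ` is integral over `K[ℓ]`, so `v(ℓ) ≥ 0`; choose `λ0 ∈ K` with `ℓ - λ0 ∈ m` (`exists_const`);
  `s = ℓ - λ0 ≠ 0` (transcendental), `e = v(s) > 0`.
  - `λ0 = 0` or `1`: `D = d`: `d s = s u` with `u = 1 - ℓ` (`λ0 = 0`) or `u = -ℓ` (`λ0 = 1`, `s = ℓ - 1`).  `dlog`: `u - eρ ∈ m` and `u ∓ 1 ∈ m`, so `eρ = ±1`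
    (`const_eq_zero`), `ρ ≠ 0`.  For `x ≠ 0`, `v(x) ≠ 0`: `dx/x = v(x)ρ + m` is nonzero of valuation `0`, so `v(dx) = v(x)`; for `v(x) ≥ 0`: `dx/x ∈ O`.  `v(ℓ(1-ℓ)) ≥ 1`:
    the second alternative.
  - `λ0 ≠ 0, 1`: apply `dlog` to `D = s · d` (a derivation, `x ↦ s * d x`, continuity: the same `N`), `D s = s (ℓ(1-ℓ))`, `u = ℓ(1-ℓ)`, `u - λ0(1-λ0) ∈ m`, so
    `eρ = λ0(1-λ0) ≠ 0`.  So `v(x) ≠ 0 ⇒ v(dx) = v(x) - e`, and `v(x) = 0 ⇒ v(dx) ≥ 1 - e` (or `dx = 0`).
    Claim `e = 1`: for `0 ≠ b ∈ R`, if `e ∤ v(b)` then by induction `v(d^j b) = v(b) - j e ≠ 0` for all `j`, negative for large `j`, but `d^j b ∈ R` is integral over `K[ℓ]`,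
    contradiction.  So `e ∣ v(b)` for all `0 ≠ b ∈ R`, hence `e ∣ v(x)` for all `x ≠ 0` (`x = b/c`), and `v(t) = 1` gives `e = 1`.
    First alternative: `v(x) ≠ 0 ⇒ v(dx) = v(x) - 1`; `v(x) ≥ 0 ⇒ v(dx) ≥ 0` (`v(x) = 0`: `≥ 1 - e = 0`; `v(x) ≥ 1`: `v(x) - 1 ≥ 0`).
* `local_inf`: `v(ℓ) = -e < 0`: `s = 1/ℓ`, `D = s · d`, `d s = - dℓ/ℓ² = 1 - s`... (`d(ℓ⁻¹) = -ℓ(1-ℓ)/ℓ² = -(1-ℓ)/ℓ = 1 - 1/ℓ`), so `D s = s (1 - s)`, `u = 1 - s`, `u - 1 ∈ m`,
  `eρ = 1`, `ρ = 1/e`; `D x / x = dx/(ℓ x)`.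
-/

open Pool.Agent.H85.OT

namespace Pool.Agent.H85.OU

private lemma NB4_const_eq {K L : Type*} [Field K] [Field L] [Algebra K L] (V : DVal K L)
    {u : L} {c a : K} (h1 : V.ge 1 (u - algebraMap K L c)) (h2 : V.ge 1 (u - algebraMap K L a)) :
    c = a := by
  have h3 := V.ge_sub h2 h1
  have h4 : u - algebraMap K L a - (u - algebraMap K L c) = algebraMap K L (c - a) := by
    rw [map_sub]; ring
  rw [h4] at h3
  exact sub_eq_zero.mp (V.const_eq_zero h3)

private lemma NB4_unit {K L : Type*} [Field K] [Field L] [Algebra K L] (V : DVal K L)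
    {w : L} {c : K} (hc : c ≠ 0) (h : V.ge 1 (w - algebraMap K L c)) : w ≠ 0 ∧ V.v w = 0 := by
  have h1 : algebraMap K L c ≠ 0 := by
    rw [Ne, map_eq_zero]; exact hc
  have h2 : V.v (algebraMap K L c) = 0 := V.const c hc
  have h3 := V.add_eq h1 (y := w - algebraMap K L c) (by rw [h2]; exact h)
  rw [add_sub_cancel, h2] at h3
  exact h3

private lemma NB4_v_mul_right {K L : Type*} [Field K] [Field L] [Algebra K L] (V : DVal K L)
    {x y : L} (hx : x ≠ 0) (h : y / x ≠ 0) (h0 : V.v (y / x) = 0) : y ≠ 0 ∧ V.v y = V.v x := by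
  have hy : y ≠ 0 := by
    rintro rfl
    rw [zero_div] at h
    exact h rfl
  refine ⟨hy, ?_⟩
  rw [V.v_div y x hy hx] at h0
  linarith

/-- multiple of a derivation -/
private noncomputable def NB4_smul {L : Type*} [Field L] (s : L) (d : Dv L) : Dv L where
  toFun x := s * d x
  add' a b := by rw [d.map_add, mul_add]
  mul' a b := by rw [d.map_mul]; ring

private lemma NB4_smul_apply {L : Type*} [Field L] (s : L) (d : Dv L) (x : L) :
    NB4_smul s d x = s * d x := rfl

private lemma NB4_fin_aux {K L : Type} [Field K] [CharZero K] [Field L] [Algebra K L] {d : Dv L}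
    (V : DVal K L) (hdK : ∀ c : K, d (algebraMap K L c) = 0)
    (hcont : ∀ D : Dv L, (∀ c : K, D (algebraMap K L c) = 0) →
      ∃ N : ℕ, ∀ x, V.ge 0 x → V.ge (-(N : ℤ)) (D x))
    {s u : L} (hs : s ≠ 0) (hs1 : 0 < V.v s) (hu : V.ge 0 u) (hds : d s = s * u) {c : K} (hc : c ≠ 0)
    (huc : V.ge 1 (u - algebraMap K L c)) :
    (∀ x, x ≠ 0 → V.v x ≠ 0 → d x ≠ 0 ∧ V.v (d x) = V.v x) ∧
      (∀ x, V.ge 0 x → V.ge 0 (d x)) := by
  obtain ⟨ρ, h1, h2⟩ := dlog V d hdK (hcont d hdK) s u hs hs1 hu hds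
  have h3 : (V.v s : K) * ρ = c := NB4_const_eq V h1 huc
  have hρ : ρ ≠ 0 := by
    rintro rfl
    rw [mul_zero] at h3
    exact hc h3.symm
  constructor
  · intro x hx hvx
    have h4 : (V.v x : K) * ρ ≠ 0 := mul_ne_zero (by exact_mod_cast hvx) hρ
    obtain ⟨h5, h6⟩ := NB4_unit V h4 (h2 x hx)
    exact NB4_v_mul_right V hx h5 h6
  · intro x hx
    by_cases hx0 : x = 0
    · rw [hx0, d.map_zero]; exact V.ge_zero 0
    · have h4 := V.ge_add (V.ge_mono (show (0 : ℤ) ≤ 1 by norm_num) (h2 x hx0))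
        (V.ge_const ((V.v x : K) * ρ))
      rw [sub_add_cancel] at h4
      have h5 := V.ge_mul h4 hx
      rw [div_mul_cancel₀ _ hx0, add_zero] at h5
      exact h5

theorem local_fin {K L : Type} [Field K] [CharZero K] [Field L] [Algebra K L] {d : Dv L} {ℓ : L}
    {R : Subalgebra K L} (h : NAset K L d ℓ R) (V : DVal K L)
    (hint : ∀ x, IntOver K ℓ x → V.ge 0 x)
    (hcont : ∀ D : Dv L, (∀ c : K, D (algebraMap K L c) = 0) →
      ∃ N : ℕ, ∀ x, V.ge 0 x → V.ge (-(N : ℤ)) (D x)) :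
    ((∀ x, x ≠ 0 → V.v x ≠ 0 → d x ≠ 0 ∧ V.v (d x) = V.v x - 1) ∧
      (∀ x, V.ge 0 x → V.ge 0 (d x))) ∨
    (V.ge 1 (ℓ * (1 - ℓ)) ∧ (∀ x, x ≠ 0 → V.v x ≠ 0 → d x ≠ 0 ∧ V.v (d x) = V.v x) ∧
      (∀ x, V.ge 0 x → V.ge 0 (d x))) := by
  have hℓ : V.ge 0 ℓ := hint ℓ (h.int ℓ h.mem)
  have hone : V.ge 0 (1 : L) := by
    have := V.ge_const (1 : K)
    rwa [map_one] at this
  obtain ⟨lam0, hl0⟩ := V.exists_const hℓ
  have hs : ℓ - algebraMap K L lam0 ≠ 0 := by
    have := h.tr (Polynomial.X - Polynomial.C lam0) (Polynomial.X_sub_C_ne_zero lam0)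
    rwa [map_sub, Polynomial.aeval_X, Polynomial.aeval_C] at this
  obtain ⟨s, hsdef⟩ : ∃ s, s = ℓ - algebraMap K L lam0 := ⟨_, rfl⟩
  rw [← hsdef] at hs hl0
  have hvs : 0 < V.v s := by
    rcases hl0 with h0 | h0
    · exact absurd h0 hs
    · omega
  have hds : d s = ℓ * (1 - ℓ) := by
    rw [hsdef, d.map_sub, h.dK, sub_zero, h.dl]
  by_cases h0 : lam0 = 0
  · right
    rw [h0, map_zero, sub_zero] at hsdef
    subst hsdef
    refine ⟨?_, ?_⟩
    · have := V.ge_mul hl0 (V.ge_sub hone hℓ)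
      rwa [add_zero] at this
    · refine NB4_fin_aux V h.dK hcont hs hvs (V.ge_sub hone hℓ) hds (c := 1) one_ne_zero ?_
      rw [map_one]
      have := V.ge_neg hl0
      rwa [show (1 : L) - s - 1 = -s by ring]
  by_cases h1 : lam0 = 1
  · right
    rw [h1, map_one] at hsdef
    refine ⟨?_, ?_⟩
    · have := V.ge_mul hℓ (V.ge_neg hl0)
      rw [zero_add] at this
      rwa [show (1 : L) - ℓ = -s by rw [hsdef]; ring]
    · refine NB4_fin_aux V h.dK hcont hs hvs (V.ge_neg hℓ) ?_ (c := -1) (by norm_num) ?_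
      · rw [hds, hsdef]; ring
      · rw [map_neg, map_one]
        have := V.ge_neg hl0
        rwa [show -ℓ - -1 = -s by rw [hsdef]; ring]
  · left
    have hDK : ∀ c : K, NB4_smul s d (algebraMap K L c) = 0 := by
      intro c
      rw [NB4_smul_apply, h.dK, mul_zero]
    have hu : V.ge 0 (ℓ * (1 - ℓ)) := by
      have := V.ge_mul hℓ (V.ge_sub hone hℓ)
      rwa [add_zero] at this
    obtain ⟨ρ, r1, r2⟩ := dlog V (NB4_smul s d) hDK (hcont _ hDK) s (ℓ * (1 - ℓ)) hs hvs hu
      (by rw [NB4_smul_apply, hds])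
    have huc : V.ge 1 (ℓ * (1 - ℓ) - algebraMap K L (lam0 * (1 - lam0))) := by
      have h3 : V.ge 0 (1 - ℓ - algebraMap K L lam0) := V.ge_sub (V.ge_sub hone hℓ) (V.ge_const _)
      have h4 := V.ge_mul hl0 h3
      rw [add_zero] at h4
      have h5 : ℓ * (1 - ℓ) - algebraMap K L (lam0 * (1 - lam0)) = s * (1 - ℓ - algebraMap K L lam0) := by
        rw [map_mul, map_sub, map_one, hsdef]; ring
      rwa [h5]
    have h3 : (V.v s : K) * ρ = lam0 * (1 - lam0) := NB4_const_eq V r1 huc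
    have hρ : ρ ≠ 0 := by
      rintro rfl
      rw [mul_zero] at h3
      rcases mul_eq_zero.mp h3.symm with h4 | h4
      · exact h0 h4
      · exact h1 (sub_eq_zero.mp h4).symm
    -- valuations of derivatives
    have hA : ∀ x, x ≠ 0 → V.v x ≠ 0 → d x ≠ 0 ∧ V.v (d x) = V.v x - V.v s := by
      intro x hx hvx
      have h4 : (V.v x : K) * ρ ≠ 0 := mul_ne_zero (by exact_mod_cast hvx) hρ
      obtain ⟨h5, h6⟩ := NB4_unit V h4 (r2 x hx)
      obtain ⟨h7, h8⟩ := NB4_v_mul_right V hx h5 h6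
      rw [NB4_smul_apply] at h7 h8
      have h9 : d x ≠ 0 := right_ne_zero_of_mul h7
      refine ⟨h9, ?_⟩
      rw [V.mul _ _ hs h9] at h8
      linarith
    have hB : ∀ x, x ≠ 0 → V.v x = 0 → V.ge (1 - V.v s) (d x) := by
      intro x hx hvx
      have h4 := r2 x hx
      rw [hvx, Int.cast_zero, zero_mul, map_zero, sub_zero] at h4
      have h5 := V.ge_mul h4 (V.ge_self x)
      rw [div_mul_cancel₀ _ hx, NB4_smul_apply, hvx, add_zero] at h5
      have h6 := V.ge_mul h5 (V.ge_self s⁻¹)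
      rw [V.v_inv s hs] at h6
      have h7 : s * d x * s⁻¹ = d x := by field_simp
      rw [h7] at h6
      exact h6
    -- e = 1
    have hdiv : ∀ b ∈ R, b ≠ 0 → V.v s ∣ V.v b := by
      intro b hb hb0
      by_contra hnd
      have hind : ∀ j : ℕ, ∃ b' ∈ R, b' ≠ 0 ∧ V.v b' = V.v b - j * V.v s := by
        intro j
        induction j with
        | zero => exact ⟨b, hb, hb0, by simp⟩
        | succ j ih =>
          obtain ⟨b', q1, q2, q3⟩ := ih
          have q4 : V.v b' ≠ 0 := by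
            intro q5
            apply hnd
            rw [q5] at q3
            exact ⟨j, by linarith⟩
          obtain ⟨q6, q7⟩ := hA b' q2 q4
          refine ⟨d b', h.stab b' q1, q6, ?_⟩
          rw [q7, q3]
          push_cast
          ring
      obtain ⟨b', q1, q2, q3⟩ := hind ((V.v b).toNat + 1)
      rcases hint b' (h.int b' q1) with q4 | q4
      · exact q2 q4
      · rw [q3] at q4
        have q5 : V.v b ≤ ((V.v b).toNat : ℤ) := Int.self_le_toNat _
        push_cast at q4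
        have q6 : (((V.v b).toNat : ℤ) + 1) * 1 ≤ (((V.v b).toNat : ℤ) + 1) * V.v s :=
          mul_le_mul_of_nonneg_left (by omega) (by positivity)
        linarith
    have hdiv' : ∀ x, x ≠ 0 → V.v s ∣ V.v x := by
      intro x hx
      obtain ⟨b, hb, c, hc, hc0, rfl⟩ := h.frac x
      have hb0 : b ≠ 0 := by
        rintro rfl
        rw [zero_div] at hx
        exact hx rfl
      rw [V.v_div b c hb0 hc0]
      exact dvd_sub (hdiv b hb hb0) (hdiv c hc hc0)
    have he : V.v s = 1 := by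
      obtain ⟨t, ht0, ht⟩ := V.unif
      have q1 := hdiv' t ht0
      rw [ht] at q1
      exact Int.eq_one_of_dvd_one hvs.le q1
    rw [he] at hA hB
    refine ⟨hA, ?_⟩
    intro x hx
    by_cases hx0 : x = 0
    · rw [hx0, d.map_zero]; exact V.ge_zero 0
    · by_cases hvx : V.v x = 0
      · have := hB x hx0 hvx
        rwa [sub_self] at this
      · right
        rw [(hA x hx0 hvx).2]
        rcases hx with q | q
        · exact absurd q hx0
        · omega

theorem local_inf {K L : Type} [Field K] [CharZero K] [Field L] [Algebra K L] {d : Dv L} {ℓ : L}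
    {R : Subalgebra K L} (h : NAset K L d ℓ R) (V : DVal K L) (e : ℕ) (he : 0 < e)
    (hve : V.v ℓ = -(e : ℤ))
    (hcont : ∀ D : Dv L, (∀ c : K, D (algebraMap K L c) = 0) →
      ∃ N : ℕ, ∀ x, V.ge 0 x → V.ge (-(N : ℤ)) (D x)) :
    ∀ x, x ≠ 0 → V.ge 1 (d x / (ℓ * x) - algebraMap K L ((V.v x : K) / e)) := by
  have hℓ : ℓ ≠ 0 := by
    have := h.tr Polynomial.X Polynomial.X_ne_zero
    rwa [Polynomial.aeval_X] at this
  have hone : V.ge 0 (1 : L) := by
    have := V.ge_const (1 : K)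
    rwa [map_one] at this
  obtain ⟨s, hsdef⟩ : ∃ s, s = ℓ⁻¹ := ⟨_, rfl⟩
  have hs : s ≠ 0 := by rw [hsdef]; exact inv_ne_zero hℓ
  have hvs : V.v s = e := by rw [hsdef, V.v_inv ℓ hℓ, hve, neg_neg]
  have hDK : ∀ c : K, NB4_smul s d (algebraMap K L c) = 0 := by
    intro c
    rw [NB4_smul_apply, h.dK, mul_zero]
  have hds : d s = 1 - s := by
    have h1 : d (ℓ * s) = 0 := by
      rw [hsdef, mul_inv_cancel₀ hℓ, d.map_one]
    rw [d.map_mul, h.dl] at h1
    have h2 : ℓ * d s = ℓ * (1 - s) := by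
      have h3 : ℓ * (1 - ℓ) * s = -(ℓ * (1 - s)) := by
        rw [hsdef]; field_simp; ring
      rw [h3] at h1
      linear_combination h1
    exact mul_left_cancel₀ hℓ h2
  have hs1 : V.ge 1 s := Or.inr (by rw [hvs]; omega)
  have hu : V.ge 0 (1 - s) := V.ge_sub hone (V.ge_mono (by norm_num) hs1)
  obtain ⟨ρ, r1, r2⟩ := dlog V (NB4_smul s d) hDK (hcont _ hDK) s (1 - s) hs
    (by rw [hvs]; omega) hu (by rw [NB4_smul_apply, hds])
  have h3 : (V.v s : K) * ρ = 1 := by
    refine NB4_const_eq V r1 ?_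
    rw [map_one]
    have := V.ge_neg hs1
    rwa [show (1 : L) - s - 1 = -s by ring]
  have he' : (e : K) ≠ 0 := by exact_mod_cast he.ne'
  have hρ : ρ = 1 / (e : K) := by
    rw [hvs, Int.cast_natCast] at h3
    field_simp
    linear_combination h3
  intro x hx
  have h4 := r2 x hx
  rw [hρ, NB4_smul_apply, hsdef] at h4
  have h5 : ℓ⁻¹ * d x / x = d x / (ℓ * x) := by
    field_simp
  rw [h5, mul_one_div] at h4
  exact h4

end Pool.Agent.H85.OU

end S_OU_NB4

section S_OU_NBe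

/-!
# Row NBE (project OU): a form of positive weight is not the Bol derivative of an algebraic form

* `const_of_both`: `y` integral over `K[ℓ]` and over `K[ℓ⁻¹]`, `ℓ` transcendental, `K` algebraically closed: then `y ∈ K`.  `K[ℓ]` (`≅ K[X]`) and `K[ℓ⁻¹]` are integrally closed with the same
  fraction field `K0 = K(ℓ)`; the minimal polynomial of `y` over `K0` has coefficients in `K[ℓ]` and in `K[ℓ⁻¹]` (`minpoly.isIntegrallyClosed_eq_field_fractions`), and
  `K[ℓ] ∩ K[ℓ⁻¹] = K`: `P(ℓ) = Q(ℓ⁻¹)`, `deg Q ≤ N`: `P(ℓ) ℓ^N` is a polynomial in `ℓ` of degree `≤ N`, so `deg P = 0`.  So `y` is algebraic over `K`.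
* `noNA`: suppose `a ≠ 0`.
  1. `a` is integral over `K[ℓ]`: `places` for `s = ℓ`; for each place `V` `local_fin` gives one of two alternatives; `pole1` (`g = ℓ(1-ℓ)/4`, `V.ge 0 ℓ`) or `pole2` (`V.ge 1 (ℓ(1-ℓ))`)
     give `V.ge 0 a` (`ψ` is integral over `K[ℓ]`, so `V.ge 0 ψ`).  Second claim of `places`.
  2. `y = ℓ a²` is integral over `K[ℓ⁻¹]`: `places` for `s = ℓ⁻¹` (`adjoin K {ℓ⁻¹} = adjoin K {ℓ}`; `ℓ⁻¹` is transcendental).  `ℓ⁻¹` is integral over `K[ℓ⁻¹]`, so `v(ℓ) ≤ 0`.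
     If `v(ℓ) = 0`: `V.ge 0 ℓ`, `DVal.of_intOver` gives `V.ge 0 a`, so `V.ge 0 y`.
     If `v(ℓ) = -e < 0`: `local_inf`; `V.ge (-(e(κ+2))) (ψ²)`: from `(ψ²)^r + ∑_{m ≥ 1} P_m(ℓ) (ψ²)^(r-m) = 0`, `deg P_m ≤ (κ+2) m`: `v(P_m(ℓ)) ≥ -e(κ+2)m`; if `w = v(ψ²) < -e(κ+2)` then
     `v((ψ²)^r) = r w < -e(κ+2)m + (r-m) w`, the valuations of the other terms, contradiction (`ge_sum`, `add_eq`).  `order_inf`: `eκ ≤ 2 v(a)`, so
     `v(y) = -e + 2v(a) ≥ -e + eκ ≥ 0`.
  3. `y` is also integral over `K[ℓ]`, so `y = c ∈ K` by `const_of_both`.  `c ≠ 0` as `a ≠ 0`.  `ℓ⁻¹ = a²/c` is integral over `K[ℓ]`: `(ℓ⁻¹)^r + ∑ P_m(ℓ)(ℓ⁻¹)^(r-m) = 0`, multiply by `ℓ^r`: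
     `1 + ∑_{m ≥ 1} P_m(ℓ) ℓ^m = 0`, but the polynomial `1 + ∑ P_m X^m` is nonzero (constant term `1`), contradiction with `tr`.
  So `a = 0`, and then `nabs .. 0 = 0` (`nab` is additive: induction), `ψ = 0`.
-/

open Pool.Agent.H85.OT

namespace Pool.Agent.H85.OU

private lemma NBe_self {K S : Type*} [Field K] [CommRing S] [Algebra K S] (s : S) :
    IntOver K s s := by
  unfold IntOver
  have h := RingHom.isIntegralElem_map
    ((Polynomial.aeval s : Polynomial K →ₐ[K] S) : Polynomial K →+* S) (x := Polynomial.X)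
  have h2 : ((Polynomial.aeval s : Polynomial K →ₐ[K] S) : Polynomial K →+* S) Polynomial.X = s := by
    rw [RingHom.coe_coe, Polynomial.aeval_X]
  rwa [h2] at h

private lemma NBe_const {K S : Type*} [Field K] [CommRing S] [Algebra K S] (s : S) (c : K) :
    IntOver K s (algebraMap K S c) := by
  unfold IntOver
  have h := RingHom.isIntegralElem_map
    ((Polynomial.aeval s : Polynomial K →ₐ[K] S) : Polynomial K →+* S) (x := Polynomial.C c)
  have h2 : ((Polynomial.aeval s : Polynomial K →ₐ[K] S) : Polynomial K →+* S)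
      (Polynomial.C c) = algebraMap K S c := by
    rw [RingHom.coe_coe, Polynomial.aeval_C]
  rwa [h2] at h

private lemma NBe_mul {K S : Type*} [Field K] [CommRing S] [Algebra K S] {s x y : S}
    (hx : IntOver K s x) (hy : IntOver K s y) : IntOver K s (x * y) :=
  RingHom.IsIntegralElem.mul _ hx hy

/-- an element integral over `K[s]` lies in every valuation ring containing `K` and `s` -/
private lemma NBe_val {K L : Type*} [Field K] [Field L] [Algebra K L] (W : ValuationSubring L)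
    (hW : ∀ c : K, algebraMap K L c ∈ W) {s : L} (hs : s ∈ W) {y : L} (hy : IntOver K s y) :
    y ∈ W := by
  obtain ⟨p, hp, he⟩ := hy
  have hmem : ∀ P : Polynomial K,
      ((Polynomial.aeval s : Polynomial K →ₐ[K] L) : Polynomial K →+* L) P ∈ W.toSubring := by
    intro P
    rw [RingHom.coe_coe, Polynomial.aeval_eq_sum_range]
    refine W.toSubring.sum_mem fun i _ => ?_
    rw [Algebra.smul_def]
    exact W.toSubring.mul_mem (hW _) (W.toSubring.pow_mem hs i)
  have hint : IsIntegral W y := by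
    refine ⟨p.map (RingHom.codRestrict
      ((Polynomial.aeval s : Polynomial K →ₐ[K] L) : Polynomial K →+* L) W.toSubring hmem),
      hp.map _, ?_⟩
    rw [Polynomial.eval₂_map]
    exact he
  obtain ⟨z, hz⟩ := IsIntegrallyClosed.isIntegral_iff.mp hint
  rw [← hz]
  exact z.2

private lemma NBe_transc {K L : Type*} [Field K] [Field L] [Algebra K L] {ℓ : L}
    (htr : ∀ P : Polynomial K, P ≠ 0 → Polynomial.aeval ℓ P ≠ 0) :
    ∀ P : Polynomial K, P ≠ 0 → Polynomial.aeval ℓ⁻¹ P ≠ 0 := by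
  intro P hP h0
  have h1 : IsAlgebraic K ℓ⁻¹ := ⟨P, hP, h0⟩
  have h2 : IsAlgebraic K ℓ := by
    have := h1.inv
    rwa [inv_inv] at this
  obtain ⟨Q, hQ, hQ0⟩ := h2
  exact htr Q hQ hQ0

private lemma NBe_adjoin {K L : Type*} [Field K] [Field L] [Algebra K L] (ℓ : L) :
    IntermediateField.adjoin K {ℓ⁻¹} = IntermediateField.adjoin K {ℓ} := by
  refine le_antisymm ?_ ?_
  · rw [IntermediateField.adjoin_simple_le_iff]
    exact inv_mem (IntermediateField.mem_adjoin_simple_self K ℓ)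
  · rw [IntermediateField.adjoin_simple_le_iff]
    have h1 := inv_mem (IntermediateField.mem_adjoin_simple_self K ℓ⁻¹)
    rwa [inv_inv] at h1

/-- valuation of a polynomial in `ℓ` at a pole of `ℓ` -/
private lemma NBe_poly {K L : Type*} [Field K] [Field L] [Algebra K L] (V : DVal K L) {ℓ : L}
    (hℓ : ℓ ≠ 0) {e : ℕ} (hve : V.v ℓ = -(e : ℤ)) (P : Polynomial K) {N : ℕ}
    (hN : P.natDegree ≤ N) : V.ge (-((e : ℤ) * N)) (Polynomial.aeval ℓ P) := by
  rw [Polynomial.aeval_eq_sum_range]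
  refine V.ge_sum _ _ fun i hi => ?_
  rw [Finset.mem_range] at hi
  rw [Algebra.smul_def]
  have h1 := V.ge_mul (V.ge_const (P.coeff i)) (V.ge_self (ℓ ^ i))
  refine V.ge_mono ?_ h1
  rw [V.v_pow ℓ hℓ, hve]
  have h2 : (i : ℤ) ≤ (N : ℤ) := by
    have : i ≤ N := by omega
    exact_mod_cast this
  have h3 : (0 : ℤ) ≤ (e : ℤ) := Int.natCast_nonneg e
  nlinarith

private lemma NBe_deg {K L : Type*} [Field K] [Field L] [Algebra K L] (V : DVal K L) {ℓ : L}
    (hℓ : ℓ ≠ 0) {e : ℕ} (hve : V.v ℓ = -(e : ℤ)) {n : ℕ} {y : L} (hy : IsDegA K ℓ n y) :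
    V.ge (-((e : ℤ) * n)) y := by
  by_contra hcon
  have hy0 : y ≠ 0 := fun h => hcon (Or.inl h)
  have hv : V.v y < -((e : ℤ) * n) := by
    by_contra h
    exact hcon (Or.inr (not_lt.mp h))
  obtain ⟨r, a, hr, ha, he⟩ := hy
  refine (V.add_eq (pow_ne_zero r hy0) ?_).1 he
  refine V.ge_sum _ _ fun m hm => ?_
  rw [Finset.mem_Icc] at hm
  have h1 := NBe_poly V hℓ hve (a m) (ha m)
  have h2 := V.ge_mul h1 (V.ge_self (y ^ (r - m)))
  refine V.ge_mono ?_ h2
  rw [V.v_pow y hy0, V.v_pow y hy0]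
  have h3 : ((r - m : ℕ) : ℤ) = (r : ℤ) - m := by
    rw [Nat.cast_sub hm.2]
  have h4 : (1 : ℤ) ≤ (m : ℤ) := by exact_mod_cast hm.1
  rw [h3]
  push_cast
  nlinarith

private lemma NBe_nabs_zero {R : Type*} [CommRing R] (d : Dv R) (g : R) (κ n : ℕ) :
    nabs d g κ n 0 = 0 := by
  induction n with
  | zero =>
    show Polynomial.C (0 : R) = 0
    exact Polynomial.C_0
  | succ n ih =>
    show nab d g (-(κ : ℤ) + 2 * n) (nabs d g κ n 0) = 0
    rw [ih]
    unfold nab
    rw [Dv.map_zero, mul_zero, add_zero]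

theorem const_of_both {K L : Type} [Field K] [CharZero K] [IsAlgClosed K] [Field L]
    [Algebra K L] (ℓ : L) (hℓ : ℓ ≠ 0)
    (htr : ∀ P : Polynomial K, P ≠ 0 → Polynomial.aeval ℓ P ≠ 0) (y : L) (h1 : IntOver K ℓ y)
    (h2 : IntOver K ℓ⁻¹ y) : ∃ c : K, y = algebraMap K L c := by
  have key : y ∈ (⨅ V : {V : ValuationSubring L // (Set.range (algebraMap K L)) ⊆ V.toSubring},
      V.1.toSubring) := by
    rw [Subring.mem_iInf]
    rintro ⟨W, hW⟩
    have hW' : ∀ c : K, algebraMap K L c ∈ W := fun c => hW ⟨c, rfl⟩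
    rcases W.mem_or_inv_mem ℓ with h | h
    · exact NBe_val W hW' h h1
    · exact NBe_val W hW' h h2
  rw [iInf_valuationSubring_superset] at key
  have hcl : ∀ z ∈ Subring.closure (Set.range (algebraMap K L)), ∃ c : K, algebraMap K L c = z := by
    intro z hz
    have h3 : Subring.closure (Set.range (algebraMap K L)) ≤ (algebraMap K L).range := by
      rw [Subring.closure_le]
      rintro _ ⟨c, rfl⟩
      exact ⟨c, rfl⟩
    exact h3 hz
  have hint : IsIntegral K y := by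
    have h3 : IsIntegral (Subring.closure (Set.range (algebraMap K L))) y := key
    obtain ⟨p, hp, he⟩ := h3
    have h4 : ∀ c : K, algebraMap K L c ∈ Subring.closure (Set.range (algebraMap K L)) :=
      fun c => Subring.subset_closure ⟨c, rfl⟩
    have hsurj : Function.Surjective (RingHom.codRestrict (algebraMap K L)
        (Subring.closure (Set.range (algebraMap K L))) h4) := by
      rintro ⟨z, hz⟩
      obtain ⟨c, hc⟩ := hcl z hz
      exact ⟨c, Subtype.ext hc⟩
    obtain ⟨q, hq1, hq2, hq3⟩ := Polynomial.lifts_and_natDegree_eq_and_monic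
      ((Polynomial.lifts_iff_coeff_lifts p).2 fun n => hsurj _) hp
    refine ⟨q, hq3, ?_⟩
    have h5 : algebraMap K L = (algebraMap (Subring.closure (Set.range (algebraMap K L))) L).comp
        (RingHom.codRestrict (algebraMap K L)
        (Subring.closure (Set.range (algebraMap K L))) h4) := by
      ext c
      rfl
    rw [h5, ← Polynomial.eval₂_map, hq1]
    exact he
  have hdeg : (minpoly K y).degree = 1 :=
    IsAlgClosed.degree_eq_one_of_irreducible K (minpoly.irreducible hint)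
  obtain ⟨c, hc⟩ := minpoly.mem_range_of_degree_eq_one K y hdeg
  exact ⟨c, hc.symm⟩

theorem noNA {K L : Type} [Field K] [CharZero K] [IsAlgClosed K] [Field L] [Algebra K L]
    {d : Dv L} {ℓ : L} {R : Subalgebra K L} (h : NAset K L d ℓ R) (κ : ℕ) (hκ : 0 < κ)
    (a ψ : L) (hψ : IntOver K ℓ ψ) (hψk : IsDegA K ℓ (κ + 2) (ψ ^ 2))
    (hb : nabs d (ℓ * (1 - ℓ) / 4) κ (κ + 1) a = Polynomial.C ψ) : ψ = 0 := by
  by_cases ha : a = 0
  · rw [ha, NBe_nabs_zero] at hb
    exact (Polynomial.C_eq_zero.1 hb.symm)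
  exfalso
  have hℓ0 : ℓ ≠ 0 := by
    have := h.tr Polynomial.X Polynomial.X_ne_zero
    rwa [Polynomial.aeval_X] at this
  have htr' := NBe_transc h.tr
  have hone : ∀ V : DVal K L, V.ge 0 (1 : L) := by
    intro V
    have h1 := V.ge_const (1 : K)
    rwa [map_one] at h1
  have hquarter : ∀ (V : DVal K L) (j : ℤ) (x : L), V.ge j x → V.ge j (x / 4) := by
    intro V j x hx
    have h1 := V.ge_mul hx (V.ge_const ((4 : K)⁻¹))
    rw [add_zero, map_inv₀, map_ofNat] at h1
    rwa [div_eq_mul_inv]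
  -- `a` is integral over `K[ℓ]`
  have haint : IntOver K ℓ a := by
    obtain ⟨I, V, hV1, hV2, hV3⟩ := places ℓ h.tr h.fin
    apply hV2
    intro i
    have hℓi : (V i).ge 0 ℓ := hV1 i ℓ (NBe_self ℓ)
    rcases local_fin h (V i) (hV1 i) (hV3 i) with ⟨c1, c2⟩ | ⟨c0, c1, c2⟩
    · refine pole1 (V i) d (ℓ * (1 - ℓ) / 4) ?_ c1 c2 κ a ψ (hV1 i ψ hψ) hb
      apply hquarter
      have h1 := (V i).ge_mul hℓi ((V i).ge_sub (hone (V i)) hℓi)
      rwa [add_zero] at h1
    · exact pole2 (V i) d (ℓ * (1 - ℓ) / 4) (hquarter _ _ _ c0) c1 c2 κ a ψ (hV1 i ψ hψ) hb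
  have hy1 : IntOver K ℓ (ℓ * (a * a)) := NBe_mul (NBe_self ℓ) (NBe_mul haint haint)
  -- `ℓ a²` is integral over `K[1/ℓ]`
  have hy2 : IntOver K ℓ⁻¹ (ℓ * (a * a)) := by
    obtain ⟨I, V, hV1, hV2, hV3⟩ := places ℓ⁻¹ htr' (by rw [NBe_adjoin]; exact h.fin)
    apply hV2
    intro i
    have hinv : (V i).ge 0 ℓ⁻¹ := hV1 i _ (NBe_self _)
    have hvle : (V i).v ℓ ≤ 0 := by
      rcases hinv with h1 | h1
      · exact absurd h1 (inv_ne_zero hℓ0)
      · rw [(V i).v_inv ℓ hℓ0] at h1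
        omega
    rcases hvle.lt_or_eq with hlt | heq
    · obtain ⟨e, he, hve⟩ : ∃ e : ℕ, 0 < e ∧ (V i).v ℓ = -(e : ℤ) :=
        ⟨(-(V i).v ℓ).toNat, by omega, by omega⟩
      have hloc := local_inf h (V i) e he hve (hV3 i)
      have hψ2 : (V i).ge (-((e : ℤ) * (κ + 2))) (ψ ^ 2) := by
        have h1 := NBe_deg (V i) hℓ0 hve hψk
        push_cast at h1
        exact h1
      have hord := order_inf (V i) d ℓ hℓ0 h.dl e he hve hloc κ a ψ ha hψ2 hb
      right
      rw [(V i).mul _ _ hℓ0 (mul_ne_zero ha ha), (V i).mul _ _ ha ha, hve]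
      have h1 : (1 : ℤ) ≤ (κ : ℤ) := by exact_mod_cast hκ
      have h2 : (0 : ℤ) < (e : ℤ) := by exact_mod_cast he
      nlinarith
    · have hℓi : (V i).ge 0 ℓ := Or.inr heq.ge
      have hai : (V i).ge 0 a := DVal.of_intOver (V i) hℓi haint
      have h1 := (V i).ge_mul hℓi ((V i).ge_mul hai hai)
      rwa [add_zero, add_zero] at h1
  obtain ⟨c, hc⟩ := const_of_both ℓ hℓ0 h.tr _ hy1 hy2
  have hc0 : algebraMap K L c ≠ 0 := by
    rw [← hc]
    exact mul_ne_zero hℓ0 (mul_ne_zero ha ha)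
  have hinvint : IntOver K ℓ ℓ⁻¹ := by
    have h1 : ℓ⁻¹ = algebraMap K L c⁻¹ * (a * a) := by
      rw [map_inv₀, ← hc]
      field_simp
    rw [h1]
    exact NBe_mul (NBe_const ℓ _) (NBe_mul haint haint)
  obtain ⟨c', hc'⟩ := const_of_both ℓ hℓ0 h.tr _ hinvint (NBe_self _)
  refine htr' (Polynomial.X - Polynomial.C c') (Polynomial.X_sub_C_ne_zero c') ?_
  rw [map_sub, Polynomial.aeval_X, Polynomial.aeval_C, hc', sub_self]

end Pool.Agent.H85.OU

end S_OU_NBe
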