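import Mathlib
import Pool.Agent.H85.OM.M01
import Pool.Agent.H85.OM.M03
import Pool.Agent.H85.OM.M04

/-! First slopes of modular forms, part M05: this file joins several modules to save build time. -/

section S_OT_Zext

/-!
# Row ZEXT (project OT): extension of a `ZD` structure to `R[X]`

`Z'`: `ev' P = eval₂ ev T P`, `d' = dext d g`, `B' n e P := natDegree P ≤ e ∧ ∀ i, B n e (P.coeff i)`.
* `ev'(d' P) = del (ev' P)`: both sides are derivations over `ev'` (additive and Leibniz), so it is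
  enough to check on `C a` (`ev_d`, `dext_C`) and `X` (`hT`, `dext_X`)
  (`Polynomial.induction_on`).
* integer multiples: `B n e r → B n e (k * r)` for `k : ℕ`, by induction from `B_zero`-`B_mono`, `B_add`.
* products: `natDegree (P*Q) ≤ e + e'`; the coefficients are sums over an antidiagonal of
  elements of `B (n+n') (e+e')`.
* `d' P = mapc d P + g P'`: coefficient `i` of `mapc d P` lies in `B (n+c) (e+c)`; the coefficients of `P'`
  are integer multiples of those of `P`, those of `g P'` lie in `B (n + c1) (e + c1)`;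
  `natDegree ≤ e + 1` since `natDegree g ≤ 2` (if `natDegree P = 0` then `P' = 0`, else
  `natDegree P' ≤ natDegree P - 1`).  Take `c' = max c (max c1 1)` or `c + c1 + 1`.
-/

open PowerSeries

namespace Pool.Agent.H85.OT

private theorem Zext_sum {K : Type*} [Field K] {R : Type*} [CommRing R] (Z : ZD K R) {ι : Type*} {n e : ℕ}
    (s : Finset ι) (f : ι → R) (h : ∀ i ∈ s, Z.B n e (f i)) : Z.B n e (∑ i ∈ s, f i) := by
  classical
  induction s using Finset.induction_on with
  | empty =>
    rw [Finset.sum_empty]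
    exact Z.B_mono (Nat.zero_le _) (Nat.zero_le _) Z.B_zero
  | insert a s ha ih =>
    rw [Finset.sum_insert ha]
    exact Z.B_add (h a (Finset.mem_insert_self _ _)) (ih fun i hi => h i (Finset.mem_insert_of_mem hi))

private theorem Zext_nat {K : Type*} [Field K] {R : Type*} [CommRing R] (Z : ZD K R) {n e : ℕ} {r : R}
    (h : Z.B n e r) (k : ℕ) : Z.B n e ((k : R) * r) := by
  induction k with
  | zero =>
    rw [Nat.cast_zero, zero_mul]
    exact Z.B_mono (Nat.zero_le _) (Nat.zero_le _) Z.B_zero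
  | succ k ih =>
    rw [Nat.cast_succ, add_mul, one_mul]
    exact Z.B_add ih h

private theorem Zext_ev {K : Type*} [Field K] {R : Type*} [CommRing R] (Z : ZD K R)
    (g : Polynomial R) (T : K⟦X⟧) (hT : del K T = g.eval₂ Z.ev T) (P : Polynomial R) :
    (dext Z.d g P).eval₂ Z.ev T = del K (P.eval₂ Z.ev T) := by
  have hmul : ∀ P Q : Polynomial R, (dext Z.d g P).eval₂ Z.ev T = del K (P.eval₂ Z.ev T) →
      (dext Z.d g Q).eval₂ Z.ev T = del K (Q.eval₂ Z.ev T) →
      (dext Z.d g (P * Q)).eval₂ Z.ev T = del K ((P * Q).eval₂ Z.ev T) := by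
    intro P Q hP hQ
    rw [Dv.map_mul, Polynomial.eval₂_add, Polynomial.eval₂_mul, Polynomial.eval₂_mul, Polynomial.eval₂_mul,
      Dv.map_mul, hP, hQ]
  have hC : ∀ a : R, (dext Z.d g (Polynomial.C a)).eval₂ Z.ev T = del K ((Polynomial.C a).eval₂ Z.ev T) := by
    intro a
    rw [dext_C, Polynomial.eval₂_C, Polynomial.eval₂_C, Z.ev_d]
  have hX : (dext Z.d g Polynomial.X).eval₂ Z.ev T = del K ((Polynomial.X : Polynomial R).eval₂ Z.ev T) := by
    rw [dext_X, Polynomial.eval₂_X, hT]
  induction P using Polynomial.induction_on with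
  | C a => exact hC a
  | add P Q hP hQ => rw [Dv.map_add, Polynomial.eval₂_add, Polynomial.eval₂_add, Dv.map_add, hP, hQ]
  | monomial n a h =>
    rw [pow_succ, ← mul_assoc]
    exact hmul _ _ h hX

private theorem Zext_deg {R : Type*} [CommRing R] (d : Dv R) (P : Polynomial R) :
    (mapc d P).natDegree ≤ P.natDegree := by
  rw [Polynomial.natDegree_le_iff_coeff_eq_zero]
  intro N hN
  rw [coeff_mapc, Polynomial.coeff_eq_zero_of_natDegree_lt hN, d.map_zero]

theorem exists_ext {K : Type*} [Field K] {R : Type*} [CommRing R] (Z : ZD K R)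
    (g : Polynomial R) (hg : g.natDegree ≤ 2) (c1 : ℕ) (hgB : ∀ i, Z.B c1 c1 (g.coeff i))
    (T : K⟦X⟧) (hT : del K T = g.eval₂ Z.ev T) :
    ∃ Z' : ZD K (Polynomial R), Z'.d = dext Z.d g ∧
      (∀ P, Z'.ev P = P.eval₂ Z.ev T) ∧
      (∀ n e P, Z'.B n e P ↔ (P.natDegree ≤ e ∧ ∀ i, Z.B n e (P.coeff i))) := by
  refine ⟨{
    ev := Polynomial.eval₂RingHom Z.ev T
    d := dext Z.d g
    ev_d := fun P => Zext_ev Z g T hT P
    B := fun n e P => P.natDegree ≤ e ∧ ∀ i, Z.B n e (P.coeff i)
    c := Z.c + c1 + 2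
    B_mono := ?_
    B_zero := ?_
    B_one := ?_
    B_add := ?_
    B_neg := ?_
    B_mul := ?_
    B_d := ?_ }, rfl, fun P => rfl, fun n e P => Iff.rfl⟩
  · intro n n' e e' P hn he hP
    exact ⟨hP.1.trans he, fun i => Z.B_mono hn he (hP.2 i)⟩
  · refine ⟨by simp, fun i => ?_⟩
    rw [Polynomial.coeff_zero]
    exact Z.B_zero
  · refine ⟨by simp, fun i => ?_⟩
    rw [Polynomial.coeff_one]
    split_ifs
    · exact Z.B_one
    · exact Z.B_zero
  · intro n e P Q hP hQ
    refine ⟨Polynomial.natDegree_add_le_of_degree_le hP.1 hQ.1, fun i => ?_⟩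
    rw [Polynomial.coeff_add]
    exact Z.B_add (hP.2 i) (hQ.2 i)
  · intro n e P hP
    refine ⟨by rw [Polynomial.natDegree_neg]; exact hP.1, fun i => ?_⟩
    rw [Polynomial.coeff_neg]
    exact Z.B_neg (hP.2 i)
  · intro n e n' e' P Q hP hQ
    refine ⟨Polynomial.natDegree_mul_le.trans (Nat.add_le_add hP.1 hQ.1), fun i => ?_⟩
    rw [Polynomial.coeff_mul]
    exact Zext_sum Z _ _ fun x _ => Z.B_mul (hP.2 x.1) (hQ.2 x.2)
  · intro n e P hP
    have hd1 : (g * Polynomial.derivative P).natDegree ≤ e + (Z.c + c1 + 2) := by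
      refine Polynomial.natDegree_mul_le.trans ?_
      have h1 := Polynomial.natDegree_derivative_le P
      have h2 := hP.1
      omega
    refine ⟨?_, fun i => ?_⟩
    · rw [dext_apply]
      refine Polynomial.natDegree_add_le_of_degree_le ?_ hd1
      have h1 := Zext_deg Z.d P
      have h2 := hP.1
      omega
    · rw [coeff_dext]
      refine Z.B_add (Z.B_mono (by omega) (by omega) (Z.B_d (hP.2 i))) ?_
      rw [Polynomial.coeff_mul]
      refine Zext_sum Z _ _ fun x _ => ?_
      rw [Polynomial.coeff_derivative]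
      have h1 : Z.B n e (((x.2 + 1 : ℕ) : R) * P.coeff (x.2 + 1)) := Zext_nat Z (hP.2 _) _
      have h2 := Z.B_mul (hgB x.1) h1
      have h3 : g.coeff x.1 * (P.coeff (x.2 + 1) * ((x.2 : R) + 1)) =
          g.coeff x.1 * (((x.2 + 1 : ℕ) : R) * P.coeff (x.2 + 1)) := by
        push_cast
        ring
      rw [h3]
      exact Z.B_mono (by omega) (by omega) h2

end Pool.Agent.H85.OT

end S_OT_Zext

section S_OT_Zlin

/-!
# Row ZLIN (project OT): the zero estimate passes to a linear extension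

Claim, by induction on `k`: for all `e` there is `C` such that for all `n` and all `P : R[X]` with
`natDegree P ≤ k`, all coefficients in `B n e`, `P ≠ 0`, some coefficient `l ≤ C (n+1)` of `ev' P` is
nonzero.  (`Zest` for `Z'` at `e`: take `k = e`.)
* `k = 0`: `P = C a`, `ev' P = ev a`, `Zest` for `Z`.
* `k + 1`: if `natDegree P ≤ k` use the induction hypothesis.  Otherwise `natDegree P = r = k + 1 ≥ 1`,
  leading coefficient `p_r ≠ 0`.  Put
  `P1 = C p_r * d' P - C (d p_r + r β p_r) * P`.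
  By `coeff_dext_lin` the coefficient of `X^r` in `d' P` is `d p_r + r β p_r` and higher ones vanish, so
  `natDegree P1 ≤ k`.  `P1 ≠ 0`: otherwise the coefficient of `X^(r-1)` gives
  `p_r (d p_(r-1) + r α p_r + (r-1) β p_(r-1)) = (d p_r + r β p_r) p_(r-1)`, i.e.
  `p_r d p_(r-1) - p_(r-1) d p_r = β p_(r-1) p_r - r α p_r²`, and then
  `q = r p_r`, `p = - p_(r-1)` satisfy `q dp - p dq = α q² + β p q` and `q ≠ 0` (`CharZero`, domain),
  contradicting `NS`.
  The coefficients of `P1` lie in `B (2n + c2) (2e + c2)` for a constant `c2` depending only on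
  `Z.c, c1` (integer multiples of elements of `B n e` are in `B n e`).  By the induction
  hypothesis (for `e' = 2e + c2`) there is `l ≤ C' (2n + c2 + 1)` with coefficient `l` of `ev' P1` nonzero.
  If all coefficients `≤ l` of `ev' P` vanished, so would those of `ev' (d' P) = del (ev' P)` (`Van.del`) and of
  `ev' P1` (`Van.mul`, `Van.sub`).  So some coefficient `≤ l` of `ev' P` is nonzero;
  `C = C' (2 + c2 + 1)` works as `2n + c2 + 1 ≤ (c2 + 3)(n+1)`.
-/

open PowerSeries

namespace Pool.Agent.H85.OT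

theorem Zlin_nat {K : Type*} [Field K] {R : Type*} [CommRing R] (Z : ZD K R) {n e : ℕ} {r : R}
    (h : Z.B n e r) (m : ℕ) : Z.B n e ((m : R) * r) := by
  induction m with
  | zero =>
    rw [Nat.cast_zero, zero_mul]
    exact Z.B_mono (Nat.zero_le _) (Nat.zero_le _) Z.B_zero
  | succ m ih =>
    rw [Nat.cast_succ, add_mul, one_mul]
    exact Z.B_add ih h

theorem Zlin_sub {K : Type*} [Field K] {R : Type*} [CommRing R] (Z : ZD K R) {n e : ℕ} {r s : R}
    (h : Z.B n e r) (h' : Z.B n e s) : Z.B n e (r - s) := by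
  rw [sub_eq_add_neg]
  exact Z.B_add h (Z.B_neg h')

theorem Zlin_main {K : Type*} [Field K] {R : Type*} [CommRing R] [IsDomain R] [CharZero R]
    (Z : ZD K R) (hZ : Z.Zest) (α β : R) (c1 : ℕ) (hα : Z.B c1 c1 α) (hβ : Z.B c1 c1 β)
    (hNS : NS Z.d α β) (Z' : ZD K (Polynomial R))
    (hd : Z'.d = dext Z.d (Polynomial.C α + Polynomial.C β * Polynomial.X))
    (hev : ∀ a, Z'.ev (Polynomial.C a) = Z.ev a) (k : ℕ) :
    ∀ e : ℕ, ∃ C : ℕ, ∀ (n : ℕ) (P : Polynomial R), P.natDegree ≤ k →
      (∀ i, Z.B n e (P.coeff i)) → P ≠ 0 →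
      ∃ l ≤ C * (n + 1), PowerSeries.coeff l (Z'.ev P) ≠ 0 := by
  induction k with
  | zero =>
    intro e
    obtain ⟨C, hC⟩ := hZ e
    refine ⟨C, fun n P hP hPB hP0 => ?_⟩
    have hPC := Polynomial.eq_C_of_natDegree_le_zero hP
    have h0 : P.coeff 0 ≠ 0 := by
      intro h0
      rw [h0, Polynomial.C_0] at hPC
      exact hP0 hPC
    obtain ⟨l, hl, h1⟩ := hC n (P.coeff 0) (hPB 0) h0
    refine ⟨l, hl, ?_⟩
    rw [hPC, hev]
    exact h1
  | succ k ih =>
    intro e
    obtain ⟨C', hC'⟩ := ih (2 * e + (Z.c + c1))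
    refine ⟨C' * ((Z.c + c1) + 2), fun n P hP hPB hP0 => ?_⟩
    by_cases hk : P.natDegree ≤ k
    · obtain ⟨l, hl, h1⟩ := hC' n P hk (fun i => Z.B_mono le_rfl (by omega) (hPB i)) hP0
      refine ⟨l, hl.trans ?_, h1⟩
      refine Nat.mul_le_mul_right _ ?_
      exact Nat.le_mul_of_pos_right _ (by omega)
    · have hr : P.natDegree = k + 1 := by omega
      obtain ⟨pr, hpr⟩ : ∃ x, x = P.coeff (k + 1) := ⟨_, rfl⟩
      have hpr0 : pr ≠ 0 := by
        rw [hpr, ← hr]
        exact fun h => hP0 (Polynomial.leadingCoeff_eq_zero.1 h)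
      have hvan : ∀ i, k + 1 < i → P.coeff i = 0 := fun i hi =>
        Polynomial.coeff_eq_zero_of_natDegree_lt (by omega)
      obtain ⟨γ, hγ⟩ : ∃ x, x = Z.d pr + ((k + 1 : ℕ) : R) * (β * pr) := ⟨_, rfl⟩
      obtain ⟨P1, hP1⟩ : ∃ Q : Polynomial R, Q = Polynomial.C pr * Z'.d P - Polynomial.C γ * P := ⟨_, rfl⟩
      have hco : ∀ i, P1.coeff i = pr * (Z.d (P.coeff i) + ((i : R) + 1) * α * P.coeff (i + 1) +
          (i : R) * β * P.coeff i) - γ * P.coeff i := by
        intro i
        rw [hP1, hd, Polynomial.coeff_sub, Polynomial.coeff_C_mul, Polynomial.coeff_C_mul,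
          coeff_dext_lin]
      have hdeg : P1.natDegree ≤ k := by
        rw [Polynomial.natDegree_le_iff_coeff_eq_zero]
        intro i hi
        rw [hco]
        rcases Nat.lt_or_ge (k + 1) i with h | h
        · rw [hvan i h, hvan (i + 1) (by omega), Z.d.map_zero]
          ring
        · have hik : i = k + 1 := by omega
          rw [hik, hvan (k + 1 + 1) (by omega), ← hpr, hγ]
          push_cast
          ring
      have hP10 : P1 ≠ 0 := by
        intro h0
        have h1 := hco k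
        rw [h0, Polynomial.coeff_zero, ← hpr, hγ] at h1
        have hq : (((k + 1 : ℕ) : R) * pr) ≠ 0 :=
          mul_ne_zero (Nat.cast_ne_zero.2 (Nat.succ_ne_zero k)) hpr0
        refine hNS (-P.coeff k) (((k + 1 : ℕ) : R) * pr) hq ?_
        rw [Z.d.map_neg, Z.d.map_mul, Z.d.map_natCast]
        push_cast at h1 ⊢
        linear_combination ((k : R) + 1) * h1
      have hB1 : ∀ i, Z.B (2 * n + (Z.c + c1)) (2 * e + (Z.c + c1)) (P1.coeff i) := by
        intro i
        rw [hco]
        have hb1 : Z.B (n + (Z.c + c1)) (e + (Z.c + c1)) γ := by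
          rw [hγ]
          refine Z.B_add ?_ ?_
          · rw [hpr]
            exact Z.B_mono (by omega) (by omega) (Z.B_d (hPB (k + 1)))
          · refine Zlin_nat Z ?_ _
            rw [hpr]
            exact Z.B_mono (by omega) (by omega) (Z.B_mul hβ (hPB (k + 1)))
        have hb2 : Z.B (n + (Z.c + c1)) (e + (Z.c + c1)) (Z.d (P.coeff i) +
            ((i : R) + 1) * α * P.coeff (i + 1) + (i : R) * β * P.coeff i) := by
          refine Z.B_add (Z.B_add ?_ ?_) ?_
          · exact Z.B_mono (by omega) (by omega) (Z.B_d (hPB i))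
          · have e1 : ((i : R) + 1) * α * P.coeff (i + 1) =
                ((i + 1 : ℕ) : R) * (α * P.coeff (i + 1)) := by
              push_cast
              ring
            rw [e1]
            refine Zlin_nat Z ?_ _
            exact Z.B_mono (by omega) (by omega) (Z.B_mul hα (hPB (i + 1)))
          · rw [mul_assoc]
            refine Zlin_nat Z ?_ _
            exact Z.B_mono (by omega) (by omega) (Z.B_mul hβ (hPB i))
        refine Zlin_sub Z ?_ ?_
        · rw [hpr]
          exact Z.B_mono (by omega) (by omega) (Z.B_mul (hPB (k + 1)) hb2)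
        · exact Z.B_mono (by omega) (by omega) (Z.B_mul hb1 (hPB i))
      obtain ⟨l, hl, h1⟩ := hC' (2 * n + (Z.c + c1)) P1 hdeg hB1 hP10
      have hnv : ¬ Van l (Z'.ev P) := by
        intro hv
        apply h1
        have h2 : Z'.ev P1 = Z'.ev (Polynomial.C pr) * del K (Z'.ev P) -
            Z'.ev (Polynomial.C γ) * Z'.ev P := by
          rw [hP1, _root_.map_sub, _root_.map_mul, _root_.map_mul, Z'.ev_d]
        rw [h2]
        exact ((hv.del).mul _).sub (hv.mul _) l le_rfl
      unfold Van at hnv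
      push Not at hnv
      obtain ⟨l', hl', h3⟩ := hnv
      refine ⟨l', hl'.trans (hl.trans ?_), h3⟩
      rw [mul_assoc]
      refine Nat.mul_le_mul_left _ ?_
      nlinarith [Nat.zero_le n, Nat.zero_le (Z.c + c1), Nat.zero_le ((Z.c + c1) * n)]

theorem zest_lin {K : Type*} [Field K] {R : Type*} [CommRing R] [IsDomain R] [CharZero R]
    (Z : ZD K R) (hZ : Z.Zest) (α β : R) (c1 : ℕ) (hα : Z.B c1 c1 α) (hβ : Z.B c1 c1 β)
    (hNS : NS Z.d α β) (Z' : ZD K (Polynomial R))
    (hd : Z'.d = dext Z.d (Polynomial.C α + Polynomial.C β * Polynomial.X))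
    (hev : ∀ a, Z'.ev (Polynomial.C a) = Z.ev a)
    (hB : ∀ n e P, Z'.B n e P ↔ (P.natDegree ≤ e ∧ ∀ i, Z.B n e (P.coeff i))) :
    Z'.Zest := by
  intro e
  obtain ⟨C, hC⟩ := Zlin_main Z hZ α β c1 hα hβ hNS Z' hd hev e e
  refine ⟨C, fun n r hr hr0 => ?_⟩
  obtain ⟨h1, h2⟩ := (hB n e r).1 hr
  exact hC n r h1 h2 hr0

end Pool.Agent.H85.OT

end S_OT_Zlin

section S_OU_ZR

/-!
# Row ZR (project OU): the zero estimate for the Riccati extension of a general ring

Same as row ZRIC (file `OT/Zric.lean`, copy and adapt) and `OT/Zlin.lean` (`Zlin_nat`, `Zlin_sub`).  `R` a domain of characteristic zero, `d = Z.d`, `d' = dext d (C g - X²)`; coefficients: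
`(d' P)_(j+1) = d P_(j+1) + (j+2) g P_(j+2) - j P_j`, `(d' P)_0 = d P_0 + g P_1`.
Claim, by induction on `k`: for all `e` there is `C` such that for all `n` and all `P` with `natDegree P ≤ k`, all coefficients in `B n e`, `P ≠ 0`, some coefficient
`l ≤ C (n+1)` of `ev' P` is nonzero.
* `k = 0`: `Zest` for `Z`.
* `k + 1`: let `natDegree P = r = k+1 ≥ 1`, `p_r ≠ 0` its leading coefficient.  Put `P2 = C p_r * (d' P + r X P) - C (d p_r + p_(r-1)) * P`.
  The coefficients of `d' P + r X P` at `X^(r+1)` and `X^r` are `- r p_r + r p_r = 0` and `d p_r - (r-1) p_(r-1) + r p_(r-1) = d p_r + p_(r-1)`; so `natDegree P2 ≤ r - 1 = k`.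
  `P2 ≠ 0`: otherwise `C p_r * d' P = (C (d p_r + p_(r-1)) - C p_r * r X) * P`, so `P ∣ C p_r * d' P`, and `hDL` gives `natDegree P = 0`, contradiction.
  The coefficients of `P2` lie in `B (2n + c2) (2e + c2)`, `c2` depending only on `Z.c, c1`.  Induction hypothesis for `e' = 2e + c2`; `ev' P2` is a combination of
  `ev' P` and `del (ev' P)`, so some coefficient `≤ l` of `ev' P` is nonzero (`Van`).
-/

open PowerSeries
open Pool.Agent.H85.OT

namespace Pool.Agent.H85.OU

theorem ZR_coeff {R : Type*} [CommRing R] (d : Dv R) (g : R) (P : Polynomial R) (j : ℕ) :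
    (dext d (Polynomial.C g - Polynomial.X ^ 2) P).coeff (j + 1) = d (P.coeff (j + 1)) +
      ((j : R) + 2) * g * P.coeff (j + 2) - (j : R) * P.coeff j := by
  rw [coeff_dext]
  have : (Polynomial.C g - Polynomial.X ^ 2) * Polynomial.derivative P =
    Polynomial.C g * Polynomial.derivative P -
      Polynomial.X * (Polynomial.X * Polynomial.derivative P) := by ring
  rw [this, Polynomial.coeff_sub, Polynomial.coeff_C_mul, Polynomial.coeff_X_mul]
  rcases j with _ | j
  · simp [Polynomial.coeff_derivative]; ring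
  · rw [Polynomial.coeff_X_mul, Polynomial.coeff_derivative, Polynomial.coeff_derivative]
    push_cast; ring

theorem ZR_coeff_zero {R : Type*} [CommRing R] (d : Dv R) (g : R) (P : Polynomial R) :
    (dext d (Polynomial.C g - Polynomial.X ^ 2) P).coeff 0 = d (P.coeff 0) + g * P.coeff 1 := by
  rw [coeff_dext]
  have : (Polynomial.C g - Polynomial.X ^ 2) * Polynomial.derivative P =
    Polynomial.C g * Polynomial.derivative P -
      Polynomial.X * (Polynomial.X * Polynomial.derivative P) := by ring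
  rw [this, Polynomial.coeff_sub, Polynomial.coeff_C_mul, Polynomial.coeff_X_mul_zero]
  simp [Polynomial.coeff_derivative]

theorem ZR_main {K : Type*} [Field K] {R : Type*} [CommRing R] [IsDomain R] [CharZero R]
    (Z : ZD K R) (hZ : Z.Zest) (g : R) (c1 : ℕ) (hg : Z.B c1 c1 g)
    (hDL : ∀ P : Polynomial R, P ≠ 0 → ∀ c : R, c ≠ 0 →
      P ∣ Polynomial.C c * dext Z.d (Polynomial.C g - Polynomial.X ^ 2) P → P.natDegree = 0)
    (Z' : ZD K (Polynomial R))
    (hd : Z'.d = dext Z.d (Polynomial.C g - Polynomial.X ^ 2))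
    (hev : ∀ a, Z'.ev (Polynomial.C a) = Z.ev a) (k : ℕ) :
    ∀ e : ℕ, ∃ C : ℕ, ∀ (n : ℕ) (P : Polynomial R), P.natDegree ≤ k →
      (∀ i, Z.B n e (P.coeff i)) → P ≠ 0 →
      ∃ l ≤ C * (n + 1), PowerSeries.coeff l (Z'.ev P) ≠ 0 := by
  induction k with
  | zero =>
    intro e
    obtain ⟨C, hC⟩ := hZ e
    refine ⟨C, fun n P hP hPB hP0 => ?_⟩
    have hPC := Polynomial.eq_C_of_natDegree_le_zero hP
    have h0 : P.coeff 0 ≠ 0 := by
      intro h0
      rw [h0, Polynomial.C_0] at hPC
      exact hP0 hPC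
    obtain ⟨l, hl, h1⟩ := hC n (P.coeff 0) (hPB 0) h0
    refine ⟨l, hl, ?_⟩
    rw [hPC, hev]
    exact h1
  | succ k ih =>
    intro e
    obtain ⟨C', hC'⟩ := ih (2 * e + (Z.c + c1))
    refine ⟨C' * ((Z.c + c1) + 2), fun n P hP hPB hP0 => ?_⟩
    by_cases hk : P.natDegree ≤ k
    · obtain ⟨l, hl, h1⟩ := hC' n P hk (fun i => Z.B_mono le_rfl (by omega) (hPB i)) hP0
      refine ⟨l, hl.trans ?_, h1⟩
      refine Nat.mul_le_mul_right _ ?_
      exact Nat.le_mul_of_pos_right _ (by omega)
    · have hr : P.natDegree = k + 1 := by omega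
      obtain ⟨pr, hpr⟩ : ∃ x, x = P.coeff (k + 1) := ⟨_, rfl⟩
      have hpr0 : pr ≠ 0 := by
        rw [hpr, ← hr]
        exact fun h => hP0 (Polynomial.leadingCoeff_eq_zero.1 h)
      have hvan : ∀ i, k + 1 < i → P.coeff i = 0 := fun i hi =>
        Polynomial.coeff_eq_zero_of_natDegree_lt (by omega)
      obtain ⟨γ, hγ⟩ : ∃ x, x = Z.d pr + P.coeff k := ⟨_, rfl⟩
      obtain ⟨P2, hP2⟩ : ∃ Q : Polynomial R, Q = Polynomial.C pr *
          (Z'.d P + ((k + 1 : ℕ) : Polynomial R) * (Polynomial.X * P)) -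
            Polynomial.C γ * P := ⟨_, rfl⟩
      have hco : ∀ j, P2.coeff (j + 1) = pr * (Z.d (P.coeff (j + 1)) +
          ((j : R) + 2) * g * P.coeff (j + 2) - (j : R) * P.coeff j +
            ((k + 1 : ℕ) : R) * P.coeff j) - γ * P.coeff (j + 1) := by
        intro j
        rw [hP2, hd, Polynomial.coeff_sub, Polynomial.coeff_C_mul, Polynomial.coeff_C_mul,
          Polynomial.coeff_add, ZR_coeff, Polynomial.coeff_natCast_mul, Polynomial.coeff_X_mul]
      have hco0 : P2.coeff 0 = pr * (Z.d (P.coeff 0) + g * P.coeff 1) - γ * P.coeff 0 := by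
        rw [hP2, hd, Polynomial.coeff_sub, Polynomial.coeff_C_mul, Polynomial.coeff_C_mul,
          Polynomial.coeff_add, ZR_coeff_zero, Polynomial.coeff_natCast_mul,
          Polynomial.coeff_X_mul_zero, mul_zero, add_zero]
      have hdeg : P2.natDegree ≤ k := by
        rw [Polynomial.natDegree_le_iff_coeff_eq_zero]
        intro i hi
        obtain ⟨j, rfl⟩ : ∃ j, i = j + 1 := ⟨i - 1, by omega⟩
        rw [hco]
        rcases Nat.lt_or_ge k j with hkj | hkj
        · rw [hvan (j + 1) (by omega), hvan (j + 2) (by omega), Z.d.map_zero]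
          rcases Nat.lt_or_ge (k + 1) j with h1 | h1
          · rw [hvan j h1]
            ring
          · have h2 : j = k + 1 := by omega
            subst h2
            ring
        · have h2 : j = k := by omega
          subst h2
          rw [hvan (j + 2) (by omega), ← hpr, hγ]
          push_cast
          ring
      have hP20 : P2 ≠ 0 := by
        intro h
        have h1 : P ∣ Polynomial.C pr * dext Z.d (Polynomial.C g - Polynomial.X ^ 2) P := by
          refine ⟨Polynomial.C γ -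
            Polynomial.C pr * (((k + 1 : ℕ) : Polynomial R) * Polynomial.X), ?_⟩
          rw [hP2, sub_eq_zero, hd] at h
          have h2 : Polynomial.C pr * dext Z.d (Polynomial.C g - Polynomial.X ^ 2) P =
              Polynomial.C pr * (dext Z.d (Polynomial.C g - Polynomial.X ^ 2) P +
                ((k + 1 : ℕ) : Polynomial R) * (Polynomial.X * P)) -
              Polynomial.C pr *
                (((k + 1 : ℕ) : Polynomial R) * (Polynomial.X * P)) := by ring
          rw [h2, h]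
          ring
        have h3 := hDL P hP0 pr hpr0 h1
        omega
      have hb1 : Z.B (n + (Z.c + c1)) (e + (Z.c + c1)) γ := by
        rw [hγ]
        refine Z.B_add ?_ ?_
        · rw [hpr]
          exact Z.B_mono (by omega) (by omega) (Z.B_d (hPB (k + 1)))
        · exact Z.B_mono (by omega) (by omega) (hPB k)
      have hb3 : Z.B n e pr := by
        rw [hpr]
        exact hPB _
      have hB1 : ∀ i, Z.B (2 * n + (Z.c + c1)) (2 * e + (Z.c + c1)) (P2.coeff i) := by
        intro i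
        rcases i with _ | j
        · rw [hco0]
          refine Zlin_sub Z ?_ ?_
          · refine Z.B_mono (n := n + (n + (Z.c + c1))) (e := e + (e + (Z.c + c1)))
              (by omega) (by omega) (Z.B_mul hb3 (Z.B_add ?_ ?_))
            · exact Z.B_mono (by omega) (by omega) (Z.B_d (hPB 0))
            · exact Z.B_mono (by omega) (by omega) (Z.B_mul hg (hPB 1))
          · exact Z.B_mono (by omega) (by omega) (Z.B_mul hb1 (hPB 0))
        · rw [hco]
          refine Zlin_sub Z ?_ ?_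
          · refine Z.B_mono (n := n + (n + (Z.c + c1))) (e := e + (e + (Z.c + c1)))
              (by omega) (by omega) (Z.B_mul hb3 (Z.B_add (Zlin_sub Z (Z.B_add ?_ ?_) ?_) ?_))
            · exact Z.B_mono (by omega) (by omega) (Z.B_d (hPB (j + 1)))
            · have e1 : ((j : R) + 2) * g * P.coeff (j + 2) =
                  ((j + 2 : ℕ) : R) * (g * P.coeff (j + 2)) := by
                push_cast
                ring
              rw [e1]
              refine Zlin_nat Z ?_ _
              exact Z.B_mono (by omega) (by omega) (Z.B_mul hg (hPB (j + 2)))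
            · refine Zlin_nat Z ?_ _
              exact Z.B_mono (by omega) (by omega) (hPB j)
            · refine Zlin_nat Z ?_ _
              exact Z.B_mono (by omega) (by omega) (hPB j)
          · exact Z.B_mono (by omega) (by omega) (Z.B_mul hb1 (hPB (j + 1)))
      obtain ⟨l, hl, h1⟩ := hC' (2 * n + (Z.c + c1)) P2 hdeg hB1 hP20
      have hnv : ¬ Van l (Z'.ev P) := by
        intro hv
        apply h1
        have h2 : Z'.ev P2 = Z'.ev (Polynomial.C pr) * (del K (Z'.ev P) +
            Z'.ev (((k + 1 : ℕ) : Polynomial R) * Polynomial.X) * Z'.ev P) -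
            Z'.ev (Polynomial.C γ) * Z'.ev P := by
          rw [hP2, ← mul_assoc ((k + 1 : ℕ) : Polynomial R), _root_.map_sub, _root_.map_mul,
            _root_.map_add, Z'.ev_d, _root_.map_mul, _root_.map_mul, _root_.map_mul]
        rw [h2]
        exact ((hv.del.add (hv.mul _)).mul _).sub (hv.mul _) l le_rfl
      unfold Van at hnv
      push Not at hnv
      obtain ⟨l', hl', h3⟩ := hnv
      refine ⟨l', hl'.trans (hl.trans ?_), h3⟩
      rw [mul_assoc]
      refine Nat.mul_le_mul_left _ ?_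
      nlinarith [Nat.zero_le n, Nat.zero_le (Z.c + c1), Nat.zero_le ((Z.c + c1) * n)]

theorem zest_ricG {K : Type*} [Field K] {R : Type*} [CommRing R] [IsDomain R] [CharZero R]
    (Z : ZD K R) (hZ : Z.Zest) (g : R) (c1 : ℕ) (hg : Z.B c1 c1 g)
    (hDL : ∀ P : Polynomial R, P ≠ 0 → ∀ c : R, c ≠ 0 →
      P ∣ Polynomial.C c * dext Z.d (Polynomial.C g - Polynomial.X ^ 2) P → P.natDegree = 0)
    (Z' : ZD K (Polynomial R))
    (hd : Z'.d = dext Z.d (Polynomial.C g - Polynomial.X ^ 2))
    (hev : ∀ a, Z'.ev (Polynomial.C a) = Z.ev a)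
    (hB : ∀ n e P, Z'.B n e P ↔ (P.natDegree ≤ e ∧ ∀ i, Z.B n e (P.coeff i))) :
    Z'.Zest := by
  intro e
  obtain ⟨C, hC⟩ := ZR_main Z hZ g c1 hg hDL Z' hd hev e e
  refine ⟨C, fun n r hr hr0 => ?_⟩
  obtain ⟨h1, h2⟩ := (hB n e r).1 hr
  exact hC n r h1 h2 hr0

end Pool.Agent.H85.OU

end S_OU_ZR

section S_OT_Zdl2

/-!
# Row ZDL2 (project OT): Darboux polynomials in a linear extension

`R` a domain, `δ = dext d (α + β X)` on `R[X]`, `q ≠ 0`, `q ∣ δ q`.  Claim `natDegree q = 0`.
Suppose `e = natDegree q ≥ 1`.  By `coeff_dext_lin` `natDegree (δ q) ≤ e`, so the cofactor is a constant: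
`δ q = C L * q` (if `δ q = 0` take `L = 0`).  Coefficients of `X^e` and `X^(e-1)`:
`d q_e + e β q_e = L q_e`,
`d q_(e-1) + e α q_e + (e-1) β q_(e-1) = L q_(e-1)`.
Multiply the second by `q_e`, the first by `q_(e-1)` and subtract:
`q_e d q_(e-1) - q_(e-1) d q_e = - e α q_e² + β q_(e-1) q_e`, which contradicts `NS d (-(e) α) β` with
`q = q_e ≠ 0`, `p = q_(e-1)`.
-/

namespace Pool.Agent.H85.OT

theorem dl2 {R : Type*} [CommRing R] [IsDomain R] (d : Dv R) (α β : R)
    (hNS : ∀ e : ℕ, 1 ≤ e → NS d (-(e : R) * α) β) (q : Polynomial R) (hq : q ≠ 0)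
    (h : q ∣ dext d (Polynomial.C α + Polynomial.C β * Polynomial.X) q) : q.natDegree = 0 := by
  by_contra hne
  obtain ⟨e, he⟩ : ∃ e, q.natDegree = e + 1 := Nat.exists_eq_succ_of_ne_zero hne
  obtain ⟨c, hc⟩ := h
  have hdeg : (dext d (Polynomial.C α + Polynomial.C β * Polynomial.X) q).natDegree ≤ e + 1 := by
    rw [Polynomial.natDegree_le_iff_coeff_eq_zero]
    intro N hN
    rw [coeff_dext_lin, Polynomial.coeff_eq_zero_of_natDegree_lt (by omega),
      Polynomial.coeff_eq_zero_of_natDegree_lt (by omega), d.map_zero]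
    ring
  obtain ⟨L, hL⟩ : ∃ L : R, dext d (Polynomial.C α + Polynomial.C β * Polynomial.X) q =
      Polynomial.C L * q := by
    by_cases hc0 : c = 0
    · refine ⟨0, ?_⟩
      rw [hc, hc0, mul_zero, Polynomial.C_0, zero_mul]
    · have h1 : c.natDegree = 0 := by
        rw [hc, Polynomial.natDegree_mul hq hc0, he] at hdeg
        omega
      refine ⟨c.coeff 0, ?_⟩
      rw [hc, mul_comm]
      congr 1
      exact Polynomial.eq_C_of_natDegree_eq_zero h1
  have h2 := congrArg (fun P => Polynomial.coeff P (e + 1)) hL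
  have h3 := congrArg (fun P => Polynomial.coeff P e) hL
  simp only [coeff_dext_lin, Polynomial.coeff_C_mul] at h2 h3
  rw [Polynomial.coeff_eq_zero_of_natDegree_lt (n := e + 1 + 1) (by omega)] at h2
  have hqe : q.coeff (e + 1) ≠ 0 := by
    rw [← he]
    exact Polynomial.leadingCoeff_ne_zero.2 hq
  refine hNS (e + 1) (by omega) (q.coeff e) (q.coeff (e + 1)) hqe ?_
  push_cast at h2 h3 ⊢
  linear_combination q.coeff (e + 1) * h3 - q.coeff e * h2

end Pool.Agent.H85.OT

end S_OT_Zdl2

section S_OU_NSL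

/-!
# Row NSL (project OU): the two linear equations over a differential field

`L` a field of characteristic `0` with derivation `d`, `g ∈ L`, `∂ = dext d (C g - X²)` on `L[X]`.
`DLp d g`: every nonzero `P ∈ L[X]` with `P ∣ ∂P` is constant.
* `nsL1`: assume `DLp`, `κ ≥ 1` and that `nabs κ (κ+1) a ≠ C ((-1)^κ κ! ψ)` for all `a ∈ L`.  Then no `p, q`, `q ≠ 0` satisfy
  `q ∂p - p ∂q = ψ q² - κ X p q`.  Proof: `L[X]` is a UFD; divide by the gcd, so `p, q` are relatively prime; `q ∣ p ∂q` so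
  `q ∣ ∂q`, `q` is a nonzero constant by `DLp`; dividing, `∂P + κ X P = C ψ` for `P = p/q`... careful: with `q = C c`,
  `q ∂p - p ∂q = c ∂p - (dc) p`; the equation says `∂(p/q) = ψ - κ X (p/q)` for `P = C c⁻¹ * p` (`∂(C c⁻¹ p)` by Leibniz,
  `d(c⁻¹) = - dc/c²`).  So `nab κ P = C ψ`; `bol_unique` contradicts the hypothesis.
* `nsL2`: on `L[X][Y]`, `∂2 = dext ∂ (C (C ψ1) + C (-κX) * Y)`.  Assume `DLp`, `NS ∂ (C (s ψ1)) (-κX)` for all natural numbers... precisely for
  `s = -e`, `e ≥ 1`, and `NS ∂ (C (ψ2 - c ψ1)) (-κX)` for every `c ∈ L` with `d c = 0` (includes `c = 0`).  Then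
  `NS ∂2 (C (C ψ2)) (C (-κX))`.  Proof: `L[X][Y]` is a UFD; WLOG `p, q` relatively prime, `q ∣ ∂2 q`; `dl2` gives `q = C q1`, then
  `q1 ∣ ∂q1` (`dext_C`), `DLp`: `q1 = C c0`, `c0 ≠ 0`.  Replace `p` by `p/c0`: `∂2 p = ψ2 - κ X p`.  Let `e = natDegree_Y p`, `p = ∑ p_j Y^j`
  (`p ≠ 0`: otherwise `ψ2 = 0`, and then `p = 0, q = 1` contradicts the hypothesis for `c = 0`).  By `coeff_dext_lin`
  `∂p_j + (j+1) ψ1 p_(j+1) - jκX p_j = -κX p_j + [j=0] ψ2`.  If `e ≥ 1`, `j = e`: `∂p_e = (e-1)κX p_e`; with `n = natDegree_X p_e` the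
  coefficient of `X^(n+1)` gives `-n = (e-1)κ`, so `n = 0, e = 1` and `p_1 = C c`, `d c = 0`.  `j = 0`: `∂p_0 = (ψ2 - c ψ1) - κX p_0`:
  contradicts `NS ∂ (C (ψ2 - cψ1)) (-κX)` with `q = 1`.  If `e = 0`: the same with `c = 0`.
-/

open PowerSeries
open Pool.Agent.H85.OT

namespace Pool.Agent.H85.OU

/-- every Darboux polynomial of the Riccati equation is constant -/
def DLp {L : Type*} [Field L] (d : Dv L) (g : L) : Prop :=
  ∀ P : Polynomial L, P ≠ 0 → P ∣ dext d (Polynomial.C g - Polynomial.X ^ 2) P → P.natDegree = 0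

/-- `-κ X` -/
noncomputable def bX {L : Type*} [CommRing L] (κ : ℕ) : Polynomial L :=
  -((κ : Polynomial L) * Polynomial.X)

theorem NSL_red {R : Type*} [CommRing R] [IsDomain R] [UniqueFactorizationMonoid R] (d : Dv R)
    (α β p q : R) (hq : q ≠ 0) (h : q * d p - p * d q = α * q ^ 2 + β * (p * q)) :
    ∃ p' q' : R, q' ≠ 0 ∧ q' * d p' - p' * d q' = α * q' ^ 2 + β * (p' * q') ∧ q' ∣ d q' := by
  obtain ⟨p', q', c, hrel, hp', hq'⟩ := UniqueFactorizationMonoid.exists_reduced_factors' p q hq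
  have hc : c ≠ 0 := by
    rintro rfl
    rw [zero_mul] at hq'
    exact hq hq'.symm
  have hq0 : q' ≠ 0 := by
    rintro rfl
    rw [mul_zero] at hq'
    exact hq hq'.symm
  rw [← hp', ← hq', d.map_mul, d.map_mul] at h
  have h1 : c ^ 2 * (q' * d p' - p' * d q') = c ^ 2 * (α * q' ^ 2 + β * (p' * q')) := by
    linear_combination h
  have h2 := mul_left_cancel₀ (pow_ne_zero 2 hc) h1
  refine ⟨p', q', hq0, h2, ?_⟩
  have h3 : q' ∣ p' * d q' := ⟨d p' - α * q' - β * p', by linear_combination -h2⟩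
  exact hrel.symm.dvd_of_dvd_mul_left h3

theorem NSL_unit {S : Type*} [CommRing S] (D : Dv S) (u v p α β : S) (huv : u * v = 1)
    (h : u * D p - p * D u = α * u ^ 2 + β * (p * u)) : D (v * p) = α + β * (v * p) := by
  have h1 : D u * v + u * D v = 0 := by
    rw [← D.map_mul, huv, D.map_one]
  rw [D.map_mul]
  linear_combination v ^ 2 * h + v * p * h1 - (p * D v + v * D p - α * (1 + u * v) - β * v * p) * huv

theorem NSL_top {L : Type*} [Field L] (d : Dv L) (g : L) (Q : Polynomial L) (n : ℕ)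
    (hn : Q.natDegree ≤ n) :
    (dext d (Polynomial.C g - Polynomial.X ^ 2) Q).coeff (n + 1) = -(n : L) * Q.coeff n := by
  have h0 : ∀ m, n < m → Q.coeff m = 0 := fun m hm =>
    Polynomial.coeff_eq_zero_of_natDegree_lt (lt_of_le_of_lt hn hm)
  rw [coeff_dext, sub_mul, Polynomial.coeff_sub, Polynomial.coeff_C_mul,
    Polynomial.coeff_derivative, h0 (n + 1) (by omega), h0 (n + 1 + 1) (by omega), d.map_zero,
    Polynomial.coeff_X_pow_mul']
  rcases n with _ | n
  · simp
  · rw [if_pos (by omega), show n + 1 + 1 - 2 = n by omega, Polynomial.coeff_derivative]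
    push_cast
    ring

theorem nsL1 {L : Type*} [Field L] [CharZero L] (d : Dv L) (g : L) (hDL : DLp d g) (κ : ℕ)
    (hκ : 0 < κ) (ψ : L)
    (hNA : ∀ a : L, nabs d g κ (κ + 1) a ≠ Polynomial.C ((-1) ^ κ * (κ.factorial : L) * ψ)) :
    NS (dext d (Polynomial.C g - Polynomial.X ^ 2)) (Polynomial.C ψ) (bX κ) := by
  intro p q hq h
  obtain ⟨p', q', hq', h', hdvd⟩ := NSL_red _ _ _ p q hq h
  have hdeg := hDL q' hq' hdvd
  obtain ⟨c, hc⟩ : ∃ c, q' = Polynomial.C c := ⟨q'.coeff 0, Polynomial.eq_C_of_natDegree_eq_zero hdeg⟩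
  have hc0 : c ≠ 0 := by
    rintro rfl
    rw [Polynomial.C_0] at hc
    exact hq' hc
  subst hc
  have h2 := NSL_unit _ (Polynomial.C c) (Polynomial.C c⁻¹) p' _ _
    (by rw [← Polynomial.C_mul, mul_inv_cancel₀ hc0, Polynomial.C_1]) h'
  have h3 : nab d g (κ : ℤ) (Polynomial.C c⁻¹ * p') = Polynomial.C ψ := by
    unfold nab
    rw [h2]
    unfold bX
    rw [Int.cast_natCast]
    ring
  obtain ⟨a, -, ha⟩ := bol_unique d g κ hκ _ ψ h3
  exact hNA a ha

theorem nsL2 {L : Type*} [Field L] [CharZero L] (d : Dv L) (g : L) (hDL : DLp d g) (κ : ℕ)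
    (hκ : 0 < κ) (ψ1 ψ2 : L)
    (h1 : ∀ e : ℕ, 1 ≤ e →
      NS (dext d (Polynomial.C g - Polynomial.X ^ 2)) (Polynomial.C (-(e : L) * ψ1)) (bX κ))
    (h2 : ∀ c : L, d c = 0 →
      NS (dext d (Polynomial.C g - Polynomial.X ^ 2)) (Polynomial.C (ψ2 - c * ψ1)) (bX κ)) :
    NS (dext (dext d (Polynomial.C g - Polynomial.X ^ 2))
        (Polynomial.C (Polynomial.C ψ1) + Polynomial.C (bX κ) * Polynomial.X))
      (Polynomial.C (Polynomial.C ψ2)) (Polynomial.C (bX κ)) := by
  intro p q hq h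
  obtain ⟨p', q', hq', h', hdvd⟩ := NSL_red _ _ _ p q hq h
  have hdeg := dl2 (dext d (Polynomial.C g - Polynomial.X ^ 2)) (Polynomial.C ψ1) (bX κ) (by
    intro e he
    have := h1 e he
    rwa [neg_mul, Polynomial.C_neg, Polynomial.C_mul, Polynomial.C_eq_natCast, ← neg_mul] at this)
    q' hq' hdvd
  obtain ⟨q1, hq1⟩ : ∃ c, q' = Polynomial.C c :=
    ⟨q'.coeff 0, Polynomial.eq_C_of_natDegree_eq_zero hdeg⟩
  subst hq1
  have hq10 : q1 ≠ 0 := by
    rintro rfl
    exact hq' Polynomial.C_0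
  have hdvd1 : q1 ∣ dext d (Polynomial.C g - Polynomial.X ^ 2) q1 := by
    rw [dext_C, Polynomial.C_dvd_iff_dvd_coeff] at hdvd
    have := hdvd 0
    rwa [Polynomial.coeff_C_zero] at this
  obtain ⟨c0, hc0⟩ : ∃ c, q1 = Polynomial.C c :=
    ⟨q1.coeff 0, Polynomial.eq_C_of_natDegree_eq_zero (hDL q1 hq10 hdvd1)⟩
  subst hc0
  have hc00 : c0 ≠ 0 := by
    rintro rfl
    exact hq10 Polynomial.C_0
  have h2' := NSL_unit _ (Polynomial.C (Polynomial.C c0)) (Polynomial.C (Polynomial.C c0⁻¹)) p' _ _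
    (by rw [← Polynomial.C_mul, ← Polynomial.C_mul, mul_inv_cancel₀ hc00, Polynomial.C_1,
      Polynomial.C_1]) h'
  generalize Polynomial.C (Polynomial.C c0⁻¹) * p' = P at h2'
  have hco : ∀ j : ℕ, dext d (Polynomial.C g - Polynomial.X ^ 2) (P.coeff j) +
      ((j : Polynomial L) + 1) * Polynomial.C ψ1 * P.coeff (j + 1) +
      (j : Polynomial L) * bX κ * P.coeff j =
      (Polynomial.C (Polynomial.C ψ2) : Polynomial (Polynomial L)).coeff j + bX κ * P.coeff j := by
    intro j
    have := congrArg (fun Q => Polynomial.coeff Q j) h2'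
    simp only [coeff_dext_lin, Polynomial.coeff_add, Polynomial.coeff_C_mul] at this
    exact this
  have hend : ∀ c : L, d c = 0 → P.coeff 1 = Polynomial.C c → False := by
    intro c hdc hP1
    have h3 := hco 0
    rw [hP1, Polynomial.coeff_C_zero] at h3
    refine h2 c hdc (P.coeff 0) 1 one_ne_zero ?_
    rw [Dv.map_one, Polynomial.C_sub, Polynomial.C_mul]
    push_cast at h3
    linear_combination h3
  rcases Nat.eq_zero_or_pos P.natDegree with he | he
  · refine hend 0 d.map_zero ?_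
    rw [Polynomial.coeff_eq_zero_of_natDegree_lt (by omega), Polynomial.C_0]
  · obtain ⟨e, hee⟩ : ∃ e, P.natDegree = e + 1 := ⟨P.natDegree - 1, by omega⟩
    have hPe : P.coeff (e + 1) ≠ 0 := by
      rw [← hee]
      apply Polynomial.leadingCoeff_ne_zero.2
      rintro rfl
      rw [Polynomial.natDegree_zero] at he
      omega
    have h3 := hco (e + 1)
    rw [Polynomial.coeff_eq_zero_of_natDegree_lt (n := e + 1 + 1) (by omega),
      Polynomial.coeff_C_succ] at h3
    have h4 : dext d (Polynomial.C g - Polynomial.X ^ 2) (P.coeff (e + 1)) =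
        Polynomial.C ((e : L) * κ) * (Polynomial.X * P.coeff (e + 1)) := by
      unfold bX at h3
      rw [Polynomial.C_mul, Polynomial.C_eq_natCast, Polynomial.C_eq_natCast]
      push_cast at h3
      linear_combination h3
    set s := (P.coeff (e + 1)).natDegree with hs
    have h5 := congrArg (fun Q => Polynomial.coeff Q (s + 1)) h4
    simp only [Polynomial.coeff_C_mul, Polynomial.coeff_X_mul] at h5
    rw [NSL_top d g _ s le_rfl] at h5
    have hlead : (P.coeff (e + 1)).coeff s ≠ 0 := Polynomial.leadingCoeff_ne_zero.2 hPe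
    have h6 : ((s : L) + (e : L) * κ) * (P.coeff (e + 1)).coeff s = 0 := by
      linear_combination -h5
    have h7 : (s : L) + (e : L) * κ = 0 := (mul_eq_zero.1 h6).resolve_right hlead
    have h8 : s + e * κ = 0 := by
      have : (((s + e * κ : ℕ)) : L) = 0 := by push_cast; exact h7
      exact_mod_cast this
    have hs0 : s = 0 := by omega
    have he0 : e = 0 := by
      have h9 : e * κ = 0 := by omega
      rcases Nat.mul_eq_zero.1 h9 with h | h
      · exact h
      · omega
    subst he0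
    obtain ⟨c, hc⟩ : ∃ c, P.coeff (0 + 1) = Polynomial.C c :=
      ⟨(P.coeff (0 + 1)).coeff 0, Polynomial.eq_C_of_natDegree_eq_zero (by rw [← hs, hs0])⟩
    refine hend c ?_ hc
    rw [hc, dext_C, Nat.cast_zero, zero_mul, Polynomial.C_0, zero_mul] at h4
    exact Polynomial.C_eq_zero.1 h4

end Pool.Agent.H85.OU

end S_OU_NSL

section S_OU_NST

/-!
# Row NST (project OU): transfer from the fraction field to the ring

`ι : A → L` injective, `D ι = ι dA`.  `Polynomial.map ι : A[X] → L[X]` is injective and commutes with `dext` : `map ι (dext dA G P) = dext D (map ι G) (map ι P)`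
(`coeff_mapc`, `Polynomial.derivative_map`); the same for `A[X][Y] → L[X][Y]` (`Polynomial.map (Polynomial.mapRingHom ι)`).
* `nst0`: `P ∣ C c * dext dA (C g - X²) P` in `A[X]` gives `map P ∣ C (ι c) * ∂ (map P)` in `L[X]`, and `C (ι c)` is a unit, so `map P ∣ ∂ (map P)`; `DLp`; `natDegree` is preserved
  (`Polynomial.natDegree_map_eq_of_injective`).
* `nst1`, `nst2`: a solution `p, q` (`q ≠ 0`) over `A` maps to a solution over `L`, `map q ≠ 0`.  (`bX κ` maps to `bX κ`.)
-/

open Pool.Agent.H85.OT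

namespace Pool.Agent.H85.OU

theorem NST_mapc {R S : Type*} [CommRing R] [CommRing S] (φ : R →+* S) (d : Dv R) (D : Dv S)
    (h : ∀ a, D (φ a) = φ (d a)) (P : Polynomial R) :
    (mapc d P).map φ = mapc D (P.map φ) := by
  ext i
  rw [Polynomial.coeff_map, coeff_mapc, coeff_mapc, Polynomial.coeff_map, h]

theorem NST_dext {R S : Type*} [CommRing R] [CommRing S] (φ : R →+* S) (d : Dv R) (D : Dv S)
    (h : ∀ a, D (φ a) = φ (d a)) (G P : Polynomial R) :
    dext D (G.map φ) (P.map φ) = (dext d G P).map φ := by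
  rw [dext_apply, dext_apply, Polynomial.map_add, Polynomial.map_mul, Polynomial.derivative_map,
    NST_mapc φ d D h]

theorem NST_NS {R S : Type*} [CommRing R] [CommRing S] (φ : R →+* S)
    (hφ : Function.Injective φ) (d : Dv R) (D : Dv S) (h : ∀ a, D (φ a) = φ (d a)) (α β : R)
    (hN : NS D (φ α) (φ β)) : NS d α β := by
  intro p q hq he
  refine hN (φ p) (φ q) (fun h0 => hq (hφ (h0.trans (_root_.map_zero φ).symm))) ?_
  rw [h, h, ← _root_.map_mul, ← _root_.map_mul, ← _root_.map_sub, he, _root_.map_add,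
    _root_.map_mul, _root_.map_pow, _root_.map_mul, _root_.map_mul]

theorem NST_bX {R S : Type*} [CommRing R] [CommRing S] (φ : R →+* S) (κ : ℕ) :
    (bX κ : Polynomial R).map φ = bX κ := by
  unfold bX
  rw [Polynomial.map_neg, Polynomial.map_mul, Polynomial.map_X, Polynomial.map_natCast]

theorem NST_G {R S : Type*} [CommRing R] [CommRing S] (φ : R →+* S) (g : R) :
    (Polynomial.C g - Polynomial.X ^ 2 : Polynomial R).map φ =
      Polynomial.C (φ g) - Polynomial.X ^ 2 := by
  rw [Polynomial.map_sub, Polynomial.map_C, Polynomial.map_pow, Polynomial.map_X]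

variable {A L : Type*} [CommRing A] [IsDomain A] [Field L] (ι : A →+* L)
  (hι : Function.Injective ι) (dA : Dv A) (D : Dv L) (hD : ∀ a, D (ι a) = ι (dA a)) (g : A)
include hι hD

theorem nst0 (h : DLp D (ι g)) (P : Polynomial A) (hP : P ≠ 0) (c : A) (hc : c ≠ 0)
    (hd : P ∣ Polynomial.C c * dext dA (Polynomial.C g - Polynomial.X ^ 2) P) :
    P.natDegree = 0 := by
  have h1 := Polynomial.map_dvd ι hd
  rw [Polynomial.map_mul, Polynomial.map_C, ← NST_dext ι dA D hD, NST_G] at h1
  have hc0 : ι c ≠ 0 := fun h0 => hc (hι (h0.trans (_root_.map_zero ι).symm))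
  have hu : IsUnit (Polynomial.C (ι c)) := Polynomial.isUnit_C.2 (isUnit_iff_ne_zero.2 hc0)
  have h2 : P.map ι ∣ dext D (Polynomial.C (ι g) - Polynomial.X ^ 2) (P.map ι) :=
    (IsUnit.dvd_mul_left hu).1 h1
  have h3 : P.map ι ≠ 0 := (Polynomial.map_ne_zero_iff hι).2 hP
  rw [← Polynomial.natDegree_map_eq_of_injective hι P]
  exact h (P.map ι) h3 h2

theorem nst1 (ψ : A) (κ : ℕ)
    (h : NS (dext D (Polynomial.C (ι g) - Polynomial.X ^ 2)) (Polynomial.C (ι ψ)) (bX κ)) :
    NS (dext dA (Polynomial.C g - Polynomial.X ^ 2)) (Polynomial.C ψ) (bX κ) := by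
  refine NST_NS (Polynomial.mapRingHom ι) (Polynomial.map_injective ι hι) _
    (dext D (Polynomial.C (ι g) - Polynomial.X ^ 2)) ?_ _ _ ?_
  · intro P
    rw [Polynomial.coe_mapRingHom, ← NST_G, NST_dext ι dA D hD]
  · rw [Polynomial.coe_mapRingHom, Polynomial.map_C, NST_bX]
    exact h

theorem nst2 (ψ1 ψ2 : A) (κ : ℕ)
    (h : NS (dext (dext D (Polynomial.C (ι g) - Polynomial.X ^ 2))
        (Polynomial.C (Polynomial.C (ι ψ1)) + Polynomial.C (bX κ) * Polynomial.X))
      (Polynomial.C (Polynomial.C (ι ψ2))) (Polynomial.C (bX κ))) :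
    NS (dext (dext dA (Polynomial.C g - Polynomial.X ^ 2))
        (Polynomial.C (Polynomial.C ψ1) + Polynomial.C (bX κ) * Polynomial.X))
      (Polynomial.C (Polynomial.C ψ2)) (Polynomial.C (bX κ)) := by
  have hD1 : ∀ P : Polynomial A, dext D (Polynomial.C (ι g) - Polynomial.X ^ 2)
      (Polynomial.mapRingHom ι P) =
      Polynomial.mapRingHom ι (dext dA (Polynomial.C g - Polynomial.X ^ 2) P) := by
    intro P
    rw [Polynomial.coe_mapRingHom, ← NST_G, NST_dext ι dA D hD]
  have hG : (Polynomial.C (Polynomial.C ψ1) + Polynomial.C (bX κ) * Polynomial.X :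
      Polynomial (Polynomial A)).map (Polynomial.mapRingHom ι) =
      Polynomial.C (Polynomial.C (ι ψ1)) + Polynomial.C (bX κ) * Polynomial.X := by
    rw [Polynomial.map_add, Polynomial.map_mul, Polynomial.map_C, Polynomial.map_C,
      Polynomial.map_X, Polynomial.coe_mapRingHom, Polynomial.map_C, NST_bX]
  refine NST_NS (Polynomial.mapRingHom (Polynomial.mapRingHom ι))
    (Polynomial.map_injective _ (Polynomial.map_injective ι hι)) _
    (dext (dext D (Polynomial.C (ι g) - Polynomial.X ^ 2))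
        (Polynomial.C (Polynomial.C (ι ψ1)) + Polynomial.C (bX κ) * Polynomial.X)) ?_ _ _ ?_
  · intro P
    rw [Polynomial.coe_mapRingHom, ← hG, NST_dext (Polynomial.mapRingHom ι) _ _ hD1]
  · rw [Polynomial.coe_mapRingHom, Polynomial.map_C, Polynomial.map_C, Polynomial.coe_mapRingHom,
      Polynomial.map_C, NST_bX]
    exact h

end Pool.Agent.H85.OU

end S_OU_NST

section S_OT_Ztop

/-!
# Row ZTOP (project OT): the top weighted form (weights: `x ↦ 1`, `z ↦ 2`)

`K` of characteristic `0`, `p ≠ 0` in `K[x][z]`, `p = ∑_j p_j(x) z^j`, `d = natDegree p` (degree in `z`),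
`dX1 p + k z p = g(x)` with `natDegree g ≤ 2 d + 1`.  Claim: `2 d ≤ k`.

Let `N = max { natDegree p_j + 2 j : p_j ≠ 0 } ≥ 2 d`, and `c_j` = coefficient of `x^(N-2j)` in `p_j` if
`2 j ≤ N`, `c_j = 0` otherwise (then `p_j = 0`).  Some `c_j ≠ 0`.  (Convenient: put `c_j` = coefficient of
`x^(N-2j)` with the convention `0` if `2j > N`; in Lean maybe use the polynomial
`σ = ∑_(j ≤ d) C c_j X^j`.)
Coefficient of `z^j` of the equation (`coeff_dX1`, `coeff_dX1_zero`):
`j ≥ 1`: `dX0 p_j + (j+1) g0 p_(j+1) - (j-1) p_(j-1) + k p_(j-1) = 0`; `j = 0`: `dX0 p_0 + g0 p_1 = g`.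
Take the coefficient of `x^M`, `M = N + 2 - 2j`:
* `dX0 p_j = -(1/2) x p_j' + (1/2) x³ p_j'` gives `-(1/2) M [x^M]p_j + (1/2)(M-2)[x^(M-2)]p_j`
  `= (1/2)(N-2j) c_j` (`deg p_j ≤ N - 2j < M`);
* `g0 p_(j+1) = (1/4)(x² - x⁴) p_(j+1)` gives `(1/4)[x^(M-2)]p_(j+1) - (1/4)[x^(M-4)]p_(j+1) = -(1/4) c_(j+1)`;
* `p_(j-1)` gives `c_(j-1)`; `g` gives `0` (`natDegree g ≤ 2d + 1 ≤ N + 1`).
So for all `j ≥ 0` (`c_(-1) = 0`): `(N/2 - j) c_j - (1/4)(j+1) c_(j+1) + (k - (j-1)) c_(j-1) = 0`
(for `2 j > N + 2` all terms are `0`; `2j = N+1, N+2` are covered by the computation).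
For `σ(w) = ∑ c_j w^j ≠ 0` this says `(w + 1/2)² σ' = (k w + N/2) σ`.
Write `σ = (w+1/2)^a τ` with `τ(-1/2) ≠ 0` (`Polynomial.exists_eq_pow_rootMultiplicity_mul_and_not_dvd`).
Dividing by `(w+1/2)^a`: `a (w+1/2) τ + (w+1/2)² τ' = (k (w+1/2) + (N-k)/2) τ`; at `w = -1/2`: `(N-k)/2 τ(-1/2) = 0`,
so `N = k` and `2 d ≤ N = k`.
-/

namespace Pool.Agent.H85.OT

section aux
variable {K : Type*} [Field K] [CharZero K]

theorem ztop_dX0 (q : Polynomial K) (m : ℕ) :
    (dX0 K q).coeff (m + 2) = -(1 / 2) * ((m : K) + 2) * q.coeff (m + 2) +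
      1 / 2 * (m : K) * q.coeff m := by
  have e : dX0 K q = Polynomial.C (-1 / 2 : K) * (Polynomial.X * Polynomial.derivative q) +
      Polynomial.C (1 / 2 : K) * (Polynomial.X * (Polynomial.X *
        (Polynomial.X * Polynomial.derivative q))) := by
    rw [dX0_apply, neg_div, Polynomial.C_neg]
    ring
  rw [e, Polynomial.coeff_add, Polynomial.coeff_C_mul, Polynomial.coeff_C_mul,
    Polynomial.coeff_X_mul, Polynomial.coeff_X_mul, Polynomial.coeff_X_mul,
    Polynomial.coeff_derivative]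
  rcases m with _ | m
  · rw [Polynomial.coeff_X_mul_zero]
    push_cast
    ring
  · rw [Polynomial.coeff_X_mul, Polynomial.coeff_derivative]
    push_cast
    ring

theorem ztop_g0 (q : Polynomial K) (m : ℕ) :
    (g0 K * q).coeff (m + 4) = 1 / 4 * q.coeff (m + 2) - 1 / 4 * q.coeff m := by
  have e : g0 K * q = Polynomial.C (1 / 4 : K) * (Polynomial.X * (Polynomial.X * q)) -
      Polynomial.C (1 / 4 : K) * (Polynomial.X * (Polynomial.X * (Polynomial.X *
        (Polynomial.X * q)))) := by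
    rw [g0]
    ring
  rw [e, Polynomial.coeff_sub, Polynomial.coeff_C_mul, Polynomial.coeff_C_mul,
    Polynomial.coeff_X_mul, Polynomial.coeff_X_mul, Polynomial.coeff_X_mul,
    Polynomial.coeff_X_mul, Polynomial.coeff_X_mul, Polynomial.coeff_X_mul]

/-- solutions of `(w + 1/2)² σ' = (k w + N/2) σ` -/
theorem ztop_ode (σ : Polynomial K) (hσ : σ ≠ 0) (k N : ℕ)
    (h : (Polynomial.X + Polynomial.C (1 / 2 : K)) ^ 2 * Polynomial.derivative σ =
      (Polynomial.C (k : K) * Polynomial.X + Polynomial.C ((N : K) / 2)) * σ) : N = k := by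
  set τ := σ.comp (Polynomial.X - Polynomial.C (1 / 2 : K)) with hτ
  have hτ0 : τ ≠ 0 := by
    intro h0
    apply hσ
    have h1 := congrArg (fun P => P.comp (Polynomial.X + Polynomial.C (1 / 2 : K))) h0
    simp only [hτ, Polynomial.comp_assoc, Polynomial.sub_comp, Polynomial.X_comp,
      Polynomial.C_comp, add_sub_cancel_right, Polynomial.comp_X, Polynomial.zero_comp] at h1
    exact h1
  have hd : Polynomial.derivative τ =
      (Polynomial.derivative σ).comp (Polynomial.X - Polynomial.C (1 / 2 : K)) := by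
    rw [hτ, Polynomial.derivative_comp, Polynomial.derivative_sub, Polynomial.derivative_X,
      Polynomial.derivative_C, sub_zero, one_mul]
  have h1 := congrArg (fun P => P.comp (Polynomial.X - Polynomial.C (1 / 2 : K))) h
  simp only [Polynomial.mul_comp, Polynomial.pow_comp, Polynomial.add_comp, Polynomial.X_comp,
    Polynomial.C_comp, sub_add_cancel] at h1
  rw [← hd, ← hτ] at h1
  have e1 : Polynomial.X ^ 2 * Polynomial.derivative τ =
      Polynomial.X * (Polynomial.X * Polynomial.derivative τ) := by ring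
  have e2 : (Polynomial.C (k : K) * (Polynomial.X - Polynomial.C (1 / 2 : K)) +
      Polynomial.C ((N : K) / 2)) * τ = Polynomial.C (k : K) * (Polynomial.X * τ) +
        Polynomial.C (((N : K) - k) / 2) * τ := by
    have : Polynomial.C (((N : K) - k) / 2) = Polynomial.C ((N : K) / 2) -
        Polynomial.C (k : K) * Polynomial.C (1 / 2 : K) := by
      rw [← Polynomial.C_mul, ← Polynomial.C_sub]
      congr 1
      ring
    rw [this]
    ring
  rw [e1, e2] at h1
  set a := τ.natTrailingDegree with ha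
  have h2 := congrArg (fun P => P.coeff a) h1
  simp only [Polynomial.coeff_add, Polynomial.coeff_C_mul] at h2
  have hlow : ∀ b, b < a → τ.coeff b = 0 := fun b hb =>
    Polynomial.coeff_eq_zero_of_lt_natTrailingDegree hb
  have hne : τ.coeff a ≠ 0 := Polynomial.trailingCoeff_nonzero_iff_nonzero.2 hτ0
  have h3 : (Polynomial.X * τ).coeff a = 0 := by
    rcases a with _ | b
    · exact Polynomial.coeff_X_mul_zero _
    · rw [Polynomial.coeff_X_mul]
      exact hlow b (Nat.lt_succ_self b)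
  have h4 : (Polynomial.X * (Polynomial.X * Polynomial.derivative τ)).coeff a = 0 := by
    rcases a with _ | _ | b
    · exact Polynomial.coeff_X_mul_zero _
    · rw [Polynomial.coeff_X_mul, Polynomial.coeff_X_mul_zero]
    · rw [Polynomial.coeff_X_mul, Polynomial.coeff_X_mul, Polynomial.coeff_derivative,
        hlow (b + 1) (Nat.lt_succ_self _), zero_mul]
  rw [h3, h4, mul_zero, zero_add] at h2
  have h5 : ((N : K) - k) / 2 = 0 := by
    rcases mul_eq_zero.1 h2.symm with h5 | h5
    · exact h5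
    · exact absurd h5 hne
  have h6 : (N : K) = k := by linear_combination 2 * h5
  exact_mod_cast h6

end aux

theorem top_lemma {K : Type*} [Field K] [CharZero K] (p : Polynomial (Polynomial K)) (hp : p ≠ 0)
    (k : ℕ) (g : Polynomial K)
    (h : dX1 K p + (k : Polynomial (Polynomial K)) * Polynomial.X * p = Polynomial.C g)
    (hg : g.natDegree ≤ 2 * p.natDegree + 1) : 2 * p.natDegree ≤ k := by
  classical
  set N : ℕ := p.support.sup (fun j => (p.coeff j).natDegree + 2 * j) with hN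
  have hle : ∀ j, p.coeff j ≠ 0 → (p.coeff j).natDegree + 2 * j ≤ N := fun j hj =>
    Finset.le_sup (f := fun j => (p.coeff j).natDegree + 2 * j) (Polynomial.mem_support_iff.2 hj)
  obtain ⟨j0, hj0, hj0N⟩ := Finset.exists_mem_eq_sup p.support
    (Polynomial.support_nonempty.2 hp) (fun j => (p.coeff j).natDegree + 2 * j)
  have hd : 2 * p.natDegree ≤ N := by
    have h1 := hle p.natDegree (by
      rw [Polynomial.coeff_natDegree, Ne, Polynomial.leadingCoeff_eq_zero]
      exact hp)
    omega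
  have F1 : ∀ j m, N < m + 2 * j → (p.coeff j).coeff m = 0 := by
    intro j m hm
    by_cases h0 : p.coeff j = 0
    · rw [h0, Polynomial.coeff_zero]
    · apply Polynomial.coeff_eq_zero_of_natDegree_lt
      have := hle j h0
      omega
  have F0 : ∀ j, N < 2 * j → p.coeff j = 0 := by
    intro j hj
    ext m
    rw [F1 j m (by omega), Polynomial.coeff_zero]
  let c : ℕ → K := fun j => if 2 * j ≤ N then (p.coeff j).coeff (N - 2 * j) else 0
  have hc : ∀ j, c j = if 2 * j ≤ N then (p.coeff j).coeff (N - 2 * j) else 0 := fun j => rfl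
  have hc0 : ∀ j, N < 2 * j → c j = 0 := by
    intro j hj
    rw [hc, if_neg (by omega)]
  have hc1 : ∀ j m, m + 2 * j = N → (p.coeff j).coeff m = c j := by
    intro j m hm
    rw [hc, if_pos (by omega)]
    congr 1
    omega
  have L1 : ∀ j M, M + 2 * j = N + 2 →
      (dX0 K (p.coeff j)).coeff M = ((N : K) / 2 - j) * c j := by
    intro j M hM
    by_cases hM2 : M < 2
    · rw [F0 j (by omega), hc0 j (by omega), Dv.map_zero, Polynomial.coeff_zero, mul_zero]
    · obtain ⟨m, rfl⟩ : ∃ m, M = m + 2 := ⟨M - 2, by omega⟩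
      have hmN : m + 2 * j = N := by omega
      rw [ztop_dX0, F1 j (m + 2) (by omega), hc1 j m hmN, ← hmN]
      push_cast
      ring
  have L2 : ∀ j M, M + 2 * j = N + 4 →
      (g0 K * p.coeff j).coeff M = -(1 / 4) * c j := by
    intro j M hM
    by_cases hM2 : M < 4
    · rw [F0 j (by omega), hc0 j (by omega), mul_zero, Polynomial.coeff_zero, mul_zero]
    · obtain ⟨m, rfl⟩ : ∃ m, M = m + 4 := ⟨M - 4, by omega⟩
      have hmN : m + 2 * j = N := by omega
      rw [ztop_g0, F1 j (m + 2) (by omega), hc1 j m hmN]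
      ring
  -- the equations
  have E0 : (N : K) / 2 * c 0 - 1 / 4 * c 1 = 0 := by
    have h1 := congrArg (fun P => (P.coeff 0).coeff (N + 2)) h
    simp only [Polynomial.coeff_add, mul_assoc, Polynomial.coeff_C_zero] at h1
    rw [coeff_dX1_zero, Polynomial.coeff_add, L1 0 (N + 2) (by omega), L2 1 (N + 2) (by omega),
      Polynomial.coeff_eq_zero_of_natDegree_lt (p := g) (n := N + 2) (by omega)] at h1
    have h2 : ((k : Polynomial (Polynomial K)) * (Polynomial.X * p)).coeff 0 = 0 := by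
      rw [← Polynomial.C_eq_natCast, Polynomial.coeff_C_mul, Polynomial.coeff_X_mul_zero, mul_zero]
    rw [h2, Polynomial.coeff_zero] at h1
    push_cast at h1
    linear_combination h1
  have E1 : ∀ i : ℕ, ((N : K) / 2 - (i + 1)) * c (i + 1) - 1 / 4 * (i + 2) * c (i + 2) +
      ((k : K) - i) * c i = 0 := by
    intro i
    by_cases hi : 2 * i ≤ N
    · have h1 := congrArg (fun P => (P.coeff (i + 1)).coeff (N - 2 * i)) h
      have h2 : ((k : Polynomial (Polynomial K)) * (Polynomial.X * p)).coeff (i + 1) =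
          (k : Polynomial K) * p.coeff i := by
        rw [← Polynomial.C_eq_natCast, Polynomial.coeff_C_mul, Polynomial.coeff_X_mul]
      simp only [Polynomial.coeff_add, mul_assoc, Polynomial.coeff_C_succ] at h1
      rw [coeff_dX1, h2, Polynomial.coeff_zero] at h1
      have h3 : ((i : Polynomial K) + 2) * g0 K * p.coeff (i + 2) =
          Polynomial.C ((i : K) + 2) * (g0 K * p.coeff (i + 2)) := by
        rw [Polynomial.C_add, Polynomial.C_eq_natCast]
        have : (Polynomial.C (2 : K)) = 2 := by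
          exact_mod_cast Polynomial.C_ofNat (R := K) 2
        rw [this]
        ring
      rw [Polynomial.coeff_sub, Polynomial.coeff_add, h3, ← Polynomial.C_eq_natCast,
        ← Polynomial.C_eq_natCast, Polynomial.coeff_C_mul, Polynomial.coeff_C_mul,
        Polynomial.coeff_C_mul, L1 (i + 1) (N - 2 * i) (by omega),
        L2 (i + 2) (N - 2 * i) (by omega), hc1 i (N - 2 * i) (by omega)] at h1
      push_cast at h1
      linear_combination h1
    · rw [hc0 i (by omega), hc0 (i + 1) (by omega), hc0 (i + 2) (by omega)]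
      ring
  -- the polynomial
  set σ : Polynomial K := ∑ j ∈ Finset.range (N + 1), Polynomial.monomial j (c j) with hσ
  have hcσ : ∀ j, σ.coeff j = c j := by
    intro j
    rw [hσ, Polynomial.finsetSum_coeff]
    simp only [Polynomial.coeff_monomial]
    rw [Finset.sum_ite_eq' (Finset.range (N + 1)) j (fun j => c j)]
    split_ifs with h1
    · rfl
    · rw [Finset.mem_range] at h1
      exact (hc0 j (by omega)).symm
  have hσ0 : σ ≠ 0 := by
    intro h0
    have h1 := hcσ j0
    rw [h0, Polynomial.coeff_zero] at h1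
    have h2 : (p.coeff j0).natDegree + 2 * j0 = N := hj0N.symm
    rw [← hc1 j0 _ h2, Polynomial.coeff_natDegree] at h1
    exact (Polynomial.mem_support_iff.1 hj0) (Polynomial.leadingCoeff_eq_zero.1 h1.symm)
  have hode : (Polynomial.X + Polynomial.C (1 / 2 : K)) ^ 2 * Polynomial.derivative σ =
      (Polynomial.C (k : K) * Polynomial.X + Polynomial.C ((N : K) / 2)) * σ := by
    have e1 : (Polynomial.X + Polynomial.C (1 / 2 : K)) ^ 2 * Polynomial.derivative σ =
        Polynomial.X * (Polynomial.X * Polynomial.derivative σ) +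
          Polynomial.X * Polynomial.derivative σ +
          Polynomial.C (1 / 4 : K) * Polynomial.derivative σ := by
      have e2 : (Polynomial.C (1 / 4 : K)) = Polynomial.C (1 / 2 : K) * Polynomial.C (1 / 2 : K) := by
        rw [← Polynomial.C_mul]; congr 1; ring
      have e3 : Polynomial.C (1 / 2 : K) + Polynomial.C (1 / 2 : K) = 1 := by
        rw [← Polynomial.C_add]
        norm_num
      rw [e2]
      linear_combination (Polynomial.X * Polynomial.derivative σ) * e3
    have e2 : (Polynomial.C (k : K) * Polynomial.X + Polynomial.C ((N : K) / 2)) * σ =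
        Polynomial.C (k : K) * (Polynomial.X * σ) + Polynomial.C ((N : K) / 2) * σ := by ring
    rw [e1, e2]
    ext n
    rw [Polynomial.coeff_add, Polynomial.coeff_add, Polynomial.coeff_add, Polynomial.coeff_C_mul,
      Polynomial.coeff_C_mul, Polynomial.coeff_C_mul, Polynomial.coeff_derivative]
    rcases n with _ | n
    · rw [Polynomial.coeff_X_mul_zero, Polynomial.coeff_X_mul_zero, Polynomial.coeff_X_mul_zero,
        hcσ, hcσ]
      push_cast
      linear_combination -E0
    · rw [Polynomial.coeff_X_mul, Polynomial.coeff_X_mul, Polynomial.coeff_X_mul,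
        Polynomial.coeff_derivative]
      have h1 : (Polynomial.X * Polynomial.derivative σ).coeff n = n * σ.coeff n := by
        rcases n with _ | n
        · rw [Polynomial.coeff_X_mul_zero]; push_cast; ring
        · rw [Polynomial.coeff_X_mul, Polynomial.coeff_derivative]; push_cast; ring
      rw [h1, hcσ, hcσ, hcσ]
      push_cast
      linear_combination -(E1 n)
  have := ztop_ode σ hσ0 k N hode
  omega

end Pool.Agent.H85.OT

end S_OT_Ztop

section S_OT_Zdl

/-!
# Row ZDL (project OT): Darboux polynomials of the Riccati equation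

`K` of characteristic `0`.  Let `P ≠ 0` in `K[x][z]`, `c ≠ 0` in `K[x]`, `P ∣ c · dX1 P`.  Then `P` has
`z`-degree `0`.

1. Primitive part: `P = C a * Q`, `Q` primitive, `a ≠ 0` (`Polynomial.eq_C_content_mul_primPart`;
   `K[x]` is a normalized GCD domain).  `dX1 P = C (dX0 a) Q + C a dX1 Q`, so
   `Q ∣ C (c a) * dX1 Q`, and by Gauss (`Polynomial.IsPrimitive.dvd_primPart_iff_dvd` or:
   `C b * G = Q * H` gives content `H` divisible by `b`) `Q ∣ dX1 Q`.
   `natDegree Q = natDegree P =: d`.  Suppose `d ≥ 1`.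
2. `dX1 Q = Q L`.  `natDegree_z (dX1 Q) ≤ d + 1` with coefficient `- d q_d` of `z^(d+1)` (`coeff_dX1`), so
   `L = - d z + C λ0`, `λ0 ∈ K[x]`.
3. `natDegree λ0 ≤ 2`: coefficients of `z^j` (`j ≥ 1`; for `j = 0` drop the `q_(j-1)` term):
   `λ0 q_j = dX0 q_j + (d - j + 1) q_(j-1) + (j+1) g0 q_(j+1)`.  Let
   `N = max { natDegree q_j + 2j : q_j ≠ 0 }`, attained at `j`.  The right side has degree
   `≤ N - 2j + 2`, the left side `natDegree λ0 + N - 2j`.
4. `λ0(x0) = 0` for `x0 ∈ {0, 1, -1}`: map `K[x][z] → K[z]`, `x ↦ x0`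
   (`Polynomial.map (Polynomial.evalRingHom x0)`), `σ` = image of `Q`, `σ ≠ 0` as `Q` is primitive
   (otherwise `X - C x0` divides all coefficients of `Q`).  `dX0 q` and `g0` vanish at `x0`
   (`x0 (1 - x0²) = 0`), so `- z² σ' = (- d z + λ0(x0)) σ`.  If `λ0(x0) ≠ 0` the lowest nonzero
   coefficient `σ_a` gives (coefficient of `z^a`) `0 = λ0(x0) σ_a`, contradiction.
5. `λ0` has degree `≤ 2` and the three roots `0, 1, -1` (distinct, `2 ≠ 0`): `λ0 = 0`.
6. `dX1 Q + d z Q = 0 = C 0`: `top_lemma` with `k = d`, `g = 0`: `2 d ≤ d`, contradiction.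
-/

namespace Pool.Agent.H85.OT

open Polynomial in
theorem zdl_gauss {K : Type*} [Field K] (Q : Polynomial (Polynomial K)) (hQ : Q.IsPrimitive)
    (b : Polynomial K) (hb : b ≠ 0) (G : Polynomial (Polynomial K)) (h : Q ∣ C b * G) : Q ∣ G := by
  classical
  by_cases hG : G = 0
  · rw [hG]; exact dvd_zero _
  have hne : C b * G ≠ 0 := mul_ne_zero (by simpa using hb) hG
  have h1 := (hQ.dvd_primPart_iff_dvd hne).2 h
  rw [Polynomial.primPart_mul hne] at h1
  have hu : IsUnit (C b : Polynomial (Polynomial K)).primPart := Polynomial.isUnit_primPart_C b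
  have h2 : Q ∣ G.primPart := (hu.dvd_mul_left).1 h1
  exact (hQ.dvd_primPart_iff_dvd hG).1 h2

open Polynomial in
theorem zdl_dX0_natDegree {K : Type*} [Field K] (f : Polynomial K) :
    (dX0 K f).natDegree ≤ f.natDegree + 2 := by
  rw [dX0_apply]
  rcases Nat.eq_zero_or_pos f.natDegree with h0 | h0
  · rw [Polynomial.eq_C_of_natDegree_eq_zero h0]
    simp
  have h1 : (derivative f).natDegree ≤ f.natDegree - 1 := Polynomial.natDegree_derivative_le f
  have h2 : (C (-1/2 : K) * X * (1 - X ^ 2)).natDegree ≤ 3 := by compute_degree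
  calc _ ≤ (C (-1/2 : K) * X * (1 - X ^ 2)).natDegree + (derivative f).natDegree :=
        Polynomial.natDegree_mul_le
    _ ≤ 3 + (f.natDegree - 1) := Nat.add_le_add h2 h1
    _ ≤ f.natDegree + 2 := by omega

open Polynomial in
theorem zdl_g0_natDegree {K : Type*} [Field K] : (g0 K).natDegree ≤ 4 := by
  unfold g0
  compute_degree

open Polynomial in
theorem zdl_dX0_eval {K : Type*} [Field K] (f : Polynomial K) (x0 : K) (hx : x0 * (1 - x0 ^ 2) = 0) :
    (dX0 K f).eval x0 = 0 := by
  rw [dX0_apply]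
  simp only [eval_mul, eval_C, eval_X, eval_sub, eval_one, eval_pow]
  linear_combination (-1/2 : K) * (eval x0 (derivative f)) * hx

open Polynomial in
theorem zdl_g0_eval {K : Type*} [Field K] (x0 : K) (hx : x0 * (1 - x0 ^ 2) = 0) :
    (g0 K).eval x0 = 0 := by
  unfold g0
  simp only [eval_mul, eval_C, eval_X, eval_sub, eval_one, eval_pow]
  linear_combination (1/4 : K) * x0 * hx

/-- the cofactor vanishes at the three points -/
theorem zdl_root {K : Type*} [Field K] (Q : Polynomial (Polynomial K)) (hQ : Q.IsPrimitive)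
    (b : Polynomial K) (d : ℕ)
    (e0 : b * Q.coeff 0 = dX0 K (Q.coeff 0) + g0 K * Q.coeff 1)
    (e1 : ∀ j, b * Q.coeff (j + 1) = dX0 K (Q.coeff (j + 1)) +
      ((j : Polynomial K) + 2) * g0 K * Q.coeff (j + 2) + ((d : Polynomial K) - j) * Q.coeff j)
    (x0 : K) (hx : x0 * (1 - x0 ^ 2) = 0) : b.eval x0 = 0 := by
  by_contra hb
  have h0 : ∀ j, (Q.coeff j).eval x0 = 0 := by
    intro j
    induction j with
    | zero =>
      have := congrArg (Polynomial.eval x0) e0
      rw [Polynomial.eval_mul, Polynomial.eval_add, Polynomial.eval_mul, zdl_dX0_eval _ _ hx,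
        zdl_g0_eval _ hx, zero_mul, add_zero] at this
      exact (mul_eq_zero.1 this).resolve_left hb
    | succ j ih =>
      have := congrArg (Polynomial.eval x0) (e1 j)
      rw [Polynomial.eval_mul, Polynomial.eval_add, Polynomial.eval_add, Polynomial.eval_mul,
        Polynomial.eval_mul, Polynomial.eval_mul, zdl_dX0_eval _ _ hx,
        zdl_g0_eval _ hx, ih, mul_zero, mul_zero, zero_mul, add_zero, add_zero] at this
      exact (mul_eq_zero.1 this).resolve_left hb
  have h1 : Polynomial.C (Polynomial.X - Polynomial.C x0) ∣ Q := by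
    rw [Polynomial.C_dvd_iff_dvd_coeff]
    intro j
    exact Polynomial.dvd_iff_isRoot.2 (h0 j)
  exact Polynomial.not_isUnit_X_sub_C x0 (hQ _ h1)

/-- the cofactor has degree at most two -/
theorem zdl_deg {K : Type*} [Field K] (Q : Polynomial (Polynomial K)) (hQ : Q ≠ 0)
    (b : Polynomial K) (d : ℕ)
    (e0 : b * Q.coeff 0 = dX0 K (Q.coeff 0) + g0 K * Q.coeff 1)
    (e1 : ∀ j, b * Q.coeff (j + 1) = dX0 K (Q.coeff (j + 1)) +
      ((j : Polynomial K) + 2) * g0 K * Q.coeff (j + 2) + ((d : Polynomial K) - j) * Q.coeff j) :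
    b.natDegree ≤ 2 := by
  by_cases hb : b = 0
  · rw [hb]; simp
  obtain ⟨j, hj, hmax⟩ := Finset.exists_max_image Q.support
    (fun j => (Q.coeff j).natDegree + 2 * j) (Polynomial.nonempty_support_iff.2 hQ)
  have hjne : Q.coeff j ≠ 0 := Polynomial.mem_support_iff.1 hj
  have hM : ∀ i, Q.coeff i ≠ 0 → (Q.coeff i).natDegree + 2 * i ≤ (Q.coeff j).natDegree + 2 * j :=
    fun i hi => hmax i (Polynomial.mem_support_iff.2 hi)
  have hcast : ∀ (u : ℤ), ((u : Polynomial K)).natDegree = 0 := fun u => Polynomial.natDegree_intCast u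
  have hsucc : ∀ (u : ℤ), (((u : Polynomial K)) * g0 K * Q.coeff (j + 1)).natDegree ≤
      (Q.coeff j).natDegree + 2 := by
    intro u
    by_cases h : Q.coeff (j + 1) = 0
    · rw [h, mul_zero]; simp
    have h1 := hM _ h
    have h2 : (((u : Polynomial K)) * g0 K * Q.coeff (j + 1)).natDegree ≤
        (0 + 4) + (Q.coeff (j + 1)).natDegree := by
      refine Polynomial.natDegree_mul_le.trans (Nat.add_le_add_right ?_ _)
      refine Polynomial.natDegree_mul_le.trans (Nat.add_le_add ?_ zdl_g0_natDegree)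
      exact (hcast u).le
    omega
  have hL : (b * Q.coeff j).natDegree = b.natDegree + (Q.coeff j).natDegree :=
    Polynomial.natDegree_mul hb hjne
  have hle : (b * Q.coeff j).natDegree ≤ (Q.coeff j).natDegree + 2 := by
    rcases j with _ | j
    · rw [e0]
      refine Polynomial.natDegree_add_le_of_degree_le (zdl_dX0_natDegree _) ?_
      have := hsucc 1
      simpa using this
    · rw [e1 j]
      refine Polynomial.natDegree_add_le_of_degree_le
        (Polynomial.natDegree_add_le_of_degree_le (zdl_dX0_natDegree _) ?_) ?_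
      · have := hsucc ((j : ℤ) + 2)
        push_cast at this
        exact this
      · by_cases h : Q.coeff j = 0
        · rw [h, mul_zero]; simp
        have h1 := hM _ h
        have h2 : (((d : Polynomial K) - j) * Q.coeff j).natDegree ≤ 0 + (Q.coeff j).natDegree := by
          refine Polynomial.natDegree_mul_le.trans (Nat.add_le_add_right ?_ _)
          have h3 := hcast ((d : ℤ) - j)
          push_cast at h3
          exact h3.le
        omega
  omega

theorem zdl_prim {K : Type*} [Field K] [CharZero K] (Q : Polynomial (Polynomial K))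
    (hQp : Q.IsPrimitive) (hdvd : Q ∣ dX1 K Q) : Q.natDegree = 0 := by
  classical
  have hQ0 : Q ≠ 0 := hQp.ne_zero
  obtain ⟨L, hL⟩ := hdvd
  by_contra hd
  have hd1 : 1 ≤ Q.natDegree := Nat.one_le_iff_ne_zero.2 hd
  set d := Q.natDegree with hddef
  have hqd : Q.coeff d ≠ 0 := by
    rw [hddef]; exact Polynomial.leadingCoeff_ne_zero.2 hQ0
  have hdc : (d : Polynomial K) ≠ 0 := by
    rw [Ne, Nat.cast_eq_zero]; omega
  have htop : (dX1 K Q).coeff (d + 1) = - (d : Polynomial K) * Q.coeff d := by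
    rw [coeff_dX1, Polynomial.coeff_eq_zero_of_natDegree_lt (p := Q) (n := d + 1) (by omega),
      Polynomial.coeff_eq_zero_of_natDegree_lt (p := Q) (n := d + 2) (by omega), Dv.map_zero]
    ring
  have hL0 : L ≠ 0 := by
    rintro rfl
    rw [mul_zero] at hL
    rw [hL, Polynomial.coeff_zero] at htop
    exact (mul_ne_zero (neg_ne_zero.2 hdc) hqd) htop.symm
  have hnat : (dX1 K Q).natDegree ≤ d + 1 := by
    rw [Polynomial.natDegree_le_iff_coeff_eq_zero]
    intro n hn
    obtain ⟨j, rfl⟩ : ∃ j, n = j + 1 := ⟨n - 1, by omega⟩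
    rw [coeff_dX1, Polynomial.coeff_eq_zero_of_natDegree_lt (p := Q) (n := j + 1) (by omega),
      Polynomial.coeff_eq_zero_of_natDegree_lt (p := Q) (n := j + 2) (by omega),
      Polynomial.coeff_eq_zero_of_natDegree_lt (p := Q) (n := j) (by omega), Dv.map_zero]
    ring
  have hLdeg : L.natDegree ≤ 1 := by
    rw [hL, Polynomial.natDegree_mul hQ0 hL0] at hnat
    omega
  obtain ⟨a, b, hab⟩ := Polynomial.exists_eq_X_add_C_of_natDegree_le_one hLdeg
  have hco : ∀ j, (dX1 K Q).coeff (j + 1) = a * Q.coeff j + b * Q.coeff (j + 1) := by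
    intro j
    rw [hL, hab]
    have : Q * (Polynomial.C a * Polynomial.X + Polynomial.C b) =
      Polynomial.C a * (Polynomial.X * Q) + Polynomial.C b * Q := by ring
    rw [this, Polynomial.coeff_add, Polynomial.coeff_C_mul, Polynomial.coeff_C_mul,
      Polynomial.coeff_X_mul]
  have hco0 : (dX1 K Q).coeff 0 = b * Q.coeff 0 := by
    rw [hL, hab]
    have : Q * (Polynomial.C a * Polynomial.X + Polynomial.C b) =
      Polynomial.C a * (Polynomial.X * Q) + Polynomial.C b * Q := by ring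
    rw [this, Polynomial.coeff_add, Polynomial.coeff_C_mul, Polynomial.coeff_C_mul,
      Polynomial.coeff_X_mul_zero, mul_zero, zero_add]
  have haval : a = - (d : Polynomial K) := by
    have h1 := hco d
    rw [htop, Polynomial.coeff_eq_zero_of_natDegree_lt (p := Q) (n := d + 1) (by omega), mul_zero,
      add_zero] at h1
    exact (mul_right_cancel₀ hqd h1).symm
  have e0 : b * Q.coeff 0 = dX0 K (Q.coeff 0) + g0 K * Q.coeff 1 := by
    rw [← hco0, coeff_dX1_zero]
  have e1 : ∀ j, b * Q.coeff (j + 1) = dX0 K (Q.coeff (j + 1)) +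
      ((j : Polynomial K) + 2) * g0 K * Q.coeff (j + 2) +
      ((d : Polynomial K) - j) * Q.coeff j := by
    intro j
    have h1 := hco j
    rw [coeff_dX1, haval] at h1
    linear_combination -h1
  have hb2 : b.natDegree ≤ 2 := zdl_deg Q hQ0 b d e0 e1
  have hb0 : b = 0 := by
    refine Polynomial.eq_zero_of_natDegree_lt_card_of_eval_eq_zero' b ({0, 1, -1} : Finset K) ?_ ?_
    · intro x hx
      refine zdl_root Q hQp b d e0 e1 x ?_
      simp only [Finset.mem_insert, Finset.mem_singleton] at hx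
      rcases hx with rfl | rfl | rfl <;> ring
    · have h2 : (1 : K) ≠ -1 := by
        intro h
        have h3 : (2 : K) = 0 := by linear_combination h
        exact two_ne_zero h3
      have h3 : ({0, 1, -1} : Finset K).card = 3 := by
        rw [Finset.card_eq_three]
        refine ⟨0, 1, -1, zero_ne_one, ?_, h2, rfl⟩
        intro h
        exact one_ne_zero (neg_eq_zero.1 h.symm)
      omega
  have hfin := top_lemma Q hQ0 d 0 (by
    rw [hL, hab, hb0, haval, Polynomial.C_neg]
    simp only [map_natCast, Polynomial.C_0]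
    ring) (by simp)
  omega

theorem zdl_split {K : Type*} [Field K] [CharZero K] (Q : Polynomial (Polynomial K))
    (hQp : Q.IsPrimitive) (a c : Polynomial K) (ha : a ≠ 0) (hc : c ≠ 0)
    (h : Polynomial.C a * Q ∣ Polynomial.C c * dX1 K (Polynomial.C a * Q)) : Q ∣ dX1 K Q := by
  have h1 : Q ∣ Polynomial.C c * dX1 K (Polynomial.C a * Q) :=
    (Dvd.intro_left _ rfl).trans h
  have h2 : dX1 K (Polynomial.C a * Q) =
      Polynomial.C (dX0 K a) * Q + Polynomial.C a * dX1 K Q := by
    have h3 : dX1 K (Polynomial.C a) = Polynomial.C (dX0 K a) := dext_C _ _ _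
    rw [Dv.map_mul, h3]
  rw [h2, mul_add] at h1
  have h3 : Q ∣ Polynomial.C c * (Polynomial.C (dX0 K a) * Q) := by
    rw [← mul_assoc]
    exact dvd_mul_left _ _
  have h4 := (dvd_add_right h3).1 h1
  have h5 : Q ∣ Polynomial.C (c * a) * dX1 K Q := by
    rw [Polynomial.C_mul, mul_assoc]; exact h4
  exact zdl_gauss Q hQp _ (mul_ne_zero hc ha) _ h5

theorem dl {K : Type*} [Field K] [CharZero K] (P : Polynomial (Polynomial K)) (hP : P ≠ 0)
    (c : Polynomial K) (hc : c ≠ 0) (h : P ∣ Polynomial.C c * dX1 K P) : P.natDegree = 0 := by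
  classical
  have ha : P.content ≠ 0 := by
    intro h0
    exact hP (Polynomial.content_eq_zero_iff.1 h0)
  have hQp : P.primPart.IsPrimitive := Polynomial.isPrimitive_primPart P
  rw [← Polynomial.natDegree_primPart P]
  refine zdl_prim _ hQp (zdl_split P.primPart hQp P.content c ha hc ?_)
  rw [← Polynomial.eq_C_content_mul_primPart P]
  exact h

end Pool.Agent.H85.OT

end S_OT_Zdl

section S_OU_DLL

/-!
# Row DLL (project OU): Darboux polynomials over algebraic extensions

`K` a field of characteristic `0`, `L ⊇ K` a field with derivation `d`, `d(K) = 0`, `ℓ ∈ L` with `dℓ = ℓ(1-ℓ)`, transcendental over `K`, and `L`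
algebraic over `K(ℓ)` (given as: every `a ∈ L` is a root of a nonzero polynomial with coefficients in `K[ℓ]`).  `g = ℓ(1-ℓ)/4`.
Claim `DLp d g`.
Let `Q ∈ L[X]`, `Q ≠ 0`, `Q ∣ ∂Q`, `natDegree Q ≥ 1`.
1. Some irreducible factor `Q1` of `Q` satisfies `Q1 ∣ ∂Q1`: write `Q = Q1^μ Q2` with `Q1 ∤ Q2`, `μ ≥ 1`;
   `∂Q = μ Q1^(μ-1) ∂Q1 Q2 + Q1^μ ∂Q2` is divisible by `Q1^μ`, so `Q1 ∣ μ ∂Q1 Q2`, `Q1 ∣ ∂Q1` (char 0).
2. Let `K0 = K(ℓ) ⊂ L` (`IntermediateField.adjoin K {ℓ}`); it is stable under `d`.  The ideal `I = (Q1) ∩ K0[X]` of `K0[X]` is prime, stable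
   under `∂` (`(Q1)` is stable since `Q1 ∣ ∂Q1`), nonzero because `L[X]/(Q1)` is algebraic over `K0` (the class of `X` is a root of
   `Q1` over `L`, and `L/K0` is algebraic), proper.  So `I = (P0)` with `P0` monic irreducible of degree `≥ 1` and `P0 ∣ ∂P0`.
3. `K0 ≅ RatFunc K`-like; transport to `K(x)`: the map `K[ℓ] → K[x]`, `ℓ ↦ 1 - x²` (`K[x] = Polynomial K`), satisfies
   `dX0 (1 - x²) = x² (1-x²) = λ(1-λ)` and `g ↦ g0 = x²(1-x²)/4`.  Clearing denominators choose `0 ≠ c ∈ K[ℓ]` with `c P0 ∈ K[ℓ][X]`; let `P ∈ K[x][X]` be its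
   image under `ℓ ↦ 1 - x²`.  `c² ∂P0·..`: from `P0 ∣ ∂P0` in `K0[X]` one gets, after clearing denominators, `P ∣ C c' * dX1 P` in `K[x][X]` for some
   `c' ≠ 0` (`∂(cP0) = (dc) P0 + c ∂P0`; quotient `∂P0/P0 ∈ K0[X]`, multiply by a common denominator).  `natDegree P = natDegree P0 ≥ 1`
   contradicts `dl` (`Zdl.lean`).
   (To avoid `K0` as a field one can work throughout with `Polynomial K → L`, `aeval ℓ`, injective, and fraction fields
   `RatFunc K` or `FractionRing (Polynomial K)`.)
-/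

open PowerSeries
open Pool.Agent.H85.OT

namespace Pool.Agent.H85.OU

theorem DLL_factor {L : Type*} [Field L] [CharZero L] (D : Dv (Polynomial L)) (Q : Polynomial L)
    (hQ : Q ≠ 0) (hdvd : Q ∣ D Q) (hdeg : Q.natDegree ≠ 0) :
    ∃ Q1 : Polynomial L, Irreducible Q1 ∧ Q1 ∣ D Q1 := by
  have hnu : ¬ IsUnit Q := fun h => hdeg (Polynomial.natDegree_eq_zero_of_isUnit h)
  obtain ⟨Q1, hirr, hd1⟩ := WfDvdMonoid.exists_irreducible_factor hnu hQ
  obtain ⟨n, Q2, hn2, hQe⟩ := WfDvdMonoid.max_power_factor hQ hirr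
  have hn : n ≠ 0 := by
    rintro rfl
    rw [pow_zero, one_mul] at hQe
    rw [hQe] at hd1
    exact hn2 hd1
  obtain ⟨m, rfl⟩ := Nat.exists_eq_succ_of_ne_zero hn
  refine ⟨Q1, hirr, ?_⟩
  have h1 : Q1 ^ (m + 1) ∣ D Q := (Dvd.intro _ hQe.symm).trans hdvd
  rw [hQe, Nat.succ_eq_add_one, Dv.map_mul, Dv.map_pow] at h1
  have h2 : Q1 ^ (m + 1) ∣ ((m : Polynomial L) + 1) * Q1 ^ m * D Q1 * Q2 :=
    (dvd_add_left (dvd_mul_right _ _)).1 h1
  have h3 : Q1 ^ m * Q1 ∣ Q1 ^ m * (((m : Polynomial L) + 1) * D Q1 * Q2) := by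
    rw [← pow_succ]
    refine h2.trans (dvd_of_eq ?_)
    ring
  have h4 : Q1 ∣ ((m : Polynomial L) + 1) * D Q1 * Q2 :=
    (mul_dvd_mul_iff_left (pow_ne_zero m hirr.ne_zero)).1 h3
  have hp := hirr.prime
  rcases hp.dvd_or_dvd h4 with h5 | h5
  · rcases hp.dvd_or_dvd h5 with h6 | h6
    · exfalso
      have h7 : ((m : Polynomial L) + 1) = Polynomial.C ((m : L) + 1) := by
        simp
      rw [h7] at h6
      have h8 : ((m : L) + 1) ≠ 0 := Nat.cast_add_one_ne_zero m
      exact hirr.not_isUnit (isUnit_of_dvd_unit h6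
        (Polynomial.isUnit_C.2 (isUnit_iff_ne_zero.2 h8)))
    · exact h6
  · exact absurd h5 hn2

theorem DLL_min {A : Type*} [CommRing A] [IsDomain A] (I : Ideal (Polynomial A)) (P : Polynomial A)
    (hP : P ∈ I) (hP0 : P ≠ 0) (hn : 0 < P.natDegree)
    (hmin : ∀ F ∈ I, F ≠ 0 → P.natDegree ≤ F.natDegree) :
    ∀ N : ℕ, ∀ F ∈ I, F.natDegree ≤ N → ∃ c : A, c ≠ 0 ∧ P ∣ Polynomial.C c * F := by
  intro N
  induction N using Nat.strong_induction_on with
  | _ N ih =>
    intro F hF hFN
    by_cases hF0 : F = 0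
    · exact ⟨1, one_ne_zero, by rw [hF0, mul_zero]; exact dvd_zero _⟩
    have hle := hmin F hF hF0
    have hlt : (P.cancelLeads F).natDegree < F.natDegree :=
      Polynomial.natDegree_cancelLeads_lt_of_natDegree_le_natDegree_of_comm (mul_comm _ _) hle
        (lt_of_lt_of_le hn hle)
    have hmem : P.cancelLeads F ∈ I := by
      unfold Polynomial.cancelLeads
      exact I.sub_mem (I.mul_mem_left _ hF) (I.mul_mem_left _ hP)
    obtain ⟨c, hc, h⟩ := ih (P.cancelLeads F).natDegree (lt_of_lt_of_le hlt hFN) _ hmem le_rfl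
    refine ⟨c * P.leadingCoeff, mul_ne_zero hc (Polynomial.leadingCoeff_ne_zero.2 hP0), ?_⟩
    have h1 : Polynomial.C (c * P.leadingCoeff) * F = Polynomial.C c * P.cancelLeads F
        + P * (Polynomial.C c * (Polynomial.C F.leadingCoeff
          * Polynomial.X ^ (F.natDegree - P.natDegree))) := by
      unfold Polynomial.cancelLeads
      rw [tsub_eq_zero_iff_le.2 hle, pow_zero, mul_one, Polynomial.C_mul]
      ring
    rw [h1]
    exact dvd_add h (dvd_mul_right _ _)

theorem DLL_map {R S : Type*} [CommRing R] [CommRing S] (f : R →+* S) (dR : Dv R) (dS : Dv S)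
    (h : ∀ a, f (dR a) = dS (f a)) (gR : Polynomial R) (gS : Polynomial S)
    (hg : gR.map f = gS) (P : Polynomial R) :
    (dext dR gR P).map f = dext dS gS (P.map f) := by
  rw [dext_apply, dext_apply, Polynomial.map_add, Polynomial.map_mul, hg, Polynomial.derivative_map]
  congr 1
  ext i
  rw [Polynomial.coeff_map, coeff_mapc, coeff_mapc, Polynomial.coeff_map, h]

/-- the derivation `t(1-t) d/dt` of `K[t]` -/
noncomputable def DLL_dA (K : Type*) [Field K] : Dv (Polynomial K) where
  toFun P := Polynomial.X * (1 - Polynomial.X) * Polynomial.derivative P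
  add' P Q := by rw [Polynomial.derivative_add]; ring
  mul' P Q := by rw [Polynomial.derivative_mul]; ring

theorem DLL_dA_apply {K : Type*} [Field K] (P : Polynomial K) :
    DLL_dA K P = Polynomial.X * (1 - Polynomial.X) * Polynomial.derivative P := rfl

theorem DLL_aeval {K L : Type*} [Field K] [Field L] [Algebra K L]
    (d : Dv L) (hK : ∀ c : K, d (algebraMap K L c) = 0) (ℓ : L) (P : Polynomial K) :
    d (Polynomial.aeval ℓ P) = Polynomial.aeval ℓ (Polynomial.derivative P) * d ℓ := by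
  induction P using Polynomial.induction_on' with
  | add p q hp hq =>
    rw [map_add, Dv.map_add, hp, hq, Polynomial.derivative_add, map_add, add_mul]
  | monomial n a =>
    rw [Polynomial.aeval_monomial, Dv.map_mul, hK, zero_mul, zero_add,
      Polynomial.derivative_monomial, Polynomial.aeval_monomial]
    rcases n with _ | n
    · rw [pow_zero, Dv.map_one]
      simp
    · rw [Dv.map_pow, map_mul, map_natCast, Nat.add_sub_cancel]
      push_cast
      ring

theorem DLL_psi {K : Type*} [Field K] [CharZero K] (P : Polynomial K) :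
    (DLL_dA K P).comp (1 - Polynomial.X ^ 2) = dX0 K (P.comp (1 - Polynomial.X ^ 2)) := by
  rw [DLL_dA_apply, dX0_apply, Polynomial.derivative_comp, Polynomial.mul_comp, Polynomial.mul_comp,
    Polynomial.sub_comp, Polynomial.X_comp, Polynomial.one_comp]
  have h1 : Polynomial.derivative ((1 : Polynomial K) - Polynomial.X ^ 2)
      = -(Polynomial.C 2 * Polynomial.X) := by
    rw [Polynomial.derivative_sub, Polynomial.derivative_one, Polynomial.derivative_X_sq, zero_sub]
  have h2 : (Polynomial.C (-1 / 2 : K)) * Polynomial.C 2 = -1 := by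
    rw [← Polynomial.C_mul]
    have : (-1 / 2 : K) * 2 = -1 := by field_simp
    rw [this, Polynomial.C_neg, Polynomial.C_1]
  rw [h1]
  linear_combination (Polynomial.X ^ 2 * (1 - Polynomial.X ^ 2)
    * (Polynomial.derivative P).comp (1 - Polynomial.X ^ 2)) * h2

theorem DLL_comp_inj {K : Type*} [Field K] (P : Polynomial K)
    (h : P.comp (1 - Polynomial.X ^ 2) = 0) : P = 0 := by
  rcases Polynomial.comp_eq_zero_iff.1 h with h1 | h1
  · exact h1
  · exfalso
    have h2 := congrArg (fun Q : Polynomial K => Q.coeff 2) h1.2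
    simp [Polynomial.coeff_one] at h2

theorem DLL_exists {A L : Type*} [CommRing A] [IsDomain A] [Field L] (φ : A →+* L)
    (halg : ∀ a : L, ∃ P : Polynomial A, P ≠ 0 ∧ P.eval₂ φ a = 0)
    (Q : Polynomial L) (hQ : Irreducible Q) :
    ∃ P : Polynomial A, P ≠ 0 ∧ Q ∣ P.map φ := by
  let _ : Algebra A L := φ.toAlgebra
  haveI : Algebra.IsAlgebraic A L := ⟨fun a => by
    obtain ⟨P, hP, h⟩ := halg a
    exact ⟨P, hP, h⟩⟩
  have h1 : IsAlgebraic L (AdjoinRoot.root Q) := by
    refine ⟨Q, hQ.ne_zero, ?_⟩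
    rw [AdjoinRoot.aeval_eq, AdjoinRoot.mk_self]
  have h2 : IsAlgebraic A (AdjoinRoot.root Q) := IsAlgebraic.restrictScalars A h1
  obtain ⟨P, hP, h⟩ := h2
  refine ⟨P, hP, ?_⟩
  rw [AdjoinRoot.aeval_eq_of_algebra, AdjoinRoot.mk_eq_zero] at h
  exact h

theorem dlp_of_algebraic {K L : Type*} [Field K] [CharZero K] [Field L] [Algebra K L]
    (d : Dv L) (hK : ∀ c : K, d (algebraMap K L c) = 0) (ℓ : L) (hℓ : d ℓ = ℓ * (1 - ℓ))
    (htr : ∀ P : Polynomial K, P ≠ 0 → Polynomial.aeval ℓ P ≠ 0)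
    (halg : ∀ a : L, ∃ P : Polynomial (Polynomial K), P ≠ 0 ∧
      P.eval₂ (Polynomial.aeval ℓ : Polynomial K →ₐ[K] L).toRingHom a = 0) :
    DLp d (ℓ * (1 - ℓ) / 4) := by
  classical
  haveI : CharZero L := charZero_of_injective_algebraMap (algebraMap K L).injective
  intro Q hQ hdvd
  by_contra hdeg
  obtain ⟨Q1, hirr, hQ1⟩ := DLL_factor _ Q hQ hdvd hdeg
  set φ : Polynomial K →+* L := (Polynomial.aeval ℓ : Polynomial K →ₐ[K] L).toRingHom with hφ
  have hφa : ∀ P : Polynomial K, φ P = Polynomial.aeval ℓ P := fun P => rfl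
  obtain ⟨P0, hP0, hP0d⟩ := DLL_exists φ halg Q1 hirr
  -- the ideal
  set I : Ideal (Polynomial (Polynomial K)) :=
    (Ideal.span {Q1}).comap (Polynomial.mapRingHom φ) with hI
  have hmemI : ∀ F : Polynomial (Polynomial K), F ∈ I ↔ Q1 ∣ F.map φ := by
    intro F
    rw [hI, Ideal.mem_comap, Ideal.mem_span_singleton, Polynomial.coe_mapRingHom]
  have hex : ∃ n : ℕ, ∃ F ∈ I, F ≠ 0 ∧ F.natDegree = n := ⟨_, P0, (hmemI _).2 hP0d, hP0, rfl⟩
  obtain ⟨P, hPI, hP, hPn⟩ := Nat.find_spec hex
  have hmin : ∀ F ∈ I, F ≠ 0 → P.natDegree ≤ F.natDegree := by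
    intro F hF hF0
    rw [hPn]
    exact Nat.find_min' hex ⟨F, hF, hF0, rfl⟩
  have hn : 0 < P.natDegree := by
    rcases Nat.eq_zero_or_pos P.natDegree with h0 | h0
    · exfalso
      rw [Polynomial.eq_C_of_natDegree_eq_zero h0] at hPI hP
      have h1 : P.coeff 0 ≠ 0 := fun h => hP (by rw [h, Polynomial.C_0])
      have h2 := (hmemI _).1 hPI
      rw [Polynomial.map_C] at h2
      refine hirr.not_isUnit (isUnit_of_dvd_unit h2 (Polynomial.isUnit_C.2 (isUnit_iff_ne_zero.2 ?_)))
      exact htr _ h1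
    · exact h0
  -- the derivations
  set gA : Polynomial K := Polynomial.C (1 / 4 : K) * Polynomial.X * (1 - Polynomial.X) with hgA
  have hφd : ∀ a : Polynomial K, φ (DLL_dA K a) = d (φ a) := by
    intro a
    rw [hφa, hφa, DLL_aeval d hK, hℓ, DLL_dA_apply, map_mul, map_mul, map_sub, map_one,
      Polynomial.aeval_X]
    ring
  have hφg : (Polynomial.C gA - Polynomial.X ^ 2 : Polynomial (Polynomial K)).map φ
      = Polynomial.C (ℓ * (1 - ℓ) / 4) - Polynomial.X ^ 2 := by
    have h1 : φ gA = ℓ * (1 - ℓ) / 4 := by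
      rw [hφa, hgA, map_mul, map_mul, map_sub, map_one, Polynomial.aeval_X, Polynomial.aeval_C,
        map_div₀, map_one, map_ofNat]
      ring
    rw [Polynomial.map_sub, Polynomial.map_C, Polynomial.map_pow, Polynomial.map_X, h1]
  have hdP : dext (DLL_dA K) (Polynomial.C gA - Polynomial.X ^ 2) P ∈ I := by
    rw [hmemI, DLL_map φ (DLL_dA K) d hφd _ _ hφg]
    obtain ⟨R, hR⟩ := (hmemI _).1 hPI
    rw [hR, Dv.map_mul]
    exact dvd_add (Dvd.dvd.mul_right hQ1 _) (dvd_mul_right _ _)
  obtain ⟨c, hc, hcd⟩ := DLL_min I P hPI hP hn hmin _ _ hdP le_rfl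
  -- transport
  set ψ : Polynomial K →+* Polynomial K := Polynomial.compRingHom (1 - Polynomial.X ^ 2) with hψ
  have hψa : ∀ a : Polynomial K, ψ a = a.comp (1 - Polynomial.X ^ 2) := fun a => rfl
  have hψi : Function.Injective ψ := by
    rw [injective_iff_map_eq_zero]
    intro a ha
    exact DLL_comp_inj a ha
  have hψd : ∀ a : Polynomial K, ψ (DLL_dA K a) = dX0 K (ψ a) := fun a => DLL_psi a
  have hψg : (Polynomial.C gA - Polynomial.X ^ 2 : Polynomial (Polynomial K)).map ψ
      = Polynomial.C (g0 K) - Polynomial.X ^ 2 := by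
    have h1 : ψ gA = g0 K := by
      rw [hψa, hgA, Polynomial.mul_comp, Polynomial.mul_comp, Polynomial.sub_comp,
        Polynomial.one_comp, Polynomial.X_comp, Polynomial.C_comp]
      unfold g0
      ring
    rw [Polynomial.map_sub, Polynomial.map_C, Polynomial.map_pow, Polynomial.map_X, h1]
  have h5 : P.map ψ ∣ Polynomial.C (ψ c) * dX1 K (P.map ψ) := by
    have h6 := Polynomial.map_dvd ψ hcd
    rw [Polynomial.map_mul, Polynomial.map_C, DLL_map ψ (DLL_dA K) (dX0 K) hψd _ _ hψg] at h6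
    exact h6
  have h6 : P.map ψ ≠ 0 := (Polynomial.map_ne_zero_iff hψi).2 hP
  have h7 : ψ c ≠ 0 := (map_ne_zero_iff ψ hψi).2 hc
  have h8 := dl (P.map ψ) h6 (ψ c) h7 h5
  rw [Polynomial.natDegree_map_eq_of_injective hψi] at h8
  omega

end Pool.Agent.H85.OU

end S_OU_DLL

section S_OU_NSa

/-!
# Row NSA (project OU): the two linear equations for a level datum

`g = ℓ(1-ℓ)/4`.
* `DLp d g`: `dlp_of_algebraic`; every `a ∈ L` is algebraic over `K[ℓ]`: `a = b/c` with `b, c` integral over `K[ℓ]` (`NAset`), and quotients of algebraic elements are algebraic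
  (work over the field `K(ℓ)`, or `IsAlgebraic` calculus for the algebra `K[X] → L`, `X ↦ ℓ`; `h.fin` also gives it: `L` is algebraic over `K(ℓ)`, clear denominators).
* for `c1, c2 ∈ K` not both zero, `ψ = c1 ψ1 + c2 ψ2`: there is no `a ∈ L` with `nabs d g κ (κ+1) a = C ((-1)^κ κ! ψ)`: `ψ' = (-1)^κ κ! ψ` is integral over `K[ℓ]`, `(ψ')²` is
  `IsDegA (κ+2)` (`hdeg` with `(-1)^κ κ! c1, (-1)^κ κ! c2`), so `noNA` gives `ψ' = 0`, contradicting `hne` (`κ! ≠ 0`).
* `nsL1` for such `ψ`, in particular `ψ1`, `-e ψ1` (`e ≥ 1`), `ψ2 - c ψ1` (`c ∈ L`, `dc = 0`, so `c ∈ K` by `hconst`); then `nsL2`.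
-/

open Pool.Agent.H85.OT

namespace Pool.Agent.H85.OU

theorem NSa_alg {K L : Type} [Field K] [Field L] [Algebra K L] {d : Dv L} {ℓ : L} {R : Subalgebra K L}
    (h : NAset K L d ℓ R) (a : L) : ∃ P : Polynomial (Polynomial K), P ≠ 0 ∧
      P.eval₂ (Polynomial.aeval ℓ : Polynomial K →ₐ[K] L).toRingHom a = 0 := by
  let _ : Algebra (Polynomial K) L := ((Polynomial.aeval ℓ : Polynomial K →ₐ[K] L) : Polynomial K →+* L).toAlgebra
  have hint : ∀ b ∈ R, IsAlgebraic (Polynomial K) b := by
    intro b hb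
    obtain ⟨p, hp, hp0⟩ := h.int b hb
    exact ⟨p, hp.ne_zero, hp0⟩
  obtain ⟨b, hb, c, hc, hc0, hab⟩ := h.frac a
  have h1 : IsAlgebraic (Polynomial K) a := by
    rw [hab, div_eq_mul_inv]
    exact (hint b hb).mul (hint c hc).inv
  obtain ⟨P, hP, hP0⟩ := h1
  exact ⟨P, hP, hP0⟩

theorem NSa_int {K L : Type} [Field K] [Field L] [Algebra K L] (ℓ ψ1 ψ2 : L)
    (hi1 : IntOver K ℓ ψ1) (hi2 : IntOver K ℓ ψ2) (c1 c2 : K) :
    IntOver K ℓ (algebraMap K L c1 * ψ1 + algebraMap K L c2 * ψ2) := by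
  have hc : ∀ c : K, IntOver K ℓ (algebraMap K L c) := by
    intro c
    unfold IntOver
    have h1 := RingHom.isIntegralElem_map ((Polynomial.aeval ℓ : Polynomial K →ₐ[K] L) : Polynomial K →+* L)
      (x := Polynomial.C c)
    have h2 : ((Polynomial.aeval ℓ : Polynomial K →ₐ[K] L) : Polynomial K →+* L) (Polynomial.C c) = algebraMap K L c := by
      show Polynomial.aeval ℓ (Polynomial.C c) = algebraMap K L c
      rw [Polynomial.aeval_C]
    rwa [h2] at h1
  exact RingHom.IsIntegralElem.add _ (RingHom.IsIntegralElem.mul _ (hc c1) hi1)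
    (RingHom.IsIntegralElem.mul _ (hc c2) hi2)

theorem ns_all {K L : Type} [Field K] [CharZero K] [IsAlgClosed K] [Field L] [CharZero L]
    [Algebra K L] {d : Dv L} {ℓ : L} {R : Subalgebra K L} (h : NAset K L d ℓ R)
    (hconst : ∀ c, d c = 0 → ∃ c0 : K, c = algebraMap K L c0) (κ : ℕ) (hκ : 0 < κ) (ψ1 ψ2 : L)
    (hi1 : IntOver K ℓ ψ1) (hi2 : IntOver K ℓ ψ2)
    (hdeg : ∀ c1 c2 : K,
      IsDegA K ℓ (κ + 2) ((algebraMap K L c1 * ψ1 + algebraMap K L c2 * ψ2) ^ 2))
    (hne : ∀ c1 c2 : K, (c1 ≠ 0 ∨ c2 ≠ 0) →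
      algebraMap K L c1 * ψ1 + algebraMap K L c2 * ψ2 ≠ 0) :
    DLp d (ℓ * (1 - ℓ) / 4) ∧
    NS (dext d (Polynomial.C (ℓ * (1 - ℓ) / 4) - Polynomial.X ^ 2)) (Polynomial.C ψ1) (bX κ) ∧
    NS (dext (dext d (Polynomial.C (ℓ * (1 - ℓ) / 4) - Polynomial.X ^ 2))
        (Polynomial.C (Polynomial.C ψ1) + Polynomial.C (bX κ) * Polynomial.X))
      (Polynomial.C (Polynomial.C ψ2)) (Polynomial.C (bX κ)) := by
  have hDL : DLp d (ℓ * (1 - ℓ) / 4) := dlp_of_algebraic d h.dK ℓ h.dl h.tr (NSa_alg h)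
  have hfac : (((-1) ^ κ * (κ.factorial : K) : K)) ≠ 0 :=
    mul_ne_zero (pow_ne_zero _ (neg_ne_zero.2 one_ne_zero)) (Nat.cast_ne_zero.2 κ.factorial_ne_zero)
  have key : ∀ c1 c2 : K, (c1 ≠ 0 ∨ c2 ≠ 0) →
      NS (dext d (Polynomial.C (ℓ * (1 - ℓ) / 4) - Polynomial.X ^ 2))
        (Polynomial.C (algebraMap K L c1 * ψ1 + algebraMap K L c2 * ψ2)) (bX κ) := by
    intro c1 c2 hc
    refine nsL1 d _ hDL κ hκ _ ?_
    intro a ha
    have e1 : (-1) ^ κ * (κ.factorial : L) * (algebraMap K L c1 * ψ1 + algebraMap K L c2 * ψ2)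
        = algebraMap K L ((-1) ^ κ * (κ.factorial : K) * c1) * ψ1
          + algebraMap K L ((-1) ^ κ * (κ.factorial : K) * c2) * ψ2 := by
      simp only [map_mul, map_pow, map_neg, map_one, map_natCast]
      ring
    rw [e1] at ha
    have h0 := noNA h κ hκ a _ (NSa_int ℓ ψ1 ψ2 hi1 hi2 _ _) (hdeg _ _) ha
    refine hne _ _ ?_ h0
    rcases hc with hc | hc
    · exact Or.inl (mul_ne_zero hfac hc)
    · exact Or.inr (mul_ne_zero hfac hc)
  refine ⟨hDL, ?_, ?_⟩
  · have h1 := key 1 0 (Or.inl one_ne_zero)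
    simpa using h1
  · refine nsL2 d _ hDL κ hκ ψ1 ψ2 ?_ ?_
    · intro e he
      have h1 := key (-(e : K)) 0 (Or.inl (neg_ne_zero.2 (Nat.cast_ne_zero.2 (by omega))))
      have e1 : algebraMap K L (-(e : K)) * ψ1 + algebraMap K L 0 * ψ2 = -(e : L) * ψ1 := by
        rw [map_zero, zero_mul, add_zero, map_neg, map_natCast]
      rwa [e1] at h1
    · intro c hc
      obtain ⟨c0, rfl⟩ := hconst c hc
      have h1 := key (-c0) 1 (Or.inr one_ne_zero)
      have e1 : algebraMap K L (-c0) * ψ1 + algebraMap K L 1 * ψ2 = ψ2 - algebraMap K L c0 * ψ1 := by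
        rw [map_one, one_mul, map_neg]
        ring
      rwa [e1] at h1

end Pool.Agent.H85.OU

end S_OU_NSa
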