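import Mathlib
import Pool.Agent.H85.OM.M01
import Pool.Agent.H85.OM.M03
import Pool.Agent.H85.OM.M05

/-! First slopes of modular forms, part M06: this file joins several modules to save build time. -/

section S_OT_Zbase

/-!
# Row ZBASE (project OT): the base of the tower

`R = K[x]`, `ev P = P(xx)`, `d = dX0`, `B n e P := natDegree P ≤ n` (independent of `e`), `c = 2`.
* `ev (dX0 P) = del (ev P)`: `del(P(x)) = P'(x) U^(-2) D x` and `U^(-2) D x = -(1/2) x (1-x²)` (`Dq_xx`,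
  `Derivation.map_aeval` for `Dq`).
* `natDegree (dX0 P) ≤ natDegree P + 2`.
* the zero estimate is `ord_xx` with `N = n`, `C = 1`.
-/

open PowerSeries

namespace Pool.Agent.H85.OT

private theorem Zbase_ev (K : Type*) [Field K] (h2 : (2 : K) ≠ 0) (P : Polynomial K) :
    Polynomial.aeval (xx K) (dX0 K P) = del K (Polynomial.aeval (xx K) P) := by
  have h2' : (2 : K⟦X⟧) ≠ 0 := by
    have h3 : (2 : K⟦X⟧) = algebraMap K K⟦X⟧ 2 := by rw [map_ofNat]
    rw [h3]
    exact fun h => h2 ((map_eq_zero_iff _ (PowerSeries.C_injective)).1 h)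
  have ha : 2 * algebraMap K K⟦X⟧ (-1/2) = -1 := by
    have h3 : (2 : K⟦X⟧) = algebraMap K K⟦X⟧ 2 := by rw [map_ofNat]
    rw [h3, ← map_mul]
    have h4 : (2 : K) * (-1/2) = -1 := by field_simp
    rw [h4, map_neg, map_one]
  have hU := U_mul_inv K
  have hD := Dq_xx K h2
  rw [dX0_apply, del_apply, Derivation.map_aeval, smul_eq_mul]
  simp only [map_mul, map_sub, map_one, map_pow, Polynomial.aeval_X, Polynomial.aeval_C]
  apply mul_left_cancel₀ h2'
  generalize Polynomial.aeval (xx K) (Polynomial.derivative P) = Q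
  linear_combination (xx K * (1 - xx K ^ 2) * Q) * ha - ((U K)⁻¹ ^ 2 * Q) * hD +
    (xx K * (1 - xx K ^ 2) * Q * (U K * (U K)⁻¹ + 1)) * hU

private theorem Zbase_deg (K : Type*) [Field K] {n : ℕ} {P : Polynomial K} (h : P.natDegree ≤ n) :
    (dX0 K P).natDegree ≤ n + 2 := by
  rw [dX0_apply]
  by_cases h0 : P.natDegree = 0
  · rw [Polynomial.natDegree_eq_zero.1 h0 |>.choose_spec.symm, Polynomial.derivative_C, mul_zero,
      Polynomial.natDegree_zero]
    exact Nat.zero_le _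
  · have h1 : (Polynomial.C (-1/2 : K) * Polynomial.X * (1 - Polynomial.X ^ 2)).natDegree ≤ 3 := by
      compute_degree
    have h3 : (Polynomial.derivative P).natDegree ≤ P.natDegree - 1 :=
      Polynomial.natDegree_derivative_le P
    refine Polynomial.natDegree_mul_le.trans ?_
    omega

theorem exists_Z0 (K : Type*) [Field K] (h2 : (2 : K) ≠ 0) :
    ∃ Z : ZD K (Polynomial K), Z.Zest ∧ Z.d = dX0 K ∧
      (∀ P, Z.ev P = Polynomial.aeval (xx K) P) ∧
      (∀ n e P, Z.B n e P ↔ P.natDegree ≤ n) := by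
  refine ⟨
    { ev := (Polynomial.aeval (xx K) : Polynomial K →ₐ[K] K⟦X⟧).toRingHom
      d := dX0 K
      ev_d := fun P => Zbase_ev K h2 P
      B := fun n _ P => P.natDegree ≤ n
      c := 2
      B_mono := fun hn _ h => le_trans h hn
      B_zero := by rw [Polynomial.natDegree_zero]
      B_one := by rw [Polynomial.natDegree_one]
      B_add := fun hr hs => (Polynomial.natDegree_add_le _ _).trans (max_le hr hs)
      B_neg := fun hr => by rw [Polynomial.natDegree_neg]; exact hr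
      B_mul := fun hr hs => Polynomial.natDegree_mul_le.trans (add_le_add hr hs)
      B_d := fun h => Zbase_deg K h }, ?_, rfl, fun P => rfl, fun n e P => Iff.rfl⟩
  intro e
  refine ⟨1, fun n P hB hP => ?_⟩
  have hB' : P.natDegree ≤ n := hB
  exact ord_xx h2 P hP (1 * (n + 1)) (by omega)

end Pool.Agent.H85.OT

end S_OT_Zbase

section S_OT_Zric

/-!
# Row ZRIC (project OT): the zero estimate for `K[x][z]`

Same scheme as row ZLIN.  Claim, by induction on `k`: for all `e` there is `C` such that for all `n` and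
all `P : K[x][z]` with `natDegree P ≤ k`, all coefficients of `x`-degree `≤ n`, `P ≠ 0`, some coefficient
`l ≤ C (n+1)` of `ev' P` is nonzero.
* `k = 0`: `Zest` for `Z`.
* `k + 1`: let `natDegree P = r = k+1 ≥ 1`, `p_r ≠ 0` its leading coefficient.  Put
  `P2 = C p_r * (dX1 P + r z P) - C (dX0 p_r + p_(r-1)) * P`.
  By `coeff_dX1` the coefficients of `dX1 P + r z P` at `z^(r+1)` and `z^r` are
  `- r p_r + r p_r = 0` and `dX0 p_r - (r-1) p_(r-1) + r p_(r-1) = dX0 p_r + p_(r-1)`; so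
  `natDegree P2 ≤ r - 1 = k`.  `P2 ≠ 0`: otherwise
  `C p_r * dX1 P = (C (dX0 p_r + p_(r-1)) - C p_r * r z) * P`, so `P ∣ C p_r * dX1 P`, and
  `dl` gives `natDegree P = 0`, contradiction.
  The coefficients of `P2` have degree `≤ 2n + 4`.  Induction hypothesis: some coefficient
  `l ≤ C' (2n + 5)` of `ev' P2` is nonzero, and `ev' P2` is a combination of `ev' P` and `del (ev' P)`,
  so some coefficient `≤ l` of `ev' P` is nonzero (`Van`).
(`hB'` could also be used in the form: `Z'.B n e P ↔ natDegree P ≤ e ∧ ∀ i, natDegree (P.coeff i) ≤ n`.)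
-/

open PowerSeries

namespace Pool.Agent.H85.OT

private theorem Zric_cast {K : Type*} [Field K] {R : Type*} [CommRing R] (Z : ZD K R) (m : ℕ) :
    Z.B 0 0 (m : R) := by
  induction m with
  | zero =>
    rw [Nat.cast_zero]
    exact Z.B_zero
  | succ m ih =>
    rw [Nat.cast_succ]
    exact Z.B_add ih Z.B_one

private theorem Zric_claim {K : Type*} [Field K] [CharZero K]
    (Z : ZD K (Polynomial K)) (hZ : Z.Zest) (hZd : Z.d = dX0 K)
    (hZB : ∀ n e P, Z.B n e P ↔ P.natDegree ≤ n)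
    (Z' : ZD K (Polynomial (Polynomial K))) (hd : Z'.d = dX1 K)
    (hev : ∀ a, Z'.ev (Polynomial.C a) = Z.ev a)
    (hB : ∀ n e P, Z'.B n e P ↔ (P.natDegree ≤ e ∧ ∀ i, Z.B n e (P.coeff i))) (k : ℕ) :
    ∃ C : ℕ, ∀ (n : ℕ) (P : Polynomial (Polynomial K)), P.natDegree ≤ k →
      (∀ i, (P.coeff i).natDegree ≤ n) → P ≠ 0 →
      ∃ l ≤ C * (n + 1), PowerSeries.coeff l (Z'.ev P) ≠ 0 := by
  have hB' : ∀ n e P, Z'.B n e P ↔ (P.natDegree ≤ e ∧ ∀ i, (P.coeff i).natDegree ≤ n) := by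
    intro n e P
    rw [hB]
    exact and_congr_right fun _ => forall_congr' fun i => hZB _ _ _
  induction k with
  | zero =>
    obtain ⟨C, hC⟩ := hZ 0
    refine ⟨C, fun n P hP hn h0 => ?_⟩
    have h1 : P = Polynomial.C (P.coeff 0) := Polynomial.eq_C_of_natDegree_le_zero hP
    have h2 : P.coeff 0 ≠ 0 := by
      intro h
      rw [h, map_zero] at h1
      exact h0 h1
    obtain ⟨l, hl, h3⟩ := hC n (P.coeff 0) ((hZB _ _ _).2 (hn 0)) h2
    refine ⟨l, hl, ?_⟩
    rw [h1, hev]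
    exact h3
  | succ k ih =>
    obtain ⟨C', hC'⟩ := ih
    refine ⟨C' * (Z'.c + Z.c + 3), fun n P hP hn h0 => ?_⟩
    rcases Nat.lt_or_ge P.natDegree (k + 1) with hlt | hge
    · obtain ⟨l, hl, h3⟩ := hC' n P (by omega) hn h0
      refine ⟨l, hl.trans ?_, h3⟩
      exact Nat.mul_le_mul_right _ (Nat.le_mul_of_pos_right _ (by omega))
    · have hdeg : P.natDegree = k + 1 := le_antisymm hP hge
      have hr0 : P.coeff (k + 1) ≠ 0 := by
        rw [← hdeg]
        exact Polynomial.leadingCoeff_ne_zero.2 h0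
      have hz : ∀ i, k + 1 < i → P.coeff i = 0 := fun i hi =>
        Polynomial.coeff_eq_zero_of_natDegree_lt (by omega)
      obtain ⟨P2, hP2⟩ : ∃ P2, P2 = Polynomial.C (P.coeff (k + 1)) *
          (dX1 K P + ((k + 1 : ℕ) : Polynomial (Polynomial K)) * (Polynomial.X * P)) -
            Polynomial.C (dX0 K (P.coeff (k + 1)) + P.coeff k) * P := ⟨_, rfl⟩
      have hcoef : ∀ j, P2.coeff (j + 1) = P.coeff (k + 1) * (dX0 K (P.coeff (j + 1)) +
          ((j : Polynomial K) + 2) * g0 K * P.coeff (j + 2) - (j : Polynomial K) * P.coeff j +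
            ((k + 1 : ℕ) : Polynomial K) * P.coeff j) -
              (dX0 K (P.coeff (k + 1)) + P.coeff k) * P.coeff (j + 1) := by
        intro j
        rw [hP2, Polynomial.coeff_sub, Polynomial.coeff_C_mul, Polynomial.coeff_C_mul,
          Polynomial.coeff_add, coeff_dX1, Polynomial.coeff_natCast_mul, Polynomial.coeff_X_mul]
      have hP2deg : P2.natDegree ≤ k := by
        rw [Polynomial.natDegree_le_iff_coeff_eq_zero]
        intro i hi
        obtain ⟨j, rfl⟩ : ∃ j, i = j + 1 := ⟨i - 1, by omega⟩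
        rw [hcoef]
        rcases Nat.lt_or_ge k j with hkj | hkj
        · rw [hz (j + 1) (by omega), hz (j + 2) (by omega), (dX0 K).map_zero]
          rcases Nat.lt_or_ge (k + 1) j with h1 | h1
          · rw [hz j h1]
            ring
          · have h2 : j = k + 1 := by omega
            subst h2
            ring
        · have h2 : j = k := by omega
          subst h2
          rw [hz (j + 2) (by omega)]
          push_cast
          ring
      have hP20 : P2 ≠ 0 := by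
        intro h
        have h1 : P ∣ Polynomial.C (P.coeff (k + 1)) * dX1 K P := by
          refine ⟨Polynomial.C (dX0 K (P.coeff (k + 1)) + P.coeff k) -
            Polynomial.C (P.coeff (k + 1)) *
              (((k + 1 : ℕ) : Polynomial (Polynomial K)) * Polynomial.X), ?_⟩
          rw [hP2, sub_eq_zero] at h
          have h2 : Polynomial.C (P.coeff (k + 1)) * dX1 K P =
              Polynomial.C (P.coeff (k + 1)) * (dX1 K P +
                ((k + 1 : ℕ) : Polynomial (Polynomial K)) * (Polynomial.X * P)) -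
              Polynomial.C (P.coeff (k + 1)) *
                (((k + 1 : ℕ) : Polynomial (Polynomial K)) * (Polynomial.X * P)) := by ring
          rw [h2, h]
          ring
        have h3 := dl P h0 _ hr0 h1
        omega
      have hPB : Z'.B n (k + 1) P := (hB' _ _ _).2 ⟨hP, hn⟩
      have hCB : ∀ (m : ℕ) (a : Polynomial K), a.natDegree ≤ m → Z'.B m 0 (Polynomial.C a) := by
        intro m a ha
        rw [hB']
        refine ⟨(Polynomial.natDegree_C a).le, fun i => ?_⟩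
        rw [Polynomial.coeff_C]
        split_ifs
        · exact ha
        · rw [Polynomial.natDegree_zero]
          exact Nat.zero_le _
      have hXB : Z'.B 0 1 Polynomial.X := by
        rw [hB']
        refine ⟨Polynomial.natDegree_X_le, fun i => ?_⟩
        rw [Polynomial.coeff_X]
        split_ifs
        · exact Polynomial.natDegree_one.le
        · exact Polynomial.natDegree_zero.le
      have hdB : Z'.B (n + Z'.c) (k + 1 + Z'.c) (dX1 K P) := by
        rw [← hd]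
        exact Z'.B_d hPB
      have hdB0 : (dX0 K (P.coeff (k + 1))).natDegree ≤ n + Z.c := by
        rw [← hZd]
        exact (hZB _ (0 + Z.c) _).1 (Z.B_d ((hZB n 0 _).2 (hn _)))
      have hXP : Z'.B (n + Z'.c) (k + 2 + Z'.c)
          (((k + 1 : ℕ) : Polynomial (Polynomial K)) * (Polynomial.X * P)) :=
        Z'.B_mono (by omega) (by omega) (Z'.B_mul (Zric_cast Z' (k + 1)) (Z'.B_mul hXB hPB))
      have hY : Z'.B (n + (n + Z'.c)) (0 + (k + 2 + Z'.c)) (Polynomial.C (P.coeff (k + 1)) *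
          (dX1 K P + ((k + 1 : ℕ) : Polynomial (Polynomial K)) * (Polynomial.X * P))) :=
        Z'.B_mul (hCB n _ (hn _)) (Z'.B_add (Z'.B_mono le_rfl (by omega) hdB) hXP)
      have hW : Z'.B ((n + Z.c) + n) (0 + (k + 1))
          (Polynomial.C (dX0 K (P.coeff (k + 1)) + P.coeff k) * P) := by
        refine Z'.B_mul (hCB _ _ ?_) hPB
        refine (Polynomial.natDegree_add_le _ _).trans (max_le hdB0 ?_)
        exact (hn k).trans (Nat.le_add_right _ _)
      have hP2B : Z'.B (2 * n + (Z'.c + Z.c)) (k + 2 + Z'.c) P2 := by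
        rw [hP2, sub_eq_add_neg]
        exact Z'.B_add (Z'.B_mono (by omega) (by omega) hY)
          (Z'.B_neg (Z'.B_mono (by omega) (by omega) hW))
      obtain ⟨l, hl, h3⟩ := hC' (2 * n + (Z'.c + Z.c)) P2 hP2deg ((hB' _ _ _).1 hP2B).2 hP20
      have hl2 : l ≤ C' * (Z'.c + Z.c + 3) * (n + 1) := by
        refine hl.trans ?_
        rw [mul_assoc]
        refine Nat.mul_le_mul_left _ ?_
        nlinarith [Nat.zero_le ((Z'.c + Z.c) * n), Nat.zero_le n]
      by_contra hcon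
      push Not at hcon
      have hvan : Van l (Z'.ev P) := fun l' hl' => hcon l' (hl'.trans hl2)
      have hvan2 : Van l (Z'.ev P2) := by
        have e1 : Z'.ev P2 = Z'.ev (Polynomial.C (P.coeff (k + 1))) *
            (del K (Z'.ev P) + Z'.ev (((k + 1 : ℕ) : Polynomial (Polynomial K)) *
              Polynomial.X) * Z'.ev P) -
              Z'.ev (Polynomial.C (dX0 K (P.coeff (k + 1)) + P.coeff k)) * Z'.ev P := by
          rw [hP2, ← Z'.ev_d, hd, map_sub, map_mul, map_mul, map_add]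
          congr 3
          rw [← map_mul]
          congr 1
          ring
        rw [e1]
        exact ((hvan.del.add (hvan.mul _)).mul _).sub (hvan.mul _)
      exact h3 (hvan2 l le_rfl)

theorem zest_ric {K : Type*} [Field K] [CharZero K]
    (Z : ZD K (Polynomial K)) (hZ : Z.Zest) (hZd : Z.d = dX0 K)
    (hZB : ∀ n e P, Z.B n e P ↔ P.natDegree ≤ n)
    (Z' : ZD K (Polynomial (Polynomial K))) (hd : Z'.d = dX1 K)
    (hev : ∀ a, Z'.ev (Polynomial.C a) = Z.ev a)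
    (hB : ∀ n e P, Z'.B n e P ↔ (P.natDegree ≤ e ∧ ∀ i, Z.B n e (P.coeff i))) :
    Z'.Zest := by
  intro e
  obtain ⟨C, hC⟩ := Zric_claim Z hZ hZd hZB Z' hd hev hB e
  refine ⟨C, fun n P hP h0 => ?_⟩
  obtain ⟨h1, h2⟩ := (hB _ _ _).1 hP
  exact hC n P h1 (fun i => (hZB _ _ _).1 (h2 i)) h0

end Pool.Agent.H85.OT

end S_OT_Zric

section S_OT_Zns1

/-!
# Row ZNS1 (project OT): no solution of the first linear equation

`K` of characteristic `0`, `κ ≥ 1`, `φ ≠ 0` in `K[x]`, `natDegree φ ≤ 2κ + 1`, `δ = dX1 K`.  Claim: there are no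
`p, q ∈ K[x][z]`, `q ≠ 0`, with `q δp - p δq = φ q² - κ z p q`.

1. WLOG `p, q` relatively prime (`K[x][z]` is a UFD,
   `UniqueFactorizationMonoid.exists_reduced_factors` applied to `q, p`: `q = g q'`, `p = g p'`;
   `q δp - p δq = g² (q' δp' - p' δq')`).
2. `q ∣ p δq`, so `q ∣ δq` (`IsRelPrime.dvd_of_dvd_mul_left`), so by `dl` (`c = 1`) `q = C q0`; and
   `C q0 ∣ C (dX0 q0)` gives `dX0 q0 = s q0`, `s ∈ K[x]`.  Cancel `q`:
   (*) `δp = (s - κ z) p + φ q0`  (`s, φ q0` in `K[x]`, embedded by `C`).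
   `p ≠ 0` because `φ q0 ≠ 0`.
3. `z`-degree of `p` is `κ`: let `d = natDegree p`, coefficient of `z^(d+1)` in (*):
   `- d p_d = - κ p_d` (`coeff_dX1`; `φ q0` only contributes to `z^0`).  So `d = κ ≥ 1`.
4. `q0` is constant.  Suppose first that `q0(x0) = 0` for some `x0 ∈ {0, 1, -1}`, and write
   `q0 = (x - x0)^μ r`, `μ ≥ 1`, `r(x0) ≠ 0`.  From `s q0 = -(1/2) x(1-x²) q0'`, dividing by `(x-x0)^μ` and
   evaluating at `x0`: `s(x0) r(x0) = -(1/2) μ w r(x0)` with `w` = value at `x0` of `x(1-x²)/(x-x0)`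
   (`w = 1, -2, -2` for `x0 = 0, 1, -1`), so `s(x0) ≠ 0`.  Put `x = x0` in (*)
   (`Polynomial.map (Polynomial.evalRingHom x0)`), `σ(z)` = image of `p`; `dX0 p_j` and `g0` vanish at `x0`:
   `- z² σ' = (s(x0) - κ z) σ`; the lowest coefficient of `σ` shows `σ = 0`.  So `x - x0` divides `p` and
   `q = C q0`, contradicting relative primality.
   So `q0` is coprime to `x (1-x²)`, and `q0 ∣ x(1-x²) q0'` gives `q0 ∣ q0'`, `q0' = 0`, `q0` constant
   (`char 0`), and `s q0 = 0`, so `s = 0`.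
5. `δp + κ z p = C (φ q0)`, `natDegree (φ q0) ≤ 2κ + 1 = 2 natDegree p + 1`; `top_lemma`: `2κ ≤ κ`,
   contradiction.
-/

namespace Pool.Agent.H85.OT

theorem Zns1_eval_dX0 {K : Type*} [Field K] (f : Polynomial K) (x0 : K) (h0 : x0 * (1 - x0 ^ 2) = 0) :
    (dX0 K f).eval x0 = 0 := by
  rw [dX0_apply]
  simp only [Polynomial.eval_mul, Polynomial.eval_C, Polynomial.eval_X, Polynomial.eval_sub,
    Polynomial.eval_one, Polynomial.eval_pow]
  linear_combination (-1/2 * Polynomial.eval x0 (Polynomial.derivative f)) * h0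

theorem Zns1_eval_g0 {K : Type*} [Field K] (x0 : K) (h0 : x0 * (1 - x0 ^ 2) = 0) :
    (g0 K).eval x0 = 0 := by
  unfold g0
  simp only [Polynomial.eval_mul, Polynomial.eval_C, Polynomial.eval_X, Polynomial.eval_sub,
    Polynomial.eval_one, Polynomial.eval_pow]
  linear_combination (1/4 * x0) * h0

/-- coefficients of the equation (*) -/
theorem Zns1_coeff {K : Type*} [Field K] {κ : ℕ} {s f : Polynomial K} {p : Polynomial (Polynomial K)}
    (h : dX1 K p = (Polynomial.C s - (κ : Polynomial (Polynomial K)) * Polynomial.X) * p + Polynomial.C f) :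
    (dX0 K (p.coeff 0) + g0 K * p.coeff 1 = s * p.coeff 0 + f) ∧
    ∀ j, dX0 K (p.coeff (j + 1)) + ((j : Polynomial K) + 2) * g0 K * p.coeff (j + 2) -
      (j : Polynomial K) * p.coeff j = s * p.coeff (j + 1) - (κ : Polynomial K) * p.coeff j := by
  have e : (Polynomial.C s - (κ : Polynomial (Polynomial K)) * Polynomial.X) * p =
      Polynomial.C s * p - Polynomial.C (κ : Polynomial K) * (Polynomial.X * p) := by
    rw [map_natCast (Polynomial.C : Polynomial K →+* Polynomial (Polynomial K))]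
    ring
  constructor
  · have h1 := congrArg (fun P => Polynomial.coeff P 0) h
    simp only [coeff_dX1_zero, e, Polynomial.coeff_add, Polynomial.coeff_sub, Polynomial.coeff_C_mul,
      Polynomial.coeff_X_mul_zero, Polynomial.coeff_C_zero, mul_zero, sub_zero] at h1
    exact h1
  · intro j
    have h1 := congrArg (fun P => Polynomial.coeff P (j + 1)) h
    simp only [coeff_dX1, e, Polynomial.coeff_add, Polynomial.coeff_sub, Polynomial.coeff_C_mul,
      Polynomial.coeff_X_mul, Polynomial.coeff_C_succ, add_zero] at h1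
    exact h1

/-- the value of `s` at a zero of `q0` -/
theorem Zns1_s {K : Type*} [Field K] [CharZero K] {q0 s : Polynomial K} (hq0 : q0 ≠ 0)
    (hs : dX0 K q0 = q0 * s) (x0 : K) {W : Polynomial K}
    (hW : Polynomial.X * (1 - Polynomial.X ^ 2) = (Polynomial.X - Polynomial.C x0) * W)
    (hW0 : W.eval x0 ≠ 0) (h0 : q0.eval x0 = 0) : s.eval x0 ≠ 0 := by
  obtain ⟨r, hr, hnd⟩ := Polynomial.exists_eq_pow_rootMultiplicity_mul_and_not_dvd q0 hq0 x0
  have hmu : 0 < q0.rootMultiplicity x0 := (Polynomial.rootMultiplicity_pos hq0).2 h0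
  obtain ⟨m, hm⟩ : ∃ m, q0.rootMultiplicity x0 = m + 1 := ⟨q0.rootMultiplicity x0 - 1, by omega⟩
  rw [hm] at hr
  have hr0 : r.eval x0 ≠ 0 := by
    intro h
    exact hnd (Polynomial.dvd_iff_isRoot.2 h)
  have hne : (Polynomial.X - Polynomial.C x0 : Polynomial K) ^ (m + 1) ≠ 0 :=
    pow_ne_zero _ (Polynomial.X_sub_C_ne_zero x0)
  have hd : Polynomial.derivative q0 = (Polynomial.X - Polynomial.C x0) ^ m *
      (((m : Polynomial K) + 1) * r + (Polynomial.X - Polynomial.C x0) * Polynomial.derivative r) := by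
    rw [hr, Polynomial.derivative_mul, Polynomial.derivative_X_sub_C_pow]
    push_cast
    rw [map_add, map_one, map_natCast (Polynomial.C : K →+* Polynomial K)]
    ring
  have h1 : r * s = Polynomial.C (-1/2 : K) * W *
      (((m : Polynomial K) + 1) * r + (Polynomial.X - Polynomial.C x0) * Polynomial.derivative r) := by
    apply mul_left_cancel₀ hne
    have h2 : (Polynomial.X - Polynomial.C x0) ^ (m + 1) * (r * s) = dX0 K q0 := by
      rw [hs]
      conv_rhs => rw [hr]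
      ring
    rw [h2, dX0_apply, hd]
    linear_combination (Polynomial.C (-1/2 : K) * (Polynomial.X - Polynomial.C x0) ^ m *
      (((m : Polynomial K) + 1) * r + (Polynomial.X - Polynomial.C x0) * Polynomial.derivative r)) * hW
  have h2 := congrArg (Polynomial.eval x0) h1
  simp only [Polynomial.eval_mul, Polynomial.eval_add, Polynomial.eval_sub, Polynomial.eval_X,
    Polynomial.eval_C, Polynomial.eval_natCast, Polynomial.eval_one, sub_self, zero_mul, add_zero] at h2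
  intro hs0
  rw [hs0, mul_zero] at h2
  have h3 : (-1/2 : K) * Polynomial.eval x0 W * (((m : K) + 1) * Polynomial.eval x0 r) ≠ 0 := by
    refine mul_ne_zero (mul_ne_zero (by norm_num) hW0) (mul_ne_zero ?_ hr0)
    exact_mod_cast Nat.succ_ne_zero m
  exact h3 h2.symm

theorem Zns1_noroot {K : Type*} [Field K] [CharZero K] {κ : ℕ} {s φ q0 : Polynomial K}
    {p : Polynomial (Polynomial K)} (hq0 : q0 ≠ 0) (hs : dX0 K q0 = q0 * s)
    (hrel : IsRelPrime (Polynomial.C q0) p)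
    (h : dX1 K p = (Polynomial.C s - (κ : Polynomial (Polynomial K)) * Polynomial.X) * p +
      Polynomial.C (φ * q0)) (x0 : K) {W : Polynomial K}
    (hW : Polynomial.X * (1 - Polynomial.X ^ 2) = (Polynomial.X - Polynomial.C x0) * W)
    (hW0 : W.eval x0 ≠ 0) : q0.eval x0 ≠ 0 := by
  intro h0
  have hs0 := Zns1_s hq0 hs x0 hW hW0 h0
  have hx0 : x0 * (1 - x0 ^ 2) = 0 := by
    have := congrArg (Polynomial.eval x0) hW
    simpa using this
  obtain ⟨c0, c1⟩ := Zns1_coeff h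
  have hall : ∀ j, (p.coeff j).eval x0 = 0 := by
    intro j
    induction j with
    | zero =>
      have h1 := congrArg (Polynomial.eval x0) c0
      simp only [Polynomial.eval_mul, Polynomial.eval_add, Zns1_eval_dX0 _ x0 hx0,
        Zns1_eval_g0 x0 hx0, h0, zero_mul, mul_zero, add_zero] at h1
      rcases mul_eq_zero.1 h1.symm with h2 | h2
      · exact absurd h2 hs0
      · exact h2
    | succ j ih =>
      have h1 := congrArg (Polynomial.eval x0) (c1 j)
      simp only [Polynomial.eval_mul, Polynomial.eval_add, Polynomial.eval_sub, Zns1_eval_dX0 _ x0 hx0,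
        Zns1_eval_g0 x0 hx0, ih, zero_mul, mul_zero, add_zero, sub_zero] at h1
      rcases mul_eq_zero.1 h1.symm with h2 | h2
      · exact absurd h2 hs0
      · exact h2
  have hdp : Polynomial.C (Polynomial.X - Polynomial.C x0) ∣ p := by
    rw [Polynomial.C_dvd_iff_dvd_coeff]
    intro j
    exact Polynomial.dvd_iff_isRoot.2 (hall j)
  have hdq : Polynomial.C (Polynomial.X - Polynomial.C x0) ∣ Polynomial.C q0 :=
    map_dvd Polynomial.C (Polynomial.dvd_iff_isRoot.2 h0)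
  have hu := hrel hdq hdp
  rw [Polynomial.isUnit_C] at hu
  exact (Polynomial.irreducible_X_sub_C x0).not_isUnit hu

theorem Zns1_core {K : Type*} [Field K] [CharZero K] (κ : ℕ) (hκ : 0 < κ) (φ : Polynomial K)
    (hφ : φ ≠ 0) (hd : φ.natDegree ≤ 2 * κ + 1) (p q : Polynomial (Polynomial K)) (hq : q ≠ 0)
    (hrel : IsRelPrime q p)
    (h : q * dX1 K p - p * dX1 K q = Polynomial.C φ * q ^ 2 + bz K κ * (p * q)) : False := by
  have hdvd : q ∣ dX1 K q := by
    refine hrel.dvd_of_dvd_mul_left ⟨dX1 K p - Polynomial.C φ * q - bz K κ * p, ?_⟩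
    linear_combination -h
  have hdeg : q.natDegree = 0 := dl q hq 1 one_ne_zero (by rwa [map_one, one_mul])
  obtain ⟨q0, hqq⟩ : ∃ q0, q = Polynomial.C q0 := ⟨_, Polynomial.eq_C_of_natDegree_eq_zero hdeg⟩
  subst hqq
  have hq0 : q0 ≠ 0 := fun h0 => hq (by rw [h0, map_zero])
  have hdC : dX1 K (Polynomial.C q0) = Polynomial.C (dX0 K q0) := dext_C _ _ _
  obtain ⟨s, hs⟩ : q0 ∣ dX0 K q0 := by
    rw [hdC, Polynomial.C_dvd_iff_dvd_coeff] at hdvd
    have := hdvd 0
    rwa [Polynomial.coeff_C_zero] at this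
  have hstar : dX1 K p = (Polynomial.C s - (κ : Polynomial (Polynomial K)) * Polynomial.X) * p +
      Polynomial.C (φ * q0) := by
    apply mul_left_cancel₀ hq
    rw [hdC, hs] at h
    unfold bz at h
    rw [map_mul] at h ⊢
    linear_combination h
  have hp : p ≠ 0 := by
    intro hp0
    rw [hp0, mul_zero, zero_add, (dX1 K).map_zero] at hstar
    exact mul_ne_zero hφ hq0 (Polynomial.C_eq_zero.1 hstar.symm)
  obtain ⟨c0, c1⟩ := Zns1_coeff hstar
  have hpd : p.natDegree = κ := by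
    have h1 := c1 p.natDegree
    rw [Polynomial.coeff_eq_zero_of_natDegree_lt (Nat.lt_succ_self _),
      Polynomial.coeff_eq_zero_of_natDegree_lt (by omega : p.natDegree < p.natDegree + 2),
      (dX0 K).map_zero, mul_zero, mul_zero, add_zero, zero_sub, zero_sub, neg_inj] at h1
    have h2 : p.coeff p.natDegree ≠ 0 := by
      rw [Polynomial.coeff_natDegree]
      exact Polynomial.leadingCoeff_ne_zero.2 hp
    have h3 := mul_right_cancel₀ h2 h1
    exact_mod_cast h3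
  have hr0 : q0.eval 0 ≠ 0 := by
    refine Zns1_noroot hq0 hs hrel hstar 0 (W := 1 - Polynomial.X ^ 2) ?_ ?_
    · rw [map_zero, sub_zero]
    · simp
  have hr1 : q0.eval 1 ≠ 0 := by
    refine Zns1_noroot hq0 hs hrel hstar 1 (W := - Polynomial.X * (1 + Polynomial.X)) ?_ ?_
    · rw [map_one]
      ring
    · simp only [Polynomial.eval_mul, Polynomial.eval_neg, Polynomial.eval_X, Polynomial.eval_add,
        Polynomial.eval_one]
      norm_num
  have hr2 : q0.eval (-1) ≠ 0 := by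
    refine Zns1_noroot hq0 hs hrel hstar (-1) (W := Polynomial.X * (1 - Polynomial.X)) ?_ ?_
    · rw [map_neg, map_one]
      ring
    · simp only [Polynomial.eval_mul, Polynomial.eval_X, Polynomial.eval_sub, Polynomial.eval_one]
      norm_num
  have hcop : ∀ x0 : K, q0.eval x0 ≠ 0 → IsCoprime q0 (Polynomial.X - Polynomial.C x0) := by
    intro x0 hx
    rw [isCoprime_comm]
    refine ((Polynomial.irreducible_X_sub_C x0).coprime_iff_not_dvd).2 ?_
    intro hd
    exact hx (Polynomial.dvd_iff_isRoot.1 hd)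
  have hder : q0 ∣ Polynomial.derivative q0 := by
    have h1 : q0 ∣ (Polynomial.X - Polynomial.C 0) * ((Polynomial.X - Polynomial.C 1) *
        ((Polynomial.X - Polynomial.C (-1)) * Polynomial.derivative q0)) := by
      have h2 : (Polynomial.X - Polynomial.C 0) * ((Polynomial.X - Polynomial.C 1) *
          ((Polynomial.X - Polynomial.C (-1)) * Polynomial.derivative q0)) =
          Polynomial.C (2 : K) * dX0 K q0 := by
        have h3 : Polynomial.C (2 : K) * Polynomial.C (-1/2 : K) = -1 := by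
          rw [← map_mul]
          norm_num
        rw [dX0_apply]
        simp only [map_zero, map_one, map_neg, sub_zero]
        linear_combination (- (Polynomial.X * (1 - Polynomial.X ^ 2) * Polynomial.derivative q0)) * h3
      rw [h2, hs]
      exact ⟨Polynomial.C 2 * s, by ring⟩
    exact (hcop (-1) hr2).dvd_of_dvd_mul_left ((hcop 1 hr1).dvd_of_dvd_mul_left
      ((hcop 0 hr0).dvd_of_dvd_mul_left h1))
  have hder0 : Polynomial.derivative q0 = 0 :=
    Polynomial.eq_zero_of_dvd_of_degree_lt hder (Polynomial.degree_derivative_lt hq0)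
  have hqd : q0.natDegree = 0 := Polynomial.derivative_eq_zero.1 hder0
  have hs0 : s = 0 := by
    rw [dX0_apply, hder0, mul_zero] at hs
    rcases mul_eq_zero.1 hs.symm with h1 | h1
    · exact absurd h1 hq0
    · exact h1
  have htop := top_lemma p hp κ (φ * q0) (by
    rw [hstar, hs0, map_zero]
    ring) (by
    rw [Polynomial.natDegree_mul hφ hq0, hqd, hpd]
    omega)
  omega

theorem ns1 {K : Type*} [Field K] [CharZero K] (κ : ℕ) (hκ : 0 < κ) (φ : Polynomial K)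
    (hφ : φ ≠ 0) (hd : φ.natDegree ≤ 2 * κ + 1) :
    NS (dX1 K) (Polynomial.C φ) (bz K κ) := by
  intro p q hq h
  obtain ⟨q', p', g, hrel, hgq, hgp⟩ := UniqueFactorizationMonoid.exists_reduced_factors q hq p
  have hg : g ≠ 0 := fun h0 => hq (by rw [← hgq, h0, zero_mul])
  have hq' : q' ≠ 0 := fun h0 => hq (by rw [← hgq, h0, mul_zero])
  refine Zns1_core κ hκ φ hφ hd p' q' hq' hrel ?_
  apply mul_left_cancel₀ (pow_ne_zero 2 hg)
  rw [← hgq, ← hgp, (dX1 K).map_mul, (dX1 K).map_mul] at h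
  linear_combination h

end Pool.Agent.H85.OT

end S_OT_Zns1

section S_OT_Zns2

/-!
# Row ZNS2 (project OT): no solution of the second linear equation

`K` of characteristic `0`, `κ ≥ 1`, `φ1 ≠ 0`, `φ2 ≠ c φ1` for all `c ∈ K`, degrees `≤ 2κ + 1`.
`R2 = K[x][z][U]`, `δ = dext (dX1 K) (φ1 - κ z U)`.  Claim: no `p, q ∈ R2`, `q ≠ 0`, with
`q δp - p δq = φ2 q² - κ z p q`.

1. WLOG `p, q` relatively prime (`R2` is a UFD); then `q ∣ δq`.
   `dl2` applies (`ns1` for `- e φ1 ≠ 0`), so `q = C q1`, `q1 ∈ K[x][z]`, and `q1 ∣ dX1 q1`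
   (`dext_C`), so by `dl` `q1 = C q0`, `q0 ∈ K[x]`, `dX0 q0 = s q0`.  Cancel `q`:
   (*) `δp = (s - κ z) p + φ2 q0`; `p ≠ 0` since `φ2 q0 ≠ 0` (`φ2 ≠ 0`: take `c = 0`).
2. Let `e = natDegree p` (degree in `U`), `p = ∑ p_j U^j`.  By `coeff_dext_lin`
   `dX1 p_j + (j+1) φ1 p_(j+1) - j κ z p_j = (s - κ z) p_j + [j = 0] φ2 q0`.
   * `e ≥ 1`, `j = e`: `dX1 p_e = (s + (e-1) κ z) p_e`.  Let `d` be the `z`-degree of `p_e`; coefficient of
     `z^(d+1)`: `- d = (e-1) κ` (times the nonzero leading coefficient), so `d = 0` and `e = 1`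
     (`κ ≥ 1`).  So `p_1 = C a`, `a ∈ K[x]`, `a ≠ 0`, `dX0 a = s a`.  With `dX0 q0 = s q0`:
     `q0 dX0 a - a dX0 q0 = 0`, so `q0 a' - a q0' = 0` (cancel `x(1-x²)`), so `a = c q0` for a constant
     `c` (`char 0`; `Polynomial.IsCoprime.wronskian_eq_zero_iff` after removing the gcd, or: the
     derivative of the fraction `a/q0` is zero).
     `j = 0`: `dX1 p_0 + φ1 c q0 = (s - κ z) p_0 + φ2 q0`; multiply by `q0` and use `dX0 q0 = s q0`:
     `q0 dX1 p_0 - p_0 dX1 q0 = (φ2 - c φ1) q0² - κ z p_0 q0`, contradicting `ns1` for `φ2 - c φ1 ≠ 0`.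
   * `e = 0`: `p = C p_0`, same computation with `c = 0`.
-/

namespace Pool.Agent.H85.OT

theorem Zns2_const {K : Type*} [Field K] [CharZero K] (a q : Polynomial K) (hq : q ≠ 0)
    (h : q * Polynomial.derivative a = a * Polynomial.derivative q) :
    ∃ c : K, a = Polynomial.C c * q := by
  obtain ⟨q', a', g, hrel, hgq, hga⟩ := UniqueFactorizationMonoid.exists_reduced_factors q hq a
  have hg : g ≠ 0 := by
    rintro rfl
    rw [zero_mul] at hgq
    exact hq hgq.symm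
  have hco : IsCoprime q' a' := hrel.isCoprime
  have hw : Polynomial.wronskian q' a' = 0 := by
    unfold Polynomial.wronskian
    have h1 : g ^ 2 * (q' * Polynomial.derivative a' - Polynomial.derivative q' * a') = 0 := by
      rw [← hgq, ← hga, Polynomial.derivative_mul, Polynomial.derivative_mul] at h
      linear_combination h
    exact (mul_eq_zero.1 h1).resolve_left (pow_ne_zero 2 hg)
  obtain ⟨h1, h2⟩ := (hco.wronskian_eq_zero_iff).1 hw
  have e1 := Polynomial.eq_C_of_derivative_eq_zero h1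
  have e2 := Polynomial.eq_C_of_derivative_eq_zero h2
  have hb : q'.coeff 0 ≠ 0 := by
    intro h0
    rw [h0, Polynomial.C_0] at e1
    rw [e1, mul_zero] at hgq
    exact hq hgq.symm
  refine ⟨a'.coeff 0 / q'.coeff 0, ?_⟩
  rw [← hga, ← hgq, e1, e2, Polynomial.coeff_C_zero, Polynomial.coeff_C_zero]
  have h3 : Polynomial.C (a'.coeff 0 / q'.coeff 0) * (g * Polynomial.C (q'.coeff 0)) =
      g * Polynomial.C (a'.coeff 0 / q'.coeff 0 * q'.coeff 0) := by
    rw [Polynomial.C_mul]; ring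
  rw [h3, div_mul_cancel₀ _ hb]

theorem Zns2_dX0 {K : Type*} [Field K] [CharZero K] (a q s : Polynomial K) (hq : q ≠ 0)
    (h1 : dX0 K q = q * s) (h2 : dX0 K a = a * s) : ∃ c : K, a = Polynomial.C c * q := by
  apply Zns2_const a q hq
  rw [dX0_apply] at h1 h2
  have h3 : (Polynomial.C (-1/2 : K) * Polynomial.X * (1 - Polynomial.X ^ 2)) *
      (q * Polynomial.derivative a - a * Polynomial.derivative q) = 0 := by
    linear_combination q * h2 - a * h1
  have h4 : (Polynomial.C (-1/2 : K) * Polynomial.X * (1 - Polynomial.X ^ 2)) ≠ 0 := by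
    refine mul_ne_zero (mul_ne_zero ?_ Polynomial.X_ne_zero) ?_
    · rw [Ne, Polynomial.C_eq_zero]
      norm_num
    · intro h
      have := congrArg (fun P : Polynomial K => P.coeff 0) h
      simp at this
  exact sub_eq_zero.1 ((mul_eq_zero.1 h3).resolve_left h4)

theorem Zns2_top {K : Type*} [Field K] [CharZero K] (P : Polynomial (Polynomial K)) (hP : P ≠ 0)
    (s : Polynomial K) (m : ℕ)
    (h : dX1 K P = (Polynomial.C s + (m : Polynomial (Polynomial K)) * Polynomial.X) * P) :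
    P.natDegree = 0 ∧ m = 0 := by
  have h1 := congrArg (fun Q : Polynomial (Polynomial K) => Q.coeff (P.natDegree + 1)) h
  have e1 : P.coeff (P.natDegree + 1) = 0 :=
    Polynomial.coeff_eq_zero_of_natDegree_lt (Nat.lt_succ_self _)
  have e2 : P.coeff (P.natDegree + 2) = 0 :=
    Polynomial.coeff_eq_zero_of_natDegree_lt (by omega)
  have e3 : (Polynomial.C s + (m : Polynomial (Polynomial K)) * Polynomial.X) * P =
      Polynomial.C s * P + Polynomial.C (m : Polynomial K) * (Polynomial.X * P) := by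
    rw [map_natCast]; ring
  rw [coeff_dX1, e1, e2, (dX0 K).map_zero, e3, Polynomial.coeff_add, Polynomial.coeff_C_mul,
    Polynomial.coeff_C_mul, Polynomial.coeff_X_mul, e1] at h1
  have hl : P.coeff P.natDegree ≠ 0 := by
    rw [Polynomial.coeff_natDegree, Ne, Polynomial.leadingCoeff_eq_zero]
    exact hP
  have h2 : ((P.natDegree + m : ℕ) : Polynomial K) * P.coeff P.natDegree = 0 := by
    push_cast
    linear_combination -h1
  have h3 := (mul_eq_zero.1 h2).resolve_right hl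
  have h4 : P.natDegree + m = 0 := by exact_mod_cast h3
  omega

theorem ns2 {K : Type*} [Field K] [CharZero K] (κ : ℕ) (hκ : 0 < κ) (φ1 φ2 : Polynomial K)
    (h1 : φ1 ≠ 0) (h2 : ∀ c : K, φ2 ≠ Polynomial.C c * φ1)
    (hd1 : φ1.natDegree ≤ 2 * κ + 1) (hd2 : φ2.natDegree ≤ 2 * κ + 1) :
    NS (dext (dX1 K) (Polynomial.C (Polynomial.C φ1) + Polynomial.C (bz K κ) * Polynomial.X))
      (Polynomial.C (Polynomial.C φ2)) (Polynomial.C (bz K κ)) := by
  classical
  intro p₀ q₀ hq₀ heq₀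
  -- reduction to relatively prime p, q
  obtain ⟨q, p, g, hrel, hgq, hgp⟩ := UniqueFactorizationMonoid.exists_reduced_factors q₀ hq₀ p₀
  have hg : g ≠ 0 := by
    rintro rfl
    rw [zero_mul] at hgq
    exact hq₀ hgq.symm
  have hq : q ≠ 0 := by
    rintro rfl
    rw [mul_zero] at hgq
    exact hq₀ hgq.symm
  obtain ⟨δ, hδ⟩ : ∃ δ, δ = dext (dX1 K) (Polynomial.C (Polynomial.C φ1) +
    Polynomial.C (bz K κ) * Polynomial.X) := ⟨_, rfl⟩
  rw [← hδ] at heq₀
  have heq : q * δ p - p * δ q = Polynomial.C (Polynomial.C φ2) * q ^ 2 +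
      Polynomial.C (bz K κ) * (p * q) := by
    rw [← hgq, ← hgp, δ.map_mul, δ.map_mul] at heq₀
    have h3 : g ^ 2 * ((q * δ p - p * δ q) - (Polynomial.C (Polynomial.C φ2) * q ^ 2 +
      Polynomial.C (bz K κ) * (p * q))) = 0 := by
      linear_combination heq₀
    exact sub_eq_zero.1 ((mul_eq_zero.1 h3).resolve_left (pow_ne_zero 2 hg))
  clear heq₀
  have hqd : q ∣ δ q := by
    apply hrel.dvd_of_dvd_mul_left
    refine ⟨δ p - Polynomial.C (Polynomial.C φ2) * q - Polynomial.C (bz K κ) * p, ?_⟩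
    linear_combination -heq
  have hdeg : q.natDegree = 0 := by
    refine dl2 (dX1 K) (Polynomial.C φ1) (bz K κ) ?_ q hq (hδ ▸ hqd)
    intro e he
    have h5 := ns1 κ hκ (-(e : Polynomial K) * φ1) (mul_ne_zero (neg_ne_zero.2
      (by exact_mod_cast (by omega : e ≠ 0))) h1) (by
        have e5 : -(e : Polynomial K) * φ1 = Polynomial.C (-(e : K)) * φ1 := by
          rw [Polynomial.C_neg, map_natCast]
        rw [e5]
        exact (Polynomial.natDegree_C_mul_le _ _).trans hd1)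
    rw [Polynomial.C_mul, Polynomial.C_neg, map_natCast] at h5
    exact h5
  obtain ⟨q1, hq1⟩ : ∃ q1, q = Polynomial.C q1 := ⟨_, Polynomial.eq_C_of_natDegree_eq_zero hdeg⟩
  have hq10 : q1 ≠ 0 := by
    rintro rfl
    rw [Polynomial.C_0] at hq1
    exact hq hq1
  have hd1' : q1 ∣ Polynomial.C (1 : Polynomial K) * dX1 K q1 := by
    rw [Polynomial.C_1, one_mul]
    rw [hq1, hδ, dext_C, Polynomial.C_dvd_iff_dvd_coeff] at hqd
    have := hqd 0
    rwa [Polynomial.coeff_C_zero] at this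
  have hdeg1 := dl q1 hq10 1 one_ne_zero hd1'
  obtain ⟨q0, hq0⟩ : ∃ q0, q1 = Polynomial.C q0 := ⟨_, Polynomial.eq_C_of_natDegree_eq_zero hdeg1⟩
  have hq00 : q0 ≠ 0 := by
    rintro rfl
    rw [Polynomial.C_0] at hq0
    exact hq10 hq0
  have hdC : ∀ x : Polynomial K, dX1 K (Polynomial.C x) = Polynomial.C (dX0 K x) := fun x =>
    dext_C _ _ _
  obtain ⟨s, hs⟩ : q0 ∣ dX0 K q0 := by
    rw [hq0, Polynomial.C_1, one_mul, hdC, Polynomial.C_dvd_iff_dvd_coeff] at hd1'
    have := hd1' 0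
    rwa [Polynomial.coeff_C_zero] at this
  have hδq : δ q = Polynomial.C (Polynomial.C (q0 * s)) := by
    rw [hq1, hq0, hδ, dext_C, hdC, hs]
  have hqq : q = Polynomial.C (Polynomial.C q0) := by rw [hq1, hq0]
  have hstar : δ p = (Polynomial.C (Polynomial.C s) + Polynomial.C (bz K κ)) * p +
      Polynomial.C (Polynomial.C (φ2 * q0)) := by
    have h6 : q * (δ p - ((Polynomial.C (Polynomial.C s) + Polynomial.C (bz K κ)) * p +
      Polynomial.C (Polynomial.C (φ2 * q0)))) = 0 := by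
      rw [hδq] at heq
      simp only [Polynomial.C_mul] at heq ⊢
      rw [hqq] at heq ⊢
      linear_combination heq
    exact sub_eq_zero.1 ((mul_eq_zero.1 h6).resolve_left hq)
  -- coefficients
  have hcoef : ∀ j : ℕ, dX1 K (p.coeff j) + ((j : Polynomial (Polynomial K)) + 1) *
      Polynomial.C φ1 * p.coeff (j + 1) + (j : Polynomial (Polynomial K)) * bz K κ * p.coeff j =
      (Polynomial.C s + bz K κ) * p.coeff j + (Polynomial.C (Polynomial.C (φ2 * q0)) :
        Polynomial (Polynomial (Polynomial K))).coeff j := by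
    intro j
    have h7 := congrArg (fun Q : Polynomial (Polynomial (Polynomial K)) => Q.coeff j) hstar
    rw [hδ, coeff_dext_lin] at h7
    rw [h7, ← Polynomial.C_add, Polynomial.coeff_add, Polynomial.coeff_C_mul]
  have hp1 : ∃ c : K, p.coeff 1 = Polynomial.C (Polynomial.C c * q0) := by
    by_cases he : p.natDegree = 0
    · refine ⟨0, ?_⟩
      rw [Polynomial.C_0, zero_mul, Polynomial.C_0]
      exact Polynomial.coeff_eq_zero_of_natDegree_lt (by omega)
    · obtain ⟨e, hee⟩ : ∃ e, p.natDegree = e + 1 := ⟨p.natDegree - 1, by omega⟩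
      have hp0 : p ≠ 0 := by
        rintro rfl
        exact he Polynomial.natDegree_zero
      have hP : p.coeff (e + 1) ≠ 0 := by
        rw [← hee, Polynomial.coeff_natDegree, Ne, Polynomial.leadingCoeff_eq_zero]
        exact hp0
      have h8 := hcoef (e + 1)
      have h9 : p.coeff (e + 1 + 1) = 0 :=
        Polynomial.coeff_eq_zero_of_natDegree_lt (by omega)
      rw [h9, Polynomial.coeff_C_succ] at h8
      have h10 : dX1 K (p.coeff (e + 1)) = (Polynomial.C s + ((e * κ : ℕ) :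
          Polynomial (Polynomial K)) * Polynomial.X) * p.coeff (e + 1) := by
        unfold bz at h8
        push_cast at h8 ⊢
        linear_combination h8
      obtain ⟨h11, h12⟩ := Zns2_top _ hP s _ h10
      have he0 : e = 0 := by
        rcases Nat.mul_eq_zero.1 h12 with h | h
        · exact h
        · omega
      subst he0
      obtain ⟨a, ha⟩ : ∃ a, p.coeff (0 + 1) = Polynomial.C a :=
        ⟨_, Polynomial.eq_C_of_natDegree_eq_zero h11⟩
      have h13 : dX0 K a = a * s := by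
        rw [ha, hdC, h12, Nat.cast_zero, zero_mul, add_zero, ← Polynomial.C_mul] at h10
        rw [Polynomial.C_injective h10, mul_comm]
      obtain ⟨c, hc⟩ := Zns2_dX0 a q0 s hq00 hs h13
      exact ⟨c, by rw [← hc]; exact ha⟩
  obtain ⟨c, hc⟩ := hp1
  have h0 := hcoef 0
  rw [zero_add, hc, Polynomial.coeff_C_zero, Nat.cast_zero, zero_mul, zero_mul, add_zero,
    zero_add, one_mul] at h0
  have hne : φ2 - Polynomial.C c * φ1 ≠ 0 := sub_ne_zero.2 (h2 c)
  have hdg : (φ2 - Polynomial.C c * φ1).natDegree ≤ 2 * κ + 1 :=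
    (Polynomial.natDegree_sub_le _ _).trans (max_le hd2
      ((Polynomial.natDegree_C_mul_le _ _).trans hd1))
  refine ns1 κ hκ _ hne hdg (p.coeff 0) (Polynomial.C q0) (by
    rw [Ne, Polynomial.C_eq_zero]; exact hq00) ?_
  rw [hdC, hs]
  simp only [Polynomial.C_mul, Polynomial.C_sub] at h0 ⊢
  linear_combination Polynomial.C q0 * h0

end Pool.Agent.H85.OT

end S_OT_Zns2

section S_OT_Zest

/-!
# Row ZEST (project OT): the zero estimate

`K` of characteristic `0`, `T1, T2 ∈ K⟦X⟧` with `δ T_i = φ_i(x) - κ z T_i` (`δ = del K`, `x = xx`, `z = zz`).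
Build the tower: `Z0` on `K[x]` (`exists_Z0`); `Z1` on `K[x][z]` (`exists_ext` with
`g = C g0 - X²`, `T = zz`: `del zz = U^(-2) D z = x²(1-x²)/4 - z²` by `Dq_zz`); its derivation is `dX1`,
`Zest` by `zest_ric`; `Z2` on `K[x][z][U1]` with `g = C (C φ1) + C (bz κ) * X`, `T = T1`,
`Zest` by `zest_lin` and `ns1`; `Z3` on `K[x][z][U1][U2]` with `g = C (C (C φ2)) + C (C (bz κ)) * X`, `T = T2`,
`Zest` by `zest_lin` and `ns2`.  (`K[x][z]` etc. are domains of characteristic zero.)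
Given `P i j : K[x]` (`i, j < E`) of degree `≤ n`, not all zero, apply `Zest` of `Z3` at `e = E` to
`Q = ∑_j ∑_i C (C (C (P i j))) * (C X)^i * X^j` with `C (C (P i j)) : K[x][z][U1]`..., precisely
`Q = ∑_j monomial j (∑_i monomial i (C (P i j)))`: it is nonzero (its coefficients are the `C (P i j)`), has
`U2`-degree `≤ E`, coefficients of `U1`-degree `≤ E`, `z`-degree `0 ≤ E` and `x`-degree `≤ n`, and
`ev Q = ∑ P i j (x) T1^i T2^j`.
-/

open PowerSeries

namespace Pool.Agent.H85.OT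

theorem Zest_coeff {R : Type*} [CommRing R] (f : ℕ → R) (E k : ℕ) :
    (∑ j ∈ Finset.range E, Polynomial.monomial j (f j)).coeff k = if k < E then f k else 0 := by
  rw [Polynomial.finset_sum_coeff]
  simp only [Polynomial.coeff_monomial]
  rw [Finset.sum_ite_eq' (Finset.range E) k f]
  simp only [Finset.mem_range]

theorem Zest_deg {R : Type*} [CommRing R] (f : ℕ → R) (E : ℕ) :
    (∑ j ∈ Finset.range E, Polynomial.monomial j (f j)).natDegree ≤ E := by
  rw [Polynomial.natDegree_le_iff_coeff_eq_zero]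
  intro N hN
  rw [Zest_coeff, if_neg (by omega)]

theorem Zest_inv {K : Type*} [Field K] : (U K)⁻¹ ^ 2 * U K ^ 2 = 1 := by
  have h := U_mul_inv K
  have h1 : (U K)⁻¹ ^ 2 * U K ^ 2 = (U K * (U K)⁻¹) ^ 2 := by ring
  rw [h1, h, one_pow]

theorem Zest_ext {K : Type*} [Field K] {R : Type*} [CommRing R] [IsDomain R] [CharZero R]
    (Z : ZD K R) (hZ : Z.Zest) (α β : R) (c1 : ℕ) (hα : Z.B c1 c1 α) (hβ : Z.B c1 c1 β)
    (hNS : NS Z.d α β) (T : K⟦X⟧) (hT : del K T = Z.ev α + Z.ev β * T) :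
    ∃ Z' : ZD K (Polynomial R), Z'.Zest ∧
      Z'.d = dext Z.d (Polynomial.C α + Polynomial.C β * Polynomial.X) ∧
      (∀ P, Z'.ev P = P.eval₂ Z.ev T) ∧
      (∀ n e P, Z'.B n e P ↔ (P.natDegree ≤ e ∧ ∀ i, Z.B n e (P.coeff i))) := by
  have h0 : Z.B c1 c1 0 := Z.B_mono (Nat.zero_le _) (Nat.zero_le _) Z.B_zero
  obtain ⟨Z', hd, hev, hB⟩ := exists_ext Z (Polynomial.C α + Polynomial.C β * Polynomial.X)
    (by
      refine (Polynomial.natDegree_add_le _ _).trans (max_le ?_ ?_)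
      · rw [Polynomial.natDegree_C]
        omega
      · refine (Polynomial.natDegree_C_mul_le _ _).trans ?_
        exact Polynomial.natDegree_X_le.trans (by norm_num)) c1
    (by
      intro i
      rw [Polynomial.coeff_add, Polynomial.coeff_C, Polynomial.coeff_C_mul, Polynomial.coeff_X]
      rcases i with _ | _ | i
      · simpa using hα
      · simpa using hβ
      · simpa using h0) T
    (by
      rw [Polynomial.eval₂_add, Polynomial.eval₂_C, Polynomial.eval₂_mul, Polynomial.eval₂_C,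
        Polynomial.eval₂_X]
      exact hT)
  refine ⟨Z', ?_, hd, hev, hB⟩
  exact zest_lin Z hZ α β c1 hα hβ hNS Z' hd (fun a => by rw [hev, Polynomial.eval₂_C]) hB

theorem zero_estimate {K : Type*} [Field K] [CharZero K] (κ : ℕ) (hκ : 0 < κ)
    (φ1 φ2 : Polynomial K) (h1 : φ1 ≠ 0) (h2 : ∀ c : K, φ2 ≠ Polynomial.C c * φ1)
    (hd1 : φ1.natDegree ≤ 2 * κ + 1) (hd2 : φ2.natDegree ≤ 2 * κ + 1)
    (T1 T2 : K⟦X⟧)
    (hT1 : del K T1 = Polynomial.aeval (xx K) φ1 - (κ : K⟦X⟧) * zz K * T1)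
    (hT2 : del K T2 = Polynomial.aeval (xx K) φ2 - (κ : K⟦X⟧) * zz K * T2) (E : ℕ) :
    ∃ C : ℕ, ∀ (n : ℕ) (P : ℕ → ℕ → Polynomial K),
      (∀ i < E, ∀ j < E, (P i j).natDegree ≤ n) → (∃ i < E, ∃ j < E, P i j ≠ 0) →
      ∃ l ≤ C * (n + 1), PowerSeries.coeff l
        (∑ i ∈ Finset.range E, ∑ j ∈ Finset.range E,
          Polynomial.aeval (xx K) (P i j) * T1 ^ i * T2 ^ j) ≠ 0 := by
  have two : (2 : K) ≠ 0 := two_ne_zero
  obtain ⟨Z0, hZ0, hD0, hev0, hB0⟩ := exists_Z0 K two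
  -- Z1
  have hg0deg : (g0 K).natDegree ≤ 4 := by
    unfold g0
    compute_degree
  obtain ⟨Z1, hD1, hev1, hB1⟩ := exists_ext Z0 (Polynomial.C (g0 K) - Polynomial.X ^ 2)
    (by
      refine (Polynomial.natDegree_sub_le _ _).trans (max_le ?_ ?_)
      · rw [Polynomial.natDegree_C]
        omega
      · exact (Polynomial.natDegree_X_pow_le 2)) 4
    (by
      intro i
      rw [hB0, Polynomial.coeff_sub, Polynomial.coeff_C, Polynomial.coeff_X_pow]
      rcases i with _ | _ | _ | i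
      · simpa using hg0deg
      · simp
      · simp
      · simp) (zz K)
    (by
      rw [Polynomial.eval₂_sub, Polynomial.eval₂_C, Polynomial.eval₂_pow, Polynomial.eval₂_X, hev0,
        del_apply]
      have h3 := Dq_zz K two
      have h4 := Zest_inv (K := K)
      have h5 : (4 : K⟦X⟧) ≠ 0 := by
        have h8 : (4 : K⟦X⟧) = algebraMap K K⟦X⟧ 4 := (map_ofNat _ 4).symm
        rw [h8]
        intro h9
        have h10 : (4 : K) = 0 := (algebraMap K K⟦X⟧).injective (h9.trans (map_zero _).symm)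
        have h11 : (4 : K) ≠ 0 := by norm_num
        exact h11 h10
      apply mul_left_cancel₀ h5
      have h6 : (4 : K⟦X⟧) * Polynomial.aeval (xx K) (g0 K) = xx K ^ 2 * (1 - xx K ^ 2) := by
        unfold g0
        rw [map_mul, map_mul, map_pow, map_sub, map_one, map_pow, Polynomial.aeval_X,
          Polynomial.aeval_C]
        have h7 : (4 : K⟦X⟧) * algebraMap K K⟦X⟧ (1 / 4) = 1 := by
          have h8 : (4 : K⟦X⟧) = algebraMap K K⟦X⟧ 4 := (map_ofNat _ 4).symm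
          rw [h8, ← map_mul]
          norm_num
        linear_combination (xx K ^ 2 * (1 - xx K ^ 2)) * h7
      rw [mul_sub, h6]
      linear_combination (U K)⁻¹ ^ 2 * h3 + (xx K ^ 2 * (1 - xx K ^ 2) - 4 * zz K ^ 2) * h4)
  have hD1' : Z1.d = dX1 K := by
    rw [hD1, hD0]
    rfl
  have hZ1 : Z1.Zest := zest_ric Z0 hZ0 hD0 hB0 Z1 hD1' (fun a => by rw [hev1, Polynomial.eval₂_C]) hB1
  -- values
  have hevC : ∀ φ : Polynomial K, Z1.ev (Polynomial.C φ) = Polynomial.aeval (xx K) φ := by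
    intro φ
    rw [hev1, Polynomial.eval₂_C, hev0]
  have hevb : Z1.ev (bz K κ) = -((κ : K⟦X⟧) * zz K) := by
    unfold bz
    rw [map_neg, map_mul, map_natCast, hev1 Polynomial.X, Polynomial.eval₂_X]
  have hBC : ∀ (n e : ℕ) (φ : Polynomial K), φ.natDegree ≤ n → Z1.B n e (Polynomial.C φ) := by
    intro n e φ hφ
    rw [hB1]
    refine ⟨by rw [Polynomial.natDegree_C]; omega, fun i => ?_⟩
    rw [hB0, Polynomial.coeff_C]
    split_ifs
    · exact hφ
    · simp
  have hBb : Z1.B (2 * κ + 1) (2 * κ + 1) (bz K κ) := by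
    rw [hB1]
    unfold bz
    refine ⟨?_, fun i => ?_⟩
    · rw [Polynomial.natDegree_neg]
      refine (Polynomial.natDegree_mul_le).trans ?_
      rw [Polynomial.natDegree_natCast]
      have := Polynomial.natDegree_X_le (R := Polynomial K)
      omega
    · rw [hB0, Polynomial.coeff_neg, Polynomial.natDegree_neg, ← Polynomial.C_eq_natCast,
        Polynomial.coeff_C_mul, Polynomial.coeff_X]
      split_ifs
      · rw [mul_one, Polynomial.natDegree_natCast]
        omega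
      · simp
  -- Z2
  obtain ⟨Z2, hZ2, hD2, hev2, hB2⟩ := Zest_ext Z1 hZ1 (Polynomial.C φ1) (bz K κ) (2 * κ + 1)
    (hBC _ _ _ hd1) hBb (by rw [hD1']; exact ns1 κ hκ φ1 h1 hd1) T1
    (by rw [hevC, hevb, hT1]; ring)
  rw [hD1'] at hD2
  have hB2C : ∀ (n e : ℕ) (a : Polynomial (Polynomial K)), Z1.B n e a → Z2.B n e (Polynomial.C a) := by
    intro n e a ha
    rw [hB2]
    refine ⟨by rw [Polynomial.natDegree_C]; omega, fun i => ?_⟩
    rw [Polynomial.coeff_C]
    split_ifs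
    · exact ha
    · exact Z1.B_mono (Nat.zero_le _) (Nat.zero_le _) Z1.B_zero
  have hev2C : ∀ a, Z2.ev (Polynomial.C a) = Z1.ev a := fun a => by rw [hev2, Polynomial.eval₂_C]
  -- Z3
  obtain ⟨Z3, hZ3, hD3, hev3, hB3⟩ := Zest_ext Z2 hZ2 (Polynomial.C (Polynomial.C φ2))
    (Polynomial.C (bz K κ)) (2 * κ + 1)
    (hB2C _ _ _ (hBC _ _ _ hd2)) (hB2C _ _ _ hBb)
    (by rw [hD2]; exact ns2 κ hκ φ1 φ2 h1 h2 hd1 hd2) T2
    (by rw [hev2C, hev2C, hevC, hevb, hT2]; ring)
  obtain ⟨C, hC⟩ := hZ3 E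
  refine ⟨C, ?_⟩
  intro n P hPn hP0
  obtain ⟨Q, hQ⟩ : ∃ Q : Polynomial (Polynomial (Polynomial (Polynomial K))),
    Q = ∑ j ∈ Finset.range E, Polynomial.monomial j
      (∑ i ∈ Finset.range E, Polynomial.monomial i (Polynomial.C (P i j))) := ⟨_, rfl⟩
  have hQB : Z3.B n E Q := by
    rw [hB3, hQ]
    refine ⟨Zest_deg _ E, fun j => ?_⟩
    rw [Zest_coeff]
    split_ifs with hj
    · rw [hB2]
      refine ⟨Zest_deg _ E, fun i => ?_⟩
      rw [Zest_coeff]
      split_ifs with hi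
      · exact hBC _ _ _ (hPn i hi j hj)
      · exact Z1.B_mono (Nat.zero_le _) (Nat.zero_le _) Z1.B_zero
    · exact Z2.B_mono (Nat.zero_le _) (Nat.zero_le _) Z2.B_zero
  have hQ0 : Q ≠ 0 := by
    obtain ⟨i, hi, j, hj, hij⟩ := hP0
    intro h0
    have h3 : (Q.coeff j).coeff i = 0 := by
      rw [h0, Polynomial.coeff_zero, Polynomial.coeff_zero]
    have h4 : (Q.coeff j).coeff i = Polynomial.C (P i j) := by
      rw [hQ]
      have e1 := Zest_coeff (fun j => ∑ i ∈ Finset.range E,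
        Polynomial.monomial i (Polynomial.C (P i j))) E j
      rw [if_pos hj] at e1
      have e2 := Zest_coeff (fun i => Polynomial.C (P i j)) E i
      rw [if_pos hi] at e2
      exact (congrArg (fun q => Polynomial.coeff q i) e1).trans e2
    exact hij (Polynomial.C_injective ((h4.symm.trans h3).trans Polynomial.C_0.symm))
  have hQev : Z3.ev Q = ∑ i ∈ Finset.range E, ∑ j ∈ Finset.range E,
      Polynomial.aeval (xx K) (P i j) * T1 ^ i * T2 ^ j := by
    rw [hev3, hQ, Polynomial.eval₂_finsetSum, Finset.sum_comm]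
    refine Finset.sum_congr rfl fun j _ => ?_
    rw [Polynomial.eval₂_monomial, hev2, Polynomial.eval₂_finsetSum, Finset.sum_mul]
    refine Finset.sum_congr rfl fun i _ => ?_
    rw [Polynomial.eval₂_monomial, hevC]
  rw [← hQev]
  exact hC n Q hQB hQ0

end Pool.Agent.H85.OT

end S_OT_Zest

section S_OU_ZEa

/-!
# Row ZEA (project OU): the zero estimate, all levels

Same scheme as `OT/Zest.lean` (use `Zest_ext`, `Zest_coeff`, `Zest_deg` from there).  `k = κ + 2`; `LForm` gives `r, e`, `h : LD K r e`, `A = h.alg`, `φ1 = f U^(-k)`, `φ2 = dbl f U^(-k)` in `A`, with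
`IsDeg k (φ_i²)`.  Put `ψ1 = φ1`, `ψ2 = 2 φ2` in `A`, `g = λ(1-λ)/4 ∈ A`, `L = FractionRing A`, `ι : A → L`; `naset_of_LD` gives `D`, `NAset`, `hconst`.
1. `ns_all` in `L` for `ι ψ1, ι ψ2`: integrality from `NAset.int`; `hdeg`: `c1 ψ1 + c2 ψ2 = c1 φ1 + 2 c2 φ2`, `isDeg_sq_add` and constants give `IsDeg K k` in `K⟦X⟧`, the equation lies in `A` and maps to `L`;
   `hne`: `c1 f + 2 c2 dbl f ≠ 0` for `(c1, c2) ≠ 0`: let `m ≥ 1` be the order of `f` (`f_0 = 0`); coefficient `m` of `dbl f` is `0` (its order is `2m`), so `c1 f_m = 0`, `c1 = 0`; then `2 c2 dbl f = 0`, `c2 = 0`.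
2. `nst0`, `nst1`, `nst2` transfer to `A`.
3. Tower: `Z0` on `A` (`exists_ZB`); `Z1` on `A[z]` (`exists_ext` with `C g - X²`, `T = zz K`: `del zz = U^(-2) D zz = λ(1-λ)/4 - zz²` by `Dq_zz`, `λ(1-λ) = x²(1-x²)`; `Zest` by `zest_ricG`, `nst0`);
   `Z2` on `A[z][U1]` (`Zest_ext`, `α = C ψ1`, `β = bX κ`, `T1 = F1 U^(-κ)`: `del T1 = U^(-2)(f U^(-κ) - κ ε F1 U^(-κ)) = ψ1 - κ zz T1`); `Z3` on `A[z][U1][U2]` (`α = C (C ψ2)`, `β = C (bX κ)`,
   `T2 = F2 U^(-κ)`, `del T2 = ψ2 - κ zz T2`).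
4. Apply `Zest` of `Z3` at `e = L + 1` to `Q = ∑_j monomial j (∑_i monomial i (C (C-image of P i j (λ))))`: nonzero (`P(λ) ≠ 0` for `P ≠ 0`, `ord_lam`), `Z3.B n (L+1) Q` (last claim of `exists_ZB` and `B_mono`).
-/

open PowerSeries
open Pool.Agent.H85.OT

namespace Pool.Agent.H85.OU

private lemma ZEa_nat {K : Type*} [Field K] {R : Type*} [CommRing R] (Z : ZD K R) (m : ℕ) :
    Z.B 0 0 (m : R) := by
  induction m with
  | zero => simpa using Z.B_zero
  | succ m ih =>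
    rw [Nat.cast_succ]
    exact Z.B_add ih Z.B_one

private lemma ZEa_lam {K : Type*} [Field K] [CharZero K] (P : Polynomial K) (hP : P ≠ 0) :
    evl K P ≠ 0 := by
  intro h
  obtain ⟨l, -, hl⟩ := ord_lam (K := K) two_ne_zero P hP P.natDegree le_rfl
  apply hl
  unfold evl lam at h
  rw [h, map_zero]

/-- `δ (F U^(-κ)) = φ U^(-κ-2) - κ z F U^(-κ)` -/
private lemma ZEa_T {K : Type*} [Field K] (κ : ℕ) (hκ : 0 < κ) (F φ : K⟦X⟧) (hF : Dq K F = φ) :
    OT.del K (F * (U K)⁻¹ ^ κ) = φ * (U K)⁻¹ ^ (κ + 2) + -((κ : K⟦X⟧) * zz K) * (F * (U K)⁻¹ ^ κ) := by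
  obtain ⟨m, rfl⟩ : ∃ m, κ = m + 1 := ⟨κ - 1, by omega⟩
  have hU := U_mul_inv K
  -- the derivative of the inverse
  have h1 : Dq K ((U K)⁻¹) = -(ee K * (U K)⁻¹) := by
    have h2 : Dq K (U K * (U K)⁻¹) = 0 := by
      rw [hU]
      exact Derivation.map_one_eq_zero _
    rw [Derivation.leibniz, smul_eq_mul, smul_eq_mul, Dq_U] at h2
    have h3 : (U K)⁻¹ * (U K * Dq K ((U K)⁻¹) + (U K)⁻¹ * (ee K * U K)) = 0 := by
      rw [h2, mul_zero]
    linear_combination h3 - (Dq K ((U K)⁻¹) + ee K * (U K)⁻¹) * hU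
  have h2 : Dq K ((U K)⁻¹ ^ (m + 1)) = -(((m + 1 : ℕ) : K⟦X⟧) * ee K * (U K)⁻¹ ^ (m + 1)) := by
    rw [Derivation.leibniz_pow, h1, Nat.add_sub_cancel, nsmul_eq_mul, smul_eq_mul]
    ring
  rw [OT.del_apply, Derivation.leibniz, smul_eq_mul, smul_eq_mul, hF, h2]
  unfold zz
  ring

private lemma ZEa_smul {K : Type*} [Field K] {k : ℕ} (c : K) {y : K⟦X⟧}
    (hy : IsDeg K k (y ^ 2)) : IsDeg K k ((algebraMap K K⟦X⟧ c * y) ^ 2) := by
  have h5 : (algebraMap K K⟦X⟧ c * y) ^ 2 = evl K (Polynomial.C (c ^ 2)) * y ^ 2 := by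
    rw [evl, Polynomial.aeval_C, mul_pow, map_pow]
  have h6 := (IsDeg.of_evl (K := K) (n := 0) (Polynomial.C (c ^ 2))
    (Polynomial.natDegree_C _).le).mul hy
  rw [zero_add] at h6
  rw [h5]
  exact h6

/-- the order argument -/
private lemma ZEa_ne {K : Type*} [Field K] [CharZero K] {f : K⟦X⟧} (hne : f ≠ 0)
    (h0 : PowerSeries.coeff 0 f = 0) (c1 c2 : K) (hc : c1 ≠ 0 ∨ c2 ≠ 0) :
    algebraMap K K⟦X⟧ c1 * f + algebraMap K K⟦X⟧ c2 * (2 * dbl K f) ≠ 0 := by
  classical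
  intro h
  have hex : ∃ m, PowerSeries.coeff m f ≠ 0 := by
    by_contra hcon
    push Not at hcon
    exact hne (PowerSeries.ext fun n => by rw [hcon n, map_zero])
  obtain ⟨m, hm⟩ : ∃ m, m = Nat.find hex := ⟨_, rfl⟩
  have hm1 : PowerSeries.coeff m f ≠ 0 := by
    rw [hm]
    exact Nat.find_spec hex
  have hm2 : ∀ j < m, PowerSeries.coeff j f = 0 := by
    intro j hj
    by_contra hcon
    exact Nat.find_min hex (by rw [← hm]; exact hj) hcon
  have hmpos : 0 < m := by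
    rcases Nat.eq_zero_or_pos m with h1 | h1
    · rw [h1] at hm1
      exact absurd h0 hm1
    · exact h1
  have hcoef : ∀ n, c1 * PowerSeries.coeff n f + c2 * (2 * PowerSeries.coeff n (dbl K f)) = 0 := by
    intro n
    have h1 := congrArg (PowerSeries.coeff n) h
    rw [map_add, map_zero] at h1
    have h2 : ∀ (c : K) (g : K⟦X⟧), PowerSeries.coeff n (algebraMap K K⟦X⟧ c * g)
        = c * PowerSeries.coeff n g := by
      intro c g
      rw [← Algebra.smul_def, PowerSeries.coeff_smul, smul_eq_mul]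
    rw [h2, h2, two_mul, map_add, ← two_mul] at h1
    exact h1
  have hd : PowerSeries.coeff m (dbl K f) = 0 := by
    unfold dbl
    rw [PowerSeries.coeff_expand]
    split_ifs with h1
    · exact hm2 _ (by omega)
    · rfl
  have hc1 : c1 = 0 := by
    have h1 := hcoef m
    rw [hd, mul_zero, mul_zero, add_zero] at h1
    exact (mul_eq_zero.1 h1).resolve_right hm1
  have hc2 : c2 = 0 := by
    have h1 := hcoef (2 * m)
    have h2 : PowerSeries.coeff (2 * m) (dbl K f) = PowerSeries.coeff m f := by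
      unfold dbl
      exact PowerSeries.coeff_expand_mul 2 two_ne_zero f m
    rw [h2, hc1, zero_mul, zero_add] at h1
    exact (mul_eq_zero.1 h1).resolve_right (mul_ne_zero two_ne_zero hm1)
  rcases hc with hc | hc
  · exact hc hc1
  · exact hc hc2

private lemma ZEa_degA {K : Type} [Field K] {r : ℕ} {e : Fin r → K⟦X⟧} (h : LD K r e) {n : ℕ}
    (z : h.alg) (hz : IsDeg K n (z : K⟦X⟧)) :
    IsDegA K (algebraMap h.alg (FractionRing h.alg) ⟨lam K, h.lam_mem⟩) n
      (algebraMap h.alg (FractionRing h.alg) z) := by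
  obtain ⟨r', a, hr, ha, h0⟩ := hz
  refine ⟨r', a, hr, ha, ?_⟩
  obtain ⟨ℓA, hℓA⟩ : ∃ ℓA : h.alg, ℓA = ⟨lam K, h.lam_mem⟩ := ⟨_, rfl⟩
  rw [← hℓA]
  have hval : ((ℓA : h.alg) : K⟦X⟧) = lam K := by rw [hℓA]
  have haev : ∀ P : Polynomial K, ((Polynomial.aeval ℓA P : h.alg) : K⟦X⟧) =
      Polynomial.aeval (lam K) P := by
    intro P
    rw [← hval]
    exact (Polynomial.aeval_algHom_apply h.alg.val ℓA P).symm
  have h1 : z ^ r' + ∑ m ∈ Finset.Icc 1 r', Polynomial.aeval ℓA (a m) * z ^ (r' - m) = 0 := by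
    apply Subtype.ext
    rw [Subalgebra.coe_add, Subalgebra.coe_pow, Subalgebra.coe_zero]
    rw [← Subalgebra.val_apply, ← Subalgebra.val_apply, map_sum]
    simp only [map_mul, map_pow, Subalgebra.val_apply, haev]
    exact h0
  have h2 := congrArg (algebraMap h.alg (FractionRing h.alg)) h1
  rw [map_add, map_pow, map_sum, map_zero] at h2
  rw [← h2]
  congr 1
  refine Finset.sum_congr rfl fun m _ => ?_
  rw [map_mul, map_pow, Polynomial.aeval_algebraMap_apply]

/-- the tower over an abstract ring -/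
private lemma ZEa_tower {K : Type*} [Field K] [CharZero K] {A : Type*} [CommRing A] [IsDomain A]
    [CharZero A] (κ : ℕ) (Z0 : ZD K A) (hZ0 : Z0.Zest) (gA ψ1 ψ2 : A) (cg c1 c2 : ℕ)
    (hcg : Z0.B cg cg gA) (hc1 : Z0.B c1 c1 ψ1) (hc2 : Z0.B c2 c2 ψ2)
    (hgev : (4 : K⟦X⟧) * Z0.ev gA = xx K ^ 2 * (1 - xx K ^ 2))
    (hn0 : ∀ P : Polynomial A, P ≠ 0 → ∀ c : A, c ≠ 0 →
      P ∣ Polynomial.C c * dext Z0.d (Polynomial.C gA - Polynomial.X ^ 2) P → P.natDegree = 0)
    (hn1 : NS (dext Z0.d (Polynomial.C gA - Polynomial.X ^ 2)) (Polynomial.C ψ1) (bX κ))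
    (hn2 : NS (dext (dext Z0.d (Polynomial.C gA - Polynomial.X ^ 2))
        (Polynomial.C (Polynomial.C ψ1) + Polynomial.C (bX κ) * Polynomial.X))
      (Polynomial.C (Polynomial.C ψ2)) (Polynomial.C (bX κ)))
    (T1 T2 : K⟦X⟧) (hT1 : OT.del K T1 = Z0.ev ψ1 + -((κ : K⟦X⟧) * zz K) * T1)
    (hT2 : OT.del K T2 = Z0.ev ψ2 + -((κ : K⟦X⟧) * zz K) * T2)
    (pA : Polynomial K → A) (hpB : ∀ (n : ℕ) (P : Polynomial K), P.natDegree ≤ n → Z0.B n 1 (pA P))
    (hp0 : ∀ P : Polynomial K, P ≠ 0 → pA P ≠ 0) (L : ℕ) :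
    ∃ C : ℕ, ∀ (n : ℕ) (P : ℕ → ℕ → Polynomial K),
      (∀ i < L, ∀ j < L, (P i j).natDegree ≤ n) → (∃ i < L, ∃ j < L, P i j ≠ 0) →
      ∃ l ≤ C * (n + 1), PowerSeries.coeff l
        (∑ i ∈ Finset.range L, ∑ j ∈ Finset.range L,
          Z0.ev (pA (P i j)) * T1 ^ i * T2 ^ j) ≠ 0 := by
  have two : (2 : K) ≠ 0 := two_ne_zero
  have hB00 : ∀ n e, Z0.B n e 0 := fun n e => Z0.B_mono (Nat.zero_le _) (Nat.zero_le _) Z0.B_zero
  -- Z1
  obtain ⟨Z1, hD1, hev1, hB1⟩ := exists_ext Z0 (Polynomial.C gA - Polynomial.X ^ 2)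
    (by
      refine (Polynomial.natDegree_sub_le _ _).trans (max_le ?_ ?_)
      · rw [Polynomial.natDegree_C]
        omega
      · exact (Polynomial.natDegree_X_pow_le 2)) cg
    (by
      intro i
      rw [Polynomial.coeff_sub, Polynomial.coeff_C, Polynomial.coeff_X_pow]
      rcases i with _ | _ | _ | i
      · simpa using hcg
      · simpa using hB00 cg cg
      · simpa using Z0.B_mono (Nat.zero_le _) (Nat.zero_le _) (Z0.B_neg Z0.B_one)
      · simpa using hB00 cg cg) (zz K)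
    (by
      rw [Polynomial.eval₂_sub, Polynomial.eval₂_C, Polynomial.eval₂_pow, Polynomial.eval₂_X,
        del_apply]
      have h3 := Dq_zz K two
      have h4 := Zest_inv (K := K)
      have h5 : (4 : K⟦X⟧) ≠ 0 := by
        have h8 : (4 : K⟦X⟧) = algebraMap K K⟦X⟧ 4 := (map_ofNat _ 4).symm
        rw [h8]
        intro h9
        have h10 : (4 : K) = 0 := (algebraMap K K⟦X⟧).injective (h9.trans (map_zero _).symm)
        have h11 : (4 : K) ≠ 0 := by norm_num
        exact h11 h10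
      apply mul_left_cancel₀ h5
      rw [mul_sub, hgev]
      linear_combination (U K)⁻¹ ^ 2 * h3 + (xx K ^ 2 * (1 - xx K ^ 2) - 4 * zz K ^ 2) * h4)
  have hZ1 : Z1.Zest := zest_ricG Z0 hZ0 gA cg hcg
    hn0 Z1 hD1
    (fun a => by rw [hev1, Polynomial.eval₂_C]) hB1
  -- values
  have hev1C : ∀ a, Z1.ev (Polynomial.C a) = Z0.ev a := by
    intro a
    rw [hev1, Polynomial.eval₂_C]
  have hevb : Z1.ev (bX κ) = -((κ : K⟦X⟧) * zz K) := by
    unfold bX
    rw [map_neg, map_mul, map_natCast, hev1 Polynomial.X, Polynomial.eval₂_X]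
  have hBC : ∀ (n e : ℕ) (a : A), Z0.B n e a → Z1.B n e (Polynomial.C a) := by
    intro n e a ha
    rw [hB1]
    refine ⟨by rw [Polynomial.natDegree_C]; omega, fun i => ?_⟩
    rw [Polynomial.coeff_C]
    split_ifs
    · exact ha
    · exact hB00 n e
  have hBb : Z1.B 1 1 (bX κ) := by
    rw [hB1]
    unfold bX
    refine ⟨?_, fun i => ?_⟩
    · rw [Polynomial.natDegree_neg]
      refine (Polynomial.natDegree_mul_le).trans ?_
      rw [Polynomial.natDegree_natCast]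
      have := Polynomial.natDegree_X_le (R := A)
      omega
    · rw [Polynomial.coeff_neg, ← Polynomial.C_eq_natCast, Polynomial.coeff_C_mul,
        Polynomial.coeff_X]
      refine Z0.B_neg ?_
      split_ifs
      · rw [mul_one]
        exact Z0.B_mono (Nat.zero_le _) (Nat.zero_le _) (ZEa_nat Z0 κ)
      · rw [mul_zero]
        exact hB00 1 1
  -- Z2
  obtain ⟨Z2, hZ2, hD2, hev2, hB2⟩ := Zest_ext Z1 hZ1 (Polynomial.C ψ1) (bX κ) (c1 + 1)
    (hBC _ _ _ (Z0.B_mono (Nat.le_succ _) (Nat.le_succ _) hc1))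
    (Z1.B_mono (by omega) (by omega) hBb)
    (by rw [hD1]; exact hn1) T1
    (by rw [hev1C, hevb]; exact hT1)
  rw [hD1] at hD2
  have hB2C : ∀ (n e : ℕ) (a : Polynomial A), Z1.B n e a → Z2.B n e (Polynomial.C a) := by
    intro n e a ha
    rw [hB2]
    refine ⟨by rw [Polynomial.natDegree_C]; omega, fun i => ?_⟩
    rw [Polynomial.coeff_C]
    split_ifs
    · exact ha
    · exact Z1.B_mono (Nat.zero_le _) (Nat.zero_le _) Z1.B_zero
  have hev2C : ∀ a, Z2.ev (Polynomial.C a) = Z1.ev a := fun a => by rw [hev2, Polynomial.eval₂_C]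
  -- Z3
  obtain ⟨Z3, hZ3, hD3, hev3, hB3⟩ := Zest_ext Z2 hZ2 (Polynomial.C (Polynomial.C ψ2))
    (Polynomial.C (bX κ)) (c2 + 1)
    (hB2C _ _ _ (hBC _ _ _ (Z0.B_mono (Nat.le_succ _) (Nat.le_succ _) hc2)))
    (hB2C _ _ _ (Z1.B_mono (by omega) (by omega) hBb))
    (by rw [hD2]; exact hn2) T2
    (by rw [hev2C, hev2C, hev1C, hevb]; exact hT2)
  obtain ⟨C, hC⟩ := hZ3 (L + 1)
  refine ⟨C, ?_⟩
  intro n P hPn hP0
  obtain ⟨Q, hQ⟩ : ∃ Q : Polynomial (Polynomial (Polynomial A)),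
    Q = ∑ j ∈ Finset.range L, Polynomial.monomial j
      (∑ i ∈ Finset.range L, Polynomial.monomial i (Polynomial.C (pA (P i j)))) := ⟨_, rfl⟩
  have hQB : Z3.B n (L + 1) Q := by
    rw [hB3, hQ]
    refine ⟨(Zest_deg _ L).trans (Nat.le_succ _), fun j => ?_⟩
    rw [Zest_coeff]
    split_ifs with hj
    · rw [hB2]
      refine ⟨(Zest_deg _ L).trans (Nat.le_succ _), fun i => ?_⟩
      rw [Zest_coeff]
      split_ifs with hi
      · refine hBC _ _ _ ?_
        exact Z0.B_mono le_rfl (by omega) (hpB n (P i j) (hPn i hi j hj))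
      · exact Z1.B_mono (Nat.zero_le _) (Nat.zero_le _) Z1.B_zero
    · exact Z2.B_mono (Nat.zero_le _) (Nat.zero_le _) Z2.B_zero
  have hQ0 : Q ≠ 0 := by
    obtain ⟨i, hi, j, hj, hij⟩ := hP0
    intro h0'
    have h3 : (Q.coeff j).coeff i = 0 := by
      rw [h0', Polynomial.coeff_zero, Polynomial.coeff_zero]
    have h4 : (Q.coeff j).coeff i = Polynomial.C (pA (P i j)) := by
      rw [hQ]
      have e1 := Zest_coeff (fun j => ∑ i ∈ Finset.range L,
        Polynomial.monomial i (Polynomial.C (pA (P i j)))) L j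
      rw [if_pos hj] at e1
      have e2 := Zest_coeff (fun i => Polynomial.C (pA (P i j))) L i
      rw [if_pos hi] at e2
      exact (congrArg (fun q => Polynomial.coeff q i) e1).trans e2
    have h5 : pA (P i j) = 0 :=
      Polynomial.C_injective ((h4.symm.trans h3).trans Polynomial.C_0.symm)
    exact hp0 _ hij h5
  have hQev : Z3.ev Q = ∑ i ∈ Finset.range L, ∑ j ∈ Finset.range L,
      Z0.ev (pA (P i j)) * T1 ^ i * T2 ^ j := by
    rw [hev3, hQ, Polynomial.eval₂_finsetSum, Finset.sum_comm]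
    refine Finset.sum_congr rfl fun j _ => ?_
    rw [Polynomial.eval₂_monomial, hev2, Polynomial.eval₂_finsetSum, Finset.sum_mul]
    refine Finset.sum_congr rfl fun i _ => ?_
    rw [Polynomial.eval₂_monomial, hev1C]
  rw [← hQev]
  exact hC n Q hQB hQ0

theorem ze_all {K : Type} [Field K] [CharZero K] [IsAlgClosed K] (κ : ℕ) (hκ : 0 < κ)
    (f : K⟦X⟧) (hf : LForm K (κ + 2) f) (hne : f ≠ 0) (h0 : PowerSeries.coeff 0 f = 0)
    (F1 F2 : K⟦X⟧) (h1 : Dq K F1 = f) (h2 : Dq K F2 = 2 * dbl K f) (L : ℕ) :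
    ∃ C : ℕ, ∀ (n : ℕ) (P : ℕ → ℕ → Polynomial K),
      (∀ i < L, ∀ j < L, (P i j).natDegree ≤ n) → (∃ i < L, ∃ j < L, P i j ≠ 0) →
      ∃ l ≤ C * (n + 1), PowerSeries.coeff l
        (∑ i ∈ Finset.range L, ∑ j ∈ Finset.range L,
          evl K (P i j) * (F1 * (U K)⁻¹ ^ κ) ^ i * (F2 * (U K)⁻¹ ^ κ) ^ j) ≠ 0 := by
  have two : (2 : K) ≠ 0 := two_ne_zero
  obtain ⟨r, e, h, hf1, hf2, hd1, hd2⟩ := hf
  obtain ⟨D, hD, hNA, hconst⟩ := naset_of_LD h
  obtain ⟨ψ1, hψ1⟩ : ∃ ψ1 : h.alg, (ψ1 : K⟦X⟧) = f * (U K)⁻¹ ^ (κ + 2) := ⟨⟨_, hf1⟩, rfl⟩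
  obtain ⟨φ2, hφ2⟩ : ∃ φ2 : h.alg, (φ2 : K⟦X⟧) = dbl K f * (U K)⁻¹ ^ (κ + 2) := ⟨⟨_, hf2⟩, rfl⟩
  obtain ⟨ψ2, hψ2⟩ : ∃ ψ2 : h.alg, ψ2 = 2 * φ2 := ⟨_, rfl⟩
  have hψ2' : (ψ2 : K⟦X⟧) = 2 * dbl K f * (U K)⁻¹ ^ (κ + 2) := by
    rw [hψ2, Subalgebra.coe_mul, hφ2]
    have : ((2 : h.alg) : K⟦X⟧) = 2 := rfl
    rw [this, mul_assoc]
  obtain ⟨ℓA, hℓA⟩ : ∃ ℓA : h.alg, ℓA = ⟨lam K, h.lam_mem⟩ := ⟨_, rfl⟩
  have hℓv : ((ℓA : h.alg) : K⟦X⟧) = lam K := by rw [hℓA]
  obtain ⟨gA, hgA⟩ : ∃ gA : h.alg, gA = algebraMap K h.alg (1 / 4) * (ℓA * (1 - ℓA)) := ⟨_, rfl⟩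
  have hι : Function.Injective (algebraMap h.alg (FractionRing h.alg)) :=
    IsFractionRing.injective _ _
  have hL0 : CharZero (FractionRing h.alg) :=
    charZero_of_injective_algebraMap (algebraMap K (FractionRing h.alg)).injective
  have hA0 : CharZero h.alg := charZero_of_injective_algebraMap (algebraMap K h.alg).injective
  have hιK : ∀ c : K, algebraMap h.alg (FractionRing h.alg) (algebraMap K h.alg c) =
      algebraMap K (FractionRing h.alg) c := fun c =>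
    (IsScalarTower.algebraMap_apply K h.alg (FractionRing h.alg) c).symm
  have hιg : algebraMap h.alg (FractionRing h.alg) gA =
      algebraMap h.alg (FractionRing h.alg) ℓA *
        (1 - algebraMap h.alg (FractionRing h.alg) ℓA) / 4 := by
    rw [hgA, map_mul, map_mul, map_sub, map_one, hιK, map_div₀, map_one, map_ofNat]
    ring
  rw [← hℓA] at hNA
  -- the non-solvability in the fraction field
  have hcomb : ∀ c1 c2 : K, algebraMap K (FractionRing h.alg) c1 *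
      algebraMap h.alg (FractionRing h.alg) ψ1 + algebraMap K (FractionRing h.alg) c2 *
      algebraMap h.alg (FractionRing h.alg) ψ2 = algebraMap h.alg (FractionRing h.alg)
        (algebraMap K h.alg c1 * ψ1 + algebraMap K h.alg c2 * ψ2) := by
    intro c1 c2
    rw [map_add, map_mul, map_mul, hιK, hιK]
  have hcoe : ∀ c1 c2 : K, ((algebraMap K h.alg c1 * ψ1 + algebraMap K h.alg c2 * ψ2 : h.alg) :
      K⟦X⟧) = algebraMap K K⟦X⟧ c1 * (f * (U K)⁻¹ ^ (κ + 2)) +
        algebraMap K K⟦X⟧ (2 * c2) * (dbl K f * (U K)⁻¹ ^ (κ + 2)) := by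
    intro c1 c2
    have e1 : ((algebraMap K h.alg c1 * ψ1 + algebraMap K h.alg c2 * ψ2 : h.alg) :
      K⟦X⟧) = algebraMap K K⟦X⟧ c1 * (ψ1 : K⟦X⟧) + algebraMap K K⟦X⟧ c2 * (ψ2 : K⟦X⟧) := rfl
    rw [e1, hψ1, hψ2', map_mul, map_ofNat]
    ring
  have hall := ns_all hNA hconst κ hκ (algebraMap h.alg (FractionRing h.alg) ψ1)
    (algebraMap h.alg (FractionRing h.alg) ψ2) (hNA.int _ ⟨ψ1, rfl⟩) (hNA.int _ ⟨ψ2, rfl⟩)
    (by
      intro c1 c2
      rw [hcomb, ← map_pow, hℓA]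
      refine ZEa_degA h _ ?_
      rw [Subalgebra.coe_pow, hcoe]
      exact isDeg_sq_add (ZEa_smul c1 hd1) (ZEa_smul (2 * c2) hd2))
    (by
      intro c1 c2 hc h3
      rw [hcomb] at h3
      have h4 := hι (h3.trans (map_zero _).symm)
      have h5 := hcoe c1 c2
      rw [h4] at h5
      have h6 : (algebraMap K K⟦X⟧ c1 * f + algebraMap K K⟦X⟧ c2 * (2 * dbl K f)) *
          (U K)⁻¹ ^ (κ + 2) = 0 := by
        rw [map_mul, map_ofNat] at h5
        have h7 : ((0 : h.alg) : K⟦X⟧) = 0 := rfl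
        rw [h7] at h5
        rw [h5]
        ring
      have h7 : (U K)⁻¹ ^ (κ + 2) ≠ 0 := by
        refine pow_ne_zero _ ?_
        intro h8
        have h9 := U_mul_inv K
        rw [h8, mul_zero] at h9
        exact zero_ne_one h9
      exact ZEa_ne hne h0 c1 c2 hc ((mul_eq_zero.1 h6).resolve_right h7))
  obtain ⟨hDL, hns1, hns2⟩ := hall
  rw [← hιg] at hDL hns1 hns2
  have hn0 := nst0 (algebraMap h.alg (FractionRing h.alg)) hι h.dA D hD gA hDL
  have hn1 := nst1 (algebraMap h.alg (FractionRing h.alg)) hι h.dA D hD gA ψ1 κ hns1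
  have hn2 := nst2 (algebraMap h.alg (FractionRing h.alg)) hι h.dA D hD gA ψ1 ψ2 κ hns2
  -- the tower
  obtain ⟨Z0, hZ0, hD0, hev0, hBc, hBP⟩ := exists_ZB h
  obtain ⟨cg, hcg⟩ := hBc gA
  obtain ⟨c1, hc1⟩ := hBc ψ1
  obtain ⟨c2, hc2⟩ := hBc ψ2
  have hgev : (4 : K⟦X⟧) * Z0.ev gA = xx K ^ 2 * (1 - xx K ^ 2) := by
    rw [hev0, hgA]
    have e1 : ((algebraMap K h.alg (1 / 4) * (ℓA * (1 - ℓA)) : h.alg) : K⟦X⟧) =
        algebraMap K K⟦X⟧ (1 / 4) * ((ℓA : K⟦X⟧) * (1 - (ℓA : K⟦X⟧))) := rfl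
    rw [e1, hℓv]
    have h7 : (4 : K⟦X⟧) * algebraMap K K⟦X⟧ (1 / 4) = 1 := by
      have h8 : (4 : K⟦X⟧) = algebraMap K K⟦X⟧ 4 := (map_ofNat _ 4).symm
      rw [h8, ← map_mul]
      norm_num
    unfold lam
    linear_combination (xx K ^ 2 * (1 - xx K ^ 2)) * h7
  rw [← hD0] at hn0 hn1 hn2
  obtain ⟨pA, hpA⟩ : ∃ pA : Polynomial K → h.alg, ∀ Q, ((pA Q : h.alg) : K⟦X⟧) = evl K Q :=
    ⟨fun Q => ⟨evl K Q, h.evl_mem Q⟩, fun Q => rfl⟩
  obtain ⟨C, hC⟩ := ZEa_tower κ Z0 hZ0 gA ψ1 ψ2 cg c1 c2 hcg hc1 hc2 hgev hn0 hn1 hn2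
    (F1 * (U K)⁻¹ ^ κ) (F2 * (U K)⁻¹ ^ κ)
    (by rw [hev0, hψ1]; exact ZEa_T κ hκ F1 f h1)
    (by rw [hev0, hψ2']; exact ZEa_T κ hκ F2 (2 * dbl K f) h2) pA
    (fun n P hP => hBP n P _ hP (hpA P))
    (fun P hP h0' => ZEa_lam P hP (by rw [← hpA P, h0']; rfl)) L
  refine ⟨C, fun n P hPn hP0 => ?_⟩
  obtain ⟨l, hl, hl0⟩ := hC n P hPn hP0
  refine ⟨l, hl, ?_⟩
  have e1 : ∀ Q : Polynomial K, Z0.ev (pA Q) = evl K Q := fun Q => by rw [hev0, hpA]
  simp only [e1] at hl0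
  exact hl0

end Pool.Agent.H85.OU

end S_OU_ZEa

section S_OU_ILa

/-!
# Row ILA (project OU): the zero estimate for `PhiL`

Same as `OT/Cze.lean`.  `κ = k - 2 ≥ 1`, `Ω = AlgebraicClosure ℚ`, `φ = algebraMap ℚ Ω`.  `LForm.map` gives `LForm Ω k (map φ f_ℚ)`, `f_ℚ = map f ≠ 0`, coefficient `0` zero.
`D F1 = f_ℚ` (coefficient `n`: `n * (a_n/n)`), `D F2 = 2 dbl f_ℚ`; map to `Ω`.  `ze_all` gives `C`.
Let `t ≠ 0`, `P i j = ∑_e t_(i,j,e) X^e` (degree `≤ n`, not all `0`).  Then `PhiL = U^(2n + 2κL) ∑ P i j (λ) (F1 U^(-κ))^i (F2 U^(-κ))^j`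
(`U² - V² = U² λ`; exponents `2n - 2e + κ(2L-i-j) + 2e = 2n + 2κL - κ i - κ j`, `e ≤ n`, `i + j ≤ 2L`).
If all coefficients `≤ C(n+1)` of `PhiL` vanish, so do those of `U^(-(2n+2κL)) PhiL`, and those of its image in `Ω⟦X⟧` (`map_evl`, `map_Uinv`), contradiction.
-/

open PowerSeries
open Pool.Agent.H85.OT

namespace Pool.Agent.H85.OU

private theorem ILa_dbl (F : ℚ⟦X⟧) (n : ℕ) : PowerSeries.coeff n (dbl ℚ F) =
    if 2 ∣ n then PowerSeries.coeff (n / 2) F else 0 := by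
  unfold dbl
  exact PowerSeries.coeff_expand _ _ _

private theorem ILa_Ddbl (F : ℚ⟦X⟧) : Dq ℚ (dbl ℚ F) = 2 * dbl ℚ (Dq ℚ F) := by
  ext n
  have h2 : (2 : ℚ⟦X⟧) = PowerSeries.C (2 : ℚ) := (map_ofNat PowerSeries.C 2).symm
  rw [coeff_Dq, h2, PowerSeries.coeff_C_mul, ILa_dbl, ILa_dbl]
  split_ifs with h
  · obtain ⟨m, rfl⟩ := h
    rw [coeff_Dq, Nat.mul_div_cancel_left m (by norm_num)]
    push_cast
    ring
  · ring

private theorem ILa_DF1 {f : ℤ⟦X⟧} (h0 : PowerSeries.coeff 0 f = 0) :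
    Dq ℚ (F1 f) = PowerSeries.map (Int.castRingHom ℚ) f := by
  ext n
  rw [coeff_Dq, F1, PowerSeries.coeff_mk, PowerSeries.coeff_map]
  rcases Nat.eq_zero_or_pos n with rfl | hn
  · rw [h0]
    simp
  · have hn' : (n : ℚ) ≠ 0 := by exact_mod_cast hn.ne'
    show (n : ℚ) * (((PowerSeries.coeff n f : ℤ) : ℚ) / n) = ((PowerSeries.coeff n f : ℤ) : ℚ)
    field_simp

private theorem ILa_inj {f : ℤ⟦X⟧} (hne : f ≠ 0) :
    PowerSeries.map (Int.castRingHom ℚ) f ≠ 0 := by
  intro h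
  apply hne
  ext n
  have h1 := congrArg (PowerSeries.coeff n) h
  rw [PowerSeries.coeff_map, map_zero] at h1
  rw [map_zero]
  have h2 : ((PowerSeries.coeff n f : ℤ) : ℚ) = 0 := h1
  exact_mod_cast h2

private theorem ILa_map_inj {K K' : Type*} [Field K] [Field K'] (φ : K →+* K') {g : K⟦X⟧}
    (hg : g ≠ 0) : PowerSeries.map φ g ≠ 0 := by
  intro h
  apply hg
  ext n
  have h1 := congrArg (PowerSeries.coeff n) h
  rw [PowerSeries.coeff_map, map_zero] at h1
  rw [map_zero]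
  exact (map_eq_zero φ).1 h1

private theorem ILa_lam : U ℚ ^ 2 - V ℚ ^ 2 = U ℚ ^ 2 * lam ℚ := by
  unfold lam
  linear_combination (xx ℚ * U ℚ + V ℚ) * xx_mul_U ℚ

private theorem ILa_GG (f : ℤ⟦X⟧) (κ L n : ℕ) (s : Fin L × Fin L × Fin (n + 1)) :
    GGl f κ L n s = U ℚ ^ (2 * n + 2 * κ * L) * (lam ℚ ^ (s.2.2 : ℕ) *
      (F1 f * (U ℚ)⁻¹ ^ κ) ^ (s.1 : ℕ) * (F2 f * (U ℚ)⁻¹ ^ κ) ^ (s.2.1 : ℕ)) := by
  obtain ⟨i, j, e⟩ := s
  have hi := i.2
  have hj := j.2
  have he := e.2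
  unfold GGl
  show U ℚ ^ (2 * n - 2 * (e : ℕ) + κ * (2 * L - (i : ℕ) - (j : ℕ))) *
    (U ℚ ^ 2 - V ℚ ^ 2) ^ (e : ℕ) *
    F1 f ^ (i : ℕ) * F2 f ^ (j : ℕ) = U ℚ ^ (2 * n + 2 * κ * L) * (lam ℚ ^ (e : ℕ) *
      (F1 f * (U ℚ)⁻¹ ^ κ) ^ (i : ℕ) * (F2 f * (U ℚ)⁻¹ ^ κ) ^ (j : ℕ))
  obtain ⟨m, hm⟩ : ∃ m, 2 * L - (i : ℕ) - (j : ℕ) = m := ⟨_, rfl⟩
  have hE : 2 * L = m + i + j := by omega
  obtain ⟨q, hq⟩ : ∃ q, 2 * n - 2 * (e : ℕ) = q := ⟨_, rfl⟩
  have hq2 : 2 * n = q + 2 * e := by omega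
  have h1 : 2 * n + 2 * κ * L = q + κ * m + 2 * e + κ * i + κ * j := by
    have h2 : 2 * n + 2 * κ * L = 2 * n + κ * (2 * L) := by ring
    rw [h2, hE, hq2]
    ring
  rw [hm, hq, h1, ILa_lam, mul_pow, mul_pow, mul_pow, ← pow_mul, ← pow_mul, ← pow_mul,
    pow_add (U ℚ) (q + κ * m + 2 * e + κ * i), pow_add (U ℚ) (q + κ * m + 2 * e),
    pow_add (U ℚ) (q + κ * m)]
  have h2 : U ℚ ^ (κ * (i : ℕ)) * (U ℚ)⁻¹ ^ (κ * (i : ℕ)) = 1 := by
    rw [← mul_pow, U_mul_inv, one_pow]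
  have h3 : U ℚ ^ (κ * (j : ℕ)) * (U ℚ)⁻¹ ^ (κ * (j : ℕ)) = 1 := by
    rw [← mul_pow, U_mul_inv, one_pow]
  have h4 : U ℚ ^ (q + κ * m) * U ℚ ^ (2 * (e : ℕ)) * U ℚ ^ (κ * (i : ℕ)) *
      U ℚ ^ (κ * (j : ℕ)) *
      (lam ℚ ^ (e : ℕ) * (F1 f ^ (i : ℕ) * (U ℚ)⁻¹ ^ (κ * (i : ℕ))) *
        (F2 f ^ (j : ℕ) * (U ℚ)⁻¹ ^ (κ * (j : ℕ)))) =
      U ℚ ^ (q + κ * m) * (U ℚ ^ (2 * (e : ℕ)) * lam ℚ ^ (e : ℕ)) * F1 f ^ (i : ℕ) *
        F2 f ^ (j : ℕ) *
        ((U ℚ ^ (κ * (i : ℕ)) * (U ℚ)⁻¹ ^ (κ * (i : ℕ))) *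
          (U ℚ ^ (κ * (j : ℕ)) * (U ℚ)⁻¹ ^ (κ * (j : ℕ)))) := by ring
  rw [h4, h2, h3, mul_one, mul_one]

/-- the polynomials -/
private noncomputable def ILa_P {E n : ℕ} (t : Fin E × Fin E × Fin (n + 1) → ℤ) (i j : ℕ) :
    Polynomial ℚ :=
  if h : i < E ∧ j < E then
    ∑ e : Fin (n + 1), Polynomial.monomial (e : ℕ) ((t (⟨i, h.1⟩, ⟨j, h.2⟩, e) : ℤ) : ℚ)
  else 0

private theorem ILa_P_eq {E n : ℕ} (t : Fin E × Fin E × Fin (n + 1) → ℤ) (i j : Fin E) :
    ILa_P t i j = ∑ e : Fin (n + 1), Polynomial.monomial (e : ℕ) ((t (i, j, e) : ℤ) : ℚ) := by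
  unfold ILa_P
  rw [dif_pos ⟨i.2, j.2⟩]

private theorem ILa_P_deg {E n : ℕ} (t : Fin E × Fin E × Fin (n + 1) → ℤ) (i j : ℕ) :
    (ILa_P t i j).natDegree ≤ n := by
  unfold ILa_P
  split_ifs with h
  · refine Polynomial.natDegree_sum_le_of_forall_le _ _ (fun e _ => ?_)
    exact (Polynomial.natDegree_monomial_le _).trans (Nat.lt_succ_iff.1 e.2)
  · rw [Polynomial.natDegree_zero]
    exact Nat.zero_le _

private theorem ILa_P_coeff {E n : ℕ} (t : Fin E × Fin E × Fin (n + 1) → ℤ) (i j : Fin E)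
    (e : Fin (n + 1)) : (ILa_P t i j).coeff e = ((t (i, j, e) : ℤ) : ℚ) := by
  rw [ILa_P_eq, Polynomial.finsetSum_coeff, Finset.sum_eq_single e]
  · rw [Polynomial.coeff_monomial, if_pos rfl]
  · intro b _ hb
    rw [Polynomial.coeff_monomial, if_neg (fun h => hb (Fin.ext h))]
  · intro h
    exact absurd (Finset.mem_univ _) h

private theorem ILa_Phi (f : ℤ⟦X⟧) (κ L n : ℕ) (t : Fin L × Fin L × Fin (n + 1) → ℤ) :
    PhiL f κ L n t = U ℚ ^ (2 * n + 2 * κ * L) * ∑ i ∈ Finset.range L, ∑ j ∈ Finset.range L,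
      evl ℚ (ILa_P t i j) * (F1 f * (U ℚ)⁻¹ ^ κ) ^ i *
        (F2 f * (U ℚ)⁻¹ ^ κ) ^ j := by
  unfold PhiL
  rw [Finset.sum_range, Finset.mul_sum, Fintype.sum_prod_type]
  refine Finset.sum_congr rfl fun i _ => ?_
  rw [Finset.sum_range, Finset.mul_sum, Fintype.sum_prod_type]
  refine Finset.sum_congr rfl fun j _ => ?_
  rw [ILa_P_eq, map_sum, Finset.sum_mul, Finset.sum_mul, Finset.mul_sum]
  refine Finset.sum_congr rfl fun e _ => ?_
  rw [ILa_GG, Polynomial.aeval_monomial]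
  show PowerSeries.C ((t (i, j, e) : ℤ) : ℚ) * _ = _
  have h1 : algebraMap ℚ ℚ⟦X⟧ ((t (i, j, e) : ℤ) : ℚ) = PowerSeries.C ((t (i, j, e) : ℤ) : ℚ) :=
    rfl
  rw [h1]
  ring

theorem ze_phiL (f : ℤ⟦X⟧) (k : ℕ) (hk : 3 ≤ k)
    (hf : LForm ℚ k (PowerSeries.map (Int.castRingHom ℚ) f)) (hne : f ≠ 0)
    (h0 : PowerSeries.coeff 0 f = 0) (L : ℕ) :
    ∃ C : ℕ, ∀ (n : ℕ) (t : Fin L × Fin L × Fin (n + 1) → ℤ), t ≠ 0 →
      ∃ l ≤ C * (n + 1), PowerSeries.coeff l (PhiL f (k - 2) L n t) ≠ 0 := by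
  obtain ⟨κ, hκ⟩ : ∃ κ, k - 2 = κ := ⟨_, rfl⟩
  rw [hκ]
  obtain rfl : k = κ + 2 := by omega
  obtain ⟨φ, hφ⟩ : ∃ φ : ℚ →+* AlgebraicClosure ℚ, φ = algebraMap ℚ (AlgebraicClosure ℚ) :=
    ⟨_, rfl⟩
  have hne' := ILa_map_inj φ (ILa_inj hne)
  have h0' : PowerSeries.coeff 0 (PowerSeries.map φ (PowerSeries.map (Int.castRingHom ℚ) f)) =
      0 := by
    rw [PowerSeries.coeff_map, PowerSeries.coeff_map, h0, map_zero, map_zero]
  have hD1 : Dq (AlgebraicClosure ℚ) (PowerSeries.map φ (F1 f)) =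
      PowerSeries.map φ (PowerSeries.map (Int.castRingHom ℚ) f) := by
    rw [← LFc_map_Dq, ILa_DF1 h0]
  have hD2 : Dq (AlgebraicClosure ℚ) (PowerSeries.map φ (F2 f)) =
      2 * dbl (AlgebraicClosure ℚ)
        (PowerSeries.map φ (PowerSeries.map (Int.castRingHom ℚ) f)) := by
    rw [← LFc_map_Dq, F2, ILa_Ddbl, ILa_DF1 h0, map_mul, map_ofNat, map_dbl]
  obtain ⟨C, hC⟩ := ze_all (K := AlgebraicClosure ℚ) κ (by omega) _ (hf.map φ) hne' h0'
    _ _ hD1 hD2 L
  refine ⟨C, fun n t ht => ?_⟩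
  obtain ⟨⟨i, j, e⟩, hs⟩ : ∃ s, t s ≠ 0 := by
    by_contra hcon
    push Not at hcon
    exact ht (funext hcon)
  obtain ⟨l, hl, h3⟩ := hC n (fun i j => (ILa_P t i j).map φ)
    (fun i _ j _ => Polynomial.natDegree_map_le.trans (ILa_P_deg t i j))
    ⟨i, i.2, j, j.2, by
      intro h4
      have h5 := ILa_P_coeff t i j e
      have h6 : (ILa_P t i j).map φ = 0 := h4
      have h7 : ILa_P t i j = 0 := (Polynomial.map_eq_zero φ).1 h6
      rw [h7, Polynomial.coeff_zero] at h5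
      exact hs (by exact_mod_cast h5.symm)⟩
  by_contra hcon
  push Not at hcon
  have hvan : Van l (PhiL f κ L n t) := fun l' hl' => hcon l' (hl'.trans hl)
  have hI : (U ℚ)⁻¹ ^ (2 * n + 2 * κ * L) * U ℚ ^ (2 * n + 2 * κ * L) = 1 := by
    rw [← mul_pow, mul_comm (U ℚ)⁻¹, U_mul_inv, one_pow]
  have h7 := hvan.mul ((U ℚ)⁻¹ ^ (2 * n + 2 * κ * L))
  rw [ILa_Phi, ← mul_assoc, hI, one_mul] at h7
  have h8 : ∑ i ∈ Finset.range L, ∑ j ∈ Finset.range L,
      evl (AlgebraicClosure ℚ) ((ILa_P t i j).map φ) *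
        (PowerSeries.map φ (F1 f) * (U (AlgebraicClosure ℚ))⁻¹ ^ κ) ^ i *
        (PowerSeries.map φ (F2 f) * (U (AlgebraicClosure ℚ))⁻¹ ^ κ) ^ j =
      PowerSeries.map φ (∑ i ∈ Finset.range L, ∑ j ∈ Finset.range L,
        evl ℚ (ILa_P t i j) * (F1 f * (U ℚ)⁻¹ ^ κ) ^ i * (F2 f * (U ℚ)⁻¹ ^ κ) ^ j) := by
    rw [map_sum]
    refine Finset.sum_congr rfl fun i _ => ?_
    rw [map_sum]
    refine Finset.sum_congr rfl fun j _ => ?_
    rw [map_mul, map_mul, map_pow, map_pow, map_mul, map_mul, map_pow, map_Uinv, map_evl]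
  have h9 := h3
  rw [h8, PowerSeries.coeff_map, h7 l le_rfl, map_zero] at h9
  exact h9 rfl

end Pool.Agent.H85.OU

end S_OU_ILa
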