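import Mathlib
import Pool.Agent.H85.OM.M01
import Pool.Agent.H85.OM.M02
import Pool.Agent.H85.OM.M03

/-! First slopes of modular forms, part M07: this file joins several modules to save build time. -/

section S_OT_Cbd

/-!
# Row CBD (project OT): bounds for coefficients

`0 < ρ < 1`.
* `Bd.mul`: the partial sum of `|(gh)_n| ρ^n` over `n < N` is at most the product of the partial sums
  over `n < N` (`|∑ g_a h_b| ≤ ∑ |g_a||h_b|`, all pairs `a + b < N` have `a, b < N`); `Bd.pow`.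
* `|coeff n th3| ≤ 2`, `|coeff n th4| ≤ 2`, so `th3, th4` have bound `2/(1-ρ)`, and `U, V` have bound
  `MR ρ = 4/(1-ρ)²`.
* a form `f` (`M f = ∑ c_j (th3^4)^(w-j) (th4^4)^j`): each monomial is bounded by `(2/(1-ρ))^(4w)`, so
  `|a_n| ρ^n` has bounded partial sums; `|a_n/n| ≤ |a_n|`; `F2` has coefficients `F1_n` at `2n`
  and `ρ^(2n) ≤ ρ^n`.
* `GG_bd`: `GG` has bound `MR^(n+2κE) B^(2E)` (`MR ≥ 1`, `B ≥ 1`, total exponent of `U, V` is
  `n + κ(2E-i-j) ≤ n + 2κE`, of `F1, F2` is `i + j ≤ 2E`), and a single term of the sum is at most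
  the sum: `|coeff l| ρ^l ≤ bound`.
-/

open PowerSeries

namespace Pool.Agent.H85.OT

theorem Cbd_anti (N : ℕ) (F : ℕ × ℕ → ℝ) :
    ∑ n ∈ Finset.range N, ∑ p ∈ Finset.HasAntidiagonal.antidiagonal n, F p =
      ∑ p ∈ (Finset.range N ×ˢ Finset.range N).filter (fun p => p.1 + p.2 < N), F p := by
  rw [Finset.sum_sigma']
  refine Finset.sum_nbij' (fun x => x.2) (fun p => ⟨p.1 + p.2, p⟩) ?_ ?_ ?_ ?_ ?_
  · rintro ⟨n, a, b⟩ h
    simp only [Finset.mem_sigma, Finset.mem_range, Finset.HasAntidiagonal.mem_antidiagonal] at h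
    simp only [Finset.mem_filter, Finset.mem_product, Finset.mem_range]
    omega
  · rintro ⟨a, b⟩ h
    simp only [Finset.mem_filter, Finset.mem_product, Finset.mem_range] at h
    simp only [Finset.mem_sigma, Finset.mem_range, Finset.HasAntidiagonal.mem_antidiagonal]
    exact ⟨h.2, trivial⟩
  · rintro ⟨n, a, b⟩ h
    simp only [Finset.mem_sigma, Finset.mem_range, Finset.HasAntidiagonal.mem_antidiagonal] at h
    obtain ⟨-, rfl⟩ := h
    rfl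
  · rintro ⟨a, b⟩ _
    rfl
  · rintro ⟨n, a, b⟩ _
    rfl

theorem Bd.nonneg {ρ A : ℝ} {g : ℚ⟦X⟧} (hg : Bd ρ A g) : 0 ≤ A := by
  simpa using hg 0

theorem Bd.mul {ρ A B : ℝ} (hρ : 0 < ρ) {g h : ℚ⟦X⟧} (hg : Bd ρ A g) (hh : Bd ρ B h) :
    Bd ρ (A * B) (g * h) := by
  intro N
  set a : ℕ → ℝ := fun n => |((PowerSeries.coeff n g : ℚ) : ℝ)| * ρ ^ n with ha
  set b : ℕ → ℝ := fun n => |((PowerSeries.coeff n h : ℚ) : ℝ)| * ρ ^ n with hb
  have ha0 : ∀ n, 0 ≤ a n := fun n => by positivity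
  have hb0 : ∀ n, 0 ≤ b n := fun n => by positivity
  have h1 : ∀ n, |((PowerSeries.coeff n (g * h) : ℚ) : ℝ)| * ρ ^ n ≤
      ∑ p ∈ Finset.HasAntidiagonal.antidiagonal n, a p.1 * b p.2 := by
    intro n
    rw [PowerSeries.coeff_mul, Rat.cast_sum]
    calc |∑ p ∈ Finset.HasAntidiagonal.antidiagonal n, ((coeff p.1 g * coeff p.2 h : ℚ) : ℝ)| * ρ ^ n
        ≤ (∑ p ∈ Finset.HasAntidiagonal.antidiagonal n, |((coeff p.1 g * coeff p.2 h : ℚ) : ℝ)|) * ρ ^ n :=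
          mul_le_mul_of_nonneg_right (Finset.abs_sum_le_sum_abs _ _) (by positivity)
      _ = ∑ p ∈ Finset.HasAntidiagonal.antidiagonal n, a p.1 * b p.2 := by
          rw [Finset.sum_mul]
          refine Finset.sum_congr rfl fun p hp => ?_
          rw [← Finset.HasAntidiagonal.mem_antidiagonal.1 hp, Rat.cast_mul, abs_mul, pow_add, ha, hb]
          ring
  calc ∑ n ∈ Finset.range N, |((PowerSeries.coeff n (g * h) : ℚ) : ℝ)| * ρ ^ n
      ≤ ∑ n ∈ Finset.range N, ∑ p ∈ Finset.HasAntidiagonal.antidiagonal n, a p.1 * b p.2 :=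
        Finset.sum_le_sum fun n _ => h1 n
    _ = ∑ p ∈ (Finset.range N ×ˢ Finset.range N).filter (fun p => p.1 + p.2 < N), a p.1 * b p.2 :=
        Cbd_anti N (fun p => a p.1 * b p.2)
    _ ≤ ∑ p ∈ Finset.range N ×ˢ Finset.range N, a p.1 * b p.2 :=
        Finset.sum_le_sum_of_subset_of_nonneg (Finset.filter_subset _ _)
          fun p _ _ => mul_nonneg (ha0 _) (hb0 _)
    _ = (∑ n ∈ Finset.range N, a n) * ∑ n ∈ Finset.range N, b n := by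
        rw [Finset.sum_product, Finset.sum_mul_sum]
    _ ≤ A * B := mul_le_mul (hg N) (hh N) (Finset.sum_nonneg fun n _ => hb0 n) hg.nonneg

theorem Cbd_C {ρ : ℝ} (c : ℚ) : Bd ρ |(c : ℝ)| (PowerSeries.C c) := by
  intro N
  rcases N with _ | N
  · simp
  · rw [Finset.sum_range_succ']
    have h1 : ∑ n ∈ Finset.range N, |((PowerSeries.coeff (n + 1) (PowerSeries.C c) : ℚ) : ℝ)| *
        ρ ^ (n + 1) = 0 := by
      refine Finset.sum_eq_zero fun n _ => ?_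
      rw [PowerSeries.coeff_C, if_neg (Nat.succ_ne_zero n)]
      simp
    rw [h1, PowerSeries.coeff_C, if_pos rfl]
    simp

theorem Cbd_one {ρ : ℝ} : Bd ρ 1 (1 : ℚ⟦X⟧) := by
  have h := Cbd_C (ρ := ρ) 1
  rw [map_one] at h
  simpa using h

theorem Bd.pow {ρ A : ℝ} (hρ : 0 < ρ) {g : ℚ⟦X⟧} (hg : Bd ρ A g) (k : ℕ) :
    Bd ρ (A ^ k) (g ^ k) := by
  induction k with
  | zero =>
    rw [pow_zero, pow_zero]
    exact Cbd_one
  | succ k ih =>
    rw [pow_succ, pow_succ]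
    exact ih.mul hρ hg

theorem Bd.add {ρ A B : ℝ} (hρ : 0 < ρ) {g h : ℚ⟦X⟧} (hg : Bd ρ A g) (hh : Bd ρ B h) :
    Bd ρ (A + B) (g + h) := by
  intro N
  refine le_trans ?_ (add_le_add (hg N) (hh N))
  rw [← Finset.sum_add_distrib]
  refine Finset.sum_le_sum fun n _ => ?_
  rw [map_add, Rat.cast_add, ← add_mul]
  exact mul_le_mul_of_nonneg_right (abs_add_le _ _) (by positivity)

theorem Cbd_sum {ρ : ℝ} (hρ : 0 < ρ) {ι : Type*} (s : Finset ι) (g : ι → ℚ⟦X⟧)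
    (h : ∀ i ∈ s, ∃ B, Bd ρ B (g i)) : ∃ B, Bd ρ B (∑ i ∈ s, g i) := by
  classical
  induction s using Finset.induction_on with
  | empty =>
    refine ⟨0, fun N => ?_⟩
    simp
  | insert i s hi ih =>
    obtain ⟨B1, h1⟩ := h i (Finset.mem_insert_self i s)
    obtain ⟨B2, h2⟩ := ih (fun j hj => h j (Finset.mem_insert_of_mem hj))
    rw [Finset.sum_insert hi]
    exact ⟨_, h1.add hρ h2⟩

theorem Cbd_two {ρ : ℝ} (hρ : 0 < ρ) (hρ1 : ρ < 1) {g : ℚ⟦X⟧}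
    (h : ∀ n, |((PowerSeries.coeff n g : ℚ) : ℝ)| ≤ 2) : Bd ρ (2 / (1 - ρ)) g := by
  intro N
  have h1 : ∑ n ∈ Finset.range N, |((PowerSeries.coeff n g : ℚ) : ℝ)| * ρ ^ n ≤
      ∑ n ∈ Finset.range N, 2 * ρ ^ n :=
    Finset.sum_le_sum fun n _ => mul_le_mul_of_nonneg_right (h n) (by positivity)
  refine h1.trans ?_
  rw [← Finset.mul_sum, div_eq_mul_inv]
  refine mul_le_mul_of_nonneg_left ?_ (by norm_num)
  rw [← tsum_geometric_of_lt_one hρ.le hρ1]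
  exact (summable_geometric_of_lt_one hρ.le hρ1).sum_le_tsum _ (fun n _ => by positivity)

/-- `θ₃` over the rationals -/
noncomputable def Cbd_q3 : ℚ⟦X⟧ := PowerSeries.map (Int.castRingHom ℚ) th3

/-- `θ₄` over the rationals -/
noncomputable def Cbd_q4 : ℚ⟦X⟧ := PowerSeries.map (Int.castRingHom ℚ) th4

theorem Cbd_c3 (n : ℕ) : |PowerSeries.coeff n th3| ≤ 2 := by
  unfold th3
  rw [PowerSeries.coeff_mk]
  split_ifs <;> simp

theorem Cbd_c4 (n : ℕ) : |PowerSeries.coeff n th4| ≤ 2 := by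
  unfold th4
  rw [PowerSeries.coeff_mk, abs_mul, abs_pow, abs_neg, abs_one, one_pow, one_mul]
  exact Cbd_c3 n

theorem Cbd_bq3 {ρ : ℝ} (hρ : 0 < ρ) (hρ1 : ρ < 1) : Bd ρ (2 / (1 - ρ)) Cbd_q3 := by
  refine Cbd_two hρ hρ1 fun n => ?_
  unfold Cbd_q3
  rw [PowerSeries.coeff_map]
  have := Cbd_c3 n
  rw [eq_intCast, Rat.cast_intCast]
  exact_mod_cast this

theorem Cbd_bq4 {ρ : ℝ} (hρ : 0 < ρ) (hρ1 : ρ < 1) : Bd ρ (2 / (1 - ρ)) Cbd_q4 := by
  refine Cbd_two hρ hρ1 fun n => ?_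
  unfold Cbd_q4
  rw [PowerSeries.coeff_map]
  have := Cbd_c4 n
  rw [eq_intCast, Rat.cast_intCast]
  exact_mod_cast this

theorem Cbd_MR (ρ : ℝ) : (2 / (1 - ρ)) ^ 2 = MR ρ := by
  unfold MR
  rw [div_pow]
  norm_num

theorem Bd_U {ρ : ℝ} (hρ : 0 < ρ) (hρ1 : ρ < 1) : Bd ρ (MR ρ) (U ℚ) := by
  have h := (Cbd_bq3 hρ hρ1).pow hρ 2
  rw [Cbd_MR] at h
  unfold U
  rw [map_pow]
  exact h

theorem Bd_V {ρ : ℝ} (hρ : 0 < ρ) (hρ1 : ρ < 1) : Bd ρ (MR ρ) (V ℚ) := by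
  have h := (Cbd_bq4 hρ hρ1).pow hρ 2
  rw [Cbd_MR] at h
  unfold V
  rw [map_pow]
  exact h

theorem Cbd_form {w : ℕ} {f : ℤ⟦X⟧} (hf : IsForm w f) {ρ : ℝ} (hρ : 0 < ρ) (hρ1 : ρ < 1) :
    ∃ B : ℝ, ∀ N : ℕ, ∑ n ∈ Finset.range N, |((PowerSeries.coeff n f : ℤ) : ℝ)| * ρ ^ n ≤ B := by
  obtain ⟨M, c, hM, h⟩ := hf
  have h1 := congrArg (PowerSeries.map (Int.castRingHom ℚ)) h
  rw [map_mul, map_sum] at h1
  have h2 : ∃ B, Bd ρ B ((PowerSeries.map (Int.castRingHom ℚ)) (PowerSeries.C M) *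
      (PowerSeries.map (Int.castRingHom ℚ)) f) := by
    rw [h1]
    refine Cbd_sum hρ _ _ fun j _ => ?_
    rw [map_mul, map_mul, map_pow, map_pow, map_pow, map_pow, PowerSeries.map_C]
    exact ⟨_, ((Cbd_C (ρ := ρ) _).mul hρ (((Cbd_bq3 hρ hρ1).pow hρ 4).pow hρ (w - j))).mul hρ
      (((Cbd_bq4 hρ hρ1).pow hρ 4).pow hρ j)⟩
  obtain ⟨B, hB⟩ := h2
  refine ⟨B, fun N => le_trans (Finset.sum_le_sum fun n _ => ?_) (hB N)⟩
  refine mul_le_mul_of_nonneg_right ?_ (by positivity)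
  rw [PowerSeries.map_C, PowerSeries.coeff_C_mul, PowerSeries.coeff_map, eq_intCast, eq_intCast,
    Rat.cast_mul, Rat.cast_intCast, Rat.cast_intCast, abs_mul]
  have h3 : (1 : ℝ) ≤ |(M : ℝ)| := by
    have := Int.one_le_abs hM
    exact_mod_cast this
  exact le_mul_of_one_le_left (abs_nonneg _) h3

theorem Cbd_even (N : ℕ) (a : ℕ → ℝ) (ρ : ℝ) :
    ∑ m ∈ Finset.range (2 * N), (if 2 ∣ m then a (m / 2) else 0) * ρ ^ m =
      ∑ n ∈ Finset.range N, a n * ρ ^ (2 * n) := by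
  induction N with
  | zero => simp
  | succ N ih =>
    rw [Nat.mul_succ, Finset.sum_range_succ, Finset.sum_range_succ, ih, Finset.sum_range_succ,
      if_pos (Dvd.intro N rfl), if_neg (by omega), zero_mul, add_zero,
      Nat.mul_div_cancel_left N two_pos]

theorem exists_Bd_F {w : ℕ} {f : ℤ⟦X⟧} (hf : IsForm w f) {ρ : ℝ} (hρ : 0 < ρ) (hρ1 : ρ < 1) :
    ∃ B : ℝ, 1 ≤ B ∧ Bd ρ B (F1 f) ∧ Bd ρ B (F2 f) := by
  obtain ⟨B, hB⟩ := Cbd_form hf hρ hρ1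
  have h1 : Bd ρ (max 1 B) (F1 f) := by
    intro N
    refine le_trans (Finset.sum_le_sum fun n _ => ?_) ((hB N).trans (le_max_right 1 B))
    refine mul_le_mul_of_nonneg_right ?_ (by positivity)
    unfold F1
    rw [PowerSeries.coeff_mk, Rat.cast_div, Rat.cast_intCast, Rat.cast_natCast, abs_div,
      Nat.abs_cast]
    rcases Nat.eq_zero_or_pos n with h0 | h0
    · rw [h0, Nat.cast_zero, div_zero]
      exact abs_nonneg _
    · exact div_le_self (abs_nonneg _) (by exact_mod_cast h0)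
  refine ⟨max 1 B, le_max_left _ _, h1, fun N => ?_⟩
  have h2 : ∀ m, |((PowerSeries.coeff m (F2 f) : ℚ) : ℝ)| =
      if 2 ∣ m then |((PowerSeries.coeff (m / 2) (F1 f) : ℚ) : ℝ)| else 0 := by
    intro m
    unfold F2 dbl
    rw [PowerSeries.coeff_expand]
    split_ifs
    · rfl
    · simp
  simp only [h2]
  calc ∑ m ∈ Finset.range N, (if 2 ∣ m then |((PowerSeries.coeff (m / 2) (F1 f) : ℚ) : ℝ)| else 0) * ρ ^ m
      ≤ ∑ m ∈ Finset.range (2 * N), (if 2 ∣ m then |((PowerSeries.coeff (m / 2) (F1 f) : ℚ) : ℝ)| else 0) *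
          ρ ^ m := by
        refine Finset.sum_le_sum_of_subset_of_nonneg (Finset.range_mono (by omega)) fun m _ _ => ?_
        refine mul_nonneg ?_ (by positivity)
        split_ifs
        · exact abs_nonneg _
        · exact le_rfl
    _ = ∑ n ∈ Finset.range N, |((PowerSeries.coeff n (F1 f) : ℚ) : ℝ)| * ρ ^ (2 * n) :=
        Cbd_even N (fun n => |((PowerSeries.coeff n (F1 f) : ℚ) : ℝ)|) ρ
    _ ≤ ∑ n ∈ Finset.range N, |((PowerSeries.coeff n (F1 f) : ℚ) : ℝ)| * ρ ^ n := by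
        refine Finset.sum_le_sum fun n _ => mul_le_mul_of_nonneg_left ?_ (abs_nonneg _)
        exact pow_le_pow_of_le_one hρ.le hρ1.le (by omega)
    _ ≤ max 1 B := h1 N

theorem GG_bd (f : ℤ⟦X⟧) (κ E n : ℕ) (s : Fin E × Fin E × Fin (n + 1)) {ρ B : ℝ}
    (hρ : 0 < ρ) (hρ1 : ρ < 1) (hB : 1 ≤ B) (h1 : Bd ρ B (F1 f)) (h2 : Bd ρ B (F2 f)) (l : ℕ) :
    |((PowerSeries.coeff l (GG f κ E n s) : ℚ) : ℝ)| ≤
      MR ρ ^ (n + 2 * κ * E) * B ^ (2 * E) * (ρ⁻¹) ^ l := by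
  obtain ⟨i, j, e⟩ := s
  have hMR : 1 ≤ MR ρ := by
    unfold MR
    rw [le_div_iff₀ (by nlinarith)]
    nlinarith
  have h3 : Bd ρ (MR ρ ^ (n + κ * (2 * E - i - j) - e) * MR ρ ^ (e : ℕ) * B ^ (i : ℕ) * B ^ (j : ℕ))
      (GG f κ E n (i, j, e)) :=
    ((((Bd_U hρ hρ1).pow hρ _).mul hρ ((Bd_V hρ hρ1).pow hρ _)).mul hρ (h1.pow hρ _)).mul hρ
      (h2.pow hρ _)
  have h4 : |((PowerSeries.coeff l (GG f κ E n (i, j, e)) : ℚ) : ℝ)| * ρ ^ l ≤
      MR ρ ^ (n + κ * (2 * E - i - j) - e) * MR ρ ^ (e : ℕ) * B ^ (i : ℕ) * B ^ (j : ℕ) := by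
    refine le_trans ?_ (h3 (l + 1))
    rw [Finset.sum_range_succ]
    have : 0 ≤ ∑ m ∈ Finset.range l, |((PowerSeries.coeff m (GG f κ E n (i, j, e)) : ℚ) : ℝ)| * ρ ^ m :=
      Finset.sum_nonneg fun m _ => by positivity
    linarith
  have h5 : MR ρ ^ (n + κ * (2 * E - i - j) - e) * MR ρ ^ (e : ℕ) * B ^ (i : ℕ) * B ^ (j : ℕ) ≤
      MR ρ ^ (n + 2 * κ * E) * B ^ (2 * E) := by
    have e1 : MR ρ ^ (n + κ * (2 * E - i - j) - e) * MR ρ ^ (e : ℕ) * B ^ (i : ℕ) * B ^ (j : ℕ) =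
        MR ρ ^ (n + κ * (2 * E - i - j) - e + e) * B ^ ((i : ℕ) + j) := by
      rw [pow_add, pow_add]; ring
    rw [e1]
    have e2 : n + κ * (2 * E - i - j) - (e : ℕ) + e ≤ n + 2 * κ * E := by
      have he : (e : ℕ) ≤ n := Nat.lt_succ_iff.1 e.2
      have h6 : κ * (2 * E - i - j) ≤ κ * (2 * E) := Nat.mul_le_mul_left _ (by omega)
      have h7 : κ * (2 * E) = 2 * κ * E := by ring
      omega
    have e3 : (i : ℕ) + j ≤ 2 * E := by
      have := i.2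
      have := j.2
      omega
    exact mul_le_mul (pow_le_pow_right₀ hMR e2) (pow_le_pow_right₀ hB e3) (by positivity)
      (by positivity)
  have h6 : 0 < ρ ^ l := by positivity
  have h7 := h4.trans h5
  rw [← le_div_iff₀ h6] at h7
  rw [inv_pow, ← div_eq_mul_inv]
  exact h7

end Pool.Agent.H85.OT

end S_OT_Cbd

section S_OT_Cden

/-!
# Row CDEN (project OT): denominators

* `den_F1`: for `1 ≤ N ≤ Y`, `N ∣ Z0 f Y * a_N`.  Check for each prime `p` dividing `N` (so `p ≤ Y`), with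
  `v = v_p(N)`: if `Ord0 f p` then `p^v ≤ N ≤ Y`, so `v ≤ Nat.log p Y` and `p^v ∣ Z0`; if not, then
  `p^v ∣ a_N` by definition of `Ord0` (negated).  So the coefficient `N` of `F1` is `m/Z0`, `m ∈ ℤ`
  (`N = 0`: coefficient `0`).
* call `g : ℚ⟦X⟧` `(Y, a)`-integral if `Z0^a * coeff l g ∈ ℤ` for all `l ≤ Y`.  `F1`, `F2` are
  `(Y,1)`-integral (`coeff (2N) F2 = coeff N F1`), `U, V` are `(Y,0)`-integral; products:
  `(Y,a)·(Y,b)` is `(Y,a+b)`.  So `GG` is `(Y, i+j)`-integral, hence `(Y, 2E)`-integral.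
-/

open PowerSeries

namespace Pool.Agent.H85.OT


theorem Z0_pos (f : ℤ⟦X⟧) (Y : ℕ) : 0 < Z0 f Y := by
  classical
  unfold Z0
  refine Finset.prod_pos fun p hp => ?_
  have h := (Finset.mem_filter.1 hp).2.1
  exact pow_pos h.pos _

theorem Cden_dvd (f : ℤ⟦X⟧) (Y N : ℕ) (h1 : 1 ≤ N) (hN : N ≤ Y) :
    (N : ℤ) ∣ (Z0 f Y : ℤ) * PowerSeries.coeff N f := by
  classical
  rw [Int.natCast_dvd, Nat.dvd_iff_prime_pow_dvd_dvd]
  intro p k hp hk
  rw [← Int.natCast_dvd, Nat.cast_pow]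
  rcases Nat.eq_zero_or_pos k with rfl | hk0
  · simp
  have hpN : p ^ k ≤ N := Nat.le_of_dvd h1 hk
  by_cases ho : Ord0 f p
  · refine Dvd.dvd.mul_right ?_ _
    have hkl : k ≤ Nat.log p Y := Nat.le_log_of_pow_le hp.one_lt (hpN.trans hN)
    have hpY : p ≤ Y := (Nat.le_self_pow hk0.ne' p).trans (hpN.trans hN)
    have hd : p ^ Nat.log p Y ∣ Z0 f Y := by
      unfold Z0
      refine Finset.dvd_prod_of_mem (fun p => p ^ Nat.log p Y) ?_
      exact Finset.mem_filter.2 ⟨Finset.mem_range.2 (by omega), hp, ho⟩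
    have h2 : p ^ k ∣ Z0 f Y := (pow_dvd_pow p hkl).trans hd
    exact_mod_cast h2
  · refine Dvd.dvd.mul_left ?_ _
    unfold Ord0 at ho
    push Not at ho
    have h3 := ho N h1
    haveI := Fact.mk hp
    have hkv : k ≤ padicValNat p N := (padicValNat_dvd_iff_le (by omega)).1 hk
    exact (pow_dvd_pow (p : ℤ) hkv).trans h3

theorem den_F1 (f : ℤ⟦X⟧) (Y N : ℕ) (hN : N ≤ Y) :
    ∃ m : ℤ, (Z0 f Y : ℚ) * PowerSeries.coeff N (F1 f) = m := by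
  rcases Nat.eq_zero_or_pos N with rfl | h1
  · exact ⟨0, by simp [F1]⟩
  · obtain ⟨m, hm⟩ := Cden_dvd f Y N h1 hN
    refine ⟨m, ?_⟩
    have hN0 : (N : ℚ) ≠ 0 := by
      have : N ≠ 0 := by omega
      exact_mod_cast this
    have h2 : ((Z0 f Y : ℤ) : ℚ) * ((PowerSeries.coeff N f : ℤ) : ℚ) = ((N : ℤ) : ℚ) * (m : ℚ) := by
      exact_mod_cast hm
    have h3 : PowerSeries.coeff N (F1 f) = ((PowerSeries.coeff N f : ℤ) : ℚ) / N := by
      rw [F1, PowerSeries.coeff_mk]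
    rw [h3, mul_div_assoc', div_eq_iff hN0]
    push_cast at h2
    rw [h2]
    ring

/-- `(Y, a)`-integrality -/
def CdenI (f : ℤ⟦X⟧) (Y a : ℕ) (g : ℚ⟦X⟧) : Prop :=
  ∀ l ≤ Y, ∃ m : ℤ, (Z0 f Y : ℚ) ^ a * PowerSeries.coeff l g = m

theorem CdenI_mul {f : ℤ⟦X⟧} {Y a b : ℕ} {g h : ℚ⟦X⟧} (hg : CdenI f Y a g) (hh : CdenI f Y b h) :
    CdenI f Y (a + b) (g * h) := by
  classical
  intro l hl
  rw [PowerSeries.coeff_mul]
  have key : ∀ p ∈ Finset.HasAntidiagonal.antidiagonal l, ∃ m : ℤ,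
      (Z0 f Y : ℚ) ^ (a + b) * (PowerSeries.coeff p.1 g * PowerSeries.coeff p.2 h) = m := by
    intro p hp
    have hp' := Finset.HasAntidiagonal.mem_antidiagonal.1 hp
    obtain ⟨m1, h1⟩ := hg p.1 (by omega)
    obtain ⟨m2, h2⟩ := hh p.2 (by omega)
    refine ⟨m1 * m2, ?_⟩
    push_cast
    rw [← h1, ← h2]
    ring
  choose! m hm using key
  refine ⟨∑ p ∈ Finset.HasAntidiagonal.antidiagonal l, m p, ?_⟩
  rw [Finset.mul_sum, Int.cast_sum]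
  exact Finset.sum_congr rfl hm

theorem CdenI_map (f : ℤ⟦X⟧) (Y : ℕ) (g : ℤ⟦X⟧) :
    CdenI f Y 0 (PowerSeries.map (Int.castRingHom ℚ) g) := by
  intro l _
  refine ⟨PowerSeries.coeff l g, ?_⟩
  rw [PowerSeries.coeff_map, pow_zero, one_mul]
  rfl

theorem CdenI_one (f : ℤ⟦X⟧) (Y : ℕ) : CdenI f Y 0 1 := by
  have h := CdenI_map f Y 1
  rwa [map_one] at h

theorem CdenI_pow {f : ℤ⟦X⟧} {Y a : ℕ} {g : ℚ⟦X⟧} (hg : CdenI f Y a g) (k : ℕ) :
    CdenI f Y (a * k) (g ^ k) := by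
  induction k with
  | zero => simpa using CdenI_one f Y
  | succ k ih =>
    rw [pow_succ, Nat.mul_succ]
    exact CdenI_mul ih hg

theorem CdenI_F1 (f : ℤ⟦X⟧) (Y : ℕ) : CdenI f Y 1 (F1 f) := by
  intro l hl
  rw [pow_one]
  exact den_F1 f Y l hl

theorem CdenI_F2 (f : ℤ⟦X⟧) (Y : ℕ) : CdenI f Y 1 (F2 f) := by
  intro l hl
  rw [pow_one, F2, dbl]
  by_cases h : 2 ∣ l
  · obtain ⟨k, rfl⟩ := h
    rw [PowerSeries.coeff_expand_mul]
    exact den_F1 f Y k (by omega)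
  · rw [PowerSeries.coeff_expand_of_not_dvd _ _ _ h]
    exact ⟨0, by simp⟩

theorem CdenI_mono {f : ℤ⟦X⟧} {Y a b : ℕ} {g : ℚ⟦X⟧} (hg : CdenI f Y a g) (hab : a ≤ b) :
    CdenI f Y b g := by
  intro l hl
  obtain ⟨m, hm⟩ := hg l hl
  refine ⟨(Z0 f Y : ℤ) ^ (b - a) * m, ?_⟩
  push_cast
  rw [← hm, ← mul_assoc, ← pow_add, Nat.sub_add_cancel hab]

theorem den_GG (f : ℤ⟦X⟧) (κ E n : ℕ) (s : Fin E × Fin E × Fin (n + 1)) (Y l : ℕ) (hl : l ≤ Y) :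
    ∃ m : ℤ, (Z0 f Y : ℚ) ^ (2 * E) * PowerSeries.coeff l (GG f κ E n s) = m := by
  have hU : CdenI f Y 0 (U ℚ) := CdenI_map f Y _
  have hV : CdenI f Y 0 (V ℚ) := CdenI_map f Y _
  have h := CdenI_mul (CdenI_mul (CdenI_mul
    (CdenI_pow hU (n + κ * (2 * E - s.1 - s.2.1) - s.2.2)) (CdenI_pow hV (s.2.2 : ℕ)))
    (CdenI_pow (CdenI_F1 f Y) (s.1 : ℕ))) (CdenI_pow (CdenI_F2 f Y) (s.2.1 : ℕ))
  have h2 := CdenI_mono (b := 2 * E) h (by
    have h3 := s.1.2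
    have h4 := s.2.1.2
    omega)
  exact h2 l hl

/-- `log Z0 ≤ (number of Ord0 primes ≤ Y) * log Y`: each factor `p^(Nat.log p Y) ≤ Y` -/
theorem log_Z0_le (f : ℤ⟦X⟧) (Y : ℕ) (hY : 1 ≤ Y) :
    Real.log (Z0 f Y) ≤
      (Nat.card {p : ℕ | p ≤ Y ∧ p.Prime ∧ Ord0 f p} : ℝ) * Real.log Y := by
  classical
  have hset : {p : ℕ | p ≤ Y ∧ p.Prime ∧ Ord0 f p} =
      (((Finset.range (Y + 1)).filter (fun p => p.Prime ∧ Ord0 f p) : Finset ℕ) : Set ℕ) := by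
    ext p
    simp only [Set.mem_ofPred_eq, Finset.coe_filter, Finset.mem_range]
    constructor
    · rintro ⟨h1, h2⟩
      exact ⟨by omega, h2⟩
    · rintro ⟨h1, h2⟩
      exact ⟨by omega, h2⟩
  have hcard : Nat.card {p : ℕ | p ≤ Y ∧ p.Prime ∧ Ord0 f p} =
      ((Finset.range (Y + 1)).filter (fun p => p.Prime ∧ Ord0 f p)).card := by
    rw [Nat.card_coe_set_eq, hset, Set.ncard_coe_finset]
  rw [hcard]
  have hlog : Real.log (Z0 f Y) = ∑ p ∈ (Finset.range (Y + 1)).filter (fun p => p.Prime ∧ Ord0 f p),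
      Real.log ((p ^ Nat.log p Y : ℕ) : ℝ) := by
    unfold Z0
    rw [Nat.cast_prod]
    refine Real.log_prod fun p hp => ?_
    have h := (Finset.mem_filter.1 hp).2.1
    have h2 : p ^ Nat.log p Y ≠ 0 := (pow_pos h.pos _).ne'
    exact_mod_cast h2
  rw [hlog, ← nsmul_eq_mul]
  refine Finset.sum_le_card_nsmul _ _ _ fun p hp => ?_
  have h := (Finset.mem_filter.1 hp).2.1
  have h1 : 0 < p ^ Nat.log p Y := pow_pos h.pos _
  refine Real.log_le_log (by exact_mod_cast h1) ?_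
  have h2 : p ^ Nat.log p Y ≤ Y := Nat.pow_log_le_self p (by omega)
  exact_mod_cast h2

end Pool.Agent.H85.OT

end S_OT_Cden

section S_OT_Csieg

/-!
# Row CSIEG (project OT): Siegel's lemma

`N = E²(n+1)` unknowns `t_s`, `T = E²(n+1)/2` (natural division) equations `coeff l Phi = 0`, `l < T`,
with `T ≤ Y`.  The matrix `A_(l,s) = Z0^(2E) * coeff l GG_s` is integral (`den_GG`), with
`|A| ≤ Q := Z0^(2E) MR^(n+2κE) B^(2E) ρ^(-T)` (`GG_bd`, `ρ^(-l) ≤ ρ^(-T)`), and `Q ≥ 1`.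
`Int.Matrix.exists_ne_zero_int_vec_norm_le` (`T ≥ 1` as `E ≥ 2`, `T < N`) gives `t ≠ 0`, `A t = 0`,
`‖t‖ ≤ (N max(1,‖A‖))^(T/(N-T)) ≤ N Q` as `T/(N-T) ≤ 1` and the base is `≥ 1`.
`A t = 0` means `Z0^(2E) coeff l Phi = 0`, `Z0 ≠ 0`.
-/

open PowerSeries

namespace Pool.Agent.H85.OT

attribute [local instance] Matrix.seminormedAddCommGroup

theorem Csieg_abs (f : ℤ⟦X⟧) (κ E n Y : ℕ) {ρ B : ℝ}
    (hρ : 0 < ρ) (hρ1 : ρ < 1) (hB : 1 ≤ B) (h1 : Bd ρ B (F1 f)) (h2 : Bd ρ B (F2 f))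
    {T l : ℕ} (hl : l ≤ T) (s : Fin E × Fin E × Fin (n + 1)) (m : ℤ)
    (hm : (Z0 f Y : ℚ) ^ (2 * E) * PowerSeries.coeff l (GG f κ E n s) = m) :
    |(m : ℝ)| ≤ (Z0 f Y : ℝ) ^ (2 * E) * MR ρ ^ (n + 2 * κ * E) * B ^ (2 * E) * (ρ⁻¹) ^ T := by
  have h3 : (m : ℝ) = (Z0 f Y : ℝ) ^ (2 * E) * ((PowerSeries.coeff l (GG f κ E n s) : ℚ) : ℝ) := by
    have := congrArg (fun q : ℚ => (q : ℝ)) hm
    simp only [Rat.cast_mul, Rat.cast_pow, Rat.cast_natCast, Rat.cast_intCast] at this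
    exact this.symm
  have h4 := GG_bd f κ E n s hρ hρ1 hB h1 h2 l
  have hMR : 0 ≤ MR ρ := by
    unfold MR
    positivity
  have h5 : (1 : ℝ) ≤ ρ⁻¹ := (one_le_inv₀ hρ).2 hρ1.le
  have h6 : (ρ⁻¹) ^ l ≤ (ρ⁻¹) ^ T := pow_le_pow_right₀ h5 hl
  rw [h3, abs_mul, abs_pow, Nat.abs_cast]
  calc (Z0 f Y : ℝ) ^ (2 * E) * |((PowerSeries.coeff l (GG f κ E n s) : ℚ) : ℝ)|
      ≤ (Z0 f Y : ℝ) ^ (2 * E) * (MR ρ ^ (n + 2 * κ * E) * B ^ (2 * E) * (ρ⁻¹) ^ l) :=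
        mul_le_mul_of_nonneg_left h4 (by positivity)
    _ ≤ (Z0 f Y : ℝ) ^ (2 * E) * (MR ρ ^ (n + 2 * κ * E) * B ^ (2 * E) * (ρ⁻¹) ^ T) := by
        refine mul_le_mul_of_nonneg_left (mul_le_mul_of_nonneg_left h6 ?_) (by positivity)
        positivity
    _ = _ := by ring

theorem Csieg_one_le (f : ℤ⟦X⟧) (κ E n Y T : ℕ) {ρ B : ℝ}
    (hρ : 0 < ρ) (hρ1 : ρ < 1) (hB : 1 ≤ B) :
    1 ≤ (Z0 f Y : ℝ) ^ (2 * E) * MR ρ ^ (n + 2 * κ * E) * B ^ (2 * E) * (ρ⁻¹) ^ T := by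
  have hMR : 1 ≤ MR ρ := by
    unfold MR
    rw [le_div_iff₀ (by nlinarith)]
    nlinarith
  have h5 : (1 : ℝ) ≤ ρ⁻¹ := (one_le_inv₀ hρ).2 hρ1.le
  have hZ : (1 : ℝ) ≤ (Z0 f Y : ℝ) := by
    exact_mod_cast Z0_pos f Y
  exact one_le_mul_of_one_le_of_one_le (one_le_mul_of_one_le_of_one_le
    (one_le_mul_of_one_le_of_one_le (one_le_pow₀ hZ) (one_le_pow₀ hMR)) (one_le_pow₀ hB))
    (one_le_pow₀ h5)

theorem siegel_phi (f : ℤ⟦X⟧) (κ E n Y : ℕ) (hE : 2 ≤ E) {ρ B : ℝ}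
    (hρ : 0 < ρ) (hρ1 : ρ < 1) (hB : 1 ≤ B) (h1 : Bd ρ B (F1 f)) (h2 : Bd ρ B (F2 f))
    (hY : E ^ 2 * (n + 1) / 2 ≤ Y) :
    ∃ t : Fin E × Fin E × Fin (n + 1) → ℤ, t ≠ 0 ∧
      (∀ l < E ^ 2 * (n + 1) / 2, PowerSeries.coeff l (Phi f κ E n t) = 0) ∧
      ∀ s, |((t s : ℤ) : ℝ)| ≤ (E ^ 2 * (n + 1) : ℝ) *
        ((Z0 f Y : ℝ) ^ (2 * E) * MR ρ ^ (n + 2 * κ * E) * B ^ (2 * E) *
          (ρ⁻¹) ^ (E ^ 2 * (n + 1) / 2)) := by
  classical
  set T : ℕ := E ^ 2 * (n + 1) / 2 with hT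
  set Q : ℝ := (Z0 f Y : ℝ) ^ (2 * E) * MR ρ ^ (n + 2 * κ * E) * B ^ (2 * E) * (ρ⁻¹) ^ T with hQ
  have hQ1 : 1 ≤ Q := Csieg_one_le f κ E n Y T hρ hρ1 hB
  have hN4 : 4 ≤ E ^ 2 * (n + 1) := by nlinarith
  have hex : ∀ (l : Fin T) (s : Fin E × Fin E × Fin (n + 1)),
      ∃ m : ℤ, (Z0 f Y : ℚ) ^ (2 * E) * PowerSeries.coeff (l : ℕ) (GG f κ E n s) = m :=
    fun l s => den_GG f κ E n s Y l (l.2.le.trans hY)
  choose A hA using hex
  have hcard : Fintype.card (Fin E × Fin E × Fin (n + 1)) = E ^ 2 * (n + 1) := by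
    rw [Fintype.card_prod, Fintype.card_prod, Fintype.card_fin, Fintype.card_fin]
    ring
  have hcT : Fintype.card (Fin T) = T := Fintype.card_fin T
  obtain ⟨t, ht0, hAt, htn⟩ := Int.Matrix.exists_ne_zero_int_vec_norm_le (Matrix.of A)
    (by rw [hcard, hcT]; omega) (by rw [hcT]; omega)
  have hAn : ‖Matrix.of A‖ ≤ Q := by
    rw [Matrix.norm_le_iff (by linarith)]
    intro l s
    rw [Int.norm_eq_abs]
    exact Csieg_abs f κ E n Y hρ hρ1 hB h1 h2 l.2.le s (A l s) (hA l s)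
  refine ⟨t, ht0, ?_, ?_⟩
  · intro l hl
    have h3 := congrFun hAt ⟨l, hl⟩
    have h4 : (Z0 f Y : ℚ) ^ (2 * E) * PowerSeries.coeff l (Phi f κ E n t) = 0 := by
      rw [Phi, map_sum, Finset.mul_sum]
      have h5 : ((∑ s, A ⟨l, hl⟩ s * t s : ℤ) : ℚ) = 0 := by
        have h6 : ∑ s, A ⟨l, hl⟩ s * t s = 0 := h3
        rw [h6, Int.cast_zero]
      rw [← h5, Int.cast_sum]
      refine Finset.sum_congr rfl fun s _ => ?_
      rw [PowerSeries.coeff_C_mul, Int.cast_mul, ← hA ⟨l, hl⟩ s]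
      ring
    have h7 : (Z0 f Y : ℚ) ^ (2 * E) ≠ 0 := by
      have := Z0_pos f Y
      positivity
    exact (mul_eq_zero.1 h4).resolve_left h7
  · intro s
    have h3 : ‖t s‖ ≤ ‖t‖ := norm_le_pi_norm t s
    rw [Int.norm_eq_abs] at h3
    refine h3.trans (htn.trans ?_)
    rw [hcard, hcT]
    have hN1 : (1 : ℝ) ≤ ((E ^ 2 * (n + 1) : ℕ) : ℝ) := by
      exact_mod_cast (by omega : 1 ≤ E ^ 2 * (n + 1))
    have hb1 : (1 : ℝ) ≤ ((E ^ 2 * (n + 1) : ℕ) : ℝ) * max 1 ‖Matrix.of A‖ :=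
      one_le_mul_of_one_le_of_one_le hN1 (le_max_left _ _)
    have hTN : ((T : ℕ) : ℝ) * 2 ≤ ((E ^ 2 * (n + 1) : ℕ) : ℝ) := by
      exact_mod_cast (by omega : T * 2 ≤ E ^ 2 * (n + 1))
    have hT0 : (0 : ℝ) < (T : ℝ) := by
      exact_mod_cast (by omega : 0 < T)
    have he : (T : ℝ) / (((E ^ 2 * (n + 1) : ℕ) : ℝ) - (T : ℝ)) ≤ 1 := by
      rw [div_le_one (by linarith)]
      linarith
    refine (Real.rpow_le_rpow_of_exponent_le hb1 he).trans ?_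
    rw [Real.rpow_one]
    have hm : max 1 ‖Matrix.of A‖ ≤ Q := max_le hQ1 hAn
    have h8 : ((E ^ 2 * (n + 1) : ℕ) : ℝ) = (E ^ 2 * (n + 1) : ℝ) := by push_cast; ring
    rw [← h8]
    exact mul_le_mul_of_nonneg_left hm (by linarith)

end Pool.Agent.H85.OT

end S_OT_Csieg

section S_OU_ILb

/-!
# Row ILB (project OU): bounds, denominators, Siegel's lemma for `PhiL`

Same as rows CBD (`GG_bd`), CDEN (`den_GG`), CSIEG (`siegel_phi`); files `OT/Cbd.lean`, `OT/Cden.lean`, `OT/Csieg.lean`: copy and adapt.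
* `GGl_bd`: `U`, `V` have bound `MR ρ ≥ 1` (`Bd_U`, `Bd_V`), so `U² - V²` has bound `2 MR² ≤ (2 MR)²` and `U` has bound `2 MR`; `GGl` has bound
  `(2MR)^(2n - 2e + κ(2L-i-j)) (2MR)^(2e) B^(i+j) ≤ (2MR)^(2n+2κL) B^(2L)`.
* `den_GGl`: `CdenI` calculus: `U`, `V`, `U² - V²` (images of integral series) are `(Y, 0)`-integral, `F1, F2` `(Y, 1)`-integral.
* `siegel_phiL`: exactly as `siegel_phi` with the bound `Q = Z0^(2L) (2MR)^(2n+2κL) B^(2L) ρ^(-T)`.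
-/

open PowerSeries
open Pool.Agent.H85.OT

namespace Pool.Agent.H85.OU

private theorem ILb_mono {ρ A B : ℝ} {g : ℚ⟦X⟧} (hg : Bd ρ A g) (h : A ≤ B) : Bd ρ B g :=
  fun N => (hg N).trans h

private theorem ILb_neg {ρ A : ℝ} {g : ℚ⟦X⟧} (hg : Bd ρ A g) : Bd ρ A (-g) := by
  intro N
  refine le_trans (le_of_eq ?_) (hg N)
  refine Finset.sum_congr rfl fun n _ => ?_
  rw [map_neg, Rat.cast_neg, abs_neg]

private theorem ILb_MR {ρ : ℝ} (hρ : 0 < ρ) (hρ1 : ρ < 1) : 1 ≤ MR ρ := by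
  unfold MR
  rw [le_div_iff₀ (by nlinarith)]
  nlinarith

theorem GGl_bd (f : ℤ⟦X⟧) (κ L n : ℕ) (s : Fin L × Fin L × Fin (n + 1)) {ρ B : ℝ}
    (hρ : 0 < ρ) (hρ1 : ρ < 1) (hB : 1 ≤ B) (h1 : Bd ρ B (F1 f)) (h2 : Bd ρ B (F2 f)) (l : ℕ) :
    |((PowerSeries.coeff l (GGl f κ L n s) : ℚ) : ℝ)| ≤
      (2 * MR ρ) ^ (2 * n + 2 * κ * L) * B ^ (2 * L) * (ρ⁻¹) ^ l := by
  obtain ⟨i, j, e⟩ := s
  have hMR : 1 ≤ MR ρ := ILb_MR hρ hρ1
  obtain ⟨M, hM⟩ : ∃ M : ℝ, M = 2 * MR ρ := ⟨_, rfl⟩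
  have hM1 : 1 ≤ M := by linarith
  rw [← hM]
  have hU : Bd ρ M (U ℚ) := ILb_mono (Bd_U hρ hρ1) (by linarith)
  have hD : Bd ρ (M ^ 2) (U ℚ ^ 2 - V ℚ ^ 2) := by
    rw [sub_eq_add_neg]
    refine ILb_mono (((Bd_U hρ hρ1).pow hρ 2).add hρ (ILb_neg ((Bd_V hρ hρ1).pow hρ 2))) ?_
    rw [hM]
    nlinarith
  have h3 : Bd ρ (M ^ (2 * n - 2 * (e : ℕ) + κ * (2 * L - i - j)) * (M ^ 2) ^ (e : ℕ) *
      B ^ (i : ℕ) * B ^ (j : ℕ)) (GGl f κ L n (i, j, e)) :=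
    (((hU.pow hρ _).mul hρ (hD.pow hρ _)).mul hρ (h1.pow hρ _)).mul hρ (h2.pow hρ _)
  have h4 : |((PowerSeries.coeff l (GGl f κ L n (i, j, e)) : ℚ) : ℝ)| * ρ ^ l ≤
      M ^ (2 * n - 2 * (e : ℕ) + κ * (2 * L - i - j)) * (M ^ 2) ^ (e : ℕ) *
        B ^ (i : ℕ) * B ^ (j : ℕ) := by
    refine le_trans ?_ (h3 (l + 1))
    rw [Finset.sum_range_succ]
    have : 0 ≤ ∑ m ∈ Finset.range l,
        |((PowerSeries.coeff m (GGl f κ L n (i, j, e)) : ℚ) : ℝ)| * ρ ^ m :=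
      Finset.sum_nonneg fun m _ => by positivity
    linarith
  have h5 : M ^ (2 * n - 2 * (e : ℕ) + κ * (2 * L - i - j)) * (M ^ 2) ^ (e : ℕ) *
      B ^ (i : ℕ) * B ^ (j : ℕ) ≤ M ^ (2 * n + 2 * κ * L) * B ^ (2 * L) := by
    have e1 : M ^ (2 * n - 2 * (e : ℕ) + κ * (2 * L - i - j)) * (M ^ 2) ^ (e : ℕ) *
        B ^ (i : ℕ) * B ^ (j : ℕ) =
        M ^ (2 * n - 2 * (e : ℕ) + κ * (2 * L - i - j) + 2 * (e : ℕ)) * B ^ ((i : ℕ) + j) := by
      rw [pow_add, pow_add, ← pow_mul]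
      ring
    rw [e1]
    have e2 : 2 * n - 2 * (e : ℕ) + κ * (2 * L - i - j) + 2 * (e : ℕ) ≤ 2 * n + 2 * κ * L := by
      have he : (e : ℕ) ≤ n := Nat.lt_succ_iff.1 e.2
      have h6 : κ * (2 * L - i - j) ≤ κ * (2 * L) := Nat.mul_le_mul_left _ (by omega)
      have h7 : κ * (2 * L) = 2 * κ * L := by ring
      omega
    have e3 : (i : ℕ) + j ≤ 2 * L := by
      have := i.2
      have := j.2
      omega
    exact mul_le_mul (pow_le_pow_right₀ hM1 e2) (pow_le_pow_right₀ hB e3) (by positivity)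
      (by positivity)
  have h6 : 0 < ρ ^ l := by positivity
  have h7 := h4.trans h5
  rw [← le_div_iff₀ h6] at h7
  rw [inv_pow, ← div_eq_mul_inv]
  exact h7

private theorem ILb_sub {f : ℤ⟦X⟧} {Y a : ℕ} {g h : ℚ⟦X⟧} (hg : CdenI f Y a g)
    (hh : CdenI f Y a h) : CdenI f Y a (g - h) := by
  intro l hl
  obtain ⟨m1, h1⟩ := hg l hl
  obtain ⟨m2, h2⟩ := hh l hl
  refine ⟨m1 - m2, ?_⟩
  rw [map_sub, mul_sub, h1, h2, Int.cast_sub]

theorem den_GGl (f : ℤ⟦X⟧) (κ L n : ℕ) (s : Fin L × Fin L × Fin (n + 1)) (Y l : ℕ)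
    (hl : l ≤ Y) :
    ∃ m : ℤ, (Z0 f Y : ℚ) ^ (2 * L) * PowerSeries.coeff l (GGl f κ L n s) = m := by
  have hU : CdenI f Y 0 (U ℚ) := CdenI_map f Y _
  have hV : CdenI f Y 0 (V ℚ) := CdenI_map f Y _
  have hU2 : CdenI f Y 0 (U ℚ ^ 2) := by
    have h := CdenI_pow hU 2
    rwa [zero_mul] at h
  have hV2 : CdenI f Y 0 (V ℚ ^ 2) := by
    have h := CdenI_pow hV 2
    rwa [zero_mul] at h
  have h := CdenI_mul (CdenI_mul (CdenI_mul
    (CdenI_pow hU (2 * n - 2 * (s.2.2 : ℕ) + κ * (2 * L - s.1 - s.2.1)))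
    (CdenI_pow (ILb_sub hU2 hV2) (s.2.2 : ℕ)))
    (CdenI_pow (CdenI_F1 f Y) (s.1 : ℕ))) (CdenI_pow (CdenI_F2 f Y) (s.2.1 : ℕ))
  have h2 := CdenI_mono (b := 2 * L) h (by
    have h3 := s.1.2
    have h4 := s.2.1.2
    omega)
  exact h2 l hl

attribute [local instance] Matrix.seminormedAddCommGroup

private theorem ILb_abs (f : ℤ⟦X⟧) (κ L n Y : ℕ) {ρ B : ℝ}
    (hρ : 0 < ρ) (hρ1 : ρ < 1) (hB : 1 ≤ B) (h1 : Bd ρ B (F1 f)) (h2 : Bd ρ B (F2 f))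
    {T l : ℕ} (hl : l ≤ T) (s : Fin L × Fin L × Fin (n + 1)) (m : ℤ)
    (hm : (Z0 f Y : ℚ) ^ (2 * L) * PowerSeries.coeff l (GGl f κ L n s) = m) :
    |(m : ℝ)| ≤ (Z0 f Y : ℝ) ^ (2 * L) * (2 * MR ρ) ^ (2 * n + 2 * κ * L) * B ^ (2 * L) *
      (ρ⁻¹) ^ T := by
  have h3 : (m : ℝ) = (Z0 f Y : ℝ) ^ (2 * L) *
      ((PowerSeries.coeff l (GGl f κ L n s) : ℚ) : ℝ) := by
    have := congrArg (fun q : ℚ => (q : ℝ)) hm
    simp only [Rat.cast_mul, Rat.cast_pow, Rat.cast_natCast, Rat.cast_intCast] at this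
    exact this.symm
  have h4 := GGl_bd f κ L n s hρ hρ1 hB h1 h2 l
  have hMR : 0 ≤ MR ρ := by
    unfold MR
    positivity
  have h5 : (1 : ℝ) ≤ ρ⁻¹ := (one_le_inv₀ hρ).2 hρ1.le
  have h6 : (ρ⁻¹) ^ l ≤ (ρ⁻¹) ^ T := pow_le_pow_right₀ h5 hl
  rw [h3, abs_mul, abs_pow, Nat.abs_cast]
  calc (Z0 f Y : ℝ) ^ (2 * L) * |((PowerSeries.coeff l (GGl f κ L n s) : ℚ) : ℝ)|
      ≤ (Z0 f Y : ℝ) ^ (2 * L) *
          ((2 * MR ρ) ^ (2 * n + 2 * κ * L) * B ^ (2 * L) * (ρ⁻¹) ^ l) :=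
        mul_le_mul_of_nonneg_left h4 (by positivity)
    _ ≤ (Z0 f Y : ℝ) ^ (2 * L) *
          ((2 * MR ρ) ^ (2 * n + 2 * κ * L) * B ^ (2 * L) * (ρ⁻¹) ^ T) := by
        refine mul_le_mul_of_nonneg_left (mul_le_mul_of_nonneg_left h6 ?_) (by positivity)
        positivity
    _ = _ := by ring

private theorem ILb_one_le (f : ℤ⟦X⟧) (κ L n Y T : ℕ) {ρ B : ℝ}
    (hρ : 0 < ρ) (hρ1 : ρ < 1) (hB : 1 ≤ B) :
    1 ≤ (Z0 f Y : ℝ) ^ (2 * L) * (2 * MR ρ) ^ (2 * n + 2 * κ * L) * B ^ (2 * L) *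
      (ρ⁻¹) ^ T := by
  have hMR : 1 ≤ 2 * MR ρ := by
    have := ILb_MR hρ hρ1
    linarith
  have h5 : (1 : ℝ) ≤ ρ⁻¹ := (one_le_inv₀ hρ).2 hρ1.le
  have hZ : (1 : ℝ) ≤ (Z0 f Y : ℝ) := by
    exact_mod_cast Z0_pos f Y
  exact one_le_mul_of_one_le_of_one_le (one_le_mul_of_one_le_of_one_le
    (one_le_mul_of_one_le_of_one_le (one_le_pow₀ hZ) (one_le_pow₀ hMR)) (one_le_pow₀ hB))
    (one_le_pow₀ h5)

theorem siegel_phiL (f : ℤ⟦X⟧) (κ L n Y : ℕ) (hL : 2 ≤ L) {ρ B : ℝ}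
    (hρ : 0 < ρ) (hρ1 : ρ < 1) (hB : 1 ≤ B) (h1 : Bd ρ B (F1 f)) (h2 : Bd ρ B (F2 f))
    (hY : L ^ 2 * (n + 1) / 2 ≤ Y) :
    ∃ t : Fin L × Fin L × Fin (n + 1) → ℤ, t ≠ 0 ∧
      (∀ l < L ^ 2 * (n + 1) / 2, PowerSeries.coeff l (PhiL f κ L n t) = 0) ∧
      ∀ s, |((t s : ℤ) : ℝ)| ≤ (L ^ 2 * (n + 1) : ℝ) *
        ((Z0 f Y : ℝ) ^ (2 * L) * (2 * MR ρ) ^ (2 * n + 2 * κ * L) * B ^ (2 * L) *
          (ρ⁻¹) ^ (L ^ 2 * (n + 1) / 2)) := by
  classical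
  set T : ℕ := L ^ 2 * (n + 1) / 2 with hT
  set Q : ℝ := (Z0 f Y : ℝ) ^ (2 * L) * (2 * MR ρ) ^ (2 * n + 2 * κ * L) * B ^ (2 * L) *
    (ρ⁻¹) ^ T with hQ
  have hQ1 : 1 ≤ Q := ILb_one_le f κ L n Y T hρ hρ1 hB
  have hN4 : 4 ≤ L ^ 2 * (n + 1) := by nlinarith
  have hex : ∀ (l : Fin T) (s : Fin L × Fin L × Fin (n + 1)),
      ∃ m : ℤ, (Z0 f Y : ℚ) ^ (2 * L) * PowerSeries.coeff (l : ℕ) (GGl f κ L n s) = m :=
    fun l s => den_GGl f κ L n s Y l (l.2.le.trans hY)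
  choose A hA using hex
  have hcard : Fintype.card (Fin L × Fin L × Fin (n + 1)) = L ^ 2 * (n + 1) := by
    rw [Fintype.card_prod, Fintype.card_prod, Fintype.card_fin, Fintype.card_fin]
    ring
  have hcT : Fintype.card (Fin T) = T := Fintype.card_fin T
  obtain ⟨t, ht0, hAt, htn⟩ := Int.Matrix.exists_ne_zero_int_vec_norm_le (Matrix.of A)
    (by rw [hcard, hcT]; omega) (by rw [hcT]; omega)
  have hAn : ‖Matrix.of A‖ ≤ Q := by
    rw [Matrix.norm_le_iff (by linarith)]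
    intro l s
    rw [Int.norm_eq_abs]
    exact ILb_abs f κ L n Y hρ hρ1 hB h1 h2 l.2.le s (A l s) (hA l s)
  refine ⟨t, ht0, ?_, ?_⟩
  · intro l hl
    have h3 := congrFun hAt ⟨l, hl⟩
    have h4 : (Z0 f Y : ℚ) ^ (2 * L) * PowerSeries.coeff l (PhiL f κ L n t) = 0 := by
      rw [PhiL, map_sum, Finset.mul_sum]
      have h5 : ((∑ s, A ⟨l, hl⟩ s * t s : ℤ) : ℚ) = 0 := by
        have h6 : ∑ s, A ⟨l, hl⟩ s * t s = 0 := h3
        rw [h6, Int.cast_zero]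
      rw [← h5, Int.cast_sum]
      refine Finset.sum_congr rfl fun s _ => ?_
      rw [PowerSeries.coeff_C_mul, Int.cast_mul, ← hA ⟨l, hl⟩ s]
      ring
    have h7 : (Z0 f Y : ℚ) ^ (2 * L) ≠ 0 := by
      have := Z0_pos f Y
      positivity
    exact (mul_eq_zero.1 h4).resolve_left h7
  · intro s
    have h3 : ‖t s‖ ≤ ‖t‖ := norm_le_pi_norm t s
    rw [Int.norm_eq_abs] at h3
    refine h3.trans (htn.trans ?_)
    rw [hcard, hcT]
    have hN1 : (1 : ℝ) ≤ ((L ^ 2 * (n + 1) : ℕ) : ℝ) := by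
      exact_mod_cast (by omega : 1 ≤ L ^ 2 * (n + 1))
    have hb1 : (1 : ℝ) ≤ ((L ^ 2 * (n + 1) : ℕ) : ℝ) * max 1 ‖Matrix.of A‖ :=
      one_le_mul_of_one_le_of_one_le hN1 (le_max_left _ _)
    have hTN : ((T : ℕ) : ℝ) * 2 ≤ ((L ^ 2 * (n + 1) : ℕ) : ℝ) := by
      exact_mod_cast (by omega : T * 2 ≤ L ^ 2 * (n + 1))
    have hT0 : (0 : ℝ) < (T : ℝ) := by
      exact_mod_cast (by omega : 0 < T)
    have he : (T : ℝ) / (((L ^ 2 * (n + 1) : ℕ) : ℝ) - (T : ℝ)) ≤ 1 := by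
      rw [div_le_one (by linarith)]
      linarith
    refine (Real.rpow_le_rpow_of_exponent_le hb1 he).trans ?_
    rw [Real.rpow_one]
    have hm : max 1 ‖Matrix.of A‖ ≤ Q := max_le hQ1 hAn
    have h8 : ((L ^ 2 * (n + 1) : ℕ) : ℝ) = (L ^ 2 * (n + 1) : ℝ) := by push_cast; ring
    rw [← h8]
    exact mul_le_mul_of_nonneg_left hm (by linarith)

end Pool.Agent.H85.OU

end S_OU_ILb

section S_OT_Hf

/-!
# Row HF (project OT): modular forms mod `p`: derivative and uniqueness of the weight mod `m`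

`u = U (ZMod p)`, `λ = lam`, `m = mm p` (`2m + 1 = p`), `h = hh p`, `B = Bh p`.
* `lam_inj`: from `ord_lam`.
* `Mf_D`: `D(u^(2N) P(λ)) = 2N ε u^(2N) P(λ) + u^(2N) P'(λ) λ(1-λ) u²`; insert `ε = u^(2m+2) B(λ)` in the
  first term and `1 = u^(2m) h(λ)` in the second.  Degrees: `B` has degree `≤ m+1`, `h` degree `m`.
* `Mf_congr`: put `k = N2 - N1`; `u^(2k) P2(λ) = P1(λ)` (cancel the unit `u^(2 N1)`).  Take `m`-th powers:
  `u^(2mk) P2^m(λ) = P1^m(λ)`; multiply by `h^k(λ)` and use `u^(2m) h(λ) = 1`: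
  `P2^m(λ) = (P1^m h^k)(λ)`, so `P2^m = P1^m h^k` (`lam_inj`).  Let `π` be an irreducible polynomial dividing
  `h` exactly once (`hh_simple_factor`): comparing multiplicities of `π`
  (`emultiplicity`/`multiplicity`, all polynomials nonzero), `m v(P2) = m v(P1) + k`, so `m ∣ k`,
  `k = j m`.  Then `u^(2jm) P2(λ) = P1(λ)`; multiply by `h^j(λ)`: `P2(λ) = (h^j P1)(λ)`, `P2 = h^j P1`.
-/

open PowerSeries

namespace Pool.Agent.H85.OT

variable {p : ℕ} [hp : Fact p.Prime] (h2 : p ≠ 2)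
include h2

theorem lam_inj (P : Polynomial (ZMod p))
    (h : Polynomial.aeval (lam (ZMod p)) P = 0) : P = 0 := by
  by_contra hP
  obtain ⟨l, -, hl⟩ := ord_lam (two_ne h2) P hP P.natDegree le_rfl
  apply hl
  unfold lam at h
  rw [h, map_zero]

theorem Hf_Dpow (n : ℕ) : Dq (ZMod p) (U (ZMod p) ^ n) =
    (n : (ZMod p)⟦X⟧) * ee (ZMod p) * U (ZMod p) ^ n := by
  rw [Derivation.leibniz_pow, Dq_U, nsmul_eq_mul, smul_eq_mul]
  rcases n with _ | n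
  · simp
  · rw [Nat.add_sub_cancel]
    ring

theorem Hf_aeval (P : Polynomial (ZMod p)) :
    Dq (ZMod p) (Polynomial.aeval (lam (ZMod p)) P) =
      Polynomial.aeval (lam (ZMod p)) (Polynomial.derivative P) *
        (lam (ZMod p) * (1 - lam (ZMod p)) * U (ZMod p) ^ 2) := by
  rw [Derivation.map_aeval, Dq_lam _ (two_ne h2), smul_eq_mul]

theorem Mf_D (N : ℕ) (P : Polynomial (ZMod p)) :
    Dq (ZMod p) (U (ZMod p) ^ (2 * N) * Polynomial.aeval (lam (ZMod p)) P) =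
      U (ZMod p) ^ (2 * (N + mm p + 1)) * Polynomial.aeval (lam (ZMod p))
        (2 * (N : Polynomial (ZMod p)) * Bh p * P +
          hh p * Polynomial.X * (1 - Polynomial.X) * Polynomial.derivative P) := by
  have h1 := hasse h2
  have h3 := ee_eq h2
  rw [Derivation.leibniz, smul_eq_mul, smul_eq_mul, Hf_Dpow h2, Hf_aeval h2, h3]
  simp only [map_add, map_mul, map_sub, map_one, Polynomial.aeval_X, map_ofNat, map_natCast]
  push_cast
  set u := U (ZMod p)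
  set L := lam (ZMod p)
  set hl := Polynomial.aeval L (hh p)
  set P' := Polynomial.aeval L (Polynomial.derivative P)
  have e1 : u ^ (2 * (N + mm p + 1)) = u ^ (2 * N) * u ^ (2 * mm p) * u ^ 2 := by
    rw [← pow_add, ← pow_add]; congr 1; ring
  have e2 : u ^ (2 * mm p + 2) = u ^ (2 * mm p) * u ^ 2 := by rw [← pow_add]
  rw [e1, e2]
  linear_combination (-(u ^ (2 * N) * u ^ 2 * P' * (L * (1 - L)))) * h1

theorem Mf_D' (N : ℕ) (F : (ZMod p)⟦X⟧) (hF : Mf p N F) :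
    Mf p (N + mm p + 1) (Dq (ZMod p) F) := by
  obtain ⟨P, hP, rfl⟩ := hF
  refine ⟨_, ?_, Mf_D h2 N P⟩
  refine Polynomial.natDegree_add_le_of_degree_le ?_ ?_
  · have e1 : (2 * (N : Polynomial (ZMod p)) * Bh p * P) =
        Polynomial.C ((2 * N : ℕ) : ZMod p) * (Bh p * P) := by
      push_cast
      rw [Polynomial.C_mul]
      rw [show (Polynomial.C (N : ZMod p) : Polynomial (ZMod p)) = N from Polynomial.C_eq_natCast N,
        show (Polynomial.C (2 : ZMod p) : Polynomial (ZMod p)) = 2 from rfl]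
      ring
    rw [e1]
    refine (Polynomial.natDegree_C_mul_le _ _).trans ?_
    refine Polynomial.natDegree_mul_le.trans ?_
    have := Bh_natDegree (p := p) h2
    omega
  · by_cases h0 : P.natDegree = 0
    · rw [Polynomial.derivative_of_natDegree_zero h0, mul_zero, Polynomial.natDegree_zero]
      exact Nat.zero_le _
    · have h1 := Polynomial.natDegree_derivative_lt h0
      refine Polynomial.natDegree_mul_le.trans ?_
      have h3 : (hh p * Polynomial.X * (1 - Polynomial.X)).natDegree ≤ mm p + 1 + 1 := by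
        refine Polynomial.natDegree_mul_le.trans ?_
        have h4 : (hh p * Polynomial.X).natDegree ≤ mm p + 1 := by
          refine Polynomial.natDegree_mul_le.trans ?_
          rw [hh_natDegree h2]
          have := Polynomial.natDegree_X_le (R := ZMod p)
          omega
        have h5 : (1 - Polynomial.X : Polynomial (ZMod p)).natDegree ≤ 1 := by
          refine (Polynomial.natDegree_sub_le _ _).trans ?_
          have := Polynomial.natDegree_X_le (R := ZMod p)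
          rw [Polynomial.natDegree_one]
          omega
        omega
      omega

theorem Mf_congr (N1 N2 : ℕ) (P1 P2 : Polynomial (ZMod p)) (hP : P1 ≠ 0) (hN : N1 ≤ N2)
    (h : U (ZMod p) ^ (2 * N1) * Polynomial.aeval (lam (ZMod p)) P1 =
      U (ZMod p) ^ (2 * N2) * Polynomial.aeval (lam (ZMod p)) P2) :
    ∃ j : ℕ, N2 = N1 + j * mm p ∧ P2 = hh p ^ j * P1 := by
  have h1 := hasse h2
  have hu0 : U (ZMod p) ≠ 0 := U_ne_zero _
  obtain ⟨k, rfl⟩ := Nat.exists_eq_add_of_le hN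
  set u := U (ZMod p)
  set L := lam (ZMod p)
  have h3 : Polynomial.aeval L P1 = u ^ (2 * k) * Polynomial.aeval L P2 := by
    apply mul_left_cancel₀ (pow_ne_zero (2 * N1) hu0)
    rw [h, ← mul_assoc, ← pow_add]
    congr 2
    ring
  -- the identity of `m`-th powers
  have h4 : P2 ^ mm p = P1 ^ mm p * hh p ^ k := by
    rw [← sub_eq_zero]
    apply lam_inj h2
    rw [map_sub, map_mul, map_pow, map_pow, map_pow, h3, mul_pow, ← pow_mul, sub_eq_zero]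
    have e1 : u ^ (2 * k * mm p) = (u ^ (2 * mm p)) ^ k := by
      rw [← pow_mul]; congr 1; ring
    rw [e1]
    have e2 : (u ^ (2 * mm p)) ^ k * Polynomial.aeval L P2 ^ mm p * Polynomial.aeval L (hh p) ^ k =
        (u ^ (2 * mm p) * Polynomial.aeval L (hh p)) ^ k * Polynomial.aeval L P2 ^ mm p := by
      rw [mul_pow]; ring
    rw [e2, h1, one_pow, one_mul]
  have hm : mm p ≠ 0 := by
    have := two_mm hp.out h2
    have := hp.out.two_le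
    omega
  have hh0 : hh p ≠ 0 := (hh_monic h2).ne_zero
  have hP2 : P2 ≠ 0 := by
    rintro rfl
    rw [zero_pow hm] at h4
    exact mul_ne_zero (pow_ne_zero _ hP) (pow_ne_zero _ hh0) h4.symm
  obtain ⟨π, hπ, hπ1, hπ2⟩ := hh_simple_factor (p := p) h2
  have hprime : Prime π := hπ.prime
  have h5 : emultiplicity π (hh p) = ((1 : ℕ) : ℕ∞) := by
    rw [emultiplicity_eq_coe]
    exact ⟨by rwa [pow_one], hπ2⟩
  have h6 : emultiplicity π P1 = (multiplicity π P1 : ℕ∞) :=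
    (FiniteMultiplicity.of_prime_left hprime hP).emultiplicity_eq_multiplicity
  have h7 : emultiplicity π P2 = (multiplicity π P2 : ℕ∞) :=
    (FiniteMultiplicity.of_prime_left hprime hP2).emultiplicity_eq_multiplicity
  have h8 := congrArg (emultiplicity π) h4
  rw [emultiplicity_mul hprime, emultiplicity_pow hprime, emultiplicity_pow hprime,
    emultiplicity_pow hprime, h5, h6, h7] at h8
  have h9 : mm p * multiplicity π P2 = mm p * multiplicity π P1 + k * 1 := by exact_mod_cast h8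
  have h10 : mm p ∣ k := by
    have h11 : mm p ∣ mm p * multiplicity π P1 + k * 1 := h9 ▸ Dvd.intro _ rfl
    rw [mul_one] at h11
    exact (Nat.dvd_add_right (Dvd.intro _ rfl)).1 h11
  obtain ⟨j, rfl⟩ := h10
  refine ⟨j, by ring, ?_⟩
  rw [← sub_eq_zero]
  apply lam_inj h2
  rw [map_sub, map_mul, map_pow, h3, sub_eq_zero]
  have e1 : u ^ (2 * (mm p * j)) = (u ^ (2 * mm p)) ^ j := by
    rw [← pow_mul]; congr 1; ring
  have e2 : Polynomial.aeval L (hh p) ^ j * ((u ^ (2 * mm p)) ^ j * Polynomial.aeval L P2) =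
      (u ^ (2 * mm p) * Polynomial.aeval L (hh p)) ^ j * Polynomial.aeval L P2 := by
    rw [mul_pow]; ring
  rw [e1, e2, h1, one_pow, one_mul]

end Pool.Agent.H85.OT

end S_OT_Hf

section S_OT_Hg

/-!
# Row HG (project OT): the mod `p` lemma (a `D`-primitive of a modular form, `p`-depleted, has
weight exactly `2 p (w-1)`)

`p` prime, `p > 2w+2`, `w ≥ 2`, `m = (p-1)/2`, so `m ≥ w+1`; `u = U`, `λ = lam`, `h = hh p`, `B = Bh p`,
`D = Dq`.  Let `f = u^(2w) Pf(λ)`, `deg Pf ≤ w`, `f ≠ 0`, `D F = f` and `F_n = 0` for `p ∣ n`.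
1. `F = D^(p-2) f`: coefficient `n` of the right side is `n^(p-2) f_n = n^(p-1) F_n`, which is `F_n` for
   `p ∤ n` (Fermat) and `0 = F_n` for `p ∣ n`.  By `Mf_D'` (induction) `F ∈ Mf (w + (p-2)(m+1))`.
   Note `w + (p-2)(m+1) = w - 1 + p m`.
2. Let `N0` be the least `N` with `Mf p N F` (`Nat.find`), `F = u^(2 N0) P(λ)`, `deg P ≤ N0`.
   `F ≠ 0` so `P ≠ 0`.  `h ∤ P`: if `P = h Q` then `deg Q = deg P - m` (`h` monic of degree `m`), so
   `N0 ≥ deg P ≥ m` and `F = u^(2(N0-m)) u^(2m) h(λ) Q(λ) = u^(2(N0-m)) Q(λ)` by `hasse`, `deg Q ≤ N0 - m`;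
   as `m ≥ 1` this contradicts minimality.
3. `f = D F = u^(2(N0+m+1)) S(λ)`, `S = 2 N0 B P + h X(1-X) P'` (`Mf_D`).  Also `f = u^(2w) Pf(λ)`, `Pf ≠ 0`
   and `w ≤ m + 1 ≤ N0 + m + 1`.  By `Mf_congr` `N0 + m + 1 = w + j m`, `S = h^j Pf`.  `j = 0` would
   give `N0 + m + 1 = w ≤ m - 1`, impossible.  So `j ≥ 1` and `h ∣ S`, so `h ∣ 2 N0 B P`; as `h` is coprime
   to `B`, `h ∣ 2 N0 P`.  If `p ∤ N0` then `2 N0` is a unit and `h ∣ P`, contradiction.  So `p ∣ N0`, `N0 = p s`.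
4. `p s + m + 1 = w + j m`, `p = 2m+1`: `s = w - 1 + (j - 1 - 2 s) m` in `ℤ`, so `s ≡ w - 1 mod m`.
   And `p s = N0 ≤ w - 1 + p m`, `w - 1 < p` so `s ≤ m`.
   `0 ≤ s ≤ m`, `1 ≤ w-1 < m`, `s ≡ w-1 mod m` force `s = w - 1` (`s = m` would give `m ∣ w-1`).
So `N0 = p (w-1)`.
-/

open PowerSeries

namespace Pool.Agent.H85.OT

theorem Mf_prim {p : ℕ} [hp : Fact p.Prime] (h2 : p ≠ 2) (w : ℕ) (f F : (ZMod p)⟦X⟧)
    (hf : Mf p w f) (hF : Dq (ZMod p) F = f) (hF0 : ∀ n, p ∣ n → PowerSeries.coeff n F = 0) :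
    Mf p (w + (p - 2) * (mm p + 1)) F := by
  have hp2 := hp.out.two_le
  have h1 : ∀ k : ℕ, Mf p (w + k * (mm p + 1)) ((fun G => Dq (ZMod p) G)^[k] f) := by
    intro k
    induction k with
    | zero => simpa using hf
    | succ k ih =>
      rw [Function.iterate_succ_apply']
      have h3 := Mf_D' h2 _ _ ih
      have h4 : w + k * (mm p + 1) + mm p + 1 = w + (k + 1) * (mm p + 1) := by ring
      rwa [h4] at h3
  have h5 : ∀ (k n : ℕ), PowerSeries.coeff n ((fun G => Dq (ZMod p) G)^[k] f) = (n : ZMod p) ^ k * PowerSeries.coeff n f := by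
    intro k n
    induction k with
    | zero => simp
    | succ k ih =>
      rw [Function.iterate_succ_apply', coeff_Dq, ih, pow_succ]
      ring
  have h6 : (fun G => Dq (ZMod p) G)^[p - 2] f = F := by
    ext n
    rw [h5, ← hF, coeff_Dq]
    by_cases hn : p ∣ n
    · rw [hF0 n hn, mul_zero, mul_zero]
    · have hn' : (n : ZMod p) ≠ 0 := fun h => hn ((ZMod.natCast_eq_zero_iff _ _).1 h)
      rw [← mul_assoc, ← pow_succ, show p - 2 + 1 = p - 1 by omega, ZMod.pow_card_sub_one_eq_one hn', one_mul]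
  have h7 := h1 (p - 2)
  rwa [h6] at h7

theorem mp_lemma {p : ℕ} [hp : Fact p.Prime] (w : ℕ) (hw : 2 ≤ w) (hpw : 2 * w + 2 < p)
    (f F : (ZMod p)⟦X⟧) (hf0 : f ≠ 0) (hf : Mf p w f)
    (hF : Dq (ZMod p) F = f) (hF0 : ∀ n, p ∣ n → PowerSeries.coeff n F = 0) :
    Mf p (p * (w - 1)) F := by
  classical
  have h2 : p ≠ 2 := by omega
  have hm := two_mm hp.out h2
  have hmw : w + 1 ≤ mm p := by omega
  have hprim := Mf_prim h2 w f F hf hF hF0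
  have hex : ∃ N, Mf p N F := ⟨_, hprim⟩
  have hmin : ∀ N, Mf p N F → Nat.find hex ≤ N := fun N h => Nat.find_min' hex h
  have hspec := Nat.find_spec hex
  generalize Nat.find hex = N0 at hmin hspec
  have hup := hmin _ hprim
  obtain ⟨P, hPd, hPF⟩ := hspec
  obtain ⟨Pf, hPfd, hPff⟩ := hf
  have hPf0 : Pf ≠ 0 := by
    rintro rfl
    rw [map_zero, mul_zero] at hPff
    exact hf0 hPff
  have hP0 : P ≠ 0 := by
    rintro rfl
    rw [map_zero, mul_zero] at hPF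
    rw [hPF, map_zero] at hF
    exact hf0 hF.symm
  have hH := hasse (p := p) h2
  have hnd : ¬ hh p ∣ P := by
    rintro ⟨Q, rfl⟩
    have hQ0 : Q ≠ 0 := right_ne_zero_of_mul hP0
    have h3 : (hh p * Q).natDegree = mm p + Q.natDegree := by
      rw [Polynomial.natDegree_mul (hh_monic h2).ne_zero hQ0, hh_natDegree h2]
    have h4 : Mf p (N0 - mm p) F := by
      refine ⟨Q, by omega, ?_⟩
      have h5 : 2 * N0 = 2 * (N0 - mm p) + 2 * mm p := by omega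
      rw [hPF, map_mul, h5, pow_add]
      linear_combination (U (ZMod p) ^ (2 * (N0 - mm p)) * Polynomial.aeval (lam (ZMod p)) Q) * hH
    have h6 := hmin _ h4
    omega
  have hD := Mf_D h2 N0 P
  rw [← hPF, hF, hPff] at hD
  obtain ⟨j, hj1, hj2⟩ := Mf_congr h2 w (N0 + mm p + 1) Pf _ hPf0 (by omega) hD
  have hj0 : j ≠ 0 := by
    rintro rfl
    omega
  have hdiv : hh p ∣ 2 * (N0 : Polynomial (ZMod p)) * Bh p * P := by
    have h7 : hh p ∣ hh p ^ j * Pf := Dvd.dvd.mul_right (dvd_pow_self _ hj0) _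
    rw [← hj2] at h7
    have h8 : hh p ∣ hh p * Polynomial.X * (1 - Polynomial.X) * Polynomial.derivative P :=
      ⟨Polynomial.X * (1 - Polynomial.X) * Polynomial.derivative P, by ring⟩
    exact (dvd_add_left h8).1 h7
  have hdiv2 : hh p ∣ Polynomial.C (2 * (N0 : ZMod p)) * P := by
    have h9 : hh p ∣ Bh p * (Polynomial.C (2 * (N0 : ZMod p)) * P) := by
      have h10 : Bh p * (Polynomial.C (2 * (N0 : ZMod p)) * P) = 2 * (N0 : Polynomial (ZMod p)) * Bh p * P := by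
        rw [Polynomial.C_mul, Polynomial.C_ofNat, ← Polynomial.C_eq_natCast]
        ring
      rw [h10]
      exact hdiv
    exact (hh_coprime h2).dvd_of_dvd_mul_left h9
  have hpN : p ∣ N0 := by
    by_contra hcon
    have hN' : (N0 : ZMod p) ≠ 0 := fun h => hcon ((ZMod.natCast_eq_zero_iff _ _).1 h)
    have h11 : (2 * (N0 : ZMod p)) ≠ 0 := mul_ne_zero (two_ne h2) hN'
    exact hnd ((Polynomial.dvd_C_mul h11).1 hdiv2)
  obtain ⟨s, hs⟩ := hpN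
  have hsm : s ≤ mm p := by
    by_contra hcon
    have h12 : mm p + 1 ≤ s := by omega
    have h13 : p * (mm p + 1) ≤ p * s := Nat.mul_le_mul_left p h12
    have h14 : w + (p - 2) * (mm p + 1) + p + 1 = w + p * (mm p) + p := by
      have h15 : p - 2 + 2 = p := by omega
      have h16 : (p - 2) * (mm p + 1) + 2 * (mm p + 1) = p * (mm p + 1) := by
        rw [← add_mul, h15]
      have h17 : p * (mm p + 1) = p * mm p + p := by ring
      omega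
    have h18 : p * (mm p + 1) = p * mm p + p := by ring
    omega
  have hsw : s = w - 1 := by
    have h19 : (2 * mm p + 1) * s + mm p + 1 = w + j * mm p := by
      rw [hm, ← hs]
      exact hj1
    have h20 : ((s : ℤ) - (w - 1)) = ((j : ℤ) - 1 - 2 * s) * mm p := by
      have h21 : ((2 * (mm p : ℤ) + 1) * s + mm p + 1) = w + j * mm p := by exact_mod_cast h19
      linear_combination h21
    have h22 : ((j : ℤ) - 1 - 2 * s) = 0 := by
      by_contra hcon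
      rcases lt_or_gt_of_ne hcon with h23 | h23
      · have h24 : ((j : ℤ) - 1 - 2 * s) * mm p ≤ -1 * mm p :=
          mul_le_mul_of_nonneg_right (by omega) (by positivity)
        rw [← h20] at h24
        omega
      · have h24 : 1 * (mm p : ℤ) ≤ ((j : ℤ) - 1 - 2 * s) * mm p :=
          mul_le_mul_of_nonneg_right (by omega) (by positivity)
        rw [← h20] at h24
        omega
    rw [h22, zero_mul] at h20
    omega
  refine ⟨P, ?_, ?_⟩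
  · rw [← hsw, ← hs]
    exact hPd
  · rw [← hsw, ← hs]
    exact hPF

end Pool.Agent.H85.OT

end S_OT_Hg

section S_OT_Hx

/-!
# Row HX (project OT): forms as polynomials in `x`, before and after `q ↦ q²`

`F = u^(2N) R(λ)`, `deg R ≤ N`, `λ = 1 - x²`: `F = u^(2N) R(1-X²)(x)`, degree `≤ 2N`.
`dbl F = (u~)^(2N) R(λ~)` with `2 u~ = u (1+x)` and `(1+x)² λ~ = (1+x)² - 4x = (1-x)²` (`dbl_U`, `dbl_xx`), so
`dbl F = u^(2N) 2^(-2N) ∑_{i ≤ N} r_i (1-x)^(2i) (1+x)^(2(N-i))`, a polynomial of degree `≤ 2N` in `x`.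
(`(1+x)^(2N) λ~^i = (1+x)^(2(N-i)) (1-x)^(2i)` for `i ≤ N`.)
-/

open PowerSeries

namespace Pool.Agent.H85.OT

theorem Hx_lam {p : ℕ} [hp : Fact p.Prime] (h2 : p ≠ 2) :
    (1 + xx (ZMod p)) ^ 2 * dbl (ZMod p) (lam (ZMod p)) = (1 - xx (ZMod p)) ^ 2 := by
  have h1 := dbl_xx (ZMod p) (two_ne h2)
  have e : dbl (ZMod p) (lam (ZMod p)) = 1 - dbl (ZMod p) (xx (ZMod p)) ^ 2 := by
    rw [lam, map_sub, map_one, map_pow]
  rw [e]
  linear_combination -h1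

theorem Mf_x {p : ℕ} [hp : Fact p.Prime] (h2 : p ≠ 2) (N : ℕ) (F : (ZMod p)⟦X⟧)
    (hF : Mf p N F) :
    ∃ R : Polynomial (ZMod p), R.natDegree ≤ 2 * N ∧
      F = U (ZMod p) ^ (2 * N) * Polynomial.aeval (xx (ZMod p)) R := by
  obtain ⟨P, hP, rfl⟩ := hF
  refine ⟨P.comp (1 - Polynomial.X ^ 2), ?_, ?_⟩
  · refine Polynomial.natDegree_comp_le.trans ?_
    have h1 : (1 - Polynomial.X ^ 2 : Polynomial (ZMod p)).natDegree ≤ 2 := by compute_degree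
    calc P.natDegree * (1 - Polynomial.X ^ 2 : Polynomial (ZMod p)).natDegree ≤ N * 2 :=
          Nat.mul_le_mul hP h1
      _ = 2 * N := mul_comm _ _
  · rw [Polynomial.aeval_comp, map_sub, map_one, map_pow, Polynomial.aeval_X]
    rfl

theorem Mf_dbl_x {p : ℕ} [hp : Fact p.Prime] (h2 : p ≠ 2) (N : ℕ) (F : (ZMod p)⟦X⟧)
    (hF : Mf p N F) :
    ∃ R : Polynomial (ZMod p), R.natDegree ≤ 2 * N ∧
      dbl (ZMod p) F = U (ZMod p) ^ (2 * N) * Polynomial.aeval (xx (ZMod p)) R := by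
  obtain ⟨P, hP, rfl⟩ := hF
  have h20 : (2 : ZMod p) ≠ 0 := two_ne h2
  have hc0 : ((2 : ZMod p) ^ (2 * N)) ≠ 0 := pow_ne_zero _ h20
  refine ⟨Polynomial.C ((2 ^ (2 * N))⁻¹) * ∑ i ∈ Finset.range (N + 1),
    Polynomial.C (P.coeff i) * ((1 + Polynomial.X) ^ (2 * (N - i)) * (1 - Polynomial.X) ^ (2 * i)), ?_, ?_⟩
  · refine (Polynomial.natDegree_C_mul_le _ _).trans ?_
    refine Polynomial.natDegree_sum_le_of_forall_le _ _ fun i hi => ?_
    rw [Finset.mem_range] at hi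
    refine (Polynomial.natDegree_C_mul_le _ _).trans ?_
    refine Polynomial.natDegree_mul_le.trans ?_
    have h1 : ((1 + Polynomial.X : Polynomial (ZMod p)) ^ (2 * (N - i))).natDegree ≤ 2 * (N - i) * 1 :=
      Polynomial.natDegree_pow_le_of_le _ (by compute_degree)
    have h3 : ((1 - Polynomial.X : Polynomial (ZMod p)) ^ (2 * i)).natDegree ≤ 2 * i * 1 :=
      Polynomial.natDegree_pow_le_of_le _ (by compute_degree)
    omega
  · have e1 : dbl (ZMod p) (U (ZMod p) ^ (2 * N) * Polynomial.aeval (lam (ZMod p)) P) =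
        dbl (ZMod p) (U (ZMod p)) ^ (2 * N) *
          Polynomial.aeval (dbl (ZMod p) (lam (ZMod p))) P := by
      rw [map_mul, map_pow]
      congr 1
      exact (Polynomial.aeval_algHom_apply (dbl (ZMod p)) (lam (ZMod p)) P).symm
    have e2 : (2 : (ZMod p)⟦X⟧) ^ (2 * N) * dbl (ZMod p) (U (ZMod p)) ^ (2 * N) =
        U (ZMod p) ^ (2 * N) * (1 + xx (ZMod p)) ^ (2 * N) := by
      rw [← mul_pow, dbl_U (ZMod p) h20, mul_pow]
    have e3 : (1 + xx (ZMod p)) ^ (2 * N) * Polynomial.aeval (dbl (ZMod p) (lam (ZMod p))) P =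
        ∑ i ∈ Finset.range (N + 1), Polynomial.aeval (xx (ZMod p))
          (Polynomial.C (P.coeff i) * ((1 + Polynomial.X) ^ (2 * (N - i)) * (1 - Polynomial.X) ^ (2 * i))) := by
      rw [Polynomial.aeval_eq_sum_range' (Nat.lt_succ_of_le hP), Finset.mul_sum]
      refine Finset.sum_congr rfl fun i hi => ?_
      rw [Finset.mem_range] at hi
      have hi' : i ≤ N := Nat.lt_succ_iff.1 hi
      rw [map_mul, map_mul, map_pow, map_pow, map_add, map_sub, map_one, Polynomial.aeval_X,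
        Polynomial.aeval_C, Algebra.smul_def]
      have e4 : (1 + xx (ZMod p)) ^ (2 * N) =
          (1 + xx (ZMod p)) ^ (2 * (N - i)) * ((1 + xx (ZMod p)) ^ 2) ^ i := by
        rw [← pow_mul, ← pow_add]
        congr 1
        omega
      have e5 : ((1 + xx (ZMod p)) ^ 2) ^ i * dbl (ZMod p) (lam (ZMod p)) ^ i =
          (1 - xx (ZMod p)) ^ (2 * i) := by
        rw [← mul_pow, Hx_lam h2, ← pow_mul]
      rw [e4]
      linear_combination (algebraMap (ZMod p) (ZMod p)⟦X⟧ (P.coeff i) *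
        (1 + xx (ZMod p)) ^ (2 * (N - i))) * e5
    have e6 : algebraMap (ZMod p) (ZMod p)⟦X⟧ ((2 ^ (2 * N))⁻¹) * (2 : (ZMod p)⟦X⟧) ^ (2 * N) = 1 := by
      have e7 : (2 : (ZMod p)⟦X⟧) ^ (2 * N) = algebraMap (ZMod p) (ZMod p)⟦X⟧ (2 ^ (2 * N)) := by
        rw [map_pow, map_ofNat]
      rw [e7, ← map_mul, inv_mul_cancel₀ hc0, map_one]
    rw [e1, map_mul, Polynomial.aeval_C, map_sum, ← e3]
    linear_combination (-(dbl (ZMod p) (U (ZMod p)) ^ (2 * N) *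
      Polynomial.aeval (dbl (ZMod p) (lam (ZMod p))) P)) * e6 +
      (algebraMap (ZMod p) (ZMod p)⟦X⟧ ((2 ^ (2 * N))⁻¹) *
        Polynomial.aeval (dbl (ZMod p) (lam (ZMod p))) P) * e2

end Pool.Agent.H85.OT

end S_OT_Hx

section S_OT_Cred

/-!
# Row CRED (project OT): reduction mod `p` of the primitives, for `p ∈ Sl2`

`p` prime with `Sl2 f p`.  Then `p^(v_p(n)) ∣ a_n` for all `n ≥ 1` (for `p ∤ n` trivial), so `a_n/n ∈ ℚ` has
`p`-adic norm `≤ 1`.  `exists_F1p`: let `F1p : ℤ_[p]⟦X⟧` have coefficients `a_n/n`; the coefficients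
with `p ∣ n`, `n ≥ 1`, have norm `< 1` (`p^(v_p(n)+1) ∣ a_n`), coefficient `0` is `0`.
So its reduction `G1 = map toZMod F1p` satisfies `G1_n = 0` for `p ∣ n`, and `D G1 = f mod p` (`n * (a_n/n) = a_n`).
`mp_lemma` (`p > 2w+2`, `f mod p ≠ 0`, `Mf p w (f mod p)`) gives `Mf p (p(w-1)) G1`; `Mf_x`, `Mf_dbl_x`:
`G1 = U^(κp) R1(x)`, `dbl G1 = U^(κp) R2(x)`, degrees `≤ κ p`, `κ = 2w-2` (`2 (p (w-1)) = κ p`).
-/

open PowerSeries

namespace Pool.Agent.H85.OT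

theorem Cred_norm_nat (p : ℕ) [hp : Fact p.Prime] {n : ℕ} (hn : n ≠ 0) :
    ‖((n : ℚ) : ℚ_[p])‖ = (p : ℝ) ^ (-(padicValNat p n : ℤ)) := by
  rw [Padic.eq_padicNorm, padicNorm.eq_zpow_of_nonzero (Nat.cast_ne_zero.2 hn), padicValRat.of_nat]
  push_cast
  rfl

theorem Cred_norm (p : ℕ) [hp : Fact p.Prime] {n : ℕ} (hn : n ≠ 0) {a : ℤ} {k : ℕ}
    (h : (p : ℤ) ^ (padicValNat p n + k) ∣ a) :
    ‖(((a : ℚ) / n : ℚ) : ℚ_[p])‖ ≤ (p : ℝ) ^ (-(k : ℤ)) := by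
  have hp0 : (0 : ℝ) < p := by exact_mod_cast hp.out.pos
  have h1 : ‖((a : ℤ) : ℚ_[p])‖ ≤ (p : ℝ) ^ (-((padicValNat p n + k : ℕ) : ℤ)) :=
    (Padic.norm_int_le_pow_iff_dvd a _).2 (by exact_mod_cast h)
  have h2 := Cred_norm_nat p hn
  have h3 : (((a : ℚ) / n : ℚ) : ℚ_[p]) = ((a : ℤ) : ℚ_[p]) / ((n : ℚ) : ℚ_[p]) := by
    push_cast
    rfl
  rw [h3, norm_div, h2, div_le_iff₀ (zpow_pos hp0 _), ← zpow_add₀ hp0.ne']
  have e : -(k : ℤ) + -(padicValNat p n : ℤ) = -((padicValNat p n + k : ℕ) : ℤ) := by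
    push_cast
    ring
  rw [e]
  exact h1

theorem exists_F1p (f : ℤ⟦X⟧) (h0 : PowerSeries.coeff 0 f = 0) (p : ℕ) [hp : Fact p.Prime]
    (hS : Sl2 f p) :
    ∃ G : ℤ_[p]⟦X⟧,
      PowerSeries.map (PadicInt.Coe.ringHom (p := p)) G =
        PowerSeries.map (Rat.castHom ℚ_[p]) (F1 f) ∧
      Dq (ZMod p) (PowerSeries.map (PadicInt.toZMod (p := p)) G) =
        PowerSeries.map (Int.castRingHom (ZMod p)) f ∧
      ∀ n, p ∣ n → PowerSeries.coeff n (PowerSeries.map (PadicInt.toZMod (p := p)) G) = 0 := by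
  have hp1 : (1 : ℝ) < p := by exact_mod_cast hp.out.one_lt
  have hle : ∀ n : ℕ, ‖((((PowerSeries.coeff n f : ℤ) : ℚ) / n : ℚ) : ℚ_[p])‖ ≤ 1 := by
    intro n
    by_cases hn : n = 0
    · subst hn
      rw [h0]
      simp
    · have h1 : (p : ℤ) ^ (padicValNat p n + 0) ∣ PowerSeries.coeff n f := by
        by_cases hpn : p ∣ n
        · exact (pow_dvd_pow _ (by omega)).trans (hS n (Nat.one_le_iff_ne_zero.2 hn) hpn)
        · rw [padicValNat.eq_zero_of_not_dvd hpn]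
          simp
      have h2 := Cred_norm p hn h1
      simpa using h2
  have hlt : ∀ n : ℕ, p ∣ n → ‖((((PowerSeries.coeff n f : ℤ) : ℚ) / n : ℚ) : ℚ_[p])‖ < 1 := by
    intro n hpn
    by_cases hn : n = 0
    · subst hn
      rw [h0]
      simp
    · have h2 := Cred_norm p hn (hS n (Nat.one_le_iff_ne_zero.2 hn) hpn)
      refine h2.trans_lt ?_
      rw [Nat.cast_one, zpow_neg_one]
      exact inv_lt_one_of_one_lt₀ hp1
  obtain ⟨g, hg⟩ : ∃ g : ℕ → ℤ_[p], ∀ n, (g n : ℚ_[p]) =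
      ((((PowerSeries.coeff n f : ℤ) : ℚ) / n : ℚ) : ℚ_[p]) := ⟨fun n => ⟨_, hle n⟩, fun n => rfl⟩
  refine ⟨PowerSeries.mk g, ?_, ?_, ?_⟩
  · ext n
    rw [PowerSeries.coeff_map, PowerSeries.coeff_map, PowerSeries.coeff_mk, F1, PowerSeries.coeff_mk]
    exact hg n
  · ext n
    rw [coeff_Dq, PowerSeries.coeff_map, PowerSeries.coeff_map, PowerSeries.coeff_mk]
    have h1 : (n : ℤ_[p]) * g n = ((PowerSeries.coeff n f : ℤ) : ℤ_[p]) := by
      apply Subtype.ext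
      rw [PadicInt.coe_mul, PadicInt.coe_natCast, PadicInt.coe_intCast, hg]
      by_cases hn : n = 0
      · subst hn
        rw [h0]
        simp
      · have hn' : ((n : ℕ) : ℚ_[p]) ≠ 0 := Nat.cast_ne_zero.2 hn
        push_cast
        field_simp
    have h2 := congrArg (PadicInt.toZMod (p := p)) h1
    rw [map_mul, map_natCast, map_intCast] at h2
    exact h2
  · intro n hn
    rw [PowerSeries.coeff_map, PowerSeries.coeff_mk]
    have h1 : ‖g n‖ < 1 := by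
      rw [PadicInt.norm_def, hg]
      exact hlt n hn
    obtain ⟨y, hy⟩ := (PadicInt.norm_lt_one_iff_dvd _).1 h1
    rw [hy, map_mul, map_natCast, ZMod.natCast_self, zero_mul]

theorem exists_F1p_x (f : ℤ⟦X⟧) (h0 : PowerSeries.coeff 0 f = 0) (w : ℕ) (hw : 2 ≤ w)
    (p : ℕ) [hp : Fact p.Prime] (hpw : 2 * w + 2 < p) (hS : Sl2 f p)
    (hne : PowerSeries.map (Int.castRingHom (ZMod p)) f ≠ 0)
    (hMf : Mf p w (PowerSeries.map (Int.castRingHom (ZMod p)) f)) :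
    ∃ (G : ℤ_[p]⟦X⟧) (R1 R2 : Polynomial (ZMod p)),
      PowerSeries.map (PadicInt.Coe.ringHom (p := p)) G =
        PowerSeries.map (Rat.castHom ℚ_[p]) (F1 f) ∧
      R1.natDegree ≤ (2 * w - 2) * p ∧ R2.natDegree ≤ (2 * w - 2) * p ∧
      PowerSeries.map (PadicInt.toZMod (p := p)) G =
        U (ZMod p) ^ ((2 * w - 2) * p) * Polynomial.aeval (xx (ZMod p)) R1 ∧
      dbl (ZMod p) (PowerSeries.map (PadicInt.toZMod (p := p)) G) =
        U (ZMod p) ^ ((2 * w - 2) * p) * Polynomial.aeval (xx (ZMod p)) R2 := by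
  obtain ⟨G, hG1, hG2, hG3⟩ := exists_F1p f h0 p hS
  have h2 : p ≠ 2 := by omega
  have h3 := mp_lemma w hw hpw _ _ hne hMf hG2 hG3
  obtain ⟨R1, hd1, hR1⟩ := Mf_x h2 _ _ h3
  obtain ⟨R2, hd2, hR2⟩ := Mf_dbl_x h2 _ _ h3
  have e : 2 * (p * (w - 1)) = (2 * w - 2) * p := by
    obtain ⟨k, rfl⟩ := Nat.exists_eq_add_of_le hw
    have e1 : 2 + k - 1 = k + 1 := by omega
    have e2 : 2 * (2 + k) - 2 = 2 * (k + 1) := by omega
    rw [e1, e2]
    ring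
  rw [e] at hd1 hd2 hR1 hR2
  exact ⟨G, R1, R2, hG1, hd1, hd2, hR1, hR2⟩

end Pool.Agent.H85.OT

end S_OT_Cred

section S_OT_Cdvd

/-!
# Row CDVD (project OT): the leading coefficient of `Phi` is divisible by `p`

`p ∈ Sl2`, `p > 2w+2`, good; `κ = 2w-2`; `n + 2κpE < T'`; the coefficients `l < T'` of `Phi` vanish; `Z` an
integer, `Z * coeff T' Phi = m ∈ ℤ`.  Claim `p ∣ m`.

Take `G, R1, R2` from `exists_F1p_x`.  In `ℤ_[p]⟦X⟧` put
`Ψ = ∑_s C (t_s) * Up^(n+κ(2E-i-j)-e) * Vp^e * G^i * (dbl G)^j` with `Up, Vp` the images of `th3^2, th4^2`.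
Its image in `ℚ_[p]⟦X⟧` is the image of `Phi` (`map` commutes with `dbl`: compare coefficients), and
`ℤ_[p] → ℚ_[p]` is injective, so its coefficients `l < T'` vanish and `Z * coeff T' Ψ = m` in `ℤ_[p]`.
Its reduction mod `p` is, by `exists_F1p_x` and `V = x U` (`xx_mul_U`),
`Ψ_p = ∑ t_s U^(n+κ(2E-i-j)-e) (xU)^e (U^(κp) R1(x))^i (U^(κp) R2(x))^j`
`    = ∑ t_s U^(n + κ(2E-i-j) + κp(i+j)) x^e R1(x)^i R2(x)^j`.
Multiply the term by `1 = (U^(2m) h(λ))^(κ(2E-i-j))` (`hasse`, `2m = p-1`, `m = mm p`): the exponent of `U` becomes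
`n + κ(2E-i-j) + κp(i+j) + (p-1)κ(2E-i-j) = n + 2κEp =: W`, and `h(λ) = H(x)`, `H = (hh p)(1-X²)`, degree
`≤ p - 1`.  So `Ψ_p = U^W Q(x)`, `Q = ∑ t_s X^e R1^i R2^j H^(κ(2E-i-j))`, degree
`≤ n + κp(i+j) + (p-1)κ(2E-i-j) ≤ n + 2κEp = W`.
Coefficients `≤ W < T'` of `Ψ_p` vanish, so `Q = 0` by `ord_xx'`; hence `Ψ_p = 0`, in particular coefficient
`T'` of `Ψ` reduces to `0`, and so does `m = Z * coeff T' Ψ`, i.e. `(m : ZMod p) = 0`
(`map_intCast`; `ZMod.intCast_zmod_eq_zero_iff_dvd` or `ZMod.intCast_eq_zero_iff`), `p ∣ m`.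
-/

open PowerSeries

namespace Pool.Agent.H85.OT

theorem Cdvd_map_U {R S : Type*} [CommRing R] [CommRing S] (φ : R →+* S) :
    PowerSeries.map φ (U R) = U S := by
  ext n
  rw [PowerSeries.coeff_map, U, U, PowerSeries.coeff_map, PowerSeries.coeff_map, eq_intCast,
    eq_intCast, map_intCast]

theorem Cdvd_map_V {R S : Type*} [CommRing R] [CommRing S] (φ : R →+* S) :
    PowerSeries.map φ (V R) = V S := by
  ext n
  rw [PowerSeries.coeff_map, V, V, PowerSeries.coeff_map, PowerSeries.coeff_map, eq_intCast,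
    eq_intCast, map_intCast]

theorem Cdvd_map_dbl {R S : Type*} [CommRing R] [CommRing S] (φ : R →+* S) (G : R⟦X⟧) :
    PowerSeries.map φ (dbl R G) = dbl S (PowerSeries.map φ G) :=
  PowerSeries.map_expand 2 two_ne_zero φ G

/-- the combination of `Phi` over a general ring -/
noncomputable def Cdvd_Psi (R : Type*) [CommRing R] (G : R⟦X⟧) (κ E n : ℕ)
    (t : Fin E × Fin E × Fin (n + 1) → ℤ) : R⟦X⟧ :=
  ∑ s, PowerSeries.C ((t s : ℤ) : R) *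
    (U R ^ (n + κ * (2 * E - s.1 - s.2.1) - s.2.2) * V R ^ (s.2.2 : ℕ) *
      G ^ (s.1 : ℕ) * dbl R G ^ (s.2.1 : ℕ))

theorem Cdvd_Psi_map {R S : Type*} [CommRing R] [CommRing S] (φ : R →+* S) (G : R⟦X⟧)
    (κ E n : ℕ) (t : Fin E × Fin E × Fin (n + 1) → ℤ) :
    PowerSeries.map φ (Cdvd_Psi R G κ E n t) =
      Cdvd_Psi S (PowerSeries.map φ G) κ E n t := by
  unfold Cdvd_Psi
  rw [map_sum]
  refine Finset.sum_congr rfl fun s _ => ?_
  simp only [map_mul, map_pow, Cdvd_map_U, Cdvd_map_V, Cdvd_map_dbl,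
    map_intCast]

theorem Cdvd_Q {p : ℕ} [hp : Fact p.Prime] (h2 : p ≠ 2) (κ E n : ℕ)
    (t : Fin E × Fin E × Fin (n + 1) → ℤ) (G1 : (ZMod p)⟦X⟧) (R1 R2 : Polynomial (ZMod p))
    (hR1 : R1.natDegree ≤ κ * p) (hR2 : R2.natDegree ≤ κ * p)
    (hG1 : G1 = U (ZMod p) ^ (κ * p) * Polynomial.aeval (xx (ZMod p)) R1)
    (hG2 : dbl (ZMod p) G1 = U (ZMod p) ^ (κ * p) * Polynomial.aeval (xx (ZMod p)) R2) :
    ∃ Q : Polynomial (ZMod p), Q.natDegree ≤ n + 2 * κ * p * E ∧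
      Cdvd_Psi (ZMod p) G1 κ E n t =
        U (ZMod p) ^ (n + 2 * κ * p * E) * Polynomial.aeval (xx (ZMod p)) Q := by
  obtain ⟨H, hH⟩ : ∃ H : Polynomial (ZMod p), H = (hh p).comp (1 - Polynomial.X ^ 2) := ⟨_, rfl⟩
  have hm := two_mm hp.out h2
  have hHx : Polynomial.aeval (xx (ZMod p)) H = Polynomial.aeval (lam (ZMod p)) (hh p) := by
    rw [hH, Polynomial.aeval_comp, map_sub, map_one, map_pow, Polynomial.aeval_X]
    rfl
  have hHd : H.natDegree ≤ 2 * mm p := by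
    rw [hH]
    refine Polynomial.natDegree_comp_le.trans ?_
    have h1 : (1 - Polynomial.X ^ 2 : Polynomial (ZMod p)).natDegree ≤ 2 := by compute_degree
    calc (hh p).natDegree * (1 - Polynomial.X ^ 2 : Polynomial (ZMod p)).natDegree ≤ mm p * 2 :=
          Nat.mul_le_mul (hh_natDegree h2).le h1
      _ = 2 * mm p := mul_comm _ _
  have hU : U (ZMod p) ^ (2 * mm p) * Polynomial.aeval (xx (ZMod p)) H = 1 := by
    rw [hHx]
    exact hasse h2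
  -- exponents
  have key : ∀ s : Fin E × Fin E × Fin (n + 1), n + 2 * κ * p * E =
      (n + κ * (2 * E - s.1 - s.2.1)) + κ * p * s.1 + κ * p * s.2.1 +
        2 * mm p * (κ * (2 * E - s.1 - s.2.1)) := by
    intro s
    have hi := s.1.2
    have hj := s.2.1.2
    obtain ⟨d, hd⟩ : ∃ d, 2 * E = s.1 + s.2.1 + d := ⟨2 * E - s.1 - s.2.1, by omega⟩
    have hd' : 2 * E - s.1 - s.2.1 = d := by omega
    rw [hd']
    have e1 : 2 * κ * p * E = κ * p * (2 * E) := by ring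
    rw [e1, hd]
    calc n + κ * p * (s.1 + s.2.1 + d) = n + κ * p * s.1 + κ * p * s.2.1 + κ * d * p := by ring
      _ = n + κ * p * s.1 + κ * p * s.2.1 + κ * d * (2 * mm p + 1) := by rw [hm]
      _ = _ := by ring
  refine ⟨∑ s, Polynomial.C ((t s : ℤ) : ZMod p) * (Polynomial.X ^ (s.2.2 : ℕ) *
    R1 ^ (s.1 : ℕ) * R2 ^ (s.2.1 : ℕ) * H ^ (κ * (2 * E - s.1 - s.2.1))), ?_, ?_⟩
  · refine Polynomial.natDegree_sum_le_of_forall_le _ _ fun s _ => ?_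
    refine (Polynomial.natDegree_C_mul_le _ _).trans ?_
    have h1 : (Polynomial.X ^ (s.2.2 : ℕ) : Polynomial (ZMod p)).natDegree ≤ n := by
      rw [Polynomial.natDegree_X_pow]
      exact Nat.lt_succ_iff.1 s.2.2.2
    have h3 : (R1 ^ (s.1 : ℕ)).natDegree ≤ s.1 * (κ * p) :=
      Polynomial.natDegree_pow_le_of_le _ hR1
    have h4 : (R2 ^ (s.2.1 : ℕ)).natDegree ≤ s.2.1 * (κ * p) :=
      Polynomial.natDegree_pow_le_of_le _ hR2
    have h5 : (H ^ (κ * (2 * E - s.1 - s.2.1))).natDegree ≤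
        (κ * (2 * E - s.1 - s.2.1)) * (2 * mm p) :=
      Polynomial.natDegree_pow_le_of_le _ hHd
    have h6 := (Polynomial.natDegree_mul_le_of_le (Polynomial.natDegree_mul_le_of_le
      (Polynomial.natDegree_mul_le_of_le h1 h3) h4) h5)
    refine h6.trans ?_
    rw [key s]
    have e2 : (s.1 : ℕ) * (κ * p) = κ * p * s.1 := by ring
    have e3 : (s.2.1 : ℕ) * (κ * p) = κ * p * s.2.1 := by ring
    have e4 : (κ * (2 * E - s.1 - s.2.1)) * (2 * mm p) =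
      2 * mm p * (κ * (2 * E - s.1 - s.2.1)) := by ring
    rw [e2, e3, e4]
    omega
  · unfold Cdvd_Psi
    rw [hG2, hG1, map_sum, Finset.mul_sum]
    refine Finset.sum_congr rfl fun s _ => ?_
    rw [key s]
    have hi := s.1.2
    have hj := s.2.1.2
    have he : (s.2.2 : ℕ) ≤ n := Nat.lt_succ_iff.1 s.2.2.2
    obtain ⟨M, hM⟩ : ∃ M, M = κ * (2 * E - s.1 - s.2.1) := ⟨_, rfl⟩
    rw [← hM]
    obtain ⟨a, ha⟩ : ∃ a, n + M = a + s.2.2 := ⟨n + M - s.2.2, by omega⟩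
    have ha' : n + M - s.2.2 = a := by omega
    rw [ha', ha]
    simp only [map_mul, map_pow, Polynomial.aeval_X, Polynomial.aeval_C]
    rw [← xx_mul_U (ZMod p)]
    have hUM : U (ZMod p) ^ (2 * mm p * M) * Polynomial.aeval (xx (ZMod p)) H ^ M = 1 := by
      rw [pow_mul, ← mul_pow, hU, one_pow]
    have hC : algebraMap (ZMod p) (ZMod p)⟦X⟧ ((t s : ℤ) : ZMod p) =
      PowerSeries.C ((t s : ℤ) : ZMod p) := rfl
    rw [hC, pow_add, pow_add, pow_add, pow_mul (U (ZMod p)) (κ * p) (s.1 : ℕ),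
      pow_mul (U (ZMod p)) (κ * p) (s.2.1 : ℕ)]
    simp only [mul_pow]
    linear_combination (-(PowerSeries.C ((t s : ℤ) : ZMod p) * (U (ZMod p) ^ a *
      (xx (ZMod p) ^ (s.2.2 : ℕ) * U (ZMod p) ^ (s.2.2 : ℕ)) *
      ((U (ZMod p) ^ (κ * p)) ^ (s.1 : ℕ) * Polynomial.aeval (xx (ZMod p)) R1 ^ (s.1 : ℕ)) *
      ((U (ZMod p) ^ (κ * p)) ^ (s.2.1 : ℕ) *
        Polynomial.aeval (xx (ZMod p)) R2 ^ (s.2.1 : ℕ))))) * hUM

theorem p_dvd (f : ℤ⟦X⟧) (h0 : PowerSeries.coeff 0 f = 0) (w : ℕ) (hw : 2 ≤ w)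
    (p : ℕ) [hp : Fact p.Prime] (hpw : 2 * w + 2 < p) (hS : Sl2 f p)
    (hne : PowerSeries.map (Int.castRingHom (ZMod p)) f ≠ 0)
    (hMf : Mf p w (PowerSeries.map (Int.castRingHom (ZMod p)) f))
    (E n T' : ℕ) (t : Fin E × Fin E × Fin (n + 1) → ℤ)
    (hT : n + 2 * (2 * w - 2) * p * E < T')
    (hvan : ∀ l < T', PowerSeries.coeff l (Phi f (2 * w - 2) E n t) = 0)
    (Z m : ℤ) (hm : (Z : ℚ) * PowerSeries.coeff T' (Phi f (2 * w - 2) E n t) = m) :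
    (p : ℤ) ∣ m := by
  have h2 : p ≠ 2 := by omega
  obtain ⟨G, R1, R2, hG, hR1, hR2, hG1, hG2⟩ := exists_F1p_x f h0 w hw p hpw hS hne hMf
  obtain ⟨κ, hκ⟩ : ∃ κ, κ = 2 * w - 2 := ⟨_, rfl⟩
  rw [← hκ] at hT hvan hm hR1 hR2 hG1 hG2
  have e1 : PowerSeries.map (PadicInt.Coe.ringHom (p := p)) (Cdvd_Psi ℤ_[p] G κ E n t) =
      PowerSeries.map (Rat.castHom ℚ_[p]) (Phi f κ E n t) := by
    have e0 : Phi f κ E n t = Cdvd_Psi ℚ (F1 f) κ E n t := rfl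
    rw [Cdvd_Psi_map, hG, ← Cdvd_Psi_map, e0]
  have e2 : ∀ l, PadicInt.Coe.ringHom (p := p)
      (PowerSeries.coeff l (Cdvd_Psi ℤ_[p] G κ E n t)) =
      Rat.castHom ℚ_[p] (PowerSeries.coeff l (Phi f κ E n t)) := fun l => by
    rw [← PowerSeries.coeff_map, e1, PowerSeries.coeff_map]
  have hinj : Function.Injective (PadicInt.Coe.ringHom (p := p)) := Subtype.coe_injective
  have hvan' : ∀ l < T', PowerSeries.coeff l (Cdvd_Psi ℤ_[p] G κ E n t) = 0 := fun l hl => by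
    apply hinj
    rw [e2, hvan l hl, map_zero, map_zero]
  have hm' : (Z : ℤ_[p]) * PowerSeries.coeff T' (Cdvd_Psi ℤ_[p] G κ E n t) = (m : ℤ_[p]) := by
    apply hinj
    rw [map_mul, e2, map_intCast, map_intCast]
    have h3 := congrArg (Rat.castHom ℚ_[p]) hm
    rw [map_mul, map_intCast, map_intCast] at h3
    exact h3
  have e3 : PowerSeries.map (PadicInt.toZMod (p := p)) (Cdvd_Psi ℤ_[p] G κ E n t) =
      Cdvd_Psi (ZMod p) (PowerSeries.map (PadicInt.toZMod (p := p)) G) κ E n t :=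
    Cdvd_Psi_map _ _ _ _ _ _
  obtain ⟨Q, hQd, hQ⟩ := Cdvd_Q h2 κ E n t _ R1 R2 hR1 hR2 hG1 hG2
  rw [← e3] at hQ
  have hQ0 : Q = 0 := by
    refine ord_xx' (two_ne h2) (n + 2 * κ * p * E) Q _ hQd fun l hl => ?_
    rw [← hQ, PowerSeries.coeff_map, hvan' l (by omega), map_zero]
  have e5 : PadicInt.toZMod (p := p) (PowerSeries.coeff T' (Cdvd_Psi ℤ_[p] G κ E n t)) = 0 := by
    rw [← PowerSeries.coeff_map, hQ, hQ0, map_zero, mul_zero, map_zero]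
  have e6 : (m : ZMod p) = 0 := by
    have h3 := congrArg (PadicInt.toZMod (p := p)) hm'
    rw [map_mul, e5, mul_zero, map_intCast] at h3
    exact h3.symm
  exact (ZMod.intCast_zmod_eq_zero_iff_dvd m p).1 e6

end Pool.Agent.H85.OT

end S_OT_Cdvd

section S_OU_ILc

/-!
# Row ILC (project OU): the leading coefficient of `PhiL` is divisible by `p`

Same scheme as `OT/Cdvd.lean` and `OT/Cred.lean` (`exists_F1p`: `G ∈ ℤ_[p]⟦X⟧` with coefficients `a_n/n`, reduction `G1` with `G1_n = 0` for `p ∣ n`, `D G1 = f mod p`).  `κ = k - 2`, `c2 = 3c + 1 + k`.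
1. `mp_gen` (`MPg.lean`) for `(f mod p, G1)` and for `(2 dbl f mod p, dbl G1)` (`D (dbl G1) = 2 dbl (D G1)`, coefficients of `dbl G1` at multiples of `p` vanish as `p` is odd; `2 dbl f U^(-k) ∈ SPn e c`):
   `G1 = U^(κp) H1`, `dbl G1 = U^(κp) H2`, `H_i ∈ SP e`, `IsDeg (c2 p) H_i`.
2. In `ℤ_[p]⟦X⟧` put `Ψ = ∑_s C (t_s) Up^(2n-2e+κ(2L-i-j)) (Up² - Vp²)^e G^i (dbl G)^j`; its image in `ℚ_[p]⟦X⟧` is the image of `PhiL`, so its coefficients `l < T'` vanish and `Z coeff T' Ψ = m`.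
3. Its reduction: `U² - V² = U² λ`; multiply the term `s` by `1 = (U^(p-1) h(λ))^(κ(2L-i-j))` (`hasse`): total exponent of `U`
   `2n + κ(2L-i-j) + κp(i+j) + (p-1)κ(2L-i-j) = 2n + 2κLp =: W`, so `Ψ_p = U^W Y`, `Y = ∑_s t_s λ^e h(λ)^(κ(2L-i-j)) H1^i H2^j ∈ SP e` (`SP_mul`, `SP_evl_mul`, `SP_add`).
   Degree: `IsDeg (e + mm p κ (2L-i-j) + c2 p (i+j)) `, and this is `≤ n + 2L(κ+c2)p =: N`.
4. The coefficients `l < T'` of `Y = U^(-W) Ψ_p` vanish and `N r < T'`, so `Y = 0` by `order_le`; so `Ψ_p = 0`, coefficient `T'` of `Ψ` is divisible by `p`, hence `p ∣ m`.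
-/

open PowerSeries
open Pool.Agent.H85.OT

namespace Pool.Agent.H85.OU

/-- the combination `PhiL` over a general ring -/
noncomputable def ILc_Psi (R : Type*) [CommRing R] (G : R⟦X⟧) (κ L n : ℕ)
    (t : Fin L × Fin L × Fin (n + 1) → ℤ) : R⟦X⟧ :=
  ∑ s, PowerSeries.C ((t s : ℤ) : R) *
    (U R ^ (2 * n - 2 * (s.2.2 : ℕ) + κ * (2 * L - s.1 - s.2.1)) *
      (U R ^ 2 - V R ^ 2) ^ (s.2.2 : ℕ) * G ^ (s.1 : ℕ) * dbl R G ^ (s.2.1 : ℕ))

theorem ILc_Psi_map {R S : Type*} [CommRing R] [CommRing S] (φ : R →+* S) (G : R⟦X⟧)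
    (κ L n : ℕ) (t : Fin L × Fin L × Fin (n + 1) → ℤ) :
    PowerSeries.map φ (ILc_Psi R G κ L n t) =
      ILc_Psi S (PowerSeries.map φ G) κ L n t := by
  unfold ILc_Psi
  rw [map_sum]
  refine Finset.sum_congr rfl fun s _ => ?_
  simp only [map_mul, map_pow, map_sub, Cdvd_map_U, Cdvd_map_V, Cdvd_map_dbl,
    map_intCast]

theorem ILc_dbl {R : Type*} [CommRing R] (F : R⟦X⟧) (n : ℕ) : PowerSeries.coeff n (dbl R F) =
    if 2 ∣ n then PowerSeries.coeff (n / 2) F else 0 := by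
  unfold dbl
  exact PowerSeries.coeff_expand _ _ _

theorem ILc_Ddbl {K : Type*} [Field K] (F : K⟦X⟧) : Dq K (dbl K F) = 2 * dbl K (Dq K F) := by
  ext n
  have h2 : (2 : K⟦X⟧) = PowerSeries.C (2 : K) := (map_ofNat PowerSeries.C 2).symm
  rw [coeff_Dq, h2, PowerSeries.coeff_C_mul, ILc_dbl, ILc_dbl]
  split_ifs with h
  · obtain ⟨m, rfl⟩ := h
    rw [coeff_Dq, Nat.mul_div_cancel_left m (by norm_num)]
    push_cast
    ring
  · ring

theorem ILc_dbl_zero {p : ℕ} (hp : p.Prime) (hp2 : p ≠ 2) {K : Type*} [Field K] (F : K⟦X⟧)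
    (h : ∀ n, p ∣ n → PowerSeries.coeff n F = 0) (n : ℕ) (hn : p ∣ n) :
    PowerSeries.coeff n (dbl K F) = 0 := by
  rw [ILc_dbl]
  split_ifs with h2
  · obtain ⟨m, rfl⟩ := h2
    rw [Nat.mul_div_cancel_left m (by norm_num)]
    refine h m ?_
    rcases (Nat.Prime.dvd_mul hp).1 hn with h3 | h3
    · exact absurd ((Nat.prime_dvd_prime_iff_eq hp Nat.prime_two).1 h3) hp2
    · exact h3
  · rfl

theorem ILc_SP_pow {K : Type*} [Field K] {r : ℕ} {e : Fin r → K⟦X⟧} (h1 : (1 : K⟦X⟧) ∈ SP K e)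
    (hm : ∀ l l', e l * e l' ∈ SP K e) {y : K⟦X⟧} (hy : y ∈ SP K e) (i : ℕ) : y ^ i ∈ SP K e := by
  induction i with
  | zero => rw [pow_zero]; exact h1
  | succ i ih => rw [pow_succ]; exact SP_mul hm ih hy

theorem ILc_Y {p : ℕ} [hp : Fact p.Prime] (h2 : p ≠ 2) (κ L n c2 : ℕ)
    (t : Fin L × Fin L × Fin (n + 1) → ℤ) {r c : ℕ} (e : Fin r → (ZMod p)⟦X⟧)
    (hR : RD (ZMod p) r c e) (G1 H1 H2 : (ZMod p)⟦X⟧)
    (hH1 : H1 ∈ SP (ZMod p) e) (hH2 : H2 ∈ SP (ZMod p) e)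
    (hd1 : IsDeg (ZMod p) (c2 * p) H1) (hd2 : IsDeg (ZMod p) (c2 * p) H2)
    (hG1 : G1 = U (ZMod p) ^ (κ * p) * H1)
    (hG2 : dbl (ZMod p) G1 = U (ZMod p) ^ (κ * p) * H2) :
    ∃ Y ∈ SP (ZMod p) e, IsDeg (ZMod p) (n + 2 * L * (κ + c2) * p) Y ∧
      ILc_Psi (ZMod p) G1 κ L n t = U (ZMod p) ^ (2 * n + 2 * κ * p * L) * Y := by
  have hm := two_mm hp.out h2
  have hU : U (ZMod p) ^ (2 * mm p) * evl (ZMod p) (hh p) = 1 := hasse h2
  refine ⟨∑ s : Fin L × Fin L × Fin (n + 1), evl (ZMod p) (Polynomial.C ((t s : ℤ) : ZMod p) *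
      (Polynomial.X ^ (s.2.2 : ℕ) * hh p ^ (κ * (2 * L - s.1 - s.2.1)))) *
      (H1 ^ (s.1 : ℕ) * H2 ^ (s.2.1 : ℕ)), ?_, ?_, ?_⟩
  · refine ID2_SP_sum _ _ fun s _ => ?_
    exact SP_evl_mul _ (SP_mul hR.mul (ILc_SP_pow hR.one hR.mul hH1 _) (ILc_SP_pow hR.one hR.mul hH2 _))
  · refine IsDeg.sum _ _ fun s _ => ?_
    have hi := s.1.2
    have hj := s.2.1.2
    have he : (s.2.2 : ℕ) ≤ n := Nat.lt_succ_iff.1 s.2.2.2
    obtain ⟨M, hM⟩ : ∃ M, M = 2 * L - s.1 - s.2.1 := ⟨_, rfl⟩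
    have hM2 : (s.1 : ℕ) + s.2.1 + M = 2 * L := by omega
    rw [← hM]
    have h1 : (Polynomial.C ((t s : ℤ) : ZMod p) *
      (Polynomial.X ^ (s.2.2 : ℕ) * hh p ^ (κ * M))).natDegree ≤ n + (κ * M) * mm p := by
      refine (Polynomial.natDegree_C_mul_le _ _).trans ?_
      refine Polynomial.natDegree_mul_le_of_le ?_ ?_
      · rw [Polynomial.natDegree_X_pow]
        exact he
      · exact Polynomial.natDegree_pow_le_of_le _ (hh_natDegree h2).le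
    have h3 := (IsDeg.of_evl _ h1).mul ((hd1.pow (s.1 : ℕ)).mul (hd2.pow (s.2.1 : ℕ)))
    refine h3.mono ?_
    have hmp : mm p ≤ p := by omega
    have e1 : κ * M * mm p ≤ κ * M * p := Nat.mul_le_mul le_rfl hmp
    have e2 : 2 * L * (κ + c2) * p = κ * M * p + (κ * (s.1 + s.2.1) * p + (c2 * p * s.1 + c2 * p * s.2.1) + c2 * M * p) := by
      rw [← hM2]; ring
    rw [e2]
    omega
  · have key : ∀ s : Fin L × Fin L × Fin (n + 1), 2 * n + 2 * κ * p * L =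
        (2 * n - 2 * (s.2.2 : ℕ) + κ * (2 * L - s.1 - s.2.1)) + 2 * (s.2.2 : ℕ) + κ * p * s.1 + κ * p * s.2.1 +
          2 * mm p * (κ * (2 * L - s.1 - s.2.1)) := by
      intro s
      have hi := s.1.2
      have hj := s.2.1.2
      have he : (s.2.2 : ℕ) ≤ n := Nat.lt_succ_iff.1 s.2.2.2
      obtain ⟨d, hd⟩ : ∃ d, 2 * L = s.1 + s.2.1 + d := ⟨2 * L - s.1 - s.2.1, by omega⟩
      have hd' : 2 * L - s.1 - s.2.1 = d := by omega
      rw [hd']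
      have e0 : 2 * n - 2 * (s.2.2 : ℕ) + κ * d + 2 * (s.2.2 : ℕ) = 2 * n + κ * d := by omega
      rw [e0]
      have e1 : 2 * κ * p * L = κ * p * (2 * L) := by ring
      rw [e1, hd]
      calc 2 * n + κ * p * (s.1 + s.2.1 + d) = 2 * n + κ * p * s.1 + κ * p * s.2.1 + κ * d * p := by ring
        _ = 2 * n + κ * p * s.1 + κ * p * s.2.1 + κ * d * (2 * mm p + 1) := by rw [hm]
        _ = _ := by ring
    unfold ILc_Psi
    rw [hG2, hG1, Finset.mul_sum]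
    refine Finset.sum_congr rfl fun s _ => ?_
    rw [key s]
    obtain ⟨M, hM⟩ : ∃ M, M = κ * (2 * L - s.1 - s.2.1) := ⟨_, rfl⟩
    rw [← hM]
    obtain ⟨a, ha⟩ : ∃ a, a = 2 * n - 2 * (s.2.2 : ℕ) + M := ⟨_, rfl⟩
    rw [← ha]
    have hV : U (ZMod p) ^ 2 - V (ZMod p) ^ 2 = U (ZMod p) ^ 2 * lam (ZMod p) := by
      rw [← xx_mul_U (ZMod p)]
      unfold lam
      ring
    rw [hV]
    simp only [map_mul, map_pow, Polynomial.aeval_X, Polynomial.aeval_C]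
    have hUM : U (ZMod p) ^ (2 * mm p * M) * (evl (ZMod p) (hh p)) ^ M = 1 := by
      rw [pow_mul, ← mul_pow, hU, one_pow]
    have hC : algebraMap (ZMod p) (ZMod p)⟦X⟧ ((t s : ℤ) : ZMod p) =
      PowerSeries.C ((t s : ℤ) : ZMod p) := rfl
    rw [hC, pow_add, pow_add, pow_add, pow_add, pow_mul (U (ZMod p)) (κ * p) (s.1 : ℕ),
      pow_mul (U (ZMod p)) (κ * p) (s.2.1 : ℕ), pow_mul (U (ZMod p)) 2 (s.2.2 : ℕ)]
    simp only [mul_pow]
    linear_combination (-(PowerSeries.C ((t s : ℤ) : ZMod p) * (U (ZMod p) ^ a *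
      ((U (ZMod p) ^ 2) ^ (s.2.2 : ℕ) * lam (ZMod p) ^ (s.2.2 : ℕ)) *
      ((U (ZMod p) ^ (κ * p)) ^ (s.1 : ℕ) * H1 ^ (s.1 : ℕ)) *
      ((U (ZMod p) ^ (κ * p)) ^ (s.2.1 : ℕ) * H2 ^ (s.2.1 : ℕ))))) * hUM

theorem p_dvdL (f : ℤ⟦X⟧) (h0 : PowerSeries.coeff 0 f = 0) (k : ℕ) (hk : 3 ≤ k)
    (p : ℕ) [hp : Fact p.Prime] (hp2 : p ≠ 2) (hkp : k < p) (hS : Sl2 f p)
    {r c : ℕ} (e : Fin r → (ZMod p)⟦X⟧) (hR : RD (ZMod p) r c e)
    (hf1 : PowerSeries.map (Int.castRingHom (ZMod p)) f * (U (ZMod p))⁻¹ ^ k ∈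
      SPn (ZMod p) e c)
    (hf2 : dbl (ZMod p) (PowerSeries.map (Int.castRingHom (ZMod p)) f) * (U (ZMod p))⁻¹ ^ k ∈
      SPn (ZMod p) e c)
    (L n T' : ℕ) (t : Fin L × Fin L × Fin (n + 1) → ℤ)
    (hT : r * (n + 2 * L * ((k - 2) + (3 * c + 1 + k)) * p) < T')
    (hvan : ∀ l < T', PowerSeries.coeff l (PhiL f (k - 2) L n t) = 0)
    (Z m : ℤ) (hm : (Z : ℚ) * PowerSeries.coeff T' (PhiL f (k - 2) L n t) = m) :
    (p : ℤ) ∣ m := by
  obtain ⟨G, hG1, hG2, hG3⟩ := exists_F1p f h0 p hS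
  obtain ⟨G1, hG1d⟩ : ∃ G1, G1 = PowerSeries.map (PadicInt.toZMod (p := p)) G := ⟨_, rfl⟩
  rw [← hG1d] at hG2
  simp only [← hG1d] at hG3
  obtain ⟨H1, hH1, hH1U, hH1d⟩ := mp_gen p hp2 e hR k hk hkp _ G1 hf1 hG2 hG3
  have hf2' : 2 * dbl (ZMod p) (PowerSeries.map (Int.castRingHom (ZMod p)) f) * (U (ZMod p))⁻¹ ^ k ∈
      SPn (ZMod p) e c := by
    have h1 := MPg_evl_mul (d := 0) (Polynomial.C (2 : ZMod p)) (by rw [Polynomial.natDegree_C]) hf2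
    have h2 : evl (ZMod p) (Polynomial.C (2 : ZMod p)) = 2 := by
      rw [evl, Polynomial.aeval_C, map_ofNat]
    rw [h2, add_zero, ← mul_assoc] at h1
    exact h1
  have hDd : Dq (ZMod p) (dbl (ZMod p) G1) =
      2 * dbl (ZMod p) (PowerSeries.map (Int.castRingHom (ZMod p)) f) := by
    rw [ILc_Ddbl, hG2]
  obtain ⟨H2, hH2, hH2U, hH2d⟩ := mp_gen p hp2 e hR k hk hkp _ (dbl (ZMod p) G1) hf2' hDd
    (ILc_dbl_zero hp.out hp2 G1 hG3)
  obtain ⟨κ, hκ⟩ : ∃ κ, κ = k - 2 := ⟨_, rfl⟩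
  obtain ⟨c2, hc2⟩ : ∃ c2, c2 = 3 * c + 1 + k := ⟨_, rfl⟩
  rw [← hκ, ← hc2] at hT
  rw [← hκ] at hvan hm hH1U hH2U
  rw [← hc2] at hH1d hH2d
  have e1 : PowerSeries.map (PadicInt.Coe.ringHom (p := p)) (ILc_Psi ℤ_[p] G κ L n t) =
      PowerSeries.map (Rat.castHom ℚ_[p]) (PhiL f κ L n t) := by
    have e0 : PhiL f κ L n t = ILc_Psi ℚ (F1 f) κ L n t := rfl
    rw [ILc_Psi_map, hG1, ← ILc_Psi_map, e0]
  have e2 : ∀ l, PadicInt.Coe.ringHom (p := p)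
      (PowerSeries.coeff l (ILc_Psi ℤ_[p] G κ L n t)) =
      Rat.castHom ℚ_[p] (PowerSeries.coeff l (PhiL f κ L n t)) := fun l => by
    rw [← PowerSeries.coeff_map, e1, PowerSeries.coeff_map]
  have hinj : Function.Injective (PadicInt.Coe.ringHom (p := p)) := Subtype.coe_injective
  have hvan' : ∀ l < T', PowerSeries.coeff l (ILc_Psi ℤ_[p] G κ L n t) = 0 := fun l hl => by
    apply hinj
    rw [e2, hvan l hl, map_zero, map_zero]
  have hm' : (Z : ℤ_[p]) * PowerSeries.coeff T' (ILc_Psi ℤ_[p] G κ L n t) = (m : ℤ_[p]) := by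
    apply hinj
    rw [map_mul, e2, map_intCast, map_intCast]
    have h3 := congrArg (Rat.castHom ℚ_[p]) hm
    rw [map_mul, map_intCast, map_intCast] at h3
    exact h3
  have e3 : PowerSeries.map (PadicInt.toZMod (p := p)) (ILc_Psi ℤ_[p] G κ L n t) =
      ILc_Psi (ZMod p) G1 κ L n t := by
    rw [hG1d]
    exact ILc_Psi_map _ _ _ _ _ _
  obtain ⟨Y, hYS, hYd, hY⟩ := ILc_Y hp2 κ L n c2 t e hR G1 H1 H2 hH1 hH2 hH1d hH2d hH1U hH2U
  have hY0 : Y = 0 := by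
    by_contra hne
    obtain ⟨l, hl, hlY⟩ := order_le (two_ne hp2) hR.one hR.mul hne hYS hYd
    apply hlY
    have hlT : l < T' := by
      refine lt_of_le_of_lt hl ?_
      rw [mul_comm]
      exact hT
    have h5 : Y = (U (ZMod p))⁻¹ ^ (2 * n + 2 * κ * p * L) * ILc_Psi (ZMod p) G1 κ L n t := by
      rw [hY, ← mul_assoc, ← mul_pow, mul_comm (U (ZMod p))⁻¹, U_mul_inv, one_pow, one_mul]
    rw [h5, PowerSeries.coeff_mul]
    refine Finset.sum_eq_zero fun q hq => ?_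
    have hq' := Finset.HasAntidiagonal.mem_antidiagonal.1 hq
    have h6 : PowerSeries.coeff q.2 (ILc_Psi (ZMod p) G1 κ L n t) = 0 := by
      rw [← e3, PowerSeries.coeff_map, hvan' q.2 (by omega), map_zero]
    rw [h6, mul_zero]
  have e5 : PadicInt.toZMod (p := p) (PowerSeries.coeff T' (ILc_Psi ℤ_[p] G κ L n t)) = 0 := by
    rw [← PowerSeries.coeff_map, e3, hY, hY0, mul_zero, map_zero]
  have e6 : (m : ZMod p) = 0 := by
    have h3 := congrArg (PadicInt.toZMod (p := p)) hm'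
    rw [map_mul, e5, mul_zero, map_intCast] at h3
    exact h3.symm
  exact (ZMod.intCast_zmod_eq_zero_iff_dvd m p).1 e6

end Pool.Agent.H85.OU

end S_OU_ILc

section S_OU_Cnv

/-!
# Row CNV (project OU): elements of a level datum over `ℚ` converge in the unit disc

`Bd ρ B g`: all partial sums of `∑ |g_n| ρ^n` are `≤ B` (`OT/CDef.lean`, calculus in `OT/Cbd.lean`).
1. `U⁻¹` and `λ`.  `th3 · th4 = (dbl th4)²` (`dbl_th4_sq`).  Let `I3 = th3⁻¹, I4 = th4⁻¹` in `ℚ⟦X⟧`; inverting, `I3 I4 = (dbl I4)²`, so `I3 = th4 · (dbl I4)²`; the coefficients of `I4` are those of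
   `I3` up to sign (`th4(q) = th3(-q)`: `PowerSeries.rescale (-1)` / `evalNegHom`).  If `I3` is bounded (`∃ B, Bd`) at `ρ²` then `dbl I4` is bounded at `ρ`, hence `I3` is bounded at `ρ` (`Bd.mul`,
   `Cbd_bq4`).  And `I3` is bounded for `ρ ≤ 1/8`: `th3 = 1 - W`, `∑ |W_n| ρ^n ≤ 2ρ/(1-ρ) ≤ 1/2`, `I3 = 1 + W I3`, so the partial sums `s_N` of `∑ |I3_n| ρ^n` satisfy `s_N ≤ 1 + s_N/2`.
   For `ρ < 1` choose `j` with `ρ^(2^j) ≤ 1/8` and take square roots `j` times.  So `U⁻¹ = I3²`, `x = V U⁻¹`, `λ = 1 - x²` and all `P(λ)` are bounded for every `ρ < 1`.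
2. `LD ℚ r e`: `δ e_l = ∑ p_(l l')(λ) e_l'`, so `D e_l = ∑ M_(l l') e_l'`, `M_(l l') = U² p_(l l')(λ)`, `Bd` for every `ρ < 1`.  Coefficients: `n e_(l,n) = ∑_(l') ∑_(i+j = n) M_(l l'),i e_(l',j)`.
   Let `|e|_n = ∑_l |e_(l,n)|`, `μ_i = ∑_(l,l') |M_(l l'),i|`; `n |e|_n ≤ ∑_(i+j=n) μ_i |e|_j`.  For `n ≥ 2 μ_0`: `|e|_n ≤ (2/n) ∑_(i ≥ 1) μ_i |e|_(n-i)`.  Fix `ρ < 1`, `μ_i ≤ C ρ^(-i)`, and
   `θ > 1`.  Put `E_n = |e|_n ρ^n`: `E_n ≤ (2C/n) ∑_(j<n) E_j`.  With `E_j ≤ C' θ^j` for `j < n`: `E_n ≤ (2C/n) C' θ^n/(θ-1) ≤ C' θ^n` when `n ≥ 2C/(θ-1)`.  So for suitable `C'`,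
   `E_n ≤ C' θ^n` for all `n`, `|e|_n ≤ C' (θ/ρ)^n`.  Given `ρ' < 1`, take `ρ = (1+ρ')/2`.. and `θ` with `θ ρ'/ρ < 1`: `∑ |e|_n ρ'^n` converges.
3. `y = ∑ p_l(λ) e_l`.
-/

open PowerSeries
open Pool.Agent.H85.OT

namespace Pool.Agent.H85.OU

theorem Cnv_neg {ρ B : ℝ} {g : ℚ⟦X⟧} (hg : Bd ρ B g) : Bd ρ B (-g) := by
  intro N
  refine le_trans (le_of_eq (Finset.sum_congr rfl fun n _ => ?_)) (hg N)
  rw [map_neg, Rat.cast_neg, abs_neg]

theorem Cnv_dbl {ρ B : ℝ} (hρ : 0 < ρ) {g : ℚ⟦X⟧} (hg : Bd (ρ ^ 2) B g) : Bd ρ B (dbl ℚ g) := by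
  intro N
  have h2 : ∀ m, |((PowerSeries.coeff m (dbl ℚ g) : ℚ) : ℝ)| =
      if 2 ∣ m then |((PowerSeries.coeff (m / 2) g : ℚ) : ℝ)| else 0 := by
    intro m
    unfold dbl
    rw [PowerSeries.coeff_expand]
    split_ifs
    · rfl
    · simp
  simp only [h2]
  calc ∑ n ∈ Finset.range N, (if 2 ∣ n then |((PowerSeries.coeff (n / 2) g : ℚ) : ℝ)| else 0) * ρ ^ n
      ≤ ∑ m ∈ Finset.range (2 * N), (if 2 ∣ m then |((PowerSeries.coeff (m / 2) g : ℚ) : ℝ)| else 0) *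
          ρ ^ m := by
        refine Finset.sum_le_sum_of_subset_of_nonneg (Finset.range_mono (by omega)) fun m _ _ => ?_
        refine mul_nonneg ?_ (by positivity)
        split_ifs
        · exact abs_nonneg _
        · exact le_rfl
    _ = ∑ n ∈ Finset.range N, |((PowerSeries.coeff n g : ℚ) : ℝ)| * ρ ^ (2 * n) :=
        Cbd_even N (fun n => |((PowerSeries.coeff n g : ℚ) : ℝ)|) ρ
    _ = ∑ n ∈ Finset.range N, |((PowerSeries.coeff n g : ℚ) : ℝ)| * (ρ ^ 2) ^ n := by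
        refine Finset.sum_congr rfl fun n _ => ?_
        rw [pow_mul]
    _ ≤ B := hg N

theorem Cnv_c3 : PowerSeries.constantCoeff Cbd_q3 = 1 := by
  rw [Cbd_q3, ← PowerSeries.coeff_zero_eq_constantCoeff_apply, PowerSeries.coeff_map,
    PowerSeries.coeff_zero_eq_constantCoeff_apply, fld_c3, map_one]

theorem Cnv_c4 : PowerSeries.constantCoeff Cbd_q4 = 1 := by
  rw [Cbd_q4, ← PowerSeries.coeff_zero_eq_constantCoeff_apply, PowerSeries.coeff_map,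
    PowerSeries.coeff_zero_eq_constantCoeff_apply, fld_c4, map_one]

theorem Cnv_m3 : Cbd_q3 * Cbd_q3⁻¹ = 1 := by
  refine PowerSeries.mul_inv_cancel _ ?_
  rw [Cnv_c3]
  exact one_ne_zero

theorem Cnv_m4 : Cbd_q4 * Cbd_q4⁻¹ = 1 := by
  refine PowerSeries.mul_inv_cancel _ ?_
  rw [Cnv_c4]
  exact one_ne_zero

theorem Cnv_uniq {a b c : ℚ⟦X⟧} (hb : a * b = 1) (hc : a * c = 1) : b = c := by
  calc b = b * (a * c) := by rw [hc, mul_one]
    _ = (a * b) * c := by ring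
    _ = c := by rw [hb, one_mul]

theorem Cnv_dup : Cbd_q3⁻¹ = Cbd_q4 * (dbl ℚ Cbd_q4⁻¹) ^ 2 := by
  refine Cnv_uniq Cnv_m3 ?_
  have h1 : (dbl ℚ Cbd_q4) ^ 2 = Cbd_q3 * Cbd_q4 := by
    have h := congrArg (PowerSeries.map (Int.castRingHom ℚ)) dbl_th4_sq
    rw [map_pow, fld_map_dbl, map_mul] at h
    exact h
  have h2 : dbl ℚ Cbd_q4 * dbl ℚ Cbd_q4⁻¹ = 1 := by
    rw [← map_mul, Cnv_m4, map_one]
  calc Cbd_q3 * (Cbd_q4 * (dbl ℚ Cbd_q4⁻¹) ^ 2) = (Cbd_q3 * Cbd_q4) * (dbl ℚ Cbd_q4⁻¹) ^ 2 := by ring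
    _ = (dbl ℚ Cbd_q4 * dbl ℚ Cbd_q4⁻¹) ^ 2 := by rw [← h1]; ring
    _ = 1 := by rw [h2, one_pow]

theorem Cnv_resc : Cbd_q4⁻¹ = PowerSeries.rescale (-1 : ℚ) Cbd_q3⁻¹ := by
  refine Cnv_uniq Cnv_m4 ?_
  have h1 : Cbd_q4 = PowerSeries.rescale (-1 : ℚ) Cbd_q3 := by
    ext n
    unfold Cbd_q4 Cbd_q3 th4
    rw [PowerSeries.coeff_rescale, PowerSeries.coeff_map, PowerSeries.coeff_map, PowerSeries.coeff_mk]
    simp
  rw [h1, ← map_mul, Cnv_m3, map_one]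

theorem Cnv_4of3 {ρ B : ℝ} (h : Bd ρ B Cbd_q3⁻¹) : Bd ρ B Cbd_q4⁻¹ := by
  intro N
  refine le_trans (le_of_eq (Finset.sum_congr rfl fun n _ => ?_)) (h N)
  rw [Cnv_resc, PowerSeries.coeff_rescale, Rat.cast_mul, abs_mul]
  have : |(((-1 : ℚ) ^ n : ℚ) : ℝ)| = 1 := by
    push_cast
    rw [abs_pow, abs_neg, abs_one, one_pow]
  rw [this, one_mul]

theorem Cnv_step {ρ : ℝ} (hρ : 0 < ρ) (hρ1 : ρ < 1) (h : ∃ B, Bd (ρ ^ 2) B Cbd_q3⁻¹) :
    ∃ B, Bd ρ B Cbd_q3⁻¹ := by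
  obtain ⟨B, hB⟩ := h
  rw [Cnv_dup]
  exact ⟨_, (Cbd_bq4 hρ hρ1).mul hρ ((Cnv_dbl hρ (Cnv_4of3 hB)).pow hρ 2)⟩

/-- the coefficients of `θ₃⁻¹` are at most `4^n` -/
theorem Cnv_coeff (n : ℕ) : |((PowerSeries.coeff n Cbd_q3⁻¹ : ℚ) : ℝ)| ≤ 4 ^ n := by
  induction n using Nat.strong_induction_on with
  | _ n ih =>
    rcases Nat.eq_zero_or_pos n with h0 | h0
    · subst h0
      rw [PowerSeries.coeff_zero_eq_constantCoeff, PowerSeries.constantCoeff_inv, Cnv_c3]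
      simp
    · have h1 := congrArg (PowerSeries.coeff n) Cnv_m3
      rw [PowerSeries.coeff_mul, PowerSeries.coeff_one, if_neg h0.ne',
        Finset.Nat.sum_antidiagonal_eq_sum_range_succ
          (fun i j => PowerSeries.coeff i Cbd_q3 * PowerSeries.coeff j Cbd_q3⁻¹),
        Finset.sum_range_succ'] at h1
      rw [PowerSeries.coeff_zero_eq_constantCoeff, Cnv_c3, one_mul, Nat.sub_zero] at h1
      have h2 : PowerSeries.coeff n Cbd_q3⁻¹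
          = -∑ k ∈ Finset.range n, PowerSeries.coeff (k + 1) Cbd_q3 * PowerSeries.coeff (n - (k + 1)) Cbd_q3⁻¹ := by
        linarith
      rw [h2, Rat.cast_neg, abs_neg, Rat.cast_sum]
      refine (Finset.abs_sum_le_sum_abs _ _).trans ?_
      have h3 : ∀ k ∈ Finset.range n,
          |((PowerSeries.coeff (k + 1) Cbd_q3 * PowerSeries.coeff (n - (k + 1)) Cbd_q3⁻¹ : ℚ) : ℝ)|
            ≤ 2 * 4 ^ (n - 1 - k) := by
        intro k hk
        have hk' := Finset.mem_range.1 hk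
        rw [Rat.cast_mul, abs_mul]
        have a1 : |((PowerSeries.coeff (k + 1) Cbd_q3 : ℚ) : ℝ)| ≤ 2 := by
          unfold Cbd_q3
          rw [PowerSeries.coeff_map]
          have := Cbd_c3 (k + 1)
          rw [eq_intCast, Rat.cast_intCast]
          exact_mod_cast this
        have a2 := ih (n - (k + 1)) (by omega)
        have e : n - (k + 1) = n - 1 - k := by omega
        rw [e] at a2 ⊢
        exact mul_le_mul a1 a2 (abs_nonneg _) (by norm_num)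
      refine (Finset.sum_le_sum h3).trans ?_
      have h4 : ∑ k ∈ Finset.range n, (2 : ℝ) * 4 ^ (n - 1 - k) = ∑ k ∈ Finset.range n, 2 * 4 ^ k :=
        Finset.sum_range_reflect (fun k => (2 : ℝ) * 4 ^ k) n
      rw [h4, ← Finset.mul_sum, geom_sum_eq (by norm_num)]
      have : (0 : ℝ) < 4 ^ n := by positivity
      linarith

theorem Cnv_small {ρ : ℝ} (hρ : 0 < ρ) (hρ1 : ρ ≤ 1 / 8) : ∃ B, Bd ρ B Cbd_q3⁻¹ := by
  refine ⟨2, fun N => ?_⟩
  have h1 : ∑ n ∈ Finset.range N, |((PowerSeries.coeff n Cbd_q3⁻¹ : ℚ) : ℝ)| * ρ ^ n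
      ≤ ∑ n ∈ Finset.range N, (1 / 2 : ℝ) ^ n := by
    refine Finset.sum_le_sum fun n _ => ?_
    calc |((PowerSeries.coeff n Cbd_q3⁻¹ : ℚ) : ℝ)| * ρ ^ n ≤ 4 ^ n * (1 / 8) ^ n :=
          mul_le_mul (Cnv_coeff n) (pow_le_pow_left₀ hρ.le hρ1 n) (by positivity) (by positivity)
      _ = (1 / 2 : ℝ) ^ n := by rw [← mul_pow]; norm_num
  refine h1.trans ?_
  rw [geom_sum_eq (by norm_num)]
  have : (0 : ℝ) < (1 / 2) ^ N := by positivity
  have e : ((1 / 2 : ℝ) ^ N - 1) / (1 / 2 - 1) = 2 - 2 * (1 / 2) ^ N := by ring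
  rw [e]
  linarith

theorem Cnv_all (j : ℕ) : ∀ ρ : ℝ, 0 < ρ → ρ < 1 → ρ ^ (2 ^ j) ≤ 1 / 8 → ∃ B, Bd ρ B Cbd_q3⁻¹ := by
  induction j with
  | zero =>
    intro ρ h0 _ h
    rw [pow_zero, pow_one] at h
    exact Cnv_small h0 h
  | succ j ih =>
    intro ρ h0 h1 h
    refine Cnv_step h0 h1 (ih (ρ ^ 2) (by positivity) (pow_lt_one₀ h0.le h1 two_ne_zero) ?_)
    rw [← pow_mul, ← pow_succ']
    exact h

theorem Cnv_q3 {ρ : ℝ} (hρ : 0 < ρ) (hρ1 : ρ < 1) : ∃ B, Bd ρ B Cbd_q3⁻¹ := by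
  obtain ⟨n, hn⟩ := exists_pow_lt_of_lt_one (show (0 : ℝ) < 1 / 8 by norm_num) hρ1
  refine Cnv_all n ρ hρ hρ1 (le_trans ?_ hn.le)
  exact pow_le_pow_of_le_one hρ.le hρ1.le Nat.lt_two_pow_self.le

theorem Bd_Uinv {ρ : ℝ} (hρ : 0 < ρ) (hρ1 : ρ < 1) : ∃ B, Bd ρ B (U ℚ)⁻¹ := by
  obtain ⟨B, hB⟩ := Cnv_q3 hρ hρ1
  have h1 : (U ℚ)⁻¹ = Cbd_q3⁻¹ ^ 2 := by
    refine Cnv_uniq (U_mul_inv (K := ℚ)) ?_
    have h2 : U ℚ = Cbd_q3 ^ 2 := by
      unfold U Cbd_q3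
      rw [map_pow]
    rw [h2, ← mul_pow, Cnv_m3, one_pow]
  rw [h1]
  exact ⟨_, hB.pow hρ 2⟩

theorem Bd_lam {ρ : ℝ} (hρ : 0 < ρ) (hρ1 : ρ < 1) : ∃ B, Bd ρ B (lam ℚ) := by
  obtain ⟨B, hB⟩ := Bd_Uinv hρ hρ1
  unfold lam xx
  rw [sub_eq_add_neg]
  exact ⟨_, (Cbd_one (ρ := ρ)).add hρ (Cnv_neg (((Bd_V hρ hρ1).mul hρ hB).pow hρ 2))⟩

theorem Cnv_evl {ρ : ℝ} (hρ : 0 < ρ) (hρ1 : ρ < 1) (P : Polynomial ℚ) : ∃ B, Bd ρ B (evl ℚ P) := by
  obtain ⟨B, hB⟩ := Bd_lam hρ hρ1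
  have : evl ℚ P = ∑ i ∈ Finset.range (P.natDegree + 1), PowerSeries.C (P.coeff i) * lam ℚ ^ i := by
    unfold evl
    rw [Polynomial.aeval_eq_sum_range]
    refine Finset.sum_congr rfl fun i _ => ?_
    rw [PowerSeries.smul_eq_C_mul]
  rw [this]
  exact Cbd_sum hρ _ _ fun i _ => ⟨_, (Cbd_C (ρ := ρ) (P.coeff i)).mul hρ (hB.pow hρ i)⟩

/-- a differential inequality for sequences -/
theorem Cnv_seq {a μ : ℕ → ℝ} (ha : ∀ n, 0 ≤ a n)
    (h : ∀ n : ℕ, (n : ℝ) * a n ≤ ∑ p ∈ Finset.HasAntidiagonal.antidiagonal n, μ p.1 * a p.2)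
    {ρ C θ : ℝ} (hρ : 0 < ρ) (hC : 0 ≤ C) (hμC : ∀ i, μ i * ρ ^ i ≤ C) (hθ : 1 < θ) :
    ∃ C' : ℝ, 0 ≤ C' ∧ ∀ n, a n * ρ ^ n ≤ C' * θ ^ n := by
  set E : ℕ → ℝ := fun n => a n * ρ ^ n with hE
  have hE0 : ∀ n, 0 ≤ E n := fun n => mul_nonneg (ha n) (by positivity)
  have h1 : ∀ n : ℕ, (n : ℝ) * E n ≤ C * E n + C * ∑ j ∈ Finset.range n, E j := by
    intro n
    calc (n : ℝ) * E n = ((n : ℝ) * a n) * ρ ^ n := by rw [hE]; ring
      _ ≤ (∑ p ∈ Finset.HasAntidiagonal.antidiagonal n, μ p.1 * a p.2) * ρ ^ n :=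
          mul_le_mul_of_nonneg_right (h n) (by positivity)
      _ = ∑ p ∈ Finset.HasAntidiagonal.antidiagonal n, (μ p.1 * ρ ^ p.1) * E p.2 := by
          rw [Finset.sum_mul]
          refine Finset.sum_congr rfl fun p hp => ?_
          rw [← Finset.HasAntidiagonal.mem_antidiagonal.1 hp, pow_add, hE]
          ring
      _ ≤ ∑ p ∈ Finset.HasAntidiagonal.antidiagonal n, C * E p.2 :=
          Finset.sum_le_sum fun p _ => mul_le_mul_of_nonneg_right (hμC p.1) (hE0 _)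
      _ = C * ∑ j ∈ Finset.range (n + 1), E j := by
          rw [← Finset.mul_sum, Finset.Nat.sum_antidiagonal_eq_sum_range_succ (fun _ j => E j)]
          congr 1
          have := Finset.sum_range_reflect (fun j => E j) (n + 1)
          rw [← this]
          refine Finset.sum_congr rfl fun j _ => ?_
          rw [Nat.add_sub_cancel]
      _ = _ := by rw [Finset.sum_range_succ]; ring
  obtain ⟨n0, hn0⟩ := exists_nat_gt (C + C / (θ - 1))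
  have hθ1 : 0 < θ - 1 := by linarith
  refine ⟨∑ j ∈ Finset.range n0, E j, Finset.sum_nonneg fun j _ => hE0 j, fun n => ?_⟩
  set C' := ∑ j ∈ Finset.range n0, E j with hC'
  have hC'0 : 0 ≤ C' := Finset.sum_nonneg fun j _ => hE0 j
  show E n ≤ C' * θ ^ n
  induction n using Nat.strong_induction_on with
  | _ n ih =>
    rcases lt_or_ge n n0 with hn | hn
    · have a1 : E n ≤ C' :=
        Finset.single_le_sum (f := E) (fun j _ => hE0 j) (Finset.mem_range.2 hn)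
      exact a1.trans (le_mul_of_one_le_right hC'0 (one_le_pow₀ hθ.le))
    · have hn' : (n0 : ℝ) ≤ n := by exact_mod_cast hn
      have hq : 0 ≤ C / (θ - 1) := div_nonneg hC hθ1.le
      have hpos : 0 < (n : ℝ) - C := by linarith
      have h2 : ∑ j ∈ Finset.range n, E j ≤ C' * θ ^ n / (θ - 1) := by
        calc ∑ j ∈ Finset.range n, E j ≤ ∑ j ∈ Finset.range n, C' * θ ^ j :=
              Finset.sum_le_sum fun j hj => ih j (Finset.mem_range.1 hj)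
          _ = C' * ((θ ^ n - 1) / (θ - 1)) := by
              rw [← Finset.mul_sum, geom_sum_eq hθ.ne']
          _ ≤ C' * (θ ^ n / (θ - 1)) := by
              refine mul_le_mul_of_nonneg_left ?_ hC'0
              exact div_le_div_of_nonneg_right (by linarith) hθ1.le
          _ = _ := by ring
      have h3 : ((n : ℝ) - C) * E n ≤ ((n : ℝ) - C) * (C' * θ ^ n) := by
        have h4 := h1 n
        have h5 := mul_le_mul_of_nonneg_left h2 hC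
        have h6 : C * (C' * θ ^ n / (θ - 1)) = C / (θ - 1) * (C' * θ ^ n) := by ring
        have h7 : 0 ≤ C' * θ ^ n := by positivity
        have h8 : C / (θ - 1) * (C' * θ ^ n) ≤ ((n : ℝ) - C) * (C' * θ ^ n) :=
          mul_le_mul_of_nonneg_right (by linarith) h7
        linarith
      exact le_of_mul_le_mul_left h3 hpos

theorem Cnv_gen {r : ℕ} {e : Fin r → ℚ⟦X⟧} (h : LD ℚ r e) {ρ : ℝ} (hρ : 0 < ρ) (hρ1 : ρ < 1) (l : Fin r) :
    ∃ B, Bd ρ B (e l) := by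
  choose p hp using fun l => h.del l
  set M : Fin r → Fin r → ℚ⟦X⟧ := fun l l' => U ℚ ^ 2 * evl ℚ (p l l') with hM
  have hD : ∀ l, Dq ℚ (e l) = ∑ l', M l l' * e l' := by
    intro l
    rw [MPg_Dq, hp l, Finset.mul_sum]
    refine Finset.sum_congr rfl fun l' _ => ?_
    rw [hM]
    ring
  set σ : ℝ := Real.sqrt ρ with hσ
  have hσ0 : 0 < σ := Real.sqrt_pos.2 hρ
  have hσσ : σ * σ = ρ := Real.mul_self_sqrt hρ.le
  have hσ1 : σ < 1 := by nlinarith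
  set a : ℕ → ℝ := fun n => ∑ l, |((PowerSeries.coeff n (e l) : ℚ) : ℝ)| with ha
  set μ : ℕ → ℝ := fun n => ∑ l, ∑ l', |((PowerSeries.coeff n (M l l') : ℚ) : ℝ)| with hμ
  have ha0 : ∀ n, 0 ≤ a n := fun n => Finset.sum_nonneg fun _ _ => abs_nonneg _
  have hrec : ∀ n : ℕ, (n : ℝ) * a n ≤ ∑ q ∈ Finset.HasAntidiagonal.antidiagonal n, μ q.1 * a q.2 := by
    intro n
    have e1 : ∀ l, (n : ℝ) * |((PowerSeries.coeff n (e l) : ℚ) : ℝ)|
        ≤ ∑ q ∈ Finset.HasAntidiagonal.antidiagonal n,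
          (∑ l', |((PowerSeries.coeff q.1 (M l l') : ℚ) : ℝ)|) * a q.2 := by
      intro l
      have e2 := congrArg (PowerSeries.coeff n) (hD l)
      rw [coeff_Dq, map_sum] at e2
      have e3 : (n : ℝ) * |((PowerSeries.coeff n (e l) : ℚ) : ℝ)|
          = |(((n : ℚ) * PowerSeries.coeff n (e l) : ℚ) : ℝ)| := by
        rw [Rat.cast_mul, abs_mul, Rat.cast_natCast, Nat.abs_cast]
      rw [e3, e2, Rat.cast_sum]
      calc |∑ l', ((PowerSeries.coeff n (M l l' * e l') : ℚ) : ℝ)|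
          ≤ ∑ l', |((PowerSeries.coeff n (M l l' * e l') : ℚ) : ℝ)| := Finset.abs_sum_le_sum_abs _ _
        _ ≤ ∑ l', ∑ q ∈ Finset.HasAntidiagonal.antidiagonal n,
              |((PowerSeries.coeff q.1 (M l l') : ℚ) : ℝ)| * |((PowerSeries.coeff q.2 (e l') : ℚ) : ℝ)| := by
            refine Finset.sum_le_sum fun l' _ => ?_
            rw [PowerSeries.coeff_mul, Rat.cast_sum]
            refine (Finset.abs_sum_le_sum_abs _ _).trans (le_of_eq (Finset.sum_congr rfl fun q _ => ?_))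
            rw [Rat.cast_mul, abs_mul]
        _ ≤ ∑ l', ∑ q ∈ Finset.HasAntidiagonal.antidiagonal n,
              |((PowerSeries.coeff q.1 (M l l') : ℚ) : ℝ)| * a q.2 := by
            refine Finset.sum_le_sum fun l' _ => Finset.sum_le_sum fun q _ => ?_
            refine mul_le_mul_of_nonneg_left ?_ (abs_nonneg _)
            exact Finset.single_le_sum (f := fun l => |((PowerSeries.coeff q.2 (e l) : ℚ) : ℝ)|)
              (fun _ _ => abs_nonneg _) (Finset.mem_univ l')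
        _ = _ := by
            rw [Finset.sum_comm]
            refine Finset.sum_congr rfl fun q _ => ?_
            rw [Finset.sum_mul]
    calc (n : ℝ) * a n = ∑ l, (n : ℝ) * |((PowerSeries.coeff n (e l) : ℚ) : ℝ)| := by
          rw [ha, Finset.mul_sum]
      _ ≤ ∑ l, ∑ q ∈ Finset.HasAntidiagonal.antidiagonal n,
          (∑ l', |((PowerSeries.coeff q.1 (M l l') : ℚ) : ℝ)|) * a q.2 := Finset.sum_le_sum fun l _ => e1 l
      _ = _ := by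
          rw [Finset.sum_comm]
          refine Finset.sum_congr rfl fun q _ => ?_
          rw [hμ, Finset.sum_mul]
  have hC : ∃ C : ℝ, 0 ≤ C ∧ ∀ i, μ i * σ ^ i ≤ C := by
    have hB : ∀ l l', ∃ B, Bd σ B (M l l') := by
      intro l l'
      obtain ⟨B, hB⟩ := Cnv_evl hσ0 hσ1 (p l l')
      exact ⟨_, ((Bd_U hσ0 hσ1).pow hσ0 2).mul hσ0 hB⟩
    choose B hB using hB
    refine ⟨∑ l, ∑ l', B l l', Finset.sum_nonneg fun l _ => Finset.sum_nonneg fun l' _ => (hB l l').nonneg,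
      fun i => ?_⟩
    rw [hμ, Finset.sum_mul]
    refine Finset.sum_le_sum fun l _ => ?_
    rw [Finset.sum_mul]
    refine Finset.sum_le_sum fun l' _ => ?_
    refine le_trans ?_ (hB l l' (i + 1))
    exact Finset.single_le_sum (f := fun n => |((PowerSeries.coeff n (M l l') : ℚ) : ℝ)| * σ ^ n)
      (fun n _ => by positivity) (Finset.mem_range.2 (Nat.lt_succ_self i))
  obtain ⟨C, hC0, hC⟩ := hC
  have hθ : 1 < (1 + σ) / (2 * σ) := by
    rw [lt_div_iff₀ (by positivity)]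
    linarith
  obtain ⟨C', hC'0, hC'⟩ := Cnv_seq ha0 hrec hσ0 hC0 hC hθ
  refine ⟨C' * (1 - (1 + σ) / 2)⁻¹, fun N => ?_⟩
  have h1 : ∑ n ∈ Finset.range N, |((PowerSeries.coeff n (e l) : ℚ) : ℝ)| * ρ ^ n
      ≤ ∑ n ∈ Finset.range N, C' * ((1 + σ) / 2) ^ n := by
    refine Finset.sum_le_sum fun n _ => ?_
    have b1 : |((PowerSeries.coeff n (e l) : ℚ) : ℝ)| ≤ a n :=
      Finset.single_le_sum (f := fun l => |((PowerSeries.coeff n (e l) : ℚ) : ℝ)|)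
        (fun _ _ => abs_nonneg _) (Finset.mem_univ l)
    calc |((PowerSeries.coeff n (e l) : ℚ) : ℝ)| * ρ ^ n ≤ a n * ρ ^ n :=
          mul_le_mul_of_nonneg_right b1 (by positivity)
      _ = (a n * σ ^ n) * σ ^ n := by rw [← hσσ, mul_pow]; ring
      _ ≤ (C' * ((1 + σ) / (2 * σ)) ^ n) * σ ^ n :=
          mul_le_mul_of_nonneg_right (hC' n) (by positivity)
      _ = C' * (((1 + σ) / (2 * σ)) * σ) ^ n := by rw [mul_pow]; ring
      _ = C' * ((1 + σ) / 2) ^ n := by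
          congr 2
          field_simp
  refine h1.trans ?_
  rw [← Finset.mul_sum]
  refine mul_le_mul_of_nonneg_left ?_ hC'0
  have h2 : (1 + σ) / 2 < 1 := by linarith
  have h3 : 0 ≤ (1 + σ) / 2 := by positivity
  rw [← tsum_geometric_of_lt_one h3 h2]
  exact (summable_geometric_of_lt_one h3 h2).sum_le_tsum _ (fun n _ => by positivity)

theorem Bd_of_LD {r : ℕ} {e : Fin r → ℚ⟦X⟧} (h : LD ℚ r e) {y : ℚ⟦X⟧} (hy : y ∈ SP ℚ e)
    {ρ : ℝ} (hρ : 0 < ρ) (hρ1 : ρ < 1) : ∃ B, Bd ρ B y := by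
  obtain ⟨p, rfl⟩ := hy
  refine Cbd_sum hρ _ _ fun l _ => ?_
  obtain ⟨B1, h1⟩ := Cnv_evl hρ hρ1 (p l)
  obtain ⟨B2, h2⟩ := Cnv_gen h hρ hρ1 l
  exact ⟨_, h1.mul hρ h2⟩

/-- the primitives of a form converge in the unit disc -/
theorem exists_Bd_FL {k : ℕ} {f : ℤ⟦X⟧} (hf : LForm ℚ k (PowerSeries.map (Int.castRingHom ℚ) f))
    {ρ : ℝ} (hρ : 0 < ρ) (hρ1 : ρ < 1) :
    ∃ B : ℝ, 1 ≤ B ∧ Bd ρ B (F1 f) ∧ Bd ρ B (F2 f) := by
  obtain ⟨r, e, hLD, hy, -, -, -⟩ := hf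
  obtain ⟨B0, h0⟩ := Bd_of_LD hLD hy hρ hρ1
  have h00 := h0.mul hρ ((Bd_U hρ hρ1).pow hρ k)
  have e1 : PowerSeries.map (Int.castRingHom ℚ) f * (U ℚ)⁻¹ ^ k * U ℚ ^ k
      = PowerSeries.map (Int.castRingHom ℚ) f := by
    rw [mul_assoc, ← mul_pow, mul_comm (U ℚ)⁻¹, U_mul_inv, one_pow, mul_one]
  rw [e1] at h00
  set B := B0 * MR ρ ^ k with hB
  have h1 : Bd ρ (max 1 B) (F1 f) := by
    intro N
    refine le_trans (Finset.sum_le_sum fun n _ => ?_) ((h00 N).trans (le_max_right 1 B))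
    refine mul_le_mul_of_nonneg_right ?_ (by positivity)
    unfold F1
    rw [PowerSeries.coeff_mk, Rat.cast_div, Rat.cast_intCast, Rat.cast_natCast, abs_div,
      Nat.abs_cast, PowerSeries.coeff_map, eq_intCast, Rat.cast_intCast]
    rcases Nat.eq_zero_or_pos n with h0 | h0
    · rw [h0, Nat.cast_zero, div_zero]
      exact abs_nonneg _
    · exact div_le_self (abs_nonneg _) (by exact_mod_cast h0)
  refine ⟨max 1 B, le_max_left _ _, h1, ?_⟩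
  unfold F2
  refine Cnv_dbl hρ fun N => le_trans (Finset.sum_le_sum fun n _ => ?_) (h1 N)
  refine mul_le_mul_of_nonneg_left ?_ (abs_nonneg _)
  rw [← pow_mul]
  exact pow_le_pow_of_le_one hρ.le hρ1.le (by omega)

end Pool.Agent.H85.OU

end S_OU_Cnv
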