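import Mathlib
import Pool.Agent.H85.OM.M01
import Pool.Agent.H85.OM.M02
import Pool.Agent.H85.OM.M03
import Pool.Agent.H85.OM.M06
import Pool.Agent.H85.OM.M07

/-! First slopes of modular forms, part M08: this file joins several modules to save build time. -/

section S_OU_Eis

/-!
# Row EIS (project OU): Eisenstein's theorem

For `M ≥ 1` let `S_M = {x ∈ ℚ : M^j x ∈ ℤ for some j}`, a subring of `ℚ`; `S_M ⊆ S_(MM')`.  `λ = lam ℚ` has integral coefficients (`U` has constant term `1`, so `U⁻¹` is integral).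
Let `y ∈ ℚ⟦X⟧`, `IsDeg ℚ n y`.  `μ` from `exists_min`: `F(Y) := μ(λ)(Y) ∈ ℚ⟦X⟧[Y]` satisfies `F(y) = 0`, `F'(y) ≠ 0` (characteristic zero, `μ' ≠ 0` has smaller degree than `μ`, and `μ` divides every annihilating
polynomial).  All coefficients of `F` lie in `S_(M1)⟦X⟧`, `M1` a common denominator of the rational numbers occurring in `μ`.
Let `ν` be the order of `F'(y)`, `F'(y) = X^ν (c + ...)`, `c ≠ 0`; `y = a + X^(ν+1) w`, `a = ∑_{l ≤ ν} y_l X^l`, `w ∈ ℚ⟦X⟧`.  Taylor: with `F_i = F^{(i)}/i!` (Hasse derivatives, coefficients in `S_(M1)⟦X⟧`)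
`0 = F(y) = F(a) + F'(a) X^(ν+1) w + ∑_{i ≥ 2} F_i(a) X^(i(ν+1)) w^i`.
`F'(a) = F'(y) mod X^(ν+1)`, so `F'(a) = X^ν (c + X b)`; hence `F(a) = X^(2ν+1) d` and
`d + (c + X b) w + X ∑_{i ≥ 2} F_i(a) X^((i-2)(ν+1)) w^i = 0`.
Let `M2` be `M1` times the denominators of `y_0, .., y_ν`: `a`, `F_i(a)`, `d`, `b`, `c` have coefficients in `S_(M2)`; let `M = M2 · |numerator of c|` (times the denominator), so `c⁻¹ ∈ S_M`.
Coefficient `l`: `c w_l = -(d_l + (b w)_(l-1) + (∑_{i ≥ 2} F_i(a) X^(..) w^i)_(l-1))` involves only `w_0, .., w_(l-1)`; strong induction: `w_l ∈ S_M`.  So all `y_l ∈ S_M`.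
-/

open PowerSeries
open Pool.Agent.H85.OT

namespace Pool.Agent.H85.OU

/-- series with coefficients in a subring -/
def Eis_A (R : Subring ℚ) : Subring ℚ⟦X⟧ where
  carrier := {f | ∀ l, PowerSeries.coeff l f ∈ R}
  mul_mem' := by
    intro f g hf hg l
    rw [PowerSeries.coeff_mul]
    exact R.sum_mem fun x _ => R.mul_mem (hf _) (hg _)
  one_mem' := by
    intro l
    rw [PowerSeries.coeff_one]
    split_ifs
    · exact R.one_mem
    · exact R.zero_mem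
  add_mem' := by
    intro f g hf hg l
    rw [map_add]
    exact R.add_mem (hf _) (hg _)
  zero_mem' := by
    intro l
    rw [map_zero]
    exact R.zero_mem
  neg_mem' := by
    intro f hf l
    rw [map_neg]
    exact R.neg_mem (hf _)

theorem Eis_mem {R : Subring ℚ} {f : ℚ⟦X⟧} : f ∈ Eis_A R ↔ ∀ l, PowerSeries.coeff l f ∈ R := Iff.rfl

theorem Eis_X (R : Subring ℚ) : (PowerSeries.X : ℚ⟦X⟧) ∈ Eis_A R := by
  intro l
  rw [PowerSeries.coeff_X]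
  split_ifs
  · exact R.one_mem
  · exact R.zero_mem

theorem Eis_C {R : Subring ℚ} {c : ℚ} (hc : c ∈ R) : (PowerSeries.C c : ℚ⟦X⟧) ∈ Eis_A R := by
  intro l
  rw [PowerSeries.coeff_C]
  split_ifs
  · exact hc
  · exact R.zero_mem

theorem Eis_int (R : Subring ℚ) (f : ℤ⟦X⟧) : PowerSeries.map (Int.castRingHom ℚ) f ∈ Eis_A R := by
  intro l
  rw [PowerSeries.coeff_map]
  exact intCast_mem R _

theorem Eis_shift {R : Subring ℚ} {f g : ℚ⟦X⟧} {k : ℕ} (hf : f ∈ Eis_A R)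
    (h : f = PowerSeries.X ^ k * g) : g ∈ Eis_A R := by
  intro l
  have h1 := hf (l + k)
  rw [h, PowerSeries.coeff_X_pow_mul] at h1
  exact h1

theorem Eis_lam (R : Subring ℚ) : lam ℚ ∈ Eis_A R := by
  have hu : IsUnit (th3 ^ 2) := by
    rw [PowerSeries.isUnit_iff_constantCoeff, map_pow]
    have h1 : PowerSeries.constantCoeff th3 = 1 := by
      rw [← PowerSeries.coeff_zero_eq_constantCoeff_apply]
      unfold th3
      rw [PowerSeries.coeff_mk, if_pos rfl]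
    rw [h1, one_pow]
    exact isUnit_one
  obtain ⟨I, hI⟩ := hu.exists_right_inv
  have h2 : (U ℚ)⁻¹ = PowerSeries.map (Int.castRingHom ℚ) I := by
    have h3 : U ℚ * PowerSeries.map (Int.castRingHom ℚ) I = 1 := by
      unfold U
      rw [← map_mul, hI, map_one]
    have h4 : U ℚ ≠ 0 := fun h => by rw [h, zero_mul] at h3; exact zero_ne_one h3
    have h5 : PowerSeries.constantCoeff (U ℚ) ≠ 0 := by
      intro h
      have h6 := congrArg PowerSeries.constantCoeff h3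
      rw [map_mul, h, zero_mul, map_one] at h6
      exact zero_ne_one h6
    have h7 := PowerSeries.mul_inv_cancel (U ℚ) h5
    exact mul_left_cancel₀ h4 (h7.trans h3.symm)
  unfold lam xx
  rw [h2]
  exact (Eis_A R).sub_mem (Eis_A R).one_mem
    ((Eis_A R).pow_mem ((Eis_A R).mul_mem (Eis_int R _) (Eis_int R _)) 2)

theorem Eis_evl {R : Subring ℚ} {P : Polynomial ℚ} (hP : ∀ j, P.coeff j ∈ R) :
    evl ℚ P ∈ Eis_A R := by
  rw [Polynomial.aeval_eq_sum_range]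
  refine (Eis_A R).sum_mem fun i _ => ?_
  rw [PowerSeries.smul_eq_C_mul]
  exact (Eis_A R).mul_mem (Eis_C (hP i)) ((Eis_A R).pow_mem (Eis_lam R) i)

/-- the rationals with denominator dividing a power of `M` -/
def Eis_R (M : ℕ) : Subring ℚ where
  carrier := {x | ∃ (j : ℕ) (m : ℤ), (M : ℚ) ^ j * x = m}
  mul_mem' := by
    rintro x y ⟨j, m, h⟩ ⟨j', m', h'⟩
    refine ⟨j + j', m * m', ?_⟩
    push_cast
    rw [← h, ← h', pow_add]
    ring
  one_mem' := ⟨0, 1, by simp⟩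
  add_mem' := by
    rintro x y ⟨j, m, h⟩ ⟨j', m', h'⟩
    refine ⟨j + j', (M : ℤ) ^ j' * m + (M : ℤ) ^ j * m', ?_⟩
    push_cast
    rw [← h, ← h', pow_add]
    ring
  zero_mem' := ⟨0, 0, by simp⟩
  neg_mem' := by
    rintro x ⟨j, m, h⟩
    refine ⟨j, -m, ?_⟩
    push_cast
    rw [← h]
    ring

theorem Eis_exists_M (s : Finset ℚ) : ∃ M : ℕ, 1 ≤ M ∧ ∀ x ∈ s, x ∈ Eis_R M := by
  refine ⟨∏ x ∈ s, x.den, Finset.one_le_prod' fun x _ => x.den_pos, fun x hx => ?_⟩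
  obtain ⟨k, hk⟩ := Finset.dvd_prod_of_mem (fun x : ℚ => x.den) hx
  refine ⟨1, k * x.num, ?_⟩
  rw [pow_one, hk]
  push_cast
  have h1 : ((x.den : ℕ) : ℚ) * x = x.num := by rw [mul_comm]; exact Rat.mul_den_eq_num x
  rw [← h1]
  ring

theorem Eis_fix {R : Subring ℚ} {w e : ℚ⟦X⟧} (he : e ∈ Eis_A R) (P : Polynomial (Eis_A R))
    (h : w = e + PowerSeries.X * P.eval₂ (Eis_A R).subtype w) : w ∈ Eis_A R := by
  intro l
  induction l using Nat.strong_induction_on with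
  | _ l ih =>
    rcases l with _ | k
    · have h1 := congrArg (PowerSeries.coeff 0) h
      rw [map_add, PowerSeries.coeff_zero_X_mul, add_zero] at h1
      rw [h1]
      exact he 0
    · have h1 := congrArg (PowerSeries.coeff (k + 1)) h
      rw [map_add, PowerSeries.coeff_succ_X_mul] at h1
      rw [h1]
      refine R.add_mem (he _) ?_
      have ht : (PowerSeries.mk fun i => if i < k + 1 then PowerSeries.coeff i w else 0 : ℚ⟦X⟧)
          ∈ Eis_A R := by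
        intro i
        rw [PowerSeries.coeff_mk]
        split_ifs with hi
        · exact ih i hi
        · exact R.zero_mem
      obtain ⟨t, htd⟩ : ∃ t : Eis_A R, t = ⟨_, ht⟩ := ⟨_, rfl⟩
      have htc : (t : ℚ⟦X⟧) = PowerSeries.mk fun i => if i < k + 1 then PowerSeries.coeff i w else 0 := by
        rw [htd]
      have h2 : w - (t : ℚ⟦X⟧) ∣ P.eval₂ (Eis_A R).subtype w - P.eval₂ (Eis_A R).subtype (t : ℚ⟦X⟧) := by
        rw [Polynomial.eval₂_eq_eval_map, Polynomial.eval₂_eq_eval_map]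
        exact Polynomial.sub_dvd_eval_sub _ _ _
      have h3 : (PowerSeries.X : ℚ⟦X⟧) ^ (k + 1) ∣ w - (t : ℚ⟦X⟧) := by
        rw [PowerSeries.X_pow_dvd_iff]
        intro m hm
        rw [map_sub, htc, PowerSeries.coeff_mk, if_pos hm, sub_self]
      have h4 := (PowerSeries.X_pow_dvd_iff.1 (h3.trans h2)) k (Nat.lt_succ_self k)
      rw [map_sub, sub_eq_zero] at h4
      rw [h4]
      have h5 : P.eval₂ (Eis_A R).subtype (t : ℚ⟦X⟧) = ((P.eval t : Eis_A R) : ℚ⟦X⟧) :=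
        Polynomial.eval₂_at_apply (Eis_A R).subtype t
      rw [h5]
      exact (P.eval t).2 k

theorem Eis_main {R : Subring ℚ} (F : Polynomial (Eis_A R)) {y : ℚ⟦X⟧}
    (hF : F.eval₂ (Eis_A R).subtype y = 0) {ν : ℕ}
    (hν0 : ∀ l < ν, PowerSeries.coeff l (F.derivative.eval₂ (Eis_A R).subtype y) = 0)
    {c : ℚ} (hc : PowerSeries.coeff ν (F.derivative.eval₂ (Eis_A R).subtype y) = c)
    (hc0 : c ≠ 0) (hcR : c⁻¹ ∈ R) (hy : ∀ l ≤ ν, PowerSeries.coeff l y ∈ R) : y ∈ Eis_A R := by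
  have ha : (PowerSeries.mk fun i => if i < ν + 1 then PowerSeries.coeff i y else 0 : ℚ⟦X⟧)
      ∈ Eis_A R := by
    intro i
    rw [PowerSeries.coeff_mk]
    split_ifs with hi
    · exact hy i (by omega)
    · exact R.zero_mem
  obtain ⟨a, had⟩ : ∃ a : Eis_A R, a = ⟨_, ha⟩ := ⟨_, rfl⟩
  have hac : (a : ℚ⟦X⟧) = PowerSeries.mk fun i => if i < ν + 1 then PowerSeries.coeff i y else 0 := by
    rw [had]
  have hdvd : (PowerSeries.X : ℚ⟦X⟧) ^ (ν + 1) ∣ y - (a : ℚ⟦X⟧) := by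
    rw [PowerSeries.X_pow_dvd_iff]
    intro m hm
    rw [map_sub, hac, PowerSeries.coeff_mk, if_pos hm, sub_self]
  obtain ⟨w, hw⟩ := hdvd
  have hya : y = PowerSeries.X ^ (ν + 1) * w + (a : ℚ⟦X⟧) := by rw [← hw, sub_add_cancel]
  obtain ⟨G, hG⟩ : ∃ G : Polynomial (Eis_A R), G = F.comp (Polynomial.X + Polynomial.C a) := ⟨_, rfl⟩
  have hG0 : G.eval₂ (Eis_A R).subtype (PowerSeries.X ^ (ν + 1) * w) = 0 := by
    rw [hG, Polynomial.eval₂_comp, Polynomial.eval₂_add, Polynomial.eval₂_X, Polynomial.eval₂_C]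
    have h1 : (PowerSeries.X : ℚ⟦X⟧) ^ (ν + 1) * w + (Eis_A R).subtype a = y := hya.symm
    rw [h1]
    exact hF
  obtain ⟨G2, hG2⟩ : ∃ G2 : Polynomial (Eis_A R), G2 = G.divX.divX := ⟨_, rfl⟩
  have hdec : G = (G2 * Polynomial.X + Polynomial.C (G.coeff 1)) * Polynomial.X
      + Polynomial.C (G.coeff 0) := by
    have h1 := Polynomial.divX_mul_X_add G
    have h2 := Polynomial.divX_mul_X_add G.divX
    rw [Polynomial.coeff_divX, zero_add] at h2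
    rw [hG2, h2, h1]
  have hg1 : ((G.coeff 1 : Eis_A R) : ℚ⟦X⟧) = F.derivative.eval₂ (Eis_A R).subtype (a : ℚ⟦X⟧) := by
    have h1 : G.coeff 1 = F.derivative.eval a := by
      have h2 := Polynomial.taylor_coeff_one a F
      rw [Polynomial.taylor_apply, ← hG] at h2
      exact h2
    rw [h1]
    exact (Polynomial.eval₂_at_apply (Eis_A R).subtype a).symm
  have hgl : ∀ l < ν + 1, PowerSeries.coeff l ((G.coeff 1 : Eis_A R) : ℚ⟦X⟧)
      = PowerSeries.coeff l (F.derivative.eval₂ (Eis_A R).subtype y) := by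
    intro l hl
    have h1 : y - (a : ℚ⟦X⟧) ∣ F.derivative.eval₂ (Eis_A R).subtype y
        - F.derivative.eval₂ (Eis_A R).subtype (a : ℚ⟦X⟧) := by
      rw [Polynomial.eval₂_eq_eval_map, Polynomial.eval₂_eq_eval_map]
      exact Polynomial.sub_dvd_eval_sub _ _ _
    have h2 : (PowerSeries.X : ℚ⟦X⟧) ^ (ν + 1) ∣ y - (a : ℚ⟦X⟧) := ⟨w, hw⟩
    have h3 := (PowerSeries.X_pow_dvd_iff.1 (h2.trans h1)) l hl
    rw [map_sub, sub_eq_zero] at h3
    rw [hg1, h3]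
  obtain ⟨g, hg⟩ : (PowerSeries.X : ℚ⟦X⟧) ^ ν ∣ ((G.coeff 1 : Eis_A R) : ℚ⟦X⟧) := by
    rw [PowerSeries.X_pow_dvd_iff]
    intro m hm
    rw [hgl m (by omega)]
    exact hν0 m hm
  have hgA : g ∈ Eis_A R := Eis_shift (G.coeff 1).2 hg
  have hg0 : PowerSeries.constantCoeff g = c := by
    have h1 := hgl ν (by omega)
    rw [hc, hg] at h1
    have h2 := PowerSeries.coeff_X_pow_mul g ν 0
    rw [zero_add] at h2
    rw [h2, PowerSeries.coeff_zero_eq_constantCoeff_apply] at h1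
    exact h1
  have hcRR : c ∈ R := by
    rw [← hg0, ← PowerSeries.coeff_zero_eq_constantCoeff_apply]
    exact hgA 0
  obtain ⟨b, hb⟩ : (PowerSeries.X : ℚ⟦X⟧) ∣ g - PowerSeries.C c := by
    rw [PowerSeries.X_dvd_iff, map_sub, hg0, PowerSeries.constantCoeff_C, sub_self]
  have hbA : b ∈ Eis_A R := by
    refine Eis_shift (k := 1) ((Eis_A R).sub_mem hgA (Eis_C hcRR)) ?_
    rw [pow_one]
    exact hb
  obtain ⟨Z, hZ⟩ : ∃ Z : ℚ⟦X⟧, Z = G2.eval₂ (Eis_A R).subtype (PowerSeries.X ^ (ν + 1) * w) := ⟨_, rfl⟩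
  have heq : (Z * (PowerSeries.X ^ (ν + 1) * w) + PowerSeries.X ^ ν * g) * (PowerSeries.X ^ (ν + 1) * w)
      + ((G.coeff 0 : Eis_A R) : ℚ⟦X⟧) = 0 := by
    have h1 := hG0
    rw [hdec] at h1
    simp only [Polynomial.eval₂_add, Polynomial.eval₂_mul, Polynomial.eval₂_X, Polynomial.eval₂_C] at h1
    rw [← hZ] at h1
    have h2 : (Eis_A R).subtype (G.coeff 1) = PowerSeries.X ^ ν * g := hg
    rw [h2] at h1
    exact h1
  have hd : ((G.coeff 0 : Eis_A R) : ℚ⟦X⟧)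
      = PowerSeries.X ^ (2 * ν + 1) * (-(PowerSeries.X * Z * w ^ 2 + g * w)) := by
    rw [eq_neg_of_add_eq_zero_right heq]
    ring
  obtain ⟨d, hdd⟩ : ∃ d : ℚ⟦X⟧, d = -(PowerSeries.X * Z * w ^ 2 + g * w) := ⟨_, rfl⟩
  rw [← hdd] at hd
  have hdA : d ∈ Eis_A R := Eis_shift (G.coeff 0).2 hd
  have hgb : g = PowerSeries.C c + PowerSeries.X * b := by rw [← hb]; ring
  have hcc : (PowerSeries.C c⁻¹ : ℚ⟦X⟧) * PowerSeries.C c = 1 := by
    rw [← map_mul, inv_mul_cancel₀ hc0, map_one]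
  have hcA : (PowerSeries.C c⁻¹ : ℚ⟦X⟧) ∈ Eis_A R := Eis_C hcR
  have hXA : (PowerSeries.X : ℚ⟦X⟧) ^ (ν + 1) ∈ Eis_A R := (Eis_A R).pow_mem (Eis_X R) _
  obtain ⟨P, hP⟩ : ∃ P : Polynomial (Eis_A R), P = -(Polynomial.C ⟨_, hcA⟩ *
      (Polynomial.C ⟨b, hbA⟩ * Polynomial.X
        + G2.comp (Polynomial.C ⟨_, hXA⟩ * Polynomial.X) * Polynomial.X ^ 2)) := ⟨_, rfl⟩
  have hPe : P.eval₂ (Eis_A R).subtype w = -(PowerSeries.C c⁻¹ * (b * w + Z * w ^ 2)) := by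
    rw [hP]
    simp only [Polynomial.eval₂_neg, Polynomial.eval₂_add, Polynomial.eval₂_mul, Polynomial.eval₂_X,
      Polynomial.eval₂_C, Polynomial.eval₂_comp, Polynomial.eval₂_X_pow]
    rw [hZ]
    rfl
  have hwA : w ∈ Eis_A R := by
    refine Eis_fix (e := -(PowerSeries.C c⁻¹ * d)) ((Eis_A R).neg_mem ((Eis_A R).mul_mem hcA hdA)) P ?_
    rw [hPe, hdd, hgb]
    have h1 : -(PowerSeries.C c⁻¹ * -(PowerSeries.X * Z * w ^ 2 + (PowerSeries.C c + PowerSeries.X * b) * w))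
        + PowerSeries.X * -(PowerSeries.C c⁻¹ * (b * w + Z * w ^ 2))
        = ((PowerSeries.C c⁻¹ : ℚ⟦X⟧) * PowerSeries.C c) * w := by ring
    rw [h1, hcc, one_mul]
  rw [hya]
  exact (Eis_A R).add_mem ((Eis_A R).mul_mem hXA hwA) a.2

theorem eisenstein {n : ℕ} {y : ℚ⟦X⟧} (hy : IsDeg ℚ n y) :
    ∃ M : ℕ, 1 ≤ M ∧ ∀ l : ℕ, ∃ (j : ℕ) (m : ℤ), (M : ℚ) ^ j * PowerSeries.coeff l y = m := by
  obtain ⟨μ, hμm, hμ1, hμ0, hμd, -⟩ := exists_min (K := ℚ) two_ne_zero hy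
  obtain ⟨φ, hφ⟩ : ∃ φ : Polynomial ℚ →+* ℚ⟦X⟧, φ = (evl ℚ).toRingHom := ⟨_, rfl⟩
  rw [← hφ] at hμ0 hμd
  have hD : μ.derivative.eval₂ φ y ≠ 0 := by
    intro h0
    have h1 := hμd _ h0
    have h2 : μ.derivative ≠ 0 := by
      intro h3
      have := Polynomial.natDegree_eq_zero_of_derivative_eq_zero h3
      omega
    have h4 := Polynomial.natDegree_le_of_dvd h1 h2
    have h5 := Polynomial.natDegree_derivative_lt (p := μ) (by omega)
    omega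
  have hex : ∃ l, PowerSeries.coeff l (μ.derivative.eval₂ φ y) ≠ 0 := by
    by_contra hcon
    push Not at hcon
    exact hD (PowerSeries.ext fun l => by rw [hcon l, map_zero])
  classical
  obtain ⟨ν, hν, hνm⟩ : ∃ ν, PowerSeries.coeff ν (μ.derivative.eval₂ φ y) ≠ 0 ∧
      ∀ l < ν, PowerSeries.coeff l (μ.derivative.eval₂ φ y) = 0 :=
    ⟨Nat.find hex, Nat.find_spec hex, fun l hl => not_not.1 (Nat.find_min hex hl)⟩
  obtain ⟨M, hM1, hM⟩ := Eis_exists_M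
    ((μ.support.biUnion fun i => (μ.coeff i).support.image fun j => (μ.coeff i).coeff j)
      ∪ ((Finset.range (ν + 1)).image fun l => PowerSeries.coeff l y)
      ∪ {(PowerSeries.coeff ν (μ.derivative.eval₂ φ y))⁻¹})
  refine ⟨M, hM1, ?_⟩
  have hcoef : ∀ i j, (μ.coeff i).coeff j ∈ Eis_R M := by
    intro i j
    by_cases h0 : (μ.coeff i).coeff j = 0
    · rw [h0]
      exact (Eis_R M).zero_mem
    · refine hM _ (Finset.mem_union_left _ (Finset.mem_union_left _ (Finset.mem_biUnion.2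
        ⟨i, ?_, Finset.mem_image.2 ⟨j, ?_, rfl⟩⟩)))
      · rw [Polynomial.mem_support_iff]
        intro h1
        rw [h1, Polynomial.coeff_zero] at h0
        exact h0 rfl
      · rw [Polynomial.mem_support_iff]
        exact h0
  have hA : ((μ.map φ).coeffs : Set ℚ⟦X⟧) ⊆ Eis_A (Eis_R M) := by
    intro f hf
    obtain ⟨i, -, rfl⟩ := Polynomial.mem_coeffs_iff.1 hf
    rw [Polynomial.coeff_map, hφ]
    exact Eis_evl (hcoef i)
  obtain ⟨F, hF⟩ : ∃ F : Polynomial (Eis_A (Eis_R M)), F = (μ.map φ).toSubring (Eis_A (Eis_R M)) hA :=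
    ⟨_, rfl⟩
  have hFm : F.map (Eis_A (Eis_R M)).subtype = μ.map φ := by
    rw [hF]
    exact Polynomial.map_toSubring _ _ _
  have e1 : F.eval₂ (Eis_A (Eis_R M)).subtype y = 0 := by
    rw [Polynomial.eval₂_eq_eval_map, hFm, ← Polynomial.eval₂_eq_eval_map]
    exact hμ0
  have e2 : F.derivative.eval₂ (Eis_A (Eis_R M)).subtype y = μ.derivative.eval₂ φ y := by
    rw [Polynomial.eval₂_eq_eval_map, ← Polynomial.derivative_map, hFm, Polynomial.derivative_map,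
      ← Polynomial.eval₂_eq_eval_map]
  have hmain : y ∈ Eis_A (Eis_R M) := by
    refine Eis_main F e1 (ν := ν) (c := PowerSeries.coeff ν (μ.derivative.eval₂ φ y)) ?_ ?_ hν ?_ ?_
    · intro l hl
      rw [e2]
      exact hνm l hl
    · rw [e2]
    · exact hM _ (Finset.mem_union_right _ (Finset.mem_singleton_self _))
    · intro l hl
      exact hM _ (Finset.mem_union_left _ (Finset.mem_union_right _
        (Finset.mem_image.2 ⟨l, Finset.mem_range.2 (by omega), rfl⟩)))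
  exact fun l => hmain l

end Pool.Agent.H85.OU

end S_OU_Eis

section S_OU_Red

/-!
# Row RED (project OU): reduction of a level datum mod `p`

`LForm ℚ k (map f)` with data `r, e`, `h : LD ℚ r e`; `c` larger than the constant of `LD.bounds` and than all degrees of the polynomials below.
There is `M ≥ 1` such that all coefficients of the `e_l` (`eisenstein`, `LD.bounds`) and all rational coefficients of the (finitely many) polynomials `p_l` in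
 (a) `1 = ∑ p_l(λ) e_l`, (b) `e_l e_l' = ∑ p_m(λ) e_m`, (c) `δ e_l = ∑ p_m(λ) e_m`, (d) the equations `e_l^R + ∑ a_m(λ) e_l^(R-m) = 0`, `deg a_m ≤ c m` (`IsDeg`; only `m ≤ R` matters),
 (e) `f U^(-k) = ∑ p_l(λ) e_l`, (f) `dbl f U^(-k) = ∑ p_l(λ) e_l`
lie in `S = {x ∈ ℚ : M^j x ∈ ℤ for some j}` (e.g. `S` a `Subring ℚ`, or `Localization.Away (M : ℤ)`).  Let `p > p0 = M` prime (so `p ∤ M`), `π : S → ZMod p` the reduction map (ring homomorphism with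
`π(m/M^j) = m/M^j`), `ι : S → ℚ` the inclusion (injective).  For a power series `y` over `ℚ` with coefficients in `S` let `y~ ∈ S⟦X⟧` be its lift and `y^ = map π y~`.
`U, V, lam` are images of integral power series (`U⁻¹` too: there is `I ∈ ℤ⟦X⟧` with `th3² I = 1`), so all identities (a)-(f) lift to `S⟦X⟧` (injectivity of `map ι`; `δ = U^(-2) D`, `dbl` commute with `map`) and map to
`(ZMod p)⟦X⟧`, with polynomials reduced (degrees do not increase).  This gives `RD (ZMod p) r c e^` and the two memberships (`IsDeg`: in (d) put `a_m = 0` for `m > R`; the degree bound `c`).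
-/

open PowerSeries
open Pool.Agent.H85.OT

namespace Pool.Agent.H85.OU

/-- the `p`-integral rational numbers -/
def Red_A (p : ℕ) [Fact p.Prime] : Subring ℚ where
  carrier := {q | ((q.den : ℕ) : ZMod p) ≠ 0}
  mul_mem' := by
    intro a b ha hb h
    have h1 : ((a.den * b.den : ℕ) : ZMod p) = 0 := by
      rw [ZMod.natCast_eq_zero_iff] at h ⊢
      exact h.trans (Rat.mul_den_dvd a b)
    rw [Nat.cast_mul] at h1
    rcases mul_eq_zero.1 h1 with h2 | h2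
    · exact ha h2
    · exact hb h2
  one_mem' := by
    show (((1 : ℚ).den : ℕ) : ZMod p) ≠ 0
    rw [Rat.den_one, Nat.cast_one]
    exact one_ne_zero
  add_mem' := by
    intro a b ha hb h
    have h1 : ((a.den * b.den : ℕ) : ZMod p) = 0 := by
      rw [ZMod.natCast_eq_zero_iff] at h ⊢
      exact h.trans (Rat.add_den_dvd a b)
    rw [Nat.cast_mul] at h1
    rcases mul_eq_zero.1 h1 with h2 | h2
    · exact ha h2
    · exact hb h2
  zero_mem' := by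
    show (((0 : ℚ).den : ℕ) : ZMod p) ≠ 0
    rw [Rat.den_zero, Nat.cast_one]
    exact one_ne_zero
  neg_mem' := by
    intro a ha
    show (((-a : ℚ).den : ℕ) : ZMod p) ≠ 0
    rw [Rat.den_neg_eq_den]
    exact ha

theorem Red_mem {p : ℕ} [Fact p.Prime] {q : ℚ} : q ∈ Red_A p ↔ ((q.den : ℕ) : ZMod p) ≠ 0 := Iff.rfl

/-- reduction mod `p` -/
def Red_pi (p : ℕ) [Fact p.Prime] : Red_A p →+* ZMod p where
  toFun q := ((q : ℚ) : ZMod p)
  map_one' := by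
    show ((1 : ℚ) : ZMod p) = 1
    exact Rat.cast_one
  map_mul' a b := by
    show ((a.1 * b.1 : ℚ) : ZMod p) = _
    exact Rat.cast_mul_of_ne_zero a.2 b.2
  map_zero' := by
    show ((0 : ℚ) : ZMod p) = 0
    exact Rat.cast_zero
  map_add' a b := by
    show ((a.1 + b.1 : ℚ) : ZMod p) = _
    exact Rat.cast_add_of_ne_zero a.2 b.2

section rel
variable (p : ℕ) [Fact p.Prime]

/-- `z` is the reduction of `y` -/
def Red_R (y : ℚ⟦X⟧) (z : (ZMod p)⟦X⟧) : Prop :=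
  ∃ w : (Red_A p)⟦X⟧, PowerSeries.map (Red_A p).subtype w = y ∧ PowerSeries.map (Red_pi p) w = z

/-- `Q` is the reduction of the polynomial `P` -/
def Red_P (P : Polynomial ℚ) (Q : Polynomial (ZMod p)) : Prop :=
  ∃ W : Polynomial (Red_A p), W.map (Red_A p).subtype = P ∧ W.map (Red_pi p) = Q

variable {p}

theorem Red_R.unique {y : ℚ⟦X⟧} {z z' : (ZMod p)⟦X⟧} (h : Red_R p y z) (h' : Red_R p y z') :
    z = z' := by
  obtain ⟨w, h1, h2⟩ := h
  obtain ⟨w', h1', h2'⟩ := h'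
  have h3 : w = w' := by
    ext n
    have h4 := congrArg (PowerSeries.coeff n) (h1.trans h1'.symm)
    rw [PowerSeries.coeff_map, PowerSeries.coeff_map] at h4
    exact h4
  rw [← h2, ← h2', h3]

theorem Red_R.add {y y' : ℚ⟦X⟧} {z z' : (ZMod p)⟦X⟧} (h : Red_R p y z) (h' : Red_R p y' z') :
    Red_R p (y + y') (z + z') := by
  obtain ⟨w, rfl, rfl⟩ := h
  obtain ⟨w', rfl, rfl⟩ := h'
  exact ⟨w + w', map_add _ _ _, map_add _ _ _⟩

theorem Red_R.mul {y y' : ℚ⟦X⟧} {z z' : (ZMod p)⟦X⟧} (h : Red_R p y z) (h' : Red_R p y' z') :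
    Red_R p (y * y') (z * z') := by
  obtain ⟨w, rfl, rfl⟩ := h
  obtain ⟨w', rfl, rfl⟩ := h'
  exact ⟨w * w', map_mul _ _ _, map_mul _ _ _⟩

theorem Red_R.pow {y : ℚ⟦X⟧} {z : (ZMod p)⟦X⟧} (h : Red_R p y z) (n : ℕ) :
    Red_R p (y ^ n) (z ^ n) := by
  obtain ⟨w, rfl, rfl⟩ := h
  exact ⟨w ^ n, map_pow _ _ _, map_pow _ _ _⟩

theorem Red_R.one : Red_R p 1 1 := ⟨1, map_one _, map_one _⟩

theorem Red_R.zero : Red_R p 0 0 := ⟨0, map_zero _, map_zero _⟩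

theorem Red_R.sum {ι : Type*} (s : Finset ι) {y : ι → ℚ⟦X⟧} {z : ι → (ZMod p)⟦X⟧}
    (h : ∀ i ∈ s, Red_R p (y i) (z i)) : Red_R p (∑ i ∈ s, y i) (∑ i ∈ s, z i) := by
  classical
  induction s using Finset.induction_on with
  | empty =>
    rw [Finset.sum_empty, Finset.sum_empty]
    exact Red_R.zero
  | insert a s ha ih =>
    rw [Finset.sum_insert ha, Finset.sum_insert ha]
    exact (h a (Finset.mem_insert_self a s)).add (ih fun i hi => h i (Finset.mem_insert_of_mem hi))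

theorem Red_R.int (f : ℤ⟦X⟧) : Red_R p (PowerSeries.map (Int.castRingHom ℚ) f)
    (PowerSeries.map (Int.castRingHom (ZMod p)) f) := by
  refine ⟨PowerSeries.map (Int.castRingHom (Red_A p)) f, ?_, ?_⟩
  · ext n
    simp only [PowerSeries.coeff_map, eq_intCast, map_intCast]
  · ext n
    simp only [PowerSeries.coeff_map, eq_intCast, map_intCast]

theorem Red_R.dbl {y : ℚ⟦X⟧} {z : (ZMod p)⟦X⟧} (h : Red_R p y z) :
    Red_R p (OT.dbl ℚ y) (OT.dbl (ZMod p) z) := by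
  obtain ⟨w, rfl, rfl⟩ := h
  refine ⟨OT.dbl (Red_A p) w, ?_, ?_⟩
  · unfold OT.dbl
    exact PowerSeries.map_expand 2 two_ne_zero _ w
  · unfold OT.dbl
    exact PowerSeries.map_expand 2 two_ne_zero _ w

theorem Red_R.Dq {y : ℚ⟦X⟧} {z : (ZMod p)⟦X⟧} (h : Red_R p y z) :
    Red_R p (OT.Dq ℚ y) (OT.Dq (ZMod p) z) := by
  obtain ⟨w, rfl, rfl⟩ := h
  refine ⟨OT.Dq (Red_A p) w, ?_, ?_⟩
  · ext n
    rw [PowerSeries.coeff_map, coeff_Dq, coeff_Dq, PowerSeries.coeff_map, map_mul, map_natCast]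
  · ext n
    rw [PowerSeries.coeff_map, coeff_Dq, coeff_Dq, PowerSeries.coeff_map, map_mul, map_natCast]

/-- the inverse of `U` is integral -/
theorem Red_inv : ∃ I : ℤ⟦X⟧, ∀ (K : Type) [Field K],
    PowerSeries.map (Int.castRingHom K) I = (U K)⁻¹ := by
  have h0 : PowerSeries.constantCoeff (th3 ^ 2) = ((1 : ℤˣ) : ℤ) := by
    have h1 := constCoeff_U (K := ℚ)
    unfold U at h1
    rw [← PowerSeries.coeff_zero_eq_constantCoeff_apply, PowerSeries.coeff_map,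
      PowerSeries.coeff_zero_eq_constantCoeff_apply, eq_intCast] at h1
    rw [Units.val_one]
    exact_mod_cast h1
  refine ⟨PowerSeries.invOfUnit (th3 ^ 2) 1, fun K _ => ?_⟩
  have h1 := PowerSeries.mul_invOfUnit (th3 ^ 2) 1 h0
  have h2 := congrArg (PowerSeries.map (Int.castRingHom K)) h1
  rw [map_mul, map_one] at h2
  apply mul_left_cancel₀ (U_ne_zero K)
  rw [U_mul_inv]
  exact h2

theorem Red_R.Uinv : Red_R p (U ℚ)⁻¹ (U (ZMod p))⁻¹ := by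
  obtain ⟨I, hI⟩ := Red_inv
  rw [← hI ℚ, ← hI (ZMod p)]
  exact Red_R.int I

theorem Red_R.del {y : ℚ⟦X⟧} {z : (ZMod p)⟦X⟧} (h : Red_R p y z) :
    Red_R p (OT.del ℚ y) (OT.del (ZMod p) z) := by
  rw [del_apply, del_apply]
  exact (Red_R.Uinv.pow 2).mul h.Dq

theorem Red_lam : ∃ L : ℤ⟦X⟧, ∀ (K : Type) [Field K],
    PowerSeries.map (Int.castRingHom K) L = lam K := by
  obtain ⟨I, hI⟩ := Red_inv
  refine ⟨1 - (th4 ^ 2 * I) ^ 2, fun K _ => ?_⟩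
  rw [map_sub, map_one, map_pow, map_mul, hI K]
  rfl

theorem Red_R.evl {P : Polynomial ℚ} {Q : Polynomial (ZMod p)} (h : Red_P p P Q) :
    Red_R p (OU.evl ℚ P) (OU.evl (ZMod p) Q) := by
  obtain ⟨W, rfl, rfl⟩ := h
  obtain ⟨L, hL⟩ := Red_lam
  have key : ∀ (K : Type) [Field K] (φ : Red_A p →+* K),
      PowerSeries.map φ (Polynomial.aeval (PowerSeries.map (Int.castRingHom (Red_A p)) L) W) =
        OU.evl K (W.map φ) := by
    intro K _ φ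
    have h1 : PowerSeries.map φ (PowerSeries.map (Int.castRingHom (Red_A p)) L) = lam K := by
      rw [← hL K]
      ext n
      simp only [PowerSeries.coeff_map, eq_intCast, map_intCast]
    rw [Polynomial.aeval_def, Polynomial.aeval_def, Polynomial.hom_eval₂, Polynomial.eval₂_map, h1]
    congr 1
    refine RingHom.ext fun c => ?_
    show PowerSeries.map φ (PowerSeries.C c) = PowerSeries.C (φ c)
    exact PowerSeries.map_C φ c
  exact ⟨_, key ℚ _, key (ZMod p) _⟩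

theorem Red_P.natDegree {P : Polynomial ℚ} {Q : Polynomial (ZMod p)} (h : Red_P p P Q) :
    Q.natDegree ≤ P.natDegree := by
  obtain ⟨W, rfl, rfl⟩ := h
  rw [Polynomial.natDegree_map_eq_of_injective (Red_A p).subtype_injective]
  exact Polynomial.natDegree_map_le

theorem Red_P.exists {P : Polynomial ℚ} (h : ∀ i, P.coeff i ∈ Red_A p) : ∃ Q, Red_P p P Q := by
  have h1 : P ∈ Polynomial.lifts (Red_A p).subtype := by
    rw [Polynomial.lifts_iff_coeff_lifts]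
    intro i
    exact ⟨⟨_, h i⟩, rfl⟩
  obtain ⟨W, hW⟩ := (Polynomial.mem_lifts P).1 h1
  exact ⟨_, W, hW, rfl⟩

theorem Red_R.exists {y : ℚ⟦X⟧} (h : ∀ i, PowerSeries.coeff i y ∈ Red_A p) : ∃ z, Red_R p y z := by
  refine ⟨_, PowerSeries.mk fun i => ⟨_, h i⟩, ?_, rfl⟩
  ext i
  rw [PowerSeries.coeff_map, PowerSeries.coeff_mk]
  rfl

end rel

open Filter in
theorem Red_ev_poly (P : Polynomial ℚ) :
    ∀ᶠ p : ℕ in atTop, ∀ _ : Fact p.Prime, ∃ Q, Red_P p P Q := by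
  obtain ⟨N, hN⟩ : ∃ N : ℕ, N = ∑ i ∈ Finset.range (P.natDegree + 1), (P.coeff i).den := ⟨_, rfl⟩
  filter_upwards [eventually_gt_atTop N] with p hp hprime
  refine Red_P.exists fun i => ?_
  rw [Red_mem]
  intro h
  rw [ZMod.natCast_eq_zero_iff] at h
  have h1 := Nat.le_of_dvd (P.coeff i).den_pos h
  by_cases hi : i < P.natDegree + 1
  · have h2 : (P.coeff i).den ≤ N := by
      rw [hN]
      exact Finset.single_le_sum (f := fun i => (P.coeff i).den) (fun _ _ => Nat.zero_le _)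
        (Finset.mem_range.2 hi)
    omega
  · rw [Polynomial.coeff_eq_zero_of_natDegree_lt (by omega), Rat.den_zero] at h1
    have := hprime.out.two_le
    omega

open Filter in
theorem Red_ev_ser {n : ℕ} {y : ℚ⟦X⟧} (hy : IsDeg ℚ n y) :
    ∀ᶠ p : ℕ in atTop, ∀ _ : Fact p.Prime, ∃ z, Red_R p y z := by
  obtain ⟨M, hM, h⟩ := eisenstein hy
  filter_upwards [eventually_gt_atTop M] with p hp hprime
  refine Red_R.exists fun i => ?_
  rw [Red_mem]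
  intro h0
  rw [ZMod.natCast_eq_zero_iff] at h0
  obtain ⟨j, m, hjm⟩ := h i
  have hM0 : (M : ℚ) ^ j ≠ 0 := pow_ne_zero _ (by exact_mod_cast (by omega : M ≠ 0))
  have h1 : PowerSeries.coeff i y = Rat.divInt m ((M ^ j : ℕ) : ℤ) := by
    rw [Rat.divInt_eq_div, eq_div_iff (by exact_mod_cast hM0)]
    push_cast
    rw [mul_comm]
    exact hjm
  have h2 := Rat.den_dvd m ((M ^ j : ℕ) : ℤ)
  rw [← h1] at h2
  have h3 : p ∣ M ^ j := h0.trans (Int.natCast_dvd_natCast.1 h2)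
  have h4 := hprime.out.dvd_of_dvd_pow h3
  have h5 := Nat.le_of_dvd (by omega) h4
  omega

open Filter in
theorem Red_ev_deg {n : ℕ} {y : ℚ⟦X⟧} (hy : IsDeg ℚ n y) :
    ∀ᶠ p : ℕ in atTop, ∀ _ : Fact p.Prime, ∀ z, Red_R p y z → IsDeg (ZMod p) n z := by
  obtain ⟨R, a, hR, ha, h0⟩ := hy
  have h1 : ∀ᶠ p : ℕ in atTop, ∀ m ∈ Finset.Icc 1 R, ∀ _ : Fact p.Prime, ∃ Q, Red_P p (a m) Q :=
    (Filter.eventually_all_finset _).2 fun m _ => Red_ev_poly (a m)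
  filter_upwards [h1] with p hp hprime z hz
  have h2 : ∀ m, ∃ Q : Polynomial (ZMod p), (m ∈ Finset.Icc 1 R → Red_P p (a m) Q) ∧
      Q.natDegree ≤ n * m := by
    intro m
    by_cases hm : m ∈ Finset.Icc 1 R
    · obtain ⟨Q, hQ⟩ := hp m hm hprime
      exact ⟨Q, fun _ => hQ, hQ.natDegree.trans (ha m)⟩
    · exact ⟨0, fun h => absurd h hm, by simp⟩
  choose Q hQ1 hQ2 using h2
  refine ⟨R, Q, hR, hQ2, ?_⟩
  have h3 : Red_R p (y ^ R + ∑ m ∈ Finset.Icc 1 R, OU.evl ℚ (a m) * y ^ (R - m))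
      (z ^ R + ∑ m ∈ Finset.Icc 1 R, OU.evl (ZMod p) (Q m) * z ^ (R - m)) :=
    (hz.pow R).add (Red_R.sum _ fun m hm => (Red_R.evl (hQ1 m hm)).mul (hz.pow _))
  rw [h0] at h3
  exact h3.unique Red_R.zero

open Filter in
theorem Red_ev_SPn {r : ℕ} {e : Fin r → ℚ⟦X⟧} {y : ℚ⟦X⟧} {n : ℕ} (hy : y ∈ SPn ℚ e n) :
    ∀ᶠ p : ℕ in atTop, ∀ _ : Fact p.Prime, ∀ (E : Fin r → (ZMod p)⟦X⟧) (z : (ZMod p)⟦X⟧),
      (∀ l, Red_R p (e l) (E l)) → Red_R p y z → z ∈ SPn (ZMod p) E n := by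
  obtain ⟨P, hP, h0⟩ := hy
  have h1 : ∀ᶠ p : ℕ in atTop, ∀ l, ∀ _ : Fact p.Prime, ∃ Q, Red_P p (P l) Q :=
    Filter.eventually_all.2 fun l => Red_ev_poly (P l)
  filter_upwards [h1] with p hp hprime E z hE hz
  choose Q hQ using fun l => hp l hprime
  refine ⟨Q, fun l => (hQ l).natDegree.trans (hP l), ?_⟩
  have h3 : Red_R p (∑ l, OU.evl ℚ (P l) * e l) (∑ l, OU.evl (ZMod p) (Q l) * E l) :=
    Red_R.sum _ fun l _ => (Red_R.evl (hQ l)).mul (hE l)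
  rw [← h0] at h3
  exact hz.unique h3

theorem Red_SP_SPn {r : ℕ} {e : Fin r → ℚ⟦X⟧} {y : ℚ⟦X⟧} (hy : y ∈ SP ℚ e) :
    ∃ n, y ∈ SPn ℚ e n := by
  obtain ⟨P, hP⟩ := hy
  exact ⟨∑ l, (P l).natDegree, P, fun l =>
    Finset.single_le_sum (f := fun l => (P l).natDegree) (fun _ _ => Nat.zero_le _)
      (Finset.mem_univ l), hP⟩

theorem Red_SPn_SP {K : Type*} [Field K] {r : ℕ} {e : Fin r → K⟦X⟧} {y : K⟦X⟧} {n : ℕ}
    (hy : y ∈ SPn K e n) : y ∈ SP K e := by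
  obtain ⟨P, _, hP⟩ := hy
  exact ⟨P, hP⟩

theorem red (f : ℤ⟦X⟧) (k : ℕ) (hf : LForm ℚ k (PowerSeries.map (Int.castRingHom ℚ) f)) :
    ∃ r c p0 : ℕ, 1 ≤ r ∧ ∀ (p : ℕ) [Fact p.Prime], p0 < p →
      ∃ e : Fin r → (ZMod p)⟦X⟧, RD (ZMod p) r c e ∧
        PowerSeries.map (Int.castRingHom (ZMod p)) f * (U (ZMod p))⁻¹ ^ k ∈ SPn (ZMod p) e c ∧
        dbl (ZMod p) (PowerSeries.map (Int.castRingHom (ZMod p)) f) * (U (ZMod p))⁻¹ ^ k ∈
          SPn (ZMod p) e c := by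
  obtain ⟨r, e, hLD, h1, h2, -, -⟩ := hf
  obtain ⟨c0, hb1, hb2, hb3, hb4⟩ := hLD.bounds
  obtain ⟨n1, hn1⟩ := Red_SP_SPn h1
  obtain ⟨n2, hn2⟩ := Red_SP_SPn h2
  have hr : 1 ≤ r := by
    by_contra hr
    have hr0 : r = 0 := by omega
    subst hr0
    obtain ⟨P, hP⟩ := hLD.one
    simp at hP
  obtain ⟨c, hc⟩ : ∃ c : ℕ, c = c0 + n1 + n2 := ⟨_, rfl⟩
  have k3 : ∀ l, OT.del ℚ (e l) ∈ SPn ℚ e c := fun l => MPg_mono (by omega) (hb3 l)
  have k5 : PowerSeries.map (Int.castRingHom ℚ) f * (U ℚ)⁻¹ ^ k ∈ SPn ℚ e c :=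
    MPg_mono (by omega) hn1
  have k6 : dbl ℚ (PowerSeries.map (Int.castRingHom ℚ) f) * (U ℚ)⁻¹ ^ k ∈ SPn ℚ e c :=
    MPg_mono (by omega) hn2
  have k4 : ∀ l, IsDeg ℚ c (e l) := fun l => IsDeg.mono (by omega) (hb4 l)
  have E1 := Red_ev_SPn hb1
  have E2 := Filter.eventually_all.2 fun l => Filter.eventually_all.2 fun l' => Red_ev_SPn (hb2 l l')
  have E3 := Filter.eventually_all.2 fun l => Red_ev_SPn (k3 l)
  have E4 := Filter.eventually_all.2 fun l => Red_ev_deg (k4 l)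
  have E5 := Red_ev_SPn k5
  have E6 := Red_ev_SPn k6
  have E7 := Filter.eventually_all.2 fun l => Red_ev_ser (k4 l)
  obtain ⟨p0, hp0⟩ := Filter.eventually_atTop.1 ((((((E1.and E2).and E3).and E4).and E5).and E6).and E7)
  refine ⟨r, c, p0, hr, ?_⟩
  intro p hp hpp
  obtain ⟨⟨⟨⟨⟨⟨g1, g2⟩, g3⟩, g4⟩, g5⟩, g6⟩, g7⟩ := hp0 p hpp.le
  choose E hE using fun l => g7 l hp
  refine ⟨E, ⟨?_, ?_, ?_, ?_⟩, ?_, ?_⟩
  · exact Red_SPn_SP (g1 hp E 1 hE Red_R.one)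
  · intro l l'
    exact Red_SPn_SP (g2 l l' hp E _ hE ((hE l).mul (hE l')))
  · intro l
    exact g3 l hp E _ hE (hE l).del
  · intro l
    exact g4 l hp _ (hE l)
  · exact g5 hp E _ hE ((Red_R.int f).mul (Red_R.Uinv.pow k))
  · exact g6 hp E _ hE ((Red_R.int f).dbl.mul (Red_R.Uinv.pow k))

end Pool.Agent.H85.OU

end S_OU_Red

section S_OT_Cform

/-!
# Row CFORM (project OT): forms as polynomials in `x` over `ℚ` and in `λ` over `F_p`

`M f = ∑_{j ≤ w} c_j (th3^4)^(w-j) (th4^4)^j`.  Images in `K⟦X⟧` (`K` a field in which `M ≠ 0`):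
`th3^4 ↦ U²`, `th4^4 ↦ V² = x² U²` (`xx_mul_U`), so `f ↦ U^(2w) φ(x)`, `φ = ∑ (c_j/M) X^(2j)`; and with
`x² = 1 - λ`: `f ↦ U^(2w) P(λ)`, `P = ∑ (c_j/M) (1-X)^j`, degree `≤ w`.
`dbl`: `dbl (U²) = U² (1+x)²/4` (`dbl_U_sq`), `dbl (V²) = U² x` (`dbl_V_sq`), so
`dbl f ↦ U^(2w) ∑ (c_j/M) ((1+x)²/4)^(w-j) x^j`, degree `≤ 2w`.
-/

open PowerSeries

namespace Pool.Agent.H85.OT

private theorem CFORM_K (K : Type*) [Field K] {w : ℕ} {f : ℤ⟦X⟧} {M : ℤ} {c : ℕ → ℤ} (hM : (M : K) ≠ 0)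
    (h : PowerSeries.C M * f =
      ∑ j ∈ Finset.range (w + 1), PowerSeries.C (c j) * (th3 ^ 4) ^ (w - j) * (th4 ^ 4) ^ j) :
    PowerSeries.map (Int.castRingHom K) f =
      ∑ j ∈ Finset.range (w + 1), PowerSeries.C ((c j : K) / (M : K)) * (U K ^ 2) ^ (w - j) *
        (V K ^ 2) ^ j := by
  have e3 : U K ^ 2 = PowerSeries.map (Int.castRingHom K) (th3 ^ 4) := by
    rw [U, ← map_pow, ← pow_mul]
  have e4 : V K ^ 2 = PowerSeries.map (Int.castRingHom K) (th4 ^ 4) := by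
    rw [V, ← map_pow, ← pow_mul]
  have h1 := congrArg (PowerSeries.map (Int.castRingHom K)) h
  rw [map_mul, PowerSeries.map_C, map_sum, Int.coe_castRingHom] at h1
  have hC : (PowerSeries.C (M : K) : K⟦X⟧) ≠ 0 := by
    intro h0
    apply hM
    have h2 := congrArg (PowerSeries.constantCoeff (R := K)) h0
    simpa using h2
  apply mul_left_cancel₀ hC
  rw [h1, Finset.mul_sum]
  refine Finset.sum_congr rfl fun j _ => ?_
  rw [map_mul, map_mul, map_pow _ (th3 ^ 4) (w - j), map_pow _ (th4 ^ 4) j, PowerSeries.map_C, ← e3, ← e4,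
    ← mul_assoc, ← mul_assoc, ← map_mul, mul_div_cancel₀ _ hM, Int.coe_castRingHom]

private theorem CFORM_V (K : Type*) [Field K] {w j : ℕ} (hj : j ≤ w) (a : K) :
    (PowerSeries.C a : K⟦X⟧) * (U K ^ 2) ^ (w - j) * (V K ^ 2) ^ j =
      U K ^ (2 * w) * (PowerSeries.C a * (xx K ^ 2) ^ j) := by
  obtain ⟨k, rfl⟩ := Nat.exists_eq_add_of_le hj
  rw [← xx_mul_U, Nat.add_sub_cancel_left]
  ring

private theorem CFORM_C (K : Type*) [Field K] (a : K) (y : K⟦X⟧) (Q : Polynomial K) :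
    Polynomial.aeval y (Polynomial.C a * Q) = PowerSeries.C a * Polynomial.aeval y Q := by
  rw [map_mul, Polynomial.aeval_C]
  rfl

theorem form_x {w : ℕ} {f : ℤ⟦X⟧} (hf : IsForm w f) :
    ∃ φ : Polynomial ℚ, φ.natDegree ≤ 2 * w ∧
      PowerSeries.map (Int.castRingHom ℚ) f = U ℚ ^ (2 * w) * Polynomial.aeval (xx ℚ) φ := by
  obtain ⟨M, c, hM, h⟩ := hf
  have hM' : (M : ℚ) ≠ 0 := Int.cast_ne_zero.2 hM
  refine ⟨∑ j ∈ Finset.range (w + 1), Polynomial.C ((c j : ℚ) / M) * (Polynomial.X ^ 2) ^ j, ?_, ?_⟩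
  · refine Polynomial.natDegree_sum_le_of_forall_le _ _ fun j hj => ?_
    rw [← pow_mul]
    refine (Polynomial.natDegree_C_mul_X_pow_le _ _).trans ?_
    have := Finset.mem_range.1 hj
    omega
  · rw [CFORM_K ℚ hM' h, map_sum, Finset.mul_sum]
    refine Finset.sum_congr rfl fun j hj => ?_
    rw [CFORM_V ℚ (Nat.lt_succ_iff.1 (Finset.mem_range.1 hj)), CFORM_C, map_pow, map_pow,
      Polynomial.aeval_X]

theorem form_dbl_x {w : ℕ} {f : ℤ⟦X⟧} (hf : IsForm w f) :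
    ∃ φ : Polynomial ℚ, φ.natDegree ≤ 2 * w ∧
      dbl ℚ (PowerSeries.map (Int.castRingHom ℚ) f) =
        U ℚ ^ (2 * w) * Polynomial.aeval (xx ℚ) φ := by
  obtain ⟨M, c, hM, h⟩ := hf
  have hM' : (M : ℚ) ≠ 0 := Int.cast_ne_zero.2 hM
  have hU : dbl ℚ (U ℚ ^ 2) = PowerSeries.C (1 / 4 : ℚ) * (U ℚ ^ 2 * (1 + xx ℚ) ^ 2) := by
    rw [← dbl_U_sq ℚ (by norm_num), ← mul_assoc]
    have h4 : (4 : ℚ⟦X⟧) = PowerSeries.C (4 : ℚ) := (map_ofNat (PowerSeries.C (R := ℚ)) 4).symm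
    rw [h4, ← map_mul]
    norm_num
  have hC : ∀ a : ℚ, dbl ℚ (PowerSeries.C a) = PowerSeries.C a := fun a => (dbl ℚ).commutes a
  refine ⟨∑ j ∈ Finset.range (w + 1), Polynomial.C ((c j : ℚ) / M) *
    (Polynomial.C (1 / 4) * (1 + Polynomial.X) ^ 2) ^ (w - j) * Polynomial.X ^ j, ?_, ?_⟩
  · refine Polynomial.natDegree_sum_le_of_forall_le _ _ fun j hj => ?_
    have hj' := Finset.mem_range.1 hj
    have h1 : ((Polynomial.C (1 / 4 : ℚ) * (1 + Polynomial.X) ^ 2) ^ (w - j)).natDegree ≤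
        (w - j) * 2 := by
      refine Polynomial.natDegree_pow_le_of_le _ ((Polynomial.natDegree_C_mul_le _ _).trans ?_)
      have h2 : (1 + Polynomial.X : Polynomial ℚ).natDegree ≤ 1 := by
        rw [add_comm, ← Polynomial.C_1]
        exact (Polynomial.natDegree_X_add_C _).le
      exact (Polynomial.natDegree_pow_le_of_le 2 h2).trans (by norm_num)
    rw [mul_assoc]
    refine (Polynomial.natDegree_C_mul_le _ _).trans (Polynomial.natDegree_mul_le.trans ?_)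
    rw [Polynomial.natDegree_X_pow]
    omega
  · rw [CFORM_K ℚ hM' h, map_sum, map_sum, Finset.mul_sum]
    refine Finset.sum_congr rfl fun j hj => ?_
    obtain ⟨k, hk⟩ := Nat.exists_eq_add_of_le (Nat.lt_succ_iff.1 (Finset.mem_range.1 hj))
    rw [map_mul, map_mul, map_pow _ (U ℚ ^ 2) (w - j), map_pow _ (V ℚ ^ 2) j, hC, hU, dbl_V_sq ℚ (by norm_num),
      mul_assoc (Polynomial.C _), CFORM_C, map_mul,
      map_pow, map_pow, CFORM_C, map_pow, map_add, map_one, Polynomial.aeval_X, hk, Nat.add_sub_cancel_left,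
      mul_left_comm (PowerSeries.C (1 / 4 : ℚ)) (U ℚ ^ 2), mul_pow (U ℚ ^ 2)]
    ring

/-- for all large primes `f mod p` is nonzero and a form in the sense of `Mf` -/
theorem form_lam {w : ℕ} {f : ℤ⟦X⟧} (hf : IsForm w f) (hne : f ≠ 0) :
    ∃ p0 : ℕ, 2 ≤ p0 ∧ ∀ (p : ℕ) [Fact p.Prime], p0 < p →
      PowerSeries.map (Int.castRingHom (ZMod p)) f ≠ 0 ∧
      Mf p w (PowerSeries.map (Int.castRingHom (ZMod p)) f) := by
  obtain ⟨M, c, hM, h⟩ := hf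
  obtain ⟨n, hn⟩ : ∃ n, PowerSeries.coeff n f ≠ 0 := by
    by_contra h0
    push Not at h0
    exact hne (PowerSeries.ext fun n => by rw [h0 n, map_zero])
  have key : ∀ (a : ℤ), a ≠ 0 → ∀ (p : ℕ) [Fact p.Prime], a.natAbs < p → (a : ZMod p) ≠ 0 := by
    intro a ha p _ hp h0
    rw [ZMod.intCast_zmod_eq_zero_iff_dvd] at h0
    have h1 := Int.natCast_dvd.1 h0
    have h2 := Nat.le_of_dvd (Int.natAbs_pos.2 ha) h1
    omega
  refine ⟨2 + M.natAbs + (PowerSeries.coeff n f).natAbs, by omega, fun p _ hp => ⟨?_, ?_⟩⟩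
  · intro h0
    have h1 := congrArg (PowerSeries.coeff n) h0
    rw [PowerSeries.coeff_map, map_zero] at h1
    exact key _ hn p (by omega) h1
  · have hM' : (M : ZMod p) ≠ 0 := key M hM p (by omega)
    refine ⟨∑ j ∈ Finset.range (w + 1), Polynomial.C ((c j : ZMod p) / (M : ZMod p)) *
      (1 - Polynomial.X) ^ j, ?_, ?_⟩
    · refine Polynomial.natDegree_sum_le_of_forall_le _ _ fun j hj => ?_
      refine (Polynomial.natDegree_C_mul_le _ _).trans ?_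
      have h2 : (1 - Polynomial.X : Polynomial (ZMod p)).natDegree ≤ 1 := by
        refine (Polynomial.natDegree_sub_le _ _).trans ?_
        rw [Polynomial.natDegree_one, Polynomial.natDegree_X]
        norm_num
      refine (Polynomial.natDegree_pow_le_of_le j h2).trans ?_
      rw [mul_one]
      exact Nat.lt_succ_iff.1 (Finset.mem_range.1 hj)
    · rw [CFORM_K (ZMod p) hM' h, map_sum, Finset.mul_sum]
      refine Finset.sum_congr rfl fun j hj => ?_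
      rw [CFORM_V (ZMod p) (Nat.lt_succ_iff.1 (Finset.mem_range.1 hj)), CFORM_C, map_pow, map_sub, map_one,
        Polynomial.aeval_X, lam, sub_sub_cancel]

end Pool.Agent.H85.OT

end S_OT_Cform

section S_OT_Cze

/-!
# Row CZE (project OT): the zero estimate for `Phi`

`w ≥ 2`, `κ = 2w - 2`, `T1 = F1 f * (U⁻¹)^κ`, `T2 = F2 f * (U⁻¹)^κ` in `ℚ⟦X⟧`.
* `D F1 = f` (coefficient `n`: `n * (a_n/n) = a_n`, for `n = 0` use `a_0 = 0`), `D F2 = 2 dbl f`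
  (`D (dbl G) = 2 dbl (D G)`: compare coefficients).
* `del T1 = U^(-2) (f U^(-κ) - κ ε F1 U^(-κ)) = f U^(-2w) - κ z T1 = φ1(x) - κ z T1` with
  `φ1 = φ` of `form_x` (`D U = ε U`, `D U⁻¹ = - ε U⁻¹`, `zz = ε U^(-2)`, `U^(-2) U^(-κ) = U^(-2w)`);
  `del T2 = φ2(x) - κ z T2` with `φ2 = 2 φ'`, `φ'` of `form_dbl_x`.
* degrees `≤ 2w = κ + 2 ≤ 2κ + 1`.  `φ1 ≠ 0` since `f ≠ 0`.  `φ2 ≠ c φ1`: otherwise
  `2 dbl f = c f` in `ℚ⟦X⟧`; let `r ≥ 1` be the order of `f` (`a_0 = 0`); coefficient `r` of `dbl f`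
  is `0` (its order is `2 r > r`) so `c a_r = 0`, `c = 0`, so `dbl f = 0`, `f = 0`.
* `zero_estimate` gives `C`.  Let `t ≠ 0`, `P i j = ∑_e t_(i,j,e) X^e` (degree `≤ n`, not all `0`).  Then
  `Phi = U^(n + 2κE) ∑ P i j (x) T1^i T2^j`: `U^(n+κ(2E-i-j)-e) V^e F1^i F2^j`
  `= U^(n + 2κE) x^e (F1 U^(-κ))^i (F2 U^(-κ))^j` (`i + j < 2E`, `e ≤ n`).
  If all coefficients `≤ C(n+1)` of `Phi` vanish so do those of `U^(-(n+2κE)) Phi` (multiplication by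
  a power series), contradiction.
-/

open PowerSeries

namespace Pool.Agent.H85.OT

private theorem Cze_dbl (F : ℚ⟦X⟧) (n : ℕ) : PowerSeries.coeff n (dbl ℚ F) =
    if 2 ∣ n then PowerSeries.coeff (n / 2) F else 0 := by
  unfold dbl
  exact PowerSeries.coeff_expand _ _ _

private theorem Cze_Ddbl (F : ℚ⟦X⟧) : Dq ℚ (dbl ℚ F) = 2 * dbl ℚ (Dq ℚ F) := by
  ext n
  have h2 : (2 : ℚ⟦X⟧) = PowerSeries.C (2 : ℚ) := (map_ofNat PowerSeries.C 2).symm
  rw [coeff_Dq, h2, PowerSeries.coeff_C_mul, Cze_dbl, Cze_dbl]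
  split_ifs with h
  · obtain ⟨m, rfl⟩ := h
    rw [coeff_Dq, Nat.mul_div_cancel_left m (by norm_num)]
    push_cast
    ring
  · ring

private theorem Cze_DF1 {f : ℤ⟦X⟧} (h0 : PowerSeries.coeff 0 f = 0) :
    Dq ℚ (F1 f) = PowerSeries.map (Int.castRingHom ℚ) f := by
  ext n
  rw [coeff_Dq, F1, PowerSeries.coeff_mk, PowerSeries.coeff_map]
  rcases Nat.eq_zero_or_pos n with rfl | hn
  · rw [h0]
    simp
  · have hn' : (n : ℚ) ≠ 0 := by exact_mod_cast hn.ne'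
    show (n : ℚ) * (((PowerSeries.coeff n f : ℤ) : ℚ) / n) = ((PowerSeries.coeff n f : ℤ) : ℚ)
    field_simp

private theorem Cze_DI : Dq ℚ (U ℚ)⁻¹ = -(ee ℚ * (U ℚ)⁻¹) := by
  have h1 := U_mul_inv ℚ
  have h2 : Dq ℚ (U ℚ * (U ℚ)⁻¹) = 0 := by
    rw [h1]
    exact Derivation.map_one_eq_zero _
  rw [Derivation.leibniz, smul_eq_mul, smul_eq_mul, Dq_U] at h2
  linear_combination (U ℚ)⁻¹ * h2 - (Dq ℚ (U ℚ)⁻¹ + ee ℚ * (U ℚ)⁻¹) * h1

private theorem Cze_DIpow (k : ℕ) : Dq ℚ ((U ℚ)⁻¹ ^ k) = -((k : ℚ⟦X⟧) * ee ℚ * (U ℚ)⁻¹ ^ k) := by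
  induction k with
  | zero =>
    rw [pow_zero, Derivation.map_one_eq_zero]
    simp
  | succ k ih =>
    rw [pow_succ, Derivation.leibniz, smul_eq_mul, smul_eq_mul, ih, Cze_DI]
    push_cast
    ring

private theorem Cze_del {κ w : ℕ} (hκ : κ + 2 = 2 * w) {F g : ℚ⟦X⟧} {φ : Polynomial ℚ}
    (hF : Dq ℚ F = g) (hg : g = U ℚ ^ (2 * w) * Polynomial.aeval (xx ℚ) φ) :
    del ℚ (F * (U ℚ)⁻¹ ^ κ) = Polynomial.aeval (xx ℚ) φ -
      (κ : ℚ⟦X⟧) * zz ℚ * (F * (U ℚ)⁻¹ ^ κ) := by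
  have h1 : U ℚ ^ (2 * w) * (U ℚ)⁻¹ ^ (2 * w) = 1 := by
    rw [← mul_pow, U_mul_inv, one_pow]
  have h2 : (U ℚ)⁻¹ ^ (2 * w) = (U ℚ)⁻¹ ^ κ * (U ℚ)⁻¹ ^ 2 := by
    rw [← hκ, pow_add]
  rw [h2] at h1
  rw [del_apply, Derivation.leibniz, smul_eq_mul, smul_eq_mul, hF, Cze_DIpow, hg, zz]
  linear_combination Polynomial.aeval (xx ℚ) φ * h1

private theorem Cze_inj {f : ℤ⟦X⟧} (hne : f ≠ 0) : PowerSeries.map (Int.castRingHom ℚ) f ≠ 0 := by
  intro h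
  apply hne
  ext n
  have h1 := congrArg (PowerSeries.coeff n) h
  rw [PowerSeries.coeff_map, map_zero] at h1
  rw [map_zero]
  have h2 : ((PowerSeries.coeff n f : ℤ) : ℚ) = 0 := h1
  exact_mod_cast h2

private theorem Cze_indep {g : ℚ⟦X⟧} (hg : g ≠ 0) (h0 : PowerSeries.coeff 0 g = 0) (c : ℚ) :
    2 * dbl ℚ g ≠ PowerSeries.C c * g := by
  classical
  intro h
  have hex : ∃ n, PowerSeries.coeff n g ≠ 0 := by
    by_contra hcon
    push Not at hcon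
    exact hg (PowerSeries.ext fun n => by rw [hcon n, map_zero])
  have hr := Nat.find_spec hex
  have hmin : ∀ m < Nat.find hex, PowerSeries.coeff m g = 0 := fun m hm =>
    not_not.1 (Nat.find_min hex hm)
  have hr0 : Nat.find hex ≠ 0 := by
    intro h1
    rw [h1] at hr
    exact hr h0
  have h2 : (2 : ℚ⟦X⟧) = PowerSeries.C (2 : ℚ) := (map_ofNat PowerSeries.C 2).symm
  have h3 : ∀ n, 2 * PowerSeries.coeff n (dbl ℚ g) = c * PowerSeries.coeff n g := by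
    intro n
    have h4 := congrArg (PowerSeries.coeff n) h
    rw [h2, PowerSeries.coeff_C_mul, PowerSeries.coeff_C_mul] at h4
    exact h4
  have hc : c = 0 := by
    have h4 := h3 (Nat.find hex)
    rw [Cze_dbl] at h4
    have h5 : (if 2 ∣ Nat.find hex then PowerSeries.coeff (Nat.find hex / 2) g else 0) = 0 := by
      split_ifs
      · exact hmin _ (by omega)
      · rfl
    rw [h5, mul_zero] at h4
    rcases mul_eq_zero.1 h4.symm with h6 | h6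
    · exact h6
    · exact absurd h6 hr
  have h4 := h3 (2 * Nat.find hex)
  rw [Cze_dbl, if_pos (Dvd.intro _ rfl), Nat.mul_div_cancel_left _ (by norm_num), hc,
    zero_mul] at h4
  rcases mul_eq_zero.1 h4 with h6 | h6
  · norm_num at h6
  · exact hr h6

private theorem Cze_GG (f : ℤ⟦X⟧) (κ E n : ℕ) (s : Fin E × Fin E × Fin (n + 1)) :
    GG f κ E n s = U ℚ ^ (n + 2 * κ * E) * (xx ℚ ^ (s.2.2 : ℕ) *
      (F1 f * (U ℚ)⁻¹ ^ κ) ^ (s.1 : ℕ) * (F2 f * (U ℚ)⁻¹ ^ κ) ^ (s.2.1 : ℕ)) := by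
  obtain ⟨i, j, e⟩ := s
  have hi := i.2
  have hj := j.2
  have he := e.2
  unfold GG
  show U ℚ ^ (n + κ * (2 * E - (i : ℕ) - (j : ℕ)) - (e : ℕ)) * V ℚ ^ (e : ℕ) *
    F1 f ^ (i : ℕ) * F2 f ^ (j : ℕ) = U ℚ ^ (n + 2 * κ * E) * (xx ℚ ^ (e : ℕ) *
      (F1 f * (U ℚ)⁻¹ ^ κ) ^ (i : ℕ) * (F2 f * (U ℚ)⁻¹ ^ κ) ^ (j : ℕ))
  obtain ⟨m, hm⟩ : ∃ m, 2 * E - (i : ℕ) - (j : ℕ) = m := ⟨_, rfl⟩
  have hE : 2 * E = m + i + j := by omega
  obtain ⟨q, hq⟩ : ∃ q, n + κ * m - (e : ℕ) = q := ⟨_, rfl⟩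
  have hq2 : n + κ * m = q + e := by
    have h1 : (e : ℕ) ≤ n + κ * m := by
      have : 0 ≤ κ * m := Nat.zero_le _
      omega
    omega
  have h1 : n + 2 * κ * E = q + e + κ * i + κ * j := by
    have h2 : n + 2 * κ * E = n + κ * (2 * E) := by ring
    rw [h2, hE, ← hq2]
    ring
  rw [hm, hq, h1, ← xx_mul_U, mul_pow, mul_pow, mul_pow, ← pow_mul, ← pow_mul, pow_add, pow_add,
    pow_add]
  have h2 : U ℚ ^ (κ * (i : ℕ)) * (U ℚ)⁻¹ ^ (κ * (i : ℕ)) = 1 := by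
    rw [← mul_pow, U_mul_inv, one_pow]
  have h3 : U ℚ ^ (κ * (j : ℕ)) * (U ℚ)⁻¹ ^ (κ * (j : ℕ)) = 1 := by
    rw [← mul_pow, U_mul_inv, one_pow]
  have h4 : U ℚ ^ q * U ℚ ^ (e : ℕ) * U ℚ ^ (κ * (i : ℕ)) * U ℚ ^ (κ * (j : ℕ)) *
      (xx ℚ ^ (e : ℕ) * (F1 f ^ (i : ℕ) * (U ℚ)⁻¹ ^ (κ * (i : ℕ))) *
        (F2 f ^ (j : ℕ) * (U ℚ)⁻¹ ^ (κ * (j : ℕ)))) =
      U ℚ ^ q * (xx ℚ ^ (e : ℕ) * U ℚ ^ (e : ℕ)) * F1 f ^ (i : ℕ) * F2 f ^ (j : ℕ) *
        ((U ℚ ^ (κ * (i : ℕ)) * (U ℚ)⁻¹ ^ (κ * (i : ℕ))) *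
          (U ℚ ^ (κ * (j : ℕ)) * (U ℚ)⁻¹ ^ (κ * (j : ℕ)))) := by ring
  rw [h4, h2, h3, mul_one, mul_one]

/-- the polynomials -/
private noncomputable def Cze_P {E n : ℕ} (t : Fin E × Fin E × Fin (n + 1) → ℤ) (i j : ℕ) :
    Polynomial ℚ :=
  if h : i < E ∧ j < E then
    ∑ e : Fin (n + 1), Polynomial.monomial (e : ℕ) ((t (⟨i, h.1⟩, ⟨j, h.2⟩, e) : ℤ) : ℚ)
  else 0

private theorem Cze_P_eq {E n : ℕ} (t : Fin E × Fin E × Fin (n + 1) → ℤ) (i j : Fin E) :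
    Cze_P t i j = ∑ e : Fin (n + 1), Polynomial.monomial (e : ℕ) ((t (i, j, e) : ℤ) : ℚ) := by
  unfold Cze_P
  rw [dif_pos ⟨i.2, j.2⟩]

private theorem Cze_P_deg {E n : ℕ} (t : Fin E × Fin E × Fin (n + 1) → ℤ) (i j : ℕ) :
    (Cze_P t i j).natDegree ≤ n := by
  unfold Cze_P
  split_ifs with h
  · refine Polynomial.natDegree_sum_le_of_forall_le _ _ (fun e _ => ?_)
    exact (Polynomial.natDegree_monomial_le _).trans (Nat.lt_succ_iff.1 e.2)
  · rw [Polynomial.natDegree_zero]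
    exact Nat.zero_le _

private theorem Cze_P_coeff {E n : ℕ} (t : Fin E × Fin E × Fin (n + 1) → ℤ) (i j : Fin E)
    (e : Fin (n + 1)) : (Cze_P t i j).coeff e = ((t (i, j, e) : ℤ) : ℚ) := by
  rw [Cze_P_eq, Polynomial.finsetSum_coeff, Finset.sum_eq_single e]
  · rw [Polynomial.coeff_monomial, if_pos rfl]
  · intro b _ hb
    rw [Polynomial.coeff_monomial, if_neg (fun h => hb (Fin.ext h))]
  · intro h
    exact absurd (Finset.mem_univ _) h

private theorem Cze_Phi (f : ℤ⟦X⟧) (κ E n : ℕ) (t : Fin E × Fin E × Fin (n + 1) → ℤ) :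
    Phi f κ E n t = U ℚ ^ (n + 2 * κ * E) * ∑ i ∈ Finset.range E, ∑ j ∈ Finset.range E,
      Polynomial.aeval (xx ℚ) (Cze_P t i j) * (F1 f * (U ℚ)⁻¹ ^ κ) ^ i *
        (F2 f * (U ℚ)⁻¹ ^ κ) ^ j := by
  unfold Phi
  rw [Finset.sum_range, Finset.mul_sum, Fintype.sum_prod_type]
  refine Finset.sum_congr rfl fun i _ => ?_
  rw [Finset.sum_range, Finset.mul_sum, Fintype.sum_prod_type]
  refine Finset.sum_congr rfl fun j _ => ?_
  rw [Cze_P_eq, map_sum, Finset.sum_mul, Finset.sum_mul, Finset.mul_sum]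
  refine Finset.sum_congr rfl fun e _ => ?_
  rw [Cze_GG, Polynomial.aeval_monomial]
  show PowerSeries.C ((t (i, j, e) : ℤ) : ℚ) * _ = _
  have h1 : algebraMap ℚ ℚ⟦X⟧ ((t (i, j, e) : ℤ) : ℚ) = PowerSeries.C ((t (i, j, e) : ℤ) : ℚ) :=
    rfl
  rw [h1]
  ring

theorem ze_phi (f : ℤ⟦X⟧) (w : ℕ) (hw : 2 ≤ w) (hf : IsForm w f) (hne : f ≠ 0)
    (h0 : PowerSeries.coeff 0 f = 0) (E : ℕ) :
    ∃ C : ℕ, ∀ (n : ℕ) (t : Fin E × Fin E × Fin (n + 1) → ℤ), t ≠ 0 →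
      ∃ l ≤ C * (n + 1), PowerSeries.coeff l (Phi f (2 * w - 2) E n t) ≠ 0 := by
  obtain ⟨κ, hκ⟩ : ∃ κ, 2 * w - 2 = κ := ⟨_, rfl⟩
  rw [hκ]
  have hκ2 : κ + 2 = 2 * w := by omega
  obtain ⟨φ1, hd1, hφ1⟩ := form_x hf
  obtain ⟨φ2, hd2, hφ2⟩ := form_dbl_x hf
  have hne' := Cze_inj hne
  have h0' : PowerSeries.coeff 0 (PowerSeries.map (Int.castRingHom ℚ) f) = 0 := by
    rw [PowerSeries.coeff_map, h0, map_zero]
  have h2C : algebraMap ℚ ℚ⟦X⟧ 2 = 2 := map_ofNat _ 2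
  have hT1 := Cze_del hκ2 (Cze_DF1 h0) hφ1
  have hT2 := Cze_del (F := F2 f) (φ := Polynomial.C 2 * φ2) hκ2
    (g := 2 * dbl ℚ (PowerSeries.map (Int.castRingHom ℚ) f))
    (by rw [F2, Cze_Ddbl, Cze_DF1 h0])
    (by
      rw [hφ2, map_mul, Polynomial.aeval_C, h2C]
      ring)
  obtain ⟨C, hC⟩ := zero_estimate κ (by omega) φ1 (Polynomial.C 2 * φ2)
    (by
      intro h
      rw [h, map_zero, mul_zero] at hφ1
      exact hne' hφ1)
    (by
      intro c h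
      refine Cze_indep hne' h0' c ?_
      have h3 := congrArg (Polynomial.aeval (xx ℚ)) h
      rw [map_mul, map_mul, Polynomial.aeval_C, Polynomial.aeval_C, h2C] at h3
      have h4 : algebraMap ℚ ℚ⟦X⟧ c = PowerSeries.C c := rfl
      rw [h4] at h3
      rw [hφ2]
      conv_rhs => rw [hφ1]
      linear_combination U ℚ ^ (2 * w) * h3)
    (by omega)
    ((Polynomial.natDegree_C_mul_le _ _).trans (by omega))
    _ _ hT1 hT2 E
  refine ⟨C, fun n t ht => ?_⟩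
  obtain ⟨⟨i, j, e⟩, hs⟩ : ∃ s, t s ≠ 0 := by
    by_contra hcon
    push Not at hcon
    exact ht (funext hcon)
  obtain ⟨l, hl, h3⟩ := hC n (fun i j => Cze_P t i j) (fun i _ j _ => Cze_P_deg t i j)
    ⟨i, i.2, j, j.2, by
      intro h4
      have h5 := Cze_P_coeff t i j e
      have h6 : Cze_P t i j = 0 := h4
      rw [h6, Polynomial.coeff_zero] at h5
      exact hs (by exact_mod_cast h5.symm)⟩
  by_contra hcon
  push Not at hcon
  have hvan : Van l (Phi f κ E n t) := fun l' hl' => hcon l' (hl'.trans hl)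
  have hI : (U ℚ)⁻¹ ^ (n + 2 * κ * E) * U ℚ ^ (n + 2 * κ * E) = 1 := by
    rw [← mul_pow, mul_comm (U ℚ)⁻¹, U_mul_inv, one_pow]
  have h7 := hvan.mul ((U ℚ)⁻¹ ^ (n + 2 * κ * E))
  rw [Cze_Phi, ← mul_assoc, hI, one_mul] at h7
  exact h3 (h7 l le_rfl)

end Pool.Agent.H85.OT

end S_OT_Cze

section S_OT_Ccore

/-!
# Row CCORE (project OT): the core inequality

`κ = 2w-2`.  `C0` from `ze_phi` (for `E`), `C = max C0 (E²)`; `p0 = max (p0 of form_lam) (2w+2)`.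
Given `ρ, B, n`: `Y = C(n+1)`, `T = E²(n+1)/2 ≤ Y`.  `siegel_phi` gives `t ≠ 0`.
Let `T'` be the least index with `coeff T' Phi ≠ 0` (`ze_phi`, `Nat.find`): `T ≤ T' ≤ C0 (n+1) ≤ Y`.
`m := Z0^(2E) coeff T' Phi` is an integer (`den_GG`, sum over `s`) and nonzero.
Each `p ∈ SS f κ E n p0 T'` divides `m` (`p_dvd` with `Z = Z0^(2E)`), so the product of these primes
divides `m` (`Finset.prod_primes_dvd`), is `≤ |m|`, and `∑ log p ≤ log |m|`.
`|m| ≤ Z0^(2E) ∑_s |t_s| |coeff T' GG_s| ≤ Z0^(2E) N (N Z0^(2E) MR^W B^(2E) ρ^(-T)) (MR^W B^(2E) ρ^(-T'))`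
with `N = E²(n+1)`, `W = n + 2κE` (`GG_bd`), and `ρ^(-T) ≤ ρ^(-T')`.  Taking logs:
`log|m| ≤ 4E log Z0 + 2 log N + 2 W log MR + 4 E log B + 2 T' log(ρ⁻¹)`.
-/

open PowerSeries

namespace Pool.Agent.H85.OT

private theorem Ccore_log {N z M b r : ℝ} (hN : 0 < N) (hz : 0 < z) (hM : 0 < M) (hb : 0 < b)
    (hr : 0 < r) {e W T : ℕ} :
    Real.log (N * ((N * (z ^ e * M ^ W * b ^ e * r ^ T)) * (z ^ e * (M ^ W * b ^ e * r ^ T)))) =
      2 * e * Real.log z + 2 * T * Real.log r + 2 * W * Real.log M + 2 * e * Real.log b +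
        2 * Real.log N := by
  have e1 : N * ((N * (z ^ e * M ^ W * b ^ e * r ^ T)) * (z ^ e * (M ^ W * b ^ e * r ^ T))) =
      N ^ 2 * z ^ (2 * e) * M ^ (2 * W) * b ^ (2 * e) * r ^ (2 * T) := by ring
  rw [e1, Real.log_mul (by positivity) (by positivity), Real.log_mul (by positivity) (by positivity),
    Real.log_mul (by positivity) (by positivity), Real.log_mul (by positivity) (by positivity),
    Real.log_pow, Real.log_pow, Real.log_pow, Real.log_pow, Real.log_pow]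
  push_cast
  ring

theorem core_ineq (f : ℤ⟦X⟧) (w : ℕ) (hw : 2 ≤ w) (hf : IsForm w f) (hne : f ≠ 0)
    (h0 : PowerSeries.coeff 0 f = 0) (E : ℕ) (hE : 2 ≤ E) :
    ∃ C p0 : ℕ, 1 ≤ C ∧ ∀ (ρ B : ℝ), 0 < ρ → ρ < 1 → 1 ≤ B → Bd ρ B (F1 f) → Bd ρ B (F2 f) →
      ∀ n : ℕ, ∃ T' : ℕ, E ^ 2 * (n + 1) / 2 ≤ T' ∧ T' ≤ C * (n + 1) ∧
        ∑ p ∈ SS f (2 * w - 2) E n p0 T', Real.log p ≤
          4 * E * Real.log (Z0 f (C * (n + 1))) + 2 * T' * Real.log (ρ⁻¹) +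
          2 * (n + 2 * ((2 * w - 2 : ℕ) : ℝ) * E) * Real.log (MR ρ) + 4 * E * Real.log B +
          2 * Real.log (E ^ 2 * (n + 1)) := by
  classical
  obtain ⟨C0, hC0⟩ := ze_phi f w hw hf hne h0 E
  obtain ⟨p0, hp0, hform⟩ := form_lam hf hne
  refine ⟨max C0 (E ^ 2), max p0 (2 * w + 2), ?_, ?_⟩
  · exact (Nat.one_le_pow 2 E (by omega)).trans (le_max_right _ _)
  intro ρ B hρ hρ1 hB hb1 hb2 n
  obtain ⟨Y, hY⟩ : ∃ Y : ℕ, Y = max C0 (E ^ 2) * (n + 1) := ⟨_, rfl⟩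
  obtain ⟨T, hT⟩ : ∃ T : ℕ, T = E ^ 2 * (n + 1) / 2 := ⟨_, rfl⟩
  rw [← hY, ← hT]
  have hTY : T ≤ Y := by
    rw [hT, hY]
    exact (Nat.div_le_self _ _).trans (Nat.mul_le_mul_right _ (le_max_right _ _))
  obtain ⟨t, ht0, hvan, htb⟩ := siegel_phi f (2 * w - 2) E n Y hE hρ hρ1 hB hb1 hb2
    (by rw [← hT]; exact hTY)
  rw [← hT] at hvan htb
  obtain ⟨l0, hl0, hl0'⟩ := hC0 n t ht0
  have hex : ∃ l, PowerSeries.coeff l (Phi f (2 * w - 2) E n t) ≠ 0 := ⟨l0, hl0'⟩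
  obtain ⟨T', hT1, hT2⟩ : ∃ T', PowerSeries.coeff T' (Phi f (2 * w - 2) E n t) ≠ 0 ∧
      ∀ l < T', PowerSeries.coeff l (Phi f (2 * w - 2) E n t) = 0 :=
    ⟨Nat.find hex, Nat.find_spec hex, fun l hl => not_not.1 (Nat.find_min hex hl)⟩
  have hTT : T ≤ T' := by
    by_contra h
    exact hT1 (hvan T' (not_le.1 h))
  have hTl : T' ≤ l0 := by
    by_contra h
    exact hl0' (hT2 l0 (not_le.1 h))
  have hT'Y : T' ≤ Y := by
    rw [hY]
    exact hTl.trans (hl0.trans (Nat.mul_le_mul_right _ (le_max_left _ _)))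
  refine ⟨T', hTT, hT'Y, ?_⟩
  choose ms hms using fun s => den_GG f (2 * w - 2) E n s Y T' hT'Y
  obtain ⟨m, hmdef⟩ : ∃ m : ℤ, m = ∑ s, t s * ms s := ⟨_, rfl⟩
  have hZ := Z0_pos f Y
  have hm : ((((Z0 f Y : ℕ) : ℤ) ^ (2 * E) : ℤ) : ℚ) *
      PowerSeries.coeff T' (Phi f (2 * w - 2) E n t) = m := by
    rw [Phi, map_sum, Finset.mul_sum, hmdef]
    push_cast
    refine Finset.sum_congr rfl fun s _ => ?_
    rw [PowerSeries.coeff_C_mul, ← hms s]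
    ring
  have hm0 : m ≠ 0 := by
    intro h
    rw [h, Int.cast_zero] at hm
    rcases mul_eq_zero.1 hm with h1 | h1
    · have h2 : ((Z0 f Y : ℕ) : ℤ) ^ (2 * E) = 0 := by exact_mod_cast h1
      have h3 := (pow_eq_zero_iff (by omega : 2 * E ≠ 0)).1 h2
      omega
    · exact hT1 h1
  have hdvd : ∀ p ∈ SS f (2 * w - 2) E n (max p0 (2 * w + 2)) T', (p : ℤ) ∣ m := by
    intro p hp
    rw [SS, Finset.mem_filter] at hp
    obtain ⟨-, hpp, hpl, hps, hpT⟩ := hp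
    have hfact : Fact p.Prime := ⟨hpp⟩
    obtain ⟨q1, q2⟩ := hform p ((le_max_left _ _).trans_lt hpl)
    exact p_dvd f h0 w hw p ((le_max_right _ _).trans_lt hpl) hps q1 q2 E n T' t hpT hT2 _ m hm
  have hprod : (∏ p ∈ SS f (2 * w - 2) E n (max p0 (2 * w + 2)) T', p) ∣ m.natAbs := by
    refine Finset.prod_primes_dvd _ (fun p hp => ?_) (fun p hp => ?_)
    · rw [SS, Finset.mem_filter] at hp
      exact hp.2.1.prime
    · exact Int.natCast_dvd.1 (hdvd p hp)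
  have hle := Nat.le_of_dvd (Int.natAbs_pos.2 hm0) hprod
  have hprime : ∀ p ∈ SS f (2 * w - 2) E n (max p0 (2 * w + 2)) T', (p : ℝ) ≠ 0 := by
    intro p hp
    rw [SS, Finset.mem_filter] at hp
    exact_mod_cast hp.2.1.ne_zero
  have hlog1 : ∑ p ∈ SS f (2 * w - 2) E n (max p0 (2 * w + 2)) T', Real.log p ≤
      Real.log |(m : ℝ)| := by
    rw [← Real.log_prod hprime]
    apply Real.log_le_log
    · exact Finset.prod_pos fun p hp => lt_of_le_of_ne (Nat.cast_nonneg p) (hprime p hp).symm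
    · have h1 : ((∏ p ∈ SS f (2 * w - 2) E n (max p0 (2 * w + 2)) T', p : ℕ) : ℝ) ≤
          ((m.natAbs : ℕ) : ℝ) := by exact_mod_cast hle
      rw [Nat.cast_prod, Nat.cast_natAbs, Int.cast_abs] at h1
      exact h1
  refine hlog1.trans ?_
  have hMR : 0 < MR ρ := by
    unfold MR
    have : 0 < 1 - ρ := by linarith
    positivity
  have hB0 : 0 < B := by linarith
  have hZr : (0 : ℝ) < (Z0 f Y : ℝ) := by exact_mod_cast hZ
  have hN0 : (0 : ℝ) < (E : ℝ) ^ 2 * ((n : ℝ) + 1) := by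
    have : (0 : ℝ) < E := by exact_mod_cast (by omega : 0 < E)
    positivity
  have hri : 0 < ρ⁻¹ := inv_pos.2 hρ
  have hri1 : 1 ≤ ρ⁻¹ := (one_le_inv₀ hρ).2 hρ1.le
  have hpw : (ρ⁻¹) ^ T ≤ (ρ⁻¹) ^ T' := pow_le_pow_right₀ hri1 hTT
  obtain ⟨W, hW⟩ : ∃ W : ℕ, W = n + 2 * (2 * w - 2) * E := ⟨_, rfl⟩
  rw [← hW] at htb
  have hms' : ∀ s, |(ms s : ℝ)| ≤ (Z0 f Y : ℝ) ^ (2 * E) *
      (MR ρ ^ W * B ^ (2 * E) * (ρ⁻¹) ^ T') := by
    intro s
    have h1 : (ms s : ℝ) = (Z0 f Y : ℝ) ^ (2 * E) *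
        ((PowerSeries.coeff T' (GG f (2 * w - 2) E n s) : ℚ) : ℝ) := by
      have h2 := congrArg (fun q : ℚ => (q : ℝ)) (hms s)
      push_cast at h2
      exact h2.symm
    rw [h1, abs_mul, abs_of_pos (pow_pos hZr _)]
    refine mul_le_mul_of_nonneg_left ?_ (pow_pos hZr _).le
    have h3 := GG_bd f (2 * w - 2) E n s hρ hρ1 hB hb1 hb2 T'
    rw [← hW] at h3
    exact h3
  have hts : ∀ s, |((t s : ℤ) : ℝ)| ≤ (E ^ 2 * (n + 1) : ℝ) *
        ((Z0 f Y : ℝ) ^ (2 * E) * MR ρ ^ W * B ^ (2 * E) * (ρ⁻¹) ^ T') := by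
    intro s
    refine (htb s).trans ?_
    refine mul_le_mul_of_nonneg_left ?_ hN0.le
    exact mul_le_mul_of_nonneg_left hpw (by positivity)
  have hmb : |(m : ℝ)| ≤ (E ^ 2 * (n + 1) : ℝ) *
      (((E ^ 2 * (n + 1) : ℝ) *
        ((Z0 f Y : ℝ) ^ (2 * E) * MR ρ ^ W * B ^ (2 * E) * (ρ⁻¹) ^ T')) *
      ((Z0 f Y : ℝ) ^ (2 * E) * (MR ρ ^ W * B ^ (2 * E) * (ρ⁻¹) ^ T'))) := by
    have h1 : (m : ℝ) = ∑ s, (t s : ℝ) * (ms s : ℝ) := by
      rw [hmdef]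
      push_cast
      rfl
    rw [h1]
    refine (Finset.abs_sum_le_sum_abs _ _).trans ?_
    refine (Finset.sum_le_card_nsmul _ _ (((E ^ 2 * (n + 1) : ℝ) *
        ((Z0 f Y : ℝ) ^ (2 * E) * MR ρ ^ W * B ^ (2 * E) * (ρ⁻¹) ^ T')) *
      ((Z0 f Y : ℝ) ^ (2 * E) * (MR ρ ^ W * B ^ (2 * E) * (ρ⁻¹) ^ T'))) fun s _ => ?_).trans
        (le_of_eq ?_)
    · rw [abs_mul]
      exact mul_le_mul (hts s) (hms' s) (abs_nonneg _) (by positivity)
    · rw [nsmul_eq_mul]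
      congr 1
      simp only [Finset.card_univ, Fintype.card_prod, Fintype.card_fin]
      push_cast
      ring
  have hmr : 0 < |(m : ℝ)| := abs_pos.2 (by exact_mod_cast hm0)
  refine (Real.log_le_log hmr hmb).trans (le_of_eq ?_)
  rw [Ccore_log hN0 hZr hMR hB0 hri, hW]
  push_cast
  ring

end Pool.Agent.H85.OT

end S_OT_Ccore

section S_OU_ILd

/-!
# Row ILD (project OU): the core inequality

Same scheme as `OT/Ccore.lean` (copy and adapt).  `κ = k - 2`; `r, c, p1` from `red`; `c3 = (k-2) + (3c+1+k)`.  For `L ≥ 2`: `C0` from `ze_phiL`, `C = max C0 (L²)` (`≥ 1`), `p0 = max p1 (max k 2)`.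
Given `ρ, B, n`: `Y = C(n+1)`, `T = L²(n+1)/2 ≤ Y`.  `siegel_phiL` gives `t ≠ 0`; let `T'` be the least index with `coeff T' PhiL ≠ 0`: `T ≤ T' ≤ C0 (n+1) ≤ Y`.
`m := Z0^(2L) coeff T' PhiL` is a nonzero integer (`den_GGl`).  Each `p ∈ SSl (Sl2 f) r c3 L n p0 T'` divides `m` (`p_dvdL` with `Z = Z0^(2L)`, `e` from `red`; `p > k`, `p > 2`), so the product of these primes
divides `m`, `∑ log p ≤ log |m|`, and `|m| ≤ N Z0^(2L) · (N Z0^(2L) (2MR)^W B^(2L) ρ^(-T)) · ((2MR)^W B^(2L) ρ^(-T'))`, `N = L²(n+1)`, `W = 2n + 2κL`.  Take logs (`Ccore_log`-type lemma), `ρ^(-T) ≤ ρ^(-T')`.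
`core_allL` adds `B` from `exists_Bd_FL`.
-/

open PowerSeries
open Pool.Agent.H85.OT

namespace Pool.Agent.H85.OU

private theorem ILd_log {N z M b r : ℝ} (hN : 0 < N) (hz : 0 < z) (hM : 0 < M) (hb : 0 < b)
    (hr : 0 < r) {e W T : ℕ} :
    Real.log (N * ((N * (z ^ e * M ^ W * b ^ e * r ^ T)) * (z ^ e * (M ^ W * b ^ e * r ^ T)))) =
      2 * e * Real.log z + 2 * T * Real.log r + 2 * W * Real.log M + 2 * e * Real.log b +
        2 * Real.log N := by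
  have e1 : N * ((N * (z ^ e * M ^ W * b ^ e * r ^ T)) * (z ^ e * (M ^ W * b ^ e * r ^ T))) =
      N ^ 2 * z ^ (2 * e) * M ^ (2 * W) * b ^ (2 * e) * r ^ (2 * T) := by ring
  rw [e1, Real.log_mul (by positivity) (by positivity), Real.log_mul (by positivity) (by positivity),
    Real.log_mul (by positivity) (by positivity), Real.log_mul (by positivity) (by positivity),
    Real.log_pow, Real.log_pow, Real.log_pow, Real.log_pow, Real.log_pow]
  push_cast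
  ring

theorem core_ineqL (f : ℤ⟦X⟧) (k : ℕ) (hk : 3 ≤ k)
    (hf : LForm ℚ k (PowerSeries.map (Int.castRingHom ℚ) f)) (hne : f ≠ 0)
    (h0 : PowerSeries.coeff 0 f = 0) :
    ∃ r c3 : ℕ, 1 ≤ r ∧ 1 ≤ c3 ∧ ∀ L : ℕ, 2 ≤ L → ∃ C p0 : ℕ, 1 ≤ C ∧
      ∀ ρ : ℝ, 0 < ρ → ρ < 1 → ∃ B : ℝ, 1 ≤ B ∧
      ∀ n : ℕ, ∃ T' : ℕ, L ^ 2 * (n + 1) / 2 ≤ T' ∧ T' ≤ C * (n + 1) ∧
        ∑ p ∈ SSl (Sl2 f) r c3 L n p0 T', Real.log p ≤
          4 * L * Real.log (Z0 f (C * (n + 1))) + 2 * T' * Real.log (ρ⁻¹) +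
          2 * (2 * n + 2 * ((k - 2 : ℕ) : ℝ) * L) * Real.log (2 * MR ρ) + 4 * L * Real.log B +
          2 * Real.log (L ^ 2 * (n + 1)) := by
  classical
  obtain ⟨r, c, p1, hr, hred⟩ := red f k hf
  refine ⟨r, (k - 2) + (3 * c + 1 + k), hr, by omega, ?_⟩
  intro L hL
  obtain ⟨C0, hC0⟩ := ze_phiL f k hk hf hne h0 L
  refine ⟨max C0 (L ^ 2), max p1 (max k 2), ?_, ?_⟩
  · exact (Nat.one_le_pow 2 L (by omega)).trans (le_max_right _ _)
  intro ρ hρ hρ1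
  obtain ⟨B, hB, hb1, hb2⟩ := exists_Bd_FL hf hρ hρ1
  refine ⟨B, hB, ?_⟩
  intro n
  obtain ⟨Y, hY⟩ : ∃ Y : ℕ, Y = max C0 (L ^ 2) * (n + 1) := ⟨_, rfl⟩
  obtain ⟨T, hT⟩ : ∃ T : ℕ, T = L ^ 2 * (n + 1) / 2 := ⟨_, rfl⟩
  rw [← hY, ← hT]
  have hTY : T ≤ Y := by
    rw [hT, hY]
    exact (Nat.div_le_self _ _).trans (Nat.mul_le_mul_right _ (le_max_right _ _))
  obtain ⟨t, ht0, hvan, htb⟩ := siegel_phiL f (k - 2) L n Y hL hρ hρ1 hB hb1 hb2
    (by rw [← hT]; exact hTY)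
  rw [← hT] at hvan htb
  obtain ⟨l0, hl0, hl0'⟩ := hC0 n t ht0
  have hex : ∃ l, PowerSeries.coeff l (PhiL f (k - 2) L n t) ≠ 0 := ⟨l0, hl0'⟩
  obtain ⟨T', hT1, hT2⟩ : ∃ T', PowerSeries.coeff T' (PhiL f (k - 2) L n t) ≠ 0 ∧
      ∀ l < T', PowerSeries.coeff l (PhiL f (k - 2) L n t) = 0 :=
    ⟨Nat.find hex, Nat.find_spec hex, fun l hl => not_not.1 (Nat.find_min hex hl)⟩
  have hTT : T ≤ T' := by
    by_contra h
    exact hT1 (hvan T' (not_le.1 h))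
  have hTl : T' ≤ l0 := by
    by_contra h
    exact hl0' (hT2 l0 (not_le.1 h))
  have hT'Y : T' ≤ Y := by
    rw [hY]
    exact hTl.trans (hl0.trans (Nat.mul_le_mul_right _ (le_max_left _ _)))
  refine ⟨T', hTT, hT'Y, ?_⟩
  choose ms hms using fun s => den_GGl f (k - 2) L n s Y T' hT'Y
  obtain ⟨m, hmdef⟩ : ∃ m : ℤ, m = ∑ s, t s * ms s := ⟨_, rfl⟩
  have hZ := Z0_pos f Y
  have hm : ((((Z0 f Y : ℕ) : ℤ) ^ (2 * L) : ℤ) : ℚ) *
      PowerSeries.coeff T' (PhiL f (k - 2) L n t) = m := by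
    rw [PhiL, map_sum, Finset.mul_sum, hmdef]
    push_cast
    refine Finset.sum_congr rfl fun s _ => ?_
    rw [PowerSeries.coeff_C_mul, ← hms s]
    ring
  have hm0 : m ≠ 0 := by
    intro h
    rw [h, Int.cast_zero] at hm
    rcases mul_eq_zero.1 hm with h1 | h1
    · have h2 : ((Z0 f Y : ℕ) : ℤ) ^ (2 * L) = 0 := by exact_mod_cast h1
      have h3 := (pow_eq_zero_iff (by omega : 2 * L ≠ 0)).1 h2
      omega
    · exact hT1 h1
  have hdvd : ∀ p ∈ SSl (Sl2 f) r ((k - 2) + (3 * c + 1 + k)) L n (max p1 (max k 2)) T',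
      (p : ℤ) ∣ m := by
    intro p hp
    rw [SSl, Finset.mem_filter] at hp
    obtain ⟨-, hpp, hpl, hps, hpT⟩ := hp
    have hfact : Fact p.Prime := ⟨hpp⟩
    have hp1 : p1 < p := (le_max_left _ _).trans_lt hpl
    have hkp : k < p := ((le_max_left _ _).trans (le_max_right _ _)).trans_lt hpl
    have hp2 : 2 < p := ((le_max_right _ _).trans (le_max_right _ _)).trans_lt hpl
    obtain ⟨e, q1, q2, q3⟩ := hred p hp1
    exact p_dvdL f h0 k hk p (by omega) hkp hps e q1 q2 q3 L n T' t hpT hT2 _ m hm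
  have hprod : (∏ p ∈ SSl (Sl2 f) r ((k - 2) + (3 * c + 1 + k)) L n (max p1 (max k 2)) T', p) ∣
      m.natAbs := by
    refine Finset.prod_primes_dvd _ (fun p hp => ?_) (fun p hp => ?_)
    · rw [SSl, Finset.mem_filter] at hp
      exact hp.2.1.prime
    · exact Int.natCast_dvd.1 (hdvd p hp)
  have hle := Nat.le_of_dvd (Int.natAbs_pos.2 hm0) hprod
  have hprime : ∀ p ∈ SSl (Sl2 f) r ((k - 2) + (3 * c + 1 + k)) L n (max p1 (max k 2)) T',
      (p : ℝ) ≠ 0 := by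
    intro p hp
    rw [SSl, Finset.mem_filter] at hp
    exact_mod_cast hp.2.1.ne_zero
  have hlog1 : ∑ p ∈ SSl (Sl2 f) r ((k - 2) + (3 * c + 1 + k)) L n (max p1 (max k 2)) T',
      Real.log p ≤ Real.log |(m : ℝ)| := by
    rw [← Real.log_prod hprime]
    apply Real.log_le_log
    · exact Finset.prod_pos fun p hp => lt_of_le_of_ne (Nat.cast_nonneg p) (hprime p hp).symm
    · have h1 : ((∏ p ∈ SSl (Sl2 f) r ((k - 2) + (3 * c + 1 + k)) L n (max p1 (max k 2)) T',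
          p : ℕ) : ℝ) ≤ ((m.natAbs : ℕ) : ℝ) := by exact_mod_cast hle
      rw [Nat.cast_prod, Nat.cast_natAbs, Int.cast_abs] at h1
      exact h1
  refine hlog1.trans ?_
  have hMR : 0 < 2 * MR ρ := by
    unfold MR
    have : 0 < 1 - ρ := by linarith
    positivity
  have hB0 : 0 < B := by linarith
  have hZr : (0 : ℝ) < (Z0 f Y : ℝ) := by exact_mod_cast hZ
  have hN0 : (0 : ℝ) < (L : ℝ) ^ 2 * ((n : ℝ) + 1) := by
    have : (0 : ℝ) < L := by exact_mod_cast (by omega : 0 < L)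
    positivity
  have hri : 0 < ρ⁻¹ := inv_pos.2 hρ
  have hri1 : 1 ≤ ρ⁻¹ := (one_le_inv₀ hρ).2 hρ1.le
  have hpw : (ρ⁻¹) ^ T ≤ (ρ⁻¹) ^ T' := pow_le_pow_right₀ hri1 hTT
  obtain ⟨W, hW⟩ : ∃ W : ℕ, W = 2 * n + 2 * (k - 2) * L := ⟨_, rfl⟩
  rw [← hW] at htb
  have hms' : ∀ s, |(ms s : ℝ)| ≤ (Z0 f Y : ℝ) ^ (2 * L) *
      ((2 * MR ρ) ^ W * B ^ (2 * L) * (ρ⁻¹) ^ T') := by
    intro s
    have h1 : (ms s : ℝ) = (Z0 f Y : ℝ) ^ (2 * L) *
        ((PowerSeries.coeff T' (GGl f (k - 2) L n s) : ℚ) : ℝ) := by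
      have h2 := congrArg (fun q : ℚ => (q : ℝ)) (hms s)
      push_cast at h2
      exact h2.symm
    rw [h1, abs_mul, abs_of_pos (pow_pos hZr _)]
    refine mul_le_mul_of_nonneg_left ?_ (pow_pos hZr _).le
    have h3 := GGl_bd f (k - 2) L n s hρ hρ1 hB hb1 hb2 T'
    rw [← hW] at h3
    exact h3
  have hts : ∀ s, |((t s : ℤ) : ℝ)| ≤ (L ^ 2 * (n + 1) : ℝ) *
        ((Z0 f Y : ℝ) ^ (2 * L) * (2 * MR ρ) ^ W * B ^ (2 * L) * (ρ⁻¹) ^ T') := by
    intro s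
    refine (htb s).trans ?_
    refine mul_le_mul_of_nonneg_left ?_ hN0.le
    exact mul_le_mul_of_nonneg_left hpw (by positivity)
  have hmb : |(m : ℝ)| ≤ (L ^ 2 * (n + 1) : ℝ) *
      (((L ^ 2 * (n + 1) : ℝ) *
        ((Z0 f Y : ℝ) ^ (2 * L) * (2 * MR ρ) ^ W * B ^ (2 * L) * (ρ⁻¹) ^ T')) *
      ((Z0 f Y : ℝ) ^ (2 * L) * ((2 * MR ρ) ^ W * B ^ (2 * L) * (ρ⁻¹) ^ T'))) := by
    have h1 : (m : ℝ) = ∑ s, (t s : ℝ) * (ms s : ℝ) := by
      rw [hmdef]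
      push_cast
      rfl
    rw [h1]
    refine (Finset.abs_sum_le_sum_abs _ _).trans ?_
    refine (Finset.sum_le_card_nsmul _ _ (((L ^ 2 * (n + 1) : ℝ) *
        ((Z0 f Y : ℝ) ^ (2 * L) * (2 * MR ρ) ^ W * B ^ (2 * L) * (ρ⁻¹) ^ T')) *
      ((Z0 f Y : ℝ) ^ (2 * L) * ((2 * MR ρ) ^ W * B ^ (2 * L) * (ρ⁻¹) ^ T'))) fun s _ => ?_).trans
        (le_of_eq ?_)
    · rw [abs_mul]
      exact mul_le_mul (hts s) (hms' s) (abs_nonneg _) (by positivity)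
    · rw [nsmul_eq_mul]
      congr 1
      simp only [Finset.card_univ, Fintype.card_prod, Fintype.card_fin]
      push_cast
      ring
  have hmr : 0 < |(m : ℝ)| := abs_pos.2 (by exact_mod_cast hm0)
  refine (Real.log_le_log hmr hmb).trans (le_of_eq ?_)
  rw [ILd_log hN0 hZr hMR hB0 hri, hW]
  push_cast
  ring

end Pool.Agent.H85.OU

end S_OU_ILd
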