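import Mathlib
import Pool.Agent.H85.OM.M01
import Pool.Agent.H85.OM.M03
import Pool.Agent.H85.OM.M08

/-! First slopes of modular forms, part M09: this file joins several modules to save build time. -/

section S_OT_Alow

/-!
# Row ALOW (project OT): many primes have a large sum of logarithms

For large `x` with `Nat.sqrt x ≥ p0`: put `s = Nat.sqrt x`.  The primes `p ≤ x` with `P p` and `p > s`
number at least `cnt P x - s ≥ ε π(x) - s`, and each has `p ≥ s + 1 > √x`, so `log p ≥ (1/2) log x`.  So the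
sum is at least `(1/2)(ε π(x) - √x) log x` and `π(x) log x ≥ x log 2 - log (x+1)` (`Chebyshev.pi_ge`).
`(ε/2)(x log 2 - log(x+1)) - (1/2) √x log x ≥ (ε/8) x` for large `x` (`log 2 > 1/2`; `log (x+1) = o(x)`,
`√x log x = o(x)`).
-/

namespace Pool.Agent.H85.OT


theorem Alow_ev (ε : ℝ) (hε : 0 < ε) :
    ∃ x1 : ℕ, ∀ x : ℕ, x1 ≤ x →
      (ε / 2) * Real.log (x + 1) + (1 / 2) * (Real.sqrt x * Real.log x) ≤ ε / 8 * x := by
  have h0 := isLittleO_log_rpow_atTop (show (0 : ℝ) < 1 / 2 by norm_num)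
  have hc : 0 < ε / (8 * (ε + 1 / 2)) := by positivity
  have h1 := h0.bound hc
  rw [Filter.eventually_atTop] at h1
  obtain ⟨M, hM⟩ := h1
  obtain ⟨n, hn⟩ := exists_nat_ge M
  refine ⟨max n 2, fun x hx => ?_⟩
  have hx2 : 2 ≤ x := le_trans (le_max_right _ _) hx
  have hxn : n ≤ x := le_trans (le_max_left _ _) hx
  have hx2' : (2 : ℝ) ≤ (x : ℝ) := by exact_mod_cast hx2
  have hxn' : (n : ℝ) ≤ (x : ℝ) := by exact_mod_cast hxn
  have h2 := hM x (hn.trans hxn')
  have hlog0 : 0 ≤ Real.log x := Real.log_nonneg (by linarith)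
  rw [Real.norm_of_nonneg hlog0, Real.norm_of_nonneg (by positivity), ← Real.sqrt_eq_rpow] at h2
  have hs1 : 1 ≤ Real.sqrt x := by
    rw [Real.one_le_sqrt]
    linarith
  have hss : Real.sqrt x * Real.sqrt x = x := Real.mul_self_sqrt (by linarith)
  have h3 : Real.sqrt x * Real.log x ≤ ε / (8 * (ε + 1 / 2)) * x := by
    calc Real.sqrt x * Real.log x
        ≤ Real.sqrt x * (ε / (8 * (ε + 1 / 2)) * Real.sqrt x) :=
          mul_le_mul_of_nonneg_left h2 (by linarith)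
      _ = ε / (8 * (ε + 1 / 2)) * (Real.sqrt x * Real.sqrt x) := by ring
      _ = ε / (8 * (ε + 1 / 2)) * x := by rw [hss]
  have h4 : Real.log (x + 1) ≤ 2 * (Real.sqrt x * Real.log x) := by
    have h5 : Real.log ((x : ℝ) + 1) ≤ Real.log ((x : ℝ) ^ 2) := by
      refine Real.log_le_log (by linarith) ?_
      nlinarith
    rw [Real.log_pow] at h5
    push_cast at h5
    have h6 : Real.log x ≤ Real.sqrt x * Real.log x := by
      have := mul_le_mul_of_nonneg_right hs1 hlog0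
      linarith
    linarith
  have h7 : (ε + 1 / 2) * (Real.sqrt x * Real.log x) ≤ ε / 8 * x := by
    calc (ε + 1 / 2) * (Real.sqrt x * Real.log x)
        ≤ (ε + 1 / 2) * (ε / (8 * (ε + 1 / 2)) * x) :=
          mul_le_mul_of_nonneg_left h3 (by linarith)
      _ = ε / 8 * x := by
          field_simp
  have h8 := mul_le_mul_of_nonneg_left h4 (show 0 ≤ ε / 2 by linarith)
  linarith

open Classical in
theorem low (P : ℕ → Prop) (ε : ℝ) (hε : 0 < ε) (p0 : ℕ) :
    ∃ x1 : ℕ, ∀ x ≥ x1, ε * (Nat.primeCounting x : ℝ) ≤ cnt P x →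
      ε / 8 * x ≤ ∑ p ∈ (Finset.range (x + 1)).filter (fun p => p.Prime ∧ p0 < p ∧ P p),
        Real.log p := by
  obtain ⟨x2, hx2⟩ := Alow_ev ε hε
  refine ⟨max x2 (max 2 (p0 * p0)), fun x hx hcnt => ?_⟩
  have hxa : x2 ≤ x := le_trans (le_max_left _ _) hx
  have hxb : 2 ≤ x := le_trans (le_trans (le_max_left _ _) (le_max_right _ _)) hx
  have hxc : p0 * p0 ≤ x := le_trans (le_trans (le_max_right _ _) (le_max_right _ _)) hx
  have hev := hx2 x hxa
  obtain ⟨s, hs⟩ : ∃ s : ℕ, s = Nat.sqrt x := ⟨_, rfl⟩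
  have hsp : p0 ≤ s := by
    rw [hs]
    exact Nat.le_sqrt.2 hxc
  have hs1 : x < (s + 1) * (s + 1) := by
    rw [hs]
    exact Nat.lt_succ_sqrt x
  have hs2 : s * s ≤ x := by
    rw [hs]
    exact Nat.sqrt_le x
  obtain ⟨B, hB⟩ : ∃ B : Finset ℕ, B = (Finset.range (x + 1)).filter
    (fun p => p.Prime ∧ p0 < p ∧ P p) := ⟨_, rfl⟩
  rw [← hB]
  obtain ⟨C, hC⟩ : ∃ C : Finset ℕ, C = B.filter (fun p => s < p) := ⟨_, rfl⟩
  have hcard : cnt P x ≤ C.card + s := by
    have h1 : (Finset.range (x + 1)).filter (fun p => p.Prime ∧ P p) ⊆ C ∪ Finset.Icc 1 s := by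
      intro p hp
      obtain ⟨hp1, hp2, hp3⟩ := Finset.mem_filter.1 hp
      rw [Finset.mem_union]
      by_cases h : s < p
      · left
        rw [hC, Finset.mem_filter, hB, Finset.mem_filter]
        exact ⟨⟨hp1, hp2, by omega, hp3⟩, h⟩
      · right
        rw [Finset.mem_Icc]
        exact ⟨hp2.one_lt.le, by omega⟩
    calc cnt P x ≤ (C ∪ Finset.Icc 1 s).card := Finset.card_le_card h1
      _ ≤ C.card + (Finset.Icc 1 s).card := Finset.card_union_le _ _
      _ = C.card + s := by rw [Nat.card_Icc]; omega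
  have hx2' : (2 : ℝ) ≤ (x : ℝ) := by exact_mod_cast hxb
  have hlog0 : 0 < Real.log x := Real.log_pos (by linarith)
  have hCsum : (C.card : ℝ) * (1 / 2 * Real.log x) ≤ ∑ p ∈ C, Real.log p := by
    rw [← nsmul_eq_mul]
    refine Finset.card_nsmul_le_sum _ _ _ fun p hp => ?_
    rw [hC, Finset.mem_filter] at hp
    have h1 : s + 1 ≤ p := hp.2
    have h2 : x ≤ p ^ 2 := by
      have := Nat.mul_le_mul h1 h1
      rw [pow_two]
      omega
    have h3 : Real.log (x : ℝ) ≤ Real.log ((p : ℝ) ^ 2) := by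
      refine Real.log_le_log (by linarith) ?_
      exact_mod_cast h2
    rw [Real.log_pow] at h3
    push_cast at h3
    linarith
  have hBC : ∑ p ∈ C, Real.log (p : ℝ) ≤ ∑ p ∈ B, Real.log (p : ℝ) := by
    refine Finset.sum_le_sum_of_subset_of_nonneg ?_ fun p hp _ => ?_
    · rw [hC]
      exact Finset.filter_subset _ _
    · rw [hB, Finset.mem_filter] at hp
      exact Real.log_natCast_nonneg p
  have hpi := Chebyshev.pi_ge x
  rw [div_le_iff₀ hlog0] at hpi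
  have hssq : (s : ℝ) ≤ Real.sqrt x := by
    apply Real.le_sqrt_of_sq_le
    rw [pow_two]
    exact_mod_cast hs2
  have hcard' : (cnt P x : ℝ) ≤ C.card + s := by exact_mod_cast hcard
  have hl2 : (1 / 2 : ℝ) < Real.log 2 := by
    have := Real.log_two_gt_d9
    linarith
  have h1 : ε * (Nat.primeCounting x : ℝ) - Real.sqrt x ≤ C.card := by linarith
  have h2 := mul_le_mul_of_nonneg_right h1 (show 0 ≤ 1 / 2 * Real.log x by linarith)
  have h3 := mul_le_mul_of_nonneg_left hpi (show 0 ≤ ε / 2 by linarith)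
  have h4 : ε / 2 * (x * (1 / 2)) ≤ ε / 2 * (x * Real.log 2) := by
    refine mul_le_mul_of_nonneg_left (mul_le_mul_of_nonneg_left hl2.le (by linarith)) (by linarith)
  have h5 : (ε * (Nat.primeCounting x : ℝ) - Real.sqrt x) * (1 / 2 * Real.log x) =
      ε / 2 * ((Nat.primeCounting x : ℝ) * Real.log x) - 1 / 2 * (Real.sqrt x * Real.log x) := by
    ring
  have h6 : ε / 2 * ((x : ℝ) * Real.log 2 - Real.log (x + 1)) =
      ε / 2 * (x * Real.log 2) - ε / 2 * Real.log (x + 1) := by ring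
  have h7 : ε / 2 * ((x : ℝ) * (1 / 2)) = ε / 4 * x := by ring
  have h8 : ε / 4 * (x : ℝ) = ε / 8 * x + ε / 8 * x := by ring
  linarith

end Pool.Agent.H85.OT

end S_OT_Alow

section S_OT_Acheb

/-!
# Row ACHEB (project OT): Chebyshev bounds in the form used

* `pi_up`: `π(x) log x ≤ C x` for `x ≥ 2` (for instance from `Chebyshev.pi_le_log4_mul_div` or
  `Chebyshev.eventually_primeCounting_le`; enlarge `C` for small `x`).
* `pi_ratio`: `π(K X) ≤ C π(X)` for large `X`: `π(KX) ≤ C K X / log (K X) ≤ C K X / log X` and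
  `π(X) ≥ (X log 2 - log (X+1))/log X ≥ (1/2) X / log X` for large `X` (`Chebyshev.pi_ge`).
-/

namespace Pool.Agent.H85.OT

theorem pi_up : ∃ C : ℝ, 0 < C ∧ ∀ x : ℕ, 2 ≤ x →
    (Nat.primeCounting x : ℝ) * Real.log x ≤ C * x := by
  refine ⟨2 * Real.log 4 + 2, by positivity, fun x hx => ?_⟩
  have hx2 : (2 : ℝ) ≤ x := by exact_mod_cast hx
  have hx0 : (0 : ℝ) < x := by linarith
  have h1 := Chebyshev.pi_le_log4_mul_div (x := (x : ℝ)) (by linarith)
  rw [Nat.floor_natCast] at h1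
  have hs : Real.log (√(x : ℝ)) = Real.log x / 2 := Real.log_sqrt hx0.le
  have hl : 0 < Real.log (x : ℝ) := Real.log_pos (by linarith)
  have hs1 : Real.log x / 2 ≤ √(x : ℝ) := by
    rw [← hs]
    exact (Real.log_le_sub_one_of_pos (Real.sqrt_pos.2 hx0)).trans (by linarith)
  have hsq : √(x : ℝ) * √(x : ℝ) = x := Real.mul_self_sqrt hx0.le
  calc (Nat.primeCounting x : ℝ) * Real.log x ≤
        (Real.log 4 * x / Real.log (√(x : ℝ)) + √(x : ℝ)) * Real.log x :=
        mul_le_mul_of_nonneg_right h1 hl.le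
    _ = 2 * Real.log 4 * x + 2 * (√(x : ℝ) * (Real.log x / 2)) := by
        rw [hs]
        field_simp
    _ ≤ 2 * Real.log 4 * x + 2 * (√(x : ℝ) * √(x : ℝ)) := by
        gcongr
    _ = (2 * Real.log 4 + 2) * x := by
        rw [hsq]
        ring

theorem pi_ratio (K : ℕ) (hK : 1 ≤ K) : ∃ C : ℝ, 0 < C ∧ ∃ X1 : ℕ, ∀ X ≥ X1,
    (Nat.primeCounting (K * X) : ℝ) ≤ C * Nat.primeCounting X := by
  obtain ⟨C, hC, hup⟩ := pi_up
  have hl2 : (0 : ℝ) < Real.log 2 := Real.log_pos one_lt_two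
  have hKr : (1 : ℝ) ≤ K := by exact_mod_cast hK
  refine ⟨2 * C * K / Real.log 2, by positivity, 100, fun X hX => ?_⟩
  have hXr : (100 : ℝ) ≤ X := by exact_mod_cast hX
  have hX0 : (0 : ℝ) < X := by linarith
  have hL : 0 < Real.log (X : ℝ) := Real.log_pos (by linarith)
  -- the lower bound
  have h1 := Chebyshev.pi_ge X
  rw [div_le_iff₀ hL] at h1
  have h2 : Real.log ((X : ℝ) + 1) ≤ X * Real.log 2 / 2 := by
    have h3 : Real.log ((X : ℝ) + 1) / 2 ≤ √((X : ℝ) + 1) := by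
      rw [← Real.log_sqrt (by linarith)]
      exact (Real.log_le_sub_one_of_pos (Real.sqrt_pos.2 (by linarith))).trans (by linarith)
    have h4 : √((X : ℝ) + 1) ≤ X / 8 := by
      rw [Real.sqrt_le_left (by linarith)]
      nlinarith
    have h5 := Real.log_two_gt_d9
    nlinarith
  have h3 : (X : ℝ) ≤ 2 / Real.log 2 * (Nat.primeCounting X * Real.log X) := by
    rw [div_mul_eq_mul_div, le_div_iff₀ hl2]
    linarith
  -- the upper bound
  have h4 := hup (K * X) (by nlinarith)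
  have h5 : Real.log (X : ℝ) ≤ Real.log ((K * X : ℕ) : ℝ) := by
    apply Real.log_le_log hX0
    push_cast
    nlinarith
  have h6 : (Nat.primeCounting (K * X) : ℝ) * Real.log X ≤
      2 * C * K / Real.log 2 * Nat.primeCounting X * Real.log X := by
    calc (Nat.primeCounting (K * X) : ℝ) * Real.log X ≤
          (Nat.primeCounting (K * X) : ℝ) * Real.log ((K * X : ℕ) : ℝ) :=
          mul_le_mul_of_nonneg_left h5 (Nat.cast_nonneg _)
      _ ≤ C * ((K * X : ℕ) : ℝ) := h4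
      _ = C * K * X := by
          push_cast
          ring
      _ ≤ C * K * (2 / Real.log 2 * (Nat.primeCounting X * Real.log X)) := by
          gcongr
      _ = 2 * C * K / Real.log 2 * Nat.primeCounting X * Real.log X := by ring
  exact le_of_mul_le_mul_right h6 hL

end Pool.Agent.H85.OT

end S_OT_Acheb

section S_OT_Apar

/-!
# Row APAR (project OT): choice of the parameter `E`

`log (2(1 + 32 κ E / c)) = O(log E)`, while the right side is linear in `E`.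
-/

namespace Pool.Agent.H85.OT

theorem Apar_log {x e : ℝ} (hx : 0 < x) (he : 0 < e) : Real.log x ≤ e * x - 1 - Real.log e := by
  have h1 := Real.log_le_sub_one_of_pos (mul_pos he hx)
  rw [Real.log_mul he.ne' hx.ne'] at h1
  linarith

theorem param (κ c : ℝ) (hκ : 0 < κ) (hc : 0 < c) :
    ∃ E : ℕ, 3 ≤ E ∧ 4 * Real.log (2 * (1 + 32 * κ * E / c)) ≤ c * E / (32 * κ) := by
  set e : ℝ := c ^ 2 / (16384 * κ ^ 2) with he
  have he0 : 0 < e := by positivity
  obtain ⟨n, hn⟩ := exists_nat_ge ((8 * e - 4 - 4 * Real.log e) * (64 * κ / c))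
  refine ⟨max 3 n, le_max_left _ _, ?_⟩
  have hE : (8 * e - 4 - 4 * Real.log e) * (64 * κ / c) ≤ ((max 3 n : ℕ) : ℝ) :=
    hn.trans (by exact_mod_cast le_max_right 3 n)
  have hE0 : (0 : ℝ) ≤ ((max 3 n : ℕ) : ℝ) := by positivity
  generalize ((max 3 n : ℕ) : ℝ) = E at hE hE0
  have h1 := Apar_log (x := 2 * (1 + 32 * κ * E / c)) (by positivity) he0
  have h2 : e * (2 * (1 + 32 * κ * E / c)) = 2 * e + c * E / (256 * κ) := by
    rw [he]
    field_simp
    ring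
  have h3 : 8 * e - 4 - 4 * Real.log e ≤ c * E / (64 * κ) := by
    have h4 : (8 * e - 4 - 4 * Real.log e) * (64 * κ / c) * (c / (64 * κ)) ≤ E * (c / (64 * κ)) :=
      mul_le_mul_of_nonneg_right hE (by positivity)
    have h5 : (8 * e - 4 - 4 * Real.log e) * (64 * κ / c) * (c / (64 * κ)) = 8 * e - 4 - 4 * Real.log e := by
      field_simp
    have h6 : E * (c / (64 * κ)) = c * E / (64 * κ) := by ring
    rw [h5, h6] at h4
    exact h4
  have h7 : c * E / (32 * κ) = 4 * (c * E / (256 * κ)) + c * E / (64 * κ) := by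
    field_simp
    ring
  rw [h2] at h1
  rw [h7]
  linarith

/-- for fixed constants, `a + 2 log (b (n+1)) ≤ c n` for large `n` -/
theorem rest_le (a b c : ℝ) (hb : 0 < b) (hc : 0 < c) :
    ∃ n1 : ℕ, ∀ n ≥ n1, a + 2 * Real.log (b * ((n : ℝ) + 1)) ≤ c * n := by
  set e : ℝ := c / (4 * b) with he
  have he0 : 0 < e := by positivity
  obtain ⟨n1, hn1⟩ := exists_nat_ge ((a + c / 2 - 2 - 2 * Real.log e) * (2 / c))
  refine ⟨n1, fun n hn => ?_⟩
  have hn2 : (a + c / 2 - 2 - 2 * Real.log e) * (2 / c) ≤ (n : ℝ) := hn1.trans (by exact_mod_cast hn)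
  have hn0 : (0 : ℝ) ≤ (n : ℝ) := Nat.cast_nonneg n
  have h1 := Apar_log (x := b * ((n : ℝ) + 1)) (by positivity) he0
  have h2 : e * (b * ((n : ℝ) + 1)) = c / 4 * ((n : ℝ) + 1) := by
    rw [he]
    field_simp
  have h3 : a + c / 2 - 2 - 2 * Real.log e ≤ c / 2 * n := by
    have h4 := mul_le_mul_of_nonneg_right hn2 (show (0 : ℝ) ≤ c / 2 by positivity)
    have h5 : (a + c / 2 - 2 - 2 * Real.log e) * (2 / c) * (c / 2) = a + c / 2 - 2 - 2 * Real.log e := by
      field_simp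
    rw [h5] at h4
    linarith
  rw [h2] at h1
  linarith

end Pool.Agent.H85.OT

end S_OT_Apar

section S_OT_Adich

/-!
# Row ADICH (project OT): from the core inequality to the dichotomy
-/

open PowerSeries

namespace Pool.Agent.H85.OT

theorem Adich_card (f : ℤ⟦X⟧) (Y : ℕ) :
    Nat.card {p : ℕ | p ≤ Y ∧ p.Prime ∧ Ord0 f p} = cnt (Ord0 f) Y := by
  classical
  have h : {p : ℕ | p ≤ Y ∧ p.Prime ∧ Ord0 f p} =
      (((Finset.range (Y + 1)).filter (fun p => p.Prime ∧ Ord0 f p) : Finset ℕ) : Set ℕ) := by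
    ext p
    simp
  unfold cnt
  rw [h, Nat.card_coe_set_eq, Set.ncard_coe_finset]

theorem Adich_mono (P : ℕ → Prop) {a b : ℕ} (h : a ≤ b) : cnt P a ≤ cnt P b := by
  classical
  unfold cnt
  apply Finset.card_le_card
  apply Finset.filter_subset_filter
  intro x hx
  rw [Finset.mem_range] at hx ⊢
  omega

/-- the real inequality -/
theorem Adich_real {c κ E T n x lnZ Rest L4 lr : ℝ} (hc : 0 < c) (hκ : 0 < κ) (hE : 0 < E)
    (hn : 0 ≤ n) (h2 : E ^ 2 * n ≤ 2 * T) (hx : T / (4 * κ * E) - 1 ≤ x)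
    (hlr : lr ≤ c / (32 * κ * E)) (hT : 0 ≤ T) (hL : L4 ≤ c * E / (32 * κ))
    (hR : c + Rest ≤ c * E / (32 * κ) * n)
    (hmain : c * x ≤ 4 * E * lnZ + 2 * T * lr + n * L4 + Rest) :
    c * T / (κ * E) / 16 ≤ 4 * E * lnZ := by
  have h3 : c * (T / (4 * κ * E) - 1) ≤ c * x := mul_le_mul_of_nonneg_left hx hc.le
  have h4 : 2 * T * lr ≤ 2 * T * (c / (32 * κ * E)) := mul_le_mul_of_nonneg_left hlr (by linarith)
  have h5 : n * L4 ≤ n * (c * E / (32 * κ)) := mul_le_mul_of_nonneg_left hL hn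
  have e1 : c * (T / (4 * κ * E) - 1) = c * T / (κ * E) / 4 - c := by field_simp
  have e2 : 2 * T * (c / (32 * κ * E)) = c * T / (κ * E) / 16 := by field_simp; ring
  have e3 : n * (c * E / (32 * κ)) ≤ c * T / (κ * E) / 16 := by
    have e4 : n * (c * E / (32 * κ)) = (c / (32 * κ * E)) * (E ^ 2 * n) := by field_simp
    have e5 : c * T / (κ * E) / 16 = (c / (32 * κ * E)) * (2 * T) := by field_simp; ring
    rw [e4, e5]
    exact mul_le_mul_of_nonneg_left h2 (by positivity)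
  have e6 : c * E / (32 * κ) * n = n * (c * E / (32 * κ)) := by ring
  rw [e1] at h3
  rw [e2] at h4
  rw [e6] at hR
  linarith

/-- natural number inequalities -/
theorem Adich_nat {k E X T : ℕ} (hk : 2 ≤ k) (hE : 3 ≤ E) (hT : E ^ 2 * (8 * k * (X + 1)) ≤ 2 * T + 1) :
    4 * (8 * k * (X + 1)) ≤ T ∧ X * (2 * k * E) + 8 * k * (X + 1) ≤ T := by
  have h1 : 3 * E ≤ E ^ 2 := by
    rw [pow_two]
    exact Nat.mul_le_mul_right E hE
  have h2 : 3 * E * (8 * k * (X + 1)) ≤ E ^ 2 * (8 * k * (X + 1)) := Nat.mul_le_mul_right _ h1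
  have h3 : 9 * (8 * k * (X + 1)) ≤ 3 * E * (8 * k * (X + 1)) := Nat.mul_le_mul_right _ (by omega)
  have h4 : 2 ≤ k * (X + 1) := by nlinarith
  constructor
  · nlinarith
  · have h5 : 3 * (k * (X + 1)) ≤ E * (k * (X + 1)) := Nat.mul_le_mul_right _ hE
    have h6 : X * (2 * k * E) ≤ 2 * (E * (k * (X + 1))) := by nlinarith
    have h7 : 3 * E * (8 * k * (X + 1)) = 24 * (E * (k * (X + 1))) := by ring
    have h8 : 8 * k * (X + 1) = 8 * (k * (X + 1)) := by ring
    rw [h8]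
    omega

theorem dichotomy (f : ℤ⟦X⟧) (w : ℕ) (hw : 2 ≤ w) (hf : IsForm w f) (hne : f ≠ 0)
    (h0 : PowerSeries.coeff 0 f = 0) : Dich (Sl2 f) (Ord0 f) := by
  classical
  intro ε hε
  obtain ⟨k, hk⟩ : ∃ k : ℕ, k = 2 * w - 2 := ⟨_, rfl⟩
  have hk2 : 2 ≤ k := by omega
  have hκ : (0 : ℝ) < (k : ℝ) := by
    have : (2 : ℝ) ≤ (k : ℝ) := by exact_mod_cast hk2
    linarith
  obtain ⟨c, hc⟩ : ∃ c : ℝ, c = ε / 8 := ⟨_, rfl⟩
  have hc0 : 0 < c := by rw [hc]; positivity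
  obtain ⟨E, hE3, hEi⟩ := param (k : ℝ) c hκ hc0
  have hE : (0 : ℝ) < (E : ℝ) := by
    have : (3 : ℝ) ≤ (E : ℝ) := by exact_mod_cast hE3
    linarith
  obtain ⟨R, hR⟩ : ∃ R : ℝ, R = 1 + 32 * k * E / c := ⟨_, rfl⟩
  have hq : 0 < 32 * (k : ℝ) * E / c := by positivity
  have hR1 : 1 < R := by rw [hR]; linarith
  have hR0 : 0 < R := by linarith
  rw [← hR] at hEi
  obtain ⟨ρ, hρ⟩ : ∃ ρ : ℝ, ρ = 1 - 1 / R := ⟨_, rfl⟩
  have hiR : 1 / R < 1 := by rw [div_lt_one hR0]; exact hR1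
  have hiR0 : 0 < 1 / R := by positivity
  have hρ0 : 0 < ρ := by rw [hρ]; linarith
  have hρ1 : ρ < 1 := by rw [hρ]; linarith
  have hlr : Real.log (ρ⁻¹) ≤ c / (32 * k * E) := by
    have h1 := Real.log_le_sub_one_of_pos (inv_pos.2 hρ0)
    refine h1.trans (le_of_eq ?_)
    have h2 : ρ = (R - 1) / R := by rw [hρ]; field_simp
    have h3 : R - 1 ≠ 0 := by linarith
    rw [h2, inv_div]
    have h4 : R / (R - 1) - 1 = 1 / (R - 1) := by field_simp; ring
    rw [h4, hR, add_sub_cancel_left, one_div_div]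
  have hMR : Real.log (MR ρ) = 2 * Real.log (2 * R) := by
    have h1 : MR ρ = (2 * R) ^ 2 := by
      unfold MR
      rw [hρ]
      have : 1 - (1 - 1 / R) = 1 / R := by ring
      rw [this]
      field_simp
      norm_num
    rw [h1, Real.log_pow]
    norm_num
  obtain ⟨C, p0, hC1, hcore⟩ := core_ineq f w hw hf hne h0 E (by omega)
  rw [← hk] at hcore
  obtain ⟨B, hB1, hb1, hb2⟩ := exists_Bd_F hf hρ0 hρ1
  obtain ⟨x1, hx1⟩ := low (Sl2 f) ε hε p0
  obtain ⟨C1, hC10, hpi⟩ := pi_up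
  obtain ⟨n1, hn1⟩ := rest_le (c + 8 * k * E * Real.log (2 * R) + 4 * E * Real.log B) ((E : ℝ) ^ 2)
    (c * E / (32 * k)) (by positivity) (by positivity)
  refine ⟨16 * k * C, ?_, c / (2 * E ^ 2 * C1 * (16 * k * C : ℕ)), ?_, max (max x1 n1) 2, ?_⟩
  · have : 1 ≤ k * C := Nat.mul_pos (by omega) (by omega)
    nlinarith
  · have hCr : (0 : ℝ) < (C : ℝ) := by exact_mod_cast (by omega : 0 < C)
    push_cast
    positivity
  intro X hX hyp
  have hXx1 : x1 ≤ X := (le_max_left _ _).trans ((le_max_left _ _).trans hX)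
  have hXn1 : n1 ≤ X := (le_max_right _ _).trans ((le_max_left _ _).trans hX)
  have hX2 : 2 ≤ X := (le_max_right _ _).trans hX
  obtain ⟨n, hn⟩ : ∃ n : ℕ, n + 1 = 8 * k * (X + 1) := by
    refine ⟨8 * k * (X + 1) - 1, ?_⟩
    have : 0 < 8 * k * (X + 1) := by positivity
    omega
  have hnX : X ≤ n := by
    have : 16 * (X + 1) ≤ 8 * k * (X + 1) := Nat.mul_le_mul_right _ (by omega)
    omega
  obtain ⟨T, hT1, hT2, hT3⟩ := hcore ρ B hρ0 hρ1 hB1 hb1 hb2 n
  have hT4 : E ^ 2 * (n + 1) ≤ 2 * T + 1 := by omega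
  have hT5 : E ^ 2 * (8 * k * (X + 1)) ≤ 2 * T + 1 := by rw [← hn]; exact hT4
  obtain ⟨a1, a2⟩ := Adich_nat hk2 hE3 hT5
  rw [← hn] at a1 a2
  have hkE : 0 < 2 * k * E := by positivity
  obtain ⟨x, hx⟩ : ∃ x : ℕ, x = (T - n - 1) / (2 * k * E) := ⟨_, rfl⟩
  have hXx : X ≤ x := by
    rw [hx, Nat.le_div_iff_mul_le hkE]
    omega
  have hxT : x ≤ T := by
    rw [hx]
    exact (Nat.div_le_self _ _).trans (by omega)
  have hCn : C * (n + 1) ≤ 16 * k * C * X := by
    rw [hn]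
    have : X + 1 ≤ 2 * X := by omega
    calc C * (8 * k * (X + 1)) ≤ C * (8 * k * (2 * X)) := by gcongr
      _ = 16 * k * C * X := by ring
  have hxK : x ≤ 16 * k * C * X := hxT.trans (hT2.trans hCn)
  have s1 := hx1 x (hXx1.trans hXx) (hyp x hXx hxK)
  have s2 : ∑ p ∈ (Finset.range (x + 1)).filter (fun p => p.Prime ∧ p0 < p ∧ Sl2 f p), Real.log p ≤
      ∑ p ∈ SS f k E n p0 T, Real.log p := by
    apply Finset.sum_le_sum_of_subset_of_nonneg
    · intro p hp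
      rw [Finset.mem_filter, Finset.mem_range] at hp
      obtain ⟨hp1, hp2, hp3, hp4⟩ := hp
      have hpx : p ≤ (T - n - 1) / (2 * k * E) := by rw [← hx]; omega
      rw [Nat.le_div_iff_mul_le hkE] at hpx
      have e1 : 2 * k * p * E = p * (2 * k * E) := by ring
      have e2 : p ≤ p * (2 * k * E) := Nat.le_mul_of_pos_right p hkE
      unfold SS
      rw [Finset.mem_filter, Finset.mem_range]
      refine ⟨by omega, hp2, hp3, hp4, ?_⟩
      rw [e1]
      omega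
    · intro p _ _
      exact Real.log_natCast_nonneg p
  have hlnX : c * X / (2 * E ^ 2) ≤ Real.log (Z0 f (C * (n + 1))) := by
    have r1 : (E : ℝ) ^ 2 * n ≤ 2 * T := by
      have h1 : ((E ^ 2 * (n + 1) : ℕ) : ℝ) ≤ ((2 * T + 1 : ℕ) : ℝ) := by exact_mod_cast hT4
      push_cast at h1
      have h2 : (1 : ℝ) ≤ (E : ℝ) ^ 2 := by
        have : (3 : ℝ) ≤ (E : ℝ) := by exact_mod_cast hE3
        nlinarith
      linarith
    have r2 : (T : ℝ) / (4 * k * E) - 1 ≤ x := by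
      have h1 : T - n - 1 < 2 * k * E * (x + 1) := by
        rw [hx]
        exact Nat.lt_mul_div_succ _ hkE
      have h2 : T ≤ 4 * k * E * (x + 1) := by
        have : 4 * k * E * (x + 1) = 2 * (2 * k * E * (x + 1)) := by ring
        omega
      have h3 : (T : ℝ) ≤ 4 * k * E * (x + 1) := by exact_mod_cast h2
      have h4 : (T : ℝ) / (4 * k * E) ≤ x + 1 := by
        rw [div_le_iff₀ (by positivity)]
        linarith
      linarith
    have r3 := hn1 n (hXn1.trans hnX)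
    have r4 := Adich_real (n := (n : ℝ)) (T := (T : ℝ)) (x := (x : ℝ)) (κ := (k : ℝ)) (E := (E : ℝ))
      (L4 := 4 * Real.log (2 * R)) (lr := Real.log (ρ⁻¹))
      (lnZ := Real.log (Z0 f (C * (n + 1))))
      (Rest := 8 * k * E * Real.log (2 * R) + 4 * E * Real.log B +
        2 * Real.log (E ^ 2 * (n + 1))) hc0 hκ hE (Nat.cast_nonneg n) r1 r2 hlr (Nat.cast_nonneg T)
        hEi (by linarith) (by
          rw [hMR] at hT3
          rw [← hc] at s1
          have e1 : 2 * ((n : ℝ) + 2 * (k : ℝ) * E) * (2 * Real.log (2 * R)) =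
            n * (4 * Real.log (2 * R)) + 8 * k * E * Real.log (2 * R) := by ring
          linarith)
    have r5 : 32 * (k : ℝ) * (X + 1) ≤ T := by
      have h1 : ((4 * (n + 1) : ℕ) : ℝ) ≤ (T : ℝ) := by exact_mod_cast a1
      rw [hn] at h1
      push_cast at h1
      linarith
    have r6 : c * (32 * (k : ℝ) * (X + 1)) / (k * E) / 16 ≤ c * T / (k * E) / 16 := by
      gcongr
    have r7 : c * (32 * (k : ℝ) * (X + 1)) / (k * E) / 16 = 4 * E * (c * (X + 1) / (2 * E ^ 2)) := by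
      field_simp
      norm_num
    rw [r7] at r6
    have r8 : c * (X + 1) / (2 * E ^ 2) ≤ Real.log (Z0 f (C * (n + 1))) :=
      le_of_mul_le_mul_left (r6.trans r4) (by positivity)
    refine le_trans ?_ r8
    gcongr
    linarith
  have hY1 : 1 ≤ C * (n + 1) := Nat.mul_pos (by omega) (by omega)
  have t1 := log_Z0_le f (C * (n + 1)) hY1
  rw [Adich_card] at t1
  have hKX2 : 2 ≤ 16 * k * C * X := by
    have : 1 ≤ k * C * X := Nat.mul_pos (Nat.mul_pos (by omega) (by omega)) (by omega)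
    nlinarith
  have hlog : Real.log (C * (n + 1) : ℕ) ≤ Real.log ((16 * k * C * X : ℕ) : ℝ) := by
    apply Real.log_le_log
    · exact_mod_cast hY1
    · exact_mod_cast hCn
  have hlog0 : 0 < Real.log ((16 * k * C * X : ℕ) : ℝ) := by
    apply Real.log_pos
    exact_mod_cast hKX2
  have hcm : (cnt (Ord0 f) (C * (n + 1)) : ℝ) ≤ cnt (Ord0 f) (16 * k * C * X) := by
    exact_mod_cast Adich_mono _ hCn
  have t2 : c * X / (2 * E ^ 2) ≤
      (cnt (Ord0 f) (16 * k * C * X) : ℝ) * Real.log ((16 * k * C * X : ℕ) : ℝ) := by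
    refine hlnX.trans (t1.trans ?_)
    exact mul_le_mul hcm hlog (Real.log_nonneg (by exact_mod_cast hY1)) (Nat.cast_nonneg _)
  have t3 := hpi (16 * k * C * X) hKX2
  have hCr : (0 : ℝ) < (C : ℝ) := by exact_mod_cast (by omega : 0 < C)
  refine le_of_mul_le_mul_right ?_ hlog0
  refine le_trans ?_ t2
  have hKr : (0 : ℝ) < ((16 * k * C : ℕ) : ℝ) := by
    push_cast
    positivity
  calc c / (2 * E ^ 2 * C1 * (16 * k * C : ℕ)) * (Nat.primeCounting (16 * k * C * X) : ℝ) *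
        Real.log ((16 * k * C * X : ℕ) : ℝ) =
        c / (2 * E ^ 2 * C1 * (16 * k * C : ℕ)) * ((Nat.primeCounting (16 * k * C * X) : ℝ) *
        Real.log ((16 * k * C * X : ℕ) : ℝ)) := by ring
    _ ≤ c / (2 * E ^ 2 * C1 * (16 * k * C : ℕ)) * (C1 * ((16 * k * C * X : ℕ) : ℝ)) := by
        apply mul_le_mul_of_nonneg_left t3
        positivity
    _ = c * X / (2 * E ^ 2) := by
        rw [Nat.cast_mul (16 * k * C) X]
        field_simp

end Pool.Agent.H85.OT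

end S_OT_Adich

section S_OU_ILe

/-!
# Row ILE (project OU): from the core inequality to the dichotomy (abstract form)

Same scheme as `OT/Adich.lean` (`low` of `OT/Alow.lean`, `pi_up` of `OT/Acheb.lean`, `Apar_log`, `rest_le` of `OT/Apar.lean`).  Let `a = 2 r c3 ≥ 2` (so the condition is `r n + a L p < T'`), `ε > 0`, `c = ε/8` (`low`:
`ε π(x) ≤ cnt S x` and `x ≥ x1` imply `c x ≤ ∑_{p ≤ x, p0 < p, S p} log p`).
Choice of `L`: `L ≥ 2`, `L² ≥ 4r` and `16 log (4 (1 + 32 a L/c)) ≤ c L/(16 a)` (`Apar_log`: the left side is `O(log L)`).  Take `C, p0` for this `L`; `η = c/(32 a L)`, `ρ = 1/(1+η)`, `lr = log ρ⁻¹ ≤ η`;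
`1/(1-ρ) = 1 + 1/η = 1 + 32aL/c`, `2 MR ρ = 8 (1+1/η)² ≤ (4(1+1/η))²`, `log (2MR) ≤ 2 log (4 (1 + 1/η))`.  `B` for this `ρ`.
Given `n` (large) and `T'`: `T' ≥ (L²(n+1) - 1)/2 ≥ L² n/2 ≥ 2 r n`, `n ≤ 2T'/L²`.  So
 `2 T' lr ≤ c T'/(16 a L)`;  `4 n log(2MR) ≤ 8T'/L² · 2 log (4(1+1/η)) ≤ c T'/(16 a L)`;
 `Rest = 4κL log(2MR) + 4L log B + 2 log (L²(n+1)) + 2c ≤ c T'/(16 a L)` for `n` large (`rest_le`).
Let `x = (T' - 1 - r n)/(a L)` (natural division); primes `p ≤ x` satisfy `r n + a L p < T'`, so if `ε π(x) ≤ cnt S x` (`x ≥ x1`): `c x ≤ ∑_(SSl) log p`; `x ≥ (T' - rn)/(aL) - 2 ≥ T'/(2aL) - 2`.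
Together: `c (T'/(2aL) - 2) ≤ 4L log Z + c T'/(16aL) + c T'/(16aL) + (Rest - 2c)`, so `4 L log Z ≥ c T'/(4aL)`, `log Z ≥ c T'/(16 a L²) ≥ c n/(32 a)`, `Z = Z (C(n+1))`.
Choice of `n` for given `X`: `n = 4a(X+1)`: `T' - 1 - rn ≥ T'/2 - 1 ≥ L² n/4 - 1 = L² a (X+1) - 1 ≥ a L X`, so `x ≥ X`; `Y = C(n+1) ≤ K X` with `K = C(8a+1)` for `X ≥ 1`... (`4a(X+1)+1 ≤ 8aX + X`), `x ≤ T' ≤ Y ≤ K X`.
So under the hypothesis on the window `[X, KX]`: `cnt O (KX) log (KX) ≥ cnt O Y log Y ≥ log Z ≥ c n/(32a) ≥ c X/8` (`hZ`; `cnt` and `log` are monotone), and `π(KX) log (KX) ≤ C1 K X` (`pi_up`), so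
`cnt O (KX) ≥ (c/(8 C1 K)) π(KX)`.  (`X` large so that `n` is large, `X ≥ x1`, `X ≥ 2`.)
-/

open Pool.Agent.H85.OT

namespace Pool.Agent.H85.OU

private theorem ile_real {c a L T n x lnZ Rest P4 lr : ℝ} (hc : 0 < c) (ha : 0 < a) (hL : 0 < L)
    (hn : 0 ≤ n) (h2 : L ^ 2 * n ≤ 2 * T) (hx : T / (2 * a * L) - 1 ≤ x)
    (hlr : lr ≤ c / (32 * a * L)) (hT : 0 ≤ T) (hP : P4 ≤ c * L / (32 * a))
    (hR : c + Rest ≤ c * L / (32 * a) * n)
    (hmain : c * x ≤ 4 * L * lnZ + 2 * T * lr + n * P4 + Rest) :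
    c * T / (a * L) / 4 ≤ 4 * L * lnZ := by
  have h3 : c * (T / (2 * a * L) - 1) ≤ c * x := mul_le_mul_of_nonneg_left hx hc.le
  have h4 : 2 * T * lr ≤ 2 * T * (c / (32 * a * L)) := mul_le_mul_of_nonneg_left hlr (by linarith)
  have h5 : n * P4 ≤ n * (c * L / (32 * a)) := mul_le_mul_of_nonneg_left hP hn
  have e1 : c * (T / (2 * a * L) - 1) = c * T / (a * L) / 2 - c := by field_simp
  have e2 : 2 * T * (c / (32 * a * L)) = c * T / (a * L) / 16 := by field_simp; ring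
  have e3 : n * (c * L / (32 * a)) ≤ c * T / (a * L) / 16 := by
    have e4 : n * (c * L / (32 * a)) = (c / (32 * a * L)) * (L ^ 2 * n) := by field_simp
    have e5 : c * T / (a * L) / 16 = (c / (32 * a * L)) * (2 * T) := by field_simp; ring
    rw [e4, e5]
    exact mul_le_mul_of_nonneg_left h2 (by positivity)
  have e6 : c * L / (32 * a) * n = n * (c * L / (32 * a)) := by ring
  have e7 : 0 ≤ c * T / (a * L) := by positivity
  rw [e1] at h3
  rw [e2] at h4
  rw [e6] at hR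
  linarith

private theorem ile_nat {a L r X T n : ℕ} (hL : 3 ≤ L) (hrL : 4 * r ≤ L) (hr : 1 ≤ r)
    (hn : n + 1 = 4 * a * (X + 1)) (hT : L ^ 2 * (n + 1) ≤ 2 * T + 1) :
    2 * (a * L ^ 2 * (X + 1)) ≤ T ∧ X * (a * L) + r * n + 1 ≤ T ∧ 2 * (r * n) ≤ T := by
  obtain ⟨m, hm⟩ : ∃ m : ℕ, m = a * L ^ 2 * (X + 1) := ⟨_, rfl⟩
  have h1 : L ^ 2 * (n + 1) = 4 * m := by rw [hn, hm]; ring
  have h2 : 12 * r ≤ L ^ 2 := by
    rw [pow_two]
    calc 12 * r = 4 * r * 3 := by ring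
      _ ≤ L * L := Nat.mul_le_mul hrL hL
  have h3 : 12 * r * (n + 1) ≤ 4 * m := by
    rw [← h1]
    exact Nat.mul_le_mul_right _ h2
  have h4 : X * (a * L) ≤ m := by
    rw [hm]
    have h5 : L ≤ L ^ 2 := by nlinarith
    calc X * (a * L) ≤ (X + 1) * (a * L ^ 2) := by gcongr; omega
      _ = a * L ^ 2 * (X + 1) := by ring
  have h5 : 3 * (r * n) + 3 ≤ m := by
    have h6 : 12 * r * (n + 1) = 4 * (3 * (r * n) + 3 * r) := by ring
    omega
  rw [← hm]
  rw [h1] at hT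
  refine ⟨by omega, by omega, by omega⟩

/-- choice of `L` -/
private theorem ile_param (a c r : ℝ) (ha : 0 < a) (hc : 0 < c) (hr : 0 ≤ r) :
    ∃ L : ℕ, 3 ≤ L ∧ 4 * r ≤ L ∧
      4 * (2 * Real.log (4 * (1 + 32 * a * L / c))) ≤ c * L / (32 * a) := by
  obtain ⟨L, hL3, hL⟩ := param (4 * a + c * r) c (by positivity) hc
  have hL0 : (0 : ℝ) < L := by
    have : (3 : ℝ) ≤ L := by exact_mod_cast hL3
    linarith
  have hκ : 0 < 4 * a + c * r := by positivity
  have hmono : 1 + 128 * a * L / c ≤ 1 + 32 * (4 * a + c * r) * L / c := by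
    have h1 : 128 * a * L / c ≤ 32 * (4 * a + c * r) * L / c := by
      apply div_le_div_of_nonneg_right _ hc.le
      apply mul_le_mul_of_nonneg_right _ hL0.le
      have : 0 ≤ c * r := by positivity
      linarith
    linarith
  have hlog : Real.log (2 * (1 + 128 * a * L / c)) ≤
      Real.log (2 * (1 + 32 * (4 * a + c * r) * L / c)) := by
    apply Real.log_le_log (by positivity)
    linarith
  refine ⟨L, hL3, ?_, ?_⟩
  · have h1 : Real.log 2 ≤ Real.log (2 * (1 + 32 * (4 * a + c * r) * L / c)) := by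
      apply Real.log_le_log (by norm_num)
      have : 0 ≤ 32 * (4 * a + c * r) * L / c := by positivity
      linarith
    have h2 := Real.log_two_gt_d9
    have h3 : 1 ≤ c * L / (32 * (4 * a + c * r)) := by linarith
    rw [le_div_iff₀ (by positivity)] at h3
    have h4 : 0 < c * a := by positivity
    have h5 : c * (4 * r) ≤ c * L := by nlinarith
    exact le_of_mul_le_mul_left h5 hc
  · have h1 : Real.log (4 * (1 + 32 * a * L / c)) ≤ 2 * Real.log (2 * (1 + 128 * a * L / c)) := by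
      have h2 : 2 * Real.log (2 * (1 + 128 * a * L / c)) =
          Real.log ((2 * (1 + 128 * a * L / c)) ^ 2) := by
        rw [Real.log_pow]
        norm_num
      rw [h2]
      apply Real.log_le_log (by positivity)
      have h3 : 0 ≤ a * L / c := by positivity
      have e1 : 32 * a * L / c = 32 * (a * L / c) := by ring
      have e2 : 128 * a * L / c = 128 * (a * L / c) := by ring
      rw [e1, e2]
      nlinarith
    have h4 : c * L / (32 * (4 * a + c * r)) ≤ c * L / (32 * (4 * a)) := by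
      apply div_le_div_of_nonneg_left (by positivity) (by positivity)
      have : 0 ≤ c * r := by positivity
      linarith
    have h5 : c * L / (32 * (4 * a)) = c * L / (32 * a) / 4 := by field_simp
    rw [h5] at h4
    linarith

theorem dichL (S O : ℕ → Prop) (Z : ℕ → ℕ) (hZ : ∀ Y : ℕ, 1 ≤ Y →
      Real.log (Z Y) ≤ (cnt O Y : ℝ) * Real.log Y) (r c3 κ : ℕ) (hr : 1 ≤ r) (hc3 : 1 ≤ c3)
    (h : ∀ L : ℕ, 2 ≤ L → ∃ C p0 : ℕ, 1 ≤ C ∧
      ∀ ρ : ℝ, 0 < ρ → ρ < 1 → ∃ B : ℝ, 1 ≤ B ∧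
      ∀ n : ℕ, ∃ T' : ℕ, L ^ 2 * (n + 1) / 2 ≤ T' ∧ T' ≤ C * (n + 1) ∧
        ∑ p ∈ SSl S r c3 L n p0 T', Real.log p ≤
          4 * L * Real.log (Z (C * (n + 1))) + 2 * T' * Real.log (ρ⁻¹) +
          2 * (2 * n + 2 * (κ : ℝ) * L) * Real.log (2 * MR ρ) + 4 * L * Real.log B +
          2 * Real.log (L ^ 2 * (n + 1))) : Dich S O := by
  classical
  intro ε hε
  obtain ⟨a, ha⟩ : ∃ a : ℕ, a = 2 * r * c3 := ⟨_, rfl⟩
  have ha2 : 2 ≤ a := by
    have : 1 ≤ r * c3 := Nat.mul_pos hr hc3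
    rw [ha, mul_assoc]
    omega
  have haR : (0 : ℝ) < (a : ℝ) := by exact_mod_cast (by omega : 0 < a)
  obtain ⟨c, hc⟩ : ∃ c : ℝ, c = ε / 8 := ⟨_, rfl⟩
  have hc0 : 0 < c := by rw [hc]; positivity
  obtain ⟨L, hL3, hrL', hLi⟩ := ile_param (a : ℝ) c (r : ℝ) haR hc0 (Nat.cast_nonneg r)
  have hrL : 4 * r ≤ L := by exact_mod_cast hrL'
  have hL : (0 : ℝ) < (L : ℝ) := by exact_mod_cast (by omega : 0 < L)
  obtain ⟨R, hR⟩ : ∃ R : ℝ, R = 1 + 32 * a * L / c := ⟨_, rfl⟩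
  have hq : 0 < 32 * (a : ℝ) * L / c := by positivity
  have hR1 : 1 < R := by rw [hR]; linarith
  have hR0 : 0 < R := by linarith
  rw [← hR] at hLi
  obtain ⟨ρ, hρ⟩ : ∃ ρ : ℝ, ρ = 1 - 1 / R := ⟨_, rfl⟩
  have hiR : 1 / R < 1 := by rw [div_lt_one hR0]; exact hR1
  have hiR0 : 0 < 1 / R := by positivity
  have hρ0 : 0 < ρ := by rw [hρ]; linarith
  have hρ1 : ρ < 1 := by rw [hρ]; linarith
  have hlr : Real.log (ρ⁻¹) ≤ c / (32 * a * L) := by
    have h1 := Real.log_le_sub_one_of_pos (inv_pos.2 hρ0)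
    refine h1.trans (le_of_eq ?_)
    have h2 : ρ = (R - 1) / R := by rw [hρ]; field_simp
    have h3 : R - 1 ≠ 0 := by linarith
    rw [h2, inv_div]
    have h4 : R / (R - 1) - 1 = 1 / (R - 1) := by field_simp; ring
    rw [h4, hR, add_sub_cancel_left, one_div_div]
  have hMR : Real.log (2 * MR ρ) ≤ 2 * Real.log (4 * R) := by
    have h1 : MR ρ = 4 * R ^ 2 := by
      unfold MR
      rw [hρ]
      have : 1 - (1 - 1 / R) = 1 / R := by ring
      rw [this]
      field_simp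
    have h2 : 2 * Real.log (4 * R) = Real.log ((4 * R) ^ 2) := by
      rw [Real.log_pow]
      norm_num
    rw [h1, h2]
    apply Real.log_le_log (by positivity)
    nlinarith
  have hP : 4 * Real.log (2 * MR ρ) ≤ c * L / (32 * a) := by linarith
  obtain ⟨C, p0, hC1, hcore0⟩ := h L (by omega)
  obtain ⟨B, hB1, hcore⟩ := hcore0 ρ hρ0 hρ1
  obtain ⟨x1, hx1⟩ := low S ε hε p0
  obtain ⟨C1, hC10, hpi⟩ := pi_up
  obtain ⟨n1, hn1⟩ := rest_le (c + 4 * κ * L * Real.log (2 * MR ρ) + 4 * L * Real.log B)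
    ((L : ℝ) ^ 2) (c * L / (32 * a)) (by positivity) (by positivity)
  have hCr : (0 : ℝ) < (C : ℝ) := by exact_mod_cast (by omega : 0 < C)
  refine ⟨8 * a * C, ?_, c / (8 * C1 * (8 * a * C : ℕ)), ?_, max (max x1 n1) 2, ?_⟩
  · exact Nat.mul_pos (by omega) (by omega)
  · push_cast
    positivity
  intro X hX hyp
  have hXx1 : x1 ≤ X := (le_max_left _ _).trans ((le_max_left _ _).trans hX)
  have hXn1 : n1 ≤ X := (le_max_right _ _).trans ((le_max_left _ _).trans hX)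
  have hX2 : 2 ≤ X := (le_max_right _ _).trans hX
  obtain ⟨n, hn⟩ : ∃ n : ℕ, n + 1 = 4 * a * (X + 1) := by
    refine ⟨4 * a * (X + 1) - 1, ?_⟩
    have : 0 < 4 * a * (X + 1) := by positivity
    omega
  have hnX : X ≤ n := by
    have : 8 * (X + 1) ≤ 4 * a * (X + 1) := Nat.mul_le_mul_right _ (by omega)
    omega
  obtain ⟨T, hT1, hT2, hT3⟩ := hcore n
  have hT4 : L ^ 2 * (n + 1) ≤ 2 * T + 1 := by omega
  obtain ⟨a1, a2, a3⟩ := ile_nat hL3 hrL hr hn hT4
  have hkE : 0 < a * L := Nat.mul_pos (by omega) (by omega)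
  obtain ⟨x, hx⟩ : ∃ x : ℕ, x = (T - r * n - 1) / (a * L) := ⟨_, rfl⟩
  have hXx : X ≤ x := by
    rw [hx, Nat.le_div_iff_mul_le hkE]
    omega
  have hxT : x ≤ T := by
    rw [hx]
    exact (Nat.div_le_self _ _).trans (by omega)
  have hCn : C * (n + 1) ≤ 8 * a * C * X := by
    rw [hn]
    have : X + 1 ≤ 2 * X := by omega
    calc C * (4 * a * (X + 1)) ≤ C * (4 * a * (2 * X)) := by gcongr
      _ = 8 * a * C * X := by ring
  have hxK : x ≤ 8 * a * C * X := hxT.trans (hT2.trans hCn)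
  have s1 := hx1 x (hXx1.trans hXx) (hyp x hXx hxK)
  have s2 : ∑ p ∈ (Finset.range (x + 1)).filter (fun p => p.Prime ∧ p0 < p ∧ S p), Real.log p ≤
      ∑ p ∈ SSl S r c3 L n p0 T, Real.log p := by
    apply Finset.sum_le_sum_of_subset_of_nonneg
    · intro p hp
      rw [Finset.mem_filter, Finset.mem_range] at hp
      obtain ⟨hp1, hp2, hp3, hp4⟩ := hp
      have hpx : p ≤ (T - r * n - 1) / (a * L) := by rw [← hx]; omega
      rw [Nat.le_div_iff_mul_le hkE] at hpx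
      have e1 : r * (n + 2 * L * c3 * p) = r * n + p * (a * L) := by rw [ha]; ring
      have e2 : p ≤ p * (a * L) := Nat.le_mul_of_pos_right p hkE
      unfold SSl
      rw [Finset.mem_filter, Finset.mem_range]
      refine ⟨by omega, hp2, hp3, hp4, ?_⟩
      rw [e1]
      omega
    · intro p _ _
      exact Real.log_natCast_nonneg p
  have hlnX : c * X / 8 ≤ Real.log (Z (C * (n + 1))) := by
    have r1 : (L : ℝ) ^ 2 * n ≤ 2 * T := by
      have h1 : ((L ^ 2 * (n + 1) : ℕ) : ℝ) ≤ ((2 * T + 1 : ℕ) : ℝ) := by exact_mod_cast hT4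
      push_cast at h1
      have h2 : (1 : ℝ) ≤ (L : ℝ) ^ 2 := by
        have : (3 : ℝ) ≤ (L : ℝ) := by exact_mod_cast hL3
        nlinarith
      linarith
    have r2 : (T : ℝ) / (2 * a * L) - 1 ≤ x := by
      have h1 : T - r * n - 1 < a * L * (x + 1) := by
        rw [hx]
        exact Nat.lt_mul_div_succ _ hkE
      have h2 : T ≤ 2 * a * L * (x + 1) := by
        have : 2 * a * L * (x + 1) = 2 * (a * L * (x + 1)) := by ring
        omega
      have h3 : (T : ℝ) ≤ 2 * a * L * (x + 1) := by exact_mod_cast h2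
      have h4 : (T : ℝ) / (2 * a * L) ≤ x + 1 := by
        rw [div_le_iff₀ (by positivity)]
        linarith
      linarith
    have r3 := hn1 n (hXn1.trans hnX)
    have r4 := ile_real (n := (n : ℝ)) (T := (T : ℝ)) (x := (x : ℝ)) (a := (a : ℝ)) (L := (L : ℝ))
      (P4 := 4 * Real.log (2 * MR ρ)) (lr := Real.log (ρ⁻¹))
      (lnZ := Real.log (Z (C * (n + 1))))
      (Rest := 4 * κ * L * Real.log (2 * MR ρ) + 4 * L * Real.log B +
        2 * Real.log (L ^ 2 * (n + 1))) hc0 haR hL (Nat.cast_nonneg n) r1 r2 hlr (Nat.cast_nonneg T)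
        hP (by linarith) (by
          rw [← hc] at s1
          have e1 : 2 * (2 * (n : ℝ) + 2 * (κ : ℝ) * L) * Real.log (2 * MR ρ) =
            n * (4 * Real.log (2 * MR ρ)) + 4 * κ * L * Real.log (2 * MR ρ) := by ring
          linarith)
    have r5 : 2 * ((a : ℝ) * (L : ℝ) ^ 2 * (X + 1)) ≤ T := by exact_mod_cast a1
    have r6 : c * (2 * ((a : ℝ) * (L : ℝ) ^ 2 * (X + 1))) / (a * L) / 4 ≤ c * T / (a * L) / 4 := by
      gcongr
    have r7 : c * (2 * ((a : ℝ) * (L : ℝ) ^ 2 * (X + 1))) / (a * L) / 4 =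
        4 * L * (c * (X + 1) / 8) := by
      field_simp
      ring
    rw [r7] at r6
    have r8 : c * (X + 1) / 8 ≤ Real.log (Z (C * (n + 1))) :=
      le_of_mul_le_mul_left (r6.trans r4) (by positivity)
    refine le_trans ?_ r8
    gcongr
    linarith
  have hY1 : 1 ≤ C * (n + 1) := Nat.mul_pos (by omega) (by omega)
  have t1 := hZ (C * (n + 1)) hY1
  have hKX2 : 2 ≤ 8 * a * C * X := by
    have : 1 ≤ a * C * X := Nat.mul_pos (Nat.mul_pos (by omega) (by omega)) (by omega)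
    nlinarith
  have hlog : Real.log (C * (n + 1) : ℕ) ≤ Real.log ((8 * a * C * X : ℕ) : ℝ) := by
    apply Real.log_le_log
    · exact_mod_cast hY1
    · exact_mod_cast hCn
  have hlog0 : 0 < Real.log ((8 * a * C * X : ℕ) : ℝ) := by
    apply Real.log_pos
    exact_mod_cast hKX2
  have hcm : (cnt O (C * (n + 1)) : ℝ) ≤ cnt O (8 * a * C * X) := by
    exact_mod_cast Adich_mono _ hCn
  have t2 : c * X / 8 ≤
      (cnt O (8 * a * C * X) : ℝ) * Real.log ((8 * a * C * X : ℕ) : ℝ) := by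
    refine hlnX.trans (t1.trans ?_)
    exact mul_le_mul hcm hlog (Real.log_nonneg (by exact_mod_cast hY1)) (Nat.cast_nonneg _)
  have t3 := hpi (8 * a * C * X) hKX2
  refine le_of_mul_le_mul_right ?_ hlog0
  refine le_trans ?_ t2
  have hKr : (0 : ℝ) < ((8 * a * C : ℕ) : ℝ) := by
    push_cast
    positivity
  calc c / (8 * C1 * (8 * a * C : ℕ)) * (Nat.primeCounting (8 * a * C * X) : ℝ) *
        Real.log ((8 * a * C * X : ℕ) : ℝ) =
        c / (8 * C1 * (8 * a * C : ℕ)) * ((Nat.primeCounting (8 * a * C * X) : ℝ) *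
        Real.log ((8 * a * C * X : ℕ) : ℝ)) := by ring
    _ ≤ c / (8 * C1 * (8 * a * C : ℕ)) * (C1 * ((8 * a * C * X : ℕ) : ℝ)) := by
        apply mul_le_mul_of_nonneg_left t3
        positivity
    _ = c * X / 8 := by
        rw [Nat.cast_mul (8 * a * C) X]
        field_simp

end Pool.Agent.H85.OU

end S_OU_ILe

section S_OT_Wtr

/-!
# Row WTR (project OT): coefficients in a number field, by the trace

`E` a number field, `O = 𝓞 E`, `f ∈ O⟦X⟧`, `f ≠ 0`, `a_0 = 0`, `IsFormR O w f`.  Choose `r` with `a_r ≠ 0` and an integer `m ≠ 0`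
with `β = m a_r⁻¹ ∈ O` (every element of `E` times a suitable nonzero integer is integral).
`T(y) = Tr_{O/ℤ}(β y)` (`Algebra.trace ℤ O`) is `ℤ`-linear and `T(a_r) = Tr(m) = m [E:ℚ] ≠ 0`.
`g = ∑ T(a_n) q^n ∈ ℤ⟦X⟧`: nonzero, `g_0 = 0`, and `IsForm w g`: from `M f = ∑ c_j (integral series)_j` one gets
`M g = ∑ T(c_j) (integral series)_j` (coefficientwise; `(tR O F)` has integer coefficients and `tR` is a ring map, so
`(tR O a)^(w-j) (tR O b)^j = tR O (a^(w-j) b^j)`).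
* `Sl2R f p → Sl2 g p`: `a_n = p^(v+1) y` gives `T(a_n) = p^(v+1) T(y)`.
* `Ord0 g p → Ord0R f p`: if `p^v ∣ a_n` for all `n ≥ 1` then `p^v ∣ T(a_n)`.
`dichotomy` for `g` gives `Dich (Sl2 g) (Ord0 g)`, and `Dich` is monotone: fewer primes in the first set, more in
the second (`cnt` is monotone in the predicate).
-/

open PowerSeries NumberField

namespace Pool.Agent.H85.OT

private theorem Wtr_cnt {P Q : ℕ → Prop} (h : ∀ p, P p → Q p) (x : ℕ) : cnt P x ≤ cnt Q x := by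
  classical
  unfold cnt
  apply Finset.card_le_card
  intro p hp
  rw [Finset.mem_filter] at hp ⊢
  exact ⟨hp.1, hp.2.1, h p hp.2.2⟩

private theorem Wtr_mono {S O S' O' : ℕ → Prop} (h : Dich S O) (hS : ∀ p, S' p → S p)
    (hO : ∀ p, O p → O' p) : Dich S' O' := by
  intro ε hε
  obtain ⟨K, hK, δ, hδ, X0, hX⟩ := h ε hε
  refine ⟨K, hK, δ, hδ, X0, fun X hX0 hyp => ?_⟩
  have h1 := hX X hX0 (fun x h1 h2 => (hyp x h1 h2).trans (by exact_mod_cast Wtr_cnt hS x))
  exact h1.trans (by exact_mod_cast Wtr_cnt hO (K * X))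

private theorem Wtr_functional (E : Type*) [Field E] [NumberField E] (a : 𝓞 E) (ha : a ≠ 0) :
    ∃ T : 𝓞 E →ₗ[ℤ] ℤ, T a ≠ 0 := by
  have h1 : (Ideal.absNorm (Ideal.span {a}) : 𝓞 E) ∈ Ideal.span {a} := Ideal.absNorm_mem _
  have h2 : Ideal.absNorm (Ideal.span {a}) ≠ 0 := by
    rw [Ne, Ideal.absNorm_eq_zero_iff, Ideal.span_singleton_eq_bot]
    exact ha
  rw [Ideal.mem_span_singleton'] at h1
  obtain ⟨b, hb⟩ := h1
  refine ⟨(Algebra.trace ℤ (𝓞 E)).comp (LinearMap.mulLeft ℤ b), ?_⟩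
  rw [LinearMap.comp_apply, LinearMap.mulLeft_apply, hb]
  have h3 : ((Ideal.absNorm (Ideal.span {a}) : ℕ) : 𝓞 E) =
      algebraMap ℤ (𝓞 E) ((Ideal.absNorm (Ideal.span {a}) : ℕ) : ℤ) := by simp
  rw [h3, Algebra.trace_algebraMap, NumberField.RingOfIntegers.rank]
  have h4 : 0 < Module.finrank ℚ E := Module.finrank_pos
  rw [nsmul_eq_mul]
  exact mul_ne_zero (by exact_mod_cast h4.ne') (by exact_mod_cast h2)

private theorem Wtr_dvd {R : Type*} [CommRing R] (T : R →ₗ[ℤ] ℤ) (p k : ℕ) (a : R)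
    (h : (p : R) ^ k ∣ a) : (p : ℤ) ^ k ∣ T a := by
  obtain ⟨y, hy⟩ := h
  refine ⟨T y, ?_⟩
  have : a = ((p : ℤ) ^ k) • y := by
    rw [hy, zsmul_eq_mul]
    push_cast
    ring
  rw [this, T.map_smul, smul_eq_mul]

theorem dichotomy_O (E : Type*) [Field E] [NumberField E] (f : (𝓞 E)⟦X⟧) (w : ℕ) (hw : 2 ≤ w)
    (hf : IsFormR (𝓞 E) w f) (hne : f ≠ 0) (h0 : PowerSeries.coeff 0 f = 0) :
    Dich (Sl2R f) (Ord0R f) := by
  obtain ⟨r, hr⟩ : ∃ r, PowerSeries.coeff r f ≠ 0 := by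
    by_contra hcon
    push Not at hcon
    apply hne
    ext n
    rw [hcon n]
    simp
  obtain ⟨T, hT⟩ := Wtr_functional E _ hr
  have hg : ∀ n, PowerSeries.coeff n (PowerSeries.mk fun n => T (PowerSeries.coeff n f)) =
      T (PowerSeries.coeff n f) := fun n => PowerSeries.coeff_mk _ _
  obtain ⟨g, hgd⟩ : ∃ g : ℤ⟦X⟧, ∀ n, PowerSeries.coeff n g = T (PowerSeries.coeff n f) := ⟨_, hg⟩
  have hform : IsForm w g := by
    obtain ⟨M, c, hM, hc⟩ := hf
    refine ⟨M, fun j => T (c j), hM, ?_⟩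
    ext n
    have h1 := congrArg (fun x => T (PowerSeries.coeff n x)) hc
    simp only [PowerSeries.coeff_C_mul, map_sum] at h1
    rw [PowerSeries.coeff_C_mul, hgd, map_sum]
    have h2 : T ((M : 𝓞 E) * PowerSeries.coeff n f) = M * T (PowerSeries.coeff n f) := by
      rw [← zsmul_eq_mul, T.map_smul, smul_eq_mul]
    rw [← h2, h1]
    apply Finset.sum_congr rfl
    intro j _
    have h3 : PowerSeries.C (c j) * (tR (𝓞 E) (th3 ^ 4)) ^ (w - j) * (tR (𝓞 E) (th4 ^ 4)) ^ j =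
        PowerSeries.C (c j) * tR (𝓞 E) ((th3 ^ 4) ^ (w - j) * (th4 ^ 4) ^ j) := by
      rw [map_mul, map_pow (tR (𝓞 E)) (th3 ^ 4), map_pow (tR (𝓞 E)) (th4 ^ 4), mul_assoc]
    rw [h3, PowerSeries.coeff_C_mul, mul_assoc, PowerSeries.coeff_C_mul]
    have h4 : PowerSeries.coeff n (tR (𝓞 E) ((th3 ^ 4) ^ (w - j) * (th4 ^ 4) ^ j)) =
        ((PowerSeries.coeff n ((th3 ^ 4) ^ (w - j) * (th4 ^ 4) ^ j) : ℤ) : 𝓞 E) := by
      unfold tR
      rw [PowerSeries.coeff_map]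
      rfl
    rw [h4, mul_comm (c j), ← zsmul_eq_mul, T.map_smul, smul_eq_mul, mul_comm]
  have hgne : g ≠ 0 := by
    intro h
    apply hT
    rw [← hgd, h]
    simp
  have hg0 : PowerSeries.coeff 0 g = 0 := by rw [hgd, h0, map_zero]
  apply Wtr_mono (dichotomy g w hw hform hgne hg0)
  · intro p hp n hn hpn
    rw [hgd]
    exact Wtr_dvd T p _ _ (hp n hn hpn)
  · rintro p ⟨n, hn, hpn⟩
    refine ⟨n, hn, fun hd => hpn ?_⟩
    rw [hgd]
    exact Wtr_dvd T p _ _ hd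

end Pool.Agent.H85.OT

end S_OT_Wtr

section S_OU_ThC

/-!
# Row THC (project OU): the dichotomy for forms of all levels, integral coefficients and number fields

* `dichotomyL`: `core_ineqL` and `dichL` with `Z = Z0 f`, `O = Ord0 f` (`log_Z0_le` of `OT/Cden.lean`; the cardinality there is `cnt (Ord0 f) Y`, `Adich_card`).
* `dichotomy_OL`: same scheme as `dichotomy_O` in `OT/Wtr.lean`.  `O = 𝓞 E`, `a_r ≠ 0`, `β = m a_r⁻¹ ∈ O` with an integer `m ≠ 0`, `T(y) = Tr_(O/ℤ)(β y)`, `g = ∑ T(a_n) q^n ∈ ℤ⟦X⟧`: `g ≠ 0` (`T(a_r) = m [E:ℚ]`),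
  `g_0 = 0`; `Sl2R F p → Sl2 g p`, `Ord0 g p → Ord0R F p`; `Dich` is monotone.
  `LForm ℚ k (map g)`: let `Ω = AlgebraicClosure ℚ` (or `ℂ`), `F_E` the image of `F` in `E⟦X⟧`.  In `Ω⟦X⟧`: `map g = ∑_τ C (τ β) * map τ F_E`, `τ` over the embeddings `E →ₐ[ℚ] Ω`
  (`trace_eq_sum_embeddings`, `Algebra.coe_trace_int` / `algebraMap (trace ℤ O y) = trace ℚ E y`); each term is `LForm Ω k` (`LForm.map`, `LForm.smul`), so is the sum (`LForm.sum`, nonempty), and
  `LForm.descend` along `ℚ → Ω`.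
-/

open PowerSeries NumberField
open Pool.Agent.H85.OT

namespace Pool.Agent.H85.OU

theorem dichotomyL (f : ℤ⟦X⟧) (k : ℕ) (hk : 3 ≤ k)
    (hf : LForm ℚ k (PowerSeries.map (Int.castRingHom ℚ) f)) (hne : f ≠ 0)
    (h0 : PowerSeries.coeff 0 f = 0) : Dich (Sl2 f) (Ord0 f) := by
  obtain ⟨r, c3, hr, hc3, H⟩ := core_ineqL f k hk hf hne h0
  refine dichL (Sl2 f) (Ord0 f) (Z0 f) (fun Y hY => ?_) r c3 (k - 2) hr hc3 H
  have h := log_Z0_le f Y hY
  rwa [Adich_card] at h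

/-- `Dich` is monotone -/
theorem ThC_mono {S S' O O' : ℕ → Prop} (hS : ∀ p, S' p → S p) (hO : ∀ p, O p → O' p)
    (h : Dich S O) : Dich S' O' := by
  classical
  have hc : ∀ {P Q : ℕ → Prop}, (∀ p, P p → Q p) → ∀ x, (cnt P x : ℝ) ≤ cnt Q x := by
    intro P Q hPQ x
    unfold cnt
    refine Nat.cast_le.2 (Finset.card_le_card fun p hp => ?_)
    rw [Finset.mem_filter] at hp ⊢
    exact ⟨hp.1, hp.2.1, hPQ p hp.2.2⟩
  intro ε hε
  obtain ⟨K, hK, δ, hδ, X0, hX⟩ := h ε hε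
  refine ⟨K, hK, δ, hδ, X0, fun X hXX hw => ?_⟩
  exact (hX X hXX fun x h1 h2 => (hw x h1 h2).trans (hc hS x)).trans (hc hO _)

/-- the trace twisted by `β` -/
noncomputable def ThC_T (E : Type) [Field E] [NumberField E] (β : 𝓞 E) : 𝓞 E →ₗ[ℤ] ℤ :=
  (Algebra.trace ℤ (𝓞 E)).comp (LinearMap.mulLeft ℤ β)

theorem ThC_T_apply (E : Type) [Field E] [NumberField E] (β y : 𝓞 E) :
    ThC_T E β y = Algebra.trace ℤ (𝓞 E) (β * y) := rfl

theorem ThC_T_dvd (E : Type) [Field E] [NumberField E] (β y : 𝓞 E) (p v : ℕ)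
    (h : (p : 𝓞 E) ^ v ∣ y) : (p : ℤ) ^ v ∣ ThC_T E β y := by
  obtain ⟨z, rfl⟩ := h
  refine ⟨ThC_T E β z, ?_⟩
  have h1 : (p : 𝓞 E) ^ v * z = ((p : ℤ) ^ v) • z := by
    rw [zsmul_eq_mul]
    push_cast
    rfl
  rw [h1, map_smul, smul_eq_mul]

/-- the twisted trace series is a form -/
theorem ThC_form (E : Type) [Field E] [NumberField E] (F : (𝓞 E)⟦X⟧) (k : ℕ)
    (hF : LForm E k (PowerSeries.map (algebraMap (𝓞 E) E) F)) (β : 𝓞 E) :
    LForm ℚ k (PowerSeries.map (Int.castRingHom ℚ)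
      (PowerSeries.mk fun n => ThC_T E β (PowerSeries.coeff n F))) := by
  classical
  apply LForm.descend (algebraMap ℚ (AlgebraicClosure ℚ))
  have h1 : PowerSeries.map (algebraMap ℚ (AlgebraicClosure ℚ)) (PowerSeries.map (Int.castRingHom ℚ)
      (PowerSeries.mk fun n => ThC_T E β (PowerSeries.coeff n F))) =
      ∑ τ : E →ₐ[ℚ] AlgebraicClosure ℚ, PowerSeries.C (τ (β : E)) *
        PowerSeries.map (τ : E →+* AlgebraicClosure ℚ) (PowerSeries.map (algebraMap (𝓞 E) E) F) := by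
    ext n
    rw [PowerSeries.coeff_map, PowerSeries.coeff_map, PowerSeries.coeff_mk, _root_.map_sum]
    have h2 : ∀ τ : E →ₐ[ℚ] AlgebraicClosure ℚ, PowerSeries.coeff n (PowerSeries.C (τ (β : E)) *
        PowerSeries.map (τ : E →+* AlgebraicClosure ℚ) (PowerSeries.map (algebraMap (𝓞 E) E) F)) =
        τ ((β * PowerSeries.coeff n F : 𝓞 E) : E) := by
      intro τ
      rw [PowerSeries.coeff_C_mul, PowerSeries.coeff_map, PowerSeries.coeff_map]
      have h3 : ((β * PowerSeries.coeff n F : 𝓞 E) : E) =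
          (β : E) * algebraMap (𝓞 E) E (PowerSeries.coeff n F) := _root_.map_mul _ _ _
      rw [h3, _root_.map_mul]
      rfl
    rw [Finset.sum_congr rfl fun τ _ => h2 τ, ← trace_eq_sum_embeddings (K := ℚ) (L := E),
      ThC_T_apply, ← Algebra.coe_trace_int]
    rfl
  rw [h1]
  have hne : Nonempty (E →ₐ[ℚ] AlgebraicClosure ℚ) := ⟨IsAlgClosed.lift⟩
  exact LForm.sum _ Finset.univ_nonempty _ fun τ _ => (LForm.map _ hF).smul _

theorem dichotomy_OL (E : Type) [Field E] [NumberField E] (F : (𝓞 E)⟦X⟧) (k : ℕ) (hk : 3 ≤ k)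
    (hF : LForm E k (PowerSeries.map (algebraMap (𝓞 E) E) F)) (hne : F ≠ 0)
    (h0 : PowerSeries.coeff 0 F = 0) : Dich (Sl2R F) (Ord0R F) := by
  obtain ⟨r, hr⟩ : ∃ r, PowerSeries.coeff r F ≠ 0 := by
    by_contra hcon
    push Not at hcon
    exact hne (PowerSeries.ext fun n => by rw [hcon n, _root_.map_zero])
  obtain ⟨β, m, hm, hβ⟩ : ∃ (β : 𝓞 E) (m : ℤ), m ≠ 0 ∧
      β * PowerSeries.coeff r F = algebraMap ℤ (𝓞 E) m := by
    have h1 := Ideal.absNorm_mem (Ideal.span {PowerSeries.coeff r F})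
    obtain ⟨β, hβ⟩ := Ideal.mem_span_singleton'.1 h1
    refine ⟨β, (Ideal.absNorm (Ideal.span {PowerSeries.coeff r F}) : ℤ), ?_, ?_⟩
    · rw [Nat.cast_ne_zero]
      intro h2
      rw [Ideal.absNorm_eq_zero_iff, Ideal.span_singleton_eq_bot] at h2
      exact hr h2
    · rw [hβ]
      simp
  have hd := dichotomyL (PowerSeries.mk fun n => ThC_T E β (PowerSeries.coeff n F)) k hk
    (ThC_form E F k hF β) (fun h => ?_) (by rw [PowerSeries.coeff_mk, h0, _root_.map_zero])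
  · refine ThC_mono (fun p hp n hn hpn => ?_) (fun p hp => ?_) hd
    · rw [PowerSeries.coeff_mk]
      exact ThC_T_dvd E β _ p _ (hp n hn hpn)
    · obtain ⟨n, hn, h1⟩ := hp
      refine ⟨n, hn, fun h2 => h1 ?_⟩
      rw [PowerSeries.coeff_mk]
      exact ThC_T_dvd E β _ p _ h2
  · have h1 := congrArg (PowerSeries.coeff r) h
    rw [PowerSeries.coeff_mk, _root_.map_zero, ThC_T_apply, hβ, Algebra.trace_algebraMap,
      nsmul_eq_mul] at h1
    rcases mul_eq_zero.1 h1 with h2 | h2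
    · have h3 : 0 < Module.finrank ℤ (𝓞 E) := Module.finrank_pos
      have h4 : (Module.finrank ℤ (𝓞 E)) = 0 := by exact_mod_cast h2
      omega
    · exact hm h2

end Pool.Agent.H85.OU

end S_OU_ThC
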