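import Mathlib
import Pool.Agent.H85.OM.M01

/-! First slopes of modular forms, part M10: this file joins several modules to save build time. -/

section S_OT_Vcv

/-!
# Row VCV (project OT): absolutely convergent power series

`Cv F q s` : `∑ ‖F_n q^n‖ < ∞` and `∑ F_n q^n = s`.
* `mul`: Cauchy product (`summable_norm_sum_mul_antidiagonal_of_summable_norm`,
  `tsum_mul_tsum_eq_tsum_sum_antidiagonal_of_summable_norm`; `PowerSeries.coeff_mul`).
* `dbl`: `coeff (2n) (dbl F) = coeff n F`, odd coefficients vanish.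
* uniqueness: two power series with the same sums on `0 < ‖q‖ < r` are equal: (`HasFPowerSeriesOnBall`
  uniqueness, or: if the first nonzero coefficient of the difference is `d_N`, then
  `∑_{n ≥ N} d_n q^(n-N)` is `0` for `q ≠ 0` small and tends to `d_N` as `q → 0`).
-/

open PowerSeries

namespace Pool.Agent.H85.OT

theorem Cv.add {F G : ℂ⟦X⟧} {q s t : ℂ} (hF : Cv F q s) (hG : Cv G q t) :
    Cv (F + G) q (s + t) := by
  have e : (fun n => PowerSeries.coeff n (F + G) * q ^ n) =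
      fun n => PowerSeries.coeff n F * q ^ n + PowerSeries.coeff n G * q ^ n := by
    funext n
    rw [map_add, add_mul]
  refine ⟨?_, ?_⟩
  · refine Summable.of_nonneg_of_le (fun n => norm_nonneg _) (fun n => ?_) (hF.1.add hG.1)
    rw [map_add, add_mul]
    exact norm_add_le _ _
  · rw [e]
    exact hF.2.add hG.2

theorem Cv.smul {F : ℂ⟦X⟧} {q s : ℂ} (c : ℂ) (hF : Cv F q s) :
    Cv (PowerSeries.C c * F) q (c * s) := by
  have e : (fun n => PowerSeries.coeff n (PowerSeries.C c * F) * q ^ n) =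
      fun n => c * (PowerSeries.coeff n F * q ^ n) := by
    funext n
    rw [PowerSeries.coeff_C_mul, mul_assoc]
  refine ⟨?_, ?_⟩
  · have h := hF.1.mul_left ‖c‖
    refine h.congr (fun n => ?_)
    rw [PowerSeries.coeff_C_mul, mul_assoc, norm_mul c]
  · rw [e]
    exact hF.2.mul_left c

theorem Cv.mul {F G : ℂ⟦X⟧} {q s t : ℂ} (hF : Cv F q s) (hG : Cv G q t) :
    Cv (F * G) q (s * t) := by
  have e : (fun n => PowerSeries.coeff n (F * G) * q ^ n) =
      fun n => ∑ kl ∈ Finset.HasAntidiagonal.antidiagonal n,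
        (PowerSeries.coeff kl.1 F * q ^ kl.1) * (PowerSeries.coeff kl.2 G * q ^ kl.2) := by
    funext n
    rw [PowerSeries.coeff_mul, Finset.sum_mul]
    refine Finset.sum_congr rfl (fun kl hkl => ?_)
    rw [← Finset.HasAntidiagonal.mem_antidiagonal.1 hkl, pow_add]
    ring
  have h1 := summable_norm_sum_mul_antidiagonal_of_summable_norm hF.1 hG.1
  have h2 := tsum_mul_tsum_eq_tsum_sum_antidiagonal_of_summable_norm hF.1 hG.1
  have e1 : Summable (fun n => ‖PowerSeries.coeff n (F * G) * q ^ n‖) := by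
    refine h1.congr (fun n => ?_)
    rw [← congrFun e n]
  refine ⟨e1, ?_⟩
  rw [hF.2.tsum_eq, hG.2.tsum_eq] at h2
  rw [h2, ← e]
  exact e1.of_norm.hasSum

theorem Cv.one (q : ℂ) : Cv 1 q 1 := by
  have e : (fun n => PowerSeries.coeff n (1 : ℂ⟦X⟧) * q ^ n) =
      fun n => if n = 0 then (1 : ℂ) else 0 := by
    funext n
    rw [PowerSeries.coeff_one]
    split_ifs with h
    · rw [h, pow_zero, mul_one]
    · rw [zero_mul]
  refine ⟨?_, ?_⟩
  · refine summable_of_ne_finset_zero (s := {0}) (fun n hn => ?_)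
    rw [Finset.mem_singleton] at hn
    rw [PowerSeries.coeff_one, if_neg hn, zero_mul, norm_zero]
  · rw [e]
    exact hasSum_ite_eq 0 1

theorem Cv.pow {F : ℂ⟦X⟧} {q s : ℂ} (hF : Cv F q s) (k : ℕ) : Cv (F ^ k) q (s ^ k) := by
  induction k with
  | zero => rw [pow_zero, pow_zero]; exact Cv.one q
  | succ k ih => rw [pow_succ, pow_succ]; exact ih.mul hF

theorem Cv.X (q : ℂ) : Cv PowerSeries.X q q := by
  have e : (fun n => PowerSeries.coeff n (PowerSeries.X : ℂ⟦X⟧) * q ^ n) =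
      fun n => if n = 1 then q else 0 := by
    funext n
    rw [PowerSeries.coeff_X]
    split_ifs with h
    · rw [h, pow_one, one_mul]
    · rw [zero_mul]
  refine ⟨?_, ?_⟩
  · refine summable_of_ne_finset_zero (s := {1}) (fun n hn => ?_)
    rw [Finset.mem_singleton] at hn
    rw [PowerSeries.coeff_X, if_neg hn, zero_mul, norm_zero]
  · rw [e]
    exact hasSum_ite_eq 1 q

private theorem Vcv_dbl (F : ℂ⟦X⟧) (n : ℕ) : PowerSeries.coeff n (OT.dbl ℂ F) =
    if 2 ∣ n then PowerSeries.coeff (n / 2) F else 0 := by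
  unfold OT.dbl
  exact PowerSeries.coeff_expand _ _ _

theorem Cv.dbl {F : ℂ⟦X⟧} {q s : ℂ} (hF : Cv F (q ^ 2) s) : Cv (dbl ℂ F) q s := by
  have hinj : Function.Injective (fun n : ℕ => 2 * n) := fun a b h => by
    have : 2 * a = 2 * b := h
    omega
  have e : ∀ n : ℕ, PowerSeries.coeff (2 * n) (OT.dbl ℂ F) * q ^ (2 * n) =
      PowerSeries.coeff n F * (q ^ 2) ^ n := by
    intro n
    rw [Vcv_dbl, if_pos (dvd_mul_right 2 n), Nat.mul_div_cancel_left n (by norm_num), pow_mul]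
  have h0 : ∀ n : ℕ, n ∉ Set.range (fun n : ℕ => 2 * n) → PowerSeries.coeff n (OT.dbl ℂ F) = 0 := by
    intro n hn
    rw [Vcv_dbl, if_neg]
    rintro ⟨m, rfl⟩
    exact hn ⟨m, rfl⟩
  refine ⟨?_, ?_⟩
  · rw [← hinj.summable_iff (fun n hn => by rw [h0 n hn, zero_mul, norm_zero])]
    refine hF.1.congr (fun n => ?_)
    simp only [Function.comp]
    rw [e n]
  · rw [← hinj.hasSum_iff (fun n hn => by rw [h0 n hn, zero_mul])]
    have e2 : ((fun n => PowerSeries.coeff n (OT.dbl ℂ F) * q ^ n) ∘ fun n : ℕ => 2 * n) =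
        fun n => PowerSeries.coeff n F * (q ^ 2) ^ n := by
      funext n
      exact e n
    rw [e2]
    exact hF.2

theorem Cv.unique {F : ℂ⟦X⟧} {q s t : ℂ} (h1 : Cv F q s) (h2 : Cv F q t) : s = t :=
  h1.2.unique h2.2

theorem Cv.ext {F G : ℂ⟦X⟧} (r : ℝ) (hr : 0 < r)
    (h : ∀ q : ℂ, 0 < ‖q‖ → ‖q‖ < r → ∃ s, Cv F q s ∧ Cv G q s) : F = G := by
  -- the differences
  set d : ℕ → ℂ := fun n => PowerSeries.coeff n F - PowerSeries.coeff n G with hd
  have hzero : ∀ q : ℂ, 0 < ‖q‖ → ‖q‖ < r →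
      (Summable fun n => ‖d n * q ^ n‖) ∧ HasSum (fun n => d n * q ^ n) 0 := by
    intro q h1 h2
    obtain ⟨s, hF, hG⟩ := h q h1 h2
    have e : (fun n => d n * q ^ n) =
        fun n => PowerSeries.coeff n F * q ^ n - PowerSeries.coeff n G * q ^ n := by
      funext n
      rw [hd]
      ring
    refine ⟨?_, ?_⟩
    · refine Summable.of_nonneg_of_le (fun n => norm_nonneg _) (fun n => ?_) (hF.1.add hG.1)
      have := congrFun e n
      rw [this]
      exact norm_sub_le _ _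
    · rw [e]
      have := hF.2.sub hG.2
      rwa [sub_self] at this
  have hd0 : ∀ N, d N = 0 := by
    intro N
    induction N using Nat.strong_induction_on with
    | _ N ih =>
      -- the bound
      set ρ : ℝ := r / 2 with hρ
      have hρ0 : 0 < ρ := by positivity
      have hρn : ‖(ρ : ℂ)‖ = ρ := by rw [Complex.norm_real, Real.norm_of_nonneg hρ0.le]
      obtain ⟨hs, -⟩ := hzero (ρ : ℂ) (by rw [hρn]; exact hρ0) (by rw [hρn, hρ]; linarith)
      set B : ℝ := ∑' n, ‖d n * (ρ : ℂ) ^ n‖ with hB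
      have hB0 : 0 ≤ B := tsum_nonneg (fun n => norm_nonneg _)
      have key : ∀ t : ℝ, 0 < t → t ≤ 1 → ‖d N‖ * ρ ^ N ≤ t * B := by
        intro t ht0 ht1
        set q : ℂ := ((ρ * t : ℝ) : ℂ) with hq
        have hqn : ‖q‖ = ρ * t := by
          rw [hq, Complex.norm_real, Real.norm_of_nonneg (by positivity)]
        have hqlt : ρ * t < r := by
          have : ρ * t ≤ ρ * 1 := mul_le_mul_of_nonneg_left ht1 hρ0.le
          rw [hρ] at this ⊢
          linarith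
        obtain ⟨-, hz⟩ := hzero q (by rw [hqn]; positivity) (by rw [hqn]; exact hqlt)
        have hz2 : HasSum (fun n => if n = N then 0 else d n * q ^ n) (0 - d N * q ^ N) := by
          have := hz.update N 0
          have e3 : (Function.update (fun n => d n * q ^ n) N 0) =
              fun n => if n = N then 0 else d n * q ^ n := by
            funext n
            rw [Function.update_apply]
          rw [e3, show (0 : ℂ) - d N * q ^ N + 0 = 0 - d N * q ^ N by ring] at this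
          exact this
        have hz3 : HasSum (fun n => t ^ (N + 1) * ‖d n * (ρ : ℂ) ^ n‖) (t ^ (N + 1) * B) :=
          hs.hasSum.mul_left _
        have hb : ‖0 - d N * q ^ N‖ ≤ t ^ (N + 1) * B := by
          refine hz2.norm_le_of_bounded hz3 (fun n => ?_)
          split_ifs with hn
          · rw [norm_zero]
            positivity
          · rcases lt_or_gt_of_ne hn with hlt | hgt
            · rw [ih n hlt, zero_mul, norm_zero, zero_mul, norm_zero, mul_zero]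
            · rw [norm_mul, norm_mul, norm_pow, norm_pow, hqn, hρn, mul_pow]
              have h5 : t ^ n ≤ t ^ (N + 1) := pow_le_pow_of_le_one ht0.le ht1 hgt
              have h6 : 0 ≤ ‖d n‖ * ρ ^ n := by positivity
              calc ‖d n‖ * (ρ ^ n * t ^ n) = t ^ n * (‖d n‖ * ρ ^ n) := by ring
                _ ≤ t ^ (N + 1) * (‖d n‖ * ρ ^ n) := mul_le_mul_of_nonneg_right h5 h6
        rw [zero_sub, norm_neg, norm_mul, norm_pow, hqn, mul_pow] at hb
        have ht : 0 < t ^ N := pow_pos ht0 N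
        have h7 : t ^ N * (‖d N‖ * ρ ^ N) ≤ t ^ N * (t * B) := by
          calc t ^ N * (‖d N‖ * ρ ^ N) = ‖d N‖ * (ρ ^ N * t ^ N) := by ring
            _ ≤ t ^ (N + 1) * B := hb
            _ = t ^ N * (t * B) := by ring
        exact le_of_mul_le_mul_left h7 ht
      have hle : ‖d N‖ * ρ ^ N ≤ 0 := by
        refine le_of_forall_pos_le_add (fun ε hε => ?_)
        set t : ℝ := min 1 (ε / (B + 1)) with ht
        have h8 : 0 < t := lt_min one_pos (by positivity)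
        have h9 := key t h8 (min_le_left _ _)
        have h10 : t ≤ ε / (B + 1) := min_le_right _ _
        have h11 : t * B ≤ ε := by
          calc t * B ≤ ε / (B + 1) * B := mul_le_mul_of_nonneg_right h10 hB0
            _ ≤ ε / (B + 1) * (B + 1) := mul_le_mul_of_nonneg_left (by linarith) (by positivity)
            _ = ε := by field_simp
        linarith
      have h12 : 0 < ρ ^ N := pow_pos hρ0 N
      have h13 : ‖d N‖ ≤ 0 := by
        by_contra hc
        push Not at hc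
        have : 0 < ‖d N‖ * ρ ^ N := mul_pos hc h12
        linarith
      exact norm_le_zero_iff.1 h13
  ext n
  have := hd0 n
  rw [hd] at this
  exact sub_eq_zero.1 this

/-- a series with bounded integer coefficients converges on the unit disc -/
theorem Cv.of_bdd {F : ℂ⟦X⟧} (B : ℝ) (hF : ∀ n, ‖PowerSeries.coeff n F‖ ≤ B) {q : ℂ}
    (hq : ‖q‖ < 1) : Cv F q (∑' n, PowerSeries.coeff n F * q ^ n) := by
  have h1 : Summable (fun n => ‖PowerSeries.coeff n F * q ^ n‖) := by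
    refine Summable.of_nonneg_of_le (fun n => norm_nonneg _) (fun n => ?_)
      ((summable_geometric_of_lt_one (norm_nonneg q) hq).mul_left B)
    rw [norm_mul, norm_pow]
    exact mul_le_mul_of_nonneg_right (hF n) (by positivity)
  exact ⟨h1, h1.of_norm.hasSum⟩

end Pool.Agent.H85.OT

end S_OT_Vcv

section S_OT_Vpsi

/-!
# Row VPSI (project OT): third duplication formula

`2 X (psi(X²))² = th3² - th4²`.
Coefficient `N` of the right side is `(1 - (-1)^N) r2 N` with `r2 N` the number of integer pairs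
`m² + n² = N`: `0` for `N` even, `2 r2 N` for `N` odd.  For `N` odd, `m + n` is odd and
`m = a + b + 1`, `n = a - b` is a bijection with integer pairs `(a,b)` such that
`2 (a² + a) + 2 (b² + b) + 1 = N`; the number of these is coefficient `N` of
`X (psi(X²))²` (`psi = ∑_{a ∈ ℤ} X^(a²+a)`).  Same style as file `Dup.lean` (see the proofs there; several
helper lemmas there can be reused).
-/

open PowerSeries

namespace Pool.Agent.H85.OT

/-- integers with `a² + a = n` -/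
noncomputable def Vpsi_S (n : ℕ) : Finset ℤ :=
  (Finset.Icc (-(n : ℤ) - 1) n).filter fun a => a ^ 2 + a = (n : ℤ)

/-- pairs of integers with `a² + a + b² + b = N` -/
noncomputable def Vpsi_P (N : ℕ) : Finset (ℤ × ℤ) :=
  (Finset.Icc (-(N : ℤ) - 1) N ×ˢ Finset.Icc (-(N : ℤ) - 1) N).filter
    fun p => p.1 ^ 2 + p.1 + (p.2 ^ 2 + p.2) = (N : ℤ)

theorem Vpsi_le (a : ℤ) {N : ℤ} (h : a ^ 2 + a ≤ N) : a ∈ Finset.Icc (-N - 1) N := by
  rw [Finset.mem_Icc]
  constructor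
  · nlinarith [sq_nonneg (a + 1)]
  · nlinarith [sq_nonneg a]

theorem Vpsi_nn (a : ℤ) : 0 ≤ a ^ 2 + a := by
  rcases le_or_gt 0 a with h | h
  · positivity
  · have h1 : a + 1 ≤ 0 := by omega
    nlinarith

theorem Vpsi_mem_S {n : ℕ} {a : ℤ} : a ∈ Vpsi_S n ↔ a ^ 2 + a = (n : ℤ) := by
  unfold Vpsi_S
  rw [Finset.mem_filter]
  exact ⟨fun h => h.2, fun h => ⟨Vpsi_le a h.le, h⟩⟩

theorem Vpsi_mem_P {N : ℕ} {p : ℤ × ℤ} :
    p ∈ Vpsi_P N ↔ p.1 ^ 2 + p.1 + (p.2 ^ 2 + p.2) = (N : ℤ) := by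
  unfold Vpsi_P
  rw [Finset.mem_filter, Finset.mem_product]
  refine ⟨fun h => h.2, fun h => ⟨⟨Vpsi_le _ ?_, Vpsi_le _ ?_⟩, h⟩⟩
  · linarith [Vpsi_nn p.2]
  · linarith [Vpsi_nn p.1]

theorem Vpsi_coeff_mul {f g : ℤ⟦X⟧} {χ ψ : ℤ → ℤ}
    (hf : ∀ n : ℕ, coeff n f = ∑ m ∈ Vpsi_S n, χ m)
    (hg : ∀ n : ℕ, coeff n g = ∑ m ∈ Vpsi_S n, ψ m) (N : ℕ) :
    coeff N (f * g) = ∑ p ∈ Vpsi_P N, χ p.1 * ψ p.2 := by
  rw [PowerSeries.coeff_mul, ← Finset.sum_fiberwise_of_maps_to (t := Finset.HasAntidiagonal.antidiagonal N)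
    (g := fun p : ℤ × ℤ => ((p.1 ^ 2 + p.1).toNat, (p.2 ^ 2 + p.2).toNat))]
  · apply Finset.sum_congr rfl
    intro q hq
    rw [Finset.HasAntidiagonal.mem_antidiagonal] at hq
    rw [hf, hg, Finset.sum_mul_sum, ← Finset.sum_product']
    apply Finset.sum_congr
    · ext p
      rw [Finset.mem_product, Finset.mem_filter, Vpsi_mem_S, Vpsi_mem_S, Vpsi_mem_P, Prod.ext_iff]
      have e1 := Int.toNat_of_nonneg (Vpsi_nn p.1)
      have e2 := Int.toNat_of_nonneg (Vpsi_nn p.2)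
      constructor
      · rintro ⟨h1, h2⟩
        refine ⟨?_, ?_, ?_⟩
        · rw [h1, h2, ← hq]
          push_cast
          rfl
        · simp only
          rw [h1]
          exact Int.toNat_natCast _
        · simp only
          rw [h2]
          exact Int.toNat_natCast _
      · rintro ⟨-, h1, h2⟩
        simp only at h1 h2
        rw [← h1, ← h2]
        exact ⟨e1.symm, e2.symm⟩
    · intro p _
      rfl
  · intro p hp
    rw [Vpsi_mem_P] at hp
    rw [Finset.HasAntidiagonal.mem_antidiagonal]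
    have e1 := Int.toNat_of_nonneg (Vpsi_nn p.1)
    have e2 := Int.toNat_of_nonneg (Vpsi_nn p.2)
    have h3 : (((p.1 ^ 2 + p.1).toNat + (p.2 ^ 2 + p.2).toNat : ℕ) : ℤ) = (N : ℤ) := by
      rw [Nat.cast_add, e1, e2, hp]
    exact_mod_cast h3

theorem Vpsi_coeff (n : ℕ) : coeff n psi = ∑ _m ∈ Vpsi_S n, (1 : ℤ) := by
  unfold psi
  rw [PowerSeries.coeff_mk]
  split_ifs with h
  · obtain ⟨k, hk⟩ := h
    have hodd : k % 2 = 1 := by
      rcases Nat.even_or_odd k with ⟨r, hr⟩ | hr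
      · exfalso
        subst hr
        have : (r + r) * (r + r) = 4 * (r * r) := by ring
        omega
      · exact Nat.odd_iff.mp hr
    obtain ⟨j, hj⟩ : ∃ j, k = 2 * j + 1 := ⟨k / 2, by omega⟩
    subst hj
    have hn : n = j ^ 2 + j := by nlinarith
    have hS : Vpsi_S n = {(j : ℤ), -(j : ℤ) - 1} := by
      ext m
      rw [Vpsi_mem_S, hn, Finset.mem_insert, Finset.mem_singleton]
      push_cast
      constructor
      · intro h
        have h2 : (m - j) * (m + j + 1) = 0 := by linarith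
        rcases mul_eq_zero.mp h2 with h3 | h3
        · left; linarith
        · right; linarith
      · rintro (h | h)
        · rw [h]
        · rw [h]; ring
    rw [hS, Finset.sum_pair]
    · norm_num
    · omega
  · have : Vpsi_S n = ∅ := by
      rw [Finset.eq_empty_iff_forall_notMem]
      intro m hm
      rw [Vpsi_mem_S] at hm
      apply h
      refine ⟨(2 * m + 1).natAbs, ?_⟩
      have h3 : ((4 * n + 1 : ℕ) : ℤ) = (((2 * m + 1).natAbs * (2 * m + 1).natAbs : ℕ) : ℤ) := by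
        rw [← Int.natAbs_mul]
        rw [Int.natAbs_of_nonneg (mul_self_nonneg _)]
        push_cast
        linarith
      exact_mod_cast h3
    rw [this]
    simp

theorem Vpsi_sum (M : ℕ) : ∑ _p ∈ Dup_P (2 * M + 1), (1 : ℤ) = ∑ _p ∈ Vpsi_P M, (1 : ℤ) := by
  symm
  refine Finset.sum_bij' (fun p _ => (p.1 + p.2 + 1, p.1 - p.2))
    (fun p _ => ((p.1 + p.2 - 1) / 2, (p.1 - p.2 - 1) / 2)) ?_ ?_ ?_ ?_ ?_
  · intro p hp
    rw [Vpsi_mem_P] at hp
    rw [Dup_mem_P]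
    push_cast
    rw [← hp]
    ring
  · intro p hp
    rw [Dup_mem_P] at hp
    rw [Vpsi_mem_P]
    push_cast at hp
    obtain ⟨x, y⟩ := p
    simp only at hp ⊢
    have hpar : (x + y) % 2 = 1 := by
      have h1 : (x ^ 2 + y ^ 2) % 2 = 1 := by rw [hp]; omega
      rcases Int.emod_two_eq_zero_or_one x with hx | hx <;>
        rcases Int.emod_two_eq_zero_or_one y with hy | hy <;>
        simp [pow_two, Int.add_emod, Int.mul_emod, hx, hy] at h1 ⊢
    obtain ⟨a, ha⟩ : ∃ a, x + y - 1 = 2 * a := ⟨(x + y - 1) / 2, by omega⟩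
    have hb : x - y - 1 = 2 * (a - y) := by linarith
    rw [ha, hb, Int.mul_ediv_cancel_left _ two_ne_zero, Int.mul_ediv_cancel_left _ two_ne_zero]
    have hx : x = 2 * a - y + 1 := by linarith
    rw [hx] at hp
    nlinarith [hp]
  · intro p _
    obtain ⟨x, y⟩ := p
    simp only [Prod.mk.injEq]
    constructor <;> omega
  · intro p hp
    rw [Dup_mem_P] at hp
    push_cast at hp
    obtain ⟨x, y⟩ := p
    simp only [Prod.mk.injEq] at hp ⊢
    have hpar : (x + y) % 2 = 1 := by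
      have h1 : (x ^ 2 + y ^ 2) % 2 = 1 := by rw [hp]; omega
      rcases Int.emod_two_eq_zero_or_one x with hx | hx <;>
        rcases Int.emod_two_eq_zero_or_one y with hy | hy <;>
        simp [pow_two, Int.add_emod, Int.mul_emod, hx, hy] at h1 ⊢
    constructor <;> omega
  · intro p _
    rfl

theorem Vpsi_rhs (N : ℕ) : coeff N (th3 ^ 2 - th4 ^ 2) =
    (1 - (-1) ^ N) * ∑ _p ∈ Dup_P N, (1 : ℤ) := by
  rw [map_sub, pow_two, pow_two, Dup_coeff_mul Dup_th3 Dup_th3, Dup_coeff_mul Dup_th4 Dup_th4,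
    ← Finset.sum_sub_distrib, Finset.mul_sum]
  apply Finset.sum_congr rfl
  intro p hp
  rw [Dup_mem_P] at hp
  rw [Dup_c_nat hp]
  ring

theorem two_X_psi : 2 * (PowerSeries.X : ℤ⟦X⟧) * (dbl ℤ psi) ^ 2 = th3 ^ 2 - th4 ^ 2 := by
  have e : 2 * (PowerSeries.X : ℤ⟦X⟧) * (dbl ℤ psi) ^ 2 =
      PowerSeries.X * (PowerSeries.C (2 : ℤ) * dbl ℤ (psi * psi)) := by
    rw [map_mul (dbl ℤ), pow_two]
    have : (PowerSeries.C (2 : ℤ)) = (2 : ℤ⟦X⟧) := map_ofNat _ 2
    rw [this]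
    ring
  rw [e]
  ext N
  rw [Vpsi_rhs]
  rcases N with _ | n
  · simp
  · rw [PowerSeries.coeff_succ_X_mul, PowerSeries.coeff_C_mul]
    unfold dbl
    rcases Nat.even_or_odd n with h | h
    · obtain ⟨M, hM⟩ := h
      have hM2 : n = 2 * M := by omega
      rw [hM2, PowerSeries.coeff_expand_mul, Vpsi_coeff_mul Vpsi_coeff Vpsi_coeff, Vpsi_sum]
      have h1 : (1 - (-1 : ℤ) ^ (2 * M + 1)) = 2 := by
        rw [pow_succ, pow_mul]
        norm_num
      rw [h1]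
      simp
    · rw [PowerSeries.coeff_expand_of_not_dvd]
      · have h1 : (1 - (-1 : ℤ) ^ (n + 1)) = 0 := by
          have : Even (n + 1) := h.add_one
          rw [this.neg_one_pow]
          norm_num
        rw [h1]
        simp
      · intro h2
        exact (Nat.not_even_iff_odd.mpr h) (even_iff_two_dvd.mpr h2)

end Pool.Agent.H85.OT

end S_OT_Vpsi

section S_OT_Vth

/-!
# Row VTH (project OT): analytic theta functions and the key transformation

`t = exp(π i τ)`, `im τ > 0` (`‖t‖ < 1`).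
* `cv_th3`: `∑ (coeff n th3) t^n = θ(τ)` (`hasSum_nat_jacobiTheta`: `∑_{n ≥ 0} exp(π i (n+1)² τ) = (θ(τ)-1)/2`; the
  coefficients of `th3` are bounded by `2`; sum over squares by reindexing along the injective map
  `n ↦ (n+1)²`).
* `cv_th4`: with `τ + 1`: `exp(π i (τ+1)) = -t`, `coeff n th4 = (-1)^n coeff n th3`.
* `S`-transformation of `θ₄`: `jacobiTheta σ = jacobiTheta₂ 0 σ`, and
  `jacobiTheta (σ + 1) = ∑ exp(π i n² (σ+1)) = ∑ exp(2π i n/2 + π i n² σ) = jacobiTheta₂ (1/2) σ`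
  (`exp(π i n²) = (-1)^n = exp(π i n)`).  `jacobiTheta₂_functional_equation` with `z = τ/2`:
  `jacobiTheta₂ (τ/2) τ = 1/(-iτ)^(1/2) * exp(-π i τ/4) * jacobiTheta₂ (1/2) (-1/τ)`.
  So `jacobiTheta (1 - 1/τ) = (-iτ)^(1/2) T2(τ)`, `T2(τ) = exp(π i τ/4) jacobiTheta₂ (τ/2) τ`, and the fourth power
  is `(-iτ)² T2⁴ = -τ² T2(τ)^4`.
* `jacobiTheta₂ (τ/2) τ = ∑_{n ∈ ℤ} exp(π i τ (n² + n)) = ∑ (coeff psi) t^n`: `Cv (map psi) t (jacobiTheta₂ (τ/2) τ)`.
* `T2(τ)^4 = TA τ - TB τ`: put `τ = 2σ`, `t = exp(π i σ)`, so `exp(π i τ) = t²`.  Evaluate `two_X_psi`,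
  `two_dbl_U`, `dbl_th4_sq` at `t` (`Cv` calculus, `Cv.unique`): with `A3 = jacobiTheta σ`,
  `A4 = jacobiTheta (σ+1)`: `2 t ψ(t²)² = A3² - A4²`; `2 θ(2σ)² = A3² + A4²`; `θ(2σ+1)² = A3 A4`.
  `T2(τ)^4 = t² ψ(t²)^4` (`exp(π i τ/4)^4 = exp(π i τ) = t²`) `= (A3² - A4²)²/4`, and
  `TA τ - TB τ = (A3² + A4²)²/4 - A3² A4² = (A3² - A4²)²/4`.
-/

open PowerSeries

namespace Pool.Agent.H85.OT

/-- sums over the fibres of an integer valued function -/
theorem Vth_fib {e : ℤ → ℕ} {S : ℕ → Finset ℤ} (hS : ∀ n m, m ∈ S n ↔ e m = n) {w : ℤ → ℂ}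
    {t s : ℂ} {F : ℂ⟦X⟧} (hF : ∀ n, PowerSeries.coeff n F = ∑ m ∈ S n, w m)
    (h : HasSum (fun m => w m * t ^ e m) s) : Cv F t s := by
  have key : ∀ (f : ℤ → ℂ) (n : ℕ), HasSum (fun c : {m // e m = n} => f c) (∑ m ∈ S n, f m) := by
    intro f n
    let _ : Fintype {m // e m = n} := Fintype.subtype (S n) (fun x => hS n x)
    rw [Finset.sum_subtype (S n) (fun x => hS n x) f]
    exact hasSum_fintype _
  have keyR : ∀ (f : ℤ → ℝ) (n : ℕ), HasSum (fun c : {m // e m = n} => f c) (∑ m ∈ S n, f m) := by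
    intro f n
    let _ : Fintype {m // e m = n} := Fintype.subtype (S n) (fun x => hS n x)
    rw [Finset.sum_subtype (S n) (fun x => hS n x) f]
    exact hasSum_fintype _
  have hn : Summable (fun m => ‖w m * t ^ e m‖) := h.summable.norm
  have h1 := ((Equiv.sigmaFiberEquiv e).hasSum_iff (f := fun m => w m * t ^ e m)).2 h
  have h2 := h1.sigma (g := fun n => ∑ m ∈ S n, w m * t ^ e m)
    (fun n => key (fun m => w m * t ^ e m) n)
  have h3 := ((Equiv.sigmaFiberEquiv e).hasSum_iff (f := fun m => ‖w m * t ^ e m‖)).2 hn.hasSum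
  have h4 := h3.sigma (g := fun n => ∑ m ∈ S n, ‖w m * t ^ e m‖)
    (fun n => keyR (fun m => ‖w m * t ^ e m‖) n)
  have e1 : ∀ n, ∑ m ∈ S n, w m * t ^ e m = PowerSeries.coeff n F * t ^ n := by
    intro n
    rw [hF, Finset.sum_mul]
    refine Finset.sum_congr rfl fun m hm => ?_
    rw [(hS n m).1 hm]
  refine ⟨?_, ?_⟩
  · refine Summable.of_nonneg_of_le (fun n => norm_nonneg _) (fun n => ?_) h4.summable
    rw [← e1]
    exact norm_sum_le _ _
  · have e2 : (fun n => PowerSeries.coeff n F * t ^ n) = fun n => ∑ m ∈ S n, w m * t ^ e m := by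
      funext n
      rw [e1]
    rw [e2]
    exact h2

theorem Vth_pow (τ : ℂ) (n : ℕ) :
    Complex.exp (Real.pi * Complex.I * τ) ^ n = Complex.exp (Real.pi * Complex.I * (n : ℂ) * τ) := by
  rw [← Complex.exp_nat_mul]
  congr 1
  ring

theorem Vth_sign (m : ℤ) : Complex.exp (Real.pi * Complex.I * (m : ℂ) ^ 2) = ((Dup_c m : ℤ) : ℂ) := by
  have h1 : (Real.pi * Complex.I * (m : ℂ) ^ 2 : ℂ) = ((m * m : ℤ) : ℂ) * (Real.pi * Complex.I) := by
    push_cast
    ring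
  rw [h1, Complex.exp_int_mul, Complex.exp_pi_mul_I, ← Int.cast_negOnePow, Int.negOnePow_mul_self]
  rfl

theorem Vth_natAbs (m : ℤ) : ((m.natAbs ^ 2 : ℕ) : ℂ) = (m : ℂ) ^ 2 := by
  have h : ((m.natAbs ^ 2 : ℕ) : ℤ) = m ^ 2 := by
    push_cast
    exact sq_abs m
  have h2 := congrArg (fun x : ℤ => (x : ℂ)) h
  simp only [Int.cast_natCast, Int.cast_pow] at h2
  exact h2

theorem Vth_mem (n : ℕ) (m : ℤ) : m ∈ Dup_S n ↔ m.natAbs ^ 2 = n := by
  rw [Dup_mem_S]
  have h : ((m.natAbs ^ 2 : ℕ) : ℤ) = m ^ 2 := by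
    push_cast
    exact sq_abs m
  rw [← h]
  exact Int.natCast_inj

theorem cv_th3 (τ : ℂ) (hτ : 0 < τ.im) :
    Cv (PowerSeries.map (Int.castRingHom ℂ) th3) (Complex.exp (Real.pi * Complex.I * τ))
      (jacobiTheta τ) := by
  refine Vth_fib (e := fun m => m.natAbs ^ 2) (S := Dup_S) (w := fun _ => 1)
    (fun n m => Vth_mem n m) (fun n => ?_) ?_
  · rw [PowerSeries.coeff_map, Dup_th3, map_sum]
    refine Finset.sum_congr rfl fun m _ => ?_
    exact map_one _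
  · rw [jacobiTheta_eq_jacobiTheta₂]
    have h := hasSum_jacobiTheta₂_term 0 hτ
    have e : (fun m : ℤ => (1 : ℂ) * Complex.exp (Real.pi * Complex.I * τ) ^ (m.natAbs ^ 2)) =
        fun m => jacobiTheta₂_term m 0 τ := by
      funext m
      rw [Vth_pow, Vth_natAbs, one_mul, jacobiTheta₂_term]
      congr 1
      ring
    rw [e]
    exact h

theorem Vth_im (τ : ℂ) (hτ : 0 < τ.im) : 0 < (τ + 1).im := by
  rw [Complex.add_im, Complex.one_im, add_zero]
  exact hτ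

theorem cv_th4 (τ : ℂ) (hτ : 0 < τ.im) :
    Cv (PowerSeries.map (Int.castRingHom ℂ) th4) (Complex.exp (Real.pi * Complex.I * τ))
      (jacobiTheta (τ + 1)) := by
  refine Vth_fib (e := fun m => m.natAbs ^ 2) (S := Dup_S) (w := fun m => ((Dup_c m : ℤ) : ℂ))
    (fun n m => Vth_mem n m) (fun n => ?_) ?_
  · rw [PowerSeries.coeff_map, Dup_th4, map_sum]
    rfl
  · rw [jacobiTheta_eq_jacobiTheta₂]
    have h := hasSum_jacobiTheta₂_term 0 (Vth_im τ hτ)
    have e : (fun m : ℤ => ((Dup_c m : ℤ) : ℂ) *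
        Complex.exp (Real.pi * Complex.I * τ) ^ (m.natAbs ^ 2)) =
        fun m => jacobiTheta₂_term m 0 (τ + 1) := by
      funext m
      rw [Vth_pow, Vth_natAbs, ← Vth_sign, jacobiTheta₂_term, ← Complex.exp_add]
      congr 1
      ring
    rw [e]
    exact h

/-- integers with `m² + m = n` -/
noncomputable def Vth_S (n : ℕ) : Finset ℤ :=
  (Finset.Icc (-(n : ℤ) - 1) n).filter fun m => m ^ 2 + m = (n : ℤ)

theorem Vth_nn (m : ℤ) : 0 ≤ m ^ 2 + m := by
  rcases le_or_gt 0 m with h | h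
  · positivity
  · have h1 : m + 1 ≤ 0 := h
    nlinarith

theorem Vth_memS (n : ℕ) (m : ℤ) : m ∈ Vth_S n ↔ (m ^ 2 + m).toNat = n := by
  have h0 := Vth_nn m
  have h1 : ((m ^ 2 + m).toNat : ℤ) = m ^ 2 + m := Int.toNat_of_nonneg h0
  unfold Vth_S
  rw [Finset.mem_filter, Finset.mem_Icc]
  constructor
  · rintro ⟨-, h⟩
    have h2 := h1.trans h
    exact_mod_cast h2
  · intro h
    rw [h] at h1
    refine ⟨⟨?_, ?_⟩, h1.symm⟩
    · rw [h1]
      nlinarith [sq_nonneg (m + 1)]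
    · rw [h1]
      nlinarith [sq_nonneg m]

theorem Vth_psi (n : ℕ) : PowerSeries.coeff n psi = ∑ _m ∈ Vth_S n, (1 : ℤ) := by
  unfold psi
  rw [PowerSeries.coeff_mk]
  split_ifs with h
  · obtain ⟨k, hk⟩ := h
    have hodd : k % 2 = 1 := by
      rcases Nat.mod_two_eq_zero_or_one k with h0 | h0
      · exfalso
        have h1 : (k * k) % 2 = 0 := by simp [Nat.mul_mod, h0]
        omega
      · exact h0
    obtain ⟨j, hj⟩ : ∃ j, k = 2 * j + 1 := ⟨k / 2, by omega⟩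
    have hn : (n : ℤ) = (j : ℤ) ^ 2 + j := by
      rw [hj] at hk
      have h2 : ((4 * n + 1 : ℕ) : ℤ) = (((2 * j + 1) * (2 * j + 1) : ℕ) : ℤ) := by rw [hk]
      push_cast at h2
      linarith
    have hSe : Vth_S n = {(j : ℤ), -(j : ℤ) - 1} := by
      ext m
      rw [Vth_memS, Finset.mem_insert, Finset.mem_singleton]
      have h0 := Vth_nn m
      have h1 : ((m ^ 2 + m).toNat : ℤ) = m ^ 2 + m := Int.toNat_of_nonneg h0
      constructor
      · intro h
        rw [h, hn] at h1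
        have h3 : (m - j) * (m - (-(j : ℤ) - 1)) = 0 := by linarith
        rcases mul_eq_zero.1 h3 with h4 | h4
        · exact Or.inl (by linarith)
        · exact Or.inr (by linarith)
      · intro h
        have h3 : (m ^ 2 + m : ℤ) = n := by
          rcases h with rfl | rfl
          · rw [hn]
          · rw [hn]; ring
        rw [h3]
        exact Int.toNat_natCast n
    rw [hSe, Finset.sum_pair]
    · norm_num
    · intro h
      have : (0 : ℤ) ≤ (j : ℤ) := Int.natCast_nonneg j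
      omega
  · have hSe : Vth_S n = ∅ := by
      rw [Finset.eq_empty_iff_forall_notMem]
      intro m hm
      rw [Vth_memS] at hm
      have h1 : ((m ^ 2 + m).toNat : ℤ) = m ^ 2 + m := Int.toNat_of_nonneg (Vth_nn m)
      rw [hm] at h1
      apply h
      refine ⟨(2 * m + 1).natAbs, ?_⟩
      have h3 : ((4 * n + 1 : ℕ) : ℤ) = (((2 * m + 1).natAbs * (2 * m + 1).natAbs : ℕ) : ℤ) := by
        push_cast
        rw [abs_mul_abs_self, h1]
        ring
      exact_mod_cast h3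
    rw [hSe]
    simp

theorem Vth_cv_psi (τ : ℂ) (hτ : 0 < τ.im) :
    Cv (PowerSeries.map (Int.castRingHom ℂ) psi) (Complex.exp (Real.pi * Complex.I * τ))
      (jacobiTheta₂ (τ / 2) τ) := by
  refine Vth_fib (e := fun m => (m ^ 2 + m).toNat) (S := Vth_S) (w := fun _ => 1)
    (fun n m => Vth_memS n m) (fun n => ?_) ?_
  · rw [PowerSeries.coeff_map, Vth_psi, map_sum]
    refine Finset.sum_congr rfl fun m _ => ?_
    exact map_one _
  · have h := hasSum_jacobiTheta₂_term (τ / 2) hτ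
    have e : (fun m : ℤ => (1 : ℂ) * Complex.exp (Real.pi * Complex.I * τ) ^ ((m ^ 2 + m).toNat)) =
        fun m => jacobiTheta₂_term m (τ / 2) τ := by
      funext m
      have h1 : ((m ^ 2 + m).toNat : ℤ) = m ^ 2 + m := Int.toNat_of_nonneg (Vth_nn m)
      have h2 : (((m ^ 2 + m).toNat : ℕ) : ℂ) = (m : ℂ) ^ 2 + m := by
        have h3 := congrArg (fun x : ℤ => (x : ℂ)) h1
        simp only [Int.cast_natCast, Int.cast_pow, Int.cast_add] at h3
        exact h3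
      rw [Vth_pow, h2, one_mul, jacobiTheta₂_term]
      congr 1
      ring
    rw [e]
    exact h

theorem TA_add_one (τ : ℂ) : TA (τ + 1) = TB τ := rfl

theorem TB_add_one (τ : ℂ) : TB (τ + 1) = TA τ := by
  unfold TA TB
  have h : τ + 1 + 1 = 2 + τ := by ring
  rw [h, jacobiTheta_two_add]

theorem Vth_half (τ : ℂ) (hτ : 0 < τ.im) (z : ℂ) : jacobiTheta₂ (z / τ) (-1 / τ) ^ 4 =
    -τ ^ 2 * (Complex.exp (Real.pi * Complex.I * z ^ 2 / τ) * jacobiTheta₂ z τ) ^ 4 := by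
  have hτ0 : τ ≠ 0 := by
    rintro rfl
    simp at hτ
  have h1 := jacobiTheta₂_functional_equation z τ
  have hI : (-Complex.I * τ) ≠ 0 := mul_ne_zero (neg_ne_zero.2 Complex.I_ne_zero) hτ0
  have hc : (-Complex.I * τ) ^ (1 / 2 : ℂ) ≠ 0 := by
    rw [Ne, Complex.cpow_eq_zero_iff]
    rintro ⟨h, -⟩
    exact hI h
  have h4 : ((-Complex.I * τ) ^ (1 / 2 : ℂ)) ^ 4 = -τ ^ 2 := by
    rw [← Complex.cpow_nat_mul]
    have e : ((4 : ℕ) : ℂ) * (1 / 2) = ((2 : ℕ) : ℂ) := by norm_num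
    rw [e, Complex.cpow_natCast, mul_pow, neg_sq, Complex.I_sq]
    ring
  have h5 : Complex.exp (Real.pi * Complex.I * z ^ 2 / τ) *
      Complex.exp (-Real.pi * Complex.I * z ^ 2 / τ) = 1 := by
    rw [← Complex.exp_add]
    have e : (Real.pi * Complex.I * z ^ 2 / τ + -Real.pi * Complex.I * z ^ 2 / τ : ℂ) = 0 := by ring
    rw [e, Complex.exp_zero]
  have h6 : jacobiTheta₂ (z / τ) (-1 / τ) = (-Complex.I * τ) ^ (1 / 2 : ℂ) *
      (Complex.exp (Real.pi * Complex.I * z ^ 2 / τ) * jacobiTheta₂ z τ) := by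
    rw [h1]
    have h7 : (-Complex.I * τ) ^ (1 / 2 : ℂ) * (1 / (-Complex.I * τ) ^ (1 / 2 : ℂ)) = 1 := by
      rw [mul_one_div_cancel hc]
    calc jacobiTheta₂ (z / τ) (-1 / τ) = 1 * (1 * jacobiTheta₂ (z / τ) (-1 / τ)) := by ring
      _ = ((-Complex.I * τ) ^ (1 / 2 : ℂ) * (1 / (-Complex.I * τ) ^ (1 / 2 : ℂ))) *
          ((Complex.exp (Real.pi * Complex.I * z ^ 2 / τ) *
            Complex.exp (-Real.pi * Complex.I * z ^ 2 / τ)) * jacobiTheta₂ (z / τ) (-1 / τ)) := by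
          rw [h7, h5]
      _ = _ := by ring
  rw [h6, mul_pow, h4]

theorem TA_S (τ : ℂ) (hτ : 0 < τ.im) : TA (-1 / τ) = -τ ^ 2 * TA τ := by
  have h := Vth_half τ hτ 0
  rw [zero_div] at h
  unfold TA
  rw [jacobiTheta_eq_jacobiTheta₂, jacobiTheta_eq_jacobiTheta₂, h]
  norm_num

theorem Vth_shift (σ : ℂ) : jacobiTheta (σ + 1) = jacobiTheta₂ (1 / 2) σ := by
  rw [jacobiTheta_eq_jacobiTheta₂]
  unfold jacobiTheta₂ jacobiTheta₂_term
  refine tsum_congr fun m => ?_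
  have h1 : (2 * Real.pi * Complex.I * m * 0 + Real.pi * Complex.I * (m : ℂ) ^ 2 * (σ + 1) : ℂ) =
      (Real.pi * Complex.I * (m : ℂ) ^ 2) + Real.pi * Complex.I * (m : ℂ) ^ 2 * σ := by ring
  have h2 : (2 * Real.pi * Complex.I * m * (1 / 2) + Real.pi * Complex.I * (m : ℂ) ^ 2 * σ : ℂ) =
      ((m : ℤ) : ℂ) * (Real.pi * Complex.I) + Real.pi * Complex.I * (m : ℂ) ^ 2 * σ := by ring
  rw [h1, h2, Complex.exp_add, Complex.exp_add, Vth_sign, Complex.exp_int_mul,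
    Complex.exp_pi_mul_I, ← Int.cast_negOnePow]
  rfl

theorem Vth_map_dbl (F : ℤ⟦X⟧) : PowerSeries.map (Int.castRingHom ℂ) (dbl ℤ F) =
    dbl ℂ (PowerSeries.map (Int.castRingHom ℂ) F) := by
  unfold dbl
  ext n
  rw [PowerSeries.coeff_map]
  by_cases h : 2 ∣ n
  · obtain ⟨m, rfl⟩ := h
    rw [PowerSeries.coeff_expand_mul, PowerSeries.coeff_expand_mul, PowerSeries.coeff_map]
  · rw [PowerSeries.coeff_expand_of_not_dvd _ _ _ h, PowerSeries.coeff_expand_of_not_dvd _ _ _ h,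
      map_zero]

theorem Vth_key (τ : ℂ) (hτ : 0 < τ.im) :
    Complex.exp (Real.pi * Complex.I * τ) * jacobiTheta₂ (τ / 2) τ ^ 4 = TA τ - TB τ := by
  have hσ : 0 < (τ / 2).im := by
    have : τ / 2 = ((1 / 2 : ℝ) : ℂ) * τ := by push_cast; ring
    rw [this, Complex.im_ofReal_mul]
    positivity
  set t := Complex.exp (Real.pi * Complex.I * (τ / 2)) with ht
  have hT : Complex.exp (Real.pi * Complex.I * τ) = t ^ 2 := by
    rw [ht, ← Complex.exp_nat_mul]
    congr 1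
    push_cast
    ring
  have c3 := cv_th3 τ hτ
  have c4 := cv_th4 τ hτ
  have cp := Vth_cv_psi τ hτ
  rw [hT] at c3 c4 cp ⊢
  have d3 := cv_th3 (τ / 2) hσ
  have d4 := cv_th4 (τ / 2) hσ
  rw [← ht] at d3 d4
  set A3 := jacobiTheta (τ / 2) with hA3
  set A4 := jacobiTheta (τ / 2 + 1) with hA4
  set P := jacobiTheta₂ (τ / 2) τ with hP
  have two : ∀ G : ℂ⟦X⟧, (2 : ℂ⟦X⟧) * G = PowerSeries.C 2 * G := fun G => by
    rw [map_ofNat]
  -- first identity
  have r1 : 2 * (t * P ^ 2) = A3 ^ 2 + (-1) * A4 ^ 2 := by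
    have e := congrArg (PowerSeries.map (Int.castRingHom ℂ)) two_X_psi
    rw [map_mul, map_mul, map_pow, Vth_map_dbl, PowerSeries.map_X, map_sub, map_pow, map_pow,
      map_ofNat, mul_assoc, two] at e
    have a1 := ((Cv.X t).mul (cp.dbl.pow 2)).smul 2
    rw [e] at a1
    have a2 := (d3.pow 2).add ((d4.pow 2).smul (-1))
    have e2 : PowerSeries.map (Int.castRingHom ℂ) th3 ^ 2 +
        PowerSeries.C (-1) * PowerSeries.map (Int.castRingHom ℂ) th4 ^ 2 =
        PowerSeries.map (Int.castRingHom ℂ) th3 ^ 2 - PowerSeries.map (Int.castRingHom ℂ) th4 ^ 2 := by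
      rw [map_neg, map_one]
      ring
    rw [e2] at a2
    exact a1.unique a2
  have r2 : 2 * jacobiTheta τ ^ 2 = A3 ^ 2 + A4 ^ 2 := by
    have e := congrArg (PowerSeries.map (Int.castRingHom ℂ)) two_dbl_U
    rw [map_mul, Vth_map_dbl, map_pow, map_add, map_pow, map_pow, map_pow, map_ofNat, two] at e
    have a1 := ((c3.pow 2).dbl).smul 2
    rw [map_pow, e] at a1
    exact a1.unique ((d3.pow 2).add (d4.pow 2))
  have r3 : jacobiTheta (τ + 1) ^ 2 = A3 * A4 := by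
    have e := congrArg (PowerSeries.map (Int.castRingHom ℂ)) dbl_th4_sq
    rw [map_pow, Vth_map_dbl, map_mul] at e
    have a1 := (c4.dbl).pow 2
    rw [e] at a1
    exact a1.unique (d3.mul d4)
  unfold TA TB
  have r4 : jacobiTheta τ ^ 4 = (jacobiTheta τ ^ 2) ^ 2 := by ring
  have r5 : jacobiTheta (τ + 1) ^ 4 = (jacobiTheta (τ + 1) ^ 2) ^ 2 := by ring
  have r6 : jacobiTheta τ ^ 2 = (A3 ^ 2 + A4 ^ 2) / 2 := by
    rw [← r2]; ring
  have r7 : t * P ^ 2 = (A3 ^ 2 + (-1) * A4 ^ 2) / 2 := by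
    rw [← r1]; ring
  rw [r4, r5, r3, r6]
  have r8 : t ^ 2 * P ^ 4 = (t * P ^ 2) ^ 2 := by ring
  rw [r8, r7]
  ring

theorem TB_S (τ : ℂ) (hτ : 0 < τ.im) : TB (-1 / τ) = -τ ^ 2 * (TA τ - TB τ) := by
  have hτ0 : τ ≠ 0 := by
    rintro rfl
    simp at hτ
  have h := Vth_half τ hτ (τ / 2)
  have e1 : τ / 2 / τ = 1 / 2 := by
    field_simp
  rw [e1, mul_pow, ← Complex.exp_nat_mul] at h
  have e2 : (((4 : ℕ) : ℂ) * (Real.pi * Complex.I * (τ / 2) ^ 2 / τ)) = Real.pi * Complex.I * τ := by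
    push_cast
    field_simp
    ring
  rw [e2, Vth_key τ hτ] at h
  rw [← h]
  show jacobiTheta (-1 / τ + 1) ^ 4 = _
  rw [Vth_shift]

end Pool.Agent.H85.OT

end S_OT_Vth

section S_OT_Wa

/-!
# Row WA (project OT): action of `SL₂(ℤ)` on `θ₃⁴, θ₄⁴`

`A = TA`, `B = TB` on the upper half plane, `C = A - B`, weight `2` slash action of `SL₂(ℤ)`.
From `TA_add_one, TB_add_one, TA_S, TB_S`: `A|T = B, B|T = A, C|T = -C`; `A|S = -A, B|S = -C, C|S = -B`
(`(F|S)(τ) = τ^(-2) F(-1/τ)`, `(F|T)(τ) = F(τ+1)`).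
With `e1 = A, e2 = -B, e3 = -C` (`e1 + e2 + e3 = 0`): `e_i|T = - e_(t i)`, `t = (1 2)`; `e_i|S = - e_(s i)`, `s = (2 3)`.
So for every `γ` there is a permutation `π_γ` with `e_i|γ = sgn(π_γ) e_(π_γ i)` (the set of such `γ` is a subgroup containing
`S, T`, hence everything, `SpecialLinearGroup.SL2Z_generators`); this gives `slash_mem`.
For `slash_Gamma2` one needs `π_γ = 1` for `γ` in `Γ(2)`.  Let `ρ : SL₂(ZMod 2) → ` (permutations of `{1,2,3}`) be the action on the three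
nonzero row vectors of `(ZMod 2)²` (numbered so that `T ↦ (1 2)`, `S ↦ (2 3)`: row vectors acted on from the right:
`S` swaps `(1,0), (0,1)` and fixes `(1,1)`; `T` fixes `(0,1)` and swaps `(1,0), (1,1)`; so `e1 ~ (1,1)`, `e2 ~ (1,0)`,
`e3 ~ (0,1)`).  Then: the set of `γ` such that `e_i|γ = sgn(ρ(γ mod 2)) e_(ρ(γ mod 2) i)` for all `i` is a subgroup containing
`S, T`, so it is everything, and for `γ ∈ Γ(2)` the right side is `e_i`.
(Any other way to organise this is fine, for instance a table on the six elements of `SL₂(ZMod 2)`.)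
-/

open PowerSeries UpperHalfPlane ModularForm MatrixGroups CongruenceSubgroup

namespace Pool.Agent.H85.OT

/-- action of the six classes modulo two on the pair `(A, B)` -/
def Wa_m (a b c d : ZMod 2) : ℤ × ℤ × ℤ × ℤ :=
  if b = 0 ∧ c = 0 then (1, 0, 0, 1)
  else if c = 0 then (0, 1, 1, 0)
  else if a = 0 ∧ d = 0 then (-1, 0, -1, 1)
  else if a = 0 then (0, -1, 1, -1)
  else if d = 0 then (-1, 1, -1, 0)
  else (1, -1, 0, -1)

/-- product of two by two matrices -/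
def Wa_mul (x y : ℤ × ℤ × ℤ × ℤ) : ℤ × ℤ × ℤ × ℤ :=
  (x.1 * y.1 + x.2.1 * y.2.2.1, x.1 * y.2.1 + x.2.1 * y.2.2.2,
    x.2.2.1 * y.1 + x.2.2.2 * y.2.2.1, x.2.2.1 * y.2.1 + x.2.2.2 * y.2.2.2)

theorem Wa_m_mul : ∀ a b c d a' b' c' d' : ZMod 2, a * d - b * c = 1 → a' * d' - b' * c' = 1 →
    Wa_m (a * a' + b * c') (a * b' + b * d') (c * a' + d * c') (c * b' + d * d') =
      Wa_mul (Wa_m a b c d) (Wa_m a' b' c' d') := by
  decide +kernel

theorem Wa_m_inv : ∀ a b c d : ZMod 2, a * d - b * c = 1 →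
    Wa_mul (Wa_m d (-b) (-c) a) (Wa_m a b c d) = (1, 0, 0, 1) := by
  decide +kernel

/-- the pair `(A, B)` is transformed by `x` -/
def Wa_R (γ : SL(2, ℤ)) (x : ℤ × ℤ × ℤ × ℤ) : Prop :=
  ((fun τ : ℍ => TA τ) ∣[(2 : ℤ)] γ = fun τ : ℍ => (x.1 : ℂ) * TA τ + (x.2.1 : ℂ) * TB τ) ∧
    ((fun τ : ℍ => TB τ) ∣[(2 : ℤ)] γ =
      fun τ : ℍ => (x.2.2.1 : ℂ) * TA τ + (x.2.2.2 : ℂ) * TB τ)

theorem Wa_comb (γ : SL(2, ℤ)) (f g : ℍ → ℂ) (a b : ℂ) :
    (fun τ : ℍ => a * f τ + b * g τ) ∣[(2 : ℤ)] γ =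
      fun τ : ℍ => a * (f ∣[(2 : ℤ)] γ) τ + b * (g ∣[(2 : ℤ)] γ) τ := by
  funext τ
  rw [SL_slash_apply, SL_slash_apply, SL_slash_apply]
  ring

theorem Wa_R_mul {γ δ : SL(2, ℤ)} {x y : ℤ × ℤ × ℤ × ℤ} (hx : Wa_R γ x) (hy : Wa_R δ y) :
    Wa_R (γ * δ) (Wa_mul x y) := by
  unfold Wa_R at *
  rw [SlashAction.slash_mul, SlashAction.slash_mul, hx.1, hx.2,
    Wa_comb δ (fun τ : ℍ => TA τ) (fun τ : ℍ => TB τ),
    Wa_comb δ (fun τ : ℍ => TA τ) (fun τ : ℍ => TB τ), hy.1, hy.2]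
  constructor
  · funext τ
    simp only [Wa_mul]
    push_cast
    ring
  · funext τ
    simp only [Wa_mul]
    push_cast
    ring

theorem Wa_R_inv {γ : SL(2, ℤ)} {x y : ℤ × ℤ × ℤ × ℤ} (hx : Wa_R γ x)
    (h : Wa_mul y x = (1, 0, 0, 1)) : Wa_R γ⁻¹ y := by
  unfold Wa_R at *
  obtain ⟨h1, h2⟩ := hx
  have k1 := congrArg (fun f : ℍ → ℂ => f ∣[(2 : ℤ)] γ⁻¹) h1
  have k2 := congrArg (fun f : ℍ → ℂ => f ∣[(2 : ℤ)] γ⁻¹) h2
  rw [← SlashAction.slash_mul, mul_inv_cancel, SlashAction.slash_one,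
    Wa_comb γ⁻¹ (fun τ : ℍ => TA τ) (fun τ : ℍ => TB τ)] at k1 k2
  simp only [Wa_mul, Prod.mk.injEq] at h
  obtain ⟨e1, e2, e3, e4⟩ := h
  have e1' : (y.1 : ℂ) * x.1 + y.2.1 * x.2.2.1 = 1 := by exact_mod_cast e1
  have e2' : (y.1 : ℂ) * x.2.1 + y.2.1 * x.2.2.2 = 0 := by exact_mod_cast e2
  have e3' : (y.2.2.1 : ℂ) * x.1 + y.2.2.2 * x.2.2.1 = 0 := by exact_mod_cast e3
  have e4' : (y.2.2.1 : ℂ) * x.2.1 + y.2.2.2 * x.2.2.2 = 1 := by exact_mod_cast e4
  constructor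
  · funext τ
    have m1 := congrFun k1 τ
    have m2 := congrFun k2 τ
    rw [m1, m2]
    generalize ((fun τ : ℍ => TA τ) ∣[(2 : ℤ)] γ⁻¹) τ = P
    generalize ((fun τ : ℍ => TB τ) ∣[(2 : ℤ)] γ⁻¹) τ = Q
    linear_combination -P * e1' - Q * e2'
  · funext τ
    have m1 := congrFun k1 τ
    have m2 := congrFun k2 τ
    rw [m1, m2]
    generalize ((fun τ : ℍ => TA τ) ∣[(2 : ℤ)] γ⁻¹) τ = P
    generalize ((fun τ : ℍ => TB τ) ∣[(2 : ℤ)] γ⁻¹) τ = Q
    linear_combination -P * e3' - Q * e4'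

/-- the class modulo two -/
def Wa_c (γ : SL(2, ℤ)) : ℤ × ℤ × ℤ × ℤ :=
  Wa_m ((γ 0 0 : ℤ) : ZMod 2) ((γ 0 1 : ℤ) : ZMod 2) ((γ 1 0 : ℤ) : ZMod 2) ((γ 1 1 : ℤ) : ZMod 2)

theorem Wa_det (γ : SL(2, ℤ)) : ((γ 0 0 : ℤ) : ZMod 2) * ((γ 1 1 : ℤ) : ZMod 2) -
    ((γ 0 1 : ℤ) : ZMod 2) * ((γ 1 0 : ℤ) : ZMod 2) = 1 := by
  have h := γ.det_coe
  rw [Matrix.det_fin_two] at h
  have h1 := congrArg (fun z : ℤ => (z : ZMod 2)) h
  push_cast at h1
  exact h1

theorem Wa_c_mul (γ δ : SL(2, ℤ)) : Wa_c (γ * δ) = Wa_mul (Wa_c γ) (Wa_c δ) := by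
  unfold Wa_c
  rw [← Wa_m_mul _ _ _ _ _ _ _ _ (Wa_det γ) (Wa_det δ)]
  simp only [Matrix.SpecialLinearGroup.coe_mul, Matrix.mul_apply, Fin.sum_univ_two]
  push_cast
  rfl

theorem Wa_c_inv (γ : SL(2, ℤ)) : Wa_mul (Wa_c γ⁻¹) (Wa_c γ) = (1, 0, 0, 1) := by
  rw [← Wa_c_mul, inv_mul_cancel]
  decide +kernel

theorem Wa_all (γ : SL(2, ℤ)) : Wa_R γ (Wa_c γ) := by
  have hγ : γ ∈ Subgroup.closure {ModularGroup.S, ModularGroup.T} := by
    simp [SpecialLinearGroup.SL2Z_generators]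
  induction hγ using Subgroup.closure_induction with
  | one =>
    have h : Wa_c 1 = (1, 0, 0, 1) := by decide +kernel
    rw [h]
    unfold Wa_R
    rw [SlashAction.slash_one, SlashAction.slash_one]
    simp
  | mem g hg =>
    simp only [Set.mem_insert_iff, Set.mem_singleton_iff] at hg
    rcases hg with rfl | rfl
    · have h : Wa_c ModularGroup.S = (-1, 0, -1, 1) := by decide +kernel
      rw [h]
      have hS : ∀ τ : ℍ, ((ModularGroup.S • τ : ℍ) : ℂ) = -1 / (τ : ℂ) := by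
        intro τ
        rw [UpperHalfPlane.modular_S_smul]
        change (-(τ : ℂ))⁻¹ = _
        rw [inv_neg, neg_div, one_div]
      have hd : ∀ τ : ℍ, denom ModularGroup.S τ = (τ : ℂ) := by
        intro τ
        rw [ModularGroup.denom_apply]
        simp [ModularGroup.S]
      unfold Wa_R
      constructor
      · funext τ
        rw [SL_slash_apply, hd, hS, TA_S _ τ.im_pos]
        have h0 : (τ : ℂ) ≠ 0 := τ.ne_zero
        simp only [zpow_neg, zpow_ofNat]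
        push_cast
        field_simp
        ring
      · funext τ
        rw [SL_slash_apply, hd, hS, TB_S _ τ.im_pos]
        have h0 : (τ : ℂ) ≠ 0 := τ.ne_zero
        simp only [zpow_neg, zpow_ofNat]
        push_cast
        field_simp
        ring
    · have h : Wa_c ModularGroup.T = (0, 1, 1, 0) := by decide +kernel
      rw [h]
      have hT : ∀ τ : ℍ, ((ModularGroup.T • τ : ℍ) : ℂ) = (τ : ℂ) + 1 := by
        intro τ
        rw [UpperHalfPlane.modular_T_smul, UpperHalfPlane.coe_vadd]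
        push_cast
        ring
      have hd : ∀ τ : ℍ, denom ModularGroup.T τ = 1 := by
        intro τ
        rw [ModularGroup.denom_apply]
        simp [ModularGroup.T]
      unfold Wa_R
      constructor
      · funext τ
        rw [SL_slash_apply, hd, hT, TA_add_one]
        simp
      · funext τ
        rw [SL_slash_apply, hd, hT, TB_add_one]
        simp
  | mul g h _ _ ig ih =>
    rw [Wa_c_mul]
    exact Wa_R_mul ig ih
  | inv g _ ig => exact Wa_R_inv ig (Wa_c_inv g)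

theorem slash_Gamma2 (γ : SL(2, ℤ)) (hγ : γ ∈ Gamma 2) :
    (fun τ : ℍ => TA τ) ∣[(2 : ℤ)] γ = (fun τ : ℍ => TA τ) ∧
      (fun τ : ℍ => TB τ) ∣[(2 : ℤ)] γ = (fun τ : ℍ => TB τ) := by
  rw [Gamma_mem] at hγ
  obtain ⟨h1, h2, h3, h4⟩ := hγ
  have h := Wa_all γ
  have hc : Wa_c γ = (1, 0, 0, 1) := by
    unfold Wa_c
    rw [h1, h2, h3, h4]
    rfl
  rw [hc] at h
  obtain ⟨k1, k2⟩ := h
  refine ⟨k1.trans ?_, k2.trans ?_⟩
  · funext τ
    simp
  · funext τ
    simp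

theorem slash_mem (γ : SL(2, ℤ)) :
    (∃ a b : ℂ, (fun τ : ℍ => TA τ) ∣[(2 : ℤ)] γ = fun τ : ℍ => a * TA τ + b * TB τ) ∧
      (∃ a b : ℂ, (fun τ : ℍ => TB τ) ∣[(2 : ℤ)] γ = fun τ : ℍ => a * TA τ + b * TB τ) := by
  obtain ⟨h1, h2⟩ := Wa_all γ
  exact ⟨⟨_, _, h1⟩, ⟨_, _, h2⟩⟩

end Pool.Agent.H85.OT

end S_OT_Wa

section S_OT_Vmf

/-!
# Row VMF (project OT): `E₄`, `E₆` in terms of theta functions

`G4 = A² - A B + B²`, `G6 = (1/2)(2A - B)(A + B)(2B - A)` with `A = TA`, `B = TB`.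
* `T`: `A, B` are exchanged (`TA_add_one`, `TB_add_one`): both are invariant.
* `S`: `A ↦ -τ² A`, `B ↦ -τ² (A-B)` at `-1/τ`: `A² - A(A-B) + (A-B)² = A² - AB + B²`, factor `τ⁴`;
  `(2A - (A-B))(A + (A-B))(2(A-B) - A) = (A+B)(2A-B)(A-2B)`, times `(-τ²)³ = -τ⁶`, gives
  `τ⁶ (A+B)(2A-B)(2B-A)`.
  So both are slash invariant of weight `4`, `6` for `S`, `T` (`slash_action_generators_SL2Z`;
  `ModularForm.slash_action...`, `modular_S_smul`, `modular_T_smul`, `denom` of `S` is `τ`; see the proof of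
  `discriminant_S_invariant`, `discriminant_T_invariant` and the construction of `CuspForm.discriminant` in Mathlib).
* holomorphic: `mdifferentiable_jacobiTheta` or `differentiableAt_jacobiTheta`
  (`UpperHalfPlane.mdifferentiable_iff`).
* bounded at infinity: `isBigO_at_im_infty_jacobiTheta_sub_one` (`θ(τ) → 1`, `θ(τ+1) → 1` as `im τ → ∞`), so
  `A, B → 1`, `G4 → 1`, `G6 → 1`.
* weights 4, 6: rank one (`levelOne_weight_four_rank_one`, `levelOne_weight_six_rank_one`), so `G4 = c E₄`; the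
  constant is `1`: values at infinity (`E_qExpansion_coeff_zero`, `valueAtInfty`, `qExpansion_coeff_zero`).
-/

open PowerSeries UpperHalfPlane EisensteinSeries

namespace Pool.Agent.H85.OT

open Filter Topology MatrixGroups ModularForm in
theorem Vmf_form (k : ℕ) (G : ℂ → ℂ) (hT : ∀ τ : ℂ, 0 < τ.im → G (τ + 1) = G τ)
    (hS : ∀ τ : ℂ, 0 < τ.im → G (-1 / τ) = τ ^ k * G τ)
    (hd : ∀ τ : ℂ, 0 < τ.im → DifferentiableAt ℂ G τ)
    (hlim : Tendsto (fun τ : ℍ => G τ) atImInfty (𝓝 1)) :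
    ∃ M : ModularForm 𝒮ℒ (k : ℤ), ∀ τ : ℍ, M τ = G τ := by
  have hTs : ((fun τ : ℍ => G τ) ∣[(k : ℤ)] ModularGroup.T) = (fun τ : ℍ => G τ) := by
    ext z
    rw [SL_slash_apply, denom, modular_T_smul, ModularGroup.T]
    have h1 := hT z z.im_pos
    rw [add_comm] at h1
    simp [h1]
  have hSs : ((fun τ : ℍ => G τ) ∣[(k : ℤ)] ModularGroup.S) = (fun τ : ℍ => G τ) := by
    ext z
    have h1 := hS z z.im_pos
    have h2 : (-1 / (z : ℂ)) = -(z : ℂ)⁻¹ := by
      rw [neg_div, one_div]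
    rw [h2] at h1
    suffices G (-(z : ℂ)⁻¹) * ((z : ℂ) ^ k)⁻¹ = G z by
      rw [SL_slash_apply, UpperHalfPlane.modular_S_smul]
      simpa [denom, ModularGroup.S]
    rw [h1]
    have hz : (z : ℂ) ≠ 0 := ne_zero z
    field_simp
  refine ⟨{ toFun := fun τ : ℍ => G τ
            slash_action_eq' := ?_
            holo' := ?_
            bdd_at_cusps' := ?_ }, fun τ => rfl⟩
  · rintro A ⟨A, rfl⟩
    exact SlashInvariantForm.slash_action_generators_SL2Z hSs hTs A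
  · rw [UpperHalfPlane.mdifferentiable_iff]
    refine .congr (fun z hz => (hd z hz).differentiableWithinAt) fun z hz => ?_
    simp [ofComplex_apply_of_im_pos hz]
  · intro c hc
    rw [Subgroup.IsArithmetic.isCusp_iff_isCusp_SL2Z] at hc
    rw [OnePoint.isBoundedAt_iff_forall_SL2Z hc]
    intro γ _
    rw [SlashInvariantForm.slash_action_generators_SL2Z hSs hTs]
    exact hlim.isBigO_one ℝ

open Filter Topology in
theorem Vmf_lim : Tendsto jacobiTheta (comap Complex.im atTop) (𝓝 1) := by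
  have h1 : Tendsto (fun τ : ℂ => Real.exp (-Real.pi * τ.im)) (comap Complex.im atTop) (𝓝 0) := by
    have h2 : Tendsto (fun y : ℝ => Real.exp (-Real.pi * y)) atTop (𝓝 0) := by
      have h3 : Tendsto (fun y : ℝ => -Real.pi * y) atTop atBot :=
        (tendsto_id).const_mul_atTop_of_neg (by linarith [Real.pi_pos])
      exact Real.tendsto_exp_atBot.comp h3
    exact h2.comp tendsto_comap
  have h4 := isBigO_at_im_infty_jacobiTheta_sub_one.trans_tendsto h1
  have h5 := h4.add_const (1 : ℂ)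
  simpa using h5

open Filter Topology in
theorem Vmf_TA : Tendsto (fun τ : ℍ => TA τ) atImInfty (𝓝 1) := by
  have h := (Vmf_lim.comp tendsto_coe_atImInfty).pow 4
  rw [one_pow] at h
  exact h

open Filter Topology in
theorem Vmf_TB : Tendsto (fun τ : ℍ => TB τ) atImInfty (𝓝 1) := by
  have h0 : Tendsto (fun τ : ℍ => (τ : ℂ) + 1) atImInfty (comap Complex.im atTop) := by
    rw [tendsto_comap_iff]
    have h1 : Tendsto (fun τ : ℍ => (τ : ℂ).im) atImInfty atTop := by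
      have h2 := tendsto_coe_atImInfty
      rw [tendsto_comap_iff] at h2
      exact h2
    refine h1.congr fun τ => ?_
    simp
  have h := (Vmf_lim.comp h0).pow 4
  rw [one_pow] at h
  exact h

theorem Vmf_dA (τ : ℂ) (hτ : 0 < τ.im) : DifferentiableAt ℂ TA τ :=
  (differentiableAt_jacobiTheta hτ).pow 4

theorem Vmf_dB (τ : ℂ) (hτ : 0 < τ.im) : DifferentiableAt ℂ TB τ := by
  have h1 : 0 < (τ + 1).im := by simpa using hτ
  have h2 : DifferentiableAt ℂ (fun τ : ℂ => jacobiTheta (τ + 1)) τ :=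
    DifferentiableAt.comp (f := fun τ : ℂ => τ + 1) (g := jacobiTheta) τ
      (differentiableAt_jacobiTheta h1) (by fun_prop)
  exact h2.pow 4

open Filter Topology MatrixGroups ModularForm in
theorem Vmf_val {k : ℤ} (M : ModularForm 𝒮ℒ k) (h : Tendsto (fun τ : ℍ => M τ) atImInfty (𝓝 1)) :
    (qExpansion 1 M).coeff 0 = 1 := by
  rw [UpperHalfPlane.qExpansion_coeff_zero one_pos
    (ModularFormClass.analyticAt_cuspFunction_zero M one_pos one_mem_strictPeriods_SL)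
    (SlashInvariantFormClass.periodic_comp_ofComplex M one_mem_strictPeriods_SL)]
  exact h.limUnder_eq

open Filter Topology MatrixGroups ModularForm in
theorem E4_theta (τ : ℍ) :
    (ModularForm.E₄ : ℍ → ℂ) τ = TA τ ^ 2 - TA τ * TB τ + TB τ ^ 2 := by
  have hlim : Tendsto (fun τ : ℍ => (fun τ : ℂ => TA τ ^ 2 - TA τ * TB τ + TB τ ^ 2) τ)
      atImInfty (𝓝 1) := by
    have h := ((Vmf_TA.pow 2).sub (Vmf_TA.mul Vmf_TB)).add (Vmf_TB.pow 2)
    norm_num at h
    exact h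
  obtain ⟨M, hM⟩ := Vmf_form 4 (fun τ => TA τ ^ 2 - TA τ * TB τ + TB τ ^ 2)
    (fun τ _ => by
      show TA (τ + 1) ^ 2 - TA (τ + 1) * TB (τ + 1) + TB (τ + 1) ^ 2 = _
      rw [TA_add_one, TB_add_one]
      ring)
    (fun τ hτ => by
      show TA (-1 / τ) ^ 2 - TA (-1 / τ) * TB (-1 / τ) + TB (-1 / τ) ^ 2 = _
      rw [TA_S τ hτ, TB_S τ hτ]
      ring)
    (fun τ hτ => (((Vmf_dA τ hτ).pow 2).sub ((Vmf_dA τ hτ).mul (Vmf_dB τ hτ))).add
      ((Vmf_dB τ hτ).pow 2))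
    hlim
  obtain ⟨c, hc⟩ : ∃ c : ℂ, c • E₄ = M :=
    (finrank_eq_one_iff_of_nonzero' E₄ (E_ne_zero _ ⟨2, rfl⟩)).mp
      (Module.rank_eq_one_iff_finrank_eq_one.mp levelOne_weight_four_rank_one) _
  have h1 : (qExpansion 1 M).coeff 0 = 1 := Vmf_val M (by simpa only [hM] using hlim)
  have h2 : (qExpansion 1 (c • E₄ : ℍ → ℂ)) = c • qExpansion 1 E₄ :=
    ModularForm.qExpansion_smul one_pos one_mem_strictPeriods_SL c E₄
  have h3 : (c • E₄ : ℍ → ℂ) = M := congrArg DFunLike.coe hc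
  rw [h3] at h2
  rw [h2, PowerSeries.coeff_smul, E_qExpansion_coeff_zero _ ⟨2, rfl⟩, smul_eq_mul, mul_one] at h1
  have h4 := congrFun h3 τ
  rw [h1] at h4
  rw [← hM τ, ← h4]
  simp

open Filter Topology MatrixGroups ModularForm in
theorem E6_theta (τ : ℍ) :
    (ModularForm.E₆ : ℍ → ℂ) τ = 1 / 2 * (2 * TA τ - TB τ) * (TA τ + TB τ) * (2 * TB τ - TA τ) := by
  have hlim : Tendsto (fun τ : ℍ => (fun τ : ℂ => 1 / 2 * (2 * TA τ - TB τ) * (TA τ + TB τ) *
      (2 * TB τ - TA τ)) τ) atImInfty (𝓝 1) := by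
    have h := (((Vmf_TA.const_mul 2).sub Vmf_TB).const_mul (1 / 2)).mul (Vmf_TA.add Vmf_TB)
    have h' := h.mul ((Vmf_TB.const_mul 2).sub Vmf_TA)
    norm_num at h'
    norm_num
    exact h'
  obtain ⟨M, hM⟩ := Vmf_form 6 (fun τ => 1 / 2 * (2 * TA τ - TB τ) * (TA τ + TB τ) *
      (2 * TB τ - TA τ))
    (fun τ _ => by
      show 1 / 2 * (2 * TA (τ + 1) - TB (τ + 1)) * (TA (τ + 1) + TB (τ + 1)) *
        (2 * TB (τ + 1) - TA (τ + 1)) = _
      rw [TA_add_one, TB_add_one]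
      ring)
    (fun τ hτ => by
      show 1 / 2 * (2 * TA (-1 / τ) - TB (-1 / τ)) * (TA (-1 / τ) + TB (-1 / τ)) *
        (2 * TB (-1 / τ) - TA (-1 / τ)) = _
      rw [TA_S τ hτ, TB_S τ hτ]
      ring)
    (fun τ hτ => by
      have hA := Vmf_dA τ hτ
      have hB := Vmf_dB τ hτ
      exact (((((hA.const_mul 2).sub hB).const_mul (1 / 2)).mul (hA.add hB)).mul
        ((hB.const_mul 2).sub hA)))
    hlim
  obtain ⟨c, hc⟩ : ∃ c : ℂ, c • E₆ = M :=
    (finrank_eq_one_iff_of_nonzero' E₆ (E_ne_zero _ ⟨3, rfl⟩)).mp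
      (Module.rank_eq_one_iff_finrank_eq_one.mp levelOne_weight_six_rank_one) _
  have h1 : (qExpansion 1 M).coeff 0 = 1 := Vmf_val M (by simpa only [hM] using hlim)
  have h2 : (qExpansion 1 (c • E₆ : ℍ → ℂ)) = c • qExpansion 1 E₆ :=
    ModularForm.qExpansion_smul one_pos one_mem_strictPeriods_SL c E₆
  have h3 : (c • E₆ : ℍ → ℂ) = M := congrArg DFunLike.coe hc
  rw [h3] at h2
  rw [h2, PowerSeries.coeff_smul, E_qExpansion_coeff_zero _ ⟨3, rfl⟩, smul_eq_mul, mul_one] at h1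
  have h4 := congrFun h3 τ
  rw [h1] at h4
  rw [← hM τ, ← h4]
  simp

end Pool.Agent.H85.OT

end S_OT_Vmf

section S_OT_Wb

/-!
# Row WB (project OT): `θ₃(q)⁴`, `θ₄(q)⁴` as Mathlib modular forms on `Γ₀(4)`

`ga(τ) = TA(2τ)`, `gb(τ) = TB(2τ)`, weight `2`.
* invariance: `γ = [[a,b],[c,d]] ∈ Γ₀(4)`: `2 γτ = γ'(2τ)` with `γ' = [[a, 2b],[c/2, d]] ∈ Γ(2)` (`4 ∣ c`, `a, d` odd), and
  `c τ + d = (c/2)(2τ) + d`; use `slash_Gamma2`.
* holomorphic: `differentiableAt_jacobiTheta` / `mdifferentiable_jacobiTheta`.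
* bounded at cusps (`Subgroup.IsArithmetic.isCusp_iff_isCusp_SL2Z`, `OnePoint.isBoundedAt_iff_forall_SL2Z` as in Mathlib's construction of
  `CuspForm.discriminant`): for every `γ = [[a,b],[c,d]] ∈ SL₂(ℤ)`, `ga|γ` is bounded at `i∞`.  `[[2a,2b],[c,d]] = γ'' U` with
  `c` even: `γ'' = [[a,2b],[c/2,d]]`, `U = [[2,0],[0,1]]`;
  `c` odd, `d` even: `γ'' = [[2a,b],[c,d/2]]`, `U = [[1,0],[0,2]]`;
  `c, d` odd: `γ'' = [[2a,b-a],[c,(d-c)/2]]`, `U = [[1,1],[0,2]]`.
  So `(ga|γ)(τ)` is a constant times `(TA|γ'')(Uτ)`, `Uτ = 2τ, τ/2, (τ+1)/2`, and `TA|γ''` is a combination of `TA, TB` (`slash_mem`),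
  which are bounded as `im → ∞` (`isBigO_at_im_infty_jacobiTheta_sub_one`, or `norm_jacobiTheta_sub_one_le`).
* q-expansions: `cv_th3`, `cv_th4` at `2τ`: `exp(π i 2τ) = exp(2π i τ) = q`; with `Cv.pow`,
  `Cv (map (th3^4)) q (ga τ)`; uniqueness of the q-expansion (`ModularFormClass.qExpansion_coeff_unique`).
-/

open PowerSeries UpperHalfPlane ModularForm MatrixGroups CongruenceSubgroup

namespace Pool.Agent.H85.OT

/-- integer matrix of determinant one -/
def Wb_m (a b c d : ℤ) (h : a * d - b * c = 1) : SL(2, ℤ) :=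
  ⟨!![a, b; c, d], by rw [Matrix.det_fin_two_of]; exact h⟩

theorem Wb_slash (G : ℂ → ℂ) (γ : SL(2, ℤ)) (τ : ℍ) :
    ((fun τ : ℍ => G τ) ∣[(2 : ℤ)] γ) τ =
      G (((γ 0 0 : ℤ) * (τ : ℂ) + (γ 0 1 : ℤ)) / ((γ 1 0 : ℤ) * (τ : ℂ) + (γ 1 1 : ℤ))) *
        (((γ 1 0 : ℤ) * (τ : ℂ) + (γ 1 1 : ℤ)) ^ 2)⁻¹ := by
  rw [SL_slash_apply]
  have h1 : ((γ • τ : ℍ) : ℂ) = ((γ 0 0 : ℤ) * (τ : ℂ) + (γ 0 1 : ℤ)) / ((γ 1 0 : ℤ) * (τ : ℂ) + (γ 1 1 : ℤ)) := by
    rw [UpperHalfPlane.coe_specialLinearGroup_apply]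
    simp
  have h2 : denom γ τ = (γ 1 0 : ℤ) * (τ : ℂ) + (γ 1 1 : ℤ) := by
    simp [denom]
  show G ((γ • τ : ℍ) : ℂ) * _ = _
  rw [h1, h2, zpow_neg]
  rfl

theorem Wb_slash_m (G : ℂ → ℂ) (a b c d : ℤ) (h : a * d - b * c = 1) (τ : ℍ) :
    ((fun τ : ℍ => G τ) ∣[(2 : ℤ)] Wb_m a b c d h) τ =
      G ((a * (τ : ℂ) + b) / (c * (τ : ℂ) + d)) * ((c * (τ : ℂ) + d) ^ 2)⁻¹ := by
  rw [Wb_slash]
  rfl

/-- `2 τ` -/
noncomputable def Wb_2 (τ : ℍ) : ℍ := ⟨2 * τ, by simpa using τ.im_pos⟩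

/-- `τ / 2` -/
noncomputable def Wb_h (τ : ℍ) : ℍ := ⟨τ / 2, by simpa using τ.im_pos⟩

/-- `(τ + 1) / 2` -/
noncomputable def Wb_k (τ : ℍ) : ℍ := ⟨(τ + 1) / 2, by simpa using τ.im_pos⟩

open Filter in
theorem Wb_lim {U : ℍ → ℍ} {κ : ℝ} (hκ : 0 < κ) (h : ∀ τ : ℍ, (U τ).im = κ * τ.im) :
    Tendsto U atImInfty atImInfty := by
  rw [atImInfty, tendsto_comap_iff]
  have h1 : Tendsto (fun τ : ℍ => κ * τ.im) (comap UpperHalfPlane.im atTop) atTop :=
    tendsto_comap.const_mul_atTop hκ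
  exact h1.congr fun τ => (h τ).symm

open Filter in
theorem Wb_lim2 : Tendsto Wb_2 atImInfty atImInfty := by
  refine Wb_lim (κ := 2) (by norm_num) fun τ => ?_
  show ((2 * τ : ℂ)).im = _
  simp

open Filter in
theorem Wb_limh : Tendsto Wb_h atImInfty atImInfty := by
  refine Wb_lim (κ := 1 / 2) (by norm_num) fun τ => ?_
  show ((τ / 2 : ℂ)).im = _
  simp
  ring

open Filter in
theorem Wb_limk : Tendsto Wb_k atImInfty atImInfty := by
  refine Wb_lim (κ := 1 / 2) (by norm_num) fun τ => ?_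
  show (((τ + 1) / 2 : ℂ)).im = _
  simp
  ring

theorem Wb_ne (c d : ℤ) (h : ¬ (c = 0 ∧ d = 0)) (τ : ℍ) : ((c : ℂ) * τ + d) ≠ 0 := by
  intro h0
  have h1 := congrArg Complex.im h0
  have h2 := congrArg Complex.re h0
  simp only [Complex.add_im, Complex.mul_im, Complex.intCast_re, Complex.intCast_im, zero_mul,
    add_zero, Complex.zero_im] at h1
  have hc : (c : ℝ) = 0 := by
    rcases mul_eq_zero.1 h1 with h3 | h3
    · exact h3
    · exact absurd h3 τ.im_pos.ne'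
  have hc' : c = 0 := by exact_mod_cast hc
  subst hc'
  simp only [Int.cast_zero, zero_mul, zero_add, Complex.intCast_re, Complex.zero_re] at h2
  exact h ⟨rfl, by exact_mod_cast h2⟩

/-- `(F(2·)|γ)(τ) = κ (u TA(Uτ) + v TB(Uτ))` -/
theorem Wb_cusp (F : ℂ → ℂ)
    (hm : ∀ γ : SL(2, ℤ), ∃ a b : ℂ, (fun τ : ℍ => F τ) ∣[(2 : ℤ)] γ =
      fun τ : ℍ => a * TA τ + b * TB τ) (γ : SL(2, ℤ)) :
    ∃ (U : ℍ → ℍ) (κ u v : ℂ), Filter.Tendsto U atImInfty atImInfty ∧
      (fun τ : ℍ => F (2 * τ)) ∣[(2 : ℤ)] γ = fun τ : ℍ => κ * (u * TA (U τ) + v * TB (U τ)) := by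
  have hdet : γ 0 0 * γ 1 1 - γ 0 1 * γ 1 0 = 1 := by
    have := γ.det_coe
    rw [Matrix.det_fin_two] at this
    exact this
  obtain ⟨a, ha⟩ : ∃ a, γ 0 0 = a := ⟨_, rfl⟩
  obtain ⟨b, hb⟩ : ∃ b, γ 0 1 = b := ⟨_, rfl⟩
  obtain ⟨c, hc⟩ : ∃ c, γ 1 0 = c := ⟨_, rfl⟩
  obtain ⟨d, hd⟩ : ∃ d, γ 1 1 = d := ⟨_, rfl⟩
  rw [ha, hb, hc, hd] at hdet
  have hG : ∀ τ : ℍ, ((fun τ : ℍ => F (2 * τ)) ∣[(2 : ℤ)] γ) τ =
      F (2 * ((a * (τ : ℂ) + b) / (c * (τ : ℂ) + d))) * ((c * (τ : ℂ) + d) ^ 2)⁻¹ := by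
    intro τ
    rw [Wb_slash (fun z => F (2 * z)), ha, hb, hc, hd]
  have hne : ∀ τ : ℍ, ((c : ℂ) * τ + d) ≠ 0 := by
    refine Wb_ne c d ?_
    rintro ⟨rfl, rfl⟩
    simp at hdet
  rcases Int.even_or_odd' c with ⟨c', hc' | hc'⟩
  · have h : a * d - (2 * b) * c' = 1 := by rw [hc'] at hdet; linarith
    obtain ⟨u, v, huv⟩ := hm (Wb_m a (2 * b) c' d h)
    refine ⟨Wb_2, 1, u, v, Wb_lim2, ?_⟩
    funext τ
    have h1 := congrFun huv (Wb_2 τ)
    rw [Wb_slash_m] at h1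
    rw [hG, one_mul]
    refine Eq.trans ?_ h1
    have e1 : ((Wb_2 τ : ℍ) : ℂ) = 2 * τ := rfl
    rw [e1, hc']
    push_cast
    congr 2
    · ring_nf
    · ring_nf
  · rcases Int.even_or_odd' d with ⟨d', hd' | hd'⟩
    · have h : (2 * a) * d' - b * c = 1 := by rw [hd'] at hdet; linarith
      obtain ⟨u, v, huv⟩ := hm (Wb_m (2 * a) b c d' h)
      refine ⟨Wb_h, 1 / 4, u, v, Wb_limh, ?_⟩
      funext τ
      have h1 := congrFun huv (Wb_h τ)
      rw [Wb_slash_m] at h1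
      rw [hG]
      have h2 := hne τ
      have e1 : ((Wb_h τ : ℍ) : ℂ) = τ / 2 := rfl
      have e2 : (c : ℂ) * (τ / 2) + d' = (c * τ + d) / 2 := by
        rw [hd']
        push_cast
        ring
      have e3 : ((2 * a : ℤ) : ℂ) * (τ / 2) + b = a * τ + b := by
        push_cast
        ring
      rw [e1, e2, e3] at h1
      have e4 : (2 * ((a * (τ : ℂ) + b) / (c * (τ : ℂ) + d))) =
          (a * (τ : ℂ) + b) / ((c * (τ : ℂ) + d) / 2) := by
        field_simp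
      rw [e4]
      show _ = 1 / 4 * (u * TA ((τ : ℂ) / 2) + v * TB ((τ : ℂ) / 2))
      rw [← h1]
      generalize F ((a * (τ : ℂ) + b) / ((c * (τ : ℂ) + d) / 2)) = W
      field_simp
      try ring
    · have h : (2 * a) * (d' - c') - (b - a) * c = 1 := by
        rw [hd'] at hdet
        rw [hc'] at hdet ⊢
        linarith
      obtain ⟨u, v, huv⟩ := hm (Wb_m (2 * a) (b - a) c (d' - c') h)
      refine ⟨Wb_k, 1 / 4, u, v, Wb_limk, ?_⟩
      funext τ
      have h1 := congrFun huv (Wb_k τ)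
      rw [Wb_slash_m] at h1
      rw [hG]
      have h2 := hne τ
      have e1 : ((Wb_k τ : ℍ) : ℂ) = (τ + 1) / 2 := rfl
      have e2 : (c : ℂ) * ((τ + 1) / 2) + ((d' - c' : ℤ) : ℂ) = (c * τ + d) / 2 := by
        rw [hd', hc']
        push_cast
        ring
      have e3 : ((2 * a : ℤ) : ℂ) * ((τ + 1) / 2) + ((b - a : ℤ) : ℂ) = a * τ + b := by
        push_cast
        ring
      rw [e1, e2, e3] at h1
      have e4 : (2 * ((a * (τ : ℂ) + b) / (c * (τ : ℂ) + d))) =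
          (a * (τ : ℂ) + b) / ((c * (τ : ℂ) + d) / 2) := by
        field_simp
      rw [e4]
      show _ = 1 / 4 * (u * TA (((τ : ℂ) + 1) / 2) + v * TB (((τ : ℂ) + 1) / 2))
      rw [← h1]
      generalize F ((a * (τ : ℂ) + b) / ((c * (τ : ℂ) + d) / 2)) = W
      field_simp
      try ring

theorem Wb_inv (F : ℂ → ℂ)
    (hF : ∀ γ : SL(2, ℤ), γ ∈ Gamma 2 → (fun τ : ℍ => F τ) ∣[(2 : ℤ)] γ = fun τ : ℍ => F τ)
    (γ : SL(2, ℤ)) (hγ : γ ∈ Gamma0 4) :
    (fun τ : ℍ => F (2 * τ)) ∣[(2 : ℤ)] γ = fun τ : ℍ => F (2 * τ) := by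
  have hdet : γ 0 0 * γ 1 1 - γ 0 1 * γ 1 0 = 1 := by
    have := γ.det_coe
    rw [Matrix.det_fin_two] at this
    exact this
  rw [Gamma0_mem] at hγ
  obtain ⟨a, ha⟩ : ∃ a, γ 0 0 = a := ⟨_, rfl⟩
  obtain ⟨b, hb⟩ : ∃ b, γ 0 1 = b := ⟨_, rfl⟩
  obtain ⟨c, hc⟩ : ∃ c, γ 1 0 = c := ⟨_, rfl⟩
  obtain ⟨d, hd⟩ : ∃ d, γ 1 1 = d := ⟨_, rfl⟩
  rw [ha, hb, hc, hd] at hdet
  rw [hc] at hγ
  obtain ⟨c', hc'⟩ := (ZMod.intCast_zmod_eq_zero_iff_dvd c 4).1 hγ
  push_cast at hc'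
  have h : a * d - (2 * b) * (2 * c') = 1 := by rw [hc'] at hdet; linarith
  have hodd : Odd a ∧ Odd d := by
    have h1 : Odd (a * d) := ⟨2 * b * c', by linarith⟩
    exact Int.odd_mul.1 h1
  have hmem : Wb_m a (2 * b) (2 * c') d h ∈ Gamma 2 := by
    rw [Gamma_mem]
    refine ⟨?_, ?_, ?_, ?_⟩
    · show ((a : ℤ) : ZMod 2) = 1
      obtain ⟨k, hk⟩ := hodd.1
      rw [hk]
      push_cast
      rw [show (2 : ZMod 2) = 0 from rfl]
      ring
    · show ((2 * b : ℤ) : ZMod 2) = 0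
      push_cast
      rw [show (2 : ZMod 2) = 0 from rfl]
      ring
    · show ((2 * c' : ℤ) : ZMod 2) = 0
      push_cast
      rw [show (2 : ZMod 2) = 0 from rfl]
      ring
    · show ((d : ℤ) : ZMod 2) = 1
      obtain ⟨k, hk⟩ := hodd.2
      rw [hk]
      push_cast
      rw [show (2 : ZMod 2) = 0 from rfl]
      ring
  have huv := hF _ hmem
  funext τ
  have h1 := congrFun huv (Wb_2 τ)
  rw [Wb_slash_m] at h1
  rw [Wb_slash (fun z => F (2 * z)), ha, hb, hc, hd]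
  refine Eq.trans ?_ h1
  have e1 : ((Wb_2 τ : ℍ) : ℂ) = 2 * τ := rfl
  rw [e1, hc']
  push_cast
  congr 2
  · ring_nf
  · ring_nf

theorem Wb_form (F : ℂ → ℂ)
    (hF : ∀ γ : SL(2, ℤ), γ ∈ Gamma 2 → (fun τ : ℍ => F τ) ∣[(2 : ℤ)] γ = fun τ : ℍ => F τ)
    (hm : ∀ γ : SL(2, ℤ), ∃ a b : ℂ, (fun τ : ℍ => F τ) ∣[(2 : ℤ)] γ =
      fun τ : ℍ => a * TA τ + b * TB τ)
    (hd : ∀ τ : ℂ, 0 < τ.im → DifferentiableAt ℂ F τ) :
    ∃ g : ModularForm G04 2, ∀ τ : ℍ, g τ = F (2 * τ) := by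
  refine ⟨{ toFun := fun τ : ℍ => F (2 * τ)
            slash_action_eq' := ?_
            holo' := ?_
            bdd_at_cusps' := ?_ }, fun τ => rfl⟩
  · rintro _ ⟨γ, hγ, rfl⟩
    exact Wb_inv F hF γ hγ
  · rw [UpperHalfPlane.mdifferentiable_iff]
    refine .congr (f := fun z => F (2 * z)) (fun z hz => ?_) fun z hz => ?_
    · have h1 : 0 < (2 * z).im := by
        have : (2 * z).im = 2 * z.im := by simp
        rw [this]
        have hz' : 0 < z.im := hz
        linarith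
      exact (DifferentiableAt.comp (f := fun z : ℂ => 2 * z) (g := F) z (hd _ h1)
        (by fun_prop)).differentiableWithinAt
    · simp [ofComplex_apply_of_im_pos hz]
  · intro c hc
    rw [Subgroup.IsArithmetic.isCusp_iff_isCusp_SL2Z] at hc
    rw [OnePoint.isBoundedAt_iff_forall_SL2Z hc]
    intro γ _
    obtain ⟨U, κ, u, v, hU, hγ⟩ := Wb_cusp F hm γ
    rw [hγ]
    have h1 := (((Vmf_TA.comp hU).const_mul u).add ((Vmf_TB.comp hU).const_mul v)).const_mul κ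
    exact h1.isBigO_one ℝ

theorem Wb_cv {P : ℤ⟦X⟧} {θ : ℂ → ℂ}
    (h : ∀ τ : ℂ, 0 < τ.im → Cv (PowerSeries.map (Int.castRingHom ℂ) P)
      (Complex.exp (Real.pi * Complex.I * τ)) (θ τ))
    (g : ModularForm G04 2) (hg : ∀ τ : ℍ, g τ = θ (2 * τ) ^ 4) :
    qExpansion 1 (g : ℍ → ℂ) = tR ℂ (P ^ 4) := by
  have h1 : (1 : ℝ) ∈ (G04).strictPeriods := by
    simp [strictPeriods_Gamma0]
  ext m
  symm
  refine ModularFormClass.qExpansion_coeff_unique one_pos h1 (f := g) (c := fun m => PowerSeries.coeff m (tR ℂ (P ^ 4)))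
    (fun τ => ?_) m
  have h2 : 0 < (2 * (τ : ℂ)).im := by
    have : (2 * (τ : ℂ)).im = 2 * τ.im := by simp
    rw [this]
    have := τ.im_pos
    linarith
  have h3 := ((h _ h2).pow 4).2
  have h4 : Complex.exp (Real.pi * Complex.I * (2 * τ)) = Function.Periodic.qParam 1 τ := by
    rw [Function.Periodic.qParam]
    congr 1
    push_cast
    ring
  rw [h4] at h3
  rw [hg, tR, map_pow]
  exact h3

theorem exists_ga : ∃ g : ModularForm G04 2, (∀ τ : ℍ, g τ = TA (2 * τ)) ∧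
    qExpansion 1 (g : ℍ → ℂ) = tR ℂ (th3 ^ 4) := by
  obtain ⟨g, hg⟩ := Wb_form TA (fun γ hγ => (slash_Gamma2 γ hγ).1) (fun γ => (slash_mem γ).1) Vmf_dA
  exact ⟨g, hg, Wb_cv cv_th3 g hg⟩

theorem exists_gb : ∃ g : ModularForm G04 2, (∀ τ : ℍ, g τ = TB (2 * τ)) ∧
    qExpansion 1 (g : ℍ → ℂ) = tR ℂ (th4 ^ 4) := by
  obtain ⟨g, hg⟩ := Wb_form TB (fun γ hγ => (slash_Gamma2 γ hγ).2) (fun γ => (slash_mem γ).2) Vmf_dB
  exact ⟨g, hg, Wb_cv cv_th4 g hg⟩

end Pool.Agent.H85.OT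

end S_OT_Wb

section S_OT_Wd

/-!
# Row WD (project OT): index of `Γ₀(4)` and the Sturm bound for `Γ₀(4)`

* `index_le`: the coset `h Γ₀(4)` of `h = [[a,b],[c,d]] ∈ SL₂(ℤ)` depends only on the class of the first column `(a : c)` in the
  projective line over `ZMod 4`, which has `6` points `(1:0),(1:1),(1:2),(1:3),(0:1),(2:1)` (every `γ ∈ SL₂(ℤ)` is `h_i g` with `g ∈ Γ₀(4)`
  for one of six explicit `h_i`: `[[1,0],[j,1]]` for `j = 0,1,2,3` if `a` is odd (`j = c a⁻¹ mod 4`), and for `a` even, `c` odd: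
  `[[0,-1],[1,0]]` if `a = 0 mod 4`, `[[2,1],[1,1]]` if `a = 2 mod 4`.)
  So the quotient of `𝒮ℒ` by `Γ₀(4)` has at most `6` elements.
* `sturm4`: let `g ∈ M_(2w)(Γ₀(4))` have vanishing coefficients `0..w`.  `N = ModularForm.norm 𝒮ℒ g` has level one and weight
  `2w · card ≤ 12 w`.  As `im τ → ∞`, `g(τ) = O(exp(-2π (w+1) im τ))` (`hasSum_qExpansion`; `g = q^(w+1) × bounded`), and the other factors of the
  norm are bounded (`translate`, `bdd_at_cusps'`), so `N(τ) = O(exp(-2π (w+1) im τ))` and the coefficients `0..w` of `qExpansion 1 N` vanish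
  (`ModularFormClass.qExpansion_coeff_eq_intervalIntegral`, let `im τ → ∞`).  `w ≥ (weight of N)/12`, so `N = 0` by `sturm_bound_levelOne`, and
  `g = 0` by `ModularForm.norm_eq_zero_iff`.
-/

open PowerSeries UpperHalfPlane ModularForm MatrixGroups CongruenceSubgroup

namespace Pool.Agent.H85.OT

theorem Wd_fin : ∀ a b c d : ZMod 4, a * d - b * c = 1 →
    c = 0 ∨ c - a = 0 ∨ c - 2 * a = 0 ∨ c - 3 * a = 0 ∨ a = 0 ∨ 2 * c - a = 0 := by
  decide

/-- the inverses of the six coset representatives -/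
def Wd_u : Fin 6 → SL(2, ℤ) :=
  ![⟨!![1, 0; 0, 1], by simp [Matrix.det_fin_two]⟩, ⟨!![1, 0; -1, 1], by simp [Matrix.det_fin_two]⟩,
    ⟨!![1, 0; -2, 1], by simp [Matrix.det_fin_two]⟩, ⟨!![1, 0; -3, 1], by simp [Matrix.det_fin_two]⟩,
    ⟨!![0, 1; -1, 0], by simp [Matrix.det_fin_two]⟩, ⟨!![1, -1; -1, 2], by simp [Matrix.det_fin_two]⟩]

theorem Wd_cover (γ : SL(2, ℤ)) : ∃ i : Fin 6, Wd_u i * γ ∈ Gamma0 4 := by
  have hdet : γ 0 0 * γ 1 1 - γ 0 1 * γ 1 0 = 1 := by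
    rw [← Matrix.det_fin_two]
    exact γ.2
  have h4 : ((γ 0 0 : ℤ) : ZMod 4) * ((γ 1 1 : ℤ) : ZMod 4) -
      ((γ 0 1 : ℤ) : ZMod 4) * ((γ 1 0 : ℤ) : ZMod 4) = 1 := by
    have := congrArg (Int.cast : ℤ → ZMod 4) hdet
    push_cast at this
    exact this
  have key : ∀ i : Fin 6, ((((Wd_u i) 1 0 : ℤ) : ZMod 4) * ((γ 0 0 : ℤ) : ZMod 4) +
      (((Wd_u i) 1 1 : ℤ) : ZMod 4) * ((γ 1 0 : ℤ) : ZMod 4) = 0) → Wd_u i * γ ∈ Gamma0 4 := by
    intro i hi
    rw [Gamma0_mem, Matrix.SpecialLinearGroup.coe_mul, Matrix.mul_apply, Fin.sum_univ_two]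
    push_cast
    exact hi
  rcases Wd_fin _ _ _ _ h4 with h | h | h | h | h | h
  · exact ⟨0, key 0 (by rw [← h]; simp [Wd_u])⟩
  · exact ⟨1, key 1 (by rw [← h]; simp [Wd_u]; ring)⟩
  · exact ⟨2, key 2 (by rw [← h]; simp [Wd_u]; ring)⟩
  · exact ⟨3, key 3 (by rw [← h]; simp [Wd_u]; ring)⟩
  · exact ⟨4, key 4 (by simp [Wd_u, h])⟩
  · exact ⟨5, key 5 (by rw [← h]; simp [Wd_u]; ring)⟩

theorem index_le : Nat.card (𝒮ℒ ⧸ (G04.subgroupOf 𝒮ℒ)) ≤ 6 := by
  let f : Fin 6 → (𝒮ℒ ⧸ (G04.subgroupOf 𝒮ℒ)) := fun i =>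
    ((⟨Matrix.SpecialLinearGroup.mapGL ℝ (Wd_u i)⁻¹, ⟨_, rfl⟩⟩ : 𝒮ℒ) : 𝒮ℒ ⧸ (G04.subgroupOf 𝒮ℒ))
  have hf : Function.Surjective f := by
    intro q
    induction q using QuotientGroup.induction_on with
    | H z =>
      obtain ⟨_, γ, rfl⟩ := z
      obtain ⟨i, hi⟩ := Wd_cover γ
      refine ⟨i, ?_⟩
      rw [QuotientGroup.eq, Subgroup.mem_subgroupOf]
      refine ⟨Wd_u i * γ, hi, ?_⟩
      simp
  have h := Nat.card_le_card_of_surjective f hf
  rwa [Nat.card_eq_fintype_card (α := Fin 6), Fintype.card_fin] at h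

theorem Wd_period : (1 : ℝ) ∈ (G04).strictPeriods := by
  rw [strictPeriods_Gamma0]
  exact AddSubgroup.mem_zmultiples 1

theorem Wd_decay (w : ℕ) (g : ModularForm G04 ((2 * w : ℕ) : ℤ))
    (h : ∀ n ≤ w, PowerSeries.coeff n (qExpansion 1 (g : ℍ → ℂ)) = 0) :
    (g : ℍ → ℂ) =O[atImInfty] fun τ : ℍ => (Real.exp (-2 * Real.pi * τ.im) ^ (w + 1)) := by
  have hG := ModularFormClass.analyticAt_cuspFunction_zero g one_pos Wd_period
  have hs := fun τ : ℍ => ModularForm.hasSum_qExpansion (f := g) one_pos Wd_period τ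
  have h1 := (UpperHalfPlane.hasFPowerSeries_cuspFunction g one_pos hG
    (c := fun m => PowerSeries.coeff m (qExpansion 1 (g : ℍ → ℂ)))
    (fun τ => hs τ)).hasFPowerSeriesAt.isBigO_sub_partialSum_pow (w + 1)
  have h2 : ∀ y : ℂ, (qExpansionFormalMultilinearSeries 1 g).partialSum (w + 1) y = 0 := by
    intro y
    unfold FormalMultilinearSeries.partialSum
    refine Finset.sum_eq_zero fun n hn => ?_
    have hn' : n ≤ w := Nat.lt_succ_iff.1 (Finset.mem_range.1 hn)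
    unfold qExpansionFormalMultilinearSeries
    rw [FormalMultilinearSeries.ofScalars_eq_zero_of_scalar_zero _ (h n hn')]
    rfl
  simp only [h2, sub_zero, zero_add] at h1
  have h3 := h1.comp_tendsto (UpperHalfPlane.qParam_tendsto_atImInfty one_pos)
  refine (h3.congr' (Filter.Eventually.of_forall fun τ => ?_) (Filter.Eventually.of_forall fun τ => ?_))
  · exact SlashInvariantFormClass.eq_cuspFunction g τ Wd_period one_ne_zero
  · change ‖Function.Periodic.qParam 1 (τ : ℂ)‖ ^ (w + 1) = _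
    rw [Function.Periodic.norm_qParam, div_one]
    rfl

theorem Wd_coeff {k : ℤ} (w : ℕ) (N : ModularForm 𝒮ℒ k)
    (hN : (N : ℍ → ℂ) =O[atImInfty] fun τ : ℍ => (Real.exp (-2 * Real.pi * τ.im) ^ (w + 1)))
    (n : ℕ) (hn : n ≤ w) : PowerSeries.coeff n (qExpansion 1 (N : ℍ → ℂ)) = 0 := by
  obtain ⟨C, hC⟩ := hN.bound
  obtain ⟨A, hA⟩ := (UpperHalfPlane.atImInfty_mem _).1 hC
  have key : ∀ t : ℝ, max A 1 ≤ t → ‖PowerSeries.coeff n (qExpansion 1 (N : ℍ → ℂ))‖ ≤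
      |C| * Real.exp (-(2 * Real.pi) * t) := by
    intro t ht
    have ht0 : 0 < t := lt_of_lt_of_le one_pos ((le_max_right _ _).trans ht)
    rw [ModularFormClass.qExpansion_coeff_eq_intervalIntegral N one_pos one_mem_strictPeriods_SL n ht0]
    rw [Complex.ofReal_one, div_one, one_mul]
    have hb := intervalIntegral.norm_integral_le_of_norm_le_const (a := (0 : ℝ)) (b := 1)
      (C := |C| * Real.exp (-(2 * Real.pi) * t))
      (f := fun u : ℝ => 1 / Function.Periodic.qParam 1 ((u : ℂ) + t * Complex.I) ^ n *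
        N ⟨(u : ℂ) + t * Complex.I, by simpa using ht0⟩) (fun u _ => ?_)
    · rw [sub_zero, abs_one, mul_one] at hb
      exact hb
    · set r : ℝ := Real.exp (-(2 * Real.pi) * t) with hr
      have hr0 : 0 < r := Real.exp_pos _
      have hr1 : r ≤ 1 := Real.exp_le_one_iff.2 (by
        have := Real.pi_pos
        nlinarith)
      have e1 : ‖Function.Periodic.qParam 1 ((u : ℂ) + t * Complex.I)‖ = r := by
        rw [Function.Periodic.norm_qParam, hr]
        congr 1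
        simp
      have e2 : ‖N ⟨(u : ℂ) + t * Complex.I, by simpa using ht0⟩‖ ≤ C * r ^ (w + 1) := by
        have h5 := hA ⟨(u : ℂ) + t * Complex.I, by simpa using ht0⟩ (by
          change A ≤ ((u : ℂ) + t * Complex.I).im
          simpa using (le_max_left _ _).trans ht)
        simp only [Set.mem_ofPred_eq] at h5
        refine h5.trans (le_of_eq ?_)
        rw [Real.norm_of_nonneg (by positivity)]
        congr 2
        rw [hr]
        congr 1
        change -2 * Real.pi * ((u : ℂ) + t * Complex.I).im = _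
        simp
      rw [norm_mul, norm_div, norm_one, norm_pow, e1]
      calc 1 / r ^ n * ‖N ⟨(u : ℂ) + t * Complex.I, by simpa using ht0⟩‖
          ≤ 1 / r ^ n * (C * r ^ (w + 1)) := by gcongr
        _ ≤ 1 / r ^ n * (|C| * r ^ (w + 1)) := by
          gcongr
          exact le_abs_self C
        _ = |C| * r ^ (w + 1 - n) := by
          rw [pow_sub₀ r hr0.ne' (by omega)]
          field_simp
        _ ≤ |C| * r := by
          gcongr
          calc r ^ (w + 1 - n) ≤ r ^ 1 := pow_le_pow_of_le_one hr0.le hr1 (by omega)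
            _ = r := pow_one r
  have hlim : Filter.Tendsto (fun t : ℝ => |C| * Real.exp (-(2 * Real.pi) * t)) Filter.atTop
      (nhds (|C| * 0)) := by
    refine Filter.Tendsto.const_mul _ ?_
    refine Real.tendsto_exp_atBot.comp ?_
    exact Filter.tendsto_id.const_mul_atTop_of_neg (by
      have := Real.pi_pos
      linarith)
  rw [mul_zero] at hlim
  have h0 := ge_of_tendsto hlim (Filter.eventually_atTop.2 ⟨max A 1, key⟩)
  exact norm_le_zero_iff.1 h0

theorem sturm4 (w : ℕ) (g : ModularForm G04 ((2 * w : ℕ) : ℤ))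
    (h : ∀ n ≤ w, PowerSeries.coeff n (qExpansion 1 (g : ℍ → ℂ)) = 0) : g = 0 := by
  classical
  have hcard := index_le
  rw [← DFunLike.coe_injective.eq_iff]
  change (g : ℍ → ℂ) = 0
  rw [← ModularForm.norm_eq_zero_iff 𝒮ℒ]
  apply ModularForm.sturm_bound_levelOne
  have hO : (ModularForm.norm 𝒮ℒ g : ℍ → ℂ) =O[atImInfty]
      fun τ : ℍ => (Real.exp (-2 * Real.pi * τ.im) ^ (w + 1)) := by
    rw [ModularForm.coe_norm]
    let _ := Fintype.ofFinite (𝒮ℒ ⧸ G04.subgroupOf 𝒮ℒ)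
    have hb : ∀ q : 𝒮ℒ ⧸ G04.subgroupOf 𝒮ℒ, IsBoundedAtImInfty (SlashInvariantForm.quotientFunc g q) := by
      intro q
      induction q using QuotientGroup.induction_on with
      | H z =>
        obtain ⟨_, γ, rfl⟩ := z
        have := ModularFormClass.bdd_at_infty_slash g γ⁻¹
        rw [ModularForm.SL_slash] at this
        have e : Matrix.SpecialLinearGroup.toGL
            ((Matrix.SpecialLinearGroup.map (Int.castRingHom ℝ)) γ⁻¹) =
            ((Matrix.SpecialLinearGroup.mapGL ℝ) γ)⁻¹ := by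
          rw [← map_inv]
          simp [Matrix.SpecialLinearGroup.mapGL]
        exact (congrArg (fun x : GL (Fin 2) ℝ => IsBoundedAtImInfty ((g : ℍ → ℂ) ∣[((2 * w : ℕ) : ℤ)] x)) e).mp this
    have h1 := Asymptotics.IsBigO.finsetProd (l := atImInfty) (s := Finset.univ)
      (f := fun (q : 𝒮ℒ ⧸ G04.subgroupOf 𝒮ℒ) => SlashInvariantForm.quotientFunc g q)
      (g := fun q τ => if q = ((1 : 𝒮ℒ) : 𝒮ℒ ⧸ G04.subgroupOf 𝒮ℒ) then
        (Real.exp (-2 * Real.pi * τ.im) ^ (w + 1)) else (1 : ℝ)) (fun q _ => ?_)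
    · refine h1.congr (fun τ => ?_) (fun τ => ?_)
      · rw [Finset.prod_apply]
      · rw [Finset.prod_ite_eq' Finset.univ]
        simp
    · by_cases hq : q = ((1 : 𝒮ℒ) : 𝒮ℒ ⧸ G04.subgroupOf 𝒮ℒ)
      · subst hq
        simp only [if_true]
        have h2 := Wd_decay w g h
        have h3 : SlashInvariantForm.quotientFunc g ((1 : 𝒮ℒ) : 𝒮ℒ ⧸ G04.subgroupOf 𝒮ℒ) = (g : ℍ → ℂ) := by
          change (g : ℍ → ℂ) ∣[_] ((1 : 𝒮ℒ) : GL (Fin 2) ℝ)⁻¹ = _
          simp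
        rw [h3]
        exact h2
      · simp only [if_neg hq]
        exact hb q
  have hc := Wd_coeff w _ hO
  refine lt_of_lt_of_le ?_ (PowerSeries.nat_le_order _ (w + 1) fun i hi => hc i (Nat.lt_succ_iff.1 hi))
  have h12 : ((((2 * w : ℕ) : ℤ) * (Nat.card (𝒮ℒ ⧸ G04.subgroupOf 𝒮ℒ) : ℤ)).toNat) / 12 ≤ w := by
    rw [← Nat.cast_mul, Int.toNat_natCast]
    have : 2 * w * Nat.card (𝒮ℒ ⧸ G04.subgroupOf 𝒮ℒ) ≤ 2 * w * 6 := Nat.mul_le_mul_left _ hcard
    omega
  exact_mod_cast Nat.lt_succ_of_le h12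

end Pool.Agent.H85.OT

end S_OT_Wd

section S_OT_We

/-!
# Row WE (project OT): modular forms on `Γ₀(4)` with coefficients in `R` are polynomials in `θ₃⁴, θ₄⁴`

`R` a commutative ring, `ρ : R →+* ℂ` injective, `g ∈ M_(2w)(Γ₀(4))` with `qExpansion 1 g = map ρ F`, `F ∈ R⟦X⟧`.
1. `exists_c16`: there is `c16 = X W ∈ ℤ⟦X⟧`, `W_0 = 1`, with `16 c16 = th3^4 - th4^4`: `psi = 2 ψ0` (coefficients `0, 2`), so `two_X_psi` gives
   `th3² - th4² = 8 X (dbl ψ0)²`, and `th3² + th4² = 2 dbl(th3²)` (`two_dbl_U`); multiply: `th3^4 - th4^4 = 16 X (dbl ψ0)² dbl(th3²)`.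
2. For `j ≤ w` let `b_j = (th3^4)^(w-j) c16^j = X^j (1 + ...)`.  There are `e_0, .., e_w ∈ R` such that `F - ∑ e_j tR b_j` has vanishing
   coefficients `0..w` (determine `e_0, e_1, ..` successively).
3. With `ga, gb` from `Wb`: the form `g - ∑ ρ(e_j) ga^(w-j) ((ga - gb)/16)^j` of weight `2w` on `Γ₀(4)` has q-expansion
   `map ρ (F - ∑ e_j tR b_j)`, so it is zero by `sturm4`.  As `ρ` is injective, `F = ∑ e_j tR b_j`.
4. `16^w F = ∑ e_j 16^(w-j) a^(w-j) (a - b)^j`, `a = th3^4`, `b = th4^4`: expand `(a-b)^j`; this is of the shape required by `IsFormR` with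
   `M = 16^w`.
-/

open PowerSeries UpperHalfPlane ModularForm MatrixGroups CongruenceSubgroup

namespace Pool.Agent.H85.OT

/-- half of `psi` -/
noncomputable def We_psi0 : ℤ⟦X⟧ := PowerSeries.mk fun n => if IsSquare (4 * n + 1) then 1 else 0

theorem We_psi : psi = 2 * We_psi0 := by
  ext n
  have e : (2 : ℤ⟦X⟧) = PowerSeries.C (2 : ℤ) := (map_ofNat _ 2).symm
  rw [e, PowerSeries.coeff_C_mul, psi, We_psi0, PowerSeries.coeff_mk, PowerSeries.coeff_mk]
  split_ifs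
  · norm_num
  · norm_num

theorem exists_c16 : ∃ W : ℤ⟦X⟧, PowerSeries.coeff 0 W = 1 ∧
    16 * (PowerSeries.X * W) = th3 ^ 4 - th4 ^ 4 := by
  refine ⟨(dbl ℤ We_psi0) ^ 2 * dbl ℤ (th3 ^ 2), ?_, ?_⟩
  · have h1 : PowerSeries.constantCoeff (dbl ℤ We_psi0) = 1 := by
      unfold dbl
      rw [PowerSeries.constantCoeff_expand, ← PowerSeries.coeff_zero_eq_constantCoeff_apply, We_psi0,
        PowerSeries.coeff_mk]
      simp
    have h2 : PowerSeries.constantCoeff (dbl ℤ (th3 ^ 2)) = 1 := by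
      unfold dbl
      rw [PowerSeries.constantCoeff_expand, map_pow, ← PowerSeries.coeff_zero_eq_constantCoeff_apply, th3,
        PowerSeries.coeff_mk]
      simp
    rw [PowerSeries.coeff_zero_eq_constantCoeff_apply, map_mul, map_pow, h1, h2]
    norm_num
  · have h1 := two_X_psi
    have h2 := two_dbl_U
    rw [We_psi, map_mul, map_ofNat] at h1
    have e : th3 ^ 4 - th4 ^ 4 = (th3 ^ 2 - th4 ^ 2) * (th3 ^ 2 + th4 ^ 2) := by ring
    rw [e, ← h1, ← h2]
    ring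

/-- successive determination of coefficients -/
theorem We_det {R : Type*} [CommRing R] (F : R⟦X⟧) (b : ℕ → R⟦X⟧)
    (h0 : ∀ j n, n < j → PowerSeries.coeff n (b j) = 0) (h1 : ∀ j, PowerSeries.coeff j (b j) = 1) (k : ℕ) :
    ∃ e : ℕ → R, ∀ n < k, PowerSeries.coeff n (F - ∑ j ∈ Finset.range k, PowerSeries.C (e j) * b j) = 0 := by
  induction k with
  | zero => exact ⟨fun _ => 0, fun n hn => absurd hn (Nat.not_lt_zero n)⟩
  | succ k ih =>
    obtain ⟨e, he⟩ := ih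
    refine ⟨Function.update e k
      (PowerSeries.coeff k (F - ∑ j ∈ Finset.range k, PowerSeries.C (e j) * b j)), fun n hn => ?_⟩
    have e1 : ∑ j ∈ Finset.range k, PowerSeries.C (Function.update e k
        (PowerSeries.coeff k (F - ∑ j ∈ Finset.range k, PowerSeries.C (e j) * b j)) j) * b j =
        ∑ j ∈ Finset.range k, PowerSeries.C (e j) * b j := by
      refine Finset.sum_congr rfl fun j hj => ?_
      rw [Function.update_of_ne (Finset.mem_range.1 hj).ne]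
    rw [Finset.sum_range_succ, e1, Function.update_self, ← sub_sub, map_sub (PowerSeries.coeff n),
      PowerSeries.coeff_C_mul]
    rcases Nat.lt_succ_iff_lt_or_eq.1 hn with h | h
    · rw [he n h, h0 k n h, mul_zero, sub_zero]
    · subst h
      rw [h1, mul_one, sub_self]

theorem We_b {R : Type*} [CommRing R] (A Wr : R⟦X⟧) (hA : PowerSeries.constantCoeff A = 1)
    (hW : PowerSeries.constantCoeff Wr = 1) (w : ℕ) :
    (∀ j n, n < j → PowerSeries.coeff n (A ^ (w - j) * (PowerSeries.X * Wr) ^ j) = 0) ∧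
      ∀ j, PowerSeries.coeff j (A ^ (w - j) * (PowerSeries.X * Wr) ^ j) = 1 := by
  have e : ∀ j, A ^ (w - j) * (PowerSeries.X * Wr) ^ j = PowerSeries.X ^ j * (A ^ (w - j) * Wr ^ j) := by
    intro j
    ring
  refine ⟨fun j n hn => ?_, fun j => ?_⟩
  · rw [e, PowerSeries.coeff_X_pow_mul', if_neg (not_le.2 hn)]
  · rw [e, PowerSeries.coeff_X_pow_mul', if_pos le_rfl, Nat.sub_self,
      PowerSeries.coeff_zero_eq_constantCoeff_apply, map_mul, map_pow, map_pow, hA, hW, one_pow, one_pow,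
      one_mul]

/-- expansion in terms of `A`, `B`, `16 c = A - B` -/
theorem We_exp {S : Type*} [CommRing S] (A B c : S) (hc : 16 * c = A - B) (w j : ℕ) (hj : j ≤ w) :
    16 ^ w * (A ^ (w - j) * c ^ j) = ∑ i ∈ Finset.range (w + 1),
      (16 ^ (w - j) * (-1) ^ i * (j.choose i : S)) * A ^ (w - i) * B ^ i := by
  have e1 : (16 : S) ^ w * (A ^ (w - j) * c ^ j) = 16 ^ (w - j) * A ^ (w - j) * (-B + A) ^ j := by
    have e2 : (16 : S) ^ w = 16 ^ (w - j) * 16 ^ j := by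
      rw [← pow_add, Nat.sub_add_cancel hj]
    have e3 : -B + A = 16 * c := by rw [hc]; ring
    rw [e2, e3, mul_pow]
    ring
  have e4 : ∑ i ∈ Finset.range (w + 1), (16 ^ (w - j) * (-1) ^ i * (j.choose i : S)) * A ^ (w - i) * B ^ i =
      ∑ i ∈ Finset.range (j + 1), (16 ^ (w - j) * (-1) ^ i * (j.choose i : S)) * A ^ (w - i) * B ^ i := by
    symm
    refine Finset.sum_subset (Finset.range_subset_range.2 (by omega)) ?_
    intro i _ hi
    have hji : j < i := by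
      by_contra h
      exact hi (Finset.mem_range.2 (by omega))
    rw [Nat.choose_eq_zero_of_lt hji]
    simp
  rw [e1, e4, add_pow, Finset.mul_sum]
  refine Finset.sum_congr rfl fun i hi => ?_
  have hij : i ≤ j := Nat.lt_succ_iff.1 (Finset.mem_range.1 hi)
  have e5 : A ^ (w - i) = A ^ (w - j) * A ^ (j - i) := by
    rw [← pow_add]
    congr 1
    omega
  rw [e5, neg_pow]
  ring

theorem We_one : (1 : ℝ) ∈ G04.strictPeriods := by
  unfold G04
  rw [strictPeriods_Gamma0]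
  exact AddSubgroup.mem_zmultiples 1

theorem We_form {A Cc : ℂ⟦X⟧} (ga gc : ModularForm G04 2) (ha : qExpansion 1 (ga : ℍ → ℂ) = A)
    (hc : qExpansion 1 (gc : ℍ → ℂ) = Cc) (w j : ℕ) (hj : j ≤ w) :
    ∃ h : ModularForm G04 ((2 * w : ℕ) : ℤ), qExpansion 1 (h : ℍ → ℂ) = A ^ (w - j) * Cc ^ j := by
  have ew : ((w - j : ℕ) : ℤ) * 2 + (j : ℤ) * 2 = ((2 * w : ℕ) : ℤ) := by
    omega
  refine ⟨ModularForm.mcast ew ((ga.pow (w - j)).mul (gc.pow j)) rfl, ?_⟩
  rw [ModularForm.qExpansion_mcast, ModularForm.qExpansion_mul one_pos We_one,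
    ModularForm.qExpansion_pow one_pos We_one, ModularForm.qExpansion_pow one_pos We_one, ha, hc]

theorem isFormR_of_qExpansion (R : Type*) [CommRing R] (ρ : R →+* ℂ) (hρ : Function.Injective ρ)
    (w : ℕ) (g : ModularForm G04 ((2 * w : ℕ) : ℤ)) (F : R⟦X⟧)
    (hF : qExpansion 1 (g : ℍ → ℂ) = PowerSeries.map ρ F) : IsFormR R w F := by
  obtain ⟨W, hW0, hW⟩ := exists_c16
  obtain ⟨ga, -, hga⟩ := exists_ga
  obtain ⟨gb, -, hgb⟩ := exists_gb
  have hmap : ∀ G : ℤ⟦X⟧, PowerSeries.map ρ (tR R G) = tR ℂ G := by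
    intro G
    ext n
    simp only [tR, PowerSeries.coeff_map, Int.coe_castRingHom, map_intCast]
  have hA1 : PowerSeries.constantCoeff (tR R (th3 ^ 4)) = 1 := by
    rw [map_pow, map_pow, ← PowerSeries.coeff_zero_eq_constantCoeff_apply, tR, PowerSeries.coeff_map, th3,
      PowerSeries.coeff_mk]
    simp
  have hW1 : PowerSeries.constantCoeff (tR R W) = 1 := by
    rw [← PowerSeries.coeff_zero_eq_constantCoeff_apply, tR, PowerSeries.coeff_map, hW0]
    simp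
  have hX : ∀ (S : Type _) [CommRing S], tR S (PowerSeries.X * W) = PowerSeries.X * tR S W := by
    intro S _
    rw [map_mul]
    congr 1
    exact PowerSeries.map_X _
  obtain ⟨hb0, hb1⟩ := We_b (tR R (th3 ^ 4)) (tR R W) hA1 hW1 w
  obtain ⟨e, he⟩ := We_det F (fun j => tR R (th3 ^ 4) ^ (w - j) * (PowerSeries.X * tR R W) ^ j)
    (fun j n h => hb0 j n h) (fun j => hb1 j) (w + 1)
  obtain ⟨gc, hgc⟩ : ∃ gc : ModularForm G04 2, qExpansion 1 (gc : ℍ → ℂ) = tR ℂ (PowerSeries.X * W) := by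
    refine ⟨(1 / 16 : ℂ) • (ga - gb), ?_⟩
    have h1 : qExpansion 1 ((ga - gb : ModularForm G04 2) : ℍ → ℂ) = tR ℂ (th3 ^ 4) - tR ℂ (th4 ^ 4) := by
      rw [← hga, ← hgb]
      exact ModularForm.qExpansion_sub one_pos We_one ga gb
    have h2 : qExpansion 1 (((1 / 16 : ℂ) • (ga - gb) : ModularForm G04 2) : ℍ → ℂ) =
        (1 / 16 : ℂ) • qExpansion 1 ((ga - gb : ModularForm G04 2) : ℍ → ℂ) :=
      ModularForm.qExpansion_smul one_pos We_one _ (ga - gb)
    rw [h2, h1, ← map_sub, ← hW, map_mul, map_ofNat]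
    have h3 : (16 : ℂ⟦X⟧) = PowerSeries.C (16 : ℂ) := (map_ofNat _ 16).symm
    rw [h3, ← PowerSeries.smul_eq_C_mul, smul_smul]
    norm_num
  have hex : ∀ j : ℕ, ∃ h : ModularForm G04 ((2 * w : ℕ) : ℤ), j ≤ w → qExpansion 1 (h : ℍ → ℂ) =
      tR ℂ (th3 ^ 4) ^ (w - j) * tR ℂ (PowerSeries.X * W) ^ j := by
    intro j
    by_cases hj : j ≤ w
    · obtain ⟨h, hh⟩ := We_form ga gc hga hgc w j hj
      exact ⟨h, fun _ => hh⟩
    · exact ⟨0, fun h => absurd h hj⟩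
  choose hf hhf using hex
  obtain ⟨φ, hφ⟩ : ∃ φ : ModularForm G04 ((2 * w : ℕ) : ℤ) →+ ℂ⟦X⟧, ∀ f, φ f = qExpansion 1 (f : ℍ → ℂ) :=
    ⟨ModularForm.qExpansionAddHom one_pos We_one _, fun _ => rfl⟩
  have hsm : ∀ (c : ℂ) (f : ModularForm G04 ((2 * w : ℕ) : ℤ)), φ (c • f) = PowerSeries.C c * φ f := by
    intro c f
    rw [hφ, hφ, ← PowerSeries.smul_eq_C_mul]
    exact ModularForm.qExpansion_smul one_pos We_one c f
  have hkey : φ (g - ∑ j ∈ Finset.range (w + 1), ρ (e j) • hf j) = PowerSeries.map ρ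
      (F - ∑ j ∈ Finset.range (w + 1), PowerSeries.C (e j) *
        (tR R (th3 ^ 4) ^ (w - j) * (PowerSeries.X * tR R W) ^ j)) := by
    rw [map_sub, map_sum, map_sub, map_sum, hφ g, hF]
    congr 1
    refine Finset.sum_congr rfl fun j hj => ?_
    have e3 : PowerSeries.map ρ (PowerSeries.C (e j) *
        (tR R (th3 ^ 4) ^ (w - j) * (PowerSeries.X * tR R W) ^ j)) =
        PowerSeries.C (ρ (e j)) * (tR ℂ (th3 ^ 4) ^ (w - j) * tR ℂ (PowerSeries.X * W) ^ j) := by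
      rw [← hX R, map_mul (PowerSeries.map ρ), map_mul (PowerSeries.map ρ), map_pow (PowerSeries.map ρ),
        map_pow (PowerSeries.map ρ), PowerSeries.map_C, hmap, hmap]
    rw [hsm, hφ, hhf j (Nat.lt_succ_iff.1 (Finset.mem_range.1 hj))]
    exact e3.symm
  have hzero : g - ∑ j ∈ Finset.range (w + 1), ρ (e j) • hf j = 0 := by
    refine sturm4 w _ fun n hn => ?_
    rw [← hφ, hkey, PowerSeries.coeff_map, he n (Nat.lt_succ_iff.2 hn), map_zero]
  rw [hzero, map_zero] at hkey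
  have hFe : F = ∑ j ∈ Finset.range (w + 1), PowerSeries.C (e j) *
        (tR R (th3 ^ 4) ^ (w - j) * (PowerSeries.X * tR R W) ^ j) := by
    rw [← sub_eq_zero]
    ext n
    apply hρ
    rw [← PowerSeries.coeff_map, ← hkey, map_zero, map_zero, map_zero]
  have hcr : 16 * (PowerSeries.X * tR R W) = tR R (th3 ^ 4) - tR R (th4 ^ 4) := by
    have h1 := congrArg (tR R) hW
    rw [map_mul, map_ofNat, map_sub, hX R] at h1
    exact h1
  refine ⟨16 ^ w, fun i => ∑ j ∈ Finset.range (w + 1),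
    e j * (16 ^ (w - j) * (-1) ^ i * (j.choose i : R)), by positivity, ?_⟩
  have hC : PowerSeries.C (((16 ^ w : ℤ)) : R) = (16 : R⟦X⟧) ^ w := by
    rw [Int.cast_pow, Int.cast_ofNat, map_pow, map_ofNat]
  rw [hC]
  conv_lhs => rw [hFe]
  rw [Finset.mul_sum]
  have h1 : ∀ j ∈ Finset.range (w + 1), (16 : R⟦X⟧) ^ w * (PowerSeries.C (e j) *
      (tR R (th3 ^ 4) ^ (w - j) * (PowerSeries.X * tR R W) ^ j)) =
      ∑ i ∈ Finset.range (w + 1), PowerSeries.C (e j * (16 ^ (w - j) * (-1) ^ i * (j.choose i : R))) *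
        tR R (th3 ^ 4) ^ (w - i) * tR R (th4 ^ 4) ^ i := by
    intro j hj
    have h2 := We_exp (tR R (th3 ^ 4)) (tR R (th4 ^ 4)) (PowerSeries.X * tR R W) hcr w j
      (Nat.lt_succ_iff.1 (Finset.mem_range.1 hj))
    rw [mul_left_comm, h2, Finset.mul_sum]
    refine Finset.sum_congr rfl fun i _ => ?_
    have e5 : PowerSeries.C (e j * (16 ^ (w - j) * (-1) ^ i * (j.choose i : R))) =
        PowerSeries.C (e j) * (16 ^ (w - j) * (-1) ^ i * (j.choose i : R⟦X⟧)) := by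
      rw [map_mul, map_mul, map_mul, map_pow, map_pow, map_neg, map_one, map_natCast, map_ofNat]
    rw [e5]
    ring
  rw [Finset.sum_congr rfl h1, Finset.sum_comm]
  refine Finset.sum_congr rfl fun i _ => ?_
  rw [map_sum, Finset.sum_mul, Finset.sum_mul]

end Pool.Agent.H85.OT

end S_OT_We
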