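import Mathlib
import Pool.Agent.H85.OM.M03
import Pool.Agent.H85.OM.M10

/-! First slopes of modular forms, part M11: this file joins several modules to save build time. -/

section S_OU_UM

/-!
# Definitions for the modular part of the project OU

* `IsMF Γ j h`: `h : ℍ → ℂ` is holomorphic, invariant under `Γ ≤ SL₂(ℤ)` in weight `j`, and bounded at all cusps
  (all slash translates by `SL₂(ℤ)` are bounded at `i∞`): a modular form of weight `j` for `Γ`.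
* `QE h F`: `h(τ) = ∑ F_n q^n` for all `τ`, `q = exp(2π i τ)`, absolutely convergent.
* `uu τ = θ(2τ)²`, the form of weight one with q-expansion `U`.
-/

open PowerSeries UpperHalfPlane ModularForm MatrixGroups CongruenceSubgroup
open scoped Manifold

namespace Pool.Agent.H85.OU

open Pool.Agent.H85.OT

/-- modular forms of weight `j` for `Γ`, as functions -/
def IsMF (Γ : Subgroup SL(2, ℤ)) (j : ℤ) (h : ℍ → ℂ) : Prop :=
  MDifferentiable 𝓘(ℂ) 𝓘(ℂ) h ∧ (∀ γ ∈ Γ, h ∣[j] γ = h) ∧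
    ∀ γ : SL(2, ℤ), IsBoundedAtImInfty (h ∣[j] γ)

/-- `h(τ) = ∑ F_n q^n`, `q = exp(2π i τ)` -/
def QE (h : ℍ → ℂ) (F : ℂ⟦X⟧) : Prop :=
  ∀ τ : ℍ, Cv F (Complex.exp (2 * Real.pi * Complex.I * (τ : ℂ))) (h τ)

/-- `θ(2τ)²` -/
noncomputable def uu (τ : ℍ) : ℂ := jacobiTheta (2 * (τ : ℂ)) ^ 2

end Pool.Agent.H85.OU

end S_OU_UM

section S_OU_Ma

/-!
# Row MA (project OU): closure properties of `IsMF` and `QE`

* `IsMF.mul`: `ModularForm.mul_slash_SL2`; sums `SlashAction.add_slash`; `smul`: `ModularForm.SL_smul_slash`; bounded functions form an algebra.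
* `of_modularForm`: for `Γ` of finite index `ModularForm (Γ : Subgroup (GL (Fin 2) ℝ)) j`; cusps: `Subgroup.IsArithmetic.isCusp_iff_isCusp_SL2Z`, `OnePoint.isBoundedAt_iff_forall_SL2Z`, `isCusp_SL2Z_iff'` (see the proofs of
  `Wb_form` in `OT/Wb.lean`, `Vmf_form` in `OT/Vmf.lean`, and the construction of `CuspForm.discriminant` in Mathlib).
* `exists_modularForm`: the converse.
* `QE`: `Cv.mul`, `Cv.add`, `Cv.smul`, `Cv.one`, `Cv.pow` of `OT/Vcv.lean`.  `QE.unique`: `Cv.ext` (every `0 < ‖q‖ < 1` is `exp(2π i τ)`).  `QE.inj`: `Cv.unique`.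
* `exists_QE`: `h` holomorphic, `h(τ+1) = h(τ)` (from `h ∣[j] T = h`), bounded at `i∞`: `UpperHalfPlane.hasSum_qExpansion`; absolute convergence because a convergent power series converges absolutely
  in the open disc (compare with a larger radius).  `F = qExpansion 1 h`.
-/

open PowerSeries UpperHalfPlane ModularForm MatrixGroups CongruenceSubgroup
open scoped Manifold

namespace Pool.Agent.H85.OU

open Pool.Agent.H85.OT

theorem IsMF.mul {Γ : Subgroup SL(2, ℤ)} {i j : ℤ} {f g : ℍ → ℂ} (hf : IsMF Γ i f)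
    (hg : IsMF Γ j g) : IsMF Γ (i + j) (f * g) := by
  refine ⟨hf.1.mul hg.1, ?_, ?_⟩
  · intro γ hγ
    rw [ModularForm.mul_slash_SL2, hf.2.1 γ hγ, hg.2.1 γ hγ]
  · intro γ
    rw [ModularForm.mul_slash_SL2]
    exact (hf.2.2 γ).mul (hg.2.2 γ)

theorem IsMF.add {Γ : Subgroup SL(2, ℤ)} {j : ℤ} {f g : ℍ → ℂ} (hf : IsMF Γ j f)
    (hg : IsMF Γ j g) : IsMF Γ j (f + g) := by
  refine ⟨hf.1.add hg.1, ?_, ?_⟩
  · intro γ hγ
    rw [SlashAction.add_slash, hf.2.1 γ hγ, hg.2.1 γ hγ]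
  · intro γ
    rw [SlashAction.add_slash]
    exact (hf.2.2 γ).add (hg.2.2 γ)

theorem IsMF.smul {Γ : Subgroup SL(2, ℤ)} {j : ℤ} {f : ℍ → ℂ} (hf : IsMF Γ j f) (c : ℂ) :
    IsMF Γ j (c • f) := by
  refine ⟨hf.1.const_smul c, ?_, ?_⟩
  · intro γ hγ
    rw [ModularForm.SL_smul_slash, hf.2.1 γ hγ]
  · intro γ
    rw [ModularForm.SL_smul_slash]
    exact (hf.2.2 γ).const_smul_left c

theorem IsMF.const (Γ : Subgroup SL(2, ℤ)) (c : ℂ) : IsMF Γ 0 (fun _ => c) := by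
  have h1 : ∀ γ : SL(2, ℤ), (fun _ : ℍ => c) ∣[(0 : ℤ)] γ = (fun _ : ℍ => c) := by
    intro γ
    funext τ
    rw [SL_slash_apply]
    simp
  refine ⟨mdifferentiable_const, fun γ _ => h1 γ, fun γ => ?_⟩
  rw [h1 γ]
  exact Filter.const_boundedAtFilter _ c

theorem IsMF.zero (Γ : Subgroup SL(2, ℤ)) (j : ℤ) : IsMF Γ j 0 := by
  have h1 : ∀ γ : SL(2, ℤ), (0 : ℍ → ℂ) ∣[j] γ = 0 := fun γ => SlashAction.zero_slash j γ
  refine ⟨mdifferentiable_const, fun γ _ => h1 γ, fun γ => ?_⟩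
  rw [h1 γ]
  exact Filter.const_boundedAtFilter _ (0 : ℂ)

theorem IsMF.pow {Γ : Subgroup SL(2, ℤ)} {j : ℤ} {f : ℍ → ℂ} (hf : IsMF Γ j f) (n : ℕ) :
    IsMF Γ (j * n) (f ^ n) := by
  induction n with
  | zero =>
    rw [pow_zero, Nat.cast_zero, mul_zero]
    exact IsMF.const Γ 1
  | succ n ih =>
    have h1 := ih.mul hf
    rw [pow_succ]
    have h2 : j * ((n + 1 : ℕ) : ℤ) = j * (n : ℤ) + j := by
      push_cast
      ring
    rw [h2]
    exact h1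

theorem IsMF.mono {Γ Γ' : Subgroup SL(2, ℤ)} (h : Γ' ≤ Γ) {j : ℤ} {f : ℍ → ℂ}
    (hf : IsMF Γ j f) : IsMF Γ' j f := by
  exact ⟨hf.1, fun γ hγ => hf.2.1 γ (h hγ), hf.2.2⟩

theorem IsMF.of_modularForm {Γ : Subgroup SL(2, ℤ)} [Γ.FiniteIndex] {j : ℤ}
    (g : ModularForm (Γ : Subgroup (GL (Fin 2) ℝ)) j) : IsMF Γ j (g : ℍ → ℂ) := by
  refine ⟨g.holo', ?_, ?_⟩
  · intro γ hγ
    exact g.slash_action_eq' (Matrix.SpecialLinearGroup.mapGL ℝ γ) ⟨γ, hγ, rfl⟩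
  · intro γ
    have hc : IsCusp (Matrix.SpecialLinearGroup.mapGL ℝ γ • OnePoint.infty)
        (Matrix.SpecialLinearGroup.mapGL ℝ : SL(2, ℤ) →* GL (Fin 2) ℝ).range :=
      isCusp_SL2Z_iff'.mpr ⟨γ, rfl⟩
    have hc' : IsCusp (Matrix.SpecialLinearGroup.mapGL ℝ γ • OnePoint.infty)
        (Γ : Subgroup (GL (Fin 2) ℝ)) := by
      rw [Subgroup.IsArithmetic.isCusp_iff_isCusp_SL2Z]
      exact hc
    have hb := g.bdd_at_cusps' hc'
    rw [OnePoint.isBoundedAt_iff_forall_SL2Z hc] at hb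
    exact hb γ rfl

theorem IsMF.exists_modularForm {Γ : Subgroup SL(2, ℤ)} [Γ.FiniteIndex] {j : ℤ} {f : ℍ → ℂ}
    (hf : IsMF Γ j f) :
    ∃ g : ModularForm (Γ : Subgroup (GL (Fin 2) ℝ)) j, (g : ℍ → ℂ) = f := by
  refine ⟨{ toFun := f
            slash_action_eq' := ?_
            holo' := hf.1
            bdd_at_cusps' := ?_ }, rfl⟩
  · rintro _ ⟨γ, hγ, rfl⟩
    exact hf.2.1 γ hγ
  · intro c hc
    rw [Subgroup.IsArithmetic.isCusp_iff_isCusp_SL2Z] at hc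
    rw [OnePoint.isBoundedAt_iff_forall_SL2Z hc]
    intro γ _
    exact hf.2.2 γ

theorem IsMF.exists_QE {Γ : Subgroup SL(2, ℤ)} {j : ℤ} {f : ℍ → ℂ} (hf : IsMF Γ j f)
    (hT : ModularGroup.T ∈ Γ) : QE f (qExpansion 1 f) := by
  have hper1 : ∀ τ : ℍ, f ((1 : ℝ) +ᵥ τ) = f τ := by
    intro τ
    have h1 := congrFun (hf.2.1 _ hT) τ
    rw [SL_slash_apply, modular_T_smul] at h1
    have h2 : denom ModularGroup.T τ = 1 := by
      rw [ModularGroup.denom_apply]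
      simp [ModularGroup.T]
    rw [h2, one_zpow, mul_one] at h1
    exact h1
  have hper : Function.Periodic (f ∘ UpperHalfPlane.ofComplex) (1 : ℝ) := by
    intro z
    by_cases hz : 0 < z.im
    · have hz1 : 0 < (z + ((1 : ℝ) : ℂ)).im := by
        simpa using hz
      show f (UpperHalfPlane.ofComplex (z + ((1 : ℝ) : ℂ))) = f (UpperHalfPlane.ofComplex z)
      rw [UpperHalfPlane.ofComplex_apply_of_im_pos hz, UpperHalfPlane.ofComplex_apply_of_im_pos hz1,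
        ← hper1 ⟨z, hz⟩]
      congr 1
      ext1
      show z + ((1 : ℝ) : ℂ) = (((1 : ℝ) +ᵥ (⟨z, hz⟩ : ℍ) : ℍ) : ℂ)
      rw [UpperHalfPlane.coe_vadd, add_comm]
    · have hz1 : ¬ 0 < (z + ((1 : ℝ) : ℂ)).im := by
        simpa using hz
      show f (UpperHalfPlane.ofComplex (z + ((1 : ℝ) : ℂ))) = f (UpperHalfPlane.ofComplex z)
      rw [UpperHalfPlane.ofComplex_apply_of_im_nonpos (not_lt.1 hz),
        UpperHalfPlane.ofComplex_apply_of_im_nonpos (not_lt.1 hz1)]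
  have hbdd : IsBoundedAtImInfty f := by
    have h1 := hf.2.2 1
    rwa [SlashAction.slash_one] at h1
  intro τ
  have hs := UpperHalfPlane.hasSum_qExpansion one_pos hper hf.1 hbdd τ
  have hq : Function.Periodic.qParam 1 (τ : ℂ) = Complex.exp (2 * Real.pi * Complex.I * (τ : ℂ)) := by
    rw [Function.Periodic.qParam]
    congr 1
    push_cast
    ring
  rw [hq] at hs
  have hs' : HasSum (fun n => PowerSeries.coeff n (qExpansion 1 f) *
      Complex.exp (2 * Real.pi * Complex.I * (τ : ℂ)) ^ n) (f τ) := hs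
  exact ⟨hs'.summable.norm, hs'⟩

theorem QE.mul {f g : ℍ → ℂ} {F G : ℂ⟦X⟧} (hf : QE f F) (hg : QE g G) :
    QE (f * g) (F * G) := by
  exact fun τ => (hf τ).mul (hg τ)

theorem QE.add {f g : ℍ → ℂ} {F G : ℂ⟦X⟧} (hf : QE f F) (hg : QE g G) :
    QE (f + g) (F + G) := by
  exact fun τ => (hf τ).add (hg τ)

theorem QE.smul {f : ℍ → ℂ} {F : ℂ⟦X⟧} (hf : QE f F) (c : ℂ) :
    QE (c • f) (PowerSeries.C c * F) := by
  exact fun τ => (hf τ).smul c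

theorem QE.const (c : ℂ) : QE (fun _ => c) (PowerSeries.C c) := by
  intro τ
  have h1 := (Cv.one (Complex.exp (2 * Real.pi * Complex.I * (τ : ℂ)))).smul c
  rw [mul_one, mul_one] at h1
  exact h1

theorem QE.pow {f : ℍ → ℂ} {F : ℂ⟦X⟧} (hf : QE f F) (n : ℕ) : QE (f ^ n) (F ^ n) := by
  exact fun τ => (hf τ).pow n

theorem QE.unique {f : ℍ → ℂ} {F G : ℂ⟦X⟧} (hf : QE f F) (hg : QE f G) : F = G := by
  refine Cv.ext 1 one_pos fun q hq0 hq1 => ?_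
  have him := Function.Periodic.im_invQParam_pos_of_norm_lt_one one_pos hq1 (norm_pos_iff.1 hq0)
  have hq : Complex.exp (2 * Real.pi * Complex.I * Function.Periodic.invQParam 1 q) = q := by
    have h1 := Function.Periodic.qParam_right_inv (one_ne_zero : (1 : ℝ) ≠ 0) (norm_pos_iff.1 hq0)
    rw [Function.Periodic.qParam] at h1
    rw [← h1]
    congr 1
    rw [h1]
    push_cast
    ring
  have h2 := hf ⟨Function.Periodic.invQParam 1 q, him⟩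
  have h3 := hg ⟨Function.Periodic.invQParam 1 q, him⟩
  have h4 : Complex.exp (2 * Real.pi * Complex.I *
      ((⟨Function.Periodic.invQParam 1 q, him⟩ : ℍ) : ℂ)) = q := hq
  rw [h4] at h2 h3
  exact ⟨_, h2, h3⟩

theorem QE.inj {f g : ℍ → ℂ} {F : ℂ⟦X⟧} (hf : QE f F) (hg : QE g F) : f = g := by
  funext τ
  exact Cv.unique (hf τ) (hg τ)

end Pool.Agent.H85.OU

end S_OU_Ma

section S_OU_Me

/-!
# Row ME (project OU): `g(2τ)`

`Γ` of finite index with `T ∈ Γ`, `g` a form of weight `j` for `Γ`.  `Γ2 = {γ = [[a,b],[c,d]] ∈ Γ₀(2) : γ' := [[a, 2b],[c/2, d]] ∈ Γ}`; `γ ↦ γ'` is a homomorphism `Γ₀(2) → SL₂(ℤ)` (conjugation by `diag(2,1)`), so `Γ2` is the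
preimage of a finite index subgroup, of finite index in `Γ₀(2)` (finite index in `SL₂(ℤ)`).  `T' = T² ∈ Γ`, so `T ∈ Γ2`.
Put `g2(τ) = g(2τ)` (`Wb_2` of `OT/Wb.lean`: `2τ` as an element of `ℍ`).
* invariance: `2 γτ = γ'(2τ)`, `cτ + d = (c/2)(2τ) + d`.
* bounded: for `γ = [[a,b],[c,d]] ∈ SL₂(ℤ)`: `[[2a,2b],[c,d]] = γ'' M` with `γ'' ∈ SL₂(ℤ)`: `c` even: `γ'' = [[a,2b],[c/2,d]]`, `M = [[2,0],[0,1]]`; `c` odd, `d` even: `γ'' = [[2a,b],[c,d/2]]`, `M = [[1,0],[0,2]]`;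
  `c, d` odd: `γ'' = [[2a,b-a],[c,(d-c)/2]]`, `M = [[1,1],[0,2]]` (see `Wb_cusp` in `OT/Wb.lean`).  So `(g2∣γ)(τ)` is a constant times `(g∣γ'')(Mτ)`, `Mτ = 2τ, τ/2, (τ+1)/2`, bounded as `im τ → ∞` (`Wb_lim2`, `Wb_limh`, `Wb_limk`).
* `QE g2 (dbl ℂ G)`: `exp(2π i 2τ) = q²`, `Cv.dbl`.
(Alternatively use `ModularForm.translate` by `diag(2,1) ∈ GL₂(ℝ)` and `Subgroup.IsArithmetic` of conjugates.)
-/

open PowerSeries UpperHalfPlane ModularForm MatrixGroups CongruenceSubgroup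
open scoped Manifold

namespace Pool.Agent.H85.OU

open Pool.Agent.H85.OT

theorem Me_fin {G H : Type*} [Group G] [Group H] (f : G →* H) (K : Subgroup H)
    (hK : K.FiniteIndex) : (K.comap f).FiniteIndex := by
  refine ⟨?_⟩
  rw [Subgroup.index_comap]
  intro h0
  have h1 := Subgroup.relIndex_eq_zero_of_le_right (le_top : f.range ≤ ⊤) h0
  rw [Subgroup.relIndex_top_right] at h1
  exact hK.index_ne_zero h1

theorem Me_two {γ : SL(2, ℤ)} (h : γ ∈ Gamma0 2) : ∃ k : ℤ, γ 1 0 = 2 * k := by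
  rw [Gamma0_mem] at h
  obtain ⟨k, hk⟩ := (ZMod.intCast_zmod_eq_zero_iff_dvd (γ 1 0) 2).1 h
  exact ⟨k, by exact_mod_cast hk⟩

theorem Me_det (γ : SL(2, ℤ)) : γ 0 0 * γ 1 1 - γ 0 1 * γ 1 0 = 1 := by
  have := γ.det_coe
  rw [Matrix.det_fin_two] at this
  exact this

theorem Me_detP (γ : Gamma0 2) : (γ : SL(2, ℤ)) 0 0 * (γ : SL(2, ℤ)) 1 1 -
    (2 * (γ : SL(2, ℤ)) 0 1) * ((γ : SL(2, ℤ)) 1 0 / 2) = 1 := by
  obtain ⟨k, hk⟩ := Me_two γ.2
  have h := Me_det (γ : SL(2, ℤ))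
  rw [hk] at h ⊢
  rw [Int.mul_ediv_cancel_left k (by norm_num)]
  linarith

/-- `γ ↦ [[a, 2b], [c/2, d]]` on `Γ₀(2)` -/
def Me_phi : Gamma0 2 →* SL(2, ℤ) where
  toFun γ := Wb_m ((γ : SL(2, ℤ)) 0 0) (2 * (γ : SL(2, ℤ)) 0 1) ((γ : SL(2, ℤ)) 1 0 / 2)
    ((γ : SL(2, ℤ)) 1 1) (Me_detP γ)
  map_one' := by
    apply Subtype.ext
    ext i j
    fin_cases i <;> fin_cases j <;> simp [Wb_m]
  map_mul' := by
    intro x y
    apply Subtype.ext
    obtain ⟨k, hk⟩ := Me_two x.2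
    obtain ⟨l, hl⟩ := Me_two y.2
    have e1 : ∀ i j, ((x * y : Gamma0 2) : SL(2, ℤ)) i j =
        (x : SL(2, ℤ)) i 0 * (y : SL(2, ℤ)) 0 j + (x : SL(2, ℤ)) i 1 * (y : SL(2, ℤ)) 1 j := by
      intro i j
      rw [Subgroup.coe_mul]
      show (((x : SL(2, ℤ)) * (y : SL(2, ℤ)) : SL(2, ℤ)) : Matrix (Fin 2) (Fin 2) ℤ) i j = _
      rw [Matrix.SpecialLinearGroup.coe_mul, Matrix.mul_apply, Fin.sum_univ_two]
    have e2 : ((x * y : Gamma0 2) : SL(2, ℤ)) 1 0 / 2 =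
        k * (y : SL(2, ℤ)) 0 0 + (x : SL(2, ℤ)) 1 1 * l := by
      rw [e1, hk, hl, show 2 * k * (y : SL(2, ℤ)) 0 0 + (x : SL(2, ℤ)) 1 1 * (2 * l) =
        2 * (k * (y : SL(2, ℤ)) 0 0 + (x : SL(2, ℤ)) 1 1 * l) by ring]
      exact Int.mul_ediv_cancel_left _ (by norm_num)
    have e3 : (x : SL(2, ℤ)) 1 0 / 2 = k := by
      rw [hk]; exact Int.mul_ediv_cancel_left _ (by norm_num)
    have e4 : (y : SL(2, ℤ)) 1 0 / 2 = l := by
      rw [hl]; exact Int.mul_ediv_cancel_left _ (by norm_num)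
    rw [Matrix.SpecialLinearGroup.coe_mul]
    show !![_, _; _, _] = !![_, _; _, _] * !![_, _; _, _]
    rw [Matrix.mul_fin_two, e2, e3, e4, e1, e1, e1, hl, hk]
    have f1 : (x : SL(2, ℤ)) 0 0 * (y : SL(2, ℤ)) 0 0 + (x : SL(2, ℤ)) 0 1 * (2 * l) =
        (x : SL(2, ℤ)) 0 0 * (y : SL(2, ℤ)) 0 0 + 2 * (x : SL(2, ℤ)) 0 1 * l := by ring
    have f2 : 2 * ((x : SL(2, ℤ)) 0 0 * (y : SL(2, ℤ)) 0 1 + (x : SL(2, ℤ)) 0 1 * (y : SL(2, ℤ)) 1 1) =
        (x : SL(2, ℤ)) 0 0 * (2 * (y : SL(2, ℤ)) 0 1) + 2 * (x : SL(2, ℤ)) 0 1 * (y : SL(2, ℤ)) 1 1 := by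
      ring
    have f3 : 2 * k * (y : SL(2, ℤ)) 0 1 + (x : SL(2, ℤ)) 1 1 * (y : SL(2, ℤ)) 1 1 =
        k * (2 * (y : SL(2, ℤ)) 0 1) + (x : SL(2, ℤ)) 1 1 * (y : SL(2, ℤ)) 1 1 := by ring
    rw [f1, f2, f3]

theorem Me_den (γ : SL(2, ℤ)) (τ : ℍ) : denom γ τ = (γ 1 0 : ℤ) * (τ : ℂ) + (γ 1 1 : ℤ) := by
  simp [denom]

theorem Me_coe (γ : SL(2, ℤ)) (τ : ℍ) : ((γ • τ : ℍ) : ℂ) =
    ((γ 0 0 : ℤ) * (τ : ℂ) + (γ 0 1 : ℤ)) / ((γ 1 0 : ℤ) * (τ : ℂ) + (γ 1 1 : ℤ)) := by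
  rw [UpperHalfPlane.coe_specialLinearGroup_apply]
  simp

theorem Me_eq (g : ℍ → ℂ) (j : ℤ) (γ γ' : SL(2, ℤ)) (U : ℍ → ℍ) (κ : ℂ)
    (h1 : ∀ τ : ℍ, denom γ τ = κ * denom γ' (U τ)) (h2 : ∀ τ : ℍ, Wb_2 (γ • τ) = γ' • U τ) :
    (fun τ => g (Wb_2 τ)) ∣[j] γ = fun τ => κ ^ (-j) * (g ∣[j] γ') (U τ) := by
  funext τ
  rw [SL_slash_apply, SL_slash_apply, h1, mul_zpow]
  show g (Wb_2 (γ • τ)) * _ = _
  rw [h2]
  ring

theorem Me_bdd {h : ℍ → ℂ} (hb : IsBoundedAtImInfty h) {U : ℍ → ℍ}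
    (hU : Filter.Tendsto U atImInfty atImInfty) (κ : ℂ) :
    IsBoundedAtImInfty (fun τ => κ * h (U τ)) := by
  have h1 : (fun τ => h (U τ)) =O[atImInfty] (1 : ℍ → ℝ) := by
    have h2 := Asymptotics.IsBigO.comp_tendsto hb hU
    exact h2
  exact h1.const_mul_left κ

theorem Me_cusp (g : ℍ → ℂ) (j : ℤ) (γ : SL(2, ℤ)) :
    ∃ (γ' : SL(2, ℤ)) (U : ℍ → ℍ) (κ : ℂ), Filter.Tendsto U atImInfty atImInfty ∧
      (fun τ => g (Wb_2 τ)) ∣[j] γ = fun τ => κ ^ (-j) * (g ∣[j] γ') (U τ) := by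
  have hdet := Me_det γ
  obtain ⟨a, ha⟩ : ∃ a, γ 0 0 = a := ⟨_, rfl⟩
  obtain ⟨b, hb⟩ : ∃ b, γ 0 1 = b := ⟨_, rfl⟩
  obtain ⟨c, hc⟩ : ∃ c, γ 1 0 = c := ⟨_, rfl⟩
  obtain ⟨d, hd⟩ : ∃ d, γ 1 1 = d := ⟨_, rfl⟩
  rw [ha, hb, hc, hd] at hdet
  have hne : ∀ τ : ℍ, ((c : ℂ) * τ + d) ≠ 0 := by
    refine Wb_ne c d ?_
    rintro ⟨rfl, rfl⟩
    simp at hdet
  rcases Int.even_or_odd' c with ⟨c', hc' | hc'⟩
  · have h : a * d - (2 * b) * c' = 1 := by rw [hc'] at hdet; linarith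
    refine ⟨Wb_m a (2 * b) c' d h, Wb_2, 1, Wb_lim2, Me_eq g j _ _ _ _ ?_ ?_⟩
    · intro τ
      rw [Me_den, Me_den, hc, hd]
      show ((c : ℤ) : ℂ) * τ + d = 1 * ((c' : ℤ) * (2 * (τ : ℂ)) + (d : ℤ))
      rw [hc']
      push_cast
      ring
    · intro τ
      apply UpperHalfPlane.ext
      rw [Me_coe]
      show 2 * ((γ • τ : ℍ) : ℂ) = ((a : ℤ) * (2 * (τ : ℂ)) + (2 * b : ℤ)) /
        ((c' : ℤ) * (2 * (τ : ℂ)) + (d : ℤ))
      rw [Me_coe, ha, hb, hc, hd, hc']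
      push_cast
      rw [← mul_div_assoc]
      congr 1 <;> ring
  · rcases Int.even_or_odd' d with ⟨d', hd' | hd'⟩
    · have h : (2 * a) * d' - b * c = 1 := by rw [hd'] at hdet; linarith
      refine ⟨Wb_m (2 * a) b c d' h, Wb_h, 2, Wb_limh, Me_eq g j _ _ _ _ ?_ ?_⟩
      · intro τ
        rw [Me_den, Me_den, hc, hd]
        show ((c : ℤ) : ℂ) * τ + d = 2 * ((c : ℤ) * ((τ : ℂ) / 2) + (d' : ℤ))
        rw [hd']
        push_cast
        ring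
      · intro τ
        have h2 := hne τ
        have e2 : (c : ℂ) * ((τ : ℂ) / 2) + d' = (c * τ + d) / 2 := by
          rw [hd']
          push_cast
          ring
        have e3 : ((2 * a : ℤ) : ℂ) * ((τ : ℂ) / 2) + b = a * τ + b := by
          push_cast
          ring
        apply UpperHalfPlane.ext
        rw [Me_coe]
        show 2 * ((γ • τ : ℍ) : ℂ) = ((2 * a : ℤ) * ((τ : ℂ) / 2) + (b : ℤ)) /
          ((c : ℤ) * ((τ : ℂ) / 2) + (d' : ℤ))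
        rw [Me_coe, ha, hb, hc, hd, e2, e3]
        field_simp
    · have h : (2 * a) * (d' - c') - (b - a) * c = 1 := by
        rw [hd'] at hdet
        rw [hc'] at hdet ⊢
        linarith
      refine ⟨Wb_m (2 * a) (b - a) c (d' - c') h, Wb_k, 2, Wb_limk, Me_eq g j _ _ _ _ ?_ ?_⟩
      · intro τ
        rw [Me_den, Me_den, hc, hd]
        show ((c : ℤ) : ℂ) * τ + d = 2 * ((c : ℤ) * (((τ : ℂ) + 1) / 2) + (d' - c' : ℤ))
        rw [hd', hc']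
        push_cast
        ring
      · intro τ
        have h2 := hne τ
        have e2 : (c : ℂ) * (((τ : ℂ) + 1) / 2) + ((d' - c' : ℤ) : ℂ) = (c * τ + d) / 2 := by
          rw [hd', hc']
          push_cast
          ring
        have e3 : ((2 * a : ℤ) : ℂ) * (((τ : ℂ) + 1) / 2) + ((b - a : ℤ) : ℂ) = a * τ + b := by
          push_cast
          ring
        apply UpperHalfPlane.ext
        rw [Me_coe]
        show 2 * ((γ • τ : ℍ) : ℂ) = ((2 * a : ℤ) * (((τ : ℂ) + 1) / 2) + (b - a : ℤ)) /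
          ((c : ℤ) * (((τ : ℂ) + 1) / 2) + (d' - c' : ℤ))
        rw [Me_coe, ha, hb, hc, hd, e2, e3]
        field_simp

theorem Me_inv (g : ℍ → ℂ) (j : ℤ) (γ : Gamma0 2) (hγ : g ∣[j] (Me_phi γ) = g) :
    (fun τ => g (Wb_2 τ)) ∣[j] (γ : SL(2, ℤ)) = fun τ => g (Wb_2 τ) := by
  obtain ⟨k, hk⟩ := Me_two γ.2
  have e0 : (γ : SL(2, ℤ)) 1 0 / 2 = k := by
    rw [hk]; exact Int.mul_ediv_cancel_left _ (by norm_num)
  rw [Me_eq g j (γ : SL(2, ℤ)) (Me_phi γ) Wb_2 1 ?_ ?_, hγ, one_zpow]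
  · funext τ
    rw [one_mul]
  · intro τ
    rw [Me_den, Me_den]
    show (((γ : SL(2, ℤ)) 1 0 : ℤ) : ℂ) * τ + (((γ : SL(2, ℤ)) 1 1 : ℤ) : ℂ) =
      1 * ((((γ : SL(2, ℤ)) 1 0 / 2 : ℤ) : ℂ) * (2 * (τ : ℂ)) + (((γ : SL(2, ℤ)) 1 1 : ℤ) : ℂ))
    rw [e0, hk]
    push_cast
    ring
  · intro τ
    apply UpperHalfPlane.ext
    rw [Me_coe]
    show 2 * (((γ : SL(2, ℤ)) • τ : ℍ) : ℂ) =
      ((((γ : SL(2, ℤ)) 0 0 : ℤ) : ℂ) * (2 * (τ : ℂ)) + ((2 * (γ : SL(2, ℤ)) 0 1 : ℤ) : ℂ)) /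
      ((((γ : SL(2, ℤ)) 1 0 / 2 : ℤ) : ℂ) * (2 * (τ : ℂ)) + (((γ : SL(2, ℤ)) 1 1 : ℤ) : ℂ))
    rw [Me_coe, e0, hk]
    push_cast
    rw [← mul_div_assoc]
    congr 1 <;> ring

theorem Me_holo {g : ℍ → ℂ} (hg : MDifferentiable 𝓘(ℂ) 𝓘(ℂ) g) :
    MDifferentiable 𝓘(ℂ) 𝓘(ℂ) (fun τ => g (Wb_2 τ)) := by
  rw [UpperHalfPlane.mdifferentiable_iff] at hg ⊢
  have h1 : DifferentiableOn ℂ (fun z : ℂ => (g ∘ ofComplex) (2 * z)) {z : ℂ | 0 < z.im} := by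
    refine DifferentiableOn.comp (g := g ∘ ofComplex) (f := fun z : ℂ => 2 * z) hg (by fun_prop) ?_
    intro z hz
    have h2 : (2 * z).im = 2 * z.im := by simp
    show 0 < (2 * z).im
    rw [h2]
    have : 0 < z.im := hz
    linarith
  refine h1.congr fun z hz => ?_
  have hz' : 0 < z.im := hz
  have h3 : 0 < (2 * z).im := by
    have h2 : (2 * z).im = 2 * z.im := by simp
    rw [h2]
    linarith
  simp only [Function.comp]
  rw [ofComplex_apply_of_im_pos hz', ofComplex_apply_of_im_pos h3]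
  rfl

theorem exists_dbl {Γ : Subgroup SL(2, ℤ)} (hfin : Γ.FiniteIndex) (hT : ModularGroup.T ∈ Γ)
    {j : ℤ} {g : ℍ → ℂ} (hg : IsMF Γ j g) {G : ℂ⟦X⟧} (hG : QE g G) :
    ∃ (Γ2 : Subgroup SL(2, ℤ)) (g2 : ℍ → ℂ), Γ2.FiniteIndex ∧ ModularGroup.T ∈ Γ2 ∧
      IsMF Γ2 j g2 ∧ QE g2 (dbl ℂ G) := by
  refine ⟨(Γ.comap Me_phi).map (Gamma0 2).subtype, fun τ => g (Wb_2 τ), ?_, ?_, ⟨Me_holo hg.1, ?_, ?_⟩, ?_⟩
  · refine ⟨?_⟩
    rw [Subgroup.index_map_subtype]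
    have h1 := (Me_fin Me_phi Γ hfin).index_ne_zero
    have h2 := (inferInstance : (Gamma0 2).FiniteIndex).index_ne_zero
    exact mul_ne_zero h1 h2
  · rw [Subgroup.mem_map]
    have hT0 : ModularGroup.T ∈ Gamma0 2 := by
      rw [Gamma0_mem]
      simp [ModularGroup.T]
    refine ⟨⟨ModularGroup.T, hT0⟩, ?_, rfl⟩
    rw [Subgroup.mem_comap]
    have h1 : Me_phi ⟨ModularGroup.T, hT0⟩ = ModularGroup.T * ModularGroup.T := by
      apply Subtype.ext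
      rw [Matrix.SpecialLinearGroup.coe_mul]
      ext i k
      fin_cases i <;> fin_cases k <;> rfl
    rw [h1]
    exact Γ.mul_mem hT hT
  · intro γ hγ
    rw [Subgroup.mem_map] at hγ
    obtain ⟨x, hx, rfl⟩ := hγ
    exact Me_inv g j x (hg.2.1 _ hx)
  · intro γ
    obtain ⟨γ', U, κ, hU, h⟩ := Me_cusp g j γ
    rw [h]
    exact Me_bdd (hg.2.2 γ') hU _
  · intro τ
    refine Cv.dbl ?_
    have h1 := hG (Wb_2 τ)
    have h2 : Complex.exp (2 * Real.pi * Complex.I * ((Wb_2 τ : ℍ) : ℂ)) =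
        Complex.exp (2 * Real.pi * Complex.I * (τ : ℂ)) ^ 2 := by
      rw [← Complex.exp_nat_mul]
      congr 1
      show 2 * Real.pi * Complex.I * (2 * (τ : ℂ)) = _
      push_cast
      ring
    rw [h2] at h1
    exact h1

end Pool.Agent.H85.OU

end S_OU_Me

section S_OU_Mb

/-!
# Row MB (project OU): Serre derivative and q-expansion of the derivative

`D = Derivative.normalizedDerivOfComplex`, `serreDerivative` (Mathlib `NumberTheory/ModularForms/Derivative.lean`).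
* `bdd_D`: `f` holomorphic on `ℍ` and bounded (`≤ M`) for `im τ ≥ A`: for `im τ ≥ A + 1` Cauchy's estimate on the disc of radius `1` around `τ` gives `‖f'(τ)‖ ≤ M`
  (`Complex.norm_deriv_le_of_forall_mem_sphere_norm_le`); so `D f` is bounded at `i∞`.
* `IsMF.serre`: holomorphic: `serreDerivative_mdifferentiable`; invariance: `serreDerivative_slash_invariant`; bounded at cusps: `serreDerivative_slash_equivariant`, `f ∣[j] γ` is holomorphic and bounded at `i∞`, `bdd_D`,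
  and `E2` is bounded (`EisensteinSeries.isBoundedAtImInfty_E2`).
* `QE.D`: `f(τ) = Φ(q)`, `Φ(w) = ∑ F_n w^n` converges absolutely for `‖w‖ < 1` (every `0 < ‖w‖ < 1` is `exp(2π i τ)`), so `Φ` is holomorphic in the unit disc with `Φ'(w) = ∑ n F_n w^(n-1)` (absolutely convergent); chain rule:
  `D f(τ) = (2π i)⁻¹ (2π i q) Φ'(q) = ∑ n F_n q^n`; `coeff_Dq`.
* `QE_E2`: `EisensteinSeries.hasSum_qExpansion_E2`; absolute convergence as before.
-/

open PowerSeries UpperHalfPlane ModularForm MatrixGroups CongruenceSubgroup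
open scoped Manifold ArithmeticFunction.sigma

namespace Pool.Agent.H85.OU

open Pool.Agent.H85.OT

theorem bdd_D {f : ℍ → ℂ} (hf : MDifferentiable 𝓘(ℂ) 𝓘(ℂ) f) (hb : IsBoundedAtImInfty f) :
    IsBoundedAtImInfty (Derivative.normalizedDerivOfComplex f) := by
  rw [isBoundedAtImInfty_iff] at hb ⊢
  obtain ⟨M, A, hM⟩ := hb
  refine ⟨‖(2 * Real.pi * Complex.I : ℂ)⁻¹‖ * M, max A 0 + 2, fun z hz => ?_⟩
  have hd := (UpperHalfPlane.mdifferentiable_iff.1 hf)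
  have hA : A ≤ max A 0 := le_max_left _ _
  have h0 : 0 ≤ max A 0 := le_max_right _ _
  have hw : ∀ w ∈ Metric.closedBall (z : ℂ) 1, max A 0 + 1 ≤ w.im := by
    intro w hw
    rw [Metric.mem_closedBall, dist_eq_norm] at hw
    have h1 := (Complex.abs_im_le_norm (w - z)).trans hw
    rw [Complex.sub_im, abs_le] at h1
    have h2 : (z : ℂ).im = z.im := rfl
    rw [h2] at h1
    linarith [h1.1]
  have hsub : Metric.closedBall (z : ℂ) 1 ⊆ upperHalfPlaneSet := by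
    intro w hw'
    have := hw w hw'
    change 0 < w.im
    linarith
  have hcauchy := Complex.norm_deriv_le_of_forall_mem_sphere_norm_le (c := (z : ℂ)) (R := 1)
    (C := M) one_pos (hd.diffContOnCl_ball hsub) (by
      intro w hw'
      have h1 := hw w (Metric.sphere_subset_closedBall hw')
      have h2 : 0 < w.im := by linarith
      rw [Function.comp_apply, ofComplex_apply_of_im_pos h2]
      refine hM _ ?_
      change A ≤ w.im
      linarith)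
  rw [div_one] at hcauchy
  unfold Derivative.normalizedDerivOfComplex
  rw [norm_mul]
  exact mul_le_mul_of_nonneg_left hcauchy (norm_nonneg _)

theorem IsMF.serre {Γ : Subgroup SL(2, ℤ)} {j : ℤ} {f : ℍ → ℂ} (hf : IsMF Γ j f) :
    IsMF Γ (j + 2) (Derivative.serreDerivative j f) := by
  obtain ⟨h1, h2, h3⟩ := hf
  refine ⟨Derivative.serreDerivative_mdifferentiable _ h1,
    fun γ hγ => Derivative.serreDerivative_slash_invariant h1 (h2 γ hγ), fun γ => ?_⟩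
  rw [Derivative.serreDerivative_slash_equivariant h1]
  have h4 : MDifferentiable 𝓘(ℂ) 𝓘(ℂ) (f ∣[j] γ) := MDifferentiable.slash h1 j _
  have h5 := bdd_D h4 (h3 γ)
  have h6 : Derivative.serreDerivative j (f ∣[j] γ) =
      Derivative.normalizedDerivOfComplex (f ∣[j] γ) +
        (-((j : ℂ) * 12⁻¹)) • (EisensteinSeries.E2 * (f ∣[j] γ)) := by
    funext z
    simp only [Derivative.serreDerivative_apply, Pi.add_apply, Pi.smul_apply, Pi.mul_apply,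
      smul_eq_mul]
    ring
  rw [h6]
  exact h5.add (Filter.BoundedAtFilter.smul _
    (EisensteinSeries.isBoundedAtImInfty_E2.mul (h3 γ)))

theorem Mb_Cv {F : ℂ⟦X⟧} {q s : ℂ} (h : HasSum (fun n => PowerSeries.coeff n F * q ^ n) s) :
    Cv F q s := ⟨h.summable.norm, h⟩

theorem QE.D {f : ℍ → ℂ} {F : ℂ⟦X⟧} (hf : QE f F) :
    QE (Derivative.normalizedDerivOfComplex f) (Dq ℂ F) := by
  intro τ
  apply Mb_Cv
  obtain ⟨y, hy⟩ : ∃ y : ℝ, y = (τ : ℂ).im / 2 := ⟨_, rfl⟩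
  have hτ : 0 < (τ : ℂ).im := τ.im_pos
  have hy0 : 0 < y := by rw [hy]; positivity
  -- the open set
  obtain ⟨S, hS⟩ : ∃ S : Set ℂ, S = {w : ℂ | y < w.im} := ⟨_, rfl⟩
  have hSo : IsOpen S := by
    rw [hS]
    exact isOpen_lt continuous_const Complex.continuous_im
  have hτS : (τ : ℂ) ∈ S := by
    rw [hS]
    change y < (τ : ℂ).im
    rw [hy]
    linarith
  obtain ⟨τ', hτ'⟩ : ∃ τ' : ℍ, (τ' : ℂ) = y * Complex.I := by
    refine ⟨⟨y * Complex.I, ?_⟩, rfl⟩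
    simp [hy0]
  have hnorm : ∀ w : ℂ, ‖Complex.exp (2 * Real.pi * Complex.I * w)‖ =
      Real.exp (-(2 * Real.pi * w.im)) := by
    intro w
    rw [Complex.norm_exp]
    congr 1
    simp [Complex.mul_re, Complex.mul_im]
  have hu : Summable (fun n => ‖PowerSeries.coeff n F‖ * Real.exp (-(2 * Real.pi * y)) ^ n) := by
    have h1 := (hf τ').1
    refine h1.congr fun n => ?_
    rw [norm_mul, norm_pow, hnorm, hτ']
    simp
  have hdiff : ∀ n : ℕ, ∀ w : ℂ, HasDerivAt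
      (fun w : ℂ => PowerSeries.coeff n F * Complex.exp (2 * Real.pi * Complex.I * w) ^ n)
      (2 * Real.pi * Complex.I * (PowerSeries.coeff n (Dq ℂ F) *
        Complex.exp (2 * Real.pi * Complex.I * w) ^ n)) w := by
    intro n w
    have h1 : HasDerivAt (fun w : ℂ => Complex.exp (2 * Real.pi * Complex.I * w) ^ n)
        (Complex.exp (2 * Real.pi * Complex.I * w) ^ n * (n * (2 * Real.pi * Complex.I))) w := by
      have h2 : (fun w : ℂ => Complex.exp (2 * Real.pi * Complex.I * w) ^ n) =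
          fun w : ℂ => Complex.exp ((n * (2 * Real.pi * Complex.I)) * w) := by
        funext w
        rw [← Complex.exp_nat_mul]
        congr 1
        ring
      rw [h2]
      have h3 : Complex.exp (2 * Real.pi * Complex.I * w) ^ n =
          Complex.exp ((n * (2 * Real.pi * Complex.I)) * w) := congrFun h2 w
      rw [h3]
      have h4 := ((hasDerivAt_id w).const_mul (n * (2 * Real.pi * Complex.I) : ℂ)).cexp
      simpa using h4
    have h5 := h1.const_mul (PowerSeries.coeff n F)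
    refine h5.congr_deriv ?_
    rw [coeff_Dq]
    ring
  have hmain := Complex.hasSum_deriv_of_summable_norm
    (F := fun (n : ℕ) (w : ℂ) =>
      PowerSeries.coeff n F * Complex.exp (2 * Real.pi * Complex.I * w) ^ n) hu
    (fun n => fun w _ => (hdiff n w).differentiableAt.differentiableWithinAt) hSo
    (by
      intro n w hw
      rw [norm_mul, norm_pow, hnorm]
      have hw' : y < w.im := by rw [hS] at hw; exact hw
      gcongr) hτS
  have hder : deriv (fun w : ℂ => ∑' n : ℕ,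
      PowerSeries.coeff n F * Complex.exp (2 * Real.pi * Complex.I * w) ^ n) (τ : ℂ) =
      deriv (f ∘ ofComplex) (τ : ℂ) := by
    apply Filter.EventuallyEq.deriv_eq
    filter_upwards [hSo.mem_nhds hτS] with w hw
    have hw' : 0 < w.im := by
      rw [hS] at hw
      exact hy0.trans hw
    rw [Function.comp_apply, ofComplex_apply_of_im_pos hw']
    exact (hf ⟨w, hw'⟩).2.tsum_eq
  rw [hder] at hmain
  have h7 := hmain.mul_left (2 * Real.pi * Complex.I : ℂ)⁻¹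
  have h8 : (fun n : ℕ => (2 * Real.pi * Complex.I : ℂ)⁻¹ * deriv (fun w : ℂ =>
      PowerSeries.coeff n F * Complex.exp (2 * Real.pi * Complex.I * w) ^ n) (τ : ℂ)) =
      fun n => PowerSeries.coeff n (Dq ℂ F) * Complex.exp (2 * Real.pi * Complex.I * τ) ^ n := by
    funext n
    rw [(hdiff n τ).deriv, inv_mul_cancel_left₀ Complex.two_pi_I_ne_zero]
  rw [h8] at h7
  exact h7

/-- q-expansion of `E₂` -/
noncomputable def E2s : ℂ⟦X⟧ :=
  PowerSeries.mk fun m => if m = 0 then 1 else -24 * (σ 1 m : ℂ)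

theorem QE_E2 : QE EisensteinSeries.E2 E2s := by
  intro τ
  apply Mb_Cv
  have h := EisensteinSeries.hasSum_qExpansion_E2 (z := τ)
  refine h.congr_fun ?_
  intro n
  rw [E2s, PowerSeries.coeff_mk, smul_eq_mul]

/-- q-expansion of the Serre derivative -/
theorem QE.serre {f : ℍ → ℂ} {F : ℂ⟦X⟧} (hf : QE f F) (j : ℤ) :
    QE (Derivative.serreDerivative j f) (Dq ℂ F - PowerSeries.C ((j : ℂ) / 12) * E2s * F) := by
  intro τ
  have a1 : Cv (Dq ℂ F) (Complex.exp (2 * Real.pi * Complex.I * (τ : ℂ)))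
      (Derivative.normalizedDerivOfComplex f τ) := QE.D hf τ
  have a2 : Cv E2s (Complex.exp (2 * Real.pi * Complex.I * (τ : ℂ)))
      (EisensteinSeries.E2 τ) := QE_E2 τ
  have a3 := (a2.smul ((j : ℂ) / 12)).mul (hf τ)
  have a4 := a1.add (a3.smul (-1))
  have h1 : Cv (Dq ℂ F - PowerSeries.C ((j : ℂ) / 12) * E2s * F)
      (Complex.exp (2 * Real.pi * Complex.I * (τ : ℂ)))
      (Derivative.normalizedDerivOfComplex f τ - (j : ℂ) / 12 * EisensteinSeries.E2 τ * f τ) := by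
    have e : Dq ℂ F + PowerSeries.C (-1 : ℂ) * (PowerSeries.C ((j : ℂ) / 12) * E2s * F) =
        Dq ℂ F - PowerSeries.C ((j : ℂ) / 12) * E2s * F := by
      rw [map_neg, map_one]
      ring
    have e2 : Derivative.normalizedDerivOfComplex f τ +
        (-1) * ((j : ℂ) / 12 * EisensteinSeries.E2 τ * f τ) =
        Derivative.normalizedDerivOfComplex f τ - (j : ℂ) / 12 * EisensteinSeries.E2 τ * f τ := by
      ring
    rw [← e, ← e2]
    exact a4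
  rw [Derivative.serreDerivative_apply]
  have h2 : (j : ℂ) * 12⁻¹ * EisensteinSeries.E2 τ * f τ =
      (j : ℂ) / 12 * EisensteinSeries.E2 τ * f τ := by
    rw [div_eq_mul_inv]
  rw [h2]
  exact h1

end Pool.Agent.H85.OU

end S_OU_Mb

section S_OU_Md

/-!
# Row MD (project OU): the form `u = θ(2τ)²` of weight one, and forms on `Γ₀(4)`

* `QE_uu`: `cv_th3` at `2τ` (`exp(π i 2τ) = q`), squared; `U ℂ` is the image of `th3²`.
* `isMF_ga`, `isMF_gb`: from `exists_ga`, `exists_gb` (`OT/Wb.lean`): `TA(2τ) = θ(2τ)^4 = uu²`; q-expansions `tR ℂ (th3^4)`, `tR ℂ (th4^4)` (`cv_th3`, `cv_th4`, `Cv.pow`).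
* `exists_Gu`: for `γ ∈ Γ₀(4)`: `(uu ∣[1] γ)² = uu² ∣[2] γ = uu²` (`mul_slash_SL2`), so `(uu∣γ - uu)(uu∣γ + uu) = 0`; both factors are holomorphic on the connected set `ℍ`, so one of them vanishes identically (identity theorem,
  e.g. `AnalyticOnNhd.eq_zero_or_eq_zero_of_mul_eq_zero` for the functions on `{im > 0}`): `uu ∣[1] γ = ± uu`.  `Γu = {γ ∈ Γ₀(4) : uu ∣[1] γ = uu}` is a subgroup; if `γ, γ' ∈ Γ₀(4) \ Γu` then
  `uu∣γγ' = uu`, so `Γu` has index `≤ 2` in `Γ₀(4)`, hence finite index (`Gamma0 4` has finite index).  `T ∈ Γu`: `θ(2τ+2) = θ(2τ)` (`jacobiTheta_two_add`).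
  Bounded: `‖uu∣γ‖² = ‖uu²∣γ‖` is bounded.  Holomorphic: `differentiableAt_jacobiTheta`.
* `form_G04`: `IsMF.exists_modularForm` gives a modular form on `G04`; `isFormR_of_qExpansion` (`OT/We.lean`) with `R = ℂ`, `ρ = RingHom.id ℂ`: `M F = ∑ c_j (th3^4)^(w-j) (th4^4)^j`; in `ℂ⟦X⟧`
  `tR (th3^4) = U²`, `tR (th4^4) = V² = U² x² = U² (1 - λ)`; so `F = U^(2w) ∑ (c_j/M)(1-λ)^j`.  (`qExpansion 1 f = F` by `QE.unique` and `exists_QE`.)
-/

open PowerSeries UpperHalfPlane ModularForm MatrixGroups CongruenceSubgroup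
open scoped Manifold

namespace Pool.Agent.H85.OU

open Pool.Agent.H85.OT

theorem QE_uu : QE uu (U ℂ) := by
  intro τ
  have h0 : 0 < (2 * (τ : ℂ)).im := by
    have : (2 * (τ : ℂ)).im = 2 * τ.im := by simp
    rw [this]
    have := τ.im_pos
    linarith
  have h1 := (cv_th3 _ h0).pow 2
  have h2 : Complex.exp (Real.pi * Complex.I * (2 * (τ : ℂ))) = Complex.exp (2 * Real.pi * Complex.I * (τ : ℂ)) := by
    congr 1
    ring
  rw [h2] at h1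
  have h3 : U ℂ = (PowerSeries.map (Int.castRingHom ℂ) th3) ^ 2 := by
    unfold U
    rw [map_pow]
  rw [h3]
  exact h1

theorem Md_tR3 : tR ℂ (th3 ^ 4) = U ℂ ^ 2 := by
  unfold U tR
  rw [← map_pow, ← pow_mul]

theorem Md_tR4 : tR ℂ (th4 ^ 4) = V ℂ ^ 2 := by
  unfold V tR
  rw [← map_pow, ← pow_mul]

theorem isMF_ga : IsMF (Gamma0 4) 2 (uu ^ 2) ∧ QE (uu ^ 2) (tR ℂ (th3 ^ 4)) := by
  obtain ⟨g, hg, -⟩ := exists_ga
  have h1 : (g : ℍ → ℂ) = uu ^ 2 := by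
    funext τ
    rw [hg]
    simp only [TA, uu, Pi.pow_apply]
    rw [← pow_mul]
  refine ⟨?_, ?_⟩
  · rw [← h1]
    exact IsMF.of_modularForm g
  · rw [Md_tR3]
    exact QE_uu.pow 2

theorem Md_T : ModularGroup.T ∈ Gamma0 4 := by
  rw [Gamma0_mem]
  simp [ModularGroup.coe_T]

theorem exists_gb' : ∃ b : ℍ → ℂ, IsMF (Gamma0 4) 2 b ∧ QE b (tR ℂ (th4 ^ 4)) := by
  obtain ⟨g, -, hq⟩ := exists_gb
  have h1 : IsMF (Gamma0 4) 2 (g : ℍ → ℂ) := IsMF.of_modularForm g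
  refine ⟨g, h1, ?_⟩
  have h2 := h1.exists_QE Md_T
  rwa [hq] at h2

theorem Md_hol : MDifferentiable 𝓘(ℂ) 𝓘(ℂ) uu := by
  rw [UpperHalfPlane.mdifferentiable_iff]
  refine .congr (f := fun z => jacobiTheta (2 * z) ^ 2) (fun z hz => ?_) fun z hz => ?_
  · have h1 : 0 < (2 * z).im := by
      have : (2 * z).im = 2 * z.im := by simp
      rw [this]
      have hz' : 0 < z.im := hz
      linarith
    exact ((DifferentiableAt.comp (f := fun z : ℂ => 2 * z) (g := jacobiTheta) z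
      (differentiableAt_jacobiTheta h1) (by fun_prop)).pow 2).differentiableWithinAt
  · simp [uu, ofComplex_apply_of_im_pos hz]

theorem Md_sq (γ : SL(2, ℤ)) : (uu ^ 2) ∣[(2 : ℤ)] γ = (uu ∣[(1 : ℤ)] γ) * (uu ∣[(1 : ℤ)] γ) := by
  have h1 := ModularForm.mul_slash_SL2 1 1 γ uu uu
  rw [show (1 : ℤ) + 1 = 2 from rfl, ← pow_two uu] at h1
  exact h1

theorem Md_pm (γ : SL(2, ℤ)) (hγ : γ ∈ Gamma0 4) :
    uu ∣[(1 : ℤ)] γ = uu ∨ uu ∣[(1 : ℤ)] γ = -uu := by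
  have h1 := isMF_ga.1.2.1 γ hγ
  rw [Md_sq] at h1
  have h2 : MDifferentiable 𝓘(ℂ) 𝓘(ℂ) (uu ∣[(1 : ℤ)] γ) := by
    rw [ModularForm.SL_slash]
    exact MDifferentiable.slash Md_hol 1 _
  have h3 : (uu ∣[(1 : ℤ)] γ - uu) * (uu ∣[(1 : ℤ)] γ + uu) = 0 := by
    have h4 : (uu ∣[(1 : ℤ)] γ - uu) * (uu ∣[(1 : ℤ)] γ + uu)
        = (uu ∣[(1 : ℤ)] γ) * (uu ∣[(1 : ℤ)] γ) - uu ^ 2 := by ring
    rw [h4, h1, sub_self]
  rcases (UpperHalfPlane.mul_eq_zero_iff (h2.sub Md_hol) (h2.add Md_hol)).1 h3 with h | h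
  · exact Or.inl (sub_eq_zero.1 h)
  · exact Or.inr (eq_neg_of_add_eq_zero_left h)

/-- the sign character of `uu` -/
noncomputable def Md_chi : (Gamma0 4) →* ℤˣ where
  toFun γ := by
    classical
    exact if uu ∣[(1 : ℤ)] (γ : SL(2, ℤ)) = uu then 1 else -1
  map_one' := by
    classical
    rw [if_pos]
    rw [Subgroup.coe_one, SlashAction.slash_one]
  map_mul' := by
    classical
    intro γ γ'
    have e : uu ∣[(1 : ℤ)] ((γ * γ' : Gamma0 4) : SL(2, ℤ))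
        = (uu ∣[(1 : ℤ)] (γ : SL(2, ℤ))) ∣[(1 : ℤ)] (γ' : SL(2, ℤ)) := by
      rw [Subgroup.coe_mul, SlashAction.slash_mul]
    rw [e]
    by_cases h1 : uu ∣[(1 : ℤ)] (γ : SL(2, ℤ)) = uu
    · rw [h1, if_pos rfl, one_mul]
    · have h2 : uu ∣[(1 : ℤ)] (γ : SL(2, ℤ)) = -uu := (Md_pm _ γ.2).resolve_left h1
      have h3 : uu ≠ -uu := fun h => h1 (h2.trans h.symm)
      rw [if_neg h1, h2, SlashAction.neg_slash]
      by_cases h4 : uu ∣[(1 : ℤ)] (γ' : SL(2, ℤ)) = uu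
      · rw [h4, if_neg (fun h => h3 h.symm), if_pos rfl, mul_one]
      · have h5 : uu ∣[(1 : ℤ)] (γ' : SL(2, ℤ)) = -uu := (Md_pm _ γ'.2).resolve_left h4
        rw [if_neg h4, h5, neg_neg, if_pos rfl]
        rfl

theorem Md_bdd (γ : SL(2, ℤ)) : IsBoundedAtImInfty (uu ∣[(1 : ℤ)] γ) := by
  have h1 := isMF_ga.1.2.2 γ
  rw [Md_sq, isBoundedAtImInfty_iff] at h1
  rw [isBoundedAtImInfty_iff]
  obtain ⟨B, A, h⟩ := h1
  refine ⟨B + 1, A, fun z hz => ?_⟩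
  have h2 := h z hz
  rw [Pi.mul_apply, norm_mul] at h2
  have h3 := norm_nonneg ((uu ∣[(1 : ℤ)] γ) z)
  nlinarith

theorem exists_Gu : ∃ Γu : Subgroup SL(2, ℤ), Γu.FiniteIndex ∧ Γu ≤ Gamma0 4 ∧
    ModularGroup.T ∈ Γu ∧ IsMF Γu 1 uu := by
  refine ⟨(Md_chi.ker).map (Gamma0 4).subtype, ?_, Subgroup.map_subtype_le _, ?_, ?_⟩
  · have h1 : ((Md_chi.ker).map (Gamma0 4).subtype).relIndex (Gamma0 4) ≠ 0 := by
      rw [Subgroup.relIndex, ← Subgroup.comap_subtype, Subgroup.comap_map_eq_self_of_injective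
        (Subgroup.subtype_injective _)]
      exact Subgroup.FiniteIndex.index_ne_zero
    have h2 : (Gamma0 4).index ≠ 0 := Subgroup.FiniteIndex.index_ne_zero
    refine ⟨?_⟩
    rw [← Subgroup.relIndex_mul_index (Subgroup.map_subtype_le Md_chi.ker)]
    exact Nat.mul_ne_zero h1 h2
  · refine Subgroup.mem_map.2 ⟨⟨ModularGroup.T, Md_T⟩, ?_, rfl⟩
    rw [MonoidHom.mem_ker]
    have h1 : uu ∣[(1 : ℤ)] ModularGroup.T = uu := by
      funext τ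
      rw [ModularForm.SL_slash_apply]
      have h2 : ((ModularGroup.T • τ : ℍ) : ℂ) = 1 + τ := by
        rw [modular_T_smul]
        simp
      have h3 : denom ModularGroup.T τ = 1 := by
        simp [denom, ModularGroup.coe_T]
      rw [h3, one_zpow, mul_one]
      unfold uu
      rw [h2, show (2 : ℂ) * (1 + τ) = 2 + 2 * τ by ring, jacobiTheta_two_add]
    classical
    exact if_pos h1
  · refine ⟨Md_hol, ?_, Md_bdd⟩
    intro γ hγ
    obtain ⟨γ', h1, rfl⟩ := Subgroup.mem_map.1 hγ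
    rw [MonoidHom.mem_ker] at h1
    by_contra hcon
    have h2 : Md_chi γ' = -1 := by
      classical
      exact if_neg hcon
    rw [h2] at h1
    exact absurd h1 (by decide)

theorem form_G04 {w : ℕ} {f : ℍ → ℂ} {F : ℂ⟦X⟧} (hf : IsMF (Gamma0 4) ((2 * w : ℕ) : ℤ) f)
    (hF : QE f F) :
    ∃ P : Polynomial ℂ, P.natDegree ≤ w ∧ F = U ℂ ^ (2 * w) * evl ℂ P := by
  obtain ⟨g, hg⟩ := hf.exists_modularForm
  have h1 : qExpansion 1 (g : ℍ → ℂ) = F := by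
    rw [hg]
    exact (hf.exists_QE Md_T).unique hF
  obtain ⟨M, c, hM, hc⟩ := isFormR_of_qExpansion ℂ (RingHom.id ℂ) Function.injective_id w g F
    (by rw [h1, PowerSeries.map_id]; rfl)
  have hM' : (M : ℂ) ≠ 0 := by exact_mod_cast hM
  have hV : V ℂ = U ℂ * xx ℂ := by
    unfold xx
    rw [mul_comm (V ℂ), ← mul_assoc, U_mul_inv, one_mul]
  obtain ⟨P, hP⟩ : ∃ P : Polynomial ℂ, P = ∑ j ∈ Finset.range (w + 1),
      Polynomial.C (c j / M) * (1 - Polynomial.X) ^ j := ⟨_, rfl⟩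
  refine ⟨P, ?_, ?_⟩
  · rw [hP]
    refine Polynomial.natDegree_sum_le_of_forall_le _ _ fun j hj => ?_
    have hj' : j ≤ w := by
      have := Finset.mem_range.1 hj
      omega
    refine (Polynomial.natDegree_C_mul_le _ _).trans ?_
    refine (Polynomial.natDegree_pow_le).trans ?_
    have h2 : (1 - Polynomial.X : Polynomial ℂ).natDegree ≤ 1 := by
      refine (Polynomial.natDegree_sub_le _ _).trans ?_
      simp
    calc j * (1 - Polynomial.X : Polynomial ℂ).natDegree ≤ j * 1 := Nat.mul_le_mul_left j h2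
      _ ≤ w := by rw [mul_one]; exact hj'
  · have hMC : (PowerSeries.C (M : ℂ) : ℂ⟦X⟧) ≠ 0 := by
      intro h
      have h2 := congrArg PowerSeries.constantCoeff h
      rw [PowerSeries.constantCoeff_C, map_zero] at h2
      exact hM' h2
    apply mul_left_cancel₀ hMC
    rw [hc, hP, map_sum, Finset.mul_sum, Finset.mul_sum]
    refine Finset.sum_congr rfl fun j hj => ?_
    have hj' : j ≤ w := by
      have := Finset.mem_range.1 hj
      omega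
    rw [Md_tR3, Md_tR4, hV, map_mul, Polynomial.aeval_C, map_pow, map_sub, map_one, Polynomial.aeval_X]
    have h2 : (1 - lam ℂ : ℂ⟦X⟧) = xx ℂ ^ 2 := by unfold lam; ring
    rw [h2]
    have h3 : (PowerSeries.C (c j) : ℂ⟦X⟧) = PowerSeries.C (M : ℂ) * algebraMap ℂ ℂ⟦X⟧ (c j / M) := by
      have h4 : (algebraMap ℂ ℂ⟦X⟧ (c j / M)) = PowerSeries.C (c j / M) := rfl
      rw [h4, ← map_mul, mul_div_cancel₀ _ hM']
    have h5 : (U ℂ ^ 2) ^ (w - j) * ((U ℂ * xx ℂ) ^ 2) ^ j = U ℂ ^ (2 * w) * (xx ℂ ^ 2) ^ j := by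
      obtain ⟨k, rfl⟩ : ∃ k, w = j + k := ⟨w - j, by omega⟩
      rw [Nat.add_sub_cancel_left]
      ring
    rw [h3, mul_assoc (PowerSeries.C (M : ℂ) * _), h5]
    ring

end Pool.Agent.H85.OU

end S_OU_Md

section S_OU_Mf

/-!
# Row MF (project OU): `12 ε = E₂ + 4a - 5b`

`a = tR ℂ (th3^4) = U²`, `b = tR ℂ (th4^4)`, `ε = ee ℂ = D U / U`.
`uu²` is a form of weight `2` on `Γ₀(4)` with q-expansion `a` (`isMF_ga`), so its Serre derivative has weight `4` and q-expansion `D a - (1/6) E₂ a` (`IsMF.serre`, `QE.serre`); the form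
`φ = 6 ∂(uu²) - (4 uu² - 5 b) uu²` of weight `4` on `Γ₀(4)` has q-expansion `6 D a - E₂ a - (4a - 5b) a`, whose coefficients `0, 1, 2` vanish:
`a = 1 + 8q + 24q² + ..`, `b = 1 - 8q + 24q² - ..`, `E₂ = 1 - 24q - 72q² - ..` (`σ₁(1) = 1, σ₁(2) = 3`), `6 D a = 48 q + 288 q²`, `E₂ a = 1 - 16q - 240q²`, `(4a - 5b) a = (-1 + 72q - 24q²)(1 + 8q + 24q²) = -1 + 64q + 528q²`:
`-1 + 1 = 0`, `48 + 16 - 64 = 0`, `288 + 240 - 528 = 0`.  So `φ = 0` by `sturm4` with `w = 2` (`OT/Wd.lean`; `IsMF.exists_modularForm`).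
(`th3 = 1 + 2q + 2q⁴ + ..`: coefficients `0, 1, 2` of `th3` are `1, 2, 0`, of `th4` `1, -2, 0`.)
Hence `6 D a = E₂ a + (4a - 5b) a`; `D a = D(U²) = 2 ε U² = 2 ε a` (`Dq_U`), cancel `a ≠ 0`.
-/

open PowerSeries UpperHalfPlane ModularForm MatrixGroups CongruenceSubgroup
open scoped Manifold

namespace Pool.Agent.H85.OU

open Pool.Agent.H85.OT

theorem Mf_c2 {R : Type*} [CommRing R] (f g : R⟦X⟧) :
    PowerSeries.coeff 2 (f * g) = PowerSeries.coeff 0 f * PowerSeries.coeff 2 g +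
      PowerSeries.coeff 1 f * PowerSeries.coeff 1 g +
      PowerSeries.coeff 2 f * PowerSeries.coeff 0 g := by
  rw [PowerSeries.coeff_mul, Finset.Nat.sum_antidiagonal_eq_sum_range_succ_mk]
  simp only [Finset.sum_range_succ, Finset.sum_range_zero, zero_add]

theorem Mf_c1 {R : Type*} [CommRing R] (f g : R⟦X⟧) :
    PowerSeries.coeff 1 (f * g) = PowerSeries.coeff 0 f * PowerSeries.coeff 1 g +
      PowerSeries.coeff 1 f * PowerSeries.coeff 0 g := by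
  rw [PowerSeries.coeff_mul, Finset.Nat.sum_antidiagonal_eq_sum_range_succ_mk]
  simp only [Finset.sum_range_succ, Finset.sum_range_zero, zero_add]

theorem Mf_c0 {R : Type*} [CommRing R] (f g : R⟦X⟧) :
    PowerSeries.coeff 0 (f * g) = PowerSeries.coeff 0 f * PowerSeries.coeff 0 g := by
  rw [PowerSeries.coeff_mul, Finset.Nat.sum_antidiagonal_eq_sum_range_succ_mk]
  simp only [Finset.sum_range_succ, Finset.sum_range_zero, zero_add]

theorem Mf_th3 : PowerSeries.coeff 0 th3 = 1 ∧ PowerSeries.coeff 1 th3 = 2 ∧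
    PowerSeries.coeff 2 th3 = 0 := by
  refine ⟨?_, fld_d3, ?_⟩
  · rw [th3, PowerSeries.coeff_mk, if_pos rfl]
  · rw [th3, PowerSeries.coeff_mk, if_neg two_ne_zero, if_neg]
    rintro ⟨r, hr⟩
    rcases r with _ | _ | r
    · omega
    · omega
    · nlinarith

theorem Mf_th4 : PowerSeries.coeff 0 th4 = 1 ∧ PowerSeries.coeff 1 th4 = -2 ∧
    PowerSeries.coeff 2 th4 = 0 := by
  obtain ⟨h0, h1, h2⟩ := Mf_th3
  refine ⟨?_, fld_d4, ?_⟩
  · rw [th4, PowerSeries.coeff_mk, h0, pow_zero, one_mul]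
  · rw [th4, PowerSeries.coeff_mk, h2, mul_zero]

theorem Mf_pow4 (f : ℤ⟦X⟧) (c : ℤ) (h0 : PowerSeries.coeff 0 f = 1) (h1 : PowerSeries.coeff 1 f = c)
    (h2 : PowerSeries.coeff 2 f = 0) :
    PowerSeries.coeff 0 (tR ℂ (f ^ 4)) = 1 ∧ PowerSeries.coeff 1 (tR ℂ (f ^ 4)) = 4 * (c : ℂ) ∧
    PowerSeries.coeff 2 (tR ℂ (f ^ 4)) = 6 * (c : ℂ) ^ 2 := by
  have e : f ^ 4 = (f * f) * (f * f) := by ring
  have a0 : PowerSeries.coeff 0 (f * f) = 1 := by rw [Mf_c0, h0, mul_one]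
  have a1 : PowerSeries.coeff 1 (f * f) = 2 * c := by rw [Mf_c1, h0, h1]; ring
  have a2 : PowerSeries.coeff 2 (f * f) = c ^ 2 := by rw [Mf_c2, h0, h1, h2]; ring
  have b0 : PowerSeries.coeff 0 (f ^ 4) = 1 := by rw [e, Mf_c0, a0, mul_one]
  have b1 : PowerSeries.coeff 1 (f ^ 4) = 4 * c := by rw [e, Mf_c1, a0, a1]; ring
  have b2 : PowerSeries.coeff 2 (f ^ 4) = 6 * c ^ 2 := by rw [e, Mf_c2, a0, a1, a2]; ring
  have hc : ∀ n, PowerSeries.coeff n (tR ℂ (f ^ 4)) = ((PowerSeries.coeff n (f ^ 4) : ℤ) : ℂ) := by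
    intro n
    rw [tR, PowerSeries.coeff_map]
    rfl
  rw [hc, hc, hc, b0, b1, b2]
  refine ⟨by push_cast; rfl, by push_cast; rfl, by push_cast; rfl⟩

theorem Mf_E2 : PowerSeries.coeff 0 E2s = 1 ∧ PowerSeries.coeff 1 E2s = -24 ∧
    PowerSeries.coeff 2 E2s = -72 := by
  refine ⟨?_, ?_, ?_⟩
  · rw [E2s, PowerSeries.coeff_mk, if_pos rfl]
  · rw [E2s, PowerSeries.coeff_mk, if_neg one_ne_zero, ArithmeticFunction.sigma_one_apply,
      Nat.divisors_one, Finset.sum_singleton]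
    norm_num
  · rw [E2s, PowerSeries.coeff_mk, if_neg two_ne_zero, ArithmeticFunction.sigma_one_apply,
      Nat.Prime.sum_divisors Nat.prime_two]
    norm_num

theorem Mf_T : ModularGroup.T ∈ Gamma0 4 := by
  rw [Gamma0_mem]
  simp [ModularGroup.T]

theorem ee_E2 : 12 * ee ℂ = E2s + 4 * tR ℂ (th3 ^ 4) - 5 * tR ℂ (th4 ^ 4) := by
  obtain ⟨hM, hQ⟩ := isMF_ga
  obtain ⟨bb, hbM, hbQ⟩ := exists_gb'
  obtain ⟨a, ha⟩ : ∃ a, a = tR ℂ (th3 ^ 4) := ⟨_, rfl⟩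
  obtain ⟨b, hb⟩ : ∃ b, b = tR ℂ (th4 ^ 4) := ⟨_, rfl⟩
  obtain ⟨t0, t1, t2⟩ := Mf_th3
  obtain ⟨s0, s1, s2⟩ := Mf_th4
  obtain ⟨a0, a1, a2⟩ := Mf_pow4 th3 2 t0 t1 t2
  obtain ⟨b0, b1, b2⟩ := Mf_pow4 th4 (-2) s0 s1 s2
  obtain ⟨e0, e1, e2⟩ := Mf_E2
  rw [← ha] at hQ a0 a1 a2 ⊢
  rw [← hb] at hbQ b0 b1 b2 ⊢
  have hφM := ((hM.serre).smul 6).add (((hM.mul hM).smul (-4)).add ((hbM.mul hM).smul 5))
  have hφQ := ((hQ.serre 2).smul 6).add (((hQ.mul hQ).smul (-4)).add ((hbQ.mul hQ).smul 5))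
  obtain ⟨F, hF⟩ : ∃ F, F = PowerSeries.C 6 * (Dq ℂ a - PowerSeries.C (((2 : ℤ) : ℂ) / 12) * E2s * a) +
    (PowerSeries.C (-4) * (a * a) + PowerSeries.C 5 * (b * a)) := ⟨_, rfl⟩
  rw [← hF] at hφQ
  have hw : (2 : ℤ) + 2 = ((2 * 2 : ℕ) : ℤ) := by norm_num
  rw [hw] at hφM
  obtain ⟨g, hg⟩ := hφM.exists_modularForm
  have hqe := QE.unique (hφM.exists_QE Mf_T) hφQ
  have hg0 : g = 0 := by
    apply sturm4 2 g
    intro n hn
    rw [hg, hqe, hF]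
    have d : ∀ m, PowerSeries.coeff m (Dq ℂ a) = (m : ℂ) * PowerSeries.coeff m a :=
      fun m => coeff_Dq a m
    interval_cases n
    · simp only [map_add, map_sub, PowerSeries.coeff_C_mul, mul_assoc, Mf_c0, d, a0, b0, e0]
      push_cast
      norm_num
    · simp only [map_add, map_sub, PowerSeries.coeff_C_mul, mul_assoc, Mf_c1, d, a0, b0, e0, a1,
        b1, e1]
      push_cast
      norm_num
    · simp only [map_add, map_sub, PowerSeries.coeff_C_mul, mul_assoc, Mf_c2, d, a0, b0, e0, a1,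
        b1, e1, a2, b2, e2]
      push_cast
      norm_num
  have hF0 : F = 0 := by
    have h1 := QE.const 0
    rw [hg0] at hg
    have h2 : (fun _ : ℍ => (0 : ℂ)) = ((0 : ModularForm G04 ((2 * 2 : ℕ) : ℤ)) : ℍ → ℂ) := rfl
    rw [h2] at h1
    have h3 : QE ((0 : ModularForm G04 ((2 * 2 : ℕ) : ℤ)) : ℍ → ℂ) F := by
      rw [hg]
      exact hφQ
    have h4 := QE.unique h3 h1
    rw [h4]
    exact map_zero _
  have haU : a = U ℂ ^ 2 := by
    rw [ha, tR, U, ← map_pow]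
    congr 1
    ring
  have hDa : Dq ℂ a = 2 * ee ℂ * a := by
    rw [haU, sq, Derivation.leibniz, smul_eq_mul, Dq_U]
    ring
  have ha0 : a ≠ 0 := by
    rw [haU]
    exact pow_ne_zero 2 (U_ne_zero ℂ)
  have hc1 : (PowerSeries.C (6 : ℂ) : ℂ⟦X⟧) = 6 := map_ofNat _ 6
  have hc2 : (PowerSeries.C (5 : ℂ) : ℂ⟦X⟧) = 5 := map_ofNat _ 5
  have hc3 : (PowerSeries.C (-4 : ℂ) : ℂ⟦X⟧) = -4 := by
    rw [map_neg]
    congr 1
  have hc4 : 6 * (PowerSeries.C (((2 : ℤ) : ℂ) / 12) : ℂ⟦X⟧) = 1 := by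
    rw [← hc1, ← map_mul, ← map_one (PowerSeries.C (R := ℂ))]
    congr 1
    norm_num
  rw [hF, hc1, hc2, hc3, hDa] at hF0
  apply mul_right_cancel₀ ha0
  linear_combination hF0 + (E2s * a) * hc4

end Pool.Agent.H85.OU

end S_OU_Mf

section S_OU_Mg

/-!
# Row MG (project OU): integrality over `ℂ[λ]`

`Γ' ≤ Γ₀(4)` of finite index, `h` a form of weight `j` for `Γ'`, `H` its q-expansion.  Let `γ_1 = 1, .., γ_I` be representatives of the right cosets `Γ'\Γ₀(4)` (a finite set `ι` of cosets, `I ≥ 1`), `b_i = h² ∣[2j] γ_i`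
(independent of the representative).  For `γ ∈ Γ₀(4)`, `b_i ∣[2j] γ = b_(π i)` for a permutation `π` of `ι`.
* `e_m` = `m`-th elementary symmetric function of the `b_i` (`∑_{S ⊆ ι, |S| = m} ∏_{i ∈ S} b_i`) is `IsMF (Gamma0 4) (2jm)`: holomorphic; invariant: the slash action is multiplicative (`mul_slash_SL2`, weights add), so
  `e_m ∣[2jm] γ` is the elementary symmetric function of the permuted family; bounded: every `b_i∣γ` (`γ ∈ SL₂(ℤ)`) is bounded.  (Maybe convenient: induction on `m` and the set, or `Finset.esymm`/`Multiset.esymm`.)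
* `T ∈ Γ₀(4)`, so `e_m` has a q-expansion (`IsMF.exists_QE`), `= U^(2jm) P_m(λ)`, `deg P_m ≤ jm` (`form_G04` with `w = jm`).  `e_0 = 1`.
* Pointwise `∏_i (X - b_i(τ)) = ∑_m (-1)^m e_m(τ) X^(I-m)` (`Multiset.prod_X_sub_X_eq_sum_esymm`); at `X = h(τ)² = b_1(τ)`: `∑_m (-1)^m e_m (h²)^(I-m) = 0` as functions; q-expansions (`QE` calculus, `QE.unique` with the q-expansion `0` of `0`):
  `∑_m (-1)^m U^(2jm) P_m(λ) H^(2(I-m)) = 0`.  Multiply by `U^(-2jI)`: with `a = H U^(-j)`: `(a²)^I + ∑_{m ≥ 1} (-1)^m P_m(λ) (a²)^(I-m) = 0`.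
-/

open PowerSeries UpperHalfPlane ModularForm MatrixGroups CongruenceSubgroup
open scoped Manifold

namespace Pool.Agent.H85.OU

open Pool.Agent.H85.OT

/-- translates of `f` by the cosets -/
noncomputable def Mg_b (Γ' : Subgroup SL(2, ℤ)) (k : ℤ) (f : ℍ → ℂ)
    (q : ↥(Gamma0 4) ⧸ Γ'.subgroupOf (Gamma0 4)) : ℍ → ℂ :=
  f ∣[k] (((Quotient.out q : ↥(Gamma0 4)) : SL(2, ℤ))⁻¹)

theorem Mg_b_mk {Γ' : Subgroup SL(2, ℤ)} {k : ℤ} {f : ℍ → ℂ} (hf : ∀ γ ∈ Γ', f ∣[k] γ = f)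
    (g : ↥(Gamma0 4)) :
    Mg_b Γ' k f (QuotientGroup.mk g) = f ∣[k] ((g : SL(2, ℤ))⁻¹) := by
  have h1 : (QuotientGroup.mk (Quotient.out (QuotientGroup.mk g :
      ↥(Gamma0 4) ⧸ Γ'.subgroupOf (Gamma0 4))) : ↥(Gamma0 4) ⧸ Γ'.subgroupOf (Gamma0 4)) =
      QuotientGroup.mk g := QuotientGroup.out_eq' _
  rw [QuotientGroup.eq, Subgroup.mem_subgroupOf] at h1
  have h2 : ((g : SL(2, ℤ))⁻¹) =
      (((Quotient.out (QuotientGroup.mk g : ↥(Gamma0 4) ⧸ Γ'.subgroupOf (Gamma0 4)))⁻¹ * g :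
        ↥(Gamma0 4)) : SL(2, ℤ))⁻¹ *
      ((Quotient.out (QuotientGroup.mk g : ↥(Gamma0 4) ⧸ Γ'.subgroupOf (Gamma0 4)) :
        ↥(Gamma0 4)) : SL(2, ℤ))⁻¹ := by
    push_cast
    group
  rw [h2, SlashAction.slash_mul, hf _ (inv_mem h1)]
  rfl

theorem Mg_b_slash {Γ' : Subgroup SL(2, ℤ)} {k : ℤ} {f : ℍ → ℂ} (hf : ∀ γ ∈ Γ', f ∣[k] γ = f)
    (γ : ↥(Gamma0 4)) (q : ↥(Gamma0 4) ⧸ Γ'.subgroupOf (Gamma0 4)) :
    (Mg_b Γ' k f q) ∣[k] (γ : SL(2, ℤ)) = Mg_b Γ' k f (γ⁻¹ • q) := by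
  obtain ⟨r, rfl⟩ := QuotientGroup.mk_surjective q
  have h1 : (γ⁻¹ • (QuotientGroup.mk r : ↥(Gamma0 4) ⧸ Γ'.subgroupOf (Gamma0 4))) =
      QuotientGroup.mk (γ⁻¹ * r) := rfl
  rw [h1, Mg_b_mk hf, Mg_b_mk hf, ← SlashAction.slash_mul]
  congr 1
  push_cast
  group

theorem Mg_prod_slash {ι : Type*} (k : ℤ) (A : SL(2, ℤ)) (f : ι → ℍ → ℂ) (s : Finset ι) :
    (∏ i ∈ s, f i) ∣[k * (s.card : ℤ)] A = ∏ i ∈ s, (f i ∣[k] A) := by
  classical
  induction s using Finset.induction_on with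
  | empty =>
    rw [Finset.prod_empty, Finset.prod_empty, Finset.card_empty, Nat.cast_zero, mul_zero]
    exact is_invariant_one A
  | insert i s hi ih =>
    rw [Finset.prod_insert hi, Finset.prod_insert hi, Finset.card_insert_of_notMem hi, ← ih,
      ← mul_slash_SL2]
    congr 1
    push_cast
    ring

/-- elementary symmetric functions of the translates -/
noncomputable def Mg_e (Γ' : Subgroup SL(2, ℤ)) [Fintype (↥(Gamma0 4) ⧸ Γ'.subgroupOf (Gamma0 4))]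
    (k : ℤ) (f : ℍ → ℂ) (m : ℕ) : ℍ → ℂ :=
  ∑ S ∈ Finset.powersetCard m (Finset.univ : Finset (↥(Gamma0 4) ⧸ Γ'.subgroupOf (Gamma0 4))),
    ∏ i ∈ S, Mg_b Γ' k f i

theorem Mg_e_inv {Γ' : Subgroup SL(2, ℤ)}
    [Fintype (↥(Gamma0 4) ⧸ Γ'.subgroupOf (Gamma0 4))]
    {k : ℤ} {f : ℍ → ℂ} (hf : ∀ γ ∈ Γ', f ∣[k] γ = f) (m : ℕ) (γ : SL(2, ℤ))
    (hγ : γ ∈ Gamma0 4) : (Mg_e Γ' k f m) ∣[k * (m : ℤ)] γ = Mg_e Γ' k f m := by
  classical
  unfold Mg_e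
  rw [SlashAction.sum_slash]
  have h1 : ∀ S ∈ Finset.powersetCard m
      (Finset.univ : Finset (↥(Gamma0 4) ⧸ Γ'.subgroupOf (Gamma0 4))),
      (∏ i ∈ S, Mg_b Γ' k f i) ∣[k * (m : ℤ)] γ =
        ∏ i ∈ S.map (MulAction.toPerm ((⟨γ, hγ⟩ : ↥(Gamma0 4))⁻¹)).toEmbedding, Mg_b Γ' k f i := by
    intro S hS
    rw [Finset.mem_powersetCard] at hS
    rw [← hS.2, Mg_prod_slash, Finset.prod_map]
    refine Finset.prod_congr rfl fun i _ => ?_
    exact Mg_b_slash hf ⟨γ, hγ⟩ i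
  rw [Finset.sum_congr rfl h1]
  refine Finset.sum_bij (fun S _ =>
    S.map (MulAction.toPerm ((⟨γ, hγ⟩ : ↥(Gamma0 4))⁻¹)).toEmbedding) ?_ ?_ ?_ ?_
  · intro S hS
    rw [Finset.mem_powersetCard] at hS ⊢
    exact ⟨Finset.subset_univ _, by rw [Finset.card_map]; exact hS.2⟩
  · intro S _ S' _ h
    exact Finset.map_injective _ h
  · intro S hS
    rw [Finset.mem_powersetCard] at hS
    refine ⟨S.map (MulAction.toPerm ((⟨γ, hγ⟩ : ↥(Gamma0 4))⁻¹)).symm.toEmbedding, ?_, ?_⟩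
    · rw [Finset.mem_powersetCard]
      exact ⟨Finset.subset_univ _, by rw [Finset.card_map]; exact hS.2⟩
    · rw [Finset.map_map]
      ext x
      simp
  · intro S _
    rfl

theorem Mg_bot_slash {k : ℤ} {f : ℍ → ℂ} (hf : MDifferentiable 𝓘(ℂ) 𝓘(ℂ) f)
    (hb : ∀ γ : SL(2, ℤ), IsBoundedAtImInfty (f ∣[k] γ)) (γ : SL(2, ℤ)) :
    IsMF ⊥ k (f ∣[k] γ) := by
  refine ⟨?_, ?_, ?_⟩
  · rw [ModularForm.SL_slash]
    exact hf.slash k _
  · intro δ hδ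
    rw [Subgroup.mem_bot] at hδ
    rw [hδ, SlashAction.slash_one]
  · intro δ
    rw [← SlashAction.slash_mul]
    exact hb _

theorem Mg_bot_prod {ι : Type*} {k : ℤ} {b : ι → ℍ → ℂ} (hb : ∀ i, IsMF ⊥ k (b i))
    (s : Finset ι) : IsMF ⊥ (k * (s.card : ℤ)) (∏ i ∈ s, b i) := by
  classical
  induction s using Finset.induction_on with
  | empty =>
    rw [Finset.prod_empty, Finset.card_empty, Nat.cast_zero, mul_zero]
    exact IsMF.const ⊥ 1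
  | insert i s hi ih =>
    rw [Finset.prod_insert hi, Finset.card_insert_of_notMem hi]
    have h1 := (hb i).mul ih
    have h2 : k * ((s.card + 1 : ℕ) : ℤ) = k + k * (s.card : ℤ) := by
      push_cast
      ring
    rw [h2]
    exact h1

theorem Mg_bot_sum {κ : Type*} {k : ℤ} {b : κ → ℍ → ℂ} (s : Finset κ)
    (hb : ∀ i ∈ s, IsMF ⊥ k (b i)) : IsMF ⊥ k (∑ i ∈ s, b i) := by
  classical
  induction s using Finset.induction_on with
  | empty =>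
    rw [Finset.sum_empty]
    exact IsMF.zero ⊥ k
  | insert i s hi ih =>
    rw [Finset.sum_insert hi]
    exact (hb i (Finset.mem_insert_self i s)).add
      (ih fun j hj => hb j (Finset.mem_insert_of_mem hj))

theorem Mg_e_isMF {Γ' : Subgroup SL(2, ℤ)}
    [Fintype (↥(Gamma0 4) ⧸ Γ'.subgroupOf (Gamma0 4))]
    {k : ℤ} {f : ℍ → ℂ} (hf : IsMF Γ' k f) (m : ℕ) :
    IsMF (Gamma0 4) (k * (m : ℤ)) (Mg_e Γ' k f m) := by
  have h1 : IsMF ⊥ (k * (m : ℤ)) (Mg_e Γ' k f m) := by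
    unfold Mg_e
    refine Mg_bot_sum _ fun S hS => ?_
    rw [Finset.mem_powersetCard] at hS
    rw [← hS.2]
    exact Mg_bot_prod (fun i => Mg_bot_slash hf.1 hf.2.2 _) S
  exact ⟨h1.1, fun γ hγ => Mg_e_inv hf.2.1 m γ hγ, h1.2.2⟩

/-- the equation -/
theorem Mg_eqn {Γ' : Subgroup SL(2, ℤ)}
    [Fintype (↥(Gamma0 4) ⧸ Γ'.subgroupOf (Gamma0 4))]
    {k : ℤ} {f : ℍ → ℂ} (hf : ∀ γ ∈ Γ', f ∣[k] γ = f) :
    ∑ m ∈ Finset.range (Fintype.card (↥(Gamma0 4) ⧸ Γ'.subgroupOf (Gamma0 4)) + 1),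
      ((-1 : ℂ) ^ m • Mg_e Γ' k f m) *
        f ^ (Fintype.card (↥(Gamma0 4) ⧸ Γ'.subgroupOf (Gamma0 4)) - m) = 0 := by
  classical
  have h1 := Multiset.prod_X_sub_X_eq_sum_esymm
    ((Finset.univ : Finset (↥(Gamma0 4) ⧸ Γ'.subgroupOf (Gamma0 4))).val.map (Mg_b Γ' k f))
  have h2 := congrArg (Polynomial.eval f) h1
  rw [Multiset.map_map, Polynomial.eval_multiset_prod, Multiset.map_map,
    Polynomial.eval_finset_sum] at h2
  have h3 : (Multiset.map ((Polynomial.eval f) ∘ ((fun t => Polynomial.X - Polynomial.C t) ∘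
      (Mg_b Γ' k f))) (Finset.univ : Finset (↥(Gamma0 4) ⧸ Γ'.subgroupOf (Gamma0 4))).val).prod
      = 0 := by
    have h4 : (∏ q : ↥(Gamma0 4) ⧸ Γ'.subgroupOf (Gamma0 4), (f - Mg_b Γ' k f q)) = 0 := by
      apply Finset.prod_eq_zero (Finset.mem_univ (QuotientGroup.mk 1))
      rw [Mg_b_mk hf, Subgroup.coe_one, inv_one, SlashAction.slash_one, sub_self]
    rw [← h4]
    show Multiset.prod _ = Multiset.prod _
    congr 1
    refine Multiset.map_congr rfl fun q _ => ?_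
    simp
  rw [h3] at h2
  rw [h2]
  rw [Multiset.card_map, Finset.card_val, Finset.card_univ]
  refine Finset.sum_congr rfl fun m _ => ?_
  rw [Finset.esymm_map_val]
  simp only [Polynomial.eval_mul, Polynomial.eval_pow, Polynomial.eval_neg, Polynomial.eval_one,
    Polynomial.eval_C, Polynomial.eval_X]
  unfold Mg_e
  rw [← mul_assoc]
  congr 1

theorem Mg_QE_sum {κ : Type*} (s : Finset κ) {b : κ → ℍ → ℂ} {B : κ → ℂ⟦X⟧}
    (hb : ∀ i ∈ s, QE (b i) (B i)) : QE (∑ i ∈ s, b i) (∑ i ∈ s, B i) := by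
  classical
  induction s using Finset.induction_on with
  | empty =>
    rw [Finset.sum_empty, Finset.sum_empty]
    have h := QE.const 0
    rw [map_zero] at h
    exact h
  | insert i s hi ih =>
    rw [Finset.sum_insert hi, Finset.sum_insert hi]
    exact (hb i (Finset.mem_insert_self i s)).add
      (ih fun j hj => hb j (Finset.mem_insert_of_mem hj))

theorem sq_int (Γ' : Subgroup SL(2, ℤ)) (hfin : Γ'.FiniteIndex) (hle : Γ' ≤ Gamma0 4)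
    (hT : ModularGroup.T ∈ Γ') :
    ∃ I : ℕ, 1 ≤ I ∧ ∀ (j : ℕ) (h : ℍ → ℂ) (H : ℂ⟦X⟧), IsMF Γ' (j : ℤ) h → QE h H →
      ∃ c : ℕ → Polynomial ℂ, (∀ m, (c m).natDegree ≤ j * m) ∧
        ((H * (U ℂ)⁻¹ ^ j) ^ 2) ^ I + ∑ m ∈ Finset.Icc 1 I,
          evl ℂ (c m) * ((H * (U ℂ)⁻¹ ^ j) ^ 2) ^ (I - m) = 0 := by
  classical
  haveI := hfin
  haveI : (Γ'.subgroupOf (Gamma0 4)).FiniteIndex := inferInstance
  letI : Fintype (↥(Gamma0 4) ⧸ Γ'.subgroupOf (Gamma0 4)) := Fintype.ofFinite _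
  refine ⟨Fintype.card (↥(Gamma0 4) ⧸ Γ'.subgroupOf (Gamma0 4)), Fintype.card_pos, ?_⟩
  intro j h H hh hH
  set I := Fintype.card (↥(Gamma0 4) ⧸ Γ'.subgroupOf (Gamma0 4)) with hI
  have hf : IsMF Γ' ((j : ℤ) * ((2 : ℕ) : ℤ)) (h ^ 2) := hh.pow 2
  have hF : QE (h ^ 2) (H ^ 2) := hH.pow 2
  -- the elementary symmetric functions
  have he : ∀ m, ∃ P : Polynomial ℂ, P.natDegree ≤ j * m ∧
      QE (Mg_e Γ' ((j : ℤ) * ((2 : ℕ) : ℤ)) (h ^ 2) m) (U ℂ ^ (2 * (j * m)) * evl ℂ P) := by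
    intro m
    have h1 := Mg_e_isMF hf m
    have h2 : (j : ℤ) * ((2 : ℕ) : ℤ) * (m : ℤ) = ((2 * (j * m) : ℕ) : ℤ) := by
      push_cast
      ring
    rw [h2] at h1
    have h3 := h1.exists_QE (hle hT)
    obtain ⟨P, hP, hP2⟩ := form_G04 h1 h3
    refine ⟨P, hP, ?_⟩
    rw [← hP2]
    exact h3
  choose P hP hPe using he
  have hQ := Mg_QE_sum (Finset.range (I + 1))
    (b := fun m => ((-1 : ℂ) ^ m • Mg_e Γ' ((j : ℤ) * ((2 : ℕ) : ℤ)) (h ^ 2) m) *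
      (h ^ 2) ^ (I - m))
    (B := fun m => (PowerSeries.C ((-1 : ℂ) ^ m) * (U ℂ ^ (2 * (j * m)) * evl ℂ (P m))) *
      (H ^ 2) ^ (I - m)) (fun m _ => ((hPe m).smul _).mul (hF.pow _))
  rw [Mg_eqn hf.2.1] at hQ
  have h0 : QE (0 : ℍ → ℂ) 0 := by
    have h := QE.const 0
    rw [map_zero] at h
    exact h
  have hsum := QE.unique hQ h0
  refine ⟨fun m => Polynomial.C ((-1 : ℂ) ^ m) * P m, ?_, ?_⟩
  · intro m
    exact (Polynomial.natDegree_C_mul_le _ _).trans (hP m)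
  -- the term of index zero
  have hP0 : evl ℂ (P 0) = 1 := by
    have h1 := hPe 0
    have h2 : Mg_e Γ' ((j : ℤ) * ((2 : ℕ) : ℤ)) (h ^ 2) 0 = fun _ => (1 : ℂ) := by
      unfold Mg_e
      rw [Finset.powersetCard_zero, Finset.sum_singleton, Finset.prod_empty]
      rfl
    rw [h2] at h1
    have h3 := QE.unique h1 (QE.const 1)
    rw [mul_zero, mul_zero, pow_zero, one_mul, map_one] at h3
    exact h3
  have hU : ∀ n : ℕ, U ℂ ^ n * (U ℂ)⁻¹ ^ n = 1 := by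
    intro n
    rw [← mul_pow, U_mul_inv, one_pow]
  have hterm : ∀ m ∈ Finset.range (I + 1),
      (PowerSeries.C ((-1 : ℂ) ^ m) * (U ℂ ^ (2 * (j * m)) * evl ℂ (P m))) *
        (H ^ 2) ^ (I - m) * (U ℂ)⁻¹ ^ (2 * (j * I)) =
      evl ℂ (Polynomial.C ((-1 : ℂ) ^ m) * P m) * ((H * (U ℂ)⁻¹ ^ j) ^ 2) ^ (I - m) := by
    intro m hm
    have hmI : m ≤ I := Nat.lt_succ_iff.mp (Finset.mem_range.mp hm)
    have e1 : 2 * (j * I) = 2 * (j * m) + j * 2 * (I - m) := by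
      obtain ⟨r, hr⟩ := Nat.exists_eq_add_of_le hmI
      rw [hr, Nat.add_sub_cancel_left]
      ring
    rw [e1, pow_add, map_mul, LFc_evl_C]
    calc _ = (U ℂ ^ (2 * (j * m)) * (U ℂ)⁻¹ ^ (2 * (j * m))) *
        (PowerSeries.C ((-1 : ℂ) ^ m) * evl ℂ (P m) *
          ((H ^ 2) ^ (I - m) * (U ℂ)⁻¹ ^ (j * 2 * (I - m)))) := by ring
      _ = _ := by
        rw [hU, one_mul]
        congr 1
        rw [mul_pow, mul_pow, ← pow_mul, ← pow_mul, ← pow_mul, mul_assoc j 2]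
  have hfin2 : ∑ m ∈ Finset.range (I + 1),
      evl ℂ (Polynomial.C ((-1 : ℂ) ^ m) * P m) * ((H * (U ℂ)⁻¹ ^ j) ^ 2) ^ (I - m) = 0 := by
    rw [← Finset.sum_congr rfl hterm, ← Finset.sum_mul, hsum, zero_mul]
  rw [Finset.range_eq_Ico, Finset.sum_eq_sum_Ico_succ_bot (Nat.succ_pos I)] at hfin2
  rw [pow_zero, map_one, one_mul, hP0, one_mul, Nat.sub_zero] at hfin2
  rw [← hfin2]
  congr 1

end Pool.Agent.H85.OU

end S_OU_Mg

section S_OU_Mh

/-!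
# Row MH (project OU): q-expansions of modular forms are `LForm`s

`Γ` of finite index, `T ∈ Γ`, `g` of weight `k ≥ 0` for `Γ`, q-expansion `G`.  `Γu` from `exists_Gu`, `Γ2, g2` from `exists_dbl`; `Γ' = Γ ⊓ Γu ⊓ Γ2` has finite index, contains `T`, `Γ' ≤ Γ₀(4)`; `g, g2, uu` are forms for `Γ'`.
`A = {a ∈ ℂ⟦X⟧ : ∃ j h, IsMF Γ' j h ∧ QE h (a U^j)}` is a `ℂ`-subalgebra: constants (`j = 0`); sums: `(a + a') U^(j+j')` is the q-expansion of `h uu^j' + h' uu^j`; products `h h'`.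
* `λ ∈ A`: `λ U² = U² - V²` (`xx_mul_U`), `j = 2`, `h = uu² - b` (`isMF_ga`, `exists_gb'`, `IsMF.mono`); `tR ℂ (th3^4) = U²`, `tR ℂ (th4^4) = V²`.
* `δ`: `a U^j = H`; `δa · U^(j+2) = U^j D a = D H - j ε H` (`D(H U^(-j))`, `Dq_U`); `12 ε = E₂ + 4U² - 5V²` (`ee_E2`), so this is `(D H - (j/12) E₂ H) - (j/12)(4U² - 5V²) H`, the q-expansion of
  `serreDerivative j h - (j/12)(4 uu² - 5 b) h`, a form of weight `j+2` for `Γ'` (`IsMF.serre`, `QE.serre`).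
* every `a ∈ A`: `a²` satisfies a monic equation of degree `I` over `ℂ[λ]` (`sq_int`, `a = H U^(-j)`), so `a` satisfies a monic equation of degree `2I`.  `fg` with `R = 2I` gives `e` with `LD ℂ r e`, `A ⊆ SP ℂ e`.
* `G U^(-k) ∈ A` (`j = k`, `h = g`) and `dbl G U^(-k) ∈ A` (`h = g2`); `IsDeg ℂ k` of the squares: `sq_int` with `j = k` (`IsDeg` with `r = I`).
-/

open PowerSeries UpperHalfPlane ModularForm MatrixGroups CongruenceSubgroup
open scoped Manifold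

namespace Pool.Agent.H85.OU

open Pool.Agent.H85.OT

private theorem Mh_tR3 : tR ℂ (th3 ^ 4) = U ℂ ^ 2 := by
  unfold tR U
  rw [← map_pow]
  congr 1
  ring

private theorem Mh_tR4 : tR ℂ (th4 ^ 4) = V ℂ ^ 2 := by
  unfold tR V
  rw [← map_pow]
  congr 1
  ring

private theorem Mh_Dq_pow (j : ℕ) : Dq ℂ (U ℂ ^ j) = (j : ℂ⟦X⟧) * ee ℂ * U ℂ ^ j := by
  induction j with
  | zero => simp
  | succ j ih =>
    rw [pow_succ, Derivation.leibniz, ih, Dq_U, smul_eq_mul, smul_eq_mul]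
    push_cast
    ring

private theorem Mh_inv_mul (a : ℂ⟦X⟧) (j : ℕ) : a * U ℂ ^ j * (U ℂ)⁻¹ ^ j = a := by
  rw [mul_assoc, ← mul_pow, U_mul_inv, one_pow, mul_one]

private theorem Mh_mul_inv (a : ℂ⟦X⟧) (j : ℕ) : a * (U ℂ)⁻¹ ^ j * U ℂ ^ j = a := by
  rw [mul_assoc, ← mul_pow, mul_comm (U ℂ)⁻¹, U_mul_inv, one_pow, mul_one]

/-- the algebra of the quotients `H U^(-j)` -/
private noncomputable def Mh_A (Γ : Subgroup SL(2, ℤ)) (huu : IsMF Γ 1 uu) : Subalgebra ℂ ℂ⟦X⟧ where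
  carrier := {a | ∃ (j : ℕ) (h : ℍ → ℂ), IsMF Γ (j : ℤ) h ∧ QE h (a * U ℂ ^ j)}
  mul_mem' := by
    rintro a a' ⟨j, h, h1, h2⟩ ⟨j', h', h1', h2'⟩
    refine ⟨j + j', h * h', ?_, ?_⟩
    · rw [Nat.cast_add]
      exact h1.mul h1'
    · have h3 : a * a' * U ℂ ^ (j + j') = (a * U ℂ ^ j) * (a' * U ℂ ^ j') := by
        rw [pow_add]; ring
      rw [h3]
      exact h2.mul h2'
  add_mem' := by
    rintro a a' ⟨j, h, h1, h2⟩ ⟨j', h', h1', h2'⟩
    refine ⟨j + j', h * uu ^ j' + h' * uu ^ j, ?_, ?_⟩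
    · refine IsMF.add ?_ ?_
      · have h3 : ((j + j' : ℕ) : ℤ) = (j : ℤ) + 1 * (j' : ℤ) := by push_cast; ring
        rw [h3]
        exact h1.mul (huu.pow j')
      · have h3 : ((j + j' : ℕ) : ℤ) = (j' : ℤ) + 1 * (j : ℤ) := by push_cast; ring
        rw [h3]
        exact h1'.mul (huu.pow j)
    · have h3 : (a + a') * U ℂ ^ (j + j') = (a * U ℂ ^ j) * U ℂ ^ j' + (a' * U ℂ ^ j') * U ℂ ^ j := by
        rw [pow_add]; ring
      rw [h3]
      exact (h2.mul (QE_uu.pow j')).add (h2'.mul (QE_uu.pow j))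
  algebraMap_mem' := by
    intro c
    refine ⟨0, fun _ => c, IsMF.const Γ c, ?_⟩
    have h3 : algebraMap ℂ ℂ⟦X⟧ c * U ℂ ^ 0 = PowerSeries.C c := by
      rw [pow_zero, mul_one]; rfl
    rw [h3]
    exact QE.const c

private theorem Mh_mem {Γ : Subgroup SL(2, ℤ)} (huu : IsMF Γ 1 uu) {a : ℂ⟦X⟧} :
    a ∈ Mh_A Γ huu ↔ ∃ (j : ℕ) (h : ℍ → ℂ), IsMF Γ (j : ℤ) h ∧ QE h (a * U ℂ ^ j) := Iff.rfl

private theorem Mh_lam {Γ : Subgroup SL(2, ℤ)} (huu : IsMF Γ 1 uu) (hle : Γ ≤ Gamma0 4) :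
    lam ℂ ∈ Mh_A Γ huu := by
  obtain ⟨b, hb, hbQ⟩ := exists_gb'
  obtain ⟨ha, haQ⟩ := isMF_ga
  rw [Mh_mem]
  refine ⟨2, uu ^ 2 + (-1 : ℂ) • b, ?_, ?_⟩
  · exact (ha.mono hle).add ((hb.mono hle).smul _)
  · have h1 := haQ.add (hbQ.smul (-1))
    rw [Mh_tR3, Mh_tR4] at h1
    have h2 : lam ℂ * U ℂ ^ 2 = U ℂ ^ 2 + PowerSeries.C (-1) * V ℂ ^ 2 := by
      have h3 : (PowerSeries.C (-1) : ℂ⟦X⟧) = -1 := by rw [map_neg, map_one]
      rw [lam, h3, ← xx_mul_U]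
      ring
    rw [h2]
    exact h1

private theorem Mh_del {Γ : Subgroup SL(2, ℤ)} (huu : IsMF Γ 1 uu) (hle : Γ ≤ Gamma0 4)
    (a : ℂ⟦X⟧) (haA : a ∈ Mh_A Γ huu) : OT.del ℂ a ∈ Mh_A Γ huu := by
  obtain ⟨b, hb, hbQ⟩ := exists_gb'
  obtain ⟨ha, haQ⟩ := isMF_ga
  rw [Mh_mem] at haA ⊢
  obtain ⟨j, h, h1, h2⟩ := haA
  obtain ⟨c, hc⟩ : ∃ c : ℂ, c = (j : ℂ) / 12 := ⟨_, rfl⟩
  refine ⟨j + 2, Derivative.serreDerivative (j : ℤ) h + (-(4 * c)) • (h * uu ^ 2) + (5 * c) • (h * b),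
    ?_, ?_⟩
  · have h3 : ((j + 2 : ℕ) : ℤ) = (j : ℤ) + 2 := by push_cast; ring
    rw [h3]
    exact (h1.serre.add ((h1.mul (ha.mono hle)).smul _)).add ((h1.mul (hb.mono hle)).smul _)
  · have h3 := ((h2.serre (j : ℤ)).add ((h2.mul haQ).smul (-(4 * c)))).add ((h2.mul hbQ).smul (5 * c))
    have h4 : OT.del ℂ a * U ℂ ^ (j + 2) =
        Dq ℂ (a * U ℂ ^ j) - PowerSeries.C (((j : ℤ) : ℂ) / 12) * E2s * (a * U ℂ ^ j) +
          PowerSeries.C (-(4 * c)) * (a * U ℂ ^ j * tR ℂ (th3 ^ 4)) +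
          PowerSeries.C (5 * c) * (a * U ℂ ^ j * tR ℂ (th4 ^ 4)) := by
      have hE := ee_E2
      have hD : Dq ℂ (a * U ℂ ^ j) = a * ((j : ℂ⟦X⟧) * ee ℂ * U ℂ ^ j) + U ℂ ^ j * Dq ℂ a := by
        rw [Derivation.leibniz, Mh_Dq_pow, smul_eq_mul, smul_eq_mul]
      have hdel : OT.del ℂ a * U ℂ ^ (j + 2) = U ℂ ^ j * Dq ℂ a := by
        rw [del_apply, pow_add]
        have h5 : (U ℂ)⁻¹ ^ 2 * U ℂ ^ 2 = 1 := by
          rw [← mul_pow, mul_comm, U_mul_inv, one_pow]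
        linear_combination (Dq ℂ a * U ℂ ^ j) * h5
      have hcc : (j : ℂ⟦X⟧) = 12 * PowerSeries.C c := by
        have h5 : (12 : ℂ⟦X⟧) = PowerSeries.C (12 : ℂ) := (map_ofNat PowerSeries.C 12).symm
        have h6 : (j : ℂ⟦X⟧) = PowerSeries.C (j : ℂ) := (map_natCast PowerSeries.C j).symm
        rw [h5, h6, ← map_mul, hc]
        congr 1
        ring
      have hc1 : (PowerSeries.C (((j : ℤ) : ℂ) / 12) : ℂ⟦X⟧) = PowerSeries.C c := by
        rw [hc]; push_cast; rfl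
      have hc2 : (PowerSeries.C (-(4 * c)) : ℂ⟦X⟧) = -(4 * PowerSeries.C c) := by
        rw [map_neg, map_mul, map_ofNat]
      have hc3 : (PowerSeries.C (5 * c) : ℂ⟦X⟧) = 5 * PowerSeries.C c := by
        rw [map_mul, map_ofNat]
      rw [hdel, hD, hcc, hc1, hc2, hc3]
      linear_combination (-(PowerSeries.C c) * a * U ℂ ^ j) * hE
    rw [h4]
    exact h3

private theorem Mh_even (I : ℕ) (c : ℕ → Polynomial ℂ) (a : ℂ⟦X⟧) :
    ∑ m ∈ Finset.Icc 1 (2 * I), evl ℂ (if Even m then c (m / 2) else 0) * a ^ (2 * I - m) =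
      ∑ m ∈ Finset.Icc 1 I, evl ℂ (c m) * (a ^ 2) ^ (I - m) := by
  have h1 : ∀ m ∈ Finset.Icc 1 (2 * I), evl ℂ (if Even m then c (m / 2) else 0) * a ^ (2 * I - m) =
      if Even m then evl ℂ (c (m / 2)) * a ^ (2 * I - m) else 0 := by
    intro m _
    split_ifs
    · rfl
    · rw [map_zero, zero_mul]
  rw [Finset.sum_congr rfl h1, ← Finset.sum_filter]
  have h2 : (Finset.Icc 1 (2 * I)).filter (fun m => Even m) = (Finset.Icc 1 I).image (fun m => 2 * m) := by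
    ext m
    rw [Finset.mem_filter, Finset.mem_image, Finset.mem_Icc]
    constructor
    · rintro ⟨⟨h3, h4⟩, n, rfl⟩
      exact ⟨n, Finset.mem_Icc.2 ⟨by omega, by omega⟩, by ring⟩
    · rintro ⟨n, hn, rfl⟩
      rw [Finset.mem_Icc] at hn
      exact ⟨⟨by omega, by omega⟩, n, by ring⟩
  rw [h2, Finset.sum_image (fun x _ y _ hxy => by simpa using hxy)]
  refine Finset.sum_congr rfl fun m _ => ?_
  rw [Nat.mul_div_cancel_left m (by norm_num : 0 < 2), ← pow_mul, Nat.mul_sub]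

theorem lform_of_mf {Γ : Subgroup SL(2, ℤ)} (hfin : Γ.FiniteIndex) (hT : ModularGroup.T ∈ Γ)
    {k : ℕ} {g : ℍ → ℂ} (hg : IsMF Γ (k : ℤ) g) {G : ℂ⟦X⟧} (hG : QE g G) : LForm ℂ k G := by
  obtain ⟨Γu, hufin, hule, huT, huu⟩ := exists_Gu
  obtain ⟨Γ2, g2, h2fin, h2T, hg2, hG2⟩ := exists_dbl hfin hT hg hG
  obtain ⟨Γ', hΓ'⟩ : ∃ Γ' : Subgroup SL(2, ℤ), Γ' = Γ ⊓ Γu ⊓ Γ2 := ⟨_, rfl⟩
  have hfin' : Γ'.FiniteIndex := by
    rw [hΓ']
    haveI := hfin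
    haveI := hufin
    haveI := h2fin
    infer_instance
  have hT' : ModularGroup.T ∈ Γ' := by
    rw [hΓ']
    exact ⟨⟨hT, huT⟩, h2T⟩
  have hle1 : Γ' ≤ Γ := by rw [hΓ']; exact inf_le_left.trans inf_le_left
  have hleu : Γ' ≤ Γu := by rw [hΓ']; exact inf_le_left.trans inf_le_right
  have hle2 : Γ' ≤ Γ2 := by rw [hΓ']; exact inf_le_right
  have hle4 : Γ' ≤ Gamma0 4 := hleu.trans hule
  have huu' : IsMF Γ' 1 uu := huu.mono hleu
  obtain ⟨I, hI, hsq⟩ := sq_int Γ' hfin' hle4 hT'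
  obtain ⟨r, e, hLD, hmem⟩ := fg (Mh_A Γ' huu') (Mh_lam huu' hle4) (Mh_del huu' hle4) (2 * I) (by
    intro a ha
    rw [Mh_mem] at ha
    obtain ⟨j, h, h1, h2⟩ := ha
    obtain ⟨c, -, hc⟩ := hsq j h _ h1 h2
    rw [Mh_inv_mul] at hc
    refine ⟨2 * I, fun m => if Even m then c (m / 2) else 0, by omega, le_rfl, ?_⟩
    rw [Mh_even, pow_mul]
    exact hc)
  refine ⟨r, e, hLD, ?_, ?_, ?_, ?_⟩
  · refine hmem _ ?_
    rw [Mh_mem]
    exact ⟨k, g, hg.mono hle1, by rw [Mh_mul_inv]; exact hG⟩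
  · refine hmem _ ?_
    rw [Mh_mem]
    exact ⟨k, g2, hg2.mono hle2, by rw [Mh_mul_inv]; exact hG2⟩
  · obtain ⟨c, hc1, hc2⟩ := hsq k g G (hg.mono hle1) hG
    exact ⟨I, c, hI, hc1, hc2⟩
  · obtain ⟨c, hc1, hc2⟩ := hsq k g2 (dbl ℂ G) (hg2.mono hle2) hG2
    exact ⟨I, c, hI, hc1, hc2⟩

end Pool.Agent.H85.OU

end S_OU_Mh
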