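import Mathlib
import Pool.Agent.H85.OM.M01
import Pool.Agent.H85.OM.M09
import Pool.Agent.H85.OM.M11

/-! First slopes of modular forms, part M12: this file joins several modules to save build time. -/

section S_OT_Wcong

/-!
# Row WCONG (project OT): finitely many primes do not matter

`cnt P x ≤ cnt P' x + N` if `P p → P' p` for all `p ≥ N`; `Nat.primeCounting x → ∞`.
* `PosLower.congr`: `c π(x) ≤ cnt P x ≤ cnt P' x + N` and `N ≤ (c/2) π(x)` for large `x`.
* `Dich.congr`: given `ε`, take `K, δ, X0` of `Dich S O` for `ε/2`; if `ε π(x) ≤ cnt S' x ≤ cnt S x + N` and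
  `N ≤ (ε/2) π(x)` (`x ≥ X ≥ X0'`) then `(ε/2) π(x) ≤ cnt S x`; and
  `δ π(KX) ≤ cnt O (KX) ≤ cnt O' (KX) + N` gives `(δ/2) π(KX) ≤ cnt O' (KX)` for large `X`.
-/

namespace Pool.Agent.H85.OT

theorem Wcong_cnt {P P' : ℕ → Prop} (N : ℕ) (h : ∀ p ≥ N, P p → P' p) (x : ℕ) :
    cnt P x ≤ cnt P' x + N := by
  classical
  unfold cnt
  have hsub : (Finset.range (x + 1)).filter (fun p => p.Prime ∧ P p) ⊆
      (Finset.range (x + 1)).filter (fun p => p.Prime ∧ P' p) ∪ Finset.range N := by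
    intro p hp
    rw [Finset.mem_filter] at hp
    rw [Finset.mem_union, Finset.mem_filter]
    rcases lt_or_ge p N with hlt | hge
    · exact Or.inr (Finset.mem_range.mpr hlt)
    · exact Or.inl ⟨hp.1, hp.2.1, h p hge hp.2.2⟩
  have h1 := Finset.card_le_card hsub
  have h2 := Finset.card_union_le
    ((Finset.range (x + 1)).filter (fun p => p.Prime ∧ P' p)) (Finset.range N)
  rw [Finset.card_range] at h2
  exact h1.trans h2

theorem Wcong_cntR {P P' : ℕ → Prop} (N : ℕ) (h : ∀ p ≥ N, P p → P' p) (x : ℕ) :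
    (cnt P x : ℝ) ≤ cnt P' x + N := by
  exact_mod_cast Wcong_cnt N h x

theorem Wcong_big (N : ℕ) (c : ℝ) (hc : 0 < c) :
    ∃ x0 : ℕ, ∀ x ≥ x0, (N : ℝ) ≤ c * (Nat.primeCounting x : ℝ) := by
  obtain ⟨M, hM⟩ := exists_nat_gt ((N : ℝ) / c)
  have h1 := (Filter.tendsto_atTop.mp Nat.tendsto_primeCounting) M
  rw [Filter.eventually_atTop] at h1
  obtain ⟨x0, hx0⟩ := h1
  refine ⟨x0, fun x hx => ?_⟩
  have h2 : (M : ℝ) ≤ (Nat.primeCounting x : ℝ) := by exact_mod_cast hx0 x hx
  rw [div_lt_iff₀ hc] at hM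
  nlinarith

theorem PosLower.congr {P P' : ℕ → Prop} (N : ℕ) (h : ∀ p ≥ N, P p → P' p) (hP : PosLower P) :
    PosLower P' := by
  obtain ⟨c, hc, x0, hx0⟩ := hP
  obtain ⟨x1, hx1⟩ := Wcong_big N (c / 2) (by positivity)
  refine ⟨c / 2, by positivity, max x0 x1, fun x hx => ?_⟩
  have h1 := hx0 x (le_trans (le_max_left _ _) hx)
  have h2 := hx1 x (le_trans (le_max_right _ _) hx)
  have h3 := Wcong_cntR N h x
  linarith

theorem Dich.congr {S S' O O' : ℕ → Prop} (N : ℕ) (hS : ∀ p ≥ N, S' p → S p)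
    (hO : ∀ p ≥ N, O p → O' p) (h : Dich S O) : Dich S' O' := by
  intro ε hε
  obtain ⟨K, hK, δ, hδ, X0, hX0⟩ := h (ε / 2) (by positivity)
  obtain ⟨x1, hx1⟩ := Wcong_big N (ε / 2) (by positivity)
  obtain ⟨x2, hx2⟩ := Wcong_big N (δ / 2) (by positivity)
  refine ⟨K, hK, δ / 2, by positivity, max X0 (max x1 x2), fun X hX hyp => ?_⟩
  have hXa : X0 ≤ X := le_trans (le_max_left _ _) hX
  have hXb : x1 ≤ X := le_trans (le_trans (le_max_left _ _) (le_max_right _ _)) hX
  have hXc : x2 ≤ X := le_trans (le_trans (le_max_right _ _) (le_max_right _ _)) hX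
  have hKX : X ≤ K * X := Nat.le_mul_of_pos_left X hK
  have h1 := hX0 X hXa (fun x hx hx' => by
    have h2 := hyp x hx hx'
    have h3 := Wcong_cntR N hS x
    have h4 := hx1 x (hXb.trans hx)
    linarith)
  have h5 := Wcong_cntR N hO (K * X)
  have h6 := hx2 (K * X) (hXc.trans hKX)
  linarith

end Pool.Agent.H85.OT

end S_OT_Wcong

section S_OT_Weig

/-!
# Row WEIG (project OT): eigenforms with coefficients in a ring

Same as row VSL (file `Vsl.lean`) with a commutative ring `R` in place of `ℤ`.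
`F ∈ R⟦X⟧`, `k ≥ 4`, `p` prime, `χ ∈ R` (value of the character), `a_(pn) = a_p a_n - χ p^(k-1) a_(n/p)` for all `n ≥ 1`
(`a_(n/p) = 0` if `p ∤ n`).
* `p² ∣ a_p` implies `p^(v+1) ∣ a_(p^v m)` for `v ≥ 1`, `p ∤ m`: `v = 1`: `a_(pm) = a_p a_m`; step:
  `a_(p^(v+1) m) = a_p a_(p^v m) - χ p^(k-1) a_(p^(v-1) m)`: the first term is divisible by `p^(v+3)`, the second by `p³` if `v = 1`
  and by `p^(3+v)` if `v ≥ 2`.
* `p ∣ a_p` implies `p^v ∣ a_(p^v m)`.
-/

open PowerSeries

namespace Pool.Agent.H85.OT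

theorem Weig_rec {R : Type*} [CommRing R] {F : R⟦X⟧} {k p : ℕ} (hp : p.Prime) {χ : R}
    (h : ∀ n : ℕ, 1 ≤ n → PowerSeries.coeff (p * n) F =
      PowerSeries.coeff p F * PowerSeries.coeff n F -
        χ * (p : R) ^ (k - 1) * (if p ∣ n then PowerSeries.coeff (n / p) F else 0))
    {m : ℕ} (hm : 1 ≤ m) (hpm : ¬ p ∣ m) :
    PowerSeries.coeff (p ^ 1 * m) F = PowerSeries.coeff p F * PowerSeries.coeff (p ^ 0 * m) F ∧
      ∀ v : ℕ, PowerSeries.coeff (p ^ (v + 2) * m) F =
        PowerSeries.coeff p F * PowerSeries.coeff (p ^ (v + 1) * m) F -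
          χ * (p : R) ^ (k - 1) * PowerSeries.coeff (p ^ v * m) F := by
  refine ⟨?_, fun v => ?_⟩
  · rw [pow_one, pow_zero, one_mul, h m hm, if_neg hpm, mul_zero, sub_zero]
  · have e1 : p ^ (v + 2) * m = p * (p ^ (v + 1) * m) := by ring
    have hpos : 1 ≤ p ^ (v + 1) * m := Nat.mul_pos (pow_pos hp.pos _) hm
    have e2 : p ^ (v + 1) * m = p * (p ^ v * m) := by ring
    have hdv : p ∣ p ^ (v + 1) * m := ⟨p ^ v * m, e2⟩
    have e3 : p ^ (v + 1) * m / p = p ^ v * m := by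
      rw [e2]
      exact Nat.mul_div_cancel_left _ hp.pos
    rw [e1, h _ hpos, if_pos hdv, e3]

theorem Weig_val {p : ℕ} (hp : p.Prime) {n : ℕ} (hn : 1 ≤ n) :
    ∃ m, 1 ≤ m ∧ ¬ p ∣ m ∧ n = p ^ padicValNat p n * m := by
  haveI : Fact p.Prime := ⟨hp⟩
  obtain ⟨e, m, hm, he⟩ := Nat.exists_eq_pow_mul_and_not_dvd (by omega : n ≠ 0) p hp.ne_one
  have hm1 : 1 ≤ m := by
    rcases Nat.eq_zero_or_pos m with h0 | h0
    · rw [h0, mul_zero] at he
      omega
    · exact h0
  have hv : padicValNat p n = e := by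
    rw [he, padicValNat.mul (pow_ne_zero _ hp.ne_zero) (by omega), padicValNat.prime_pow,
      padicValNat.eq_zero_of_not_dvd hm, add_zero]
  exact ⟨m, hm1, hm, by rw [hv]; exact he⟩

theorem sl2R_of_dvd {R : Type*} [CommRing R] (F : R⟦X⟧) (k p : ℕ) (hk : 4 ≤ k) (hp : p.Prime)
    (χ : R)
    (h : ∀ n : ℕ, 1 ≤ n → PowerSeries.coeff (p * n) F =
      PowerSeries.coeff p F * PowerSeries.coeff n F -
        χ * (p : R) ^ (k - 1) * (if p ∣ n then PowerSeries.coeff (n / p) F else 0))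
    (hd : (p : R) ^ 2 ∣ PowerSeries.coeff p F) : Sl2R F p := by
  have hk3 : (p : R) ^ 3 ∣ χ * (p : R) ^ (k - 1) :=
    (pow_dvd_pow _ (by omega)).mul_left χ
  intro n hn hpn
  obtain ⟨m, hm, hpm, hnm⟩ := Weig_val hp hn
  obtain ⟨r1, r2⟩ := Weig_rec hp h hm hpm
  have key : ∀ v : ℕ, (p : R) ^ (v + 2) ∣ PowerSeries.coeff (p ^ (v + 1) * m) F ∧
      (p : R) ^ (v + 3) ∣ PowerSeries.coeff (p ^ (v + 2) * m) F := by
    intro v
    induction v with
    | zero =>
      have h0 : (p : R) ^ 2 ∣ PowerSeries.coeff (p ^ 1 * m) F := by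
        rw [r1]
        exact hd.mul_right _
      refine ⟨h0, ?_⟩
      rw [r2 0]
      refine dvd_sub ?_ (hk3.mul_right _)
      have h1 := mul_dvd_mul hd h0
      rw [← pow_add] at h1
      exact (pow_dvd_pow _ (by norm_num)).trans h1
    | succ v ih =>
      refine ⟨ih.2, ?_⟩
      have e := r2 (v + 1)
      rw [e]
      refine dvd_sub ?_ ?_
      · have h1 := mul_dvd_mul hd ih.2
        rw [← pow_add] at h1
        exact (pow_dvd_pow _ (by omega)).trans h1
      · have h1 := mul_dvd_mul hk3 ih.1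
        rw [← pow_add] at h1
        exact (pow_dvd_pow _ (by omega)).trans h1
  have hv : padicValNat p n ≠ 0 := by
    intro h0
    rw [h0, pow_zero, one_mul] at hnm
    exact hpm (hnm ▸ hpn)
  obtain ⟨w, hw⟩ := Nat.exists_eq_succ_of_ne_zero hv
  rw [hw] at hnm ⊢
  have h1 := (key w).1
  rw [← Nat.succ_eq_add_one w, ← hnm] at h1
  exact h1

theorem not_ord0R_of_dvd {R : Type*} [CommRing R] (F : R⟦X⟧) (k p : ℕ) (hk : 4 ≤ k)
    (hp : p.Prime) (χ : R)
    (h : ∀ n : ℕ, 1 ≤ n → PowerSeries.coeff (p * n) F =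
      PowerSeries.coeff p F * PowerSeries.coeff n F -
        χ * (p : R) ^ (k - 1) * (if p ∣ n then PowerSeries.coeff (n / p) F else 0))
    (hd : (p : R) ∣ PowerSeries.coeff p F) : ¬ Ord0R F p := by
  have hk3 : (p : R) ^ 3 ∣ χ * (p : R) ^ (k - 1) :=
    (pow_dvd_pow _ (by omega)).mul_left χ
  rintro ⟨n, hn, hnd⟩
  apply hnd
  obtain ⟨m, hm, hpm, hnm⟩ := Weig_val hp hn
  obtain ⟨r1, r2⟩ := Weig_rec hp h hm hpm
  have key : ∀ v : ℕ, (p : R) ^ v ∣ PowerSeries.coeff (p ^ v * m) F ∧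
      (p : R) ^ (v + 1) ∣ PowerSeries.coeff (p ^ (v + 1) * m) F := by
    intro v
    induction v with
    | zero =>
      refine ⟨by rw [pow_zero]; exact one_dvd _, ?_⟩
      rw [zero_add, r1, pow_one]
      exact hd.mul_right _
    | succ v ih =>
      refine ⟨ih.2, ?_⟩
      have e := r2 v
      rw [show v + 1 + 1 = v + 2 from rfl, e]
      refine dvd_sub ?_ ?_
      · have h1 := mul_dvd_mul hd ih.2
        rw [← pow_succ'] at h1
        exact h1
      · have h1 := mul_dvd_mul hk3 ih.1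
        rw [← pow_add] at h1
        exact (pow_dvd_pow _ (by omega)).trans h1
  have h1 := (key (padicValNat p n)).1
  rw [← hnm] at h1
  exact h1

end Pool.Agent.H85.OT

end S_OT_Weig

section S_OT_AofB

/-!
# Row AOFB (project OT): the dichotomy implies positive lower density

Let `O p → ¬ S p`, `Dich S O`.  Take `ε = 1/2`: `K ≥ 1, δ, X0`; `C1, X1` from `pi_ratio`;
`c = min δ (1/(2 C1))`.  Claim: for `X ≥ max X0 X1`, `c π(KX) ≤ cnt (¬S) (KX)`.
If not, `cnt (¬S)(KX) < c π(KX) ≤ (1/2) π(X)`.  For `X ≤ x ≤ KX`: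
`cnt S x = π(x) - cnt (¬S) x ≥ π(x) - cnt (¬S)(KX) ≥ π(x) - (1/2) π(X) ≥ (1/2) π(x)` (`cnt S x + cnt (¬S) x = π(x)`),
so `δ π(KX) ≤ cnt O (KX) ≤ cnt (¬S)(KX)`, contradiction.
General `x`: `X = x / K`, `K X ≤ x < K X + K`; `π(x) ≤ π(KX) + K ≤ 2 π(KX)` once `π(KX) ≥ K` (large `x`); so
`cnt (¬S) x ≥ cnt (¬S)(KX) ≥ c π(KX) ≥ (c/2) π(x)`.
(`Nat.primeCounting` is monotone, tends to infinity; `Nat.primeCounting x` equals the card of
`(Finset.range (x+1)).filter Nat.Prime` : `Nat.primeCounting'`, `Nat.count_eq_card_filter_range`.)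
-/

namespace Pool.Agent.H85.OT

private theorem AofB_pi (x : ℕ) : Nat.primeCounting x = ((Finset.range (x + 1)).filter Nat.Prime).card := by
  rw [Nat.primeCounting_eq_primeCounting'_succ, Nat.primeCounting', Nat.count_eq_card_filter_range]

private theorem AofB_add (S : ℕ → Prop) (x : ℕ) : cnt S x + cnt (fun p => ¬ S p) x = Nat.primeCounting x := by
  classical
  rw [AofB_pi]
  have h1 : cnt S x = (((Finset.range (x + 1)).filter Nat.Prime).filter S).card := by
    unfold cnt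
    rw [Finset.filter_filter]
  have h2 : cnt (fun p => ¬ S p) x = (((Finset.range (x + 1)).filter Nat.Prime).filter (fun p => ¬ S p)).card := by
    unfold cnt
    rw [Finset.filter_filter]
    congr!
  rw [h1, h2]
  exact Finset.card_filter_add_card_filter_not _

private theorem AofB_mono (P : ℕ → Prop) {x y : ℕ} (h : x ≤ y) : cnt P x ≤ cnt P y := by
  classical
  unfold cnt
  refine Finset.card_le_card ?_
  intro p hp
  rw [Finset.mem_filter] at hp ⊢
  exact ⟨Finset.mem_range.2 (by have := Finset.mem_range.1 hp.1; omega), hp.2⟩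

private theorem AofB_imp (P Q : ℕ → Prop) (h : ∀ p, P p → Q p) (x : ℕ) : cnt P x ≤ cnt Q x := by
  classical
  unfold cnt
  refine Finset.card_le_card ?_
  intro p hp
  rw [Finset.mem_filter] at hp ⊢
  exact ⟨hp.1, hp.2.1, h p hp.2.2⟩

private theorem AofB_step (a b : ℕ) : Nat.primeCounting (a + b) ≤ Nat.primeCounting a + b := by
  induction b with
  | zero => simp
  | succ b ih =>
    have h1 : Nat.primeCounting (a + (b + 1)) ≤ Nat.primeCounting (a + b) + 1 := by
      rw [Nat.primeCounting_eq_primeCounting'_succ, Nat.primeCounting_eq_primeCounting'_succ,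
        Nat.primeCounting', ← add_assoc, Nat.count_succ]
      split_ifs <;> omega
    omega

theorem posLower_of_dich (S O : ℕ → Prop) (hSO : ∀ p, O p → ¬ S p) (h : Dich S O) :
    PosLower (fun p => ¬ S p) := by
  obtain ⟨K, hK, δ, hδ, X0, hX0⟩ := h (1 / 2) (by norm_num)
  obtain ⟨C1, hC1, X1, hX1⟩ := pi_ratio K hK
  have hc0 : 0 < min δ (1 / (2 * C1)) := lt_min hδ (by positivity)
  have hcδ : min δ (1 / (2 * C1)) ≤ δ := min_le_left _ _
  have hcC : min δ (1 / (2 * C1)) ≤ 1 / (2 * C1) := min_le_right _ _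
  generalize min δ (1 / (2 * C1)) = c at hc0 hcδ hcC
  have claim : ∀ X ≥ max X0 X1, c * (Nat.primeCounting (K * X) : ℝ) ≤ cnt (fun p => ¬ S p) (K * X) := by
    intro X hX
    by_contra hcon
    rw [not_le] at hcon
    have hp0 : (0 : ℝ) ≤ (Nat.primeCounting (K * X) : ℝ) := Nat.cast_nonneg _
    have h1 : c * (Nat.primeCounting (K * X) : ℝ) ≤ (Nat.primeCounting X : ℝ) / 2 := by
      have h2 := hX1 X ((le_max_right _ _).trans hX)
      calc c * (Nat.primeCounting (K * X) : ℝ) ≤ 1 / (2 * C1) * (Nat.primeCounting (K * X) : ℝ) :=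
            mul_le_mul_of_nonneg_right hcC hp0
        _ ≤ 1 / (2 * C1) * (C1 * Nat.primeCounting X) := mul_le_mul_of_nonneg_left h2 (by positivity)
        _ = (Nat.primeCounting X : ℝ) / 2 := by
          field_simp
    have h3 := hX0 X ((le_max_left _ _).trans hX) (fun x hx1 hx2 => by
      have h4 : (cnt S x : ℝ) + (cnt (fun p => ¬ S p) x : ℝ) = (Nat.primeCounting x : ℝ) := by
        exact_mod_cast AofB_add S x
      have h5 : (cnt (fun p => ¬ S p) x : ℝ) ≤ (cnt (fun p => ¬ S p) (K * X) : ℝ) := by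
        exact_mod_cast AofB_mono _ hx2
      have h6 : (Nat.primeCounting X : ℝ) ≤ (Nat.primeCounting x : ℝ) := by
        exact_mod_cast Nat.monotone_primeCounting hx1
      linarith)
    have h7 : (cnt O (K * X) : ℝ) ≤ (cnt (fun p => ¬ S p) (K * X) : ℝ) := by
      exact_mod_cast AofB_imp O _ hSO (K * X)
    have h8 : c * (Nat.primeCounting (K * X) : ℝ) ≤ δ * (Nat.primeCounting (K * X) : ℝ) :=
      mul_le_mul_of_nonneg_right hcδ hp0
    linarith
  obtain ⟨n0, hn0⟩ := Filter.eventually_atTop.1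
    (Nat.tendsto_primeCounting.eventually (Filter.eventually_ge_atTop K))
  refine ⟨c / 2, by positivity, K * max X0 X1 + n0 + K, fun x hx => ?_⟩
  have hXge : max X0 X1 ≤ x / K := by
    rw [Nat.le_div_iff_mul_le (by omega), mul_comm]
    omega
  have hdiv : K * (x / K) + x % K = x := Nat.div_add_mod x K
  have hmod : x % K < K := Nat.mod_lt _ (by omega)
  generalize x / K = X at hXge hdiv
  have h1 := claim X hXge
  have h2 : Nat.primeCounting x ≤ Nat.primeCounting (K * X) + K := by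
    have h3 := AofB_step (K * X) (x % K)
    rw [hdiv] at h3
    omega
  have h3 : K ≤ Nat.primeCounting (K * X) := by
    apply hn0
    omega
  have h4 : (Nat.primeCounting x : ℝ) ≤ 2 * (Nat.primeCounting (K * X) : ℝ) := by
    have h5 : Nat.primeCounting x ≤ 2 * Nat.primeCounting (K * X) := by omega
    exact_mod_cast h5
  have h6 : (cnt (fun p => ¬ S p) (K * X) : ℝ) ≤ (cnt (fun p => ¬ S p) x : ℝ) := by
    exact_mod_cast AofB_mono _ (by omega)
  have h7 : c / 2 * (Nat.primeCounting x : ℝ) ≤ c / 2 * (2 * (Nat.primeCounting (K * X) : ℝ)) :=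
    mul_le_mul_of_nonneg_left h4 (by positivity)
  linarith

end Pool.Agent.H85.OT

end S_OT_AofB

section S_OU_FinL

/-!
# Final assembly of the project OU
-/

open PowerSeries UpperHalfPlane ModularForm MatrixGroups CongruenceSubgroup NumberField

namespace Pool.Agent.H85.OU

open Pool.Agent.H85.OT

/-- `Ord0R` and `Sl2R` exclude each other -/
theorem not_sl2R {R : Type*} [CommRing R] (f : R⟦X⟧) (p : ℕ)
    (hO : Ord0R f p) : ¬ Sl2R f p := by
  rintro hS
  obtain ⟨n, hn, h⟩ := hO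
  apply h
  by_cases hp : p ∣ n
  · exact dvd_trans (pow_dvd_pow _ (Nat.le_succ _)) (hS n hn hp)
  · have : padicValNat p n = 0 := padicValNat.eq_zero_of_not_dvd hp
    rw [this, pow_zero]
    exact one_dvd _

/-- modular forms of weight `k ≥ 3` for subgroups of finite index of `SL₂(ℤ)` -/
theorem main_all (E : Type) [Field E] [NumberField E] (σ : E →+* ℂ) (Γ : Subgroup SL(2, ℤ))
    [hfin : Γ.FiniteIndex] (hT : ModularGroup.T ∈ Γ) (k : ℕ) (hk : 3 ≤ k)
    (g : ModularForm (Γ : Subgroup (GL (Fin 2) ℝ)) (k : ℤ)) (F : (𝓞 E)⟦X⟧)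
    (hF : qExpansion 1 (g : ℍ → ℂ) = PowerSeries.map (σ.comp (algebraMap (𝓞 E) E)) F)
    (hne : F ≠ 0) (h0 : PowerSeries.coeff 0 F = 0) :
    Dich (Sl2R F) (Ord0R F) := by
  have hg := IsMF.of_modularForm g
  have h1 : LForm ℂ k (qExpansion 1 (g : ℍ → ℂ)) := lform_of_mf hfin hT hg (hg.exists_QE hT)
  rw [hF] at h1
  have h2 : LForm E k (PowerSeries.map (algebraMap (𝓞 E) E) F) := by
    refine LForm.descend σ ?_
    have e : PowerSeries.map σ (PowerSeries.map (algebraMap (𝓞 E) E) F) =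
        PowerSeries.map (σ.comp (algebraMap (𝓞 E) E)) F := by
      ext n
      simp
    rwa [e]
  exact dichotomy_OL E F k hk h2 hne h0

/-- eigenforms -/
theorem main_eigL (E : Type) [Field E] [NumberField E] (k : ℕ) (hk : 4 ≤ k)
    (F : (𝓞 E)⟦X⟧) (h : Dich (Sl2R F) (Ord0R F)) (N : ℕ) (hN : 1 ≤ N) (χ : ℕ → 𝓞 E)
    (heck : ∀ p : ℕ, p.Prime → ¬ p ∣ N → ∀ n : ℕ, 1 ≤ n → PowerSeries.coeff (p * n) F =
      PowerSeries.coeff p F * PowerSeries.coeff n F -
        χ p * (p : 𝓞 E) ^ (k - 1) * (if p ∣ n then PowerSeries.coeff (n / p) F else 0)) :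
    Dich (fun p => (p : 𝓞 E) ^ 2 ∣ PowerSeries.coeff p F)
      (fun p => ¬ (p : 𝓞 E) ∣ PowerSeries.coeff p F) := by
  have key : ∀ p : ℕ, p.Prime → N + 1 ≤ p →
      ((p : 𝓞 E) ^ 2 ∣ PowerSeries.coeff p F → Sl2R F p) ∧
      (Ord0R F p → ¬ (p : 𝓞 E) ∣ PowerSeries.coeff p F) := by
    intro p hp h3
    have h4 := heck p hp (fun hd => by have := Nat.le_of_dvd (by omega) hd; omega)
    exact ⟨fun hd => sl2R_of_dvd F k p hk hp (χ p) h4 hd,
      fun hO hd => not_ord0R_of_dvd F k p hk hp (χ p) h4 hd hO⟩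
  have hcnt : ∀ (P Q : ℕ → Prop), (∀ p, p.Prime → (P p ↔ Q p)) → ∀ x, cnt P x = cnt Q x := by
    intro P Q hPQ x
    classical
    unfold cnt
    refine congrArg Finset.card (Finset.filter_congr fun p _ => ?_)
    constructor
    · rintro ⟨h1, h2⟩; exact ⟨h1, (hPQ p h1).1 h2⟩
    · rintro ⟨h1, h2⟩; exact ⟨h1, (hPQ p h1).2 h2⟩
  have h5 : Dich (fun p => p.Prime ∧ (p : 𝓞 E) ^ 2 ∣ PowerSeries.coeff p F)
      (fun p => ¬ p.Prime ∨ ¬ (p : 𝓞 E) ∣ PowerSeries.coeff p F) := by
    refine Dich.congr (N + 1) (fun p h3 hp => (key p hp.1 h3).1 hp.2) (fun p h3 hO => ?_) h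
    by_cases hp : p.Prime
    · exact Or.inr ((key p hp h3).2 hO)
    · exact Or.inl hp
  intro ε hε
  obtain ⟨K, hK, δ, hδ, X0, hX⟩ := h5 ε hε
  refine ⟨K, hK, δ, hδ, X0, fun X hX0 hx => ?_⟩
  have h6 := hX X hX0 (fun x hx1 hx2 => by
    rw [hcnt _ (fun p => (p : 𝓞 E) ^ 2 ∣ PowerSeries.coeff p F) (fun p hp => by simp [hp]) x]
    exact hx x hx1 hx2)
  rw [hcnt _ (fun p => ¬ (p : 𝓞 E) ∣ PowerSeries.coeff p F) (fun p hp => by simp [hp]) (K * X)]
    at h6
  exact h6

end Pool.Agent.H85.OU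

end S_OU_FinL

section S_OU_Alt

/-!
# Row ALT (project OU): the dichotomy in terms of densities

`UpperOne P`: the primes with `P` have upper density one.  Claim: `Dich S O` implies `PosLower O` or `UpperOne (¬ S)`.
Suppose `PosLower O` fails: for all `c > 0` and `x0` there is `x ≥ x0` with `cnt O x < c π(x)`.  Given `ε > 0` and `X1`; let `K, δ, X0` be given by `Dich` for `ε`.  Take `c = δ/2` and `x` large with `cnt O x < c π(x)`;
`X = x / K` (natural division), `K X ≤ x < K X + K`, `π(x) ≤ π(K X) + K ≤ 2 π(K X)` (`x` large, `AofB_step`), so `cnt O (K X) ≤ cnt O x < (δ/2) 2 π(K X) = δ π(K X)`.  So (`X ≥ X0`, `X ≥ X1`, `X` large) the hypothesis of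
`Dich` fails: there is `y` with `X ≤ y ≤ K X` and `cnt S y < ε π(y)`, and `cnt (¬S) y = π(y) - cnt S y ≥ (1 - ε) π(y)` (`AofB_add`).
(The lemmas `AofB_*` of `OT/AofB.lean` are private: copy them.)
-/

namespace Pool.Agent.H85.OU

open Pool.Agent.H85.OT

private theorem Alt_pi (x : ℕ) :
    Nat.primeCounting x = ((Finset.range (x + 1)).filter Nat.Prime).card := by
  rw [Nat.primeCounting_eq_primeCounting'_succ, Nat.primeCounting', Nat.count_eq_card_filter_range]

private theorem Alt_add (S : ℕ → Prop) (x : ℕ) :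
    cnt S x + cnt (fun p => ¬ S p) x = Nat.primeCounting x := by
  classical
  rw [Alt_pi]
  have h1 : cnt S x = (((Finset.range (x + 1)).filter Nat.Prime).filter S).card := by
    unfold cnt
    rw [Finset.filter_filter]
  have h2 : cnt (fun p => ¬ S p) x =
      (((Finset.range (x + 1)).filter Nat.Prime).filter (fun p => ¬ S p)).card := by
    unfold cnt
    rw [Finset.filter_filter]
    congr!
  rw [h1, h2]
  exact Finset.card_filter_add_card_filter_not _

private theorem Alt_mono (P : ℕ → Prop) {x y : ℕ} (h : x ≤ y) : cnt P x ≤ cnt P y := by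
  classical
  unfold cnt
  refine Finset.card_le_card ?_
  intro p hp
  rw [Finset.mem_filter] at hp ⊢
  exact ⟨Finset.mem_range.2 (by have := Finset.mem_range.1 hp.1; omega), hp.2⟩

private theorem Alt_step (a b : ℕ) :
    Nat.primeCounting (a + b) ≤ Nat.primeCounting a + b := by
  induction b with
  | zero => simp
  | succ b ih =>
    have h1 : Nat.primeCounting (a + (b + 1)) ≤ Nat.primeCounting (a + b) + 1 := by
      rw [Nat.primeCounting_eq_primeCounting'_succ, Nat.primeCounting_eq_primeCounting'_succ,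
        Nat.primeCounting', ← add_assoc, Nat.count_succ]
      split_ifs <;> omega
    omega

theorem posLower_or (S O : ℕ → Prop) (h : Dich S O) :
    PosLower O ∨ UpperOne (fun p => ¬ S p) := by
  by_cases hO : PosLower O
  · exact Or.inl hO
  right
  intro ε hε X1
  obtain ⟨K, hK, δ, hδ, X0, hX0⟩ := h ε hε
  unfold PosLower at hO
  push Not at hO
  obtain ⟨n0, hn0⟩ := Filter.eventually_atTop.1
    (Nat.tendsto_primeCounting.eventually (Filter.eventually_ge_atTop K))
  obtain ⟨x, hx, hcnt⟩ := hO (δ / 2) (by positivity) (K * max X0 X1 + n0 + K)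
  have hXge : max X0 X1 ≤ x / K := by
    rw [Nat.le_div_iff_mul_le (by omega), mul_comm]
    omega
  have hdiv : K * (x / K) + x % K = x := Nat.div_add_mod x K
  have hmod : x % K < K := Nat.mod_lt _ (by omega)
  generalize x / K = X at hXge hdiv
  have h2 : Nat.primeCounting x ≤ Nat.primeCounting (K * X) + K := by
    have h3 := Alt_step (K * X) (x % K)
    rw [hdiv] at h3
    omega
  have h3 : K ≤ Nat.primeCounting (K * X) := by
    apply hn0
    omega
  have h4 : (Nat.primeCounting x : ℝ) ≤ 2 * (Nat.primeCounting (K * X) : ℝ) := by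
    have h5 : Nat.primeCounting x ≤ 2 * Nat.primeCounting (K * X) := by omega
    exact_mod_cast h5
  have h6 : (cnt O (K * X) : ℝ) ≤ (cnt O x : ℝ) := by
    exact_mod_cast Alt_mono _ (by omega)
  have h7 : (cnt O (K * X) : ℝ) < δ * (Nat.primeCounting (K * X) : ℝ) := by
    have h8 : δ / 2 * (Nat.primeCounting x : ℝ) ≤
        δ / 2 * (2 * (Nat.primeCounting (K * X) : ℝ)) :=
      mul_le_mul_of_nonneg_left h4 (by positivity)
    linarith
  have h9 : ∃ y : ℕ, X ≤ y ∧ y ≤ K * X ∧ (cnt S y : ℝ) < ε * (Nat.primeCounting y : ℝ) := by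
    by_contra hno
    push Not at hno
    have := hX0 X ((le_max_left _ _).trans hXge) hno
    linarith
  obtain ⟨y, hy1, hy2, hy3⟩ := h9
  refine ⟨y, ((le_max_right _ _).trans hXge).trans hy1, ?_⟩
  have h10 : (cnt S y : ℝ) + (cnt (fun p => ¬ S p) y : ℝ) = (Nat.primeCounting y : ℝ) := by
    exact_mod_cast Alt_add S y
  linarith

end Pool.Agent.H85.OU

end S_OU_Alt
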